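import Pool.Agent.Lib.MP_6947cd_al.TB.P35
import Pool.Agent.Lib.MP_6947cd_al.TB.P36
import Pool.Agent.Lib.MP_6947cd_al.TB.P37
import Pool.Agent.Lib.MP_6947cd_al.TB.P38
import Pool.Agent.Lib.MP_6947cd_al.TB.P39
import Pool.Agent.Lib.MP_6947cd_al.TB.P40
import Pool.Agent.Lib.MP_6947cd_al.TB.P41
import Pool.Agent.Lib.MP_6947cd_al.TB.P42
import Pool.Agent.Lib.MP_6947cd_al.TB.P43
import Pool.Agent.Lib.MP_6947cd_al.TB.P44
import Pool.Agent.Lib.MP_6947cd_al.TB.P45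

/-!
Problem MP_6947cd_al (Chollet).  THE FAMILIES OF TABLES ARE CORRECT, part 13.
-/

set_option autoImplicit false
set_option maxHeartbeats 0
set_option maxRecDepth 100000
set_option linter.all false

namespace Pool.Agent.Lib.MP_6947cd_al
namespace TB

open Ent Ent.Pk Fr Fr.WT B1 PkA PkA.TF

theorem T_140_180_ok (h : RcOK RE.rowE) : T_140_180.OK :=
  okF (by decide +kernel) (ndF (ndF (ndF (ndF (ndF (ndF (ndF (ndF TOK.nil TOK.nil (p35 h).2.1.2.2.2.1.2.2.2.1 (by decide +kernel)) TOK.nil (p35 h).2.1.2.2.2.1.2.2.2.2 (by decide +kernel)) (ndF TOK.nil TOK.nil (p35 h).2.1.2.2.2.2.1.1.2 (by decide +kernel)) (p35 h).2.1.2.2.2.2.1.1.1 (by decide +kernel)) (ndF (ndF TOK.nil TOK.nil (p35 h).2.1.2.2.2.2.1.2.2.1 (by decide +kernel)) (ndF TOK.nil TOK.nil (p35 h).2.1.2.2.2.2.2.1.1 (by decide +kernel)) (p35 h).2.1.2.2.2.2.1.2.2.2 (by decide +kernel))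 (p35 h).2.1.2.2.2.2.1.2.1 (by decide +kernel)) (ndF (ndF (ndF (ndF TOK.nil TOK.nil (p35 h).2.1.2.2.2.2.2.1.2.2 (by decide +kernel)) TOK.nil (p35 h).2.1.2.2.2.2.2.2.1 (by decide +kernel)) (ndF TOK.nil TOK.nil (p35 h).2.1.2.2.2.2.2.2.2.2 (by decide +kernel)) (p35 h).2.1.2.2.2.2.2.2.2.1 (by decide +kernel)) (ndF (ndF TOK.nil TOK.nil (p35 h).2.2.1.1.1.1.1.1.2 (by decide +kernel)) (ndF TOK.nil TOK.nil (p35 h).2.2.1.1.1.1.1.2.2.1 (by decide +kernel)) (p35 h).2.2.1.1.1.1.1.2.1 (by decide +kernel)) (p35 h).2.2.1.1.1.1.1.1.1 (by decide +kernel)) (p35 h).2.1.2.2.2.2.2.1.2.1 (by decide +kernel)) (ndF (ndF (ndF (ndF (ndF TOK.nil TOK.nil (p35 h).2.2.1.1.1.1.2.1.1 (by decide +kernel)) TOK.nil (p35 h).2.2.1.1.1.1.2.1.2 (by decide +kernel)) (ndF TOK.nil TOK.nil (p35 h).2.2.1.1.1.1.2.2.2.1 (by decide +kernel)) (p35 h).2.2.1.1.1.1.2.2.1 (by decide +kernel))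 (ndF (ndF TOK.nil TOK.nil (p35 h).2.2.1.1.1.2.1.1.1 (by decide +kernel)) (ndF TOK.nil TOK.nil (p35 h).2.2.1.1.1.2.1.2.1 (by decide +kernel)) (p35 h).2.2.1.1.1.2.1.1.2 (by decide +kernel)) (p35 h).2.2.1.1.1.1.2.2.2.2 (by decide +kernel)) (ndF (ndF (ndF TOK.nil TOK.nil (p35 h).2.2.1.1.1.2.1.2.2.2 (by decide +kernel)) (ndF TOK.nil TOK.nil (p35 h).2.2.1.1.1.2.2.1.2 (by decide +kernel)) (p35 h).2.2.1.1.1.2.2.1.1 (by decide +kernel)) (ndF (ndF TOK.nil TOK.nil (p35 h).2.2.1.1.1.2.2.2.2.1 (by decide +kernel)) (ndF TOK.nil TOK.nil (p35 h).2.2.1.1.2.1.1.1.1 (by decide +kernel)) (p35 h).2.2.1.1.1.2.2.2.2.2 (by decide +kernel)) (p35 h).2.2.1.1.1.2.2.2.1 (by decide +kernel)) (p35 h).2.2.1.1.1.2.1.2.2.1 (by decide +kernel)) (p35 h).2.2.1.1.1.1.1.2.2.2 (by decide +kernel)) (ndF (ndF (ndF (ndF (ndF (ndF TOK.nil TOK.nil (p35 h).2.2.1.1.2.1.1.2.1 (by decide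 +kernel)) TOK.nil (p35 h).2.2.1.1.2.1.1.2.2.1 (by decide +kernel)) (ndF TOK.nil TOK.nil (p35 h).2.2.1.1.2.1.2.1.1 (by decide +kernel)) (p35 h).2.2.1.1.2.1.1.2.2.2 (by decide +kernel)) (ndF (ndF TOK.nil TOK.nil (p35 h).2.2.1.1.2.1.2.2.1 (by decide +kernel)) (ndF TOK.nil TOK.nil (p35 h).2.2.1.1.2.1.2.2.2.2 (by decide +kernel)) (p35 h).2.2.1.1.2.1.2.2.2.1 (by decide +kernel)) (p35 h).2.2.1.1.2.1.2.1.2 (by decide +kernel)) (ndF (ndF (ndF TOK.nil TOK.nil (p35 h).2.2.1.1.2.2.1.1.2 (by decide +kernel)) (ndF TOK.nil TOK.nil (p35 h).2.2.1.1.2.2.1.2.2.1 (by decide +kernel)) (p35 h).2.2.1.1.2.2.1.2.1 (by decide +kernel)) (ndF (ndF TOK.nil TOK.nil (p35 h).2.2.1.1.2.2.2.1.1 (by decide +kernel)) (ndF TOK.nil TOK.nil (p35 h).2.2.1.1.2.2.2.1.2.2 (by decide +kernel)) (p35 h).2.2.1.1.2.2.2.1.2.1 (by decide +kernel)) (p35 h).2.2.1.1.2.2.1.2.2.2 (by decide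 +kernel)) (p35 h).2.2.1.1.2.2.1.1.1 (by decide +kernel)) (ndF (ndF (ndF (ndF (ndF TOK.nil TOK.nil (p35 h).2.2.1.1.2.2.2.2.2.1 (by decide +kernel)) TOK.nil (p35 h).2.2.1.1.2.2.2.2.2.2 (by decide +kernel)) (ndF TOK.nil TOK.nil (p35 h).2.2.1.2.1.1.1.1.2 (by decide +kernel)) (p35 h).2.2.1.2.1.1.1.1.1 (by decide +kernel)) (ndF (ndF TOK.nil TOK.nil (p35 h).2.2.1.2.1.1.1.2.2.1 (by decide +kernel)) (ndF TOK.nil TOK.nil (p35 h).2.2.1.2.1.1.2.1.1 (by decide +kernel)) (p35 h).2.2.1.2.1.1.1.2.2.2 (by decide +kernel)) (p35 h).2.2.1.2.1.1.1.2.1 (by decide +kernel)) (ndF (ndF (ndF TOK.nil TOK.nil (p35 h).2.2.1.2.1.1.2.2.1 (by decide +kernel)) (ndF TOK.nil TOK.nil (p35 h).2.2.1.2.1.1.2.2.2.2 (by decide +kernel)) (p35 h).2.2.1.2.1.1.2.2.2.1 (by decide +kernel)) (ndF (ndF TOK.nil TOK.nil (p35 h).2.2.1.2.1.2.1.1.2 (by decide +kernel)) (ndF TOK.nil TOK.nil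 (p35 h).2.2.1.2.1.2.1.2.2.1 (by decide +kernel)) (p35 h).2.2.1.2.1.2.1.2.1 (by decide +kernel)) (p35 h).2.2.1.2.1.2.1.1.1 (by decide +kernel)) (p35 h).2.2.1.2.1.1.2.1.2 (by decide +kernel)) (p35 h).2.2.1.1.2.2.2.2.1 (by decide +kernel)) (p35 h).2.2.1.1.2.1.1.1.2 (by decide +kernel)) (ndF (ndF (ndF (ndF (ndF (ndF (ndF TOK.nil TOK.nil (p35 h).2.2.1.2.1.2.2.1.1 (by decide +kernel)) TOK.nil (p35 h).2.2.1.2.1.2.2.1.2 (by decide +kernel)) (ndF TOK.nil TOK.nil (p35 h).2.2.1.2.1.2.2.2.2.1 (by decide +kernel)) (p35 h).2.2.1.2.1.2.2.2.1 (by decide +kernel)) (ndF (ndF TOK.nil TOK.nil (p35 h).2.2.1.2.2.1.1.1.1 (by decide +kernel)) (ndF TOK.nil TOK.nil (p35 h).2.2.1.2.2.1.1.2.1 (by decide +kernel)) (p35 h).2.2.1.2.2.1.1.1.2 (by decide +kernel)) (p35 h).2.2.1.2.1.2.2.2.2.2 (by decide +kernel)) (ndF (ndF (ndF TOK.nil TOK.nil (p35 h).2.2.1.2.2.1.1.2.2.2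 (by decide +kernel)) (ndF TOK.nil TOK.nil (p35 h).2.2.1.2.2.1.2.1.2 (by decide +kernel)) (p35 h).2.2.1.2.2.1.2.1.1 (by decide +kernel)) (ndF (ndF TOK.nil TOK.nil (p35 h).2.2.1.2.2.1.2.2.2.1 (by decide +kernel)) (ndF TOK.nil TOK.nil (p35 h).2.2.1.2.2.2.1.1.1 (by decide +kernel)) (p35 h).2.2.1.2.2.1.2.2.2.2 (by decide +kernel)) (p35 h).2.2.1.2.2.1.2.2.1 (by decide +kernel)) (p35 h).2.2.1.2.2.1.1.2.2.1 (by decide +kernel)) (ndF (ndF (ndF (ndF (ndF TOK.nil TOK.nil (p35 h).2.2.1.2.2.2.1.2.1 (by decide +kernel)) TOK.nil (p35 h).2.2.1.2.2.2.1.2.2.1 (by decide +kernel)) (ndF TOK.nil TOK.nil (p35 h).2.2.1.2.2.2.2.1.1 (by decide +kernel)) (p35 h).2.2.1.2.2.2.1.2.2.2 (by decide +kernel)) (ndF (ndF TOK.nil TOK.nil (p35 h).2.2.1.2.2.2.2.1.2.2 (by decide +kernel)) (ndF TOK.nil TOK.nil (p35 h).2.2.1.2.2.2.2.2.2.1 (by decide +kernel)) (p35 h).2.2.1.2.2.2.2.2.1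 (by decide +kernel)) (p35 h).2.2.1.2.2.2.2.1.2.1 (by decide +kernel)) (ndF (ndF (ndF TOK.nil TOK.nil (p35 h).2.2.2.1.1.1.1.1.1 (by decide +kernel)) (ndF TOK.nil TOK.nil (p35 h).2.2.2.1.1.1.1.2.1 (by decide +kernel)) (p35 h).2.2.2.1.1.1.1.1.2 (by decide +kernel)) (ndF (ndF TOK.nil TOK.nil (p35 h).2.2.2.1.1.1.1.2.2.2 (by decide +kernel)) (ndF TOK.nil TOK.nil (p35 h).2.2.2.1.1.1.2.1.2 (by decide +kernel)) (p35 h).2.2.2.1.1.1.2.1.1 (by decide +kernel)) (p35 h).2.2.2.1.1.1.1.2.2.1 (by decide +kernel)) (p35 h).2.2.1.2.2.2.2.2.2.2 (by decide +kernel)) (p35 h).2.2.1.2.2.2.1.1.2 (by decide +kernel)) (ndF (ndF (ndF (ndF (ndF (ndF TOK.nil TOK.nil (p35 h).2.2.2.1.1.1.2.2.2.1 (by decide +kernel)) TOK.nil (p35 h).2.2.2.1.1.1.2.2.2.2 (by decide +kernel)) (ndF TOK.nil TOK.nil (p35 h).2.2.2.1.1.2.1.1.2 (by decide +kernel)) (p35 h).2.2.2.1.1.2.1.1.1 (by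 decide +kernel)) (ndF (ndF TOK.nil TOK.nil (p35 h).2.2.2.1.1.2.1.2.2.1 (by decide +kernel)) (ndF TOK.nil TOK.nil (p35 h).2.2.2.1.1.2.2.1.1 (by decide +kernel)) (p35 h).2.2.2.1.1.2.1.2.2.2 (by decide +kernel)) (p35 h).2.2.2.1.1.2.1.2.1 (by decide +kernel)) (ndF (ndF (ndF TOK.nil TOK.nil (p35 h).2.2.2.1.1.2.2.2.1 (by decide +kernel)) (ndF TOK.nil TOK.nil (p35 h).2.2.2.1.1.2.2.2.2.2 (by decide +kernel)) (p35 h).2.2.2.1.1.2.2.2.2.1 (by decide +kernel)) (ndF (ndF TOK.nil TOK.nil (p35 h).2.2.2.1.2.1.1.1.2 (by decide +kernel)) (ndF TOK.nil TOK.nil (p35 h).2.2.2.1.2.1.1.2.2.1 (by decide +kernel)) (p35 h).2.2.2.1.2.1.1.2.1 (by decide +kernel)) (p35 h).2.2.2.1.2.1.1.1.1 (by decide +kernel)) (p35 h).2.2.2.1.1.2.2.1.2 (by decide +kernel)) (ndF (ndF (ndF (ndF (ndF TOK.nil TOK.nil (p35 h).2.2.2.1.2.1.2.1.1 (by decide +kernel)) TOK.nil (p35 h).2.2.2.1.2.1.2.1.2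 (by decide +kernel)) (ndF TOK.nil TOK.nil (p35 h).2.2.2.1.2.1.2.2.2.1 (by decide +kernel)) (p35 h).2.2.2.1.2.1.2.2.1 (by decide +kernel)) (ndF (ndF TOK.nil TOK.nil (p35 h).2.2.2.1.2.2.1.1.1 (by decide +kernel)) (ndF TOK.nil TOK.nil (p35 h).2.2.2.1.2.2.1.2.1 (by decide +kernel)) (p35 h).2.2.2.1.2.2.1.1.2 (by decide +kernel)) (p35 h).2.2.2.1.2.1.2.2.2.2 (by decide +kernel)) (ndF (ndF (ndF TOK.nil TOK.nil (p35 h).2.2.2.1.2.2.1.2.2.2 (by decide +kernel)) (ndF TOK.nil TOK.nil (p35 h).2.2.2.1.2.2.2.1.2.1 (by decide +kernel)) (p35 h).2.2.2.1.2.2.2.1.1 (by decide +kernel)) (ndF (ndF TOK.nil TOK.nil (p35 h).2.2.2.1.2.2.2.2.1 (by decide +kernel)) (ndF TOK.nil TOK.nil (p35 h).2.2.2.1.2.2.2.2.2.2 (by decide +kernel)) (p35 h).2.2.2.1.2.2.2.2.2.1 (by decide +kernel)) (p35 h).2.2.2.1.2.2.2.1.2.2 (by decide +kernel)) (p35 h).2.2.2.1.2.2.1.2.2.1 (by decide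 +kernel)) (p35 h).2.2.2.1.2.1.1.2.2.2 (by decide +kernel)) (p35 h).2.2.2.1.1.1.2.2.1 (by decide +kernel)) (p35 h).2.2.1.2.1.2.1.2.2.2 (by decide +kernel))

theorem T_40_80_ok (h : RcOK RE.rowE) : T_40_80.OK :=
  okF (by decide +kernel) (ndF (ndF (ndF (ndF (ndF (ndF (ndF TOK.nil TOK.nil (p35 h).2.2.2.2.1.1.1.1.1 (by decide +kernel)) TOK.nil (p35 h).2.2.2.2.1.1.1.1.2 (by decide +kernel)) (ndF (ndF TOK.nil TOK.nil (p35 h).2.2.2.2.1.1.1.2.2.1 (by decide +kernel)) TOK.nil (p35 h).2.2.2.2.1.1.1.2.2.2 (by decide +kernel)) (p35 h).2.2.2.2.1.1.1.2.1 (by decide +kernel)) (ndF (ndF (ndF TOK.nil TOK.nil (p35 h).2.2.2.2.1.1.2.1.2 (by decide +kernel)) TOK.nil (p35 h).2.2.2.2.1.1.2.2.1 (by decide +kernel)) (ndF (ndF TOK.nil TOK.nil (p35 h).2.2.2.2.1.1.2.2.2.2 (by decide +kernel)) TOK.nil (p35 h).2.2.2.2.1.2.1.1.1 (by decide +kernel)) (p35 h).2.2.2.2.1.1.2.2.2.1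 (by decide +kernel)) (p35 h).2.2.2.2.1.1.2.1.1 (by decide +kernel)) (ndF (ndF (ndF (ndF TOK.nil TOK.nil (p35 h).2.2.2.2.1.2.1.2.1 (by decide +kernel)) TOK.nil (p35 h).2.2.2.2.1.2.1.2.2.1 (by decide +kernel)) (ndF (ndF TOK.nil TOK.nil (p35 h).2.2.2.2.1.2.2.1.1 (by decide +kernel)) TOK.nil (p35 h).2.2.2.2.1.2.2.1.2.1 (by decide +kernel)) (p35 h).2.2.2.2.1.2.1.2.2.2 (by decide +kernel)) (ndF (ndF (ndF TOK.nil TOK.nil (p35 h).2.2.2.2.1.2.2.2.1 (by decide +kernel)) TOK.nil (p35 h).2.2.2.2.1.2.2.2.2.1 (by decide +kernel)) (ndF TOK.nil TOK.nil (p35 h).2.2.2.2.2.1.1.1.1 (by decide +kernel)) (p35 h).2.2.2.2.1.2.2.2.2.2 (by decide +kernel)) (p35 h).2.2.2.2.1.2.2.1.2.2 (by decide +kernel)) (p35 h).2.2.2.2.1.2.1.1.2 (by decide +kernel)) (ndF (ndF (ndF (ndF (ndF TOK.nil TOK.nil (p35 h).2.2.2.2.2.1.1.2.1 (by decide +kernel)) TOK.nil (p35 h).2.2.2.2.2.1.1.2.2.1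 (by decide +kernel)) (ndF (ndF TOK.nil TOK.nil (p35 h).2.2.2.2.2.1.2.1.1 (by decide +kernel)) TOK.nil (p35 h).2.2.2.2.2.1.2.1.2 (by decide +kernel)) (p35 h).2.2.2.2.2.1.1.2.2.2 (by decide +kernel)) (ndF (ndF (ndF TOK.nil TOK.nil (p35 h).2.2.2.2.2.1.2.2.2.1 (by decide +kernel)) TOK.nil (p35 h).2.2.2.2.2.1.2.2.2.2 (by decide +kernel)) (ndF (ndF TOK.nil TOK.nil (p35 h).2.2.2.2.2.2.1.1.2 (by decide +kernel)) TOK.nil (p35 h).2.2.2.2.2.2.1.2.1 (by decide +kernel)) (p35 h).2.2.2.2.2.2.1.1.1 (by decide +kernel)) (p35 h).2.2.2.2.2.1.2.2.1 (by decide +kernel)) (ndF (ndF (ndF (ndF TOK.nil TOK.nil (p35 h).2.2.2.2.2.2.1.2.2.2 (by decide +kernel)) TOK.nil (p35 h).2.2.2.2.2.2.2.1.1 (by decide +kernel)) (ndF (ndF TOK.nil TOK.nil (p35 h).2.2.2.2.2.2.2.1.2.2 (by decide +kernel)) TOK.nil (p35 h).2.2.2.2.2.2.2.2.1 (by decide +kernel)) (p35 h).2.2.2.2.2.2.2.1.2.1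 (by decide +kernel)) (ndF (ndF (ndF TOK.nil TOK.nil (p35 h).2.2.2.2.2.2.2.2.2.2 (by decide +kernel)) TOK.nil (p36 h).1.1.1.1.1.1 (by decide +kernel)) (ndF TOK.nil TOK.nil (p36 h).1.1.1.1.2.1 (by decide +kernel)) (p36 h).1.1.1.1.1.2 (by decide +kernel)) (p35 h).2.2.2.2.2.2.2.2.2.1 (by decide +kernel)) (p35 h).2.2.2.2.2.2.1.2.2.1 (by decide +kernel)) (p35 h).2.2.2.2.2.1.1.1.2 (by decide +kernel)) (ndF (ndF (ndF (ndF (ndF (ndF TOK.nil TOK.nil (p36 h).1.1.1.1.2.2.2 (by decide +kernel)) TOK.nil (p36 h).1.1.1.2.1.1 (by decide +kernel)) (ndF (ndF TOK.nil TOK.nil (p36 h).1.1.1.2.1.2.2 (by decide +kernel)) TOK.nil (p36 h).1.1.1.2.2.1 (by decide +kernel)) (p36 h).1.1.1.2.1.2.1 (by decide +kernel)) (ndF (ndF (ndF TOK.nil TOK.nil (p36 h).1.1.1.2.2.2.2 (by decide +kernel)) TOK.nil (p36 h).1.1.2.1.1.1 (by decide +kernel)) (ndF (ndF TOK.nil TOK.nil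 (p36 h).1.1.2.1.2.1 (by decide +kernel)) TOK.nil (p36 h).1.1.2.1.2.2.1 (by decide +kernel)) (p36 h).1.1.2.1.1.2 (by decide +kernel)) (p36 h).1.1.1.2.2.2.1 (by decide +kernel)) (ndF (ndF (ndF (ndF TOK.nil TOK.nil (p36 h).1.1.2.2.1.1 (by decide +kernel)) TOK.nil (p36 h).1.1.2.2.1.2.1 (by decide +kernel)) (ndF (ndF TOK.nil TOK.nil (p36 h).1.1.2.2.2.1 (by decide +kernel)) TOK.nil (p36 h).1.1.2.2.2.2.1 (by decide +kernel)) (p36 h).1.1.2.2.1.2.2 (by decide +kernel)) (ndF (ndF (ndF TOK.nil TOK.nil (p36 h).1.2.1.1.1.1 (by decide +kernel)) TOK.nil (p36 h).1.2.1.1.1.2 (by decide +kernel)) (ndF TOK.nil TOK.nil (p36 h).1.2.1.1.2.2.1 (by decide +kernel)) (p36 h).1.2.1.1.2.1 (by decide +kernel)) (p36 h).1.1.2.2.2.2.2 (by decide +kernel)) (p36 h).1.1.2.1.2.2.2 (by decide +kernel)) (ndF (ndF (ndF (ndF (ndF TOK.nil TOK.nil (p36 h).1.2.1.2.1.1 (by decide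 +kernel)) TOK.nil (p36 h).1.2.1.2.1.2.1 (by decide +kernel)) (ndF (ndF TOK.nil TOK.nil (p36 h).1.2.1.2.2.1 (by decide +kernel)) TOK.nil (p36 h).1.2.1.2.2.2.1 (by decide +kernel)) (p36 h).1.2.1.2.1.2.2 (by decide +kernel)) (ndF (ndF (ndF TOK.nil TOK.nil (p36 h).1.2.2.1.1.1 (by decide +kernel)) TOK.nil (p36 h).1.2.2.1.1.2 (by decide +kernel)) (ndF (ndF TOK.nil TOK.nil (p36 h).1.2.2.1.2.2.1 (by decide +kernel)) TOK.nil (p36 h).1.2.2.1.2.2.2 (by decide +kernel)) (p36 h).1.2.2.1.2.1 (by decide +kernel)) (p36 h).1.2.1.2.2.2.2 (by decide +kernel)) (ndF (ndF (ndF (ndF TOK.nil TOK.nil (p36 h).1.2.2.2.1.2.1 (by decide +kernel)) TOK.nil (p36 h).1.2.2.2.1.2.2 (by decide +kernel)) (ndF (ndF TOK.nil TOK.nil (p36 h).1.2.2.2.2.2.1 (by decide +kernel)) TOK.nil (p36 h).1.2.2.2.2.2.2 (by decide +kernel)) (p36 h).1.2.2.2.2.1 (by decide +kernel)) (ndF (ndF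 (ndF TOK.nil TOK.nil (p36 h).2.1.1.1.1.2 (by decide +kernel)) TOK.nil (p36 h).2.1.1.1.2.1 (by decide +kernel)) (ndF TOK.nil TOK.nil (p36 h).2.1.1.1.2.2.2 (by decide +kernel)) (p36 h).2.1.1.1.2.2.1 (by decide +kernel)) (p36 h).2.1.1.1.1.1 (by decide +kernel)) (p36 h).1.2.2.2.1.1 (by decide +kernel)) (p36 h).1.2.1.1.2.2.2 (by decide +kernel)) (p36 h).1.1.1.1.2.2.1 (by decide +kernel))

theorem R_40_80_120_ok (h : RcOK RE.rowE) : R_40_80_120.OK :=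
  okF (by decide +kernel) (ndF (ndF (ndF (ndF (ndF (ndF (ndF TOK.nil TOK.nil (p36 h).2.1.1.2.1.1 (by decide +kernel)) TOK.nil (p36 h).2.1.1.2.1.2.1 (by decide +kernel)) (ndF TOK.nil TOK.nil (p36 h).2.1.1.2.2.1 (by decide +kernel)) (p36 h).2.1.1.2.1.2.2 (by decide +kernel)) (ndF (ndF (ndF TOK.nil TOK.nil (p36 h).2.1.1.2.2.2.2 (by decide +kernel)) TOK.nil (p36 h).2.1.2.1.1.1 (by decide +kernel)) (ndF TOK.nil TOK.nil (p36 h).2.1.2.1.2.1 (by decide +kernel)) (p36 h).2.1.2.1.1.2 (by decide +kernel)) (p36 h).2.1.1.2.2.2.1 (by decide +kernel)) (ndF (ndF (ndF (ndF TOK.nil TOK.nil (p36 h).2.1.2.1.2.2.2 (by decide +kernel)) TOK.nil (p36 h).2.1.2.2.1.1 (by decide +kernel)) (ndF TOK.nil TOK.nil (p36 h).2.1.2.2.1.2.2 (by decide +kernel)) (p36 h).2.1.2.2.1.2.1 (by decide +kernel)) (ndF (ndF (ndF TOK.nil TOK.nil (p36 h).2.1.2.2.2.2.1 (by decide +kernel))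 TOK.nil (p36 h).2.1.2.2.2.2.2 (by decide +kernel)) (ndF TOK.nil TOK.nil (p36 h).2.2.1.1.1.2 (by decide +kernel)) (p36 h).2.2.1.1.1.1 (by decide +kernel)) (p36 h).2.1.2.2.2.1 (by decide +kernel)) (p36 h).2.1.2.1.2.2.1 (by decide +kernel)) (ndF (ndF (ndF (ndF (ndF TOK.nil TOK.nil (p36 h).2.2.1.1.2.2.1 (by decide +kernel)) TOK.nil (p36 h).2.2.1.1.2.2.2 (by decide +kernel)) (ndF TOK.nil TOK.nil (p36 h).2.2.1.2.1.2.1 (by decide +kernel)) (p36 h).2.2.1.2.1.1 (by decide +kernel)) (ndF (ndF (ndF TOK.nil TOK.nil (p36 h).2.2.1.2.2.1 (by decide +kernel)) TOK.nil (p36 h).2.2.1.2.2.2.1 (by decide +kernel)) (ndF TOK.nil TOK.nil (p36 h).2.2.2.1.1.1 (by decide +kernel)) (p36 h).2.2.1.2.2.2.2 (by decide +kernel)) (p36 h).2.2.1.2.1.2.2 (by decide +kernel)) (ndF (ndF (ndF (ndF TOK.nil TOK.nil (p36 h).2.2.2.1.1.2.2 (by decide +kernel)) TOK.nil (p36 h).2.2.2.1.2.1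 (by decide +kernel)) (ndF TOK.nil TOK.nil (p36 h).2.2.2.1.2.2.2 (by decide +kernel)) (p36 h).2.2.2.1.2.2.1 (by decide +kernel)) (ndF (ndF TOK.nil TOK.nil (p36 h).2.2.2.2.1.2.1 (by decide +kernel)) (ndF TOK.nil TOK.nil (p36 h).2.2.2.2.2.1 (by decide +kernel)) (p36 h).2.2.2.2.1.2.2 (by decide +kernel)) (p36 h).2.2.2.2.1.1 (by decide +kernel)) (p36 h).2.2.2.1.1.2.1 (by decide +kernel)) (p36 h).2.2.1.1.2.1 (by decide +kernel)) (ndF (ndF (ndF (ndF (ndF (ndF TOK.nil TOK.nil (p36 h).2.2.2.2.2.2.2 (by decide +kernel)) TOK.nil (p37 h).1.1.1.1.1 (by decide +kernel)) (ndF TOK.nil TOK.nil (p37 h).1.1.1.2.1 (by decide +kernel)) (p37 h).1.1.1.1.2 (by decide +kernel)) (ndF (ndF (ndF TOK.nil TOK.nil (p37 h).1.1.2.1.1 (by decide +kernel)) TOK.nil (p37 h).1.1.2.1.2 (by decide +kernel)) (ndF TOK.nil TOK.nil (p37 h).1.1.2.2.2 (by decide +kernel)) (p37 h).1.1.2.2.1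 (by decide +kernel)) (p37 h).1.1.1.2.2 (by decide +kernel)) (ndF (ndF (ndF (ndF TOK.nil TOK.nil (p37 h).1.2.1.1.2 (by decide +kernel)) TOK.nil (p37 h).1.2.1.2.1 (by decide +kernel)) (ndF TOK.nil TOK.nil (p37 h).1.2.2.1.1 (by decide +kernel)) (p37 h).1.2.1.2.2 (by decide +kernel)) (ndF (ndF (ndF TOK.nil TOK.nil (p37 h).1.2.2.2.1 (by decide +kernel)) TOK.nil (p37 h).1.2.2.2.2.1 (by decide +kernel)) (ndF TOK.nil TOK.nil (p37 h).2.1.1.1.1 (by decide +kernel)) (p37 h).1.2.2.2.2.2 (by decide +kernel)) (p37 h).1.2.2.1.2 (by decide +kernel)) (p37 h).1.2.1.1.1 (by decide +kernel)) (ndF (ndF (ndF (ndF (ndF TOK.nil TOK.nil (p37 h).2.1.1.2.1 (by decide +kernel)) TOK.nil (p37 h).2.1.1.2.2 (by decide +kernel)) (ndF TOK.nil TOK.nil (p37 h).2.1.2.1.2 (by decide +kernel)) (p37 h).2.1.2.1.1 (by decide +kernel)) (ndF (ndF (ndF TOK.nil TOK.nil (p37 h).2.1.2.2.2.1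 (by decide +kernel)) TOK.nil (p37 h).2.1.2.2.2.2 (by decide +kernel)) (ndF TOK.nil TOK.nil (p37 h).2.2.1.1.2 (by decide +kernel)) (p37 h).2.2.1.1.1 (by decide +kernel)) (p37 h).2.1.2.2.1 (by decide +kernel)) (ndF (ndF (ndF (ndF TOK.nil TOK.nil (p37 h).2.2.1.2.2 (by decide +kernel)) TOK.nil (p37 h).2.2.2.1.1 (by decide +kernel)) (ndF TOK.nil TOK.nil (p37 h).2.2.2.2.1 (by decide +kernel)) (p37 h).2.2.2.1.2 (by decide +kernel)) (ndF (ndF TOK.nil TOK.nil (p37 h).2.2.2.2.2.2 (by decide +kernel)) (ndF TOK.nil TOK.nil (p38 h).1.1.1.2 (by decide +kernel)) (p38 h).1.1.1.1 (by decide +kernel)) (p37 h).2.2.2.2.2.1 (by decide +kernel)) (p37 h).2.2.1.2.1 (by decide +kernel)) (p37 h).2.1.1.1.2 (by decide +kernel)) (p36 h).2.2.2.2.2.2.1 (by decide +kernel))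

theorem R_20_60_80_ok (h : RcOK RE.rowE) : R_20_60_80.OK :=
  okF (by decide +kernel) (ndF (ndF (ndF (ndF (ndF (ndF (ndF TOK.nil TOK.nil (p38 h).1.1.2.1 (by decide +kernel)) TOK.nil (p38 h).1.1.2.2 (by decide +kernel)) (ndF (ndF TOK.nil TOK.nil (p38 h).1.2.1.2 (by decide +kernel)) TOK.nil (p38 h).1.2.2.1 (by decide +kernel)) (p38 h).1.2.1.1 (by decide +kernel)) (ndF (ndF (ndF TOK.nil TOK.nil (p38 h).2.1.1.1 (by decide +kernel)) TOK.nil (p38 h).2.1.1.2 (by decide +kernel)) (ndF TOK.nil TOK.nil (p38 h).2.1.2.2 (by decide +kernel)) (p38 h).2.1.2.1 (by decide +kernel)) (p38 h).1.2.2.2 (by decide +kernel)) (ndF (ndF (ndF (ndF TOK.nil TOK.nil (p38 h).2.2.1.2 (by decide +kernel)) TOK.nil (p38 h).2.2.2.1 (by decide +kernel)) (ndF (ndF TOK.nil TOK.nil (p39 h).1.1.1.1 (by decide +kernel)) TOK.nil (p39 h).1.1.1.2 (by decide +kernel)) (p38 h).2.2.2.2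 (by decide +kernel)) (ndF (ndF (ndF TOK.nil TOK.nil (p39 h).1.1.2.2.1 (by decide +kernel)) TOK.nil (p39 h).1.1.2.2.2 (by decide +kernel)) (ndF TOK.nil TOK.nil (p39 h).1.2.1.2 (by decide +kernel)) (p39 h).1.2.1.1 (by decide +kernel)) (p39 h).1.1.2.1 (by decide +kernel)) (p38 h).2.2.1.1 (by decide +kernel)) (ndF (ndF (ndF (ndF (ndF TOK.nil TOK.nil (p39 h).1.2.2.2.1 (by decide +kernel)) TOK.nil (p39 h).1.2.2.2.2 (by decide +kernel)) (ndF (ndF TOK.nil TOK.nil (p39 h).2.1.1.2 (by decide +kernel)) TOK.nil (p39 h).2.1.2.1 (by decide +kernel)) (p39 h).2.1.1.1 (by decide +kernel)) (ndF (ndF (ndF TOK.nil TOK.nil (p39 h).2.1.2.2.2 (by decide +kernel)) TOK.nil (p39 h).2.2.1.1 (by decide +kernel)) (ndF TOK.nil TOK.nil (p39 h).2.2.1.2.2 (by decide +kernel)) (p39 h).2.2.1.2.1 (by decide +kernel)) (p39 h).2.1.2.2.1 (by decide +kernel)) (ndF (ndF (ndF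 (ndF TOK.nil TOK.nil (p39 h).2.2.2.2.1 (by decide +kernel)) TOK.nil (p39 h).2.2.2.2.2 (by decide +kernel)) (ndF TOK.nil TOK.nil (p40 h).1.1.1.2 (by decide +kernel)) (p40 h).1.1.1.1 (by decide +kernel)) (ndF (ndF (ndF TOK.nil TOK.nil (p40 h).1.1.2.2.1 (by decide +kernel)) TOK.nil (p40 h).1.1.2.2.2 (by decide +kernel)) (ndF TOK.nil TOK.nil (p40 h).1.2.1.2 (by decide +kernel)) (p40 h).1.2.1.1 (by decide +kernel)) (p40 h).1.1.2.1 (by decide +kernel)) (p39 h).2.2.2.1 (by decide +kernel)) (p39 h).1.2.2.1 (by decide +kernel)) (ndF (ndF (ndF (ndF (ndF (ndF TOK.nil TOK.nil (p40 h).1.2.2.2.1 (by decide +kernel)) TOK.nil (p40 h).1.2.2.2.2 (by decide +kernel)) (ndF (ndF TOK.nil TOK.nil (p40 h).2.1.1.2 (by decide +kernel)) TOK.nil (p40 h).2.1.2.1 (by decide +kernel)) (p40 h).2.1.1.1 (by decide +kernel)) (ndF (ndF (ndF TOK.nil TOK.nil (p40 h).2.1.2.2.2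 (by decide +kernel)) TOK.nil (p40 h).2.2.1.1 (by decide +kernel)) (ndF TOK.nil TOK.nil (p40 h).2.2.2.1 (by decide +kernel)) (p40 h).2.2.1.2 (by decide +kernel)) (p40 h).2.1.2.2.1 (by decide +kernel)) (ndF (ndF (ndF (ndF TOK.nil TOK.nil (p40 h).2.2.2.2.2 (by decide +kernel)) TOK.nil (p41 h).1.1.1.1 (by decide +kernel)) (ndF (ndF TOK.nil TOK.nil (p41 h).1.1.2.1 (by decide +kernel)) TOK.nil (p41 h).1.1.2.2.1 (by decide +kernel)) (p41 h).1.1.1.2 (by decide +kernel)) (ndF (ndF (ndF TOK.nil TOK.nil (p41 h).1.2.1.1 (by decide +kernel)) TOK.nil (p41 h).1.2.1.2 (by decide +kernel)) (ndF TOK.nil TOK.nil (p41 h).1.2.2.2.1 (by decide +kernel)) (p41 h).1.2.2.1 (by decide +kernel)) (p41 h).1.1.2.2.2 (by decide +kernel)) (p40 h).2.2.2.2.1 (by decide +kernel)) (ndF (ndF (ndF (ndF (ndF TOK.nil TOK.nil (p41 h).2.1.1.1 (by decide +kernel)) TOK.nil (p41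 h).2.1.1.2 (by decide +kernel)) (ndF (ndF TOK.nil TOK.nil (p41 h).2.1.2.2.1 (by decide +kernel)) TOK.nil (p41 h).2.1.2.2.2 (by decide +kernel)) (p41 h).2.1.2.1 (by decide +kernel)) (ndF (ndF (ndF TOK.nil TOK.nil (p41 h).2.2.1.2.1 (by decide +kernel)) TOK.nil (p41 h).2.2.1.2.2 (by decide +kernel)) (ndF TOK.nil TOK.nil (p41 h).2.2.2.2.1 (by decide +kernel)) (p41 h).2.2.2.1 (by decide +kernel)) (p41 h).2.2.1.1 (by decide +kernel)) (ndF (ndF (ndF (ndF TOK.nil TOK.nil (p42 h).1.1.1.1.1 (by decide +kernel)) TOK.nil (p42 h).1.1.1.1.2 (by decide +kernel)) (ndF TOK.nil TOK.nil (p42 h).1.1.1.2.2.1 (by decide +kernel)) (p42 h).1.1.1.2.1 (by decide +kernel)) (ndF (ndF (ndF TOK.nil TOK.nil (p42 h).1.1.2.1.1 (by decide +kernel)) TOK.nil (p42 h).1.1.2.1.2.1 (by decide +kernel)) (ndF TOK.nil TOK.nil (p42 h).1.1.2.2.1 (by decide +kernel)) (p42 h).1.1.2.1.2.2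 (by decide +kernel)) (p42 h).1.1.1.2.2.2 (by decide +kernel)) (p41 h).2.2.2.2.2 (by decide +kernel)) (p41 h).1.2.2.2.2 (by decide +kernel)) (p40 h).1.2.2.1 (by decide +kernel))

theorem R_60_80_120_ok (h : RcOK RE.rowE) : R_60_80_120.OK :=
  okF (by decide +kernel) (ndF (ndF (ndF (ndF (ndF (ndF (ndF TOK.nil TOK.nil (p42 h).1.1.2.2.2.1 (by decide +kernel)) TOK.nil (p42 h).1.1.2.2.2.2 (by decide +kernel)) (ndF (ndF TOK.nil TOK.nil (p42 h).1.2.1.1.2 (by decide +kernel)) TOK.nil (p42 h).1.2.1.2.1 (by decide +kernel)) (p42 h).1.2.1.1.1 (by decide +kernel)) (ndF (ndF (ndF TOK.nil TOK.nil (p42 h).1.2.1.2.2.2 (by decide +kernel)) TOK.nil (p42 h).1.2.2.1.1 (by decide +kernel)) (ndF (ndF TOK.nil TOK.nil (p42 h).1.2.2.1.2.2 (by decide +kernel)) TOK.nil (p42 h).1.2.2.2.1 (by decide +kernel)) (p42 h).1.2.2.1.2.1 (by decide +kernel)) (p42 h).1.2.1.2.2.1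 (by decide +kernel)) (ndF (ndF (ndF (ndF TOK.nil TOK.nil (p42 h).1.2.2.2.2.2 (by decide +kernel)) TOK.nil (p42 h).2.1.1.1.1 (by decide +kernel)) (ndF (ndF TOK.nil TOK.nil (p42 h).2.1.1.2.1 (by decide +kernel)) TOK.nil (p42 h).2.1.1.2.2.1 (by decide +kernel)) (p42 h).2.1.1.1.2 (by decide +kernel)) (ndF (ndF (ndF TOK.nil TOK.nil (p42 h).2.1.2.1.1 (by decide +kernel)) TOK.nil (p42 h).2.1.2.1.2.1 (by decide +kernel)) (ndF TOK.nil TOK.nil (p42 h).2.1.2.2.1 (by decide +kernel)) (p42 h).2.1.2.1.2.2 (by decide +kernel)) (p42 h).2.1.1.2.2.2 (by decide +kernel)) (p42 h).1.2.2.2.2.1 (by decide +kernel)) (ndF (ndF (ndF (ndF (ndF TOK.nil TOK.nil (p42 h).2.1.2.2.2.2 (by decide +kernel)) TOK.nil (p42 h).2.2.1.1.1 (by decide +kernel)) (ndF (ndF TOK.nil TOK.nil (p42 h).2.2.1.2.1 (by decide +kernel)) TOK.nil (p42 h).2.2.1.2.2.1 (by decide +kernel)) (p42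 h).2.2.1.1.2 (by decide +kernel)) (ndF (ndF (ndF TOK.nil TOK.nil (p42 h).2.2.2.1.1 (by decide +kernel)) TOK.nil (p42 h).2.2.2.1.2.1 (by decide +kernel)) (ndF (ndF TOK.nil TOK.nil (p42 h).2.2.2.2.1 (by decide +kernel)) TOK.nil (p42 h).2.2.2.2.2.1 (by decide +kernel)) (p42 h).2.2.2.1.2.2 (by decide +kernel)) (p42 h).2.2.1.2.2.2 (by decide +kernel)) (ndF (ndF (ndF (ndF TOK.nil TOK.nil (p43 h).1.1.1.1.1.1 (by decide +kernel)) TOK.nil (p43 h).1.1.1.1.1.2 (by decide +kernel)) (ndF (ndF TOK.nil TOK.nil (p43 h).1.1.1.1.2.2 (by decide +kernel)) TOK.nil (p43 h).1.1.1.2.1.1 (by decide +kernel)) (p43 h).1.1.1.1.2.1 (by decide +kernel)) (ndF (ndF (ndF TOK.nil TOK.nil (p43 h).1.1.1.2.2.1 (by decide +kernel)) TOK.nil (p43 h).1.1.1.2.2.2 (by decide +kernel)) (ndF TOK.nil TOK.nil (p43 h).1.1.2.1.1.2 (by decide +kernel)) (p43 h).1.1.2.1.1.1 (by decide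 +kernel)) (p43 h).1.1.1.2.1.2 (by decide +kernel)) (p42 h).2.2.2.2.2.2 (by decide +kernel)) (p42 h).2.1.2.2.2.1 (by decide +kernel)) (ndF (ndF (ndF (ndF (ndF (ndF TOK.nil TOK.nil (p43 h).1.1.2.1.2.2 (by decide +kernel)) TOK.nil (p43 h).1.1.2.2.1.1 (by decide +kernel)) (ndF (ndF TOK.nil TOK.nil (p43 h).1.1.2.2.2.1 (by decide +kernel)) TOK.nil (p43 h).1.1.2.2.2.2.1 (by decide +kernel)) (p43 h).1.1.2.2.1.2 (by decide +kernel)) (ndF (ndF (ndF TOK.nil TOK.nil (p43 h).1.2.1.1.1.1 (by decide +kernel)) TOK.nil (p43 h).1.2.1.1.1.2 (by decide +kernel)) (ndF (ndF TOK.nil TOK.nil (p43 h).1.2.1.1.2.2 (by decide +kernel)) TOK.nil (p43 h).1.2.1.2.1.1 (by decide +kernel)) (p43 h).1.2.1.1.2.1 (by decide +kernel)) (p43 h).1.1.2.2.2.2.2 (by decide +kernel)) (ndF (ndF (ndF (ndF TOK.nil TOK.nil (p43 h).1.2.1.2.2.1 (by decide +kernel)) TOK.nil (p43 h).1.2.1.2.2.2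 (by decide +kernel)) (ndF (ndF TOK.nil TOK.nil (p43 h).1.2.2.1.1.2 (by decide +kernel)) TOK.nil (p43 h).1.2.2.1.2.1 (by decide +kernel)) (p43 h).1.2.2.1.1.1 (by decide +kernel)) (ndF (ndF (ndF TOK.nil TOK.nil (p43 h).1.2.2.2.1.1 (by decide +kernel)) TOK.nil (p43 h).1.2.2.2.1.2 (by decide +kernel)) (ndF TOK.nil TOK.nil (p43 h).1.2.2.2.2.2.1 (by decide +kernel)) (p43 h).1.2.2.2.2.1 (by decide +kernel)) (p43 h).1.2.2.1.2.2 (by decide +kernel)) (p43 h).1.2.1.2.1.2 (by decide +kernel)) (ndF (ndF (ndF (ndF (ndF TOK.nil TOK.nil (p43 h).2.1.1.1.1.1 (by decide +kernel)) TOK.nil (p43 h).2.1.1.1.1.2 (by decide +kernel)) (ndF (ndF TOK.nil TOK.nil (p43 h).2.1.1.1.2.2 (by decide +kernel)) TOK.nil (p43 h).2.1.1.2.1.1 (by decide +kernel)) (p43 h).2.1.1.1.2.1 (by decide +kernel)) (ndF (ndF (ndF TOK.nil TOK.nil (p43 h).2.1.1.2.2.1 (by decide +kernel))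 TOK.nil (p43 h).2.1.1.2.2.2 (by decide +kernel)) (ndF TOK.nil TOK.nil (p43 h).2.1.2.1.1.2 (by decide +kernel)) (p43 h).2.1.2.1.1.1 (by decide +kernel)) (p43 h).2.1.1.2.1.2 (by decide +kernel)) (ndF (ndF (ndF (ndF TOK.nil TOK.nil (p43 h).2.1.2.1.2.2 (by decide +kernel)) TOK.nil (p43 h).2.1.2.2.1.1 (by decide +kernel)) (ndF (ndF TOK.nil TOK.nil (p43 h).2.1.2.2.2.1 (by decide +kernel)) TOK.nil (p43 h).2.1.2.2.2.2.1 (by decide +kernel)) (p43 h).2.1.2.2.1.2 (by decide +kernel)) (ndF (ndF (ndF TOK.nil TOK.nil (p43 h).2.2.1.1.1.1 (by decide +kernel)) TOK.nil (p43 h).2.2.1.1.1.2 (by decide +kernel)) (ndF TOK.nil TOK.nil (p43 h).2.2.1.1.2.2 (by decide +kernel)) (p43 h).2.2.1.1.2.1 (by decide +kernel)) (p43 h).2.1.2.2.2.2.2 (by decide +kernel)) (p43 h).2.1.2.1.2.1 (by decide +kernel)) (p43 h).1.2.2.2.2.2.2 (by decide +kernel)) (p43 h).1.1.2.1.2.1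 (by decide +kernel))

theorem R_80_120_180_ok (h : RcOK RE.rowE) : R_80_120_180.OK :=
  okF (by decide +kernel) (ndF (ndF (ndF (ndF (ndF (ndF (ndF TOK.nil TOK.nil (p43 h).2.2.1.2.1.1 (by decide +kernel)) TOK.nil (p43 h).2.2.1.2.1.2 (by decide +kernel)) (ndF TOK.nil TOK.nil (p43 h).2.2.1.2.2.2 (by decide +kernel)) (p43 h).2.2.1.2.2.1 (by decide +kernel)) (ndF (ndF (ndF TOK.nil TOK.nil (p43 h).2.2.2.1.1.2 (by decide +kernel)) TOK.nil (p43 h).2.2.2.1.2.1 (by decide +kernel)) (ndF TOK.nil TOK.nil (p43 h).2.2.2.2.1.1 (by decide +kernel)) (p43 h).2.2.2.1.2.2 (by decide +kernel)) (p43 h).2.2.2.1.1.1 (by decide +kernel)) (ndF (ndF (ndF (ndF TOK.nil TOK.nil (p43 h).2.2.2.2.2.1 (by decide +kernel)) TOK.nil (p43 h).2.2.2.2.2.2.1 (by decide +kernel)) (ndF TOK.nil TOK.nil (p44 h).1.1.1.1.1 (by decide +kernel)) (p43 h).2.2.2.2.2.2.2 (by decide +kernel))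 (ndF (ndF (ndF TOK.nil TOK.nil (p44 h).1.1.1.1.2.2 (by decide +kernel)) TOK.nil (p44 h).1.1.1.2.1 (by decide +kernel)) (ndF TOK.nil TOK.nil (p44 h).1.1.1.2.2.2 (by decide +kernel)) (p44 h).1.1.1.2.2.1 (by decide +kernel)) (p44 h).1.1.1.1.2.1 (by decide +kernel)) (p43 h).2.2.2.2.1.2 (by decide +kernel)) (ndF (ndF (ndF (ndF (ndF TOK.nil TOK.nil (p44 h).1.1.2.1.2.1 (by decide +kernel)) TOK.nil (p44 h).1.1.2.1.2.2 (by decide +kernel)) (ndF TOK.nil TOK.nil (p44 h).1.1.2.2.1.2 (by decide +kernel)) (p44 h).1.1.2.2.1.1 (by decide +kernel)) (ndF (ndF (ndF TOK.nil TOK.nil (p44 h).1.1.2.2.2.2 (by decide +kernel)) TOK.nil (p44 h).1.2.1.1.1 (by decide +kernel)) (ndF TOK.nil TOK.nil (p44 h).1.2.1.1.2.2 (by decide +kernel)) (p44 h).1.2.1.1.2.1 (by decide +kernel)) (p44 h).1.1.2.2.2.1 (by decide +kernel)) (ndF (ndF (ndF (ndF TOK.nil TOK.nil (p44 h).1.2.1.2.2.1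 (by decide +kernel)) TOK.nil (p44 h).1.2.1.2.2.2 (by decide +kernel)) (ndF TOK.nil TOK.nil (p44 h).1.2.2.1.2.1 (by decide +kernel)) (p44 h).1.2.2.1.1 (by decide +kernel)) (ndF (ndF (ndF TOK.nil TOK.nil (p44 h).1.2.2.2.1.1 (by decide +kernel)) TOK.nil (p44 h).1.2.2.2.1.2 (by decide +kernel)) (ndF TOK.nil TOK.nil (p44 h).1.2.2.2.2.2 (by decide +kernel)) (p44 h).1.2.2.2.2.1 (by decide +kernel)) (p44 h).1.2.2.1.2.2 (by decide +kernel)) (p44 h).1.2.1.2.1 (by decide +kernel)) (p44 h).1.1.2.1.1 (by decide +kernel)) (ndF (ndF (ndF (ndF (ndF (ndF TOK.nil TOK.nil (p44 h).2.1.1.1.2.1 (by decide +kernel)) TOK.nil (p44 h).2.1.1.1.2.2 (by decide +kernel)) (ndF TOK.nil TOK.nil (p44 h).2.1.1.2.2.1 (by decide +kernel)) (p44 h).2.1.1.2.1 (by decide +kernel)) (ndF (ndF (ndF TOK.nil TOK.nil (p44 h).2.1.2.1.1 (by decide +kernel)) TOK.nil (p44 h).2.1.2.1.2.1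 (by decide +kernel)) (ndF TOK.nil TOK.nil (p44 h).2.1.2.2.1.1 (by decide +kernel)) (p44 h).2.1.2.1.2.2 (by decide +kernel)) (p44 h).2.1.1.2.2.2 (by decide +kernel)) (ndF (ndF (ndF (ndF TOK.nil TOK.nil (p44 h).2.1.2.2.2.1 (by decide +kernel)) TOK.nil (p44 h).2.1.2.2.2.2 (by decide +kernel)) (ndF TOK.nil TOK.nil (p44 h).2.2.1.1.2.1 (by decide +kernel)) (p44 h).2.2.1.1.1 (by decide +kernel)) (ndF (ndF (ndF TOK.nil TOK.nil (p44 h).2.2.1.2.1.1 (by decide +kernel)) TOK.nil (p44 h).2.2.1.2.1.2 (by decide +kernel)) (ndF TOK.nil TOK.nil (p44 h).2.2.1.2.2.2 (by decide +kernel)) (p44 h).2.2.1.2.2.1 (by decide +kernel)) (p44 h).2.2.1.1.2.2 (by decide +kernel)) (p44 h).2.1.2.2.1.2 (by decide +kernel)) (ndF (ndF (ndF (ndF (ndF TOK.nil TOK.nil (p44 h).2.2.2.1.2.1 (by decide +kernel)) TOK.nil (p44 h).2.2.2.1.2.2 (by decide +kernel)) (ndF TOK.nil TOK.nil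 (p44 h).2.2.2.2.1.2 (by decide +kernel)) (p44 h).2.2.2.2.1.1 (by decide +kernel)) (ndF (ndF (ndF TOK.nil TOK.nil (p44 h).2.2.2.2.2.2 (by decide +kernel)) TOK.nil (p45 h).1.1.1.1.1.1.1.1 (by decide +kernel)) (ndF TOK.nil TOK.nil (p45 h).1.1.1.1.1.1.1.2.2 (by decide +kernel)) (p45 h).1.1.1.1.1.1.1.2.1 (by decide +kernel)) (p44 h).2.2.2.2.2.1 (by decide +kernel)) (ndF (ndF (ndF (ndF TOK.nil TOK.nil (p45 h).1.1.1.1.1.1.2.2.1 (by decide +kernel)) TOK.nil (p45 h).1.1.1.1.1.1.2.2.2 (by decide +kernel)) (ndF TOK.nil TOK.nil (p45 h).1.1.1.1.1.2.1.2.1 (by decide +kernel)) (p45 h).1.1.1.1.1.2.1.1 (by decide +kernel)) (ndF (ndF TOK.nil TOK.nil (p45 h).1.1.1.1.1.2.2.1.1 (by decide +kernel)) (ndF TOK.nil TOK.nil (p45 h).1.1.1.1.1.2.2.2.1 (by decide +kernel)) (p45 h).1.1.1.1.1.2.2.1.2 (by decide +kernel)) (p45 h).1.1.1.1.1.2.1.2.2 (by decide +kernel))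 (p45 h).1.1.1.1.1.1.2.1 (by decide +kernel)) (p44 h).2.2.2.1.1 (by decide +kernel)) (p44 h).2.1.1.1.1 (by decide +kernel))


end TB
end Pool.Agent.Lib.MP_6947cd_al
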