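import Pool.Agent.Lib.MP_6947cd_al.TB.P45
import Pool.Agent.Lib.MP_6947cd_al.TB.P46
import Pool.Agent.Lib.MP_6947cd_al.TB.P47
import Pool.Agent.Lib.MP_6947cd_al.TB.P48

/-!
Problem MP_6947cd_al (Chollet).  THE FAMILIES OF TABLES ARE CORRECT, part 14.
-/

set_option autoImplicit false
set_option maxHeartbeats 0
set_option maxRecDepth 100000
set_option linter.all false

namespace Pool.Agent.Lib.MP_6947cd_al
namespace TB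

open Ent Ent.Pk Fr Fr.WT B1 PkA PkA.TF

theorem T_4_8_ok (h : RcOK RE.rowE) : T_4_8.OK :=
  okF (by decide +kernel) (ndF (ndF (ndF (ndF (ndF (ndF (ndF (ndF (ndF TOK.nil TOK.nil (p45 h).1.1.1.1.1.2.2.2.2 (by decide +kernel)) TOK.nil (p45 h).1.1.1.1.2.1.1.1 (by decide +kernel)) (ndF TOK.nil TOK.nil (p45 h).1.1.1.1.2.1.1.2.2 (by decide +kernel)) (p45 h).1.1.1.1.2.1.1.2.1 (by decide +kernel)) (ndF (ndF (ndF TOK.nil TOK.nil (p45 h).1.1.1.1.2.1.2.1.2 (by decide +kernel)) TOK.nil (p45 h).1.1.1.1.2.1.2.2.1 (by decide +kernel)) (ndF TOK.nil TOK.nil (p45 h).1.1.1.1.2.2.1.1 (by decide +kernel)) (p45 h).1.1.1.1.2.1.2.2.2 (by decide +kernel)) (p45 h).1.1.1.1.2.1.2.1.1 (by decide +kernel)) (ndF (ndF (ndF (ndF TOK.nil TOK.nil (p45 h).1.1.1.1.2.2.1.2.2 (by decide +kernel)) TOK.nil (p45 h).1.1.1.1.2.2.2.1.1 (by decide +kernel)) (ndF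 TOK.nil TOK.nil (p45 h).1.1.1.1.2.2.2.2.1 (by decide +kernel)) (p45 h).1.1.1.1.2.2.2.1.2 (by decide +kernel)) (ndF (ndF (ndF TOK.nil TOK.nil (p45 h).1.1.1.2.1.1.1.1 (by decide +kernel)) TOK.nil (p45 h).1.1.1.2.1.1.1.2.1 (by decide +kernel)) (ndF TOK.nil TOK.nil (p45 h).1.1.1.2.1.1.2.1.1 (by decide +kernel)) (p45 h).1.1.1.2.1.1.1.2.2 (by decide +kernel)) (p45 h).1.1.1.1.2.2.2.2.2 (by decide +kernel)) (p45 h).1.1.1.1.2.2.1.2.1 (by decide +kernel)) (ndF (ndF (ndF (ndF (ndF TOK.nil TOK.nil (p45 h).1.1.1.2.1.1.2.2.1 (by decide +kernel)) TOK.nil (p45 h).1.1.1.2.1.1.2.2.2 (by decide +kernel)) (ndF TOK.nil TOK.nil (p45 h).1.1.1.2.1.2.1.2.1 (by decide +kernel)) (p45 h).1.1.1.2.1.2.1.1 (by decide +kernel)) (ndF (ndF (ndF TOK.nil TOK.nil (p45 h).1.1.1.2.1.2.2.1.1 (by decide +kernel)) TOK.nil (p45 h).1.1.1.2.1.2.2.1.2 (by decide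 +kernel)) (ndF TOK.nil TOK.nil (p45 h).1.1.1.2.1.2.2.2.2 (by decide +kernel)) (p45 h).1.1.1.2.1.2.2.2.1 (by decide +kernel)) (p45 h).1.1.1.2.1.2.1.2.2 (by decide +kernel)) (ndF (ndF (ndF (ndF TOK.nil TOK.nil (p45 h).1.1.1.2.2.1.1.2.1 (by decide +kernel)) TOK.nil (p45 h).1.1.1.2.2.1.1.2.2 (by decide +kernel)) (ndF TOK.nil TOK.nil (p45 h).1.1.1.2.2.1.2.1.2 (by decide +kernel)) (p45 h).1.1.1.2.2.1.2.1.1 (by decide +kernel)) (ndF (ndF TOK.nil TOK.nil (p45 h).1.1.1.2.2.1.2.2.2 (by decide +kernel)) (ndF TOK.nil TOK.nil (p45 h).1.1.1.2.2.2.1.2.1 (by decide +kernel)) (p45 h).1.1.1.2.2.2.1.1 (by decide +kernel)) (p45 h).1.1.1.2.2.1.2.2.1 (by decide +kernel)) (p45 h).1.1.1.2.2.1.1.1 (by decide +kernel)) (p45 h).1.1.1.2.1.1.2.1.2 (by decide +kernel)) (ndF (ndF (ndF (ndF (ndF (ndF TOK.nil TOK.nil (p45 h).1.1.1.2.2.2.2.1.1 (by decide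 +kernel)) TOK.nil (p45 h).1.1.1.2.2.2.2.1.2 (by decide +kernel)) (ndF TOK.nil TOK.nil (p45 h).1.1.1.2.2.2.2.2.2 (by decide +kernel)) (p45 h).1.1.1.2.2.2.2.2.1 (by decide +kernel)) (ndF (ndF (ndF TOK.nil TOK.nil (p45 h).1.1.2.1.1.1.1.2.1 (by decide +kernel)) TOK.nil (p45 h).1.1.2.1.1.1.1.2.2 (by decide +kernel)) (ndF TOK.nil TOK.nil (p45 h).1.1.2.1.1.1.2.2.1 (by decide +kernel)) (p45 h).1.1.2.1.1.1.2.1 (by decide +kernel)) (p45 h).1.1.2.1.1.1.1.1 (by decide +kernel)) (ndF (ndF (ndF (ndF TOK.nil TOK.nil (p45 h).1.1.2.1.1.2.1.1 (by decide +kernel)) TOK.nil (p45 h).1.1.2.1.1.2.1.2.1 (by decide +kernel)) (ndF TOK.nil TOK.nil (p45 h).1.1.2.1.1.2.2.1.1 (by decide +kernel)) (p45 h).1.1.2.1.1.2.1.2.2 (by decide +kernel)) (ndF (ndF (ndF TOK.nil TOK.nil (p45 h).1.1.2.1.1.2.2.2.1 (by decide +kernel)) TOK.nil (p45 h).1.1.2.1.1.2.2.2.2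 (by decide +kernel)) (ndF TOK.nil TOK.nil (p45 h).1.1.2.1.2.1.1.2.1 (by decide +kernel)) (p45 h).1.1.2.1.2.1.1.1 (by decide +kernel)) (p45 h).1.1.2.1.1.2.2.1.2 (by decide +kernel)) (p45 h).1.1.2.1.1.1.2.2.2 (by decide +kernel)) (ndF (ndF (ndF (ndF (ndF TOK.nil TOK.nil (p45 h).1.1.2.1.2.1.2.1.1 (by decide +kernel)) TOK.nil (p45 h).1.1.2.1.2.1.2.1.2 (by decide +kernel)) (ndF TOK.nil TOK.nil (p45 h).1.1.2.1.2.1.2.2.2 (by decide +kernel)) (p45 h).1.1.2.1.2.1.2.2.1 (by decide +kernel)) (ndF (ndF (ndF TOK.nil TOK.nil (p45 h).1.1.2.1.2.2.1.2.1 (by decide +kernel)) TOK.nil (p45 h).1.1.2.1.2.2.1.2.2 (by decide +kernel)) (ndF TOK.nil TOK.nil (p45 h).1.1.2.1.2.2.2.1.2 (by decide +kernel)) (p45 h).1.1.2.1.2.2.2.1.1 (by decide +kernel)) (p45 h).1.1.2.1.2.2.1.1 (by decide +kernel)) (ndF (ndF (ndF (ndF TOK.nil TOK.nil (p45 h).1.1.2.1.2.2.2.2.2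 (by decide +kernel)) TOK.nil (p45 h).1.1.2.2.1.1.1.1 (by decide +kernel)) (ndF TOK.nil TOK.nil (p45 h).1.1.2.2.1.1.1.2.2 (by decide +kernel)) (p45 h).1.1.2.2.1.1.1.2.1 (by decide +kernel)) (ndF (ndF TOK.nil TOK.nil (p45 h).1.1.2.2.1.1.2.1.2 (by decide +kernel)) (ndF TOK.nil TOK.nil (p45 h).1.1.2.2.1.1.2.2.2 (by decide +kernel)) (p45 h).1.1.2.2.1.1.2.2.1 (by decide +kernel)) (p45 h).1.1.2.2.1.1.2.1.1 (by decide +kernel)) (p45 h).1.1.2.1.2.2.2.2.1 (by decide +kernel)) (p45 h).1.1.2.1.2.1.1.2.2 (by decide +kernel)) (p45 h).1.1.1.2.2.2.1.2.2 (by decide +kernel)) (ndF (ndF (ndF (ndF (ndF (ndF (ndF TOK.nil TOK.nil (p45 h).1.1.2.2.1.2.1.2.1 (by decide +kernel)) TOK.nil (p45 h).1.1.2.2.1.2.1.2.2 (by decide +kernel)) (ndF TOK.nil TOK.nil (p45 h).1.1.2.2.1.2.2.1.2 (by decide +kernel)) (p45 h).1.1.2.2.1.2.2.1.1 (by decide +kernel))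 (ndF (ndF (ndF TOK.nil TOK.nil (p45 h).1.1.2.2.1.2.2.2.2 (by decide +kernel)) TOK.nil (p45 h).1.1.2.2.2.1.1.1 (by decide +kernel)) (ndF TOK.nil TOK.nil (p45 h).1.1.2.2.2.1.1.2.2 (by decide +kernel)) (p45 h).1.1.2.2.2.1.1.2.1 (by decide +kernel)) (p45 h).1.1.2.2.1.2.2.2.1 (by decide +kernel)) (ndF (ndF (ndF (ndF TOK.nil TOK.nil (p45 h).1.1.2.2.2.1.2.1.2 (by decide +kernel)) TOK.nil (p45 h).1.1.2.2.2.1.2.2.1 (by decide +kernel)) (ndF TOK.nil TOK.nil (p45 h).1.1.2.2.2.2.1.1 (by decide +kernel)) (p45 h).1.1.2.2.2.1.2.2.2 (by decide +kernel)) (ndF (ndF (ndF TOK.nil TOK.nil (p45 h).1.1.2.2.2.2.1.2.2 (by decide +kernel)) TOK.nil (p45 h).1.1.2.2.2.2.2.1.1 (by decide +kernel)) (ndF TOK.nil TOK.nil (p45 h).1.1.2.2.2.2.2.2.1 (by decide +kernel)) (p45 h).1.1.2.2.2.2.2.1.2 (by decide +kernel)) (p45 h).1.1.2.2.2.2.1.2.1 (by decide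 +kernel)) (p45 h).1.1.2.2.2.1.2.1.1 (by decide +kernel)) (ndF (ndF (ndF (ndF (ndF TOK.nil TOK.nil (p45 h).1.2.1.1.1.1.1.1 (by decide +kernel)) TOK.nil (p45 h).1.2.1.1.1.1.1.2.1 (by decide +kernel)) (ndF TOK.nil TOK.nil (p45 h).1.2.1.1.1.1.2.1 (by decide +kernel)) (p45 h).1.2.1.1.1.1.1.2.2 (by decide +kernel)) (ndF (ndF (ndF TOK.nil TOK.nil (p45 h).1.2.1.1.1.1.2.2.2 (by decide +kernel)) TOK.nil (p45 h).1.2.1.1.1.2.1.1 (by decide +kernel)) (ndF TOK.nil TOK.nil (p45 h).1.2.1.1.1.2.1.2.2 (by decide +kernel)) (p45 h).1.2.1.1.1.2.1.2.1 (by decide +kernel)) (p45 h).1.2.1.1.1.1.2.2.1 (by decide +kernel)) (ndF (ndF (ndF (ndF TOK.nil TOK.nil (p45 h).1.2.1.1.1.2.2.1.2 (by decide +kernel)) TOK.nil (p45 h).1.2.1.1.1.2.2.2.1 (by decide +kernel)) (ndF TOK.nil TOK.nil (p45 h).1.2.1.1.2.1.1.1 (by decide +kernel)) (p45 h).1.2.1.1.1.2.2.2.2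 (by decide +kernel)) (ndF (ndF TOK.nil TOK.nil (p45 h).1.2.1.1.2.1.1.2.2 (by decide +kernel)) (ndF TOK.nil TOK.nil (p45 h).1.2.1.1.2.1.2.1.2 (by decide +kernel)) (p45 h).1.2.1.1.2.1.2.1.1 (by decide +kernel)) (p45 h).1.2.1.1.2.1.1.2.1 (by decide +kernel)) (p45 h).1.2.1.1.1.2.2.1.1 (by decide +kernel)) (p45 h).1.1.2.2.2.2.2.2.2 (by decide +kernel)) (ndF (ndF (ndF (ndF (ndF (ndF TOK.nil TOK.nil (p45 h).1.2.1.1.2.1.2.2.2 (by decide +kernel)) TOK.nil (p45 h).1.2.1.1.2.2.1.1 (by decide +kernel)) (ndF TOK.nil TOK.nil (p45 h).1.2.1.1.2.2.1.2.2 (by decide +kernel)) (p45 h).1.2.1.1.2.2.1.2.1 (by decide +kernel)) (ndF (ndF (ndF TOK.nil TOK.nil (p45 h).1.2.1.1.2.2.2.1.2 (by decide +kernel)) TOK.nil (p45 h).1.2.1.1.2.2.2.2.1 (by decide +kernel)) (ndF TOK.nil TOK.nil (p45 h).1.2.1.2.1.1.1.1 (by decide +kernel)) (p45 h).1.2.1.1.2.2.2.2.2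 (by decide +kernel)) (p45 h).1.2.1.1.2.2.2.1.1 (by decide +kernel)) (ndF (ndF (ndF (ndF TOK.nil TOK.nil (p45 h).1.2.1.2.1.1.1.2.2 (by decide +kernel)) TOK.nil (p45 h).1.2.1.2.1.1.2.1.1 (by decide +kernel)) (ndF TOK.nil TOK.nil (p45 h).1.2.1.2.1.1.2.2.1 (by decide +kernel)) (p45 h).1.2.1.2.1.1.2.1.2 (by decide +kernel)) (ndF (ndF (ndF TOK.nil TOK.nil (p45 h).1.2.1.2.1.2.1.1 (by decide +kernel)) TOK.nil (p45 h).1.2.1.2.1.2.1.2.1 (by decide +kernel)) (ndF TOK.nil TOK.nil (p45 h).1.2.1.2.1.2.2.1.1 (by decide +kernel)) (p45 h).1.2.1.2.1.2.1.2.2 (by decide +kernel)) (p45 h).1.2.1.2.1.1.2.2.2 (by decide +kernel)) (p45 h).1.2.1.2.1.1.1.2.1 (by decide +kernel)) (ndF (ndF (ndF (ndF (ndF TOK.nil TOK.nil (p45 h).1.2.1.2.1.2.2.2.1 (by decide +kernel)) TOK.nil (p45 h).1.2.1.2.1.2.2.2.2 (by decide +kernel)) (ndF TOK.nil TOK.nil (p45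 h).1.2.1.2.2.1.1.2.1 (by decide +kernel)) (p45 h).1.2.1.2.2.1.1.1 (by decide +kernel)) (ndF (ndF (ndF TOK.nil TOK.nil (p45 h).1.2.1.2.2.1.2.1.1 (by decide +kernel)) TOK.nil (p45 h).1.2.1.2.2.1.2.1.2 (by decide +kernel)) (ndF TOK.nil TOK.nil (p45 h).1.2.1.2.2.1.2.2.2 (by decide +kernel)) (p45 h).1.2.1.2.2.1.2.2.1 (by decide +kernel)) (p45 h).1.2.1.2.2.1.1.2.2 (by decide +kernel)) (ndF (ndF (ndF (ndF TOK.nil TOK.nil (p45 h).1.2.1.2.2.2.1.2.1 (by decide +kernel)) TOK.nil (p45 h).1.2.1.2.2.2.1.2.2 (by decide +kernel)) (ndF TOK.nil TOK.nil (p45 h).1.2.1.2.2.2.2.1.2 (by decide +kernel)) (p45 h).1.2.1.2.2.2.2.1.1 (by decide +kernel)) (ndF (ndF TOK.nil TOK.nil (p45 h).1.2.1.2.2.2.2.2.2 (by decide +kernel)) (ndF TOK.nil TOK.nil (p45 h).1.2.2.1.1.1.1.2.1 (by decide +kernel)) (p45 h).1.2.2.1.1.1.1.1 (by decide +kernel)) (p45 h).1.2.1.2.2.2.2.2.1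 (by decide +kernel)) (p45 h).1.2.1.2.2.2.1.1 (by decide +kernel)) (p45 h).1.2.1.2.1.2.2.1.2 (by decide +kernel)) (p45 h).1.2.1.1.2.1.2.2.1 (by decide +kernel)) (p45 h).1.1.2.2.1.2.1.1 (by decide +kernel)) (ndF (ndF (ndF (ndF (ndF (ndF (ndF (ndF TOK.nil TOK.nil (p45 h).1.2.2.1.1.1.2.1 (by decide +kernel)) TOK.nil (p45 h).1.2.2.1.1.1.2.2.1 (by decide +kernel)) (ndF TOK.nil TOK.nil (p45 h).1.2.2.1.1.2.1.1 (by decide +kernel)) (p45 h).1.2.2.1.1.1.2.2.2 (by decide +kernel)) (ndF (ndF (ndF TOK.nil TOK.nil (p45 h).1.2.2.1.1.2.1.2.2 (by decide +kernel)) TOK.nil (p45 h).1.2.2.1.1.2.2.1.1 (by decide +kernel)) (ndF TOK.nil TOK.nil (p45 h).1.2.2.1.1.2.2.2.1 (by decide +kernel)) (p45 h).1.2.2.1.1.2.2.1.2 (by decide +kernel)) (p45 h).1.2.2.1.1.2.1.2.1 (by decide +kernel)) (ndF (ndF (ndF (ndF TOK.nil TOK.nil (p45 h).1.2.2.1.2.1.1.1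 (by decide +kernel)) TOK.nil (p45 h).1.2.2.1.2.1.1.2.1 (by decide +kernel)) (ndF TOK.nil TOK.nil (p45 h).1.2.2.1.2.1.2.1.1 (by decide +kernel)) (p45 h).1.2.2.1.2.1.1.2.2 (by decide +kernel)) (ndF (ndF (ndF TOK.nil TOK.nil (p45 h).1.2.2.1.2.1.2.2.1 (by decide +kernel)) TOK.nil (p45 h).1.2.2.1.2.1.2.2.2 (by decide +kernel)) (ndF TOK.nil TOK.nil (p45 h).1.2.2.1.2.2.1.2.1 (by decide +kernel)) (p45 h).1.2.2.1.2.2.1.1 (by decide +kernel)) (p45 h).1.2.2.1.2.1.2.1.2 (by decide +kernel)) (p45 h).1.2.2.1.1.2.2.2.2 (by decide +kernel)) (ndF (ndF (ndF (ndF (ndF TOK.nil TOK.nil (p45 h).1.2.2.1.2.2.2.1.1 (by decide +kernel)) TOK.nil (p45 h).1.2.2.1.2.2.2.1.2 (by decide +kernel)) (ndF TOK.nil TOK.nil (p45 h).1.2.2.1.2.2.2.2.2 (by decide +kernel)) (p45 h).1.2.2.1.2.2.2.2.1 (by decide +kernel)) (ndF (ndF (ndF TOK.nil TOK.nil (p45 h).1.2.2.2.1.1.1.2.1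 (by decide +kernel)) TOK.nil (p45 h).1.2.2.2.1.1.1.2.2 (by decide +kernel)) (ndF TOK.nil TOK.nil (p45 h).1.2.2.2.1.1.2.1.2 (by decide +kernel)) (p45 h).1.2.2.2.1.1.2.1.1 (by decide +kernel)) (p45 h).1.2.2.2.1.1.1.1 (by decide +kernel)) (ndF (ndF (ndF (ndF TOK.nil TOK.nil (p45 h).1.2.2.2.1.1.2.2.2 (by decide +kernel)) TOK.nil (p45 h).1.2.2.2.1.2.1.1 (by decide +kernel)) (ndF TOK.nil TOK.nil (p45 h).1.2.2.2.1.2.1.2.2 (by decide +kernel)) (p45 h).1.2.2.2.1.2.1.2.1 (by decide +kernel)) (ndF (ndF TOK.nil TOK.nil (p45 h).1.2.2.2.1.2.2.1.2 (by decide +kernel)) (ndF TOK.nil TOK.nil (p45 h).1.2.2.2.1.2.2.2.2 (by decide +kernel)) (p45 h).1.2.2.2.1.2.2.2.1 (by decide +kernel)) (p45 h).1.2.2.2.1.2.2.1.1 (by decide +kernel)) (p45 h).1.2.2.2.1.1.2.2.1 (by decide +kernel)) (p45 h).1.2.2.1.2.2.1.2.2 (by decide +kernel)) (ndF (ndF (ndF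 (ndF (ndF (ndF TOK.nil TOK.nil (p45 h).1.2.2.2.2.1.1.2.1 (by decide +kernel)) TOK.nil (p45 h).1.2.2.2.2.1.1.2.2 (by decide +kernel)) (ndF TOK.nil TOK.nil (p45 h).1.2.2.2.2.1.2.1.2 (by decide +kernel)) (p45 h).1.2.2.2.2.1.2.1.1 (by decide +kernel)) (ndF (ndF (ndF TOK.nil TOK.nil (p45 h).1.2.2.2.2.1.2.2.2 (by decide +kernel)) TOK.nil (p45 h).1.2.2.2.2.2.1.1 (by decide +kernel)) (ndF TOK.nil TOK.nil (p45 h).1.2.2.2.2.2.1.2.2 (by decide +kernel)) (p45 h).1.2.2.2.2.2.1.2.1 (by decide +kernel)) (p45 h).1.2.2.2.2.1.2.2.1 (by decide +kernel)) (ndF (ndF (ndF (ndF TOK.nil TOK.nil (p45 h).1.2.2.2.2.2.2.1.2 (by decide +kernel)) TOK.nil (p45 h).1.2.2.2.2.2.2.2.1 (by decide +kernel)) (ndF TOK.nil TOK.nil (p45 h).2.1.1.1.1.1.1.1 (by decide +kernel)) (p45 h).1.2.2.2.2.2.2.2.2 (by decide +kernel)) (ndF (ndF (ndF TOK.nil TOK.nil (p45 h).2.1.1.1.1.1.1.2.2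 (by decide +kernel)) TOK.nil (p45 h).2.1.1.1.1.1.2.1 (by decide +kernel)) (ndF TOK.nil TOK.nil (p45 h).2.1.1.1.1.1.2.2.2 (by decide +kernel)) (p45 h).2.1.1.1.1.1.2.2.1 (by decide +kernel)) (p45 h).2.1.1.1.1.1.1.2.1 (by decide +kernel)) (p45 h).1.2.2.2.2.2.2.1.1 (by decide +kernel)) (ndF (ndF (ndF (ndF (ndF TOK.nil TOK.nil (p45 h).2.1.1.1.1.2.1.2.1 (by decide +kernel)) TOK.nil (p45 h).2.1.1.1.1.2.1.2.2 (by decide +kernel)) (ndF TOK.nil TOK.nil (p45 h).2.1.1.1.1.2.2.1.2 (by decide +kernel)) (p45 h).2.1.1.1.1.2.2.1.1 (by decide +kernel)) (ndF (ndF (ndF TOK.nil TOK.nil (p45 h).2.1.1.1.1.2.2.2.2 (by decide +kernel)) TOK.nil (p45 h).2.1.1.1.2.1.1.1 (by decide +kernel)) (ndF TOK.nil TOK.nil (p45 h).2.1.1.1.2.1.1.2.2 (by decide +kernel)) (p45 h).2.1.1.1.2.1.1.2.1 (by decide +kernel)) (p45 h).2.1.1.1.1.2.2.2.1 (by decide +kernel))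 (ndF (ndF (ndF (ndF TOK.nil TOK.nil (p45 h).2.1.1.1.2.1.2.1.2 (by decide +kernel)) TOK.nil (p45 h).2.1.1.1.2.1.2.2.1 (by decide +kernel)) (ndF TOK.nil TOK.nil (p45 h).2.1.1.1.2.2.1.1 (by decide +kernel)) (p45 h).2.1.1.1.2.1.2.2.2 (by decide +kernel)) (ndF (ndF TOK.nil TOK.nil (p45 h).2.1.1.1.2.2.1.2.2 (by decide +kernel)) (ndF TOK.nil TOK.nil (p45 h).2.1.1.1.2.2.2.1.2 (by decide +kernel)) (p45 h).2.1.1.1.2.2.2.1.1 (by decide +kernel)) (p45 h).2.1.1.1.2.2.1.2.1 (by decide +kernel)) (p45 h).2.1.1.1.2.1.2.1.1 (by decide +kernel)) (p45 h).2.1.1.1.1.2.1.1 (by decide +kernel)) (p45 h).1.2.2.2.2.1.1.1 (by decide +kernel)) (ndF (ndF (ndF (ndF (ndF (ndF (ndF TOK.nil TOK.nil (p45 h).2.1.1.1.2.2.2.2.2 (by decide +kernel)) TOK.nil (p45 h).2.1.1.2.1.1.1.1 (by decide +kernel)) (ndF TOK.nil TOK.nil (p45 h).2.1.1.2.1.1.1.2.2 (by decide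 +kernel)) (p45 h).2.1.1.2.1.1.1.2.1 (by decide +kernel)) (ndF (ndF (ndF TOK.nil TOK.nil (p45 h).2.1.1.2.1.1.2.1.2 (by decide +kernel)) TOK.nil (p45 h).2.1.1.2.1.1.2.2.1 (by decide +kernel)) (ndF TOK.nil TOK.nil (p45 h).2.1.1.2.1.2.1.1 (by decide +kernel)) (p45 h).2.1.1.2.1.1.2.2.2 (by decide +kernel)) (p45 h).2.1.1.2.1.1.2.1.1 (by decide +kernel)) (ndF (ndF (ndF (ndF TOK.nil TOK.nil (p45 h).2.1.1.2.1.2.1.2.2 (by decide +kernel)) TOK.nil (p45 h).2.1.1.2.1.2.2.1.1 (by decide +kernel)) (ndF TOK.nil TOK.nil (p45 h).2.1.1.2.1.2.2.2.1 (by decide +kernel)) (p45 h).2.1.1.2.1.2.2.1.2 (by decide +kernel)) (ndF (ndF (ndF TOK.nil TOK.nil (p45 h).2.1.1.2.2.1.1.1 (by decide +kernel)) TOK.nil (p45 h).2.1.1.2.2.1.1.2.1 (by decide +kernel)) (ndF TOK.nil TOK.nil (p45 h).2.1.1.2.2.1.2.1.1 (by decide +kernel)) (p45 h).2.1.1.2.2.1.1.2.2 (by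 decide +kernel)) (p45 h).2.1.1.2.1.2.2.2.2 (by decide +kernel)) (p45 h).2.1.1.2.1.2.1.2.1 (by decide +kernel)) (ndF (ndF (ndF (ndF (ndF TOK.nil TOK.nil (p45 h).2.1.1.2.2.1.2.2.1 (by decide +kernel)) TOK.nil (p45 h).2.1.1.2.2.1.2.2.2 (by decide +kernel)) (ndF TOK.nil TOK.nil (p45 h).2.1.1.2.2.2.1.2.1 (by decide +kernel)) (p45 h).2.1.1.2.2.2.1.1 (by decide +kernel)) (ndF (ndF (ndF TOK.nil TOK.nil (p45 h).2.1.1.2.2.2.2.1.1 (by decide +kernel)) TOK.nil (p45 h).2.1.1.2.2.2.2.1.2 (by decide +kernel)) (ndF TOK.nil TOK.nil (p45 h).2.1.1.2.2.2.2.2.2 (by decide +kernel)) (p45 h).2.1.1.2.2.2.2.2.1 (by decide +kernel)) (p45 h).2.1.1.2.2.2.1.2.2 (by decide +kernel)) (ndF (ndF (ndF (ndF TOK.nil TOK.nil (p45 h).2.1.2.1.1.1.1.2.1 (by decide +kernel)) TOK.nil (p45 h).2.1.2.1.1.1.1.2.2 (by decide +kernel)) (ndF TOK.nil TOK.nil (p45 h).2.1.2.1.1.1.2.2.1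 (by decide +kernel)) (p45 h).2.1.2.1.1.1.2.1 (by decide +kernel)) (ndF (ndF TOK.nil TOK.nil (p45 h).2.1.2.1.1.2.1.1 (by decide +kernel)) (ndF TOK.nil TOK.nil (p45 h).2.1.2.1.1.2.1.2.2 (by decide +kernel)) (p45 h).2.1.2.1.1.2.1.2.1 (by decide +kernel)) (p45 h).2.1.2.1.1.1.2.2.2 (by decide +kernel)) (p45 h).2.1.2.1.1.1.1.1 (by decide +kernel)) (p45 h).2.1.1.2.2.1.2.1.2 (by decide +kernel)) (ndF (ndF (ndF (ndF (ndF (ndF TOK.nil TOK.nil (p45 h).2.1.2.1.1.2.2.1.2 (by decide +kernel)) TOK.nil (p45 h).2.1.2.1.1.2.2.2.1 (by decide +kernel)) (ndF TOK.nil TOK.nil (p45 h).2.1.2.1.2.1.1.1 (by decide +kernel)) (p45 h).2.1.2.1.1.2.2.2.2 (by decide +kernel)) (ndF (ndF (ndF TOK.nil TOK.nil (p45 h).2.1.2.1.2.1.1.2.2 (by decide +kernel)) TOK.nil (p45 h).2.1.2.1.2.1.2.1.1 (by decide +kernel)) (ndF TOK.nil TOK.nil (p45 h).2.1.2.1.2.1.2.2.1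 (by decide +kernel)) (p45 h).2.1.2.1.2.1.2.1.2 (by decide +kernel)) (p45 h).2.1.2.1.2.1.1.2.1 (by decide +kernel)) (ndF (ndF (ndF (ndF TOK.nil TOK.nil (p45 h).2.1.2.1.2.2.1.1 (by decide +kernel)) TOK.nil (p45 h).2.1.2.1.2.2.1.2.1 (by decide +kernel)) (ndF TOK.nil TOK.nil (p45 h).2.1.2.1.2.2.2.1.1 (by decide +kernel)) (p45 h).2.1.2.1.2.2.1.2.2 (by decide +kernel)) (ndF (ndF TOK.nil TOK.nil (p45 h).2.1.2.1.2.2.2.2.1 (by decide +kernel)) (ndF TOK.nil TOK.nil (p45 h).2.1.2.2.1.1.1.1 (by decide +kernel)) (p45 h).2.1.2.1.2.2.2.2.2 (by decide +kernel)) (p45 h).2.1.2.1.2.2.2.1.2 (by decide +kernel)) (p45 h).2.1.2.1.2.1.2.2.2 (by decide +kernel)) (ndF (ndF (ndF (ndF (ndF TOK.nil TOK.nil (p45 h).2.1.2.2.1.1.1.2.2 (by decide +kernel)) TOK.nil (p45 h).2.1.2.2.1.1.2.1.1 (by decide +kernel)) (ndF TOK.nil TOK.nil (p45 h).2.1.2.2.1.1.2.2.1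 (by decide +kernel)) (p45 h).2.1.2.2.1.1.2.1.2 (by decide +kernel)) (ndF (ndF (ndF TOK.nil TOK.nil (p45 h).2.1.2.2.1.2.1.1 (by decide +kernel)) TOK.nil (p45 h).2.1.2.2.1.2.1.2.1 (by decide +kernel)) (ndF TOK.nil TOK.nil (p45 h).2.1.2.2.1.2.2.1.1 (by decide +kernel)) (p45 h).2.1.2.2.1.2.1.2.2 (by decide +kernel)) (p45 h).2.1.2.2.1.1.2.2.2 (by decide +kernel)) (ndF (ndF (ndF (ndF TOK.nil TOK.nil (p45 h).2.1.2.2.1.2.2.2.1 (by decide +kernel)) TOK.nil (p45 h).2.1.2.2.1.2.2.2.2 (by decide +kernel)) (ndF TOK.nil TOK.nil (p45 h).2.1.2.2.2.1.1.2.1 (by decide +kernel)) (p45 h).2.1.2.2.2.1.1.1 (by decide +kernel)) (ndF (ndF TOK.nil TOK.nil (p45 h).2.1.2.2.2.1.2.1.1 (by decide +kernel)) (ndF TOK.nil TOK.nil (p45 h).2.1.2.2.2.1.2.2.1 (by decide +kernel)) (p45 h).2.1.2.2.2.1.2.1.2 (by decide +kernel)) (p45 h).2.1.2.2.2.1.1.2.2 (by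 decide +kernel)) (p45 h).2.1.2.2.1.2.2.1.2 (by decide +kernel)) (p45 h).2.1.2.2.1.1.1.2.1 (by decide +kernel)) (p45 h).2.1.2.1.1.2.2.1.1 (by decide +kernel)) (p45 h).2.1.1.1.2.2.2.2.1 (by decide +kernel)) (p45 h).1.2.2.1.1.1.1.2.2 (by decide +kernel))

theorem R_80_120_ok (h : RcOK RE.rowE) : R_80_120.OK :=
  okF (by decide +kernel) (ndF (ndF (ndF (ndF (ndF (ndF (ndF TOK.nil TOK.nil (p45 h).2.1.2.2.2.1.2.2.2 (by decide +kernel)) (ndF TOK.nil TOK.nil (p45 h).2.1.2.2.2.2.1.2.1 (by decide +kernel)) (p45 h).2.1.2.2.2.2.1.1 (by decide +kernel)) (ndF (ndF TOK.nil TOK.nil (p45 h).2.1.2.2.2.2.2.1.1 (by decide +kernel)) TOK.nil (p45 h).2.1.2.2.2.2.2.1.2 (by decide +kernel)) (p45 h).2.1.2.2.2.2.1.2.2 (by decide +kernel)) (ndF (ndF (ndF TOK.nil TOK.nil (p45 h).2.1.2.2.2.2.2.2.2 (by decide +kernel)) (ndF TOK.nil TOK.nil (p45 h).2.2.1.1.1.1.1.2.1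 (by decide +kernel)) (p45 h).2.2.1.1.1.1.1.1 (by decide +kernel)) (ndF (ndF TOK.nil TOK.nil (p45 h).2.2.1.1.1.1.2.1 (by decide +kernel)) TOK.nil (p45 h).2.2.1.1.1.1.2.2.1 (by decide +kernel)) (p45 h).2.2.1.1.1.1.1.2.2 (by decide +kernel)) (p45 h).2.1.2.2.2.2.2.2.1 (by decide +kernel)) (ndF (ndF (ndF (ndF TOK.nil TOK.nil (p45 h).2.2.1.1.1.2.1.1 (by decide +kernel)) (ndF TOK.nil TOK.nil (p45 h).2.2.1.1.1.2.1.2.2 (by decide +kernel)) (p45 h).2.2.1.1.1.2.1.2.1 (by decide +kernel)) (ndF (ndF TOK.nil TOK.nil (p45 h).2.2.1.1.1.2.2.1.2 (by decide +kernel)) TOK.nil (p45 h).2.2.1.1.1.2.2.2.1 (by decide +kernel)) (p45 h).2.2.1.1.1.2.2.1.1 (by decide +kernel)) (ndF (ndF (ndF TOK.nil TOK.nil (p45 h).2.2.1.1.2.1.1.1 (by decide +kernel)) TOK.nil (p45 h).2.2.1.1.2.1.1.2.1 (by decide +kernel)) (ndF (ndF TOK.nil TOK.nil (p45 h).2.2.1.1.2.1.2.1.1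 (by decide +kernel)) TOK.nil (p45 h).2.2.1.1.2.1.2.1.2 (by decide +kernel)) (p45 h).2.2.1.1.2.1.1.2.2 (by decide +kernel)) (p45 h).2.2.1.1.1.2.2.2.2 (by decide +kernel)) (p45 h).2.2.1.1.1.1.2.2.2 (by decide +kernel)) (ndF (ndF (ndF (ndF (ndF TOK.nil TOK.nil (p45 h).2.2.1.1.2.1.2.2.2 (by decide +kernel)) (ndF TOK.nil TOK.nil (p45 h).2.2.1.1.2.2.1.2.1 (by decide +kernel)) (p45 h).2.2.1.1.2.2.1.1 (by decide +kernel)) (ndF (ndF TOK.nil TOK.nil (p45 h).2.2.1.1.2.2.2.1.1 (by decide +kernel)) TOK.nil (p45 h).2.2.1.1.2.2.2.1.2 (by decide +kernel)) (p45 h).2.2.1.1.2.2.1.2.2 (by decide +kernel)) (ndF (ndF (ndF TOK.nil TOK.nil (p45 h).2.2.1.1.2.2.2.2.2 (by decide +kernel)) TOK.nil (p45 h).2.2.1.2.1.1.1.1 (by decide +kernel)) (ndF (ndF TOK.nil TOK.nil (p45 h).2.2.1.2.1.1.1.2.2 (by decide +kernel)) TOK.nil (p45 h).2.2.1.2.1.1.2.1.1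 (by decide +kernel)) (p45 h).2.2.1.2.1.1.1.2.1 (by decide +kernel)) (p45 h).2.2.1.1.2.2.2.2.1 (by decide +kernel)) (ndF (ndF (ndF (ndF TOK.nil TOK.nil (p45 h).2.2.1.2.1.1.2.2.1 (by decide +kernel)) (ndF TOK.nil TOK.nil (p45 h).2.2.1.2.1.2.1.1 (by decide +kernel)) (p45 h).2.2.1.2.1.1.2.2.2 (by decide +kernel)) (ndF (ndF TOK.nil TOK.nil (p45 h).2.2.1.2.1.2.1.2.2 (by decide +kernel)) TOK.nil (p45 h).2.2.1.2.1.2.2.1.1 (by decide +kernel)) (p45 h).2.2.1.2.1.2.1.2.1 (by decide +kernel)) (ndF (ndF (ndF TOK.nil TOK.nil (p45 h).2.2.1.2.1.2.2.2.1 (by decide +kernel)) TOK.nil (p45 h).2.2.1.2.1.2.2.2.2 (by decide +kernel)) (ndF (ndF TOK.nil TOK.nil (p45 h).2.2.1.2.2.1.1.2.1 (by decide +kernel)) TOK.nil (p45 h).2.2.1.2.2.1.1.2.2 (by decide +kernel)) (p45 h).2.2.1.2.2.1.1.1 (by decide +kernel)) (p45 h).2.2.1.2.1.2.2.1.2 (by decide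 +kernel)) (p45 h).2.2.1.2.1.1.2.1.2 (by decide +kernel)) (p45 h).2.2.1.1.2.1.2.2.1 (by decide +kernel)) (ndF (ndF (ndF (ndF (ndF (ndF TOK.nil TOK.nil (p45 h).2.2.1.2.2.1.2.1.2 (by decide +kernel)) (ndF TOK.nil TOK.nil (p45 h).2.2.1.2.2.1.2.2.2 (by decide +kernel)) (p45 h).2.2.1.2.2.1.2.2.1 (by decide +kernel)) (ndF (ndF TOK.nil TOK.nil (p45 h).2.2.1.2.2.2.1.2.1 (by decide +kernel)) TOK.nil (p45 h).2.2.1.2.2.2.1.2.2 (by decide +kernel)) (p45 h).2.2.1.2.2.2.1.1 (by decide +kernel)) (ndF (ndF (ndF TOK.nil TOK.nil (p45 h).2.2.1.2.2.2.2.1.2 (by decide +kernel)) TOK.nil (p45 h).2.2.1.2.2.2.2.2.1 (by decide +kernel)) (ndF (ndF TOK.nil TOK.nil (p45 h).2.2.2.1.1.1.1.1 (by decide +kernel)) TOK.nil (p45 h).2.2.2.1.1.1.1.2.1 (by decide +kernel)) (p45 h).2.2.1.2.2.2.2.2.2 (by decide +kernel)) (p45 h).2.2.1.2.2.2.2.1.1 (by decide +kernel))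 (ndF (ndF (ndF (ndF TOK.nil TOK.nil (p45 h).2.2.2.1.1.1.2.1.1 (by decide +kernel)) (ndF TOK.nil TOK.nil (p45 h).2.2.2.1.1.1.2.2.1 (by decide +kernel)) (p45 h).2.2.2.1.1.1.2.1.2 (by decide +kernel)) (ndF (ndF TOK.nil TOK.nil (p45 h).2.2.2.1.1.2.1.1 (by decide +kernel)) TOK.nil (p45 h).2.2.2.1.1.2.1.2.1 (by decide +kernel)) (p45 h).2.2.2.1.1.1.2.2.2 (by decide +kernel)) (ndF (ndF (ndF TOK.nil TOK.nil (p45 h).2.2.2.1.1.2.2.1.1 (by decide +kernel)) TOK.nil (p45 h).2.2.2.1.1.2.2.1.2 (by decide +kernel)) (ndF (ndF TOK.nil TOK.nil (p45 h).2.2.2.1.1.2.2.2.2 (by decide +kernel)) TOK.nil (p45 h).2.2.2.1.2.1.1.1 (by decide +kernel)) (p45 h).2.2.2.1.1.2.2.2.1 (by decide +kernel)) (p45 h).2.2.2.1.1.2.1.2.2 (by decide +kernel)) (p45 h).2.2.2.1.1.1.1.2.2 (by decide +kernel)) (ndF (ndF (ndF (ndF (ndF TOK.nil TOK.nil (p45 h).2.2.2.1.2.1.1.2.2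 (by decide +kernel)) (ndF TOK.nil TOK.nil (p45 h).2.2.2.1.2.1.2.1.2 (by decide +kernel)) (p45 h).2.2.2.1.2.1.2.1.1 (by decide +kernel)) (ndF (ndF TOK.nil TOK.nil (p45 h).2.2.2.1.2.1.2.2.2 (by decide +kernel)) TOK.nil (p45 h).2.2.2.1.2.2.1.1 (by decide +kernel)) (p45 h).2.2.2.1.2.1.2.2.1 (by decide +kernel)) (ndF (ndF (ndF TOK.nil TOK.nil (p45 h).2.2.2.1.2.2.1.2.2 (by decide +kernel)) TOK.nil (p45 h).2.2.2.1.2.2.2.1.1 (by decide +kernel)) (ndF (ndF TOK.nil TOK.nil (p45 h).2.2.2.1.2.2.2.2.1 (by decide +kernel)) TOK.nil (p45 h).2.2.2.1.2.2.2.2.2 (by decide +kernel)) (p45 h).2.2.2.1.2.2.2.1.2 (by decide +kernel)) (p45 h).2.2.2.1.2.2.1.2.1 (by decide +kernel)) (ndF (ndF (ndF (ndF TOK.nil TOK.nil (p45 h).2.2.2.2.1.1.1.2.1 (by decide +kernel)) (ndF TOK.nil TOK.nil (p45 h).2.2.2.2.1.1.2.1.1 (by decide +kernel)) (p45 h).2.2.2.2.1.1.1.2.2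 (by decide +kernel)) (ndF (ndF TOK.nil TOK.nil (p45 h).2.2.2.2.1.1.2.2.1 (by decide +kernel)) TOK.nil (p45 h).2.2.2.2.1.1.2.2.2 (by decide +kernel)) (p45 h).2.2.2.2.1.1.2.1.2 (by decide +kernel)) (ndF (ndF (ndF TOK.nil TOK.nil (p45 h).2.2.2.2.1.2.1.2.1 (by decide +kernel)) TOK.nil (p45 h).2.2.2.2.1.2.1.2.2 (by decide +kernel)) (ndF (ndF TOK.nil TOK.nil (p45 h).2.2.2.2.1.2.2.1.2 (by decide +kernel)) TOK.nil (p45 h).2.2.2.2.1.2.2.2.1 (by decide +kernel)) (p45 h).2.2.2.2.1.2.2.1.1 (by decide +kernel)) (p45 h).2.2.2.2.1.2.1.1 (by decide +kernel)) (p45 h).2.2.2.2.1.1.1.1 (by decide +kernel)) (p45 h).2.2.2.1.2.1.1.2.1 (by decide +kernel)) (p45 h).2.2.1.2.2.1.2.1.1 (by decide +kernel))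

theorem R_60_80_ok (h : RcOK RE.rowE) : R_60_80.OK :=
  okF (by decide +kernel) (ndF (ndF (ndF (ndF (ndF (ndF (ndF TOK.nil TOK.nil (p45 h).2.2.2.2.1.2.2.2.2 (by decide +kernel)) TOK.nil (p45 h).2.2.2.2.2.1.1.1 (by decide +kernel)) (ndF TOK.nil TOK.nil (p45 h).2.2.2.2.2.1.1.2.2 (by decide +kernel)) (p45 h).2.2.2.2.2.1.1.2.1 (by decide +kernel)) (ndF (ndF (ndF TOK.nil TOK.nil (p45 h).2.2.2.2.2.1.2.1.2 (by decide +kernel)) TOK.nil (p45 h).2.2.2.2.2.1.2.2.1 (by decide +kernel)) (ndF TOK.nil TOK.nil (p45 h).2.2.2.2.2.2.1.1 (by decide +kernel)) (p45 h).2.2.2.2.2.1.2.2.2 (by decide +kernel)) (p45 h).2.2.2.2.2.1.2.1.1 (by decide +kernel)) (ndF (ndF (ndF (ndF TOK.nil TOK.nil (p45 h).2.2.2.2.2.2.1.2.2 (by decide +kernel)) TOK.nil (p45 h).2.2.2.2.2.2.2.1.1 (by decide +kernel)) (ndF TOK.nil TOK.nil (p45 h).2.2.2.2.2.2.2.2.1 (by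 decide +kernel)) (p45 h).2.2.2.2.2.2.2.1.2 (by decide +kernel)) (ndF (ndF TOK.nil TOK.nil (p46 h).1.1.1.1.1.1.1 (by decide +kernel)) (ndF TOK.nil TOK.nil (p46 h).1.1.1.1.1.1.2.2 (by decide +kernel)) (p46 h).1.1.1.1.1.1.2.1 (by decide +kernel)) (p45 h).2.2.2.2.2.2.2.2.2 (by decide +kernel)) (p45 h).2.2.2.2.2.2.1.2.1 (by decide +kernel)) (ndF (ndF (ndF (ndF (ndF TOK.nil TOK.nil (p46 h).1.1.1.1.1.2.2.1 (by decide +kernel)) TOK.nil (p46 h).1.1.1.1.1.2.2.2 (by decide +kernel)) (ndF TOK.nil TOK.nil (p46 h).1.1.1.1.2.1.2.1 (by decide +kernel)) (p46 h).1.1.1.1.2.1.1 (by decide +kernel)) (ndF (ndF TOK.nil TOK.nil (p46 h).1.1.1.1.2.2.1.1 (by decide +kernel)) (ndF TOK.nil TOK.nil (p46 h).1.1.1.1.2.2.2.1 (by decide +kernel)) (p46 h).1.1.1.1.2.2.1.2 (by decide +kernel)) (p46 h).1.1.1.1.2.1.2.2 (by decide +kernel)) (ndF (ndF (ndF (ndF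 TOK.nil TOK.nil (p46 h).1.1.1.2.1.1.1 (by decide +kernel)) TOK.nil (p46 h).1.1.1.2.1.1.2.1 (by decide +kernel)) (ndF TOK.nil TOK.nil (p46 h).1.1.1.2.1.2.1 (by decide +kernel)) (p46 h).1.1.1.2.1.1.2.2 (by decide +kernel)) (ndF (ndF TOK.nil TOK.nil (p46 h).1.1.1.2.1.2.2.2 (by decide +kernel)) (ndF TOK.nil TOK.nil (p46 h).1.1.1.2.2.1.2.1 (by decide +kernel)) (p46 h).1.1.1.2.2.1.1 (by decide +kernel)) (p46 h).1.1.1.2.1.2.2.1 (by decide +kernel)) (p46 h).1.1.1.1.2.2.2.2 (by decide +kernel)) (p46 h).1.1.1.1.1.2.1 (by decide +kernel)) (ndF (ndF (ndF (ndF (ndF (ndF TOK.nil TOK.nil (p46 h).1.1.1.2.2.2.1.1 (by decide +kernel)) TOK.nil (p46 h).1.1.1.2.2.2.1.2 (by decide +kernel)) (ndF TOK.nil TOK.nil (p46 h).1.1.1.2.2.2.2.2 (by decide +kernel)) (p46 h).1.1.1.2.2.2.2.1 (by decide +kernel)) (ndF (ndF TOK.nil TOK.nil (p46 h).1.1.2.1.1.1.2.1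 (by decide +kernel)) (ndF TOK.nil TOK.nil (p46 h).1.1.2.1.1.2.1 (by decide +kernel)) (p46 h).1.1.2.1.1.1.2.2 (by decide +kernel)) (p46 h).1.1.2.1.1.1.1 (by decide +kernel)) (ndF (ndF (ndF (ndF TOK.nil TOK.nil (p46 h).1.1.2.1.1.2.2.2 (by decide +kernel)) TOK.nil (p46 h).1.1.2.1.2.1.1 (by decide +kernel)) (ndF TOK.nil TOK.nil (p46 h).1.1.2.1.2.1.2.2 (by decide +kernel)) (p46 h).1.1.2.1.2.1.2.1 (by decide +kernel)) (ndF (ndF TOK.nil TOK.nil (p46 h).1.1.2.1.2.2.1.2 (by decide +kernel)) (ndF TOK.nil TOK.nil (p46 h).1.1.2.1.2.2.2.2 (by decide +kernel)) (p46 h).1.1.2.1.2.2.2.1 (by decide +kernel)) (p46 h).1.1.2.1.2.2.1.1 (by decide +kernel)) (p46 h).1.1.2.1.1.2.2.1 (by decide +kernel)) (ndF (ndF (ndF (ndF (ndF TOK.nil TOK.nil (p46 h).1.1.2.2.1.1.2.1 (by decide +kernel)) TOK.nil (p46 h).1.1.2.2.1.1.2.2 (by decide +kernel)) (ndF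 TOK.nil TOK.nil (p46 h).1.1.2.2.1.2.2.1 (by decide +kernel)) (p46 h).1.1.2.2.1.2.1 (by decide +kernel)) (ndF (ndF TOK.nil TOK.nil (p46 h).1.1.2.2.2.1.1 (by decide +kernel)) (ndF TOK.nil TOK.nil (p46 h).1.1.2.2.2.1.2.2 (by decide +kernel)) (p46 h).1.1.2.2.2.1.2.1 (by decide +kernel)) (p46 h).1.1.2.2.1.2.2.2 (by decide +kernel)) (ndF (ndF (ndF (ndF TOK.nil TOK.nil (p46 h).1.1.2.2.2.2.1.2 (by decide +kernel)) TOK.nil (p46 h).1.1.2.2.2.2.2.1 (by decide +kernel)) (ndF TOK.nil TOK.nil (p46 h).1.2.1.1.1.1.1 (by decide +kernel)) (p46 h).1.1.2.2.2.2.2.2 (by decide +kernel)) (ndF (ndF TOK.nil TOK.nil (p46 h).1.2.1.1.1.1.2.2 (by decide +kernel)) (ndF TOK.nil TOK.nil (p46 h).1.2.1.1.1.2.2.1 (by decide +kernel)) (p46 h).1.2.1.1.1.2.1 (by decide +kernel)) (p46 h).1.2.1.1.1.1.2.1 (by decide +kernel)) (p46 h).1.1.2.2.2.2.1.1 (by decide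 +kernel)) (p46 h).1.1.2.2.1.1.1 (by decide +kernel)) (p46 h).1.1.1.2.2.1.2.2 (by decide +kernel))

theorem T_140_160_ok (h : RcOK RE.rowE) : T_140_160.OK :=
  okF (by decide +kernel) (ndF (ndF (ndF (ndF (ndF (ndF (ndF (ndF TOK.nil TOK.nil (p46 h).1.2.1.1.1.2.2.2 (by decide +kernel)) TOK.nil (p46 h).1.2.1.1.2.1.1 (by decide +kernel)) (ndF TOK.nil TOK.nil (p46 h).1.2.1.1.2.1.2.2 (by decide +kernel)) (p46 h).1.2.1.1.2.1.2.1 (by decide +kernel)) (ndF (ndF TOK.nil TOK.nil (p46 h).1.2.1.1.2.2.1.2 (by decide +kernel)) (ndF TOK.nil TOK.nil (p46 h).1.2.1.1.2.2.2.2 (by decide +kernel)) (p46 h).1.2.1.1.2.2.2.1 (by decide +kernel)) (p46 h).1.2.1.1.2.2.1.1 (by decide +kernel)) (ndF (ndF (ndF TOK.nil TOK.nil (p46 h).1.2.1.2.1.1.2.1 (by decide +kernel)) (ndF TOK.nil TOK.nil (p46 h).1.2.1.2.1.2.1 (by decide +kernel)) (p46 h).1.2.1.2.1.1.2.2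 (by decide +kernel)) (ndF (ndF TOK.nil TOK.nil (p46 h).1.2.1.2.1.2.2.2 (by decide +kernel)) (ndF TOK.nil TOK.nil (p46 h).1.2.1.2.2.1.2.1 (by decide +kernel)) (p46 h).1.2.1.2.2.1.1 (by decide +kernel)) (p46 h).1.2.1.2.1.2.2.1 (by decide +kernel)) (p46 h).1.2.1.2.1.1.1 (by decide +kernel)) (ndF (ndF (ndF (ndF (ndF TOK.nil TOK.nil (p46 h).1.2.1.2.2.2.1.1 (by decide +kernel)) TOK.nil (p46 h).1.2.1.2.2.2.1.2 (by decide +kernel)) (ndF TOK.nil TOK.nil (p46 h).1.2.1.2.2.2.2.2 (by decide +kernel)) (p46 h).1.2.1.2.2.2.2.1 (by decide +kernel)) (ndF (ndF TOK.nil TOK.nil (p46 h).1.2.2.1.1.1.2.1 (by decide +kernel)) (ndF TOK.nil TOK.nil (p46 h).1.2.2.1.1.2.1 (by decide +kernel)) (p46 h).1.2.2.1.1.1.2.2 (by decide +kernel)) (p46 h).1.2.2.1.1.1.1 (by decide +kernel)) (ndF (ndF (ndF TOK.nil TOK.nil (p46 h).1.2.2.1.1.2.2.2 (by decide +kernel))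 (ndF TOK.nil TOK.nil (p46 h).1.2.2.1.2.1.2.1 (by decide +kernel)) (p46 h).1.2.2.1.2.1.1 (by decide +kernel)) (ndF (ndF TOK.nil TOK.nil (p46 h).1.2.2.1.2.2.1.1 (by decide +kernel)) (ndF TOK.nil TOK.nil (p46 h).1.2.2.1.2.2.2.1 (by decide +kernel)) (p46 h).1.2.2.1.2.2.1.2 (by decide +kernel)) (p46 h).1.2.2.1.2.1.2.2 (by decide +kernel)) (p46 h).1.2.2.1.1.2.2.1 (by decide +kernel)) (p46 h).1.2.1.2.2.1.2.2 (by decide +kernel)) (ndF (ndF (ndF (ndF (ndF (ndF TOK.nil TOK.nil (p46 h).1.2.2.2.1.1.1 (by decide +kernel)) TOK.nil (p46 h).1.2.2.2.1.1.2.1 (by decide +kernel)) (ndF TOK.nil TOK.nil (p46 h).1.2.2.2.1.2.1 (by decide +kernel)) (p46 h).1.2.2.2.1.1.2.2 (by decide +kernel)) (ndF (ndF TOK.nil TOK.nil (p46 h).1.2.2.2.1.2.2.2 (by decide +kernel)) (ndF TOK.nil TOK.nil (p46 h).1.2.2.2.2.1.2.1 (by decide +kernel)) (p46 h).1.2.2.2.2.1.1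 (by decide +kernel)) (p46 h).1.2.2.2.1.2.2.1 (by decide +kernel)) (ndF (ndF (ndF TOK.nil TOK.nil (p46 h).1.2.2.2.2.2.1.1 (by decide +kernel)) (ndF TOK.nil TOK.nil (p46 h).1.2.2.2.2.2.2.1 (by decide +kernel)) (p46 h).1.2.2.2.2.2.1.2 (by decide +kernel)) (ndF (ndF TOK.nil TOK.nil (p46 h).2.1.1.1.1.1.1 (by decide +kernel)) (ndF TOK.nil TOK.nil (p46 h).2.1.1.1.1.1.2.2 (by decide +kernel)) (p46 h).2.1.1.1.1.1.2.1 (by decide +kernel)) (p46 h).1.2.2.2.2.2.2.2 (by decide +kernel)) (p46 h).1.2.2.2.2.1.2.2 (by decide +kernel)) (ndF (ndF (ndF (ndF (ndF TOK.nil TOK.nil (p46 h).2.1.1.1.1.2.2.1 (by decide +kernel)) TOK.nil (p46 h).2.1.1.1.1.2.2.2 (by decide +kernel)) (ndF TOK.nil TOK.nil (p46 h).2.1.1.1.2.1.2.1 (by decide +kernel)) (p46 h).2.1.1.1.2.1.1 (by decide +kernel)) (ndF (ndF TOK.nil TOK.nil (p46 h).2.1.1.1.2.2.1.1 (by decide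 +kernel)) (ndF TOK.nil TOK.nil (p46 h).2.1.1.1.2.2.2.1 (by decide +kernel)) (p46 h).2.1.1.1.2.2.1.2 (by decide +kernel)) (p46 h).2.1.1.1.2.1.2.2 (by decide +kernel)) (ndF (ndF (ndF TOK.nil TOK.nil (p46 h).2.1.1.2.1.1.1 (by decide +kernel)) (ndF TOK.nil TOK.nil (p46 h).2.1.1.2.1.1.2.2 (by decide +kernel)) (p46 h).2.1.1.2.1.1.2.1 (by decide +kernel)) (ndF (ndF TOK.nil TOK.nil (p46 h).2.1.1.2.1.2.2.1 (by decide +kernel)) (ndF TOK.nil TOK.nil (p46 h).2.1.1.2.2.1.1 (by decide +kernel)) (p46 h).2.1.1.2.1.2.2.2 (by decide +kernel)) (p46 h).2.1.1.2.1.2.1 (by decide +kernel)) (p46 h).2.1.1.1.2.2.2.2 (by decide +kernel)) (p46 h).2.1.1.1.1.2.1 (by decide +kernel)) (p46 h).1.2.2.1.2.2.2.2 (by decide +kernel)) (ndF (ndF (ndF (ndF (ndF (ndF (ndF TOK.nil TOK.nil (p46 h).2.1.1.2.2.1.2.2 (by decide +kernel)) TOK.nil (p46 h).2.1.1.2.2.2.1.1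 (by decide +kernel)) (ndF TOK.nil TOK.nil (p46 h).2.1.1.2.2.2.2.1 (by decide +kernel)) (p46 h).2.1.1.2.2.2.1.2 (by decide +kernel)) (ndF (ndF TOK.nil TOK.nil (p46 h).2.1.2.1.1.1.1 (by decide +kernel)) (ndF TOK.nil TOK.nil (p46 h).2.1.2.1.1.1.2.2 (by decide +kernel)) (p46 h).2.1.2.1.1.1.2.1 (by decide +kernel)) (p46 h).2.1.1.2.2.2.2.2 (by decide +kernel)) (ndF (ndF (ndF TOK.nil TOK.nil (p46 h).2.1.2.1.1.2.2.1 (by decide +kernel)) (ndF TOK.nil TOK.nil (p46 h).2.1.2.1.2.1.1 (by decide +kernel)) (p46 h).2.1.2.1.1.2.2.2 (by decide +kernel)) (ndF (ndF TOK.nil TOK.nil (p46 h).2.1.2.1.2.1.2.2 (by decide +kernel)) (ndF TOK.nil TOK.nil (p46 h).2.1.2.1.2.2.1.2 (by decide +kernel)) (p46 h).2.1.2.1.2.2.1.1 (by decide +kernel)) (p46 h).2.1.2.1.2.1.2.1 (by decide +kernel)) (p46 h).2.1.2.1.1.2.1 (by decide +kernel)) (ndF (ndF (ndF (ndF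 (ndF TOK.nil TOK.nil (p46 h).2.1.2.1.2.2.2.2 (by decide +kernel)) TOK.nil (p46 h).2.1.2.2.1.1.1 (by decide +kernel)) (ndF TOK.nil TOK.nil (p46 h).2.1.2.2.1.1.2.2 (by decide +kernel)) (p46 h).2.1.2.2.1.1.2.1 (by decide +kernel)) (ndF (ndF TOK.nil TOK.nil (p46 h).2.1.2.2.1.2.2.1 (by decide +kernel)) (ndF TOK.nil TOK.nil (p46 h).2.1.2.2.2.1.1 (by decide +kernel)) (p46 h).2.1.2.2.1.2.2.2 (by decide +kernel)) (p46 h).2.1.2.2.1.2.1 (by decide +kernel)) (ndF (ndF (ndF TOK.nil TOK.nil (p46 h).2.1.2.2.2.1.2.2 (by decide +kernel)) (ndF TOK.nil TOK.nil (p46 h).2.1.2.2.2.2.1.2 (by decide +kernel)) (p46 h).2.1.2.2.2.2.1.1 (by decide +kernel)) (ndF (ndF TOK.nil TOK.nil (p46 h).2.1.2.2.2.2.2.2 (by decide +kernel)) (ndF TOK.nil TOK.nil (p46 h).2.2.1.1.1.1.2.1 (by decide +kernel)) (p46 h).2.2.1.1.1.1.1 (by decide +kernel)) (p46 h).2.1.2.2.2.2.2.1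 (by decide +kernel)) (p46 h).2.1.2.2.2.1.2.1 (by decide +kernel)) (p46 h).2.1.2.1.2.2.2.1 (by decide +kernel)) (ndF (ndF (ndF (ndF (ndF (ndF TOK.nil TOK.nil (p46 h).2.2.1.1.1.2.1 (by decide +kernel)) TOK.nil (p46 h).2.2.1.1.1.2.2.1 (by decide +kernel)) (ndF TOK.nil TOK.nil (p46 h).2.2.1.1.2.1.1 (by decide +kernel)) (p46 h).2.2.1.1.1.2.2.2 (by decide +kernel)) (ndF (ndF TOK.nil TOK.nil (p46 h).2.2.1.1.2.1.2.2 (by decide +kernel)) (ndF TOK.nil TOK.nil (p46 h).2.2.1.1.2.2.1.2 (by decide +kernel)) (p46 h).2.2.1.1.2.2.1.1 (by decide +kernel)) (p46 h).2.2.1.1.2.1.2.1 (by decide +kernel)) (ndF (ndF (ndF TOK.nil TOK.nil (p46 h).2.2.1.1.2.2.2.2 (by decide +kernel)) (ndF TOK.nil TOK.nil (p46 h).2.2.1.2.1.1.2.1 (by decide +kernel)) (p46 h).2.2.1.2.1.1.1 (by decide +kernel)) (ndF (ndF TOK.nil TOK.nil (p46 h).2.2.1.2.1.2.1 (by decide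 +kernel)) (ndF TOK.nil TOK.nil (p46 h).2.2.1.2.1.2.2.2 (by decide +kernel)) (p46 h).2.2.1.2.1.2.2.1 (by decide +kernel)) (p46 h).2.2.1.2.1.1.2.2 (by decide +kernel)) (p46 h).2.2.1.1.2.2.2.1 (by decide +kernel)) (ndF (ndF (ndF (ndF (ndF TOK.nil TOK.nil (p46 h).2.2.1.2.2.1.2.1 (by decide +kernel)) TOK.nil (p46 h).2.2.1.2.2.1.2.2 (by decide +kernel)) (ndF TOK.nil TOK.nil (p46 h).2.2.1.2.2.2.1.2 (by decide +kernel)) (p46 h).2.2.1.2.2.2.1.1 (by decide +kernel)) (ndF (ndF TOK.nil TOK.nil (p46 h).2.2.1.2.2.2.2.2 (by decide +kernel)) (ndF TOK.nil TOK.nil (p46 h).2.2.2.1.1.1.2.1 (by decide +kernel)) (p46 h).2.2.2.1.1.1.1 (by decide +kernel)) (p46 h).2.2.1.2.2.2.2.1 (by decide +kernel)) (ndF (ndF (ndF TOK.nil TOK.nil (p46 h).2.2.2.1.1.2.1 (by decide +kernel)) (ndF TOK.nil TOK.nil (p46 h).2.2.2.1.1.2.2.2 (by decide +kernel)) (p46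 h).2.2.2.1.1.2.2.1 (by decide +kernel)) (ndF (ndF TOK.nil TOK.nil (p46 h).2.2.2.1.2.1.2.1 (by decide +kernel)) (ndF TOK.nil TOK.nil (p46 h).2.2.2.1.2.2.1.1 (by decide +kernel)) (p46 h).2.2.2.1.2.1.2.2 (by decide +kernel)) (p46 h).2.2.2.1.2.1.1 (by decide +kernel)) (p46 h).2.2.2.1.1.1.2.2 (by decide +kernel)) (p46 h).2.2.1.2.2.1.1 (by decide +kernel)) (p46 h).2.2.1.1.1.1.2.2 (by decide +kernel)) (p46 h).2.1.1.2.2.1.2.1 (by decide +kernel))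

theorem R_60_80_140_ok (h : RcOK RE.rowE) : R_60_80_140.OK :=
  okF (by decide +kernel) (ndF (ndF (ndF (ndF (ndF (ndF (ndF TOK.nil TOK.nil (p46 h).2.2.2.1.2.2.1.2 (by decide +kernel)) TOK.nil (p46 h).2.2.2.1.2.2.2.1 (by decide +kernel)) (ndF (ndF TOK.nil TOK.nil (p46 h).2.2.2.2.1.1.1 (by decide +kernel)) TOK.nil (p46 h).2.2.2.2.1.1.2.1 (by decide +kernel)) (p46 h).2.2.2.1.2.2.2.2 (by decide +kernel)) (ndF (ndF (ndF TOK.nil TOK.nil (p46 h).2.2.2.2.1.2.1 (by decide +kernel)) TOK.nil (p46 h).2.2.2.2.1.2.2.1 (by decide +kernel)) (ndF (ndF TOK.nil TOK.nil (p46 h).2.2.2.2.2.1.1 (by decide +kernel)) TOK.nil (p46 h).2.2.2.2.2.1.2.1 (by decide +kernel)) (p46 h).2.2.2.2.1.2.2.2 (by decide +kernel)) (p46 h).2.2.2.2.1.1.2.2 (by decide +kernel)) (ndF (ndF (ndF (ndF TOK.nil TOK.nil (p46 h).2.2.2.2.2.2.1.1 (by decide +kernel)) TOK.nil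 (p46 h).2.2.2.2.2.2.1.2 (by decide +kernel)) (ndF (ndF TOK.nil TOK.nil (p46 h).2.2.2.2.2.2.2.2 (by decide +kernel)) TOK.nil (p47 h).1.1.1.1.1 (by decide +kernel)) (p46 h).2.2.2.2.2.2.2.1 (by decide +kernel)) (ndF (ndF (ndF TOK.nil TOK.nil (p47 h).1.1.1.1.2.2 (by decide +kernel)) TOK.nil (p47 h).1.1.1.2.1.1 (by decide +kernel)) (ndF TOK.nil TOK.nil (p47 h).1.1.1.2.2.1 (by decide +kernel)) (p47 h).1.1.1.2.1.2 (by decide +kernel)) (p47 h).1.1.1.1.2.1 (by decide +kernel)) (p46 h).2.2.2.2.2.1.2.2 (by decide +kernel)) (ndF (ndF (ndF (ndF (ndF TOK.nil TOK.nil (p47 h).1.1.2.1.1 (by decide +kernel)) TOK.nil (p47 h).1.1.2.1.2.1 (by decide +kernel)) (ndF (ndF TOK.nil TOK.nil (p47 h).1.1.2.2.1.1 (by decide +kernel)) TOK.nil (p47 h).1.1.2.2.1.2 (by decide +kernel)) (p47 h).1.1.2.1.2.2 (by decide +kernel)) (ndF (ndF (ndF TOK.nil TOK.nil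 (p47 h).1.1.2.2.2.2 (by decide +kernel)) TOK.nil (p47 h).1.2.1.1.1 (by decide +kernel)) (ndF (ndF TOK.nil TOK.nil (p47 h).1.2.1.1.2.2 (by decide +kernel)) TOK.nil (p47 h).1.2.1.2.1.1 (by decide +kernel)) (p47 h).1.2.1.1.2.1 (by decide +kernel)) (p47 h).1.1.2.2.2.1 (by decide +kernel)) (ndF (ndF (ndF (ndF TOK.nil TOK.nil (p47 h).1.2.1.2.2.1 (by decide +kernel)) TOK.nil (p47 h).1.2.1.2.2.2 (by decide +kernel)) (ndF (ndF TOK.nil TOK.nil (p47 h).1.2.2.1.2.1 (by decide +kernel)) TOK.nil (p47 h).1.2.2.1.2.2 (by decide +kernel)) (p47 h).1.2.2.1.1 (by decide +kernel)) (ndF (ndF (ndF TOK.nil TOK.nil (p47 h).1.2.2.2.1.2 (by decide +kernel)) TOK.nil (p47 h).1.2.2.2.2.1 (by decide +kernel)) (ndF TOK.nil TOK.nil (p47 h).2.1.1.1.1 (by decide +kernel)) (p47 h).1.2.2.2.2.2 (by decide +kernel)) (p47 h).1.2.2.2.1.1 (by decide +kernel))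 (p47 h).1.2.1.2.1.2 (by decide +kernel)) (p47 h).1.1.1.2.2.2 (by decide +kernel)) (ndF (ndF (ndF (ndF (ndF (ndF TOK.nil TOK.nil (p47 h).2.1.1.1.2.2 (by decide +kernel)) TOK.nil (p47 h).2.1.1.2.1.1 (by decide +kernel)) (ndF (ndF TOK.nil TOK.nil (p47 h).2.1.1.2.2.1 (by decide +kernel)) TOK.nil (p47 h).2.1.1.2.2.2 (by decide +kernel)) (p47 h).2.1.1.2.1.2 (by decide +kernel)) (ndF (ndF (ndF TOK.nil TOK.nil (p47 h).2.1.2.1.2.1 (by decide +kernel)) TOK.nil (p47 h).2.1.2.1.2.2 (by decide +kernel)) (ndF (ndF TOK.nil TOK.nil (p47 h).2.1.2.2.1.2 (by decide +kernel)) TOK.nil (p47 h).2.1.2.2.2.1 (by decide +kernel)) (p47 h).2.1.2.2.1.1 (by decide +kernel)) (p47 h).2.1.2.1.1 (by decide +kernel)) (ndF (ndF (ndF (ndF TOK.nil TOK.nil (p47 h).2.2.1.1.1 (by decide +kernel)) TOK.nil (p47 h).2.2.1.1.2.1 (by decide +kernel)) (ndF (ndF TOK.nil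 TOK.nil (p47 h).2.2.1.2.1.1 (by decide +kernel)) TOK.nil (p47 h).2.2.1.2.1.2 (by decide +kernel)) (p47 h).2.2.1.1.2.2 (by decide +kernel)) (ndF (ndF (ndF TOK.nil TOK.nil (p47 h).2.2.1.2.2.2 (by decide +kernel)) TOK.nil (p47 h).2.2.2.1.1 (by decide +kernel)) (ndF TOK.nil TOK.nil (p47 h).2.2.2.1.2.2 (by decide +kernel)) (p47 h).2.2.2.1.2.1 (by decide +kernel)) (p47 h).2.2.1.2.2.1 (by decide +kernel)) (p47 h).2.1.2.2.2.2 (by decide +kernel)) (ndF (ndF (ndF (ndF (ndF TOK.nil TOK.nil (p47 h).2.2.2.2.1.2 (by decide +kernel)) TOK.nil (p47 h).2.2.2.2.2.1 (by decide +kernel)) (ndF (ndF TOK.nil TOK.nil (p48 h).1.1.1.1.1.1.1.1 (by decide +kernel)) TOK.nil (p48 h).1.1.1.1.1.1.1.2.1 (by decide +kernel)) (p47 h).2.2.2.2.2.2 (by decide +kernel)) (ndF (ndF (ndF TOK.nil TOK.nil (p48 h).1.1.1.1.1.1.2.1 (by decide +kernel)) TOK.nil (p48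 h).1.1.1.1.1.1.2.2.1 (by decide +kernel)) (ndF TOK.nil TOK.nil (p48 h).1.1.1.1.1.2.1.1 (by decide +kernel)) (p48 h).1.1.1.1.1.1.2.2.2 (by decide +kernel)) (p48 h).1.1.1.1.1.1.1.2.2 (by decide +kernel)) (ndF (ndF (ndF (ndF TOK.nil TOK.nil (p48 h).1.1.1.1.1.2.1.2.2 (by decide +kernel)) TOK.nil (p48 h).1.1.1.1.1.2.2.1.1 (by decide +kernel)) (ndF (ndF TOK.nil TOK.nil (p48 h).1.1.1.1.1.2.2.2.1 (by decide +kernel)) TOK.nil (p48 h).1.1.1.1.1.2.2.2.2 (by decide +kernel)) (p48 h).1.1.1.1.1.2.2.1.2 (by decide +kernel)) (ndF (ndF (ndF TOK.nil TOK.nil (p48 h).1.1.1.1.2.1.1.2.1 (by decide +kernel)) TOK.nil (p48 h).1.1.1.1.2.1.1.2.2 (by decide +kernel)) (ndF TOK.nil TOK.nil (p48 h).1.1.1.1.2.1.2.2.1 (by decide +kernel)) (p48 h).1.1.1.1.2.1.2.1 (by decide +kernel)) (p48 h).1.1.1.1.2.1.1.1 (by decide +kernel)) (p48 h).1.1.1.1.1.2.1.2.1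 (by decide +kernel)) (p47 h).2.2.2.2.1.1 (by decide +kernel)) (p47 h).2.1.1.1.2.1 (by decide +kernel))


end TB
end Pool.Agent.Lib.MP_6947cd_al
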