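import Pool.Agent.Lib.MP_6947cd_al.TB.P53
import Pool.Agent.Lib.MP_6947cd_al.TB.P54
import Pool.Agent.Lib.MP_6947cd_al.TB.P55
import Pool.Agent.Lib.MP_6947cd_al.TB.P56
import Pool.Agent.Lib.MP_6947cd_al.TB.P57
import Pool.Agent.Lib.MP_6947cd_al.TB.P58
import Pool.Agent.Lib.MP_6947cd_al.TB.P59
import Pool.Agent.Lib.MP_6947cd_al.TB.P60
import Pool.Agent.Lib.MP_6947cd_al.TB.P61
import Pool.Agent.Lib.MP_6947cd_al.TB.P62

/-!
Problem MP_6947cd_al (Chollet).  THE FAMILIES OF TABLES ARE CORRECT, part 17.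
-/

set_option autoImplicit false
set_option maxHeartbeats 0
set_option maxRecDepth 100000
set_option linter.all false

namespace Pool.Agent.Lib.MP_6947cd_al
namespace TB

open Ent Ent.Pk Fr Fr.WT B1 PkA PkA.TF

theorem R_100_120_160_ok (h : RcOK RE.rowE) : R_100_120_160.OK :=
  okF (by decide +kernel) (ndF (ndF (ndF (ndF (ndF (ndF (ndF TOK.nil TOK.nil (p53 h).1.1.1.2.1.2.2 (by decide +kernel)) (ndF TOK.nil TOK.nil (p53 h).1.1.1.2.2.1.2 (by decide +kernel)) (p53 h).1.1.1.2.2.1.1 (by decide +kernel)) (ndF (ndF TOK.nil TOK.nil (p53 h).1.1.1.2.2.2.2 (by decide +kernel)) TOK.nil (p53 h).1.1.2.1.1.1 (by decide +kernel)) (p53 h).1.1.1.2.2.2.1 (by decide +kernel)) (ndF (ndF (ndF TOK.nil TOK.nil (p53 h).1.1.2.1.1.2.2 (by decide +kernel)) TOK.nil (p53 h).1.1.2.1.2.1.1 (by decide +kernel)) (ndF (ndF TOK.nil TOK.nil (p53 h).1.1.2.1.2.2.1 (by decide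 +kernel)) TOK.nil (p53 h).1.1.2.1.2.2.2 (by decide +kernel)) (p53 h).1.1.2.1.2.1.2 (by decide +kernel)) (p53 h).1.1.2.1.1.2.1 (by decide +kernel)) (ndF (ndF (ndF (ndF TOK.nil TOK.nil (p53 h).1.1.2.2.1.2.1 (by decide +kernel)) (ndF TOK.nil TOK.nil (p53 h).1.1.2.2.2.1.1 (by decide +kernel)) (p53 h).1.1.2.2.1.2.2 (by decide +kernel)) (ndF (ndF TOK.nil TOK.nil (p53 h).1.1.2.2.2.2.1 (by decide +kernel)) TOK.nil (p53 h).1.1.2.2.2.2.2 (by decide +kernel)) (p53 h).1.1.2.2.2.1.2 (by decide +kernel)) (ndF (ndF (ndF TOK.nil TOK.nil (p53 h).1.2.1.1.1.2.1 (by decide +kernel)) TOK.nil (p53 h).1.2.1.1.1.2.2 (by decide +kernel)) (ndF (ndF TOK.nil TOK.nil (p53 h).1.2.1.1.2.1.2 (by decide +kernel)) TOK.nil (p53 h).1.2.1.1.2.2.1 (by decide +kernel)) (p53 h).1.2.1.1.2.1.1 (by decide +kernel)) (p53 h).1.2.1.1.1.1 (by decide +kernel)) (p53 h).1.1.2.2.1.1 (by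 decide +kernel)) (ndF (ndF (ndF (ndF (ndF TOK.nil TOK.nil (p53 h).1.2.1.2.1.1 (by decide +kernel)) (ndF TOK.nil TOK.nil (p53 h).1.2.1.2.1.2.2 (by decide +kernel)) (p53 h).1.2.1.2.1.2.1 (by decide +kernel)) (ndF (ndF TOK.nil TOK.nil (p53 h).1.2.1.2.2.1.2 (by decide +kernel)) TOK.nil (p53 h).1.2.1.2.2.2.1 (by decide +kernel)) (p53 h).1.2.1.2.2.1.1 (by decide +kernel)) (ndF (ndF (ndF TOK.nil TOK.nil (p53 h).1.2.2.1.1.1 (by decide +kernel)) TOK.nil (p53 h).1.2.2.1.1.2.1 (by decide +kernel)) (ndF (ndF TOK.nil TOK.nil (p53 h).1.2.2.1.2.1.1 (by decide +kernel)) TOK.nil (p53 h).1.2.2.1.2.1.2 (by decide +kernel)) (p53 h).1.2.2.1.1.2.2 (by decide +kernel)) (p53 h).1.2.1.2.2.2.2 (by decide +kernel)) (ndF (ndF (ndF (ndF TOK.nil TOK.nil (p53 h).1.2.2.1.2.2.2 (by decide +kernel)) TOK.nil (p53 h).1.2.2.2.1.1.1 (by decide +kernel)) (ndF (ndF TOK.nil TOK.nil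 (p53 h).1.2.2.2.1.2.1 (by decide +kernel)) TOK.nil (p53 h).1.2.2.2.1.2.2 (by decide +kernel)) (p53 h).1.2.2.2.1.1.2 (by decide +kernel)) (ndF (ndF (ndF TOK.nil TOK.nil (p53 h).1.2.2.2.2.1.2 (by decide +kernel)) TOK.nil (p53 h).1.2.2.2.2.2.1 (by decide +kernel)) (ndF (ndF TOK.nil TOK.nil (p53 h).2.1.1.1.1.1 (by decide +kernel)) TOK.nil (p53 h).2.1.1.1.1.2.1 (by decide +kernel)) (p53 h).1.2.2.2.2.2.2 (by decide +kernel)) (p53 h).1.2.2.2.2.1.1 (by decide +kernel)) (p53 h).1.2.2.1.2.2.1 (by decide +kernel)) (p53 h).1.2.1.1.2.2.2 (by decide +kernel)) (ndF (ndF (ndF (ndF (ndF (ndF TOK.nil TOK.nil (p53 h).2.1.1.1.2.1.1 (by decide +kernel)) (ndF TOK.nil TOK.nil (p53 h).2.1.1.1.2.2.1 (by decide +kernel)) (p53 h).2.1.1.1.2.1.2 (by decide +kernel)) (ndF (ndF TOK.nil TOK.nil (p53 h).2.1.1.2.1.1 (by decide +kernel)) TOK.nil (p53 h).2.1.1.2.1.2.1 (by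 decide +kernel)) (p53 h).2.1.1.1.2.2.2 (by decide +kernel)) (ndF (ndF (ndF TOK.nil TOK.nil (p53 h).2.1.1.2.2.1.1 (by decide +kernel)) TOK.nil (p53 h).2.1.1.2.2.1.2 (by decide +kernel)) (ndF (ndF TOK.nil TOK.nil (p53 h).2.1.1.2.2.2.2 (by decide +kernel)) TOK.nil (p53 h).2.1.2.1.1.1 (by decide +kernel)) (p53 h).2.1.1.2.2.2.1 (by decide +kernel)) (p53 h).2.1.1.2.1.2.2 (by decide +kernel)) (ndF (ndF (ndF (ndF TOK.nil TOK.nil (p53 h).2.1.2.1.1.2.2 (by decide +kernel)) TOK.nil (p53 h).2.1.2.1.2.1.1 (by decide +kernel)) (ndF (ndF TOK.nil TOK.nil (p53 h).2.1.2.1.2.2.1 (by decide +kernel)) TOK.nil (p53 h).2.1.2.1.2.2.2 (by decide +kernel)) (p53 h).2.1.2.1.2.1.2 (by decide +kernel)) (ndF (ndF (ndF TOK.nil TOK.nil (p53 h).2.1.2.2.1.1.2 (by decide +kernel)) TOK.nil (p53 h).2.1.2.2.1.2.1 (by decide +kernel)) (ndF (ndF TOK.nil TOK.nil (p53 h).2.1.2.2.2.1.1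 (by decide +kernel)) TOK.nil (p53 h).2.1.2.2.2.1.2 (by decide +kernel)) (p53 h).2.1.2.2.1.2.2 (by decide +kernel)) (p53 h).2.1.2.2.1.1.1 (by decide +kernel)) (p53 h).2.1.2.1.1.2.1 (by decide +kernel)) (ndF (ndF (ndF (ndF (ndF TOK.nil TOK.nil (p53 h).2.1.2.2.2.2.2 (by decide +kernel)) (ndF TOK.nil TOK.nil (p53 h).2.2.1.1.1.2.1 (by decide +kernel)) (p53 h).2.2.1.1.1.1 (by decide +kernel)) (ndF (ndF TOK.nil TOK.nil (p53 h).2.2.1.1.2.1.1 (by decide +kernel)) TOK.nil (p53 h).2.2.1.1.2.1.2 (by decide +kernel)) (p53 h).2.2.1.1.1.2.2 (by decide +kernel)) (ndF (ndF (ndF TOK.nil TOK.nil (p53 h).2.2.1.1.2.2.2 (by decide +kernel)) TOK.nil (p53 h).2.2.1.2.1.1 (by decide +kernel)) (ndF (ndF TOK.nil TOK.nil (p53 h).2.2.1.2.1.2.2 (by decide +kernel)) TOK.nil (p53 h).2.2.1.2.2.1.1 (by decide +kernel)) (p53 h).2.2.1.2.1.2.1 (by decide +kernel)) (p53 h).2.2.1.1.2.2.1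 (by decide +kernel)) (ndF (ndF (ndF (ndF TOK.nil TOK.nil (p53 h).2.2.1.2.2.2.1 (by decide +kernel)) TOK.nil (p53 h).2.2.1.2.2.2.2 (by decide +kernel)) (ndF (ndF TOK.nil TOK.nil (p53 h).2.2.2.1.1.2.1 (by decide +kernel)) TOK.nil (p53 h).2.2.2.1.1.2.2 (by decide +kernel)) (p53 h).2.2.2.1.1.1 (by decide +kernel)) (ndF (ndF (ndF TOK.nil TOK.nil (p53 h).2.2.2.1.2.1.2 (by decide +kernel)) TOK.nil (p53 h).2.2.2.1.2.2.1 (by decide +kernel)) (ndF (ndF TOK.nil TOK.nil (p53 h).2.2.2.2.1.1.1 (by decide +kernel)) TOK.nil (p53 h).2.2.2.2.1.1.2 (by decide +kernel)) (p53 h).2.2.2.1.2.2.2 (by decide +kernel)) (p53 h).2.2.2.1.2.1.1 (by decide +kernel)) (p53 h).2.2.1.2.2.1.2 (by decide +kernel)) (p53 h).2.1.2.2.2.2.1 (by decide +kernel)) (p53 h).2.1.1.1.1.2.2 (by decide +kernel))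

theorem R_20_60_120_ok (h : RcOK RE.rowE) : R_20_60_120.OK :=
  okF (by decide +kernel) (ndF (ndF (ndF (ndF (ndF (ndF (ndF TOK.nil TOK.nil (p53 h).2.2.2.2.1.2.1 (by decide +kernel)) TOK.nil (p53 h).2.2.2.2.1.2.2 (by decide +kernel)) (ndF TOK.nil TOK.nil (p53 h).2.2.2.2.2.1.2 (by decide +kernel)) (p53 h).2.2.2.2.2.1.1 (by decide +kernel)) (ndF (ndF TOK.nil TOK.nil (p53 h).2.2.2.2.2.2.2 (by decide +kernel)) (ndF TOK.nil TOK.nil (p54 h).1.1.1.1.2.1 (by decide +kernel)) (p54 h).1.1.1.1.1 (by decide +kernel)) (p53 h).2.2.2.2.2.2.1 (by decide +kernel)) (ndF (ndF (ndF TOK.nil TOK.nil (p54 h).1.1.1.2.1 (by decide +kernel)) (ndF TOK.nil TOK.nil (p54 h).1.1.1.2.2.2 (by decide +kernel)) (p54 h).1.1.1.2.2.1 (by decide +kernel)) (ndF (ndF TOK.nil TOK.nil (p54 h).1.1.2.1.2.1 (by decide +kernel)) (ndF TOK.nil TOK.nil (p54 h).1.1.2.2.1 (by decide +kernel))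 (p54 h).1.1.2.1.2.2 (by decide +kernel)) (p54 h).1.1.2.1.1 (by decide +kernel)) (p54 h).1.1.1.1.2.2 (by decide +kernel)) (ndF (ndF (ndF (ndF (ndF TOK.nil TOK.nil (p54 h).1.1.2.2.2.2 (by decide +kernel)) TOK.nil (p54 h).1.2.1.1.1 (by decide +kernel)) (ndF TOK.nil TOK.nil (p54 h).1.2.1.1.2.2 (by decide +kernel)) (p54 h).1.2.1.1.2.1 (by decide +kernel)) (ndF (ndF TOK.nil TOK.nil (p54 h).1.2.1.2.2.1 (by decide +kernel)) (ndF TOK.nil TOK.nil (p54 h).1.2.2.1.1 (by decide +kernel)) (p54 h).1.2.1.2.2.2 (by decide +kernel)) (p54 h).1.2.1.2.1 (by decide +kernel)) (ndF (ndF (ndF TOK.nil TOK.nil (p54 h).1.2.2.1.2.2 (by decide +kernel)) (ndF TOK.nil TOK.nil (p54 h).1.2.2.2.2.1 (by decide +kernel)) (p54 h).1.2.2.2.1 (by decide +kernel)) (ndF (ndF TOK.nil TOK.nil (p54 h).2.1.1.1.1 (by decide +kernel)) (ndF TOK.nil TOK.nil (p54 h).2.1.1.1.2.2 (by decide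 +kernel)) (p54 h).2.1.1.1.2.1 (by decide +kernel)) (p54 h).1.2.2.2.2.2 (by decide +kernel)) (p54 h).1.2.2.1.2.1 (by decide +kernel)) (p54 h).1.1.2.2.2.1 (by decide +kernel)) (ndF (ndF (ndF (ndF (ndF (ndF TOK.nil TOK.nil (p54 h).2.1.1.2.2.1 (by decide +kernel)) TOK.nil (p54 h).2.1.1.2.2.2 (by decide +kernel)) (ndF TOK.nil TOK.nil (p54 h).2.1.2.1.2.1 (by decide +kernel)) (p54 h).2.1.2.1.1 (by decide +kernel)) (ndF (ndF TOK.nil TOK.nil (p54 h).2.1.2.2.1 (by decide +kernel)) (ndF TOK.nil TOK.nil (p54 h).2.1.2.2.2.2 (by decide +kernel)) (p54 h).2.1.2.2.2.1 (by decide +kernel)) (p54 h).2.1.2.1.2.2 (by decide +kernel)) (ndF (ndF (ndF TOK.nil TOK.nil (p54 h).2.2.1.1.2.1 (by decide +kernel)) (ndF TOK.nil TOK.nil (p54 h).2.2.1.2.1 (by decide +kernel)) (p54 h).2.2.1.1.2.2 (by decide +kernel)) (ndF (ndF TOK.nil TOK.nil (p54 h).2.2.1.2.2.2 (by decide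 +kernel)) (ndF TOK.nil TOK.nil (p54 h).2.2.2.1.2.1 (by decide +kernel)) (p54 h).2.2.2.1.1 (by decide +kernel)) (p54 h).2.2.1.2.2.1 (by decide +kernel)) (p54 h).2.2.1.1.1 (by decide +kernel)) (ndF (ndF (ndF (ndF (ndF TOK.nil TOK.nil (p54 h).2.2.2.2.1.1 (by decide +kernel)) TOK.nil (p54 h).2.2.2.2.1.2 (by decide +kernel)) (ndF TOK.nil TOK.nil (p54 h).2.2.2.2.2.2 (by decide +kernel)) (p54 h).2.2.2.2.2.1 (by decide +kernel)) (ndF (ndF TOK.nil TOK.nil (p55 h).1.1.1.1.2.1 (by decide +kernel)) (ndF TOK.nil TOK.nil (p55 h).1.1.1.2.1.1 (by decide +kernel)) (p55 h).1.1.1.1.2.2 (by decide +kernel)) (p55 h).1.1.1.1.1 (by decide +kernel)) (ndF (ndF (ndF TOK.nil TOK.nil (p55 h).1.1.1.2.2.1 (by decide +kernel)) (ndF TOK.nil TOK.nil (p55 h).1.1.2.1.1.1 (by decide +kernel)) (p55 h).1.1.1.2.2.2 (by decide +kernel)) (ndF (ndF TOK.nil TOK.nil (p55 h).1.1.2.1.2.1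 (by decide +kernel)) (ndF TOK.nil TOK.nil (p55 h).1.1.2.2.1.1 (by decide +kernel)) (p55 h).1.1.2.1.2.2 (by decide +kernel)) (p55 h).1.1.2.1.1.2 (by decide +kernel)) (p55 h).1.1.1.2.1.2 (by decide +kernel)) (p54 h).2.2.2.1.2.2 (by decide +kernel)) (p54 h).2.1.1.2.1 (by decide +kernel))

theorem R_20_80_100_ok (h : RcOK RE.rowE) : R_20_80_100.OK :=
  okF (by decide +kernel) (ndF (ndF (ndF (ndF (ndF (ndF (ndF TOK.nil TOK.nil (p55 h).1.1.2.2.1.2 (by decide +kernel)) TOK.nil (p55 h).1.1.2.2.2.1 (by decide +kernel)) (ndF TOK.nil TOK.nil (p55 h).1.2.1.1.1 (by decide +kernel)) (p55 h).1.1.2.2.2.2 (by decide +kernel)) (ndF (ndF TOK.nil TOK.nil (p55 h).1.2.1.1.2.2 (by decide +kernel)) (ndF TOK.nil TOK.nil (p55 h).1.2.1.2.1.2 (by decide +kernel)) (p55 h).1.2.1.2.1.1 (by decide +kernel)) (p55 h).1.2.1.1.2.1 (by decide +kernel)) (ndF (ndF (ndF (ndF TOK.nil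 TOK.nil (p55 h).1.2.1.2.2.2 (by decide +kernel)) TOK.nil (p55 h).1.2.2.1.1.1 (by decide +kernel)) (ndF TOK.nil TOK.nil (p55 h).1.2.2.1.2.1 (by decide +kernel)) (p55 h).1.2.2.1.1.2 (by decide +kernel)) (ndF (ndF TOK.nil TOK.nil (p55 h).1.2.2.2.1.1 (by decide +kernel)) (ndF TOK.nil TOK.nil (p55 h).1.2.2.2.2.1 (by decide +kernel)) (p55 h).1.2.2.2.1.2 (by decide +kernel)) (p55 h).1.2.2.1.2.2 (by decide +kernel)) (p55 h).1.2.1.2.2.1 (by decide +kernel)) (ndF (ndF (ndF (ndF (ndF TOK.nil TOK.nil (p55 h).2.1.1.1.1 (by decide +kernel)) TOK.nil (p55 h).2.1.1.1.2.1 (by decide +kernel)) (ndF TOK.nil TOK.nil (p55 h).2.1.1.2.1.1 (by decide +kernel)) (p55 h).2.1.1.1.2.2 (by decide +kernel)) (ndF (ndF TOK.nil TOK.nil (p55 h).2.1.1.2.2.1 (by decide +kernel)) (ndF TOK.nil TOK.nil (p55 h).2.1.2.1.1.1 (by decide +kernel)) (p55 h).2.1.1.2.2.2 (by decide +kernel))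 (p55 h).2.1.1.2.1.2 (by decide +kernel)) (ndF (ndF (ndF TOK.nil TOK.nil (p55 h).2.1.2.1.2.1 (by decide +kernel)) (ndF TOK.nil TOK.nil (p55 h).2.1.2.2.1.1 (by decide +kernel)) (p55 h).2.1.2.1.2.2 (by decide +kernel)) (ndF (ndF TOK.nil TOK.nil (p55 h).2.1.2.2.2.1 (by decide +kernel)) (ndF TOK.nil TOK.nil (p55 h).2.2.1.1.1.1 (by decide +kernel)) (p55 h).2.1.2.2.2.2 (by decide +kernel)) (p55 h).2.1.2.2.1.2 (by decide +kernel)) (p55 h).2.1.2.1.1.2 (by decide +kernel)) (p55 h).1.2.2.2.2.2 (by decide +kernel)) (ndF (ndF (ndF (ndF (ndF (ndF TOK.nil TOK.nil (p55 h).2.2.1.1.2.1 (by decide +kernel)) TOK.nil (p55 h).2.2.1.1.2.2 (by decide +kernel)) (ndF TOK.nil TOK.nil (p55 h).2.2.1.2.1.2 (by decide +kernel)) (p55 h).2.2.1.2.1.1 (by decide +kernel)) (ndF (ndF TOK.nil TOK.nil (p55 h).2.2.1.2.2.2 (by decide +kernel)) (ndF TOK.nil TOK.nil (p55 h).2.2.2.1.1.2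 (by decide +kernel)) (p55 h).2.2.2.1.1.1 (by decide +kernel)) (p55 h).2.2.1.2.2.1 (by decide +kernel)) (ndF (ndF (ndF (ndF TOK.nil TOK.nil (p55 h).2.2.2.1.2.2 (by decide +kernel)) TOK.nil (p55 h).2.2.2.2.1.1 (by decide +kernel)) (ndF TOK.nil TOK.nil (p55 h).2.2.2.2.2.1 (by decide +kernel)) (p55 h).2.2.2.2.1.2 (by decide +kernel)) (ndF (ndF TOK.nil TOK.nil (p56 h).1.1.1.1.1.1 (by decide +kernel)) (ndF TOK.nil TOK.nil (p56 h).1.1.1.1.2.1 (by decide +kernel)) (p56 h).1.1.1.1.1.2 (by decide +kernel)) (p55 h).2.2.2.2.2.2 (by decide +kernel)) (p55 h).2.2.2.1.2.1 (by decide +kernel)) (ndF (ndF (ndF (ndF (ndF TOK.nil TOK.nil (p56 h).1.1.1.2.1.1 (by decide +kernel)) TOK.nil (p56 h).1.1.1.2.1.2 (by decide +kernel)) (ndF TOK.nil TOK.nil (p56 h).1.1.1.2.2.2.1 (by decide +kernel)) (p56 h).1.1.1.2.2.1 (by decide +kernel)) (ndF (ndF TOK.nil TOK.nil (p56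 h).1.1.2.1.1.1 (by decide +kernel)) (ndF TOK.nil TOK.nil (p56 h).1.1.2.1.2.1 (by decide +kernel)) (p56 h).1.1.2.1.1.2 (by decide +kernel)) (p56 h).1.1.1.2.2.2.2 (by decide +kernel)) (ndF (ndF (ndF TOK.nil TOK.nil (p56 h).1.1.2.1.2.2.2 (by decide +kernel)) (ndF TOK.nil TOK.nil (p56 h).1.1.2.2.1.2 (by decide +kernel)) (p56 h).1.1.2.2.1.1 (by decide +kernel)) (ndF (ndF TOK.nil TOK.nil (p56 h).1.1.2.2.2.2.1 (by decide +kernel)) (ndF TOK.nil TOK.nil (p56 h).1.2.1.1.1.1 (by decide +kernel)) (p56 h).1.1.2.2.2.2.2 (by decide +kernel)) (p56 h).1.1.2.2.2.1 (by decide +kernel)) (p56 h).1.1.2.1.2.2.1 (by decide +kernel)) (p56 h).1.1.1.1.2.2 (by decide +kernel)) (p55 h).2.2.1.1.1.2 (by decide +kernel))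

theorem R_80_140_180_ok (h : RcOK RE.rowE) : R_80_140_180.OK :=
  okF (by decide +kernel) (ndF (ndF (ndF (ndF (ndF (ndF (ndF TOK.nil TOK.nil (p56 h).1.2.1.1.1.2 (by decide +kernel)) TOK.nil (p56 h).1.2.1.1.2.1 (by decide +kernel)) (ndF TOK.nil TOK.nil (p56 h).1.2.1.1.2.2.2 (by decide +kernel)) (p56 h).1.2.1.1.2.2.1 (by decide +kernel)) (ndF (ndF (ndF TOK.nil TOK.nil (p56 h).1.2.1.2.1.2 (by decide +kernel)) TOK.nil (p56 h).1.2.1.2.2.1 (by decide +kernel)) (ndF TOK.nil TOK.nil (p56 h).1.2.1.2.2.2.2 (by decide +kernel)) (p56 h).1.2.1.2.2.2.1 (by decide +kernel)) (p56 h).1.2.1.2.1.1 (by decide +kernel)) (ndF (ndF (ndF (ndF TOK.nil TOK.nil (p56 h).1.2.2.1.1.2 (by decide +kernel)) TOK.nil (p56 h).1.2.2.1.2.1 (by decide +kernel)) (ndF TOK.nil TOK.nil (p56 h).1.2.2.1.2.2.2 (by decide +kernel)) (p56 h).1.2.2.1.2.2.1 (by decide +kernel)) (ndF (ndF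 TOK.nil TOK.nil (p56 h).1.2.2.2.1.2 (by decide +kernel)) (ndF TOK.nil TOK.nil (p56 h).1.2.2.2.2.2.1 (by decide +kernel)) (p56 h).1.2.2.2.2.1 (by decide +kernel)) (p56 h).1.2.2.2.1.1 (by decide +kernel)) (p56 h).1.2.2.1.1.1 (by decide +kernel)) (ndF (ndF (ndF (ndF (ndF TOK.nil TOK.nil (p56 h).2.1.1.1.1.1 (by decide +kernel)) TOK.nil (p56 h).2.1.1.1.1.2 (by decide +kernel)) (ndF TOK.nil TOK.nil (p56 h).2.1.1.1.2.2 (by decide +kernel)) (p56 h).2.1.1.1.2.1 (by decide +kernel)) (ndF (ndF (ndF TOK.nil TOK.nil (p56 h).2.1.1.2.1.2 (by decide +kernel)) TOK.nil (p56 h).2.1.1.2.2.1 (by decide +kernel)) (ndF TOK.nil TOK.nil (p56 h).2.1.1.2.2.2.2 (by decide +kernel)) (p56 h).2.1.1.2.2.2.1 (by decide +kernel)) (p56 h).2.1.1.2.1.1 (by decide +kernel)) (ndF (ndF (ndF (ndF TOK.nil TOK.nil (p56 h).2.1.2.1.1.2 (by decide +kernel)) TOK.nil (p56 h).2.1.2.1.2.1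 (by decide +kernel)) (ndF TOK.nil TOK.nil (p56 h).2.1.2.1.2.2.2 (by decide +kernel)) (p56 h).2.1.2.1.2.2.1 (by decide +kernel)) (ndF (ndF TOK.nil TOK.nil (p56 h).2.1.2.2.1.2 (by decide +kernel)) (ndF TOK.nil TOK.nil (p56 h).2.1.2.2.2.2.1 (by decide +kernel)) (p56 h).2.1.2.2.2.1 (by decide +kernel)) (p56 h).2.1.2.2.1.1 (by decide +kernel)) (p56 h).2.1.2.1.1.1 (by decide +kernel)) (p56 h).1.2.2.2.2.2.2 (by decide +kernel)) (ndF (ndF (ndF (ndF (ndF (ndF TOK.nil TOK.nil (p56 h).2.2.1.1.1.1 (by decide +kernel)) TOK.nil (p56 h).2.2.1.1.1.2 (by decide +kernel)) (ndF TOK.nil TOK.nil (p56 h).2.2.1.1.2.2.1 (by decide +kernel)) (p56 h).2.2.1.1.2.1 (by decide +kernel)) (ndF (ndF (ndF TOK.nil TOK.nil (p56 h).2.2.1.2.1.1 (by decide +kernel)) TOK.nil (p56 h).2.2.1.2.1.2 (by decide +kernel)) (ndF TOK.nil TOK.nil (p56 h).2.2.1.2.2.2.1 (by decide +kernel))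 (p56 h).2.2.1.2.2.1 (by decide +kernel)) (p56 h).2.2.1.1.2.2.2 (by decide +kernel)) (ndF (ndF (ndF (ndF TOK.nil TOK.nil (p56 h).2.2.2.1.1.1 (by decide +kernel)) TOK.nil (p56 h).2.2.2.1.1.2 (by decide +kernel)) (ndF TOK.nil TOK.nil (p56 h).2.2.2.1.2.2.1 (by decide +kernel)) (p56 h).2.2.2.1.2.1 (by decide +kernel)) (ndF (ndF TOK.nil TOK.nil (p56 h).2.2.2.2.1.1 (by decide +kernel)) (ndF TOK.nil TOK.nil (p56 h).2.2.2.2.2.1 (by decide +kernel)) (p56 h).2.2.2.2.1.2 (by decide +kernel)) (p56 h).2.2.2.1.2.2.2 (by decide +kernel)) (p56 h).2.2.1.2.2.2.2 (by decide +kernel)) (ndF (ndF (ndF (ndF (ndF TOK.nil TOK.nil (p56 h).2.2.2.2.2.2.2 (by decide +kernel)) TOK.nil (p57 h).1.1.1.1.1.1 (by decide +kernel)) (ndF TOK.nil TOK.nil (p57 h).1.1.1.1.2.1 (by decide +kernel)) (p57 h).1.1.1.1.1.2 (by decide +kernel)) (ndF (ndF (ndF TOK.nil TOK.nil (p57 h).1.1.1.1.2.2.2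 (by decide +kernel)) TOK.nil (p57 h).1.1.1.2.1.1 (by decide +kernel)) (ndF TOK.nil TOK.nil (p57 h).1.1.1.2.2.1 (by decide +kernel)) (p57 h).1.1.1.2.1.2 (by decide +kernel)) (p57 h).1.1.1.1.2.2.1 (by decide +kernel)) (ndF (ndF (ndF (ndF TOK.nil TOK.nil (p57 h).1.1.1.2.2.2.2 (by decide +kernel)) TOK.nil (p57 h).1.1.2.1.1.1 (by decide +kernel)) (ndF TOK.nil TOK.nil (p57 h).1.1.2.1.2.1 (by decide +kernel)) (p57 h).1.1.2.1.1.2 (by decide +kernel)) (ndF (ndF TOK.nil TOK.nil (p57 h).1.1.2.1.2.2.2 (by decide +kernel)) (ndF TOK.nil TOK.nil (p57 h).1.1.2.2.1.2 (by decide +kernel)) (p57 h).1.1.2.2.1.1 (by decide +kernel)) (p57 h).1.1.2.1.2.2.1 (by decide +kernel)) (p57 h).1.1.1.2.2.2.1 (by decide +kernel)) (p56 h).2.2.2.2.2.2.1 (by decide +kernel)) (p56 h).2.1.2.2.2.2.2 (by decide +kernel))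

theorem R_20_80_120_ok (h : RcOK RE.rowE) : R_20_80_120.OK :=
  okF (by decide +kernel) (ndF (ndF (ndF (ndF (ndF (ndF (ndF TOK.nil TOK.nil (p57 h).1.1.2.2.2.1 (by decide +kernel)) TOK.nil (p57 h).1.1.2.2.2.2.1 (by decide +kernel)) (ndF TOK.nil TOK.nil (p57 h).1.2.1.1.1.1 (by decide +kernel)) (p57 h).1.1.2.2.2.2.2 (by decide +kernel)) (ndF (ndF (ndF TOK.nil TOK.nil (p57 h).1.2.1.1.2.1 (by decide +kernel)) TOK.nil (p57 h).1.2.1.1.2.2.1 (by decide +kernel)) (ndF TOK.nil TOK.nil (p57 h).1.2.1.2.1.1 (by decide +kernel)) (p57 h).1.2.1.1.2.2.2 (by decide +kernel)) (p57 h).1.2.1.1.1.2 (by decide +kernel)) (ndF (ndF (ndF (ndF TOK.nil TOK.nil (p57 h).1.2.1.2.2.1 (by decide +kernel)) TOK.nil (p57 h).1.2.1.2.2.2.1 (by decide +kernel)) (ndF TOK.nil TOK.nil (p57 h).1.2.2.1.1.1 (by decide +kernel)) (p57 h).1.2.1.2.2.2.2 (by decide +kernel)) (ndF (ndF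 TOK.nil TOK.nil (p57 h).1.2.2.1.2.1 (by decide +kernel)) (ndF TOK.nil TOK.nil (p57 h).1.2.2.1.2.2.2 (by decide +kernel)) (p57 h).1.2.2.1.2.2.1 (by decide +kernel)) (p57 h).1.2.2.1.1.2 (by decide +kernel)) (p57 h).1.2.1.2.1.2 (by decide +kernel)) (ndF (ndF (ndF (ndF (ndF TOK.nil TOK.nil (p57 h).1.2.2.2.1.2 (by decide +kernel)) TOK.nil (p57 h).1.2.2.2.2.1 (by decide +kernel)) (ndF TOK.nil TOK.nil (p57 h).1.2.2.2.2.2.2 (by decide +kernel)) (p57 h).1.2.2.2.2.2.1 (by decide +kernel)) (ndF (ndF TOK.nil TOK.nil (p57 h).2.1.1.1.1.2 (by decide +kernel)) (ndF TOK.nil TOK.nil (p57 h).2.1.1.1.2.2.1 (by decide +kernel)) (p57 h).2.1.1.1.2.1 (by decide +kernel)) (p57 h).2.1.1.1.1.1 (by decide +kernel)) (ndF (ndF (ndF (ndF TOK.nil TOK.nil (p57 h).2.1.1.2.1.1 (by decide +kernel)) TOK.nil (p57 h).2.1.1.2.1.2 (by decide +kernel)) (ndF TOK.nil TOK.nil (p57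 h).2.1.1.2.2.2.1 (by decide +kernel)) (p57 h).2.1.1.2.2.1 (by decide +kernel)) (ndF (ndF TOK.nil TOK.nil (p57 h).2.1.2.1.1.1 (by decide +kernel)) (ndF TOK.nil TOK.nil (p57 h).2.1.2.1.2.1 (by decide +kernel)) (p57 h).2.1.2.1.1.2 (by decide +kernel)) (p57 h).2.1.1.2.2.2.2 (by decide +kernel)) (p57 h).2.1.1.1.2.2.2 (by decide +kernel)) (p57 h).1.2.2.2.1.1 (by decide +kernel)) (ndF (ndF (ndF (ndF (ndF (ndF TOK.nil TOK.nil (p57 h).2.1.2.1.2.2.2 (by decide +kernel)) TOK.nil (p57 h).2.1.2.2.1.1 (by decide +kernel)) (ndF TOK.nil TOK.nil (p57 h).2.1.2.2.2.1 (by decide +kernel)) (p57 h).2.1.2.2.1.2 (by decide +kernel)) (ndF (ndF (ndF TOK.nil TOK.nil (p57 h).2.1.2.2.2.2.2 (by decide +kernel)) TOK.nil (p57 h).2.2.1.1.1.1 (by decide +kernel)) (ndF TOK.nil TOK.nil (p57 h).2.2.1.1.2.1 (by decide +kernel)) (p57 h).2.2.1.1.1.2 (by decide +kernel)) (p57 h).2.1.2.2.2.2.1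 (by decide +kernel)) (ndF (ndF (ndF (ndF TOK.nil TOK.nil (p57 h).2.2.1.1.2.2.2 (by decide +kernel)) TOK.nil (p57 h).2.2.1.2.1.1 (by decide +kernel)) (ndF TOK.nil TOK.nil (p57 h).2.2.1.2.2.1 (by decide +kernel)) (p57 h).2.2.1.2.1.2 (by decide +kernel)) (ndF (ndF TOK.nil TOK.nil (p57 h).2.2.1.2.2.2.2 (by decide +kernel)) (ndF TOK.nil TOK.nil (p57 h).2.2.2.1.1.2 (by decide +kernel)) (p57 h).2.2.2.1.1.1 (by decide +kernel)) (p57 h).2.2.1.2.2.2.1 (by decide +kernel)) (p57 h).2.2.1.1.2.2.1 (by decide +kernel)) (ndF (ndF (ndF (ndF (ndF TOK.nil TOK.nil (p57 h).2.2.2.1.2.2.1 (by decide +kernel)) TOK.nil (p57 h).2.2.2.1.2.2.2 (by decide +kernel)) (ndF TOK.nil TOK.nil (p57 h).2.2.2.2.1.2 (by decide +kernel)) (p57 h).2.2.2.2.1.1 (by decide +kernel)) (ndF (ndF TOK.nil TOK.nil (p57 h).2.2.2.2.2.2.1 (by decide +kernel)) (ndF TOK.nil TOK.nil (p58 h).1.1.1.1.1.1.1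 (by decide +kernel)) (p57 h).2.2.2.2.2.2.2 (by decide +kernel)) (p57 h).2.2.2.2.2.1 (by decide +kernel)) (ndF (ndF (ndF (ndF TOK.nil TOK.nil (p58 h).1.1.1.1.1.1.2.2 (by decide +kernel)) TOK.nil (p58 h).1.1.1.1.1.2.1 (by decide +kernel)) (ndF TOK.nil TOK.nil (p58 h).1.1.1.1.1.2.2.2 (by decide +kernel)) (p58 h).1.1.1.1.1.2.2.1 (by decide +kernel)) (ndF (ndF TOK.nil TOK.nil (p58 h).1.1.1.1.2.1.2.1 (by decide +kernel)) (ndF TOK.nil TOK.nil (p58 h).1.1.1.1.2.2.1 (by decide +kernel)) (p58 h).1.1.1.1.2.1.2.2 (by decide +kernel)) (p58 h).1.1.1.1.2.1.1 (by decide +kernel)) (p58 h).1.1.1.1.1.1.2.1 (by decide +kernel)) (p57 h).2.2.2.1.2.1 (by decide +kernel)) (p57 h).2.1.2.1.2.2.1 (by decide +kernel))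

theorem T_160_180_ok (h : RcOK RE.rowE) : T_160_180.OK :=
  okF (by decide +kernel) (ndF (ndF (ndF (ndF (ndF (ndF (ndF TOK.nil TOK.nil (p58 h).1.1.1.1.2.2.2.1 (by decide +kernel)) (ndF TOK.nil TOK.nil (p58 h).1.1.1.2.1.1.1 (by decide +kernel)) (p58 h).1.1.1.1.2.2.2.2 (by decide +kernel)) (ndF (ndF TOK.nil TOK.nil (p58 h).1.1.1.2.1.1.2.2 (by decide +kernel)) TOK.nil (p58 h).1.1.1.2.1.2.1 (by decide +kernel)) (p58 h).1.1.1.2.1.1.2.1 (by decide +kernel)) (ndF (ndF (ndF TOK.nil TOK.nil (p58 h).1.1.1.2.1.2.2.2 (by decide +kernel)) TOK.nil (p58 h).1.1.1.2.2.1.1 (by decide +kernel)) (ndF (ndF TOK.nil TOK.nil (p58 h).1.1.1.2.2.1.2.2 (by decide +kernel)) TOK.nil (p58 h).1.1.1.2.2.2.1 (by decide +kernel)) (p58 h).1.1.1.2.2.1.2.1 (by decide +kernel)) (p58 h).1.1.1.2.1.2.2.1 (by decide +kernel)) (ndF (ndF (ndF (ndF TOK.nil TOK.nil (p58 h).1.1.1.2.2.2.2.2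 (by decide +kernel)) (ndF TOK.nil TOK.nil (p58 h).1.1.2.1.1.1.2.1 (by decide +kernel)) (p58 h).1.1.2.1.1.1.1 (by decide +kernel)) (ndF (ndF TOK.nil TOK.nil (p58 h).1.1.2.1.1.2.1 (by decide +kernel)) TOK.nil (p58 h).1.1.2.1.1.2.2.1 (by decide +kernel)) (p58 h).1.1.2.1.1.1.2.2 (by decide +kernel)) (ndF (ndF (ndF TOK.nil TOK.nil (p58 h).1.1.2.1.2.1.1 (by decide +kernel)) TOK.nil (p58 h).1.1.2.1.2.1.2.1 (by decide +kernel)) (ndF (ndF TOK.nil TOK.nil (p58 h).1.1.2.1.2.2.1 (by decide +kernel)) TOK.nil (p58 h).1.1.2.1.2.2.2.1 (by decide +kernel)) (p58 h).1.1.2.1.2.1.2.2 (by decide +kernel)) (p58 h).1.1.2.1.1.2.2.2 (by decide +kernel)) (p58 h).1.1.1.2.2.2.2.1 (by decide +kernel)) (ndF (ndF (ndF (ndF (ndF TOK.nil TOK.nil (p58 h).1.1.2.2.1.1.1 (by decide +kernel)) (ndF TOK.nil TOK.nil (p58 h).1.1.2.2.1.1.2.2 (by decide +kernel)) (p58 h).1.1.2.2.1.1.2.1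 (by decide +kernel)) (ndF (ndF TOK.nil TOK.nil (p58 h).1.1.2.2.1.2.2.1 (by decide +kernel)) TOK.nil (p58 h).1.1.2.2.1.2.2.2 (by decide +kernel)) (p58 h).1.1.2.2.1.2.1 (by decide +kernel)) (ndF (ndF (ndF TOK.nil TOK.nil (p58 h).1.1.2.2.2.1.2.1 (by decide +kernel)) TOK.nil (p58 h).1.1.2.2.2.1.2.2 (by decide +kernel)) (ndF (ndF TOK.nil TOK.nil (p58 h).1.1.2.2.2.2.1.2 (by decide +kernel)) TOK.nil (p58 h).1.1.2.2.2.2.2.1 (by decide +kernel)) (p58 h).1.1.2.2.2.2.1.1 (by decide +kernel)) (p58 h).1.1.2.2.2.1.1 (by decide +kernel)) (ndF (ndF (ndF (ndF TOK.nil TOK.nil (p58 h).1.2.1.1.1.1.1 (by decide +kernel)) TOK.nil (p58 h).1.2.1.1.1.1.2.1 (by decide +kernel)) (ndF (ndF TOK.nil TOK.nil (p58 h).1.2.1.1.1.2.1 (by decide +kernel)) TOK.nil (p58 h).1.2.1.1.1.2.2.1 (by decide +kernel)) (p58 h).1.2.1.1.1.1.2.2 (by decide +kernel)) (ndF (ndF (ndF TOK.nil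 TOK.nil (p58 h).1.2.1.1.2.1.1 (by decide +kernel)) TOK.nil (p58 h).1.2.1.1.2.1.2.1 (by decide +kernel)) (ndF (ndF TOK.nil TOK.nil (p58 h).1.2.1.1.2.2.1 (by decide +kernel)) TOK.nil (p58 h).1.2.1.1.2.2.2.1 (by decide +kernel)) (p58 h).1.2.1.1.2.1.2.2 (by decide +kernel)) (p58 h).1.2.1.1.1.2.2.2 (by decide +kernel)) (p58 h).1.1.2.2.2.2.2.2 (by decide +kernel)) (p58 h).1.1.2.1.2.2.2.2 (by decide +kernel)) (ndF (ndF (ndF (ndF (ndF (ndF TOK.nil TOK.nil (p58 h).1.2.1.2.1.1.1 (by decide +kernel)) (ndF TOK.nil TOK.nil (p58 h).1.2.1.2.1.1.2.2 (by decide +kernel)) (p58 h).1.2.1.2.1.1.2.1 (by decide +kernel)) (ndF (ndF TOK.nil TOK.nil (p58 h).1.2.1.2.1.2.2.1 (by decide +kernel)) TOK.nil (p58 h).1.2.1.2.1.2.2.2 (by decide +kernel)) (p58 h).1.2.1.2.1.2.1 (by decide +kernel)) (ndF (ndF (ndF TOK.nil TOK.nil (p58 h).1.2.1.2.2.1.2.1 (by decide +kernel))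 TOK.nil (p58 h).1.2.1.2.2.1.2.2 (by decide +kernel)) (ndF (ndF TOK.nil TOK.nil (p58 h).1.2.1.2.2.2.1.2 (by decide +kernel)) TOK.nil (p58 h).1.2.1.2.2.2.2.1 (by decide +kernel)) (p58 h).1.2.1.2.2.2.1.1 (by decide +kernel)) (p58 h).1.2.1.2.2.1.1 (by decide +kernel)) (ndF (ndF (ndF (ndF TOK.nil TOK.nil (p58 h).1.2.2.1.1.1.1 (by decide +kernel)) (ndF TOK.nil TOK.nil (p58 h).1.2.2.1.1.1.2.2 (by decide +kernel)) (p58 h).1.2.2.1.1.1.2.1 (by decide +kernel)) (ndF (ndF TOK.nil TOK.nil (p58 h).1.2.2.1.1.2.2.1 (by decide +kernel)) TOK.nil (p58 h).1.2.2.1.1.2.2.2 (by decide +kernel)) (p58 h).1.2.2.1.1.2.1 (by decide +kernel)) (ndF (ndF (ndF TOK.nil TOK.nil (p58 h).1.2.2.1.2.1.2.1 (by decide +kernel)) TOK.nil (p58 h).1.2.2.1.2.1.2.2 (by decide +kernel)) (ndF (ndF TOK.nil TOK.nil (p58 h).1.2.2.1.2.2.2.1 (by decide +kernel)) TOK.nil (p58 h).1.2.2.1.2.2.2.2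 (by decide +kernel)) (p58 h).1.2.2.1.2.2.1 (by decide +kernel)) (p58 h).1.2.2.1.2.1.1 (by decide +kernel)) (p58 h).1.2.1.2.2.2.2.2 (by decide +kernel)) (ndF (ndF (ndF (ndF (ndF TOK.nil TOK.nil (p58 h).1.2.2.2.1.1.2.1 (by decide +kernel)) (ndF TOK.nil TOK.nil (p58 h).1.2.2.2.1.2.1 (by decide +kernel)) (p58 h).1.2.2.2.1.1.2.2 (by decide +kernel)) (ndF (ndF TOK.nil TOK.nil (p58 h).1.2.2.2.1.2.2.2 (by decide +kernel)) TOK.nil (p58 h).1.2.2.2.2.1.1 (by decide +kernel)) (p58 h).1.2.2.2.1.2.2.1 (by decide +kernel)) (ndF (ndF (ndF TOK.nil TOK.nil (p58 h).1.2.2.2.2.1.2.2 (by decide +kernel)) TOK.nil (p58 h).1.2.2.2.2.2.1.1 (by decide +kernel)) (ndF (ndF TOK.nil TOK.nil (p58 h).1.2.2.2.2.2.2.1 (by decide +kernel)) TOK.nil (p58 h).1.2.2.2.2.2.2.2 (by decide +kernel)) (p58 h).1.2.2.2.2.2.1.2 (by decide +kernel)) (p58 h).1.2.2.2.2.1.2.1 (by decide +kernel))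 (ndF (ndF (ndF (ndF TOK.nil TOK.nil (p58 h).2.1.1.1.1.1.2.1 (by decide +kernel)) TOK.nil (p58 h).2.1.1.1.1.1.2.2 (by decide +kernel)) (ndF (ndF TOK.nil TOK.nil (p58 h).2.1.1.1.1.2.2.1 (by decide +kernel)) TOK.nil (p58 h).2.1.1.1.1.2.2.2 (by decide +kernel)) (p58 h).2.1.1.1.1.2.1 (by decide +kernel)) (ndF (ndF (ndF TOK.nil TOK.nil (p58 h).2.1.1.1.2.1.2.1 (by decide +kernel)) TOK.nil (p58 h).2.1.1.1.2.1.2.2 (by decide +kernel)) (ndF (ndF TOK.nil TOK.nil (p58 h).2.1.1.1.2.2.2.1 (by decide +kernel)) TOK.nil (p58 h).2.1.1.1.2.2.2.2 (by decide +kernel)) (p58 h).2.1.1.1.2.2.1 (by decide +kernel)) (p58 h).2.1.1.1.2.1.1 (by decide +kernel)) (p58 h).2.1.1.1.1.1.1 (by decide +kernel)) (p58 h).1.2.2.2.1.1.1 (by decide +kernel)) (p58 h).1.2.1.1.2.2.2.2 (by decide +kernel))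

theorem R_60_80_100_ok (h : RcOK RE.rowE) : R_60_80_100.OK :=
  okF (by decide +kernel) (ndF (ndF (ndF (ndF (ndF (ndF (ndF TOK.nil TOK.nil (p58 h).2.1.1.2.1.1.1 (by decide +kernel)) TOK.nil (p58 h).2.1.1.2.1.1.2.1 (by decide +kernel)) (ndF (ndF TOK.nil TOK.nil (p58 h).2.1.1.2.1.2.1 (by decide +kernel)) TOK.nil (p58 h).2.1.1.2.1.2.2.1 (by decide +kernel)) (p58 h).2.1.1.2.1.1.2.2 (by decide +kernel)) (ndF (ndF (ndF TOK.nil TOK.nil (p58 h).2.1.1.2.2.1.1 (by decide +kernel)) TOK.nil (p58 h).2.1.1.2.2.1.2.1 (by decide +kernel)) (ndF TOK.nil TOK.nil (p58 h).2.1.1.2.2.2.1 (by decide +kernel)) (p58 h).2.1.1.2.2.1.2.2 (by decide +kernel)) (p58 h).2.1.1.2.1.2.2.2 (by decide +kernel)) (ndF (ndF (ndF (ndF TOK.nil TOK.nil (p58 h).2.1.1.2.2.2.2.2 (by decide +kernel)) TOK.nil (p58 h).2.1.2.1.1.1.1 (by decide +kernel)) (ndF TOK.nil TOK.nil (p58 h).2.1.2.1.1.1.2.2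 (by decide +kernel)) (p58 h).2.1.2.1.1.1.2.1 (by decide +kernel)) (ndF (ndF (ndF TOK.nil TOK.nil (p58 h).2.1.2.1.1.2.2.1 (by decide +kernel)) TOK.nil (p58 h).2.1.2.1.1.2.2.2 (by decide +kernel)) (ndF TOK.nil TOK.nil (p58 h).2.1.2.1.2.1.2.1 (by decide +kernel)) (p58 h).2.1.2.1.2.1.1 (by decide +kernel)) (p58 h).2.1.2.1.1.2.1 (by decide +kernel)) (p58 h).2.1.1.2.2.2.2.1 (by decide +kernel)) (ndF (ndF (ndF (ndF (ndF TOK.nil TOK.nil (p58 h).2.1.2.1.2.2.1 (by decide +kernel)) TOK.nil (p58 h).2.1.2.1.2.2.2.1 (by decide +kernel)) (ndF TOK.nil TOK.nil (p58 h).2.1.2.2.1.1.1 (by decide +kernel)) (p58 h).2.1.2.1.2.2.2.2 (by decide +kernel)) (ndF (ndF (ndF TOK.nil TOK.nil (p58 h).2.1.2.2.1.1.2.2 (by decide +kernel)) TOK.nil (p58 h).2.1.2.2.1.2.1 (by decide +kernel)) (ndF TOK.nil TOK.nil (p58 h).2.1.2.2.1.2.2.2 (by decide +kernel)) (p58 h).2.1.2.2.1.2.2.1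 (by decide +kernel)) (p58 h).2.1.2.2.1.1.2.1 (by decide +kernel)) (ndF (ndF (ndF (ndF TOK.nil TOK.nil (p58 h).2.1.2.2.2.1.2.1 (by decide +kernel)) TOK.nil (p58 h).2.1.2.2.2.1.2.2 (by decide +kernel)) (ndF TOK.nil TOK.nil (p58 h).2.1.2.2.2.2.1.2 (by decide +kernel)) (p58 h).2.1.2.2.2.2.1.1 (by decide +kernel)) (ndF (ndF (ndF TOK.nil TOK.nil (p58 h).2.1.2.2.2.2.2.2 (by decide +kernel)) TOK.nil (p58 h).2.2.1.1.1.1.1 (by decide +kernel)) (ndF TOK.nil TOK.nil (p58 h).2.2.1.1.1.1.2.2 (by decide +kernel)) (p58 h).2.2.1.1.1.1.2.1 (by decide +kernel)) (p58 h).2.1.2.2.2.2.2.1 (by decide +kernel)) (p58 h).2.1.2.2.2.1.1 (by decide +kernel)) (p58 h).2.1.2.1.2.1.2.2 (by decide +kernel)) (ndF (ndF (ndF (ndF (ndF (ndF TOK.nil TOK.nil (p58 h).2.2.1.1.1.2.2.1 (by decide +kernel)) TOK.nil (p58 h).2.2.1.1.1.2.2.2 (by decide +kernel)) (ndF (ndF TOK.nil TOK.nil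 (p58 h).2.2.1.1.2.1.2.1 (by decide +kernel)) TOK.nil (p58 h).2.2.1.1.2.1.2.2 (by decide +kernel)) (p58 h).2.2.1.1.2.1.1 (by decide +kernel)) (ndF (ndF (ndF TOK.nil TOK.nil (p58 h).2.2.1.1.2.2.2.1 (by decide +kernel)) TOK.nil (p58 h).2.2.1.1.2.2.2.2 (by decide +kernel)) (ndF TOK.nil TOK.nil (p58 h).2.2.1.2.1.1.2.1 (by decide +kernel)) (p58 h).2.2.1.2.1.1.1 (by decide +kernel)) (p58 h).2.2.1.1.2.2.1 (by decide +kernel)) (ndF (ndF (ndF (ndF TOK.nil TOK.nil (p58 h).2.2.1.2.1.2.1 (by decide +kernel)) TOK.nil (p58 h).2.2.1.2.1.2.2.1 (by decide +kernel)) (ndF TOK.nil TOK.nil (p58 h).2.2.1.2.2.1.1 (by decide +kernel)) (p58 h).2.2.1.2.1.2.2.2 (by decide +kernel)) (ndF (ndF (ndF TOK.nil TOK.nil (p58 h).2.2.1.2.2.1.2.2 (by decide +kernel)) TOK.nil (p58 h).2.2.1.2.2.2.1.1 (by decide +kernel)) (ndF TOK.nil TOK.nil (p58 h).2.2.1.2.2.2.2.1 (by decide +kernel))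 (p58 h).2.2.1.2.2.2.1.2 (by decide +kernel)) (p58 h).2.2.1.2.2.1.2.1 (by decide +kernel)) (p58 h).2.2.1.2.1.1.2.2 (by decide +kernel)) (ndF (ndF (ndF (ndF (ndF TOK.nil TOK.nil (p58 h).2.2.2.1.1.1.1 (by decide +kernel)) TOK.nil (p58 h).2.2.2.1.1.1.2.1 (by decide +kernel)) (ndF TOK.nil TOK.nil (p58 h).2.2.2.1.1.2.1 (by decide +kernel)) (p58 h).2.2.2.1.1.1.2.2 (by decide +kernel)) (ndF (ndF (ndF TOK.nil TOK.nil (p58 h).2.2.2.1.1.2.2.2 (by decide +kernel)) TOK.nil (p58 h).2.2.2.1.2.1.1 (by decide +kernel)) (ndF TOK.nil TOK.nil (p58 h).2.2.2.1.2.1.2.2 (by decide +kernel)) (p58 h).2.2.2.1.2.1.2.1 (by decide +kernel)) (p58 h).2.2.2.1.1.2.2.1 (by decide +kernel)) (ndF (ndF (ndF (ndF TOK.nil TOK.nil (p58 h).2.2.2.1.2.2.2.1 (by decide +kernel)) TOK.nil (p58 h).2.2.2.1.2.2.2.2 (by decide +kernel)) (ndF TOK.nil TOK.nil (p58 h).2.2.2.2.1.1.2.1 (by decide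 +kernel)) (p58 h).2.2.2.2.1.1.1 (by decide +kernel)) (ndF (ndF (ndF TOK.nil TOK.nil (p58 h).2.2.2.2.1.2.1 (by decide +kernel)) TOK.nil (p58 h).2.2.2.2.1.2.2.1 (by decide +kernel)) (ndF TOK.nil TOK.nil (p58 h).2.2.2.2.2.1.1 (by decide +kernel)) (p58 h).2.2.2.2.1.2.2.2 (by decide +kernel)) (p58 h).2.2.2.2.1.1.2.2 (by decide +kernel)) (p58 h).2.2.2.1.2.2.1 (by decide +kernel)) (p58 h).2.2.1.2.2.2.2.2 (by decide +kernel)) (p58 h).2.2.1.1.1.2.1 (by decide +kernel))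

theorem R_100_140_180_ok (h : RcOK RE.rowE) : R_100_140_180.OK :=
  okF (by decide +kernel) (ndF (ndF (ndF (ndF (ndF (ndF (ndF TOK.nil TOK.nil (p58 h).2.2.2.2.2.1.2.1 (by decide +kernel)) TOK.nil (p58 h).2.2.2.2.2.1.2.2 (by decide +kernel)) (ndF TOK.nil TOK.nil (p58 h).2.2.2.2.2.2.1.2 (by decide +kernel)) (p58 h).2.2.2.2.2.2.1.1 (by decide +kernel)) (ndF (ndF TOK.nil TOK.nil (p58 h).2.2.2.2.2.2.2.2 (by decide +kernel)) (ndF TOK.nil TOK.nil (p59 h).1.1.1.1.2.1 (by decide +kernel)) (p59 h).1.1.1.1.1 (by decide +kernel)) (p58 h).2.2.2.2.2.2.2.1 (by decide +kernel)) (ndF (ndF (ndF (ndF TOK.nil TOK.nil (p59 h).1.1.1.2.1.1 (by decide +kernel)) TOK.nil (p59 h).1.1.1.2.1.2 (by decide +kernel)) (ndF TOK.nil TOK.nil (p59 h).1.1.1.2.2.2 (by decide +kernel)) (p59 h).1.1.1.2.2.1 (by decide +kernel)) (ndF (ndF TOK.nil TOK.nil (p59 h).1.1.2.1.2.1 (by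 decide +kernel)) (ndF TOK.nil TOK.nil (p59 h).1.1.2.2.1.1 (by decide +kernel)) (p59 h).1.1.2.1.2.2 (by decide +kernel)) (p59 h).1.1.2.1.1 (by decide +kernel)) (p59 h).1.1.1.1.2.2 (by decide +kernel)) (ndF (ndF (ndF (ndF (ndF TOK.nil TOK.nil (p59 h).1.1.2.2.2.1 (by decide +kernel)) TOK.nil (p59 h).1.1.2.2.2.2 (by decide +kernel)) (ndF TOK.nil TOK.nil (p59 h).1.2.1.1.2.1 (by decide +kernel)) (p59 h).1.2.1.1.1 (by decide +kernel)) (ndF (ndF TOK.nil TOK.nil (p59 h).1.2.1.2.1.1 (by decide +kernel)) (ndF TOK.nil TOK.nil (p59 h).1.2.1.2.2.1 (by decide +kernel)) (p59 h).1.2.1.2.1.2 (by decide +kernel)) (p59 h).1.2.1.1.2.2 (by decide +kernel)) (ndF (ndF (ndF (ndF TOK.nil TOK.nil (p59 h).1.2.2.1.1 (by decide +kernel)) TOK.nil (p59 h).1.2.2.1.2.1 (by decide +kernel)) (ndF TOK.nil TOK.nil (p59 h).1.2.2.2.1.1 (by decide +kernel)) (p59 h).1.2.2.1.2.2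 (by decide +kernel)) (ndF (ndF TOK.nil TOK.nil (p59 h).1.2.2.2.2.1 (by decide +kernel)) (ndF TOK.nil TOK.nil (p59 h).2.1.1.1.1 (by decide +kernel)) (p59 h).1.2.2.2.2.2 (by decide +kernel)) (p59 h).1.2.2.2.1.2 (by decide +kernel)) (p59 h).1.2.1.2.2.2 (by decide +kernel)) (p59 h).1.1.2.2.1.2 (by decide +kernel)) (ndF (ndF (ndF (ndF (ndF (ndF TOK.nil TOK.nil (p59 h).2.1.1.1.2.2 (by decide +kernel)) TOK.nil (p59 h).2.1.1.2.1.1 (by decide +kernel)) (ndF TOK.nil TOK.nil (p59 h).2.1.1.2.2.1 (by decide +kernel)) (p59 h).2.1.1.2.1.2 (by decide +kernel)) (ndF (ndF TOK.nil TOK.nil (p59 h).2.1.2.1.1 (by decide +kernel)) (ndF TOK.nil TOK.nil (p59 h).2.1.2.1.2.2 (by decide +kernel)) (p59 h).2.1.2.1.2.1 (by decide +kernel)) (p59 h).2.1.1.2.2.2 (by decide +kernel)) (ndF (ndF (ndF (ndF TOK.nil TOK.nil (p59 h).2.1.2.2.1.2 (by decide +kernel)) TOK.nil (p59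 h).2.1.2.2.2.1 (by decide +kernel)) (ndF TOK.nil TOK.nil (p59 h).2.2.1.1.1 (by decide +kernel)) (p59 h).2.1.2.2.2.2 (by decide +kernel)) (ndF (ndF TOK.nil TOK.nil (p59 h).2.2.1.1.2.2 (by decide +kernel)) (ndF TOK.nil TOK.nil (p59 h).2.2.1.2.1.2 (by decide +kernel)) (p59 h).2.2.1.2.1.1 (by decide +kernel)) (p59 h).2.2.1.1.2.1 (by decide +kernel)) (p59 h).2.1.2.2.1.1 (by decide +kernel)) (ndF (ndF (ndF (ndF (ndF TOK.nil TOK.nil (p59 h).2.2.1.2.2.2 (by decide +kernel)) TOK.nil (p59 h).2.2.2.1.1 (by decide +kernel)) (ndF TOK.nil TOK.nil (p59 h).2.2.2.1.2.2 (by decide +kernel)) (p59 h).2.2.2.1.2.1 (by decide +kernel)) (ndF (ndF TOK.nil TOK.nil (p59 h).2.2.2.2.1.2 (by decide +kernel)) (ndF TOK.nil TOK.nil (p59 h).2.2.2.2.2.2 (by decide +kernel)) (p59 h).2.2.2.2.2.1 (by decide +kernel)) (p59 h).2.2.2.2.1.1 (by decide +kernel)) (ndF (ndF (ndF TOK.nil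 TOK.nil (p60 h).1.1.1.1.2.1 (by decide +kernel)) (ndF TOK.nil TOK.nil (p60 h).1.1.1.2.1.1 (by decide +kernel)) (p60 h).1.1.1.1.2.2 (by decide +kernel)) (ndF (ndF TOK.nil TOK.nil (p60 h).1.1.1.2.2.1 (by decide +kernel)) (ndF TOK.nil TOK.nil (p60 h).1.1.2.1.1.1 (by decide +kernel)) (p60 h).1.1.1.2.2.2 (by decide +kernel)) (p60 h).1.1.1.2.1.2 (by decide +kernel)) (p60 h).1.1.1.1.1 (by decide +kernel)) (p59 h).2.2.1.2.2.1 (by decide +kernel)) (p59 h).2.1.1.1.2.1 (by decide +kernel))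

theorem R_40_100_140_ok (h : RcOK RE.rowE) : R_40_100_140.OK :=
  okF (by decide +kernel) (ndF (ndF (ndF (ndF (ndF (ndF (ndF TOK.nil TOK.nil (p60 h).1.1.2.1.1.2 (by decide +kernel)) TOK.nil (p60 h).1.1.2.1.2.1 (by decide +kernel)) (ndF TOK.nil TOK.nil (p60 h).1.1.2.2.1.1 (by decide +kernel)) (p60 h).1.1.2.1.2.2 (by decide +kernel)) (ndF (ndF TOK.nil TOK.nil (p60 h).1.1.2.2.2.1 (by decide +kernel)) (ndF TOK.nil TOK.nil (p60 h).1.2.1.1.1 (by decide +kernel)) (p60 h).1.1.2.2.2.2 (by decide +kernel)) (p60 h).1.1.2.2.1.2 (by decide +kernel)) (ndF (ndF (ndF (ndF TOK.nil TOK.nil (p60 h).1.2.1.1.2.2 (by decide +kernel)) TOK.nil (p60 h).1.2.1.2.1.1 (by decide +kernel)) (ndF TOK.nil TOK.nil (p60 h).1.2.1.2.2.1 (by decide +kernel)) (p60 h).1.2.1.2.1.2 (by decide +kernel)) (ndF (ndF TOK.nil TOK.nil (p60 h).1.2.2.1.1.1 (by decide +kernel)) (ndF TOK.nil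 TOK.nil (p60 h).1.2.2.1.2.1 (by decide +kernel)) (p60 h).1.2.2.1.1.2 (by decide +kernel)) (p60 h).1.2.1.2.2.2 (by decide +kernel)) (p60 h).1.2.1.1.2.1 (by decide +kernel)) (ndF (ndF (ndF (ndF (ndF TOK.nil TOK.nil (p60 h).1.2.2.2.1.1 (by decide +kernel)) TOK.nil (p60 h).1.2.2.2.1.2 (by decide +kernel)) (ndF TOK.nil TOK.nil (p60 h).1.2.2.2.2.2 (by decide +kernel)) (p60 h).1.2.2.2.2.1 (by decide +kernel)) (ndF (ndF TOK.nil TOK.nil (p60 h).2.1.1.1.2.1 (by decide +kernel)) (ndF TOK.nil TOK.nil (p60 h).2.1.1.2.1.1 (by decide +kernel)) (p60 h).2.1.1.1.2.2 (by decide +kernel)) (p60 h).2.1.1.1.1 (by decide +kernel)) (ndF (ndF (ndF (ndF TOK.nil TOK.nil (p60 h).2.1.1.2.2.1 (by decide +kernel)) TOK.nil (p60 h).2.1.1.2.2.2 (by decide +kernel)) (ndF TOK.nil TOK.nil (p60 h).2.1.2.1.1.2 (by decide +kernel)) (p60 h).2.1.2.1.1.1 (by decide +kernel)) (ndF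 (ndF TOK.nil TOK.nil (p60 h).2.1.2.1.2.2 (by decide +kernel)) (ndF TOK.nil TOK.nil (p60 h).2.1.2.2.1.2 (by decide +kernel)) (p60 h).2.1.2.2.1.1 (by decide +kernel)) (p60 h).2.1.2.1.2.1 (by decide +kernel)) (p60 h).2.1.1.2.1.2 (by decide +kernel)) (p60 h).1.2.2.1.2.2 (by decide +kernel)) (ndF (ndF (ndF (ndF (ndF (ndF TOK.nil TOK.nil (p60 h).2.1.2.2.2.2 (by decide +kernel)) TOK.nil (p60 h).2.2.1.1.1 (by decide +kernel)) (ndF TOK.nil TOK.nil (p60 h).2.2.1.1.2.2 (by decide +kernel)) (p60 h).2.2.1.1.2.1 (by decide +kernel)) (ndF (ndF TOK.nil TOK.nil (p60 h).2.2.1.2.1.2 (by decide +kernel)) (ndF TOK.nil TOK.nil (p60 h).2.2.1.2.2.2 (by decide +kernel)) (p60 h).2.2.1.2.2.1 (by decide +kernel)) (p60 h).2.2.1.2.1.1 (by decide +kernel)) (ndF (ndF (ndF (ndF TOK.nil TOK.nil (p60 h).2.2.2.1.1.2 (by decide +kernel)) TOK.nil (p60 h).2.2.2.1.2.1 (by decide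 +kernel)) (ndF TOK.nil TOK.nil (p60 h).2.2.2.2.1.1 (by decide +kernel)) (p60 h).2.2.2.1.2.2 (by decide +kernel)) (ndF (ndF TOK.nil TOK.nil (p60 h).2.2.2.2.2.1 (by decide +kernel)) (ndF TOK.nil TOK.nil (p61 h).1.1.1.1.1.1 (by decide +kernel)) (p60 h).2.2.2.2.2.2 (by decide +kernel)) (p60 h).2.2.2.2.1.2 (by decide +kernel)) (p60 h).2.2.2.1.1.1 (by decide +kernel)) (ndF (ndF (ndF (ndF (ndF TOK.nil TOK.nil (p61 h).1.1.1.1.2.1 (by decide +kernel)) TOK.nil (p61 h).1.1.1.1.2.2 (by decide +kernel)) (ndF TOK.nil TOK.nil (p61 h).1.1.1.2.1.2 (by decide +kernel)) (p61 h).1.1.1.2.1.1 (by decide +kernel)) (ndF (ndF TOK.nil TOK.nil (p61 h).1.1.1.2.2.2 (by decide +kernel)) (ndF TOK.nil TOK.nil (p61 h).1.1.2.1.1.2 (by decide +kernel)) (p61 h).1.1.2.1.1.1 (by decide +kernel)) (p61 h).1.1.1.2.2.1 (by decide +kernel)) (ndF (ndF (ndF (ndF TOK.nil TOK.nil (p61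 h).1.1.2.1.2.2 (by decide +kernel)) TOK.nil (p61 h).1.1.2.2.1.1 (by decide +kernel)) (ndF TOK.nil TOK.nil (p61 h).1.1.2.2.2.1 (by decide +kernel)) (p61 h).1.1.2.2.1.2 (by decide +kernel)) (ndF (ndF TOK.nil TOK.nil (p61 h).1.1.2.2.2.2.2 (by decide +kernel)) (ndF TOK.nil TOK.nil (p61 h).1.2.1.1.1.2 (by decide +kernel)) (p61 h).1.2.1.1.1.1 (by decide +kernel)) (p61 h).1.1.2.2.2.2.1 (by decide +kernel)) (p61 h).1.1.2.1.2.1 (by decide +kernel)) (p61 h).1.1.1.1.1.2 (by decide +kernel)) (p60 h).2.1.2.2.2.1 (by decide +kernel))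

theorem R_120_160_180_ok (h : RcOK RE.rowE) : R_120_160_180.OK :=
  okF (by decide +kernel) (ndF (ndF (ndF (ndF (ndF (ndF (ndF TOK.nil TOK.nil (p61 h).1.2.1.1.2.1 (by decide +kernel)) TOK.nil (p61 h).1.2.1.1.2.2 (by decide +kernel)) (ndF TOK.nil TOK.nil (p61 h).1.2.1.2.1.2 (by decide +kernel)) (p61 h).1.2.1.2.1.1 (by decide +kernel)) (ndF (ndF (ndF TOK.nil TOK.nil (p61 h).1.2.1.2.2.2 (by decide +kernel)) TOK.nil (p61 h).1.2.2.1.1.1 (by decide +kernel)) (ndF TOK.nil TOK.nil (p61 h).1.2.2.1.2.1 (by decide +kernel)) (p61 h).1.2.2.1.1.2 (by decide +kernel)) (p61 h).1.2.1.2.2.1 (by decide +kernel)) (ndF (ndF (ndF (ndF TOK.nil TOK.nil (p61 h).1.2.2.2.1.1 (by decide +kernel)) TOK.nil (p61 h).1.2.2.2.1.2 (by decide +kernel)) (ndF TOK.nil TOK.nil (p61 h).1.2.2.2.2.2.1 (by decide +kernel)) (p61 h).1.2.2.2.2.1 (by decide +kernel)) (ndF (ndF TOK.nil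 TOK.nil (p61 h).2.1.1.1.1.1 (by decide +kernel)) (ndF TOK.nil TOK.nil (p61 h).2.1.1.1.2.1 (by decide +kernel)) (p61 h).2.1.1.1.1.2 (by decide +kernel)) (p61 h).1.2.2.2.2.2.2 (by decide +kernel)) (p61 h).1.2.2.1.2.2 (by decide +kernel)) (ndF (ndF (ndF (ndF (ndF TOK.nil TOK.nil (p61 h).2.1.1.2.1.1 (by decide +kernel)) TOK.nil (p61 h).2.1.1.2.1.2 (by decide +kernel)) (ndF TOK.nil TOK.nil (p61 h).2.1.1.2.2.2 (by decide +kernel)) (p61 h).2.1.1.2.2.1 (by decide +kernel)) (ndF (ndF (ndF TOK.nil TOK.nil (p61 h).2.1.2.1.1.2 (by decide +kernel)) TOK.nil (p61 h).2.1.2.1.2.1 (by decide +kernel)) (ndF TOK.nil TOK.nil (p61 h).2.1.2.2.1.1 (by decide +kernel)) (p61 h).2.1.2.1.2.2 (by decide +kernel)) (p61 h).2.1.2.1.1.1 (by decide +kernel)) (ndF (ndF (ndF (ndF TOK.nil TOK.nil (p61 h).2.1.2.2.2.1 (by decide +kernel)) TOK.nil (p61 h).2.1.2.2.2.2.1 (by decide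 +kernel)) (ndF TOK.nil TOK.nil (p61 h).2.2.1.1.1.1 (by decide +kernel)) (p61 h).2.1.2.2.2.2.2 (by decide +kernel)) (ndF (ndF TOK.nil TOK.nil (p61 h).2.2.1.1.2.1 (by decide +kernel)) (ndF TOK.nil TOK.nil (p61 h).2.2.1.2.1.1 (by decide +kernel)) (p61 h).2.2.1.1.2.2 (by decide +kernel)) (p61 h).2.2.1.1.1.2 (by decide +kernel)) (p61 h).2.1.2.2.1.2 (by decide +kernel)) (p61 h).2.1.1.1.2.2 (by decide +kernel)) (ndF (ndF (ndF (ndF (ndF (ndF TOK.nil TOK.nil (p61 h).2.2.1.2.2.1 (by decide +kernel)) TOK.nil (p61 h).2.2.1.2.2.2 (by decide +kernel)) (ndF TOK.nil TOK.nil (p61 h).2.2.2.1.1.2 (by decide +kernel)) (p61 h).2.2.2.1.1.1 (by decide +kernel)) (ndF (ndF (ndF TOK.nil TOK.nil (p61 h).2.2.2.1.2.2 (by decide +kernel)) TOK.nil (p61 h).2.2.2.2.1.1 (by decide +kernel)) (ndF TOK.nil TOK.nil (p61 h).2.2.2.2.2.1 (by decide +kernel)) (p61 h).2.2.2.2.1.2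 (by decide +kernel)) (p61 h).2.2.2.1.2.1 (by decide +kernel)) (ndF (ndF (ndF (ndF TOK.nil TOK.nil (p61 h).2.2.2.2.2.2.2 (by decide +kernel)) TOK.nil (p62 h).1.1.1.1.1.1.1.1 (by decide +kernel)) (ndF TOK.nil TOK.nil (p62 h).1.1.1.1.1.1.2.1 (by decide +kernel)) (p62 h).1.1.1.1.1.1.1.2 (by decide +kernel)) (ndF (ndF TOK.nil TOK.nil (p62 h).1.1.1.1.1.2.1.1 (by decide +kernel)) (ndF TOK.nil TOK.nil (p62 h).1.1.1.1.1.2.2.1 (by decide +kernel)) (p62 h).1.1.1.1.1.2.1.2 (by decide +kernel)) (p62 h).1.1.1.1.1.1.2.2 (by decide +kernel)) (p61 h).2.2.2.2.2.2.1 (by decide +kernel)) (ndF (ndF (ndF (ndF (ndF TOK.nil TOK.nil (p62 h).1.1.1.1.1.2.2.2.2 (by decide +kernel)) TOK.nil (p62 h).1.1.1.1.2.1.1.1 (by decide +kernel)) (ndF TOK.nil TOK.nil (p62 h).1.1.1.1.2.1.2.1 (by decide +kernel)) (p62 h).1.1.1.1.2.1.1.2 (by decide +kernel)) (ndF (ndF TOK.nil TOK.nil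 (p62 h).1.1.1.1.2.2.1.1 (by decide +kernel)) (ndF TOK.nil TOK.nil (p62 h).1.1.1.1.2.2.2.1 (by decide +kernel)) (p62 h).1.1.1.1.2.2.1.2 (by decide +kernel)) (p62 h).1.1.1.1.2.1.2.2 (by decide +kernel)) (ndF (ndF (ndF (ndF TOK.nil TOK.nil (p62 h).1.1.1.1.2.2.2.2.2 (by decide +kernel)) TOK.nil (p62 h).1.1.1.2.1.1.1.1 (by decide +kernel)) (ndF TOK.nil TOK.nil (p62 h).1.1.1.2.1.1.2.1 (by decide +kernel)) (p62 h).1.1.1.2.1.1.1.2 (by decide +kernel)) (ndF (ndF TOK.nil TOK.nil (p62 h).1.1.1.2.1.2.1.1 (by decide +kernel)) (ndF TOK.nil TOK.nil (p62 h).1.1.1.2.1.2.2.1 (by decide +kernel)) (p62 h).1.1.1.2.1.2.1.2 (by decide +kernel)) (p62 h).1.1.1.2.1.1.2.2 (by decide +kernel)) (p62 h).1.1.1.1.2.2.2.2.1 (by decide +kernel)) (p62 h).1.1.1.1.1.2.2.2.1 (by decide +kernel)) (p61 h).2.2.1.2.1.2 (by decide +kernel))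


end TB
end Pool.Agent.Lib.MP_6947cd_al
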