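import Pool.Agent.Lib.MP_6947cd_al.TB.P62
import Pool.Agent.Lib.MP_6947cd_al.TB.P63
import Pool.Agent.Lib.MP_6947cd_al.TB.P64
import Pool.Agent.Lib.MP_6947cd_al.TB.P65

/-!
Problem MP_6947cd_al (Chollet).  THE FAMILIES OF TABLES ARE CORRECT, part 18.
-/

set_option autoImplicit false
set_option maxHeartbeats 0
set_option maxRecDepth 100000
set_option linter.all false

namespace Pool.Agent.Lib.MP_6947cd_al
namespace TB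

open Ent Ent.Pk Fr Fr.WT B1 PkA PkA.TF

theorem T_60_140_ok (h : RcOK RE.rowE) : T_60_140.OK :=
  okF (by decide +kernel) (ndF (ndF (ndF (ndF (ndF (ndF (ndF TOK.nil TOK.nil (p62 h).1.1.1.2.1.2.2.2.1 (by decide +kernel)) (ndF TOK.nil TOK.nil (p62 h).1.1.1.2.2.1.1.1 (by decide +kernel)) (p62 h).1.1.1.2.1.2.2.2.2 (by decide +kernel)) (ndF (ndF TOK.nil TOK.nil (p62 h).1.1.1.2.2.1.2.1 (by decide +kernel)) (ndF TOK.nil TOK.nil (p62 h).1.1.1.2.2.1.2.2.2 (by decide +kernel)) (p62 h).1.1.1.2.2.1.2.2.1 (by decide +kernel)) (p62 h).1.1.1.2.2.1.1.2 (by decide +kernel)) (ndF (ndF (ndF TOK.nil TOK.nil (p62 h).1.1.1.2.2.2.1.2 (by decide +kernel)) (ndF TOK.nil TOK.nil (p62 h).1.1.1.2.2.2.2.2.1 (by decide +kernel)) (p62 h).1.1.1.2.2.2.2.1 (by decide +kernel)) (ndF (ndF TOK.nil TOK.nil (p62 h).1.1.2.1.1.1.1.1 (by decide +kernel)) (ndF TOK.nil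 TOK.nil (p62 h).1.1.2.1.1.1.2.1 (by decide +kernel)) (p62 h).1.1.2.1.1.1.1.2 (by decide +kernel)) (p62 h).1.1.1.2.2.2.2.2.2 (by decide +kernel)) (p62 h).1.1.1.2.2.2.1.1 (by decide +kernel)) (ndF (ndF (ndF (ndF TOK.nil TOK.nil (p62 h).1.1.2.1.1.2.1.1 (by decide +kernel)) (ndF TOK.nil TOK.nil (p62 h).1.1.2.1.1.2.2.1 (by decide +kernel)) (p62 h).1.1.2.1.1.2.1.2 (by decide +kernel)) (ndF (ndF TOK.nil TOK.nil (p62 h).1.1.2.1.1.2.2.2.2 (by decide +kernel)) (ndF TOK.nil TOK.nil (p62 h).1.1.2.1.2.1.1.2 (by decide +kernel)) (p62 h).1.1.2.1.2.1.1.1 (by decide +kernel)) (p62 h).1.1.2.1.1.2.2.2.1 (by decide +kernel)) (ndF (ndF (ndF TOK.nil TOK.nil (p62 h).1.1.2.1.2.1.2.2 (by decide +kernel)) (ndF TOK.nil TOK.nil (p62 h).1.1.2.1.2.2.1.2 (by decide +kernel)) (p62 h).1.1.2.1.2.2.1.1 (by decide +kernel)) (ndF (ndF TOK.nil TOK.nil (p62 h).1.1.2.1.2.2.2.2.1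 (by decide +kernel)) TOK.nil (p62 h).1.1.2.1.2.2.2.2.2 (by decide +kernel)) (p62 h).1.1.2.1.2.2.2.1 (by decide +kernel)) (p62 h).1.1.2.1.2.1.2.1 (by decide +kernel)) (p62 h).1.1.2.1.1.1.2.2 (by decide +kernel)) (ndF (ndF (ndF (ndF (ndF TOK.nil TOK.nil (p62 h).1.1.2.2.1.1.1.2 (by decide +kernel)) (ndF TOK.nil TOK.nil (p62 h).1.1.2.2.1.1.2.2 (by decide +kernel)) (p62 h).1.1.2.2.1.1.2.1 (by decide +kernel)) (ndF (ndF TOK.nil TOK.nil (p62 h).1.1.2.2.1.2.1.2 (by decide +kernel)) (ndF TOK.nil TOK.nil (p62 h).1.1.2.2.1.2.2.2.1 (by decide +kernel)) (p62 h).1.1.2.2.1.2.2.1 (by decide +kernel)) (p62 h).1.1.2.2.1.2.1.1 (by decide +kernel)) (ndF (ndF (ndF TOK.nil TOK.nil (p62 h).1.1.2.2.2.1.1.1 (by decide +kernel)) (ndF TOK.nil TOK.nil (p62 h).1.1.2.2.2.1.2.1 (by decide +kernel)) (p62 h).1.1.2.2.2.1.1.2 (by decide +kernel)) (ndF (ndF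 TOK.nil TOK.nil (p62 h).1.1.2.2.2.1.2.2.2 (by decide +kernel)) TOK.nil (p62 h).1.1.2.2.2.2.1.1 (by decide +kernel)) (p62 h).1.1.2.2.2.1.2.2.1 (by decide +kernel)) (p62 h).1.1.2.2.1.2.2.2.2 (by decide +kernel)) (ndF (ndF (ndF (ndF TOK.nil TOK.nil (p62 h).1.1.2.2.2.2.2.1 (by decide +kernel)) (ndF TOK.nil TOK.nil (p62 h).1.1.2.2.2.2.2.2.2 (by decide +kernel)) (p62 h).1.1.2.2.2.2.2.2.1 (by decide +kernel)) (ndF (ndF TOK.nil TOK.nil (p62 h).1.2.1.1.1.1.1.2 (by decide +kernel)) (ndF TOK.nil TOK.nil (p62 h).1.2.1.1.1.1.2.2 (by decide +kernel)) (p62 h).1.2.1.1.1.1.2.1 (by decide +kernel)) (p62 h).1.2.1.1.1.1.1.1 (by decide +kernel)) (ndF (ndF (ndF TOK.nil TOK.nil (p62 h).1.2.1.1.1.2.1.2 (by decide +kernel)) (ndF TOK.nil TOK.nil (p62 h).1.2.1.1.1.2.2.2.1 (by decide +kernel)) (p62 h).1.2.1.1.1.2.2.1 (by decide +kernel)) (ndF (ndF TOK.nil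 TOK.nil (p62 h).1.2.1.1.2.1.1.1 (by decide +kernel)) TOK.nil (p62 h).1.2.1.1.2.1.1.2 (by decide +kernel)) (p62 h).1.2.1.1.1.2.2.2.2 (by decide +kernel)) (p62 h).1.2.1.1.1.2.1.1 (by decide +kernel)) (p62 h).1.1.2.2.2.2.1.2 (by decide +kernel)) (p62 h).1.1.2.2.1.1.1.1 (by decide +kernel)) (ndF (ndF (ndF (ndF (ndF (ndF TOK.nil TOK.nil (p62 h).1.2.1.1.2.1.2.2 (by decide +kernel)) (ndF TOK.nil TOK.nil (p62 h).1.2.1.1.2.2.1.2 (by decide +kernel)) (p62 h).1.2.1.1.2.2.1.1 (by decide +kernel)) (ndF (ndF TOK.nil TOK.nil (p62 h).1.2.1.1.2.2.2.2.1 (by decide +kernel)) (ndF TOK.nil TOK.nil (p62 h).1.2.1.2.1.1.1.1 (by decide +kernel)) (p62 h).1.2.1.1.2.2.2.2.2 (by decide +kernel)) (p62 h).1.2.1.1.2.2.2.1 (by decide +kernel)) (ndF (ndF (ndF TOK.nil TOK.nil (p62 h).1.2.1.2.1.1.2.1 (by decide +kernel)) (ndF TOK.nil TOK.nil (p62 h).1.2.1.2.1.2.1.1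 (by decide +kernel)) (p62 h).1.2.1.2.1.1.2.2 (by decide +kernel)) (ndF (ndF TOK.nil TOK.nil (p62 h).1.2.1.2.1.2.2.1 (by decide +kernel)) (ndF TOK.nil TOK.nil (p62 h).1.2.1.2.1.2.2.2.2 (by decide +kernel)) (p62 h).1.2.1.2.1.2.2.2.1 (by decide +kernel)) (p62 h).1.2.1.2.1.2.1.2 (by decide +kernel)) (p62 h).1.2.1.2.1.1.1.2 (by decide +kernel)) (ndF (ndF (ndF (ndF TOK.nil TOK.nil (p62 h).1.2.1.2.2.1.1.2 (by decide +kernel)) (ndF TOK.nil TOK.nil (p62 h).1.2.1.2.2.1.2.2.1 (by decide +kernel)) (p62 h).1.2.1.2.2.1.2.1 (by decide +kernel)) (ndF (ndF TOK.nil TOK.nil (p62 h).1.2.1.2.2.2.1.1 (by decide +kernel)) (ndF TOK.nil TOK.nil (p62 h).1.2.1.2.2.2.2.1 (by decide +kernel)) (p62 h).1.2.1.2.2.2.1.2 (by decide +kernel)) (p62 h).1.2.1.2.2.1.2.2.2 (by decide +kernel)) (ndF (ndF (ndF TOK.nil TOK.nil (p62 h).1.2.1.2.2.2.2.2.2 (by decide +kernel))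 (ndF TOK.nil TOK.nil (p62 h).1.2.2.1.1.1.1.2 (by decide +kernel)) (p62 h).1.2.2.1.1.1.1.1 (by decide +kernel)) (ndF (ndF TOK.nil TOK.nil (p62 h).1.2.2.1.1.1.2.2 (by decide +kernel)) TOK.nil (p62 h).1.2.2.1.1.2.1.1 (by decide +kernel)) (p62 h).1.2.2.1.1.1.2.1 (by decide +kernel)) (p62 h).1.2.1.2.2.2.2.2.1 (by decide +kernel)) (p62 h).1.2.1.2.2.1.1.1 (by decide +kernel)) (ndF (ndF (ndF (ndF (ndF TOK.nil TOK.nil (p62 h).1.2.2.1.1.2.2.1 (by decide +kernel)) (ndF TOK.nil TOK.nil (p62 h).1.2.2.1.1.2.2.2.2 (by decide +kernel)) (p62 h).1.2.2.1.1.2.2.2.1 (by decide +kernel)) (ndF (ndF TOK.nil TOK.nil (p62 h).1.2.2.1.2.1.1.2 (by decide +kernel)) (ndF TOK.nil TOK.nil (p62 h).1.2.2.1.2.1.2.2 (by decide +kernel)) (p62 h).1.2.2.1.2.1.2.1 (by decide +kernel)) (p62 h).1.2.2.1.2.1.1.1 (by decide +kernel)) (ndF (ndF (ndF TOK.nil TOK.nil (p62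 h).1.2.2.1.2.2.1.2 (by decide +kernel)) (ndF TOK.nil TOK.nil (p62 h).1.2.2.1.2.2.2.2.1 (by decide +kernel)) (p62 h).1.2.2.1.2.2.2.1 (by decide +kernel)) (ndF (ndF TOK.nil TOK.nil (p62 h).1.2.2.2.1.1.1.1 (by decide +kernel)) TOK.nil (p62 h).1.2.2.2.1.1.1.2 (by decide +kernel)) (p62 h).1.2.2.1.2.2.2.2.2 (by decide +kernel)) (p62 h).1.2.2.1.2.2.1.1 (by decide +kernel)) (ndF (ndF (ndF (ndF TOK.nil TOK.nil (p62 h).1.2.2.2.1.1.2.2 (by decide +kernel)) (ndF TOK.nil TOK.nil (p62 h).1.2.2.2.1.2.1.2 (by decide +kernel)) (p62 h).1.2.2.2.1.2.1.1 (by decide +kernel)) (ndF (ndF TOK.nil TOK.nil (p62 h).1.2.2.2.1.2.2.2.1 (by decide +kernel)) (ndF TOK.nil TOK.nil (p62 h).1.2.2.2.2.1.1.1 (by decide +kernel)) (p62 h).1.2.2.2.1.2.2.2.2 (by decide +kernel)) (p62 h).1.2.2.2.1.2.2.1 (by decide +kernel)) (ndF (ndF (ndF TOK.nil TOK.nil (p62 h).1.2.2.2.2.1.2.1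 (by decide +kernel)) (ndF TOK.nil TOK.nil (p62 h).1.2.2.2.2.1.2.2.2 (by decide +kernel)) (p62 h).1.2.2.2.2.1.2.2.1 (by decide +kernel)) (ndF (ndF TOK.nil TOK.nil (p62 h).1.2.2.2.2.2.1.2 (by decide +kernel)) TOK.nil (p62 h).1.2.2.2.2.2.2.1 (by decide +kernel)) (p62 h).1.2.2.2.2.2.1.1 (by decide +kernel)) (p62 h).1.2.2.2.2.1.1.2 (by decide +kernel)) (p62 h).1.2.2.2.1.1.2.1 (by decide +kernel)) (p62 h).1.2.2.1.1.2.1.2 (by decide +kernel)) (p62 h).1.2.1.1.2.1.2.1 (by decide +kernel))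

theorem T_40_100_ok (h : RcOK RE.rowE) : T_40_100.OK :=
  okF (by decide +kernel) (ndF (ndF (ndF (ndF (ndF (ndF (ndF TOK.nil TOK.nil (p62 h).1.2.2.2.2.2.2.2.1 (by decide +kernel)) TOK.nil (p62 h).1.2.2.2.2.2.2.2.2 (by decide +kernel)) (ndF (ndF TOK.nil TOK.nil (p62 h).2.1.1.1.1.1.1.2 (by decide +kernel)) TOK.nil (p62 h).2.1.1.1.1.1.2.1 (by decide +kernel)) (p62 h).2.1.1.1.1.1.1.1 (by decide +kernel)) (ndF (ndF (ndF TOK.nil TOK.nil (p62 h).2.1.1.1.1.2.1.1 (by decide +kernel)) TOK.nil (p62 h).2.1.1.1.1.2.1.2 (by decide +kernel)) (ndF (ndF TOK.nil TOK.nil (p62 h).2.1.1.1.1.2.2.2.1 (by decide +kernel)) TOK.nil (p62 h).2.1.1.1.1.2.2.2.2 (by decide +kernel)) (p62 h).2.1.1.1.1.2.2.1 (by decide +kernel)) (p62 h).2.1.1.1.1.1.2.2 (by decide +kernel)) (ndF (ndF (ndF (ndF TOK.nil TOK.nil (p62 h).2.1.1.1.2.1.1.2 (by decide +kernel)) TOK.nil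 (p62 h).2.1.1.1.2.1.2.1 (by decide +kernel)) (ndF (ndF TOK.nil TOK.nil (p62 h).2.1.1.1.2.2.1.1 (by decide +kernel)) TOK.nil (p62 h).2.1.1.1.2.2.1.2 (by decide +kernel)) (p62 h).2.1.1.1.2.1.2.2 (by decide +kernel)) (ndF (ndF (ndF TOK.nil TOK.nil (p62 h).2.1.1.1.2.2.2.2.1 (by decide +kernel)) TOK.nil (p62 h).2.1.1.1.2.2.2.2.2 (by decide +kernel)) (ndF (ndF TOK.nil TOK.nil (p62 h).2.1.1.2.1.1.1.2 (by decide +kernel)) TOK.nil (p62 h).2.1.1.2.1.1.2.1 (by decide +kernel)) (p62 h).2.1.1.2.1.1.1.1 (by decide +kernel)) (p62 h).2.1.1.1.2.2.2.1 (by decide +kernel)) (p62 h).2.1.1.1.2.1.1.1 (by decide +kernel)) (ndF (ndF (ndF (ndF (ndF TOK.nil TOK.nil (p62 h).2.1.1.2.1.2.1.1 (by decide +kernel)) TOK.nil (p62 h).2.1.1.2.1.2.1.2 (by decide +kernel)) (ndF (ndF TOK.nil TOK.nil (p62 h).2.1.1.2.1.2.2.2.1 (by decide +kernel)) TOK.nil (p62 h).2.1.1.2.1.2.2.2.2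 (by decide +kernel)) (p62 h).2.1.1.2.1.2.2.1 (by decide +kernel)) (ndF (ndF (ndF TOK.nil TOK.nil (p62 h).2.1.1.2.2.1.1.2 (by decide +kernel)) TOK.nil (p62 h).2.1.1.2.2.1.2.1 (by decide +kernel)) (ndF (ndF TOK.nil TOK.nil (p62 h).2.1.1.2.2.1.2.2.2 (by decide +kernel)) TOK.nil (p62 h).2.1.1.2.2.2.1.1 (by decide +kernel)) (p62 h).2.1.1.2.2.1.2.2.1 (by decide +kernel)) (p62 h).2.1.1.2.2.1.1.1 (by decide +kernel)) (ndF (ndF (ndF (ndF TOK.nil TOK.nil (p62 h).2.1.1.2.2.2.2.1 (by decide +kernel)) TOK.nil (p62 h).2.1.1.2.2.2.2.2.1 (by decide +kernel)) (ndF (ndF TOK.nil TOK.nil (p62 h).2.1.2.1.1.1.1.1 (by decide +kernel)) TOK.nil (p62 h).2.1.2.1.1.1.1.2 (by decide +kernel)) (p62 h).2.1.1.2.2.2.2.2.2 (by decide +kernel)) (ndF (ndF (ndF TOK.nil TOK.nil (p62 h).2.1.2.1.1.1.2.2 (by decide +kernel)) TOK.nil (p62 h).2.1.2.1.1.2.1.1 (by decide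 +kernel)) (ndF TOK.nil TOK.nil (p62 h).2.1.2.1.1.2.2.1 (by decide +kernel)) (p62 h).2.1.2.1.1.2.1.2 (by decide +kernel)) (p62 h).2.1.2.1.1.1.2.1 (by decide +kernel)) (p62 h).2.1.1.2.2.2.1.2 (by decide +kernel)) (p62 h).2.1.1.2.1.1.2.2 (by decide +kernel)) (ndF (ndF (ndF (ndF (ndF (ndF TOK.nil TOK.nil (p62 h).2.1.2.1.1.2.2.2.2 (by decide +kernel)) TOK.nil (p62 h).2.1.2.1.2.1.1.1 (by decide +kernel)) (ndF (ndF TOK.nil TOK.nil (p62 h).2.1.2.1.2.1.2.1 (by decide +kernel)) TOK.nil (p62 h).2.1.2.1.2.1.2.2 (by decide +kernel)) (p62 h).2.1.2.1.2.1.1.2 (by decide +kernel)) (ndF (ndF (ndF TOK.nil TOK.nil (p62 h).2.1.2.1.2.2.1.2 (by decide +kernel)) TOK.nil (p62 h).2.1.2.1.2.2.2.1 (by decide +kernel)) (ndF (ndF TOK.nil TOK.nil (p62 h).2.1.2.1.2.2.2.2.2 (by decide +kernel)) TOK.nil (p62 h).2.1.2.2.1.1.1.1 (by decide +kernel)) (p62 h).2.1.2.1.2.2.2.2.1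 (by decide +kernel)) (p62 h).2.1.2.1.2.2.1.1 (by decide +kernel)) (ndF (ndF (ndF (ndF TOK.nil TOK.nil (p62 h).2.1.2.2.1.1.2.1 (by decide +kernel)) TOK.nil (p62 h).2.1.2.2.1.1.2.2 (by decide +kernel)) (ndF (ndF TOK.nil TOK.nil (p62 h).2.1.2.2.1.2.1.2 (by decide +kernel)) TOK.nil (p62 h).2.1.2.2.1.2.2.1 (by decide +kernel)) (p62 h).2.1.2.2.1.2.1.1 (by decide +kernel)) (ndF (ndF (ndF TOK.nil TOK.nil (p62 h).2.1.2.2.1.2.2.2.2 (by decide +kernel)) TOK.nil (p62 h).2.1.2.2.2.1.1.1 (by decide +kernel)) (ndF (ndF TOK.nil TOK.nil (p62 h).2.1.2.2.2.1.2.1 (by decide +kernel)) TOK.nil (p62 h).2.1.2.2.2.1.2.2.1 (by decide +kernel)) (p62 h).2.1.2.2.2.1.1.2 (by decide +kernel)) (p62 h).2.1.2.2.1.2.2.2.1 (by decide +kernel)) (p62 h).2.1.2.2.1.1.1.2 (by decide +kernel)) (ndF (ndF (ndF (ndF (ndF TOK.nil TOK.nil (p62 h).2.1.2.2.2.2.1.1 (by decide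 +kernel)) TOK.nil (p62 h).2.1.2.2.2.2.1.2 (by decide +kernel)) (ndF (ndF TOK.nil TOK.nil (p62 h).2.1.2.2.2.2.2.2.1 (by decide +kernel)) TOK.nil (p62 h).2.1.2.2.2.2.2.2.2 (by decide +kernel)) (p62 h).2.1.2.2.2.2.2.1 (by decide +kernel)) (ndF (ndF (ndF TOK.nil TOK.nil (p62 h).2.2.1.1.1.1.1.2 (by decide +kernel)) TOK.nil (p62 h).2.2.1.1.1.1.2.1 (by decide +kernel)) (ndF (ndF TOK.nil TOK.nil (p62 h).2.2.1.1.1.2.1.1 (by decide +kernel)) TOK.nil (p62 h).2.2.1.1.1.2.1.2 (by decide +kernel)) (p62 h).2.2.1.1.1.1.2.2 (by decide +kernel)) (p62 h).2.2.1.1.1.1.1.1 (by decide +kernel)) (ndF (ndF (ndF (ndF TOK.nil TOK.nil (p62 h).2.2.1.1.1.2.2.2.1 (by decide +kernel)) TOK.nil (p62 h).2.2.1.1.1.2.2.2.2 (by decide +kernel)) (ndF (ndF TOK.nil TOK.nil (p62 h).2.2.1.1.2.1.1.2 (by decide +kernel)) TOK.nil (p62 h).2.2.1.1.2.1.2.1 (by decide +kernel))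 (p62 h).2.2.1.1.2.1.1.1 (by decide +kernel)) (ndF (ndF (ndF TOK.nil TOK.nil (p62 h).2.2.1.1.2.2.1.1 (by decide +kernel)) TOK.nil (p62 h).2.2.1.1.2.2.1.2 (by decide +kernel)) (ndF TOK.nil TOK.nil (p62 h).2.2.1.1.2.2.2.2.1 (by decide +kernel)) (p62 h).2.2.1.1.2.2.2.1 (by decide +kernel)) (p62 h).2.2.1.1.2.1.2.2 (by decide +kernel)) (p62 h).2.2.1.1.1.2.2.1 (by decide +kernel)) (p62 h).2.1.2.2.2.1.2.2.2 (by decide +kernel)) (p62 h).2.1.2.1.1.2.2.2.1 (by decide +kernel))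

theorem T_80_160_ok (h : RcOK RE.rowE) : T_80_160.OK :=
  okF (by decide +kernel) (ndF (ndF (ndF (ndF (ndF (ndF (ndF (ndF TOK.nil TOK.nil (p62 h).2.2.1.1.2.2.2.2.2 (by decide +kernel)) TOK.nil (p62 h).2.2.1.2.1.1.1.1 (by decide +kernel)) (ndF TOK.nil TOK.nil (p62 h).2.2.1.2.1.1.2.1 (by decide +kernel)) (p62 h).2.2.1.2.1.1.1.2 (by decide +kernel)) (ndF (ndF TOK.nil TOK.nil (p62 h).2.2.1.2.1.2.1.1 (by decide +kernel)) (ndF TOK.nil TOK.nil (p62 h).2.2.1.2.1.2.2.1 (by decide +kernel)) (p62 h).2.2.1.2.1.2.1.2 (by decide +kernel)) (p62 h).2.2.1.2.1.1.2.2 (by decide +kernel)) (ndF (ndF (ndF TOK.nil TOK.nil (p62 h).2.2.1.2.1.2.2.2.2 (by decide +kernel)) (ndF TOK.nil TOK.nil (p62 h).2.2.1.2.2.1.1.2 (by decide +kernel)) (p62 h).2.2.1.2.2.1.1.1 (by decide +kernel)) (ndF (ndF TOK.nil TOK.nil (p62 h).2.2.1.2.2.1.2.2.1 (by decide +kernel))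 (ndF TOK.nil TOK.nil (p62 h).2.2.1.2.2.2.1.1 (by decide +kernel)) (p62 h).2.2.1.2.2.1.2.2.2 (by decide +kernel)) (p62 h).2.2.1.2.2.1.2.1 (by decide +kernel)) (p62 h).2.2.1.2.1.2.2.2.1 (by decide +kernel)) (ndF (ndF (ndF (ndF TOK.nil TOK.nil (p62 h).2.2.1.2.2.2.2.1 (by decide +kernel)) (ndF TOK.nil TOK.nil (p62 h).2.2.1.2.2.2.2.2.2 (by decide +kernel)) (p62 h).2.2.1.2.2.2.2.2.1 (by decide +kernel)) (ndF (ndF TOK.nil TOK.nil (p62 h).2.2.2.1.1.1.1.2 (by decide +kernel)) (ndF TOK.nil TOK.nil (p62 h).2.2.2.1.1.1.2.2 (by decide +kernel)) (p62 h).2.2.2.1.1.1.2.1 (by decide +kernel)) (p62 h).2.2.2.1.1.1.1.1 (by decide +kernel)) (ndF (ndF (ndF TOK.nil TOK.nil (p62 h).2.2.2.1.1.2.1.2 (by decide +kernel)) (ndF TOK.nil TOK.nil (p62 h).2.2.2.1.1.2.2.2.1 (by decide +kernel)) (p62 h).2.2.2.1.1.2.2.1 (by decide +kernel)) (ndF (ndF TOK.nil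 TOK.nil (p62 h).2.2.2.1.2.1.1.1 (by decide +kernel)) (ndF TOK.nil TOK.nil (p62 h).2.2.2.1.2.1.2.1 (by decide +kernel)) (p62 h).2.2.2.1.2.1.1.2 (by decide +kernel)) (p62 h).2.2.2.1.1.2.2.2.2 (by decide +kernel)) (p62 h).2.2.2.1.1.2.1.1 (by decide +kernel)) (p62 h).2.2.1.2.2.2.1.2 (by decide +kernel)) (ndF (ndF (ndF (ndF (ndF TOK.nil TOK.nil (p62 h).2.2.2.1.2.1.2.2.2 (by decide +kernel)) (ndF TOK.nil TOK.nil (p62 h).2.2.2.1.2.2.1.2 (by decide +kernel)) (p62 h).2.2.2.1.2.2.1.1 (by decide +kernel)) (ndF (ndF TOK.nil TOK.nil (p62 h).2.2.2.1.2.2.2.2.1 (by decide +kernel)) (ndF TOK.nil TOK.nil (p62 h).2.2.2.2.1.1.1.1 (by decide +kernel)) (p62 h).2.2.2.1.2.2.2.2.2 (by decide +kernel)) (p62 h).2.2.2.1.2.2.2.1 (by decide +kernel)) (ndF (ndF (ndF TOK.nil TOK.nil (p62 h).2.2.2.2.1.1.2.1 (by decide +kernel)) (ndF TOK.nil TOK.nil (p62 h).2.2.2.2.1.2.1.1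 (by decide +kernel)) (p62 h).2.2.2.2.1.1.2.2 (by decide +kernel)) (ndF (ndF TOK.nil TOK.nil (p62 h).2.2.2.2.1.2.2.1 (by decide +kernel)) (ndF TOK.nil TOK.nil (p62 h).2.2.2.2.1.2.2.2.2 (by decide +kernel)) (p62 h).2.2.2.2.1.2.2.2.1 (by decide +kernel)) (p62 h).2.2.2.2.1.2.1.2 (by decide +kernel)) (p62 h).2.2.2.2.1.1.1.2 (by decide +kernel)) (ndF (ndF (ndF (ndF TOK.nil TOK.nil (p62 h).2.2.2.2.2.1.1.2 (by decide +kernel)) (ndF TOK.nil TOK.nil (p62 h).2.2.2.2.2.1.2.2.1 (by decide +kernel)) (p62 h).2.2.2.2.2.1.2.1 (by decide +kernel)) (ndF (ndF TOK.nil TOK.nil (p62 h).2.2.2.2.2.2.1.1 (by decide +kernel)) (ndF TOK.nil TOK.nil (p62 h).2.2.2.2.2.2.2.1 (by decide +kernel)) (p62 h).2.2.2.2.2.2.1.2 (by decide +kernel)) (p62 h).2.2.2.2.2.1.2.2.2 (by decide +kernel)) (ndF (ndF (ndF TOK.nil TOK.nil (p62 h).2.2.2.2.2.2.2.2.2 (by decide +kernel))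 (ndF TOK.nil TOK.nil (p63 h).1.1.1.1.1.1.2 (by decide +kernel)) (p63 h).1.1.1.1.1.1.1 (by decide +kernel)) (ndF (ndF TOK.nil TOK.nil (p63 h).1.1.1.1.1.2.2 (by decide +kernel)) (ndF TOK.nil TOK.nil (p63 h).1.1.1.1.2.1.2 (by decide +kernel)) (p63 h).1.1.1.1.2.1.1 (by decide +kernel)) (p63 h).1.1.1.1.1.2.1 (by decide +kernel)) (p62 h).2.2.2.2.2.2.2.2.1 (by decide +kernel)) (p62 h).2.2.2.2.2.1.1.1 (by decide +kernel)) (p62 h).2.2.2.1.2.1.2.2.1 (by decide +kernel)) (ndF (ndF (ndF (ndF (ndF (ndF (ndF TOK.nil TOK.nil (p63 h).1.1.1.1.2.2.2.1 (by decide +kernel)) TOK.nil (p63 h).1.1.1.1.2.2.2.2 (by decide +kernel)) (ndF TOK.nil TOK.nil (p63 h).1.1.1.2.1.1.2 (by decide +kernel)) (p63 h).1.1.1.2.1.1.1 (by decide +kernel)) (ndF (ndF TOK.nil TOK.nil (p63 h).1.1.1.2.1.2.2.1 (by decide +kernel)) (ndF TOK.nil TOK.nil (p63 h).1.1.1.2.2.1.1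 (by decide +kernel)) (p63 h).1.1.1.2.1.2.2.2 (by decide +kernel)) (p63 h).1.1.1.2.1.2.1 (by decide +kernel)) (ndF (ndF (ndF TOK.nil TOK.nil (p63 h).1.1.1.2.2.2.1 (by decide +kernel)) (ndF TOK.nil TOK.nil (p63 h).1.1.1.2.2.2.2.2 (by decide +kernel)) (p63 h).1.1.1.2.2.2.2.1 (by decide +kernel)) (ndF (ndF TOK.nil TOK.nil (p63 h).1.1.2.1.1.1.2 (by decide +kernel)) (ndF TOK.nil TOK.nil (p63 h).1.1.2.1.1.2.2 (by decide +kernel)) (p63 h).1.1.2.1.1.2.1 (by decide +kernel)) (p63 h).1.1.2.1.1.1.1 (by decide +kernel)) (p63 h).1.1.1.2.2.1.2 (by decide +kernel)) (ndF (ndF (ndF (ndF TOK.nil TOK.nil (p63 h).1.1.2.1.2.1.2 (by decide +kernel)) (ndF TOK.nil TOK.nil (p63 h).1.1.2.1.2.2.2.1 (by decide +kernel)) (p63 h).1.1.2.1.2.2.1 (by decide +kernel)) (ndF (ndF TOK.nil TOK.nil (p63 h).1.1.2.2.1.1.1 (by decide +kernel)) (ndF TOK.nil TOK.nil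 (p63 h).1.1.2.2.1.2.1 (by decide +kernel)) (p63 h).1.1.2.2.1.1.2 (by decide +kernel)) (p63 h).1.1.2.1.2.2.2.2 (by decide +kernel)) (ndF (ndF (ndF TOK.nil TOK.nil (p63 h).1.1.2.2.1.2.2.2 (by decide +kernel)) (ndF TOK.nil TOK.nil (p63 h).1.1.2.2.2.1.2 (by decide +kernel)) (p63 h).1.1.2.2.2.1.1 (by decide +kernel)) (ndF (ndF TOK.nil TOK.nil (p63 h).1.1.2.2.2.2.2.1 (by decide +kernel)) (ndF TOK.nil TOK.nil (p63 h).1.2.1.1.1.1.1 (by decide +kernel)) (p63 h).1.1.2.2.2.2.2.2 (by decide +kernel)) (p63 h).1.1.2.2.2.2.1 (by decide +kernel)) (p63 h).1.1.2.2.1.2.2.1 (by decide +kernel)) (p63 h).1.1.2.1.2.1.1 (by decide +kernel)) (ndF (ndF (ndF (ndF (ndF TOK.nil TOK.nil (p63 h).1.2.1.1.1.2.1 (by decide +kernel)) (ndF TOK.nil TOK.nil (p63 h).1.2.1.1.2.1.1 (by decide +kernel)) (p63 h).1.2.1.1.1.2.2 (by decide +kernel)) (ndF (ndF TOK.nil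 TOK.nil (p63 h).1.2.1.1.2.2.1 (by decide +kernel)) (ndF TOK.nil TOK.nil (p63 h).1.2.1.1.2.2.2.2 (by decide +kernel)) (p63 h).1.2.1.1.2.2.2.1 (by decide +kernel)) (p63 h).1.2.1.1.2.1.2 (by decide +kernel)) (ndF (ndF (ndF TOK.nil TOK.nil (p63 h).1.2.1.2.1.1.2 (by decide +kernel)) (ndF TOK.nil TOK.nil (p63 h).1.2.1.2.1.2.2.1 (by decide +kernel)) (p63 h).1.2.1.2.1.2.1 (by decide +kernel)) (ndF (ndF TOK.nil TOK.nil (p63 h).1.2.1.2.2.1.1 (by decide +kernel)) (ndF TOK.nil TOK.nil (p63 h).1.2.1.2.2.2.1 (by decide +kernel)) (p63 h).1.2.1.2.2.1.2 (by decide +kernel)) (p63 h).1.2.1.2.1.2.2.2 (by decide +kernel)) (p63 h).1.2.1.2.1.1.1 (by decide +kernel)) (ndF (ndF (ndF (ndF TOK.nil TOK.nil (p63 h).1.2.1.2.2.2.2.2 (by decide +kernel)) (ndF TOK.nil TOK.nil (p63 h).1.2.2.1.1.1.2 (by decide +kernel)) (p63 h).1.2.2.1.1.1.1 (by decide +kernel))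 (ndF (ndF TOK.nil TOK.nil (p63 h).1.2.2.1.1.2.2.1 (by decide +kernel)) (ndF TOK.nil TOK.nil (p63 h).1.2.2.1.2.1.1 (by decide +kernel)) (p63 h).1.2.2.1.1.2.2.2 (by decide +kernel)) (p63 h).1.2.2.1.1.2.1 (by decide +kernel)) (ndF (ndF (ndF TOK.nil TOK.nil (p63 h).1.2.2.1.2.2.1 (by decide +kernel)) (ndF TOK.nil TOK.nil (p63 h).1.2.2.1.2.2.2.2 (by decide +kernel)) (p63 h).1.2.2.1.2.2.2.1 (by decide +kernel)) (ndF (ndF TOK.nil TOK.nil (p63 h).1.2.2.2.1.1.2 (by decide +kernel)) (ndF TOK.nil TOK.nil (p63 h).1.2.2.2.1.2.2.1 (by decide +kernel)) (p63 h).1.2.2.2.1.2.1 (by decide +kernel)) (p63 h).1.2.2.2.1.1.1 (by decide +kernel)) (p63 h).1.2.2.1.2.1.2 (by decide +kernel)) (p63 h).1.2.1.2.2.2.2.1 (by decide +kernel)) (p63 h).1.2.1.1.1.1.2 (by decide +kernel)) (p63 h).1.1.1.1.2.2.1 (by decide +kernel))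

theorem R_20_60_ok (h : RcOK RE.rowE) : R_20_60.OK :=
  okF (by decide +kernel) (ndF (ndF (ndF (ndF (ndF (ndF (ndF TOK.nil TOK.nil (p63 h).1.2.2.2.1.2.2.2 (by decide +kernel)) TOK.nil (p63 h).1.2.2.2.2.1.1 (by decide +kernel)) (ndF TOK.nil TOK.nil (p63 h).1.2.2.2.2.2.1 (by decide +kernel)) (p63 h).1.2.2.2.2.1.2 (by decide +kernel)) (ndF (ndF (ndF TOK.nil TOK.nil (p63 h).1.2.2.2.2.2.2.2 (by decide +kernel)) TOK.nil (p63 h).2.1.1.1.1.1.1 (by decide +kernel)) (ndF TOK.nil TOK.nil (p63 h).2.1.1.1.1.2.1 (by decide +kernel)) (p63 h).2.1.1.1.1.1.2 (by decide +kernel)) (p63 h).1.2.2.2.2.2.2.1 (by decide +kernel)) (ndF (ndF (ndF (ndF TOK.nil TOK.nil (p63 h).2.1.1.1.2.1.1 (by decide +kernel)) TOK.nil (p63 h).2.1.1.1.2.1.2 (by decide +kernel)) (ndF TOK.nil TOK.nil (p63 h).2.1.1.1.2.2.2.1 (by decide +kernel)) (p63 h).2.1.1.1.2.2.1 (by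 decide +kernel)) (ndF (ndF (ndF TOK.nil TOK.nil (p63 h).2.1.1.2.1.1.1 (by decide +kernel)) TOK.nil (p63 h).2.1.1.2.1.1.2 (by decide +kernel)) (ndF TOK.nil TOK.nil (p63 h).2.1.1.2.1.2.2.1 (by decide +kernel)) (p63 h).2.1.1.2.1.2.1 (by decide +kernel)) (p63 h).2.1.1.1.2.2.2.2 (by decide +kernel)) (p63 h).2.1.1.1.1.2.2 (by decide +kernel)) (ndF (ndF (ndF (ndF (ndF TOK.nil TOK.nil (p63 h).2.1.1.2.2.1.1 (by decide +kernel)) TOK.nil (p63 h).2.1.1.2.2.1.2 (by decide +kernel)) (ndF TOK.nil TOK.nil (p63 h).2.1.1.2.2.2.2.1 (by decide +kernel)) (p63 h).2.1.1.2.2.2.1 (by decide +kernel)) (ndF (ndF (ndF TOK.nil TOK.nil (p63 h).2.1.2.1.1.1.1 (by decide +kernel)) TOK.nil (p63 h).2.1.2.1.1.1.2 (by decide +kernel)) (ndF TOK.nil TOK.nil (p63 h).2.1.2.1.1.2.2 (by decide +kernel)) (p63 h).2.1.2.1.1.2.1 (by decide +kernel)) (p63 h).2.1.1.2.2.2.2.2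 (by decide +kernel)) (ndF (ndF (ndF (ndF TOK.nil TOK.nil (p63 h).2.1.2.1.2.1.2 (by decide +kernel)) TOK.nil (p63 h).2.1.2.1.2.2.1 (by decide +kernel)) (ndF TOK.nil TOK.nil (p63 h).2.1.2.1.2.2.2.2 (by decide +kernel)) (p63 h).2.1.2.1.2.2.2.1 (by decide +kernel)) (ndF (ndF (ndF TOK.nil TOK.nil (p63 h).2.1.2.2.1.1.2 (by decide +kernel)) TOK.nil (p63 h).2.1.2.2.1.2.1 (by decide +kernel)) (ndF TOK.nil TOK.nil (p63 h).2.1.2.2.1.2.2.2 (by decide +kernel)) (p63 h).2.1.2.2.1.2.2.1 (by decide +kernel)) (p63 h).2.1.2.2.1.1.1 (by decide +kernel)) (p63 h).2.1.2.1.2.1.1 (by decide +kernel)) (p63 h).2.1.1.2.1.2.2.2 (by decide +kernel)) (ndF (ndF (ndF (ndF (ndF (ndF TOK.nil TOK.nil (p63 h).2.1.2.2.2.1.2 (by decide +kernel)) TOK.nil (p63 h).2.1.2.2.2.2.1 (by decide +kernel)) (ndF TOK.nil TOK.nil (p63 h).2.1.2.2.2.2.2.2 (by decide +kernel))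 (p63 h).2.1.2.2.2.2.2.1 (by decide +kernel)) (ndF (ndF (ndF TOK.nil TOK.nil (p63 h).2.2.1.1.1.1.2 (by decide +kernel)) TOK.nil (p63 h).2.2.1.1.1.2.1 (by decide +kernel)) (ndF TOK.nil TOK.nil (p63 h).2.2.1.1.2.1.1 (by decide +kernel)) (p63 h).2.2.1.1.1.2.2 (by decide +kernel)) (p63 h).2.2.1.1.1.1.1 (by decide +kernel)) (ndF (ndF (ndF (ndF TOK.nil TOK.nil (p63 h).2.2.1.1.2.2.1 (by decide +kernel)) TOK.nil (p63 h).2.2.1.1.2.2.2.1 (by decide +kernel)) (ndF TOK.nil TOK.nil (p63 h).2.2.1.2.1.1.1 (by decide +kernel)) (p63 h).2.2.1.1.2.2.2.2 (by decide +kernel)) (ndF (ndF (ndF TOK.nil TOK.nil (p63 h).2.2.1.2.1.2.1 (by decide +kernel)) TOK.nil (p63 h).2.2.1.2.1.2.2.1 (by decide +kernel)) (ndF TOK.nil TOK.nil (p63 h).2.2.1.2.2.1.1 (by decide +kernel)) (p63 h).2.2.1.2.1.2.2.2 (by decide +kernel)) (p63 h).2.2.1.2.1.1.2 (by decide +kernel))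 (p63 h).2.2.1.1.2.1.2 (by decide +kernel)) (ndF (ndF (ndF (ndF (ndF TOK.nil TOK.nil (p63 h).2.2.1.2.2.2.1 (by decide +kernel)) TOK.nil (p63 h).2.2.1.2.2.2.2.1 (by decide +kernel)) (ndF TOK.nil TOK.nil (p63 h).2.2.2.1.1.1.1 (by decide +kernel)) (p63 h).2.2.1.2.2.2.2.2 (by decide +kernel)) (ndF (ndF (ndF TOK.nil TOK.nil (p63 h).2.2.2.1.1.2.1 (by decide +kernel)) TOK.nil (p63 h).2.2.2.1.1.2.2.1 (by decide +kernel)) (ndF TOK.nil TOK.nil (p63 h).2.2.2.1.2.1.1 (by decide +kernel)) (p63 h).2.2.2.1.1.2.2.2 (by decide +kernel)) (p63 h).2.2.2.1.1.1.2 (by decide +kernel)) (ndF (ndF (ndF (ndF TOK.nil TOK.nil (p63 h).2.2.2.1.2.2.1 (by decide +kernel)) TOK.nil (p63 h).2.2.2.1.2.2.2.1 (by decide +kernel)) (ndF TOK.nil TOK.nil (p63 h).2.2.2.2.1.1.1 (by decide +kernel)) (p63 h).2.2.2.1.2.2.2.2 (by decide +kernel)) (ndF (ndF (ndF TOK.nil TOK.nil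 (p63 h).2.2.2.2.1.2.1 (by decide +kernel)) TOK.nil (p63 h).2.2.2.2.1.2.2.1 (by decide +kernel)) (ndF TOK.nil TOK.nil (p63 h).2.2.2.2.2.1.1 (by decide +kernel)) (p63 h).2.2.2.2.1.2.2.2 (by decide +kernel)) (p63 h).2.2.2.2.1.1.2 (by decide +kernel)) (p63 h).2.2.2.1.2.1.2 (by decide +kernel)) (p63 h).2.2.1.2.2.1.2 (by decide +kernel)) (p63 h).2.1.2.2.2.1.1 (by decide +kernel))

theorem T_20_60_ok (h : RcOK RE.rowE) : T_20_60.OK :=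
  okF (by decide +kernel) (ndF (ndF (ndF (ndF (ndF (ndF (ndF TOK.nil TOK.nil (p63 h).2.2.2.2.2.1.2 (by decide +kernel)) TOK.nil (p63 h).2.2.2.2.2.2.1 (by decide +kernel)) (ndF TOK.nil TOK.nil (p63 h).2.2.2.2.2.2.2.2 (by decide +kernel)) (p63 h).2.2.2.2.2.2.2.1 (by decide +kernel)) (ndF (ndF (ndF TOK.nil TOK.nil (p64 h).1.1.1.1.1.1.2.1 (by decide +kernel)) TOK.nil (p64 h).1.1.1.1.1.1.2.2 (by decide +kernel)) (ndF TOK.nil TOK.nil (p64 h).1.1.1.1.1.2.1.2 (by decide +kernel)) (p64 h).1.1.1.1.1.2.1.1 (by decide +kernel)) (p64 h).1.1.1.1.1.1.1 (by decide +kernel)) (ndF (ndF (ndF (ndF TOK.nil TOK.nil (p64 h).1.1.1.1.1.2.2.2 (by decide +kernel)) TOK.nil (p64 h).1.1.1.1.2.1.1.1 (by decide +kernel)) (ndF TOK.nil TOK.nil (p64 h).1.1.1.1.2.1.2.1 (by decide +kernel)) (p64 h).1.1.1.1.2.1.1.2 (by decide +kernel)) (ndF (ndF (ndF TOK.nil TOK.nil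 (p64 h).1.1.1.1.2.2.1.1 (by decide +kernel)) TOK.nil (p64 h).1.1.1.1.2.2.1.2 (by decide +kernel)) (ndF TOK.nil TOK.nil (p64 h).1.1.1.1.2.2.2.2 (by decide +kernel)) (p64 h).1.1.1.1.2.2.2.1 (by decide +kernel)) (p64 h).1.1.1.1.2.1.2.2 (by decide +kernel)) (p64 h).1.1.1.1.1.2.2.1 (by decide +kernel)) (ndF (ndF (ndF (ndF (ndF TOK.nil TOK.nil (p64 h).1.1.1.2.1.1.1.2 (by decide +kernel)) TOK.nil (p64 h).1.1.1.2.1.1.2.1 (by decide +kernel)) (ndF TOK.nil TOK.nil (p64 h).1.1.1.2.1.2.1.1 (by decide +kernel)) (p64 h).1.1.1.2.1.1.2.2 (by decide +kernel)) (ndF (ndF (ndF TOK.nil TOK.nil (p64 h).1.1.1.2.1.2.2.1 (by decide +kernel)) TOK.nil (p64 h).1.1.1.2.1.2.2.2 (by decide +kernel)) (ndF TOK.nil TOK.nil (p64 h).1.1.1.2.2.1.1.2 (by decide +kernel)) (p64 h).1.1.1.2.2.1.1.1 (by decide +kernel)) (p64 h).1.1.1.2.1.2.1.2 (by decide +kernel))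 (ndF (ndF (ndF (ndF TOK.nil TOK.nil (p64 h).1.1.1.2.2.1.2.2 (by decide +kernel)) TOK.nil (p64 h).1.1.1.2.2.2.1.1 (by decide +kernel)) (ndF TOK.nil TOK.nil (p64 h).1.1.1.2.2.2.2.1 (by decide +kernel)) (p64 h).1.1.1.2.2.2.1.2 (by decide +kernel)) (ndF (ndF (ndF TOK.nil TOK.nil (p64 h).1.1.2.1.1.1.1.1 (by decide +kernel)) TOK.nil (p64 h).1.1.2.1.1.1.1.2 (by decide +kernel)) (ndF TOK.nil TOK.nil (p64 h).1.1.2.1.1.1.2.2 (by decide +kernel)) (p64 h).1.1.2.1.1.1.2.1 (by decide +kernel)) (p64 h).1.1.1.2.2.2.2.2 (by decide +kernel)) (p64 h).1.1.1.2.2.1.2.1 (by decide +kernel)) (p64 h).1.1.1.2.1.1.1.1 (by decide +kernel)) (ndF (ndF (ndF (ndF (ndF (ndF TOK.nil TOK.nil (p64 h).1.1.2.1.1.2.1.2 (by decide +kernel)) TOK.nil (p64 h).1.1.2.1.1.2.2.1 (by decide +kernel)) (ndF TOK.nil TOK.nil (p64 h).1.1.2.1.2.1.1.1 (by decide +kernel)) (p64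 h).1.1.2.1.1.2.2.2 (by decide +kernel)) (ndF (ndF (ndF TOK.nil TOK.nil (p64 h).1.1.2.1.2.1.2.1 (by decide +kernel)) TOK.nil (p64 h).1.1.2.1.2.1.2.2 (by decide +kernel)) (ndF TOK.nil TOK.nil (p64 h).1.1.2.1.2.2.1.2 (by decide +kernel)) (p64 h).1.1.2.1.2.2.1.1 (by decide +kernel)) (p64 h).1.1.2.1.2.1.1.2 (by decide +kernel)) (ndF (ndF (ndF (ndF TOK.nil TOK.nil (p64 h).1.1.2.1.2.2.2.2 (by decide +kernel)) TOK.nil (p64 h).1.1.2.2.1.1.1.1 (by decide +kernel)) (ndF TOK.nil TOK.nil (p64 h).1.1.2.2.1.1.2.1 (by decide +kernel)) (p64 h).1.1.2.2.1.1.1.2 (by decide +kernel)) (ndF (ndF (ndF TOK.nil TOK.nil (p64 h).1.1.2.2.1.2.1.1 (by decide +kernel)) TOK.nil (p64 h).1.1.2.2.1.2.1.2 (by decide +kernel)) (ndF TOK.nil TOK.nil (p64 h).1.1.2.2.1.2.2.2 (by decide +kernel)) (p64 h).1.1.2.2.1.2.2.1 (by decide +kernel)) (p64 h).1.1.2.2.1.1.2.2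 (by decide +kernel)) (p64 h).1.1.2.1.2.2.2.1 (by decide +kernel)) (ndF (ndF (ndF (ndF (ndF TOK.nil TOK.nil (p64 h).1.1.2.2.2.1.1.2 (by decide +kernel)) TOK.nil (p64 h).1.1.2.2.2.1.2.1 (by decide +kernel)) (ndF TOK.nil TOK.nil (p64 h).1.1.2.2.2.2.1.1 (by decide +kernel)) (p64 h).1.1.2.2.2.1.2.2 (by decide +kernel)) (ndF (ndF (ndF TOK.nil TOK.nil (p64 h).1.1.2.2.2.2.2.1 (by decide +kernel)) TOK.nil (p64 h).1.1.2.2.2.2.2.2 (by decide +kernel)) (ndF TOK.nil TOK.nil (p64 h).1.2.1.1.1.1.2.1 (by decide +kernel)) (p64 h).1.2.1.1.1.1.1 (by decide +kernel)) (p64 h).1.1.2.2.2.2.1.2 (by decide +kernel)) (ndF (ndF (ndF (ndF TOK.nil TOK.nil (p64 h).1.2.1.1.1.2.1.1 (by decide +kernel)) TOK.nil (p64 h).1.2.1.1.1.2.1.2 (by decide +kernel)) (ndF TOK.nil TOK.nil (p64 h).1.2.1.1.1.2.2.2 (by decide +kernel)) (p64 h).1.2.1.1.1.2.2.1 (by decide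 +kernel)) (ndF (ndF (ndF TOK.nil TOK.nil (p64 h).1.2.1.1.2.1.1.2 (by decide +kernel)) TOK.nil (p64 h).1.2.1.1.2.1.2.1 (by decide +kernel)) (ndF TOK.nil TOK.nil (p64 h).1.2.1.1.2.2.1.1 (by decide +kernel)) (p64 h).1.2.1.1.2.1.2.2 (by decide +kernel)) (p64 h).1.2.1.1.2.1.1.1 (by decide +kernel)) (p64 h).1.2.1.1.1.1.2.2 (by decide +kernel)) (p64 h).1.1.2.2.2.1.1.1 (by decide +kernel)) (p64 h).1.1.2.1.1.2.1.1 (by decide +kernel))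

theorem T_100_180_ok (h : RcOK RE.rowE) : T_100_180.OK :=
  okF (by decide +kernel) (ndF (ndF (ndF (ndF (ndF (ndF (ndF TOK.nil TOK.nil (p64 h).1.2.1.1.2.2.1.2 (by decide +kernel)) (ndF TOK.nil TOK.nil (p64 h).1.2.1.1.2.2.2.2 (by decide +kernel)) (p64 h).1.2.1.1.2.2.2.1 (by decide +kernel)) (ndF (ndF TOK.nil TOK.nil (p64 h).1.2.1.2.1.1.1.2 (by decide +kernel)) (ndF TOK.nil TOK.nil (p64 h).1.2.1.2.1.1.2.2 (by decide +kernel)) (p64 h).1.2.1.2.1.1.2.1 (by decide +kernel)) (p64 h).1.2.1.2.1.1.1.1 (by decide +kernel)) (ndF (ndF (ndF TOK.nil TOK.nil (p64 h).1.2.1.2.1.2.1.2 (by decide +kernel)) (ndF TOK.nil TOK.nil (p64 h).1.2.1.2.1.2.2.2 (by decide +kernel)) (p64 h).1.2.1.2.1.2.2.1 (by decide +kernel)) (ndF (ndF TOK.nil TOK.nil (p64 h).1.2.1.2.2.1.1.2 (by decide +kernel)) TOK.nil (p64 h).1.2.1.2.2.1.2.1 (by decide +kernel)) (p64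 h).1.2.1.2.2.1.1.1 (by decide +kernel)) (p64 h).1.2.1.2.1.2.1.1 (by decide +kernel)) (ndF (ndF (ndF (ndF TOK.nil TOK.nil (p64 h).1.2.1.2.2.2.1.1 (by decide +kernel)) (ndF TOK.nil TOK.nil (p64 h).1.2.1.2.2.2.2.1 (by decide +kernel)) (p64 h).1.2.1.2.2.2.1.2 (by decide +kernel)) (ndF (ndF TOK.nil TOK.nil (p64 h).1.2.2.1.1.1.1.1 (by decide +kernel)) TOK.nil (p64 h).1.2.2.1.1.1.1.2 (by decide +kernel)) (p64 h).1.2.1.2.2.2.2.2 (by decide +kernel)) (ndF (ndF (ndF TOK.nil TOK.nil (p64 h).1.2.2.1.1.1.2.2 (by decide +kernel)) (ndF TOK.nil TOK.nil (p64 h).1.2.2.1.1.2.1.2 (by decide +kernel)) (p64 h).1.2.2.1.1.2.1.1 (by decide +kernel)) (ndF (ndF TOK.nil TOK.nil (p64 h).1.2.2.1.1.2.2.2 (by decide +kernel)) TOK.nil (p64 h).1.2.2.1.2.1.1.1 (by decide +kernel)) (p64 h).1.2.2.1.1.2.2.1 (by decide +kernel)) (p64 h).1.2.2.1.1.1.2.1 (by decide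 +kernel)) (p64 h).1.2.1.2.2.1.2.2 (by decide +kernel)) (ndF (ndF (ndF (ndF (ndF TOK.nil TOK.nil (p64 h).1.2.2.1.2.1.2.1 (by decide +kernel)) (ndF TOK.nil TOK.nil (p64 h).1.2.2.1.2.2.1.1 (by decide +kernel)) (p64 h).1.2.2.1.2.1.2.2 (by decide +kernel)) (ndF (ndF TOK.nil TOK.nil (p64 h).1.2.2.1.2.2.2.1 (by decide +kernel)) TOK.nil (p64 h).1.2.2.1.2.2.2.2 (by decide +kernel)) (p64 h).1.2.2.1.2.2.1.2 (by decide +kernel)) (ndF (ndF (ndF TOK.nil TOK.nil (p64 h).1.2.2.2.1.1.1.2 (by decide +kernel)) (ndF TOK.nil TOK.nil (p64 h).1.2.2.2.1.1.2.2 (by decide +kernel)) (p64 h).1.2.2.2.1.1.2.1 (by decide +kernel)) (ndF (ndF TOK.nil TOK.nil (p64 h).1.2.2.2.1.2.1.2 (by decide +kernel)) TOK.nil (p64 h).1.2.2.2.1.2.2.1 (by decide +kernel)) (p64 h).1.2.2.2.1.2.1.1 (by decide +kernel)) (p64 h).1.2.2.2.1.1.1.1 (by decide +kernel)) (ndF (ndF (ndF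 (ndF TOK.nil TOK.nil (p64 h).1.2.2.2.2.1.1.1 (by decide +kernel)) (ndF TOK.nil TOK.nil (p64 h).1.2.2.2.2.1.2.1 (by decide +kernel)) (p64 h).1.2.2.2.2.1.1.2 (by decide +kernel)) (ndF (ndF TOK.nil TOK.nil (p64 h).1.2.2.2.2.2.1.1 (by decide +kernel)) TOK.nil (p64 h).1.2.2.2.2.2.1.2 (by decide +kernel)) (p64 h).1.2.2.2.2.1.2.2 (by decide +kernel)) (ndF (ndF (ndF TOK.nil TOK.nil (p64 h).1.2.2.2.2.2.2.2 (by decide +kernel)) (ndF TOK.nil TOK.nil (p64 h).2.1.1.1.1.1.2.1 (by decide +kernel)) (p64 h).2.1.1.1.1.1.1 (by decide +kernel)) (ndF (ndF TOK.nil TOK.nil (p64 h).2.1.1.1.1.2.1.1 (by decide +kernel)) TOK.nil (p64 h).2.1.1.1.1.2.1.2 (by decide +kernel)) (p64 h).2.1.1.1.1.1.2.2 (by decide +kernel)) (p64 h).1.2.2.2.2.2.2.1 (by decide +kernel)) (p64 h).1.2.2.2.1.2.2.2 (by decide +kernel)) (p64 h).1.2.2.1.2.1.1.2 (by decide +kernel))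 (ndF (ndF (ndF (ndF (ndF (ndF TOK.nil TOK.nil (p64 h).2.1.1.1.1.2.2.2 (by decide +kernel)) (ndF TOK.nil TOK.nil (p64 h).2.1.1.1.2.1.1.2 (by decide +kernel)) (p64 h).2.1.1.1.2.1.1.1 (by decide +kernel)) (ndF (ndF TOK.nil TOK.nil (p64 h).2.1.1.1.2.1.2.2 (by decide +kernel)) TOK.nil (p64 h).2.1.1.1.2.2.1.1 (by decide +kernel)) (p64 h).2.1.1.1.2.1.2.1 (by decide +kernel)) (ndF (ndF (ndF TOK.nil TOK.nil (p64 h).2.1.1.1.2.2.2.1 (by decide +kernel)) (ndF TOK.nil TOK.nil (p64 h).2.1.1.2.1.1.1.1 (by decide +kernel)) (p64 h).2.1.1.1.2.2.2.2 (by decide +kernel)) (ndF (ndF TOK.nil TOK.nil (p64 h).2.1.1.2.1.1.2.1 (by decide +kernel)) TOK.nil (p64 h).2.1.1.2.1.1.2.2 (by decide +kernel)) (p64 h).2.1.1.2.1.1.1.2 (by decide +kernel)) (p64 h).2.1.1.1.2.2.1.2 (by decide +kernel)) (ndF (ndF (ndF (ndF TOK.nil TOK.nil (p64 h).2.1.1.2.1.2.1.2 (by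 decide +kernel)) (ndF TOK.nil TOK.nil (p64 h).2.1.1.2.1.2.2.2 (by decide +kernel)) (p64 h).2.1.1.2.1.2.2.1 (by decide +kernel)) (ndF (ndF TOK.nil TOK.nil (p64 h).2.1.1.2.2.1.1.2 (by decide +kernel)) TOK.nil (p64 h).2.1.1.2.2.1.2.1 (by decide +kernel)) (p64 h).2.1.1.2.2.1.1.1 (by decide +kernel)) (ndF (ndF (ndF TOK.nil TOK.nil (p64 h).2.1.1.2.2.2.1.1 (by decide +kernel)) (ndF TOK.nil TOK.nil (p64 h).2.1.1.2.2.2.2.1 (by decide +kernel)) (p64 h).2.1.1.2.2.2.1.2 (by decide +kernel)) (ndF (ndF TOK.nil TOK.nil (p64 h).2.1.2.1.1.1.1.1 (by decide +kernel)) TOK.nil (p64 h).2.1.2.1.1.1.1.2 (by decide +kernel)) (p64 h).2.1.1.2.2.2.2.2 (by decide +kernel)) (p64 h).2.1.1.2.2.1.2.2 (by decide +kernel)) (p64 h).2.1.1.2.1.2.1.1 (by decide +kernel)) (ndF (ndF (ndF (ndF (ndF TOK.nil TOK.nil (p64 h).2.1.2.1.1.1.2.2 (by decide +kernel)) (ndF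 TOK.nil TOK.nil (p64 h).2.1.2.1.1.2.1.2 (by decide +kernel)) (p64 h).2.1.2.1.1.2.1.1 (by decide +kernel)) (ndF (ndF TOK.nil TOK.nil (p64 h).2.1.2.1.1.2.2.2 (by decide +kernel)) TOK.nil (p64 h).2.1.2.1.2.1.1.1 (by decide +kernel)) (p64 h).2.1.2.1.1.2.2.1 (by decide +kernel)) (ndF (ndF (ndF TOK.nil TOK.nil (p64 h).2.1.2.1.2.1.2.1 (by decide +kernel)) (ndF TOK.nil TOK.nil (p64 h).2.1.2.1.2.2.1.1 (by decide +kernel)) (p64 h).2.1.2.1.2.1.2.2 (by decide +kernel)) (ndF (ndF TOK.nil TOK.nil (p64 h).2.1.2.1.2.2.2.1 (by decide +kernel)) TOK.nil (p64 h).2.1.2.1.2.2.2.2 (by decide +kernel)) (p64 h).2.1.2.1.2.2.1.2 (by decide +kernel)) (p64 h).2.1.2.1.2.1.1.2 (by decide +kernel)) (ndF (ndF (ndF (ndF TOK.nil TOK.nil (p64 h).2.1.2.2.1.1.1.2 (by decide +kernel)) (ndF TOK.nil TOK.nil (p64 h).2.1.2.2.1.1.2.2 (by decide +kernel)) (p64 h).2.1.2.2.1.1.2.1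 (by decide +kernel)) (ndF (ndF TOK.nil TOK.nil (p64 h).2.1.2.2.1.2.1.2 (by decide +kernel)) TOK.nil (p64 h).2.1.2.2.1.2.2.1 (by decide +kernel)) (p64 h).2.1.2.2.1.2.1.1 (by decide +kernel)) (ndF (ndF (ndF TOK.nil TOK.nil (p64 h).2.1.2.2.2.1.1.1 (by decide +kernel)) (ndF TOK.nil TOK.nil (p64 h).2.1.2.2.2.1.2.1 (by decide +kernel)) (p64 h).2.1.2.2.2.1.1.2 (by decide +kernel)) (ndF (ndF TOK.nil TOK.nil (p64 h).2.1.2.2.2.2.1.1 (by decide +kernel)) TOK.nil (p64 h).2.1.2.2.2.2.1.2 (by decide +kernel)) (p64 h).2.1.2.2.2.1.2.2 (by decide +kernel)) (p64 h).2.1.2.2.1.2.2.2 (by decide +kernel)) (p64 h).2.1.2.2.1.1.1.1 (by decide +kernel)) (p64 h).2.1.2.1.1.1.2.1 (by decide +kernel)) (p64 h).2.1.1.1.1.2.2.1 (by decide +kernel))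

theorem R_40_100_ok (h : RcOK RE.rowE) : R_40_100.OK :=
  okF (by decide +kernel) (ndF (ndF (ndF (ndF (ndF (ndF (ndF TOK.nil TOK.nil (p64 h).2.1.2.2.2.2.2.1 (by decide +kernel)) TOK.nil (p64 h).2.1.2.2.2.2.2.2 (by decide +kernel)) (ndF TOK.nil TOK.nil (p64 h).2.2.1.1.1.1.2.1 (by decide +kernel)) (p64 h).2.2.1.1.1.1.1 (by decide +kernel)) (ndF (ndF (ndF TOK.nil TOK.nil (p64 h).2.2.1.1.1.2.1.1 (by decide +kernel)) TOK.nil (p64 h).2.2.1.1.1.2.1.2 (by decide +kernel)) (ndF TOK.nil TOK.nil (p64 h).2.2.1.1.1.2.2.2 (by decide +kernel)) (p64 h).2.2.1.1.1.2.2.1 (by decide +kernel)) (p64 h).2.2.1.1.1.1.2.2 (by decide +kernel)) (ndF (ndF (ndF (ndF TOK.nil TOK.nil (p64 h).2.2.1.1.2.1.1.2 (by decide +kernel)) TOK.nil (p64 h).2.2.1.1.2.1.2.1 (by decide +kernel)) (ndF TOK.nil TOK.nil (p64 h).2.2.1.1.2.2.1.1 (by decide +kernel)) (p64 h).2.2.1.1.2.1.2.2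 (by decide +kernel)) (ndF (ndF TOK.nil TOK.nil (p64 h).2.2.1.1.2.2.2.1 (by decide +kernel)) (ndF TOK.nil TOK.nil (p64 h).2.2.1.2.1.1.1.1 (by decide +kernel)) (p64 h).2.2.1.1.2.2.2.2 (by decide +kernel)) (p64 h).2.2.1.1.2.2.1.2 (by decide +kernel)) (p64 h).2.2.1.1.2.1.1.1 (by decide +kernel)) (ndF (ndF (ndF (ndF (ndF TOK.nil TOK.nil (p64 h).2.2.1.2.1.1.2.1 (by decide +kernel)) TOK.nil (p64 h).2.2.1.2.1.1.2.2 (by decide +kernel)) (ndF TOK.nil TOK.nil (p64 h).2.2.1.2.1.2.1.2 (by decide +kernel)) (p64 h).2.2.1.2.1.2.1.1 (by decide +kernel)) (ndF (ndF (ndF TOK.nil TOK.nil (p64 h).2.2.1.2.1.2.2.2 (by decide +kernel)) TOK.nil (p64 h).2.2.1.2.2.1.1.1 (by decide +kernel)) (ndF TOK.nil TOK.nil (p64 h).2.2.1.2.2.1.2.1 (by decide +kernel)) (p64 h).2.2.1.2.2.1.1.2 (by decide +kernel)) (p64 h).2.2.1.2.1.2.2.1 (by decide +kernel)) (ndF (ndF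 (ndF (ndF TOK.nil TOK.nil (p64 h).2.2.1.2.2.2.1.1 (by decide +kernel)) TOK.nil (p64 h).2.2.1.2.2.2.1.2 (by decide +kernel)) (ndF TOK.nil TOK.nil (p64 h).2.2.1.2.2.2.2.2 (by decide +kernel)) (p64 h).2.2.1.2.2.2.2.1 (by decide +kernel)) (ndF (ndF TOK.nil TOK.nil (p64 h).2.2.2.1.1.1.1.2 (by decide +kernel)) (ndF TOK.nil TOK.nil (p64 h).2.2.2.1.1.1.2.2 (by decide +kernel)) (p64 h).2.2.2.1.1.1.2.1 (by decide +kernel)) (p64 h).2.2.2.1.1.1.1.1 (by decide +kernel)) (p64 h).2.2.1.2.2.1.2.2 (by decide +kernel)) (p64 h).2.2.1.2.1.1.1.2 (by decide +kernel)) (ndF (ndF (ndF (ndF (ndF (ndF TOK.nil TOK.nil (p64 h).2.2.2.1.1.2.1.2 (by decide +kernel)) TOK.nil (p64 h).2.2.2.1.1.2.2.1 (by decide +kernel)) (ndF TOK.nil TOK.nil (p64 h).2.2.2.1.2.1.1.1 (by decide +kernel)) (p64 h).2.2.2.1.1.2.2.2 (by decide +kernel)) (ndF (ndF (ndF TOK.nil TOK.nil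 (p64 h).2.2.2.1.2.1.2.1 (by decide +kernel)) TOK.nil (p64 h).2.2.2.1.2.1.2.2 (by decide +kernel)) (ndF TOK.nil TOK.nil (p64 h).2.2.2.1.2.2.1.2 (by decide +kernel)) (p64 h).2.2.2.1.2.2.1.1 (by decide +kernel)) (p64 h).2.2.2.1.2.1.1.2 (by decide +kernel)) (ndF (ndF (ndF (ndF TOK.nil TOK.nil (p64 h).2.2.2.1.2.2.2.2 (by decide +kernel)) TOK.nil (p64 h).2.2.2.2.1.1.1.1 (by decide +kernel)) (ndF TOK.nil TOK.nil (p64 h).2.2.2.2.1.1.2.1 (by decide +kernel)) (p64 h).2.2.2.2.1.1.1.2 (by decide +kernel)) (ndF (ndF TOK.nil TOK.nil (p64 h).2.2.2.2.1.2.1.1 (by decide +kernel)) (ndF TOK.nil TOK.nil (p64 h).2.2.2.2.1.2.2.1 (by decide +kernel)) (p64 h).2.2.2.2.1.2.1.2 (by decide +kernel)) (p64 h).2.2.2.2.1.1.2.2 (by decide +kernel)) (p64 h).2.2.2.1.2.2.2.1 (by decide +kernel)) (ndF (ndF (ndF (ndF (ndF TOK.nil TOK.nil (p64 h).2.2.2.2.2.1.1.1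 (by decide +kernel)) TOK.nil (p64 h).2.2.2.2.2.1.1.2 (by decide +kernel)) (ndF TOK.nil TOK.nil (p64 h).2.2.2.2.2.1.2.2 (by decide +kernel)) (p64 h).2.2.2.2.2.1.2.1 (by decide +kernel)) (ndF (ndF (ndF TOK.nil TOK.nil (p64 h).2.2.2.2.2.2.1.2 (by decide +kernel)) TOK.nil (p64 h).2.2.2.2.2.2.2.1 (by decide +kernel)) (ndF TOK.nil TOK.nil (p65 h).1.1.1.1.1.1.1 (by decide +kernel)) (p64 h).2.2.2.2.2.2.2.2 (by decide +kernel)) (p64 h).2.2.2.2.2.2.1.1 (by decide +kernel)) (ndF (ndF (ndF (ndF TOK.nil TOK.nil (p65 h).1.1.1.1.1.2.1 (by decide +kernel)) TOK.nil (p65 h).1.1.1.1.1.2.2 (by decide +kernel)) (ndF TOK.nil TOK.nil (p65 h).1.1.1.1.2.1.2 (by decide +kernel)) (p65 h).1.1.1.1.2.1.1 (by decide +kernel)) (ndF (ndF TOK.nil TOK.nil (p65 h).1.1.1.1.2.2.2 (by decide +kernel)) (ndF TOK.nil TOK.nil (p65 h).1.1.1.2.1.1.2 (by decide +kernel))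 (p65 h).1.1.1.2.1.1.1 (by decide +kernel)) (p65 h).1.1.1.1.2.2.1 (by decide +kernel)) (p65 h).1.1.1.1.1.1.2 (by decide +kernel)) (p64 h).2.2.2.2.1.2.2.2 (by decide +kernel)) (p64 h).2.2.2.1.1.2.1.1 (by decide +kernel))

theorem R_80_140_ok (h : RcOK RE.rowE) : R_80_140.OK :=
  okF (by decide +kernel) (ndF (ndF (ndF (ndF (ndF (ndF (ndF TOK.nil TOK.nil (p65 h).1.1.1.2.1.2.1 (by decide +kernel)) TOK.nil (p65 h).1.1.1.2.1.2.2 (by decide +kernel)) (ndF (ndF TOK.nil TOK.nil (p65 h).1.1.1.2.2.1.2 (by decide +kernel)) TOK.nil (p65 h).1.1.1.2.2.2.1 (by decide +kernel)) (p65 h).1.1.1.2.2.1.1 (by decide +kernel)) (ndF (ndF (ndF TOK.nil TOK.nil (p65 h).1.1.1.2.2.2.2.2 (by decide +kernel)) TOK.nil (p65 h).1.1.2.1.1.1.1 (by decide +kernel)) (ndF (ndF TOK.nil TOK.nil (p65 h).1.1.2.1.1.2.1 (by decide +kernel)) TOK.nil (p65 h).1.1.2.1.1.2.2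 (by decide +kernel)) (p65 h).1.1.2.1.1.1.2 (by decide +kernel)) (p65 h).1.1.1.2.2.2.2.1 (by decide +kernel)) (ndF (ndF (ndF (ndF TOK.nil TOK.nil (p65 h).1.1.2.1.2.1.2 (by decide +kernel)) TOK.nil (p65 h).1.1.2.1.2.2.1 (by decide +kernel)) (ndF (ndF TOK.nil TOK.nil (p65 h).1.1.2.1.2.2.2.2 (by decide +kernel)) TOK.nil (p65 h).1.1.2.2.1.1.1 (by decide +kernel)) (p65 h).1.1.2.1.2.2.2.1 (by decide +kernel)) (ndF (ndF (ndF TOK.nil TOK.nil (p65 h).1.1.2.2.1.2.1 (by decide +kernel)) TOK.nil (p65 h).1.1.2.2.1.2.2 (by decide +kernel)) (ndF (ndF TOK.nil TOK.nil (p65 h).1.1.2.2.2.1.2 (by decide +kernel)) TOK.nil (p65 h).1.1.2.2.2.2.1 (by decide +kernel)) (p65 h).1.1.2.2.2.1.1 (by decide +kernel)) (p65 h).1.1.2.2.1.1.2 (by decide +kernel)) (p65 h).1.1.2.1.2.1.1 (by decide +kernel)) (ndF (ndF (ndF (ndF (ndF TOK.nil TOK.nil (p65 h).1.1.2.2.2.2.2.2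 (by decide +kernel)) TOK.nil (p65 h).1.2.1.1.1.1.1 (by decide +kernel)) (ndF (ndF TOK.nil TOK.nil (p65 h).1.2.1.1.1.2.1 (by decide +kernel)) TOK.nil (p65 h).1.2.1.1.1.2.2 (by decide +kernel)) (p65 h).1.2.1.1.1.1.2 (by decide +kernel)) (ndF (ndF (ndF TOK.nil TOK.nil (p65 h).1.2.1.1.2.1.2 (by decide +kernel)) TOK.nil (p65 h).1.2.1.1.2.2.1 (by decide +kernel)) (ndF (ndF TOK.nil TOK.nil (p65 h).1.2.1.2.1.1.1 (by decide +kernel)) TOK.nil (p65 h).1.2.1.2.1.1.2 (by decide +kernel)) (p65 h).1.2.1.1.2.2.2 (by decide +kernel)) (p65 h).1.2.1.1.2.1.1 (by decide +kernel)) (ndF (ndF (ndF (ndF TOK.nil TOK.nil (p65 h).1.2.1.2.1.2.2 (by decide +kernel)) TOK.nil (p65 h).1.2.1.2.2.1.1 (by decide +kernel)) (ndF (ndF TOK.nil TOK.nil (p65 h).1.2.1.2.2.2.1 (by decide +kernel)) TOK.nil (p65 h).1.2.1.2.2.2.2.1 (by decide +kernel)) (p65 h).1.2.1.2.2.1.2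 (by decide +kernel)) (ndF (ndF (ndF TOK.nil TOK.nil (p65 h).1.2.2.1.1.1.1 (by decide +kernel)) TOK.nil (p65 h).1.2.2.1.1.1.2 (by decide +kernel)) (ndF TOK.nil TOK.nil (p65 h).1.2.2.1.1.2.2 (by decide +kernel)) (p65 h).1.2.2.1.1.2.1 (by decide +kernel)) (p65 h).1.2.1.2.2.2.2.2 (by decide +kernel)) (p65 h).1.2.1.2.1.2.1 (by decide +kernel)) (p65 h).1.1.2.2.2.2.2.1 (by decide +kernel)) (ndF (ndF (ndF (ndF (ndF (ndF TOK.nil TOK.nil (p65 h).1.2.2.1.2.1.2 (by decide +kernel)) TOK.nil (p65 h).1.2.2.1.2.2.1 (by decide +kernel)) (ndF (ndF TOK.nil TOK.nil (p65 h).1.2.2.1.2.2.2.2 (by decide +kernel)) TOK.nil (p65 h).1.2.2.2.1.1.1 (by decide +kernel)) (p65 h).1.2.2.1.2.2.2.1 (by decide +kernel)) (ndF (ndF (ndF TOK.nil TOK.nil (p65 h).1.2.2.2.1.2.1 (by decide +kernel)) TOK.nil (p65 h).1.2.2.2.1.2.2 (by decide +kernel)) (ndF (ndF TOK.nil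 TOK.nil (p65 h).1.2.2.2.2.1.2 (by decide +kernel)) TOK.nil (p65 h).1.2.2.2.2.2.1 (by decide +kernel)) (p65 h).1.2.2.2.2.1.1 (by decide +kernel)) (p65 h).1.2.2.2.1.1.2 (by decide +kernel)) (ndF (ndF (ndF (ndF TOK.nil TOK.nil (p65 h).1.2.2.2.2.2.2.2 (by decide +kernel)) TOK.nil (p65 h).2.1.1.1.1.1.1 (by decide +kernel)) (ndF (ndF TOK.nil TOK.nil (p65 h).2.1.1.1.1.2.1 (by decide +kernel)) TOK.nil (p65 h).2.1.1.1.1.2.2 (by decide +kernel)) (p65 h).2.1.1.1.1.1.2 (by decide +kernel)) (ndF (ndF (ndF TOK.nil TOK.nil (p65 h).2.1.1.1.2.1.2 (by decide +kernel)) TOK.nil (p65 h).2.1.1.1.2.2.1 (by decide +kernel)) (ndF (ndF TOK.nil TOK.nil (p65 h).2.1.1.2.1.1.1 (by decide +kernel)) TOK.nil (p65 h).2.1.1.2.1.1.2 (by decide +kernel)) (p65 h).2.1.1.1.2.2.2 (by decide +kernel)) (p65 h).2.1.1.1.2.1.1 (by decide +kernel)) (p65 h).1.2.2.2.2.2.2.1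 (by decide +kernel)) (ndF (ndF (ndF (ndF (ndF TOK.nil TOK.nil (p65 h).2.1.1.2.1.2.2 (by decide +kernel)) TOK.nil (p65 h).2.1.1.2.2.1.1 (by decide +kernel)) (ndF (ndF TOK.nil TOK.nil (p65 h).2.1.1.2.2.2.1 (by decide +kernel)) TOK.nil (p65 h).2.1.1.2.2.2.2.1 (by decide +kernel)) (p65 h).2.1.1.2.2.1.2 (by decide +kernel)) (ndF (ndF (ndF TOK.nil TOK.nil (p65 h).2.1.2.1.1.1.1 (by decide +kernel)) TOK.nil (p65 h).2.1.2.1.1.1.2 (by decide +kernel)) (ndF (ndF TOK.nil TOK.nil (p65 h).2.1.2.1.1.2.2 (by decide +kernel)) TOK.nil (p65 h).2.1.2.1.2.1.1 (by decide +kernel)) (p65 h).2.1.2.1.1.2.1 (by decide +kernel)) (p65 h).2.1.1.2.2.2.2.2 (by decide +kernel)) (ndF (ndF (ndF (ndF TOK.nil TOK.nil (p65 h).2.1.2.1.2.2.1 (by decide +kernel)) TOK.nil (p65 h).2.1.2.1.2.2.2.1 (by decide +kernel)) (ndF (ndF TOK.nil TOK.nil (p65 h).2.1.2.2.1.1.1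 (by decide +kernel)) TOK.nil (p65 h).2.1.2.2.1.1.2 (by decide +kernel)) (p65 h).2.1.2.1.2.2.2.2 (by decide +kernel)) (ndF (ndF (ndF TOK.nil TOK.nil (p65 h).2.1.2.2.1.2.2 (by decide +kernel)) TOK.nil (p65 h).2.1.2.2.2.1.1 (by decide +kernel)) (ndF TOK.nil TOK.nil (p65 h).2.1.2.2.2.2.1 (by decide +kernel)) (p65 h).2.1.2.2.2.1.2 (by decide +kernel)) (p65 h).2.1.2.2.1.2.1 (by decide +kernel)) (p65 h).2.1.2.1.2.1.2 (by decide +kernel)) (p65 h).2.1.1.2.1.2.1 (by decide +kernel)) (p65 h).1.2.2.1.2.1.1 (by decide +kernel))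


end TB
end Pool.Agent.Lib.MP_6947cd_al
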