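import Pool.Agent.Lib.MP_6947cd_al.TB.P65
import Pool.Agent.Lib.MP_6947cd_al.TB.P66
import Pool.Agent.Lib.MP_6947cd_al.TB.P67
import Pool.Agent.Lib.MP_6947cd_al.TB.P68
import Pool.Agent.Lib.MP_6947cd_al.TB.P69
import Pool.Agent.Lib.MP_6947cd_al.TB.P70
import Pool.Agent.Lib.MP_6947cd_al.TB.P71

/-!
Problem MP_6947cd_al (Chollet).  THE FAMILIES OF TABLES ARE CORRECT, part 19.
-/

set_option autoImplicit false
set_option maxHeartbeats 0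
set_option maxRecDepth 100000
set_option linter.all false

namespace Pool.Agent.Lib.MP_6947cd_al
namespace TB

open Ent Ent.Pk Fr Fr.WT B1 PkA PkA.TF

theorem R_60_100_180_ok (h : RcOK RE.rowE) : R_60_100_180.OK :=
  okF (by decide +kernel) (ndF (ndF (ndF (ndF (ndF (ndF (ndF TOK.nil TOK.nil (p65 h).2.1.2.2.2.2.2.1 (by decide +kernel)) TOK.nil (p65 h).2.1.2.2.2.2.2.2 (by decide +kernel)) (ndF TOK.nil TOK.nil (p65 h).2.2.1.1.1.1.2 (by decide +kernel)) (p65 h).2.2.1.1.1.1.1 (by decide +kernel)) (ndF (ndF TOK.nil TOK.nil (p65 h).2.2.1.1.1.2.2 (by decide +kernel)) (ndF TOK.nil TOK.nil (p65 h).2.2.1.1.2.1.2 (by decide +kernel)) (p65 h).2.2.1.1.2.1.1 (by decide +kernel)) (p65 h).2.2.1.1.1.2.1 (by decide +kernel)) (ndF (ndF (ndF (ndF TOK.nil TOK.nil (p65 h).2.2.1.1.2.2.2.1 (by decide +kernel)) TOK.nil (p65 h).2.2.1.1.2.2.2.2 (by decide +kernel))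 (ndF TOK.nil TOK.nil (p65 h).2.2.1.2.1.1.2 (by decide +kernel)) (p65 h).2.2.1.2.1.1.1 (by decide +kernel)) (ndF (ndF TOK.nil TOK.nil (p65 h).2.2.1.2.1.2.2 (by decide +kernel)) (ndF TOK.nil TOK.nil (p65 h).2.2.1.2.2.1.2 (by decide +kernel)) (p65 h).2.2.1.2.2.1.1 (by decide +kernel)) (p65 h).2.2.1.2.1.2.1 (by decide +kernel)) (p65 h).2.2.1.1.2.2.1 (by decide +kernel)) (ndF (ndF (ndF (ndF (ndF TOK.nil TOK.nil (p65 h).2.2.1.2.2.2.2.1 (by decide +kernel)) TOK.nil (p65 h).2.2.1.2.2.2.2.2 (by decide +kernel)) (ndF TOK.nil TOK.nil (p65 h).2.2.2.1.1.1.2 (by decide +kernel)) (p65 h).2.2.2.1.1.1.1 (by decide +kernel)) (ndF (ndF TOK.nil TOK.nil (p65 h).2.2.2.1.1.2.2 (by decide +kernel)) (ndF TOK.nil TOK.nil (p65 h).2.2.2.1.2.1.2 (by decide +kernel)) (p65 h).2.2.2.1.2.1.1 (by decide +kernel)) (p65 h).2.2.2.1.1.2.1 (by decide +kernel)) (ndF (ndF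 (ndF (ndF TOK.nil TOK.nil (p65 h).2.2.2.1.2.2.2.1 (by decide +kernel)) TOK.nil (p65 h).2.2.2.1.2.2.2.2 (by decide +kernel)) (ndF TOK.nil TOK.nil (p65 h).2.2.2.2.1.1.2 (by decide +kernel)) (p65 h).2.2.2.2.1.1.1 (by decide +kernel)) (ndF (ndF TOK.nil TOK.nil (p65 h).2.2.2.2.1.2.2 (by decide +kernel)) (ndF TOK.nil TOK.nil (p65 h).2.2.2.2.2.1.2 (by decide +kernel)) (p65 h).2.2.2.2.2.1.1 (by decide +kernel)) (p65 h).2.2.2.2.1.2.1 (by decide +kernel)) (p65 h).2.2.2.1.2.2.1 (by decide +kernel)) (p65 h).2.2.1.2.2.2.1 (by decide +kernel)) (ndF (ndF (ndF (ndF (ndF (ndF TOK.nil TOK.nil (p65 h).2.2.2.2.2.2.2.1 (by decide +kernel)) TOK.nil (p65 h).2.2.2.2.2.2.2.2 (by decide +kernel)) (ndF TOK.nil TOK.nil (p66 h).1.1.1.1.1.2 (by decide +kernel)) (p66 h).1.1.1.1.1.1 (by decide +kernel)) (ndF (ndF TOK.nil TOK.nil (p66 h).1.1.1.1.2.2 (by decide +kernel))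 (ndF TOK.nil TOK.nil (p66 h).1.1.1.2.1.2 (by decide +kernel)) (p66 h).1.1.1.2.1.1 (by decide +kernel)) (p66 h).1.1.1.1.2.1 (by decide +kernel)) (ndF (ndF (ndF (ndF TOK.nil TOK.nil (p66 h).1.1.1.2.2.2 (by decide +kernel)) TOK.nil (p66 h).1.1.2.1.1.1 (by decide +kernel)) (ndF TOK.nil TOK.nil (p66 h).1.1.2.1.2.1 (by decide +kernel)) (p66 h).1.1.2.1.1.2 (by decide +kernel)) (ndF (ndF TOK.nil TOK.nil (p66 h).1.1.2.2.1.1 (by decide +kernel)) (ndF TOK.nil TOK.nil (p66 h).1.1.2.2.2.1 (by decide +kernel)) (p66 h).1.1.2.2.1.2 (by decide +kernel)) (p66 h).1.1.2.1.2.2 (by decide +kernel)) (p66 h).1.1.1.2.2.1 (by decide +kernel)) (ndF (ndF (ndF (ndF (ndF TOK.nil TOK.nil (p66 h).1.1.2.2.2.2.2 (by decide +kernel)) TOK.nil (p66 h).1.2.1.1.1.1 (by decide +kernel)) (ndF TOK.nil TOK.nil (p66 h).1.2.1.1.2.1 (by decide +kernel)) (p66 h).1.2.1.1.1.2 (by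 decide +kernel)) (ndF (ndF TOK.nil TOK.nil (p66 h).1.2.1.2.1.1 (by decide +kernel)) (ndF TOK.nil TOK.nil (p66 h).1.2.1.2.2.1 (by decide +kernel)) (p66 h).1.2.1.2.1.2 (by decide +kernel)) (p66 h).1.2.1.1.2.2 (by decide +kernel)) (ndF (ndF (ndF (ndF TOK.nil TOK.nil (p66 h).1.2.2.1.1.1 (by decide +kernel)) TOK.nil (p66 h).1.2.2.1.1.2 (by decide +kernel)) (ndF TOK.nil TOK.nil (p66 h).1.2.2.1.2.2 (by decide +kernel)) (p66 h).1.2.2.1.2.1 (by decide +kernel)) (ndF (ndF TOK.nil TOK.nil (p66 h).1.2.2.2.1.2 (by decide +kernel)) (ndF TOK.nil TOK.nil (p66 h).1.2.2.2.2.2.1 (by decide +kernel)) (p66 h).1.2.2.2.2.1 (by decide +kernel)) (p66 h).1.2.2.2.1.1 (by decide +kernel)) (p66 h).1.2.1.2.2.2 (by decide +kernel)) (p66 h).1.1.2.2.2.2.1 (by decide +kernel)) (p65 h).2.2.2.2.2.2.1 (by decide +kernel))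

theorem R_40_100_160_ok (h : RcOK RE.rowE) : R_40_100_160.OK :=
  okF (by decide +kernel) (ndF (ndF (ndF (ndF (ndF (ndF TOK.nil TOK.nil (p66 h).1.2.2.2.2.2.2 (by decide +kernel)) (ndF TOK.nil TOK.nil (p66 h).2.1.1.1.1.2 (by decide +kernel)) (p66 h).2.1.1.1.1.1 (by decide +kernel)) (ndF (ndF TOK.nil TOK.nil (p66 h).2.1.1.1.2.2 (by decide +kernel)) (ndF TOK.nil TOK.nil (p66 h).2.1.1.2.1.2 (by decide +kernel)) (p66 h).2.1.1.2.1.1 (by decide +kernel)) (p66 h).2.1.1.1.2.1 (by decide +kernel)) (ndF (ndF (ndF TOK.nil TOK.nil (p66 h).2.1.1.2.2.2 (by decide +kernel)) (ndF TOK.nil TOK.nil (p66 h).2.1.2.1.1.2 (by decide +kernel)) (p66 h).2.1.2.1.1.1 (by decide +kernel)) (ndF (ndF TOK.nil TOK.nil (p66 h).2.1.2.1.2.2 (by decide +kernel)) TOK.nil (p66 h).2.1.2.2.1.1 (by decide +kernel)) (p66 h).2.1.2.1.2.1 (by decide +kernel)) (p66 h).2.1.1.2.2.1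 (by decide +kernel)) (ndF (ndF (ndF (ndF TOK.nil TOK.nil (p66 h).2.1.2.2.2.1 (by decide +kernel)) (ndF TOK.nil TOK.nil (p66 h).2.1.2.2.2.2.2 (by decide +kernel)) (p66 h).2.1.2.2.2.2.1 (by decide +kernel)) (ndF (ndF TOK.nil TOK.nil (p66 h).2.2.1.1.1.2 (by decide +kernel)) TOK.nil (p66 h).2.2.1.1.2.1 (by decide +kernel)) (p66 h).2.2.1.1.1.1 (by decide +kernel)) (ndF (ndF (ndF TOK.nil TOK.nil (p66 h).2.2.1.2.1.1 (by decide +kernel)) (ndF TOK.nil TOK.nil (p66 h).2.2.1.2.2.1 (by decide +kernel)) (p66 h).2.2.1.2.1.2 (by decide +kernel)) (ndF (ndF TOK.nil TOK.nil (p66 h).2.2.1.2.2.2.2 (by decide +kernel)) TOK.nil (p66 h).2.2.2.1.1.1 (by decide +kernel)) (p66 h).2.2.1.2.2.2.1 (by decide +kernel)) (p66 h).2.2.1.1.2.2 (by decide +kernel)) (p66 h).2.1.2.2.1.2 (by decide +kernel)) (ndF (ndF (ndF (ndF (ndF TOK.nil TOK.nil (p66 h).2.2.2.1.2.1 (by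 decide +kernel)) (ndF TOK.nil TOK.nil (p66 h).2.2.2.2.1.1 (by decide +kernel)) (p66 h).2.2.2.1.2.2 (by decide +kernel)) (ndF (ndF TOK.nil TOK.nil (p66 h).2.2.2.2.2.1 (by decide +kernel)) TOK.nil (p66 h).2.2.2.2.2.2.1 (by decide +kernel)) (p66 h).2.2.2.2.1.2 (by decide +kernel)) (ndF (ndF (ndF TOK.nil TOK.nil (p67 h).1.1.1.1.1.1.1 (by decide +kernel)) (ndF TOK.nil TOK.nil (p67 h).1.1.1.1.1.1.2.2 (by decide +kernel)) (p67 h).1.1.1.1.1.1.2.1 (by decide +kernel)) (ndF (ndF TOK.nil TOK.nil (p67 h).1.1.1.1.1.2.2.1 (by decide +kernel)) TOK.nil (p67 h).1.1.1.1.1.2.2.2 (by decide +kernel)) (p67 h).1.1.1.1.1.2.1 (by decide +kernel)) (p66 h).2.2.2.2.2.2.2 (by decide +kernel)) (ndF (ndF (ndF (ndF TOK.nil TOK.nil (p67 h).1.1.1.1.2.1.2.1 (by decide +kernel)) (ndF TOK.nil TOK.nil (p67 h).1.1.1.1.2.2.1 (by decide +kernel)) (p67 h).1.1.1.1.2.1.2.2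 (by decide +kernel)) (ndF (ndF TOK.nil TOK.nil (p67 h).1.1.1.1.2.2.2.2 (by decide +kernel)) TOK.nil (p67 h).1.1.1.2.1.1.1 (by decide +kernel)) (p67 h).1.1.1.1.2.2.2.1 (by decide +kernel)) (ndF (ndF (ndF TOK.nil TOK.nil (p67 h).1.1.1.2.1.1.2.2 (by decide +kernel)) (ndF TOK.nil TOK.nil (p67 h).1.1.1.2.1.2.2.1 (by decide +kernel)) (p67 h).1.1.1.2.1.2.1 (by decide +kernel)) (ndF (ndF TOK.nil TOK.nil (p67 h).1.1.1.2.2.1.1 (by decide +kernel)) TOK.nil (p67 h).1.1.1.2.2.1.2.1 (by decide +kernel)) (p67 h).1.1.1.2.1.2.2.2 (by decide +kernel)) (p67 h).1.1.1.2.1.1.2.1 (by decide +kernel)) (p67 h).1.1.1.1.2.1.1 (by decide +kernel)) (p66 h).2.2.2.1.1.2 (by decide +kernel))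

theorem T_140_200_ok (h : RcOK RE.rowE) : T_140_200.OK :=
  okF (by decide +kernel) (ndF (ndF (ndF (ndF (ndF (ndF (ndF TOK.nil TOK.nil (p67 h).1.1.1.2.2.1.2.2 (by decide +kernel)) TOK.nil (p67 h).1.1.1.2.2.2.1.1 (by decide +kernel)) (ndF (ndF TOK.nil TOK.nil (p67 h).1.1.1.2.2.2.2.1 (by decide +kernel)) TOK.nil (p67 h).1.1.1.2.2.2.2.2 (by decide +kernel)) (p67 h).1.1.1.2.2.2.1.2 (by decide +kernel)) (ndF (ndF (ndF TOK.nil TOK.nil (p67 h).1.1.2.1.1.1.2.1 (by decide +kernel)) TOK.nil (p67 h).1.1.2.1.1.1.2.2 (by decide +kernel)) (ndF (ndF TOK.nil TOK.nil (p67 h).1.1.2.1.1.2.2.1 (by decide +kernel)) TOK.nil (p67 h).1.1.2.1.1.2.2.2 (by decide +kernel)) (p67 h).1.1.2.1.1.2.1 (by decide +kernel)) (p67 h).1.1.2.1.1.1.1 (by decide +kernel)) (ndF (ndF (ndF (ndF TOK.nil TOK.nil (p67 h).1.1.2.1.2.1.2.1 (by decide +kernel)) TOK.nil (p67 h).1.1.2.1.2.1.2.2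 (by decide +kernel)) (ndF (ndF TOK.nil TOK.nil (p67 h).1.1.2.1.2.2.1.2 (by decide +kernel)) TOK.nil (p67 h).1.1.2.1.2.2.2.1 (by decide +kernel)) (p67 h).1.1.2.1.2.2.1.1 (by decide +kernel)) (ndF (ndF (ndF TOK.nil TOK.nil (p67 h).1.1.2.2.1.1.1 (by decide +kernel)) TOK.nil (p67 h).1.1.2.2.1.1.2.1 (by decide +kernel)) (ndF TOK.nil TOK.nil (p67 h).1.1.2.2.1.2.1 (by decide +kernel)) (p67 h).1.1.2.2.1.1.2.2 (by decide +kernel)) (p67 h).1.1.2.1.2.2.2.2 (by decide +kernel)) (p67 h).1.1.2.1.2.1.1 (by decide +kernel)) (ndF (ndF (ndF (ndF (ndF TOK.nil TOK.nil (p67 h).1.1.2.2.1.2.2.2 (by decide +kernel)) TOK.nil (p67 h).1.1.2.2.2.1.1 (by decide +kernel)) (ndF (ndF TOK.nil TOK.nil (p67 h).1.1.2.2.2.1.2.2 (by decide +kernel)) TOK.nil (p67 h).1.1.2.2.2.2.1.1 (by decide +kernel)) (p67 h).1.1.2.2.2.1.2.1 (by decide +kernel)) (ndF (ndF (ndF TOK.nil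 TOK.nil (p67 h).1.1.2.2.2.2.2.1 (by decide +kernel)) TOK.nil (p67 h).1.1.2.2.2.2.2.2 (by decide +kernel)) (ndF (ndF TOK.nil TOK.nil (p67 h).1.2.1.1.1.1.2.1 (by decide +kernel)) TOK.nil (p67 h).1.2.1.1.1.1.2.2 (by decide +kernel)) (p67 h).1.2.1.1.1.1.1 (by decide +kernel)) (p67 h).1.1.2.2.2.2.1.2 (by decide +kernel)) (ndF (ndF (ndF (ndF TOK.nil TOK.nil (p67 h).1.2.1.1.1.2.2.1 (by decide +kernel)) TOK.nil (p67 h).1.2.1.1.1.2.2.2 (by decide +kernel)) (ndF (ndF TOK.nil TOK.nil (p67 h).1.2.1.1.2.1.2.1 (by decide +kernel)) TOK.nil (p67 h).1.2.1.1.2.1.2.2 (by decide +kernel)) (p67 h).1.2.1.1.2.1.1 (by decide +kernel)) (ndF (ndF (ndF TOK.nil TOK.nil (p67 h).1.2.1.1.2.2.1.2 (by decide +kernel)) TOK.nil (p67 h).1.2.1.1.2.2.2.1 (by decide +kernel)) (ndF TOK.nil TOK.nil (p67 h).1.2.1.2.1.1.1 (by decide +kernel)) (p67 h).1.2.1.1.2.2.2.2 (by decide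 +kernel)) (p67 h).1.2.1.1.2.2.1.1 (by decide +kernel)) (p67 h).1.2.1.1.1.2.1 (by decide +kernel)) (p67 h).1.1.2.2.1.2.2.1 (by decide +kernel)) (ndF (ndF (ndF (ndF (ndF (ndF TOK.nil TOK.nil (p67 h).1.2.1.2.1.1.2.2 (by decide +kernel)) TOK.nil (p67 h).1.2.1.2.1.2.1 (by decide +kernel)) (ndF (ndF TOK.nil TOK.nil (p67 h).1.2.1.2.1.2.2.2 (by decide +kernel)) TOK.nil (p67 h).1.2.1.2.2.1.1 (by decide +kernel)) (p67 h).1.2.1.2.1.2.2.1 (by decide +kernel)) (ndF (ndF (ndF TOK.nil TOK.nil (p67 h).1.2.1.2.2.1.2.2 (by decide +kernel)) TOK.nil (p67 h).1.2.1.2.2.2.1.1 (by decide +kernel)) (ndF (ndF TOK.nil TOK.nil (p67 h).1.2.1.2.2.2.2.1 (by decide +kernel)) TOK.nil (p67 h).1.2.1.2.2.2.2.2 (by decide +kernel)) (p67 h).1.2.1.2.2.2.1.2 (by decide +kernel)) (p67 h).1.2.1.2.2.1.2.1 (by decide +kernel)) (ndF (ndF (ndF (ndF TOK.nil TOK.nil (p67 h).1.2.2.1.1.1.2.1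 (by decide +kernel)) TOK.nil (p67 h).1.2.2.1.1.1.2.2 (by decide +kernel)) (ndF (ndF TOK.nil TOK.nil (p67 h).1.2.2.1.1.2.2.1 (by decide +kernel)) TOK.nil (p67 h).1.2.2.1.1.2.2.2 (by decide +kernel)) (p67 h).1.2.2.1.1.2.1 (by decide +kernel)) (ndF (ndF (ndF TOK.nil TOK.nil (p67 h).1.2.2.1.2.1.2.1 (by decide +kernel)) TOK.nil (p67 h).1.2.2.1.2.1.2.2 (by decide +kernel)) (ndF TOK.nil TOK.nil (p67 h).1.2.2.1.2.2.1.2 (by decide +kernel)) (p67 h).1.2.2.1.2.2.1.1 (by decide +kernel)) (p67 h).1.2.2.1.2.1.1 (by decide +kernel)) (p67 h).1.2.2.1.1.1.1 (by decide +kernel)) (ndF (ndF (ndF (ndF (ndF TOK.nil TOK.nil (p67 h).1.2.2.1.2.2.2.2 (by decide +kernel)) TOK.nil (p67 h).1.2.2.2.1.1.1 (by decide +kernel)) (ndF (ndF TOK.nil TOK.nil (p67 h).1.2.2.2.1.1.2.2 (by decide +kernel)) TOK.nil (p67 h).1.2.2.2.1.2.1 (by decide +kernel)) (p67 h).1.2.2.2.1.1.2.1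 (by decide +kernel)) (ndF (ndF (ndF TOK.nil TOK.nil (p67 h).1.2.2.2.1.2.2.2 (by decide +kernel)) TOK.nil (p67 h).1.2.2.2.2.1.1 (by decide +kernel)) (ndF TOK.nil TOK.nil (p67 h).1.2.2.2.2.1.2.2 (by decide +kernel)) (p67 h).1.2.2.2.2.1.2.1 (by decide +kernel)) (p67 h).1.2.2.2.1.2.2.1 (by decide +kernel)) (ndF (ndF (ndF (ndF TOK.nil TOK.nil (p67 h).1.2.2.2.2.2.1.2 (by decide +kernel)) TOK.nil (p67 h).1.2.2.2.2.2.2.1 (by decide +kernel)) (ndF (ndF TOK.nil TOK.nil (p67 h).2.1.1.1.1.1.1 (by decide +kernel)) TOK.nil (p67 h).2.1.1.1.1.1.2.1 (by decide +kernel)) (p67 h).1.2.2.2.2.2.2.2 (by decide +kernel)) (ndF (ndF (ndF TOK.nil TOK.nil (p67 h).2.1.1.1.1.2.1 (by decide +kernel)) TOK.nil (p67 h).2.1.1.1.1.2.2.1 (by decide +kernel)) (ndF TOK.nil TOK.nil (p67 h).2.1.1.1.2.1.1 (by decide +kernel)) (p67 h).2.1.1.1.1.2.2.2 (by decide +kernel)) (p67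 h).2.1.1.1.1.1.2.2 (by decide +kernel)) (p67 h).1.2.2.2.2.2.1.1 (by decide +kernel)) (p67 h).1.2.2.1.2.2.2.1 (by decide +kernel)) (p67 h).1.2.1.2.1.1.2.1 (by decide +kernel))

theorem R_60_120_ok (h : RcOK RE.rowE) : R_60_120.OK :=
  okF (by decide +kernel) (ndF (ndF (ndF (ndF (ndF (ndF (ndF TOK.nil TOK.nil (p67 h).2.1.1.1.2.1.2.1 (by decide +kernel)) TOK.nil (p67 h).2.1.1.1.2.1.2.2 (by decide +kernel)) (ndF (ndF TOK.nil TOK.nil (p67 h).2.1.1.1.2.2.2.1 (by decide +kernel)) TOK.nil (p67 h).2.1.1.1.2.2.2.2 (by decide +kernel)) (p67 h).2.1.1.1.2.2.1 (by decide +kernel)) (ndF (ndF (ndF TOK.nil TOK.nil (p67 h).2.1.1.2.1.1.2.1 (by decide +kernel)) TOK.nil (p67 h).2.1.1.2.1.1.2.2 (by decide +kernel)) (ndF (ndF TOK.nil TOK.nil (p67 h).2.1.1.2.1.2.2.1 (by decide +kernel)) TOK.nil (p67 h).2.1.1.2.1.2.2.2 (by decide +kernel)) (p67 h).2.1.1.2.1.2.1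 (by decide +kernel)) (p67 h).2.1.1.2.1.1.1 (by decide +kernel)) (ndF (ndF (ndF (ndF TOK.nil TOK.nil (p67 h).2.1.1.2.2.1.2.1 (by decide +kernel)) TOK.nil (p67 h).2.1.1.2.2.1.2.2 (by decide +kernel)) (ndF (ndF TOK.nil TOK.nil (p67 h).2.1.1.2.2.2.1.2 (by decide +kernel)) TOK.nil (p67 h).2.1.1.2.2.2.2.1 (by decide +kernel)) (p67 h).2.1.1.2.2.2.1.1 (by decide +kernel)) (ndF (ndF (ndF TOK.nil TOK.nil (p67 h).2.1.2.1.1.1.1 (by decide +kernel)) TOK.nil (p67 h).2.1.2.1.1.1.2.1 (by decide +kernel)) (ndF TOK.nil TOK.nil (p67 h).2.1.2.1.1.2.1 (by decide +kernel)) (p67 h).2.1.2.1.1.1.2.2 (by decide +kernel)) (p67 h).2.1.1.2.2.2.2.2 (by decide +kernel)) (p67 h).2.1.1.2.2.1.1 (by decide +kernel)) (ndF (ndF (ndF (ndF (ndF TOK.nil TOK.nil (p67 h).2.1.2.1.1.2.2.2 (by decide +kernel)) TOK.nil (p67 h).2.1.2.1.2.1.1 (by decide +kernel)) (ndF (ndF TOK.nil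 TOK.nil (p67 h).2.1.2.1.2.1.2.2 (by decide +kernel)) TOK.nil (p67 h).2.1.2.1.2.2.1.1 (by decide +kernel)) (p67 h).2.1.2.1.2.1.2.1 (by decide +kernel)) (ndF (ndF (ndF TOK.nil TOK.nil (p67 h).2.1.2.1.2.2.2.1 (by decide +kernel)) TOK.nil (p67 h).2.1.2.1.2.2.2.2 (by decide +kernel)) (ndF TOK.nil TOK.nil (p67 h).2.1.2.2.1.1.2.1 (by decide +kernel)) (p67 h).2.1.2.2.1.1.1 (by decide +kernel)) (p67 h).2.1.2.1.2.2.1.2 (by decide +kernel)) (ndF (ndF (ndF (ndF TOK.nil TOK.nil (p67 h).2.1.2.2.1.2.1 (by decide +kernel)) TOK.nil (p67 h).2.1.2.2.1.2.2.1 (by decide +kernel)) (ndF (ndF TOK.nil TOK.nil (p67 h).2.1.2.2.2.1.1 (by decide +kernel)) TOK.nil (p67 h).2.1.2.2.2.1.2.1 (by decide +kernel)) (p67 h).2.1.2.2.1.2.2.2 (by decide +kernel)) (ndF (ndF (ndF TOK.nil TOK.nil (p67 h).2.1.2.2.2.2.1.1 (by decide +kernel)) TOK.nil (p67 h).2.1.2.2.2.2.1.2 (by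 decide +kernel)) (ndF TOK.nil TOK.nil (p67 h).2.1.2.2.2.2.2.2 (by decide +kernel)) (p67 h).2.1.2.2.2.2.2.1 (by decide +kernel)) (p67 h).2.1.2.2.2.1.2.2 (by decide +kernel)) (p67 h).2.1.2.2.1.1.2.2 (by decide +kernel)) (p67 h).2.1.2.1.1.2.2.1 (by decide +kernel)) (ndF (ndF (ndF (ndF (ndF (ndF TOK.nil TOK.nil (p67 h).2.2.1.1.1.1.2.1 (by decide +kernel)) TOK.nil (p67 h).2.2.1.1.1.1.2.2 (by decide +kernel)) (ndF (ndF TOK.nil TOK.nil (p67 h).2.2.1.1.1.2.2.1 (by decide +kernel)) TOK.nil (p67 h).2.2.1.1.1.2.2.2 (by decide +kernel)) (p67 h).2.2.1.1.1.2.1 (by decide +kernel)) (ndF (ndF (ndF TOK.nil TOK.nil (p67 h).2.2.1.1.2.1.2.1 (by decide +kernel)) TOK.nil (p67 h).2.2.1.1.2.1.2.2 (by decide +kernel)) (ndF TOK.nil TOK.nil (p67 h).2.2.1.1.2.2.1.2 (by decide +kernel)) (p67 h).2.2.1.1.2.2.1.1 (by decide +kernel)) (p67 h).2.2.1.1.2.1.1 (by decide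 +kernel)) (ndF (ndF (ndF (ndF TOK.nil TOK.nil (p67 h).2.2.1.1.2.2.2.2 (by decide +kernel)) TOK.nil (p67 h).2.2.1.2.1.1.1 (by decide +kernel)) (ndF (ndF TOK.nil TOK.nil (p67 h).2.2.1.2.1.1.2.2 (by decide +kernel)) TOK.nil (p67 h).2.2.1.2.1.2.1 (by decide +kernel)) (p67 h).2.2.1.2.1.1.2.1 (by decide +kernel)) (ndF (ndF (ndF TOK.nil TOK.nil (p67 h).2.2.1.2.1.2.2.2 (by decide +kernel)) TOK.nil (p67 h).2.2.1.2.2.1.1 (by decide +kernel)) (ndF TOK.nil TOK.nil (p67 h).2.2.1.2.2.1.2.2 (by decide +kernel)) (p67 h).2.2.1.2.2.1.2.1 (by decide +kernel)) (p67 h).2.2.1.2.1.2.2.1 (by decide +kernel)) (p67 h).2.2.1.1.2.2.2.1 (by decide +kernel)) (ndF (ndF (ndF (ndF (ndF TOK.nil TOK.nil (p67 h).2.2.1.2.2.2.1.2 (by decide +kernel)) TOK.nil (p67 h).2.2.1.2.2.2.2.1 (by decide +kernel)) (ndF (ndF TOK.nil TOK.nil (p67 h).2.2.2.1.1.1.1 (by decide +kernel))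 TOK.nil (p67 h).2.2.2.1.1.1.2.1 (by decide +kernel)) (p67 h).2.2.1.2.2.2.2.2 (by decide +kernel)) (ndF (ndF (ndF TOK.nil TOK.nil (p67 h).2.2.2.1.1.2.1 (by decide +kernel)) TOK.nil (p67 h).2.2.2.1.1.2.2.1 (by decide +kernel)) (ndF TOK.nil TOK.nil (p67 h).2.2.2.1.2.1.1 (by decide +kernel)) (p67 h).2.2.2.1.1.2.2.2 (by decide +kernel)) (p67 h).2.2.2.1.1.1.2.2 (by decide +kernel)) (ndF (ndF (ndF (ndF TOK.nil TOK.nil (p67 h).2.2.2.1.2.1.2.2 (by decide +kernel)) TOK.nil (p67 h).2.2.2.1.2.2.1.1 (by decide +kernel)) (ndF (ndF TOK.nil TOK.nil (p67 h).2.2.2.1.2.2.2.1 (by decide +kernel)) TOK.nil (p67 h).2.2.2.1.2.2.2.2 (by decide +kernel)) (p67 h).2.2.2.1.2.2.1.2 (by decide +kernel)) (ndF (ndF (ndF TOK.nil TOK.nil (p67 h).2.2.2.2.1.1.2.1 (by decide +kernel)) TOK.nil (p67 h).2.2.2.2.1.1.2.2 (by decide +kernel)) (ndF TOK.nil TOK.nil (p67 h).2.2.2.2.1.2.2.1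 (by decide +kernel)) (p67 h).2.2.2.2.1.2.1 (by decide +kernel)) (p67 h).2.2.2.2.1.1.1 (by decide +kernel)) (p67 h).2.2.2.1.2.1.2.1 (by decide +kernel)) (p67 h).2.2.1.2.2.2.1.1 (by decide +kernel)) (p67 h).2.2.1.1.1.1.1 (by decide +kernel))

theorem R_40_80_160_ok (h : RcOK RE.rowE) : R_40_80_160.OK :=
  okF (by decide +kernel) (ndF (ndF (ndF (ndF (ndF (ndF (ndF TOK.nil TOK.nil (p67 h).2.2.2.2.1.2.2.2 (by decide +kernel)) TOK.nil (p67 h).2.2.2.2.2.1.1 (by decide +kernel)) (ndF TOK.nil TOK.nil (p67 h).2.2.2.2.2.1.2.2 (by decide +kernel)) (p67 h).2.2.2.2.2.1.2.1 (by decide +kernel)) (ndF (ndF TOK.nil TOK.nil (p67 h).2.2.2.2.2.2.1.2 (by decide +kernel)) (ndF TOK.nil TOK.nil (p67 h).2.2.2.2.2.2.2.2 (by decide +kernel)) (p67 h).2.2.2.2.2.2.2.1 (by decide +kernel)) (p67 h).2.2.2.2.2.2.1.1 (by decide +kernel)) (ndF (ndF (ndF TOK.nil TOK.nil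 (p68 h).1.1.1.1.2 (by decide +kernel)) (ndF TOK.nil TOK.nil (p68 h).1.1.1.2.2.1 (by decide +kernel)) (p68 h).1.1.1.2.1 (by decide +kernel)) (ndF (ndF TOK.nil TOK.nil (p68 h).1.1.2.1.1 (by decide +kernel)) (ndF TOK.nil TOK.nil (p68 h).1.1.2.2.1 (by decide +kernel)) (p68 h).1.1.2.1.2 (by decide +kernel)) (p68 h).1.1.1.2.2.2 (by decide +kernel)) (p68 h).1.1.1.1.1 (by decide +kernel)) (ndF (ndF (ndF (ndF TOK.nil TOK.nil (p68 h).1.1.2.2.2.2 (by decide +kernel)) (ndF TOK.nil TOK.nil (p68 h).1.2.1.1.2 (by decide +kernel)) (p68 h).1.2.1.1.1 (by decide +kernel)) (ndF (ndF TOK.nil TOK.nil (p68 h).1.2.1.2.2.1 (by decide +kernel)) (ndF TOK.nil TOK.nil (p68 h).1.2.2.1.1 (by decide +kernel)) (p68 h).1.2.1.2.2.2 (by decide +kernel)) (p68 h).1.2.1.2.1 (by decide +kernel)) (ndF (ndF (ndF TOK.nil TOK.nil (p68 h).1.2.2.1.2.2 (by decide +kernel)) (ndF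 TOK.nil TOK.nil (p68 h).1.2.2.2.2.1 (by decide +kernel)) (p68 h).1.2.2.2.1 (by decide +kernel)) (ndF (ndF TOK.nil TOK.nil (p68 h).2.1.1.1.1 (by decide +kernel)) (ndF TOK.nil TOK.nil (p68 h).2.1.1.2.1 (by decide +kernel)) (p68 h).2.1.1.1.2 (by decide +kernel)) (p68 h).1.2.2.2.2.2 (by decide +kernel)) (p68 h).1.2.2.1.2.1 (by decide +kernel)) (p68 h).1.1.2.2.2.1 (by decide +kernel)) (ndF (ndF (ndF (ndF (ndF (ndF TOK.nil TOK.nil (p68 h).2.1.1.2.2.2 (by decide +kernel)) TOK.nil (p68 h).2.1.2.1.1 (by decide +kernel)) (ndF TOK.nil TOK.nil (p68 h).2.1.2.1.2.2 (by decide +kernel)) (p68 h).2.1.2.1.2.1 (by decide +kernel)) (ndF (ndF TOK.nil TOK.nil (p68 h).2.1.2.2.2.1 (by decide +kernel)) (ndF TOK.nil TOK.nil (p68 h).2.2.1.1.1 (by decide +kernel)) (p68 h).2.1.2.2.2.2 (by decide +kernel)) (p68 h).2.1.2.2.1 (by decide +kernel)) (ndF (ndF (ndF TOK.nil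 TOK.nil (p68 h).2.2.1.2.1 (by decide +kernel)) (ndF TOK.nil TOK.nil (p68 h).2.2.1.2.2.2 (by decide +kernel)) (p68 h).2.2.1.2.2.1 (by decide +kernel)) (ndF (ndF TOK.nil TOK.nil (p68 h).2.2.2.1.2.1 (by decide +kernel)) (ndF TOK.nil TOK.nil (p68 h).2.2.2.2.1 (by decide +kernel)) (p68 h).2.2.2.1.2.2 (by decide +kernel)) (p68 h).2.2.2.1.1 (by decide +kernel)) (p68 h).2.2.1.1.2 (by decide +kernel)) (ndF (ndF (ndF (ndF TOK.nil TOK.nil (p68 h).2.2.2.2.2.2 (by decide +kernel)) (ndF TOK.nil TOK.nil (p69 h).1.1.1.1.1.1.2 (by decide +kernel)) (p69 h).1.1.1.1.1.1.1 (by decide +kernel)) (ndF (ndF TOK.nil TOK.nil (p69 h).1.1.1.1.1.2.2.1 (by decide +kernel)) (ndF TOK.nil TOK.nil (p69 h).1.1.1.1.2.1.1 (by decide +kernel)) (p69 h).1.1.1.1.1.2.2.2 (by decide +kernel)) (p69 h).1.1.1.1.1.2.1 (by decide +kernel)) (ndF (ndF (ndF TOK.nil TOK.nil (p69 h).1.1.1.1.2.1.2.2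 (by decide +kernel)) (ndF TOK.nil TOK.nil (p69 h).1.1.1.1.2.2.2.1 (by decide +kernel)) (p69 h).1.1.1.1.2.2.1 (by decide +kernel)) (ndF (ndF TOK.nil TOK.nil (p69 h).1.1.1.2.1.1.1 (by decide +kernel)) (ndF TOK.nil TOK.nil (p69 h).1.1.1.2.1.2.1 (by decide +kernel)) (p69 h).1.1.1.2.1.1.2 (by decide +kernel)) (p69 h).1.1.1.1.2.2.2.2 (by decide +kernel)) (p69 h).1.1.1.1.2.1.2.1 (by decide +kernel)) (p68 h).2.2.2.2.2.1 (by decide +kernel)) (p68 h).2.1.1.2.2.1 (by decide +kernel))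

theorem T_160_200_ok (h : RcOK RE.rowE) : T_160_200.OK :=
  okF (by decide +kernel) (ndF (ndF (ndF (ndF (ndF (ndF (ndF TOK.nil TOK.nil (p69 h).1.1.1.2.1.2.2.1 (by decide +kernel)) TOK.nil (p69 h).1.1.1.2.1.2.2.2 (by decide +kernel)) (ndF (ndF TOK.nil TOK.nil (p69 h).1.1.1.2.2.1.2.1 (by decide +kernel)) TOK.nil (p69 h).1.1.1.2.2.1.2.2 (by decide +kernel)) (p69 h).1.1.1.2.2.1.1 (by decide +kernel)) (ndF (ndF (ndF TOK.nil TOK.nil (p69 h).1.1.1.2.2.2.2.1 (by decide +kernel)) TOK.nil (p69 h).1.1.1.2.2.2.2.2 (by decide +kernel)) (ndF (ndF TOK.nil TOK.nil (p69 h).1.1.2.1.1.1.2 (by decide +kernel)) TOK.nil (p69 h).1.1.2.1.1.2.1 (by decide +kernel)) (p69 h).1.1.2.1.1.1.1 (by decide +kernel)) (p69 h).1.1.1.2.2.2.1 (by decide +kernel)) (ndF (ndF (ndF (ndF TOK.nil TOK.nil (p69 h).1.1.2.1.1.2.2.2 (by decide +kernel)) TOK.nil (p69 h).1.1.2.1.2.1.1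 (by decide +kernel)) (ndF (ndF TOK.nil TOK.nil (p69 h).1.1.2.1.2.1.2.2 (by decide +kernel)) TOK.nil (p69 h).1.1.2.1.2.2.1 (by decide +kernel)) (p69 h).1.1.2.1.2.1.2.1 (by decide +kernel)) (ndF (ndF (ndF TOK.nil TOK.nil (p69 h).1.1.2.1.2.2.2.2 (by decide +kernel)) TOK.nil (p69 h).1.1.2.2.1.1.1 (by decide +kernel)) (ndF (ndF TOK.nil TOK.nil (p69 h).1.1.2.2.1.2.1 (by decide +kernel)) TOK.nil (p69 h).1.1.2.2.1.2.2.1 (by decide +kernel)) (p69 h).1.1.2.2.1.1.2 (by decide +kernel)) (p69 h).1.1.2.1.2.2.2.1 (by decide +kernel)) (p69 h).1.1.2.1.1.2.2.1 (by decide +kernel)) (ndF (ndF (ndF (ndF (ndF TOK.nil TOK.nil (p69 h).1.1.2.2.2.1.1 (by decide +kernel)) TOK.nil (p69 h).1.1.2.2.2.1.2.1 (by decide +kernel)) (ndF (ndF TOK.nil TOK.nil (p69 h).1.1.2.2.2.2.1 (by decide +kernel)) TOK.nil (p69 h).1.1.2.2.2.2.2.1 (by decide +kernel)) (p69 h).1.1.2.2.2.1.2.2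 (by decide +kernel)) (ndF (ndF (ndF TOK.nil TOK.nil (p69 h).1.2.1.1.1.1.1 (by decide +kernel)) TOK.nil (p69 h).1.2.1.1.1.1.2 (by decide +kernel)) (ndF (ndF TOK.nil TOK.nil (p69 h).1.2.1.1.1.2.2.1 (by decide +kernel)) TOK.nil (p69 h).1.2.1.1.1.2.2.2 (by decide +kernel)) (p69 h).1.2.1.1.1.2.1 (by decide +kernel)) (p69 h).1.1.2.2.2.2.2.2 (by decide +kernel)) (ndF (ndF (ndF (ndF TOK.nil TOK.nil (p69 h).1.2.1.1.2.1.2.1 (by decide +kernel)) TOK.nil (p69 h).1.2.1.1.2.1.2.2 (by decide +kernel)) (ndF (ndF TOK.nil TOK.nil (p69 h).1.2.1.1.2.2.2.1 (by decide +kernel)) TOK.nil (p69 h).1.2.1.1.2.2.2.2 (by decide +kernel)) (p69 h).1.2.1.1.2.2.1 (by decide +kernel)) (ndF (ndF (ndF TOK.nil TOK.nil (p69 h).1.2.1.2.1.1.2 (by decide +kernel)) TOK.nil (p69 h).1.2.1.2.1.2.1 (by decide +kernel)) (ndF TOK.nil TOK.nil (p69 h).1.2.1.2.1.2.2.2 (by decide +kernel))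 (p69 h).1.2.1.2.1.2.2.1 (by decide +kernel)) (p69 h).1.2.1.2.1.1.1 (by decide +kernel)) (p69 h).1.2.1.1.2.1.1 (by decide +kernel)) (p69 h).1.1.2.2.1.2.2.2 (by decide +kernel)) (ndF (ndF (ndF (ndF (ndF (ndF TOK.nil TOK.nil (p69 h).1.2.1.2.2.1.2.1 (by decide +kernel)) TOK.nil (p69 h).1.2.1.2.2.1.2.2 (by decide +kernel)) (ndF (ndF TOK.nil TOK.nil (p69 h).1.2.1.2.2.2.2.1 (by decide +kernel)) TOK.nil (p69 h).1.2.1.2.2.2.2.2 (by decide +kernel)) (p69 h).1.2.1.2.2.2.1 (by decide +kernel)) (ndF (ndF (ndF TOK.nil TOK.nil (p69 h).1.2.2.1.1.1.2 (by decide +kernel)) TOK.nil (p69 h).1.2.2.1.1.2.1 (by decide +kernel)) (ndF (ndF TOK.nil TOK.nil (p69 h).1.2.2.1.1.2.2.2 (by decide +kernel)) TOK.nil (p69 h).1.2.2.1.2.1.1 (by decide +kernel)) (p69 h).1.2.2.1.1.2.2.1 (by decide +kernel)) (p69 h).1.2.2.1.1.1.1 (by decide +kernel)) (ndF (ndF (ndF (ndF TOK.nil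 TOK.nil (p69 h).1.2.2.1.2.1.2.2 (by decide +kernel)) TOK.nil (p69 h).1.2.2.1.2.2.1 (by decide +kernel)) (ndF (ndF TOK.nil TOK.nil (p69 h).1.2.2.1.2.2.2.2 (by decide +kernel)) TOK.nil (p69 h).1.2.2.2.1.1.1 (by decide +kernel)) (p69 h).1.2.2.1.2.2.2.1 (by decide +kernel)) (ndF (ndF (ndF TOK.nil TOK.nil (p69 h).1.2.2.2.1.1.2.2 (by decide +kernel)) TOK.nil (p69 h).1.2.2.2.1.2.1 (by decide +kernel)) (ndF TOK.nil TOK.nil (p69 h).1.2.2.2.1.2.2.2 (by decide +kernel)) (p69 h).1.2.2.2.1.2.2.1 (by decide +kernel)) (p69 h).1.2.2.2.1.1.2.1 (by decide +kernel)) (p69 h).1.2.2.1.2.1.2.1 (by decide +kernel)) (ndF (ndF (ndF (ndF (ndF TOK.nil TOK.nil (p69 h).1.2.2.2.2.1.2.1 (by decide +kernel)) TOK.nil (p69 h).1.2.2.2.2.1.2.2 (by decide +kernel)) (ndF (ndF TOK.nil TOK.nil (p69 h).1.2.2.2.2.2.2.1 (by decide +kernel)) TOK.nil (p69 h).1.2.2.2.2.2.2.2 (by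 decide +kernel)) (p69 h).1.2.2.2.2.2.1 (by decide +kernel)) (ndF (ndF (ndF TOK.nil TOK.nil (p69 h).2.1.1.1.1.1.2 (by decide +kernel)) TOK.nil (p69 h).2.1.1.1.1.2.1 (by decide +kernel)) (ndF (ndF TOK.nil TOK.nil (p69 h).2.1.1.1.1.2.2.2 (by decide +kernel)) TOK.nil (p69 h).2.1.1.1.2.1.1 (by decide +kernel)) (p69 h).2.1.1.1.1.2.2.1 (by decide +kernel)) (p69 h).2.1.1.1.1.1.1 (by decide +kernel)) (ndF (ndF (ndF (ndF TOK.nil TOK.nil (p69 h).2.1.1.1.2.1.2.2 (by decide +kernel)) TOK.nil (p69 h).2.1.1.1.2.2.1 (by decide +kernel)) (ndF (ndF TOK.nil TOK.nil (p69 h).2.1.1.1.2.2.2.2 (by decide +kernel)) TOK.nil (p69 h).2.1.1.2.1.1.1 (by decide +kernel)) (p69 h).2.1.1.1.2.2.2.1 (by decide +kernel)) (ndF (ndF (ndF TOK.nil TOK.nil (p69 h).2.1.1.2.1.2.1 (by decide +kernel)) TOK.nil (p69 h).2.1.1.2.1.2.2.1 (by decide +kernel)) (ndF TOK.nil TOK.nil (p69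 h).2.1.1.2.2.1.1 (by decide +kernel)) (p69 h).2.1.1.2.1.2.2.2 (by decide +kernel)) (p69 h).2.1.1.2.1.1.2 (by decide +kernel)) (p69 h).2.1.1.1.2.1.2.1 (by decide +kernel)) (p69 h).1.2.2.2.2.1.1 (by decide +kernel)) (p69 h).1.2.1.2.2.1.1 (by decide +kernel))

theorem R_120_140_ok (h : RcOK RE.rowE) : R_120_140.OK :=
  okF (by decide +kernel) (ndF (ndF (ndF (ndF (ndF (ndF TOK.nil TOK.nil (p69 h).2.1.1.2.2.1.2.1 (by decide +kernel)) TOK.nil (p69 h).2.1.1.2.2.1.2.2 (by decide +kernel)) (ndF TOK.nil TOK.nil (p69 h).2.1.1.2.2.2.2.1 (by decide +kernel)) (p69 h).2.1.1.2.2.2.1 (by decide +kernel)) (ndF (ndF (ndF TOK.nil TOK.nil (p69 h).2.1.2.1.1.1.1 (by decide +kernel)) TOK.nil (p69 h).2.1.2.1.1.1.2 (by decide +kernel)) (ndF TOK.nil TOK.nil (p69 h).2.1.2.1.1.2.2.1 (by decide +kernel)) (p69 h).2.1.2.1.1.2.1 (by decide +kernel)) (p69 h).2.1.1.2.2.2.2.2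 (by decide +kernel)) (ndF (ndF (ndF (ndF TOK.nil TOK.nil (p69 h).2.1.2.1.2.1.1 (by decide +kernel)) TOK.nil (p69 h).2.1.2.1.2.1.2.1 (by decide +kernel)) (ndF TOK.nil TOK.nil (p69 h).2.1.2.1.2.2.1 (by decide +kernel)) (p69 h).2.1.2.1.2.1.2.2 (by decide +kernel)) (ndF (ndF TOK.nil TOK.nil (p69 h).2.1.2.1.2.2.2.2 (by decide +kernel)) (ndF TOK.nil TOK.nil (p69 h).2.1.2.2.1.1.2 (by decide +kernel)) (p69 h).2.1.2.2.1.1.1 (by decide +kernel)) (p69 h).2.1.2.1.2.2.2.1 (by decide +kernel)) (p69 h).2.1.2.1.1.2.2.2 (by decide +kernel)) (ndF (ndF (ndF (ndF (ndF TOK.nil TOK.nil (p69 h).2.1.2.2.1.2.2.1 (by decide +kernel)) TOK.nil (p69 h).2.1.2.2.1.2.2.2 (by decide +kernel)) (ndF TOK.nil TOK.nil (p69 h).2.1.2.2.2.1.2.1 (by decide +kernel)) (p69 h).2.1.2.2.2.1.1 (by decide +kernel)) (ndF (ndF (ndF TOK.nil TOK.nil (p69 h).2.1.2.2.2.2.1 (by decide +kernel))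 TOK.nil (p69 h).2.1.2.2.2.2.2.1 (by decide +kernel)) (ndF TOK.nil TOK.nil (p69 h).2.2.1.1.1.1.1 (by decide +kernel)) (p69 h).2.1.2.2.2.2.2.2 (by decide +kernel)) (p69 h).2.1.2.2.2.1.2.2 (by decide +kernel)) (ndF (ndF (ndF (ndF TOK.nil TOK.nil (p69 h).2.2.1.1.1.2.1 (by decide +kernel)) TOK.nil (p69 h).2.2.1.1.1.2.2.1 (by decide +kernel)) (ndF TOK.nil TOK.nil (p69 h).2.2.1.1.2.1.1 (by decide +kernel)) (p69 h).2.2.1.1.1.2.2.2 (by decide +kernel)) (ndF (ndF TOK.nil TOK.nil (p69 h).2.2.1.1.2.1.2.2 (by decide +kernel)) (ndF TOK.nil TOK.nil (p69 h).2.2.1.1.2.2.2.1 (by decide +kernel)) (p69 h).2.2.1.1.2.2.1 (by decide +kernel)) (p69 h).2.2.1.1.2.1.2.1 (by decide +kernel)) (p69 h).2.2.1.1.1.1.2 (by decide +kernel)) (p69 h).2.1.2.2.1.2.1 (by decide +kernel))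

theorem R_40_60_80_ok (h : RcOK RE.rowE) : R_40_60_80.OK :=
  okF (by decide +kernel) (ndF (ndF (ndF (ndF (ndF (ndF TOK.nil TOK.nil (p69 h).2.2.1.1.2.2.2.2 (by decide +kernel)) (ndF TOK.nil TOK.nil (p69 h).2.2.1.2.1.1.2 (by decide +kernel)) (p69 h).2.2.1.2.1.1.1 (by decide +kernel)) (ndF (ndF TOK.nil TOK.nil (p69 h).2.2.1.2.1.2.2.1 (by decide +kernel)) TOK.nil (p69 h).2.2.1.2.1.2.2.2 (by decide +kernel)) (p69 h).2.2.1.2.1.2.1 (by decide +kernel)) (ndF (ndF (ndF TOK.nil TOK.nil (p69 h).2.2.1.2.2.1.2.1 (by decide +kernel)) (ndF TOK.nil TOK.nil (p69 h).2.2.1.2.2.2.1 (by decide +kernel)) (p69 h).2.2.1.2.2.1.2.2 (by decide +kernel)) (ndF (ndF TOK.nil TOK.nil (p69 h).2.2.1.2.2.2.2.2 (by decide +kernel)) TOK.nil (p69 h).2.2.2.1.1.1.1 (by decide +kernel)) (p69 h).2.2.1.2.2.2.2.1 (by decide +kernel)) (p69 h).2.2.1.2.2.1.1 (by decide +kernel))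 (ndF (ndF (ndF (ndF TOK.nil TOK.nil (p69 h).2.2.2.1.1.2.1 (by decide +kernel)) (ndF TOK.nil TOK.nil (p69 h).2.2.2.1.1.2.2.2 (by decide +kernel)) (p69 h).2.2.2.1.1.2.2.1 (by decide +kernel)) (ndF (ndF TOK.nil TOK.nil (p69 h).2.2.2.1.2.1.2.1 (by decide +kernel)) TOK.nil (p69 h).2.2.2.1.2.1.2.2 (by decide +kernel)) (p69 h).2.2.2.1.2.1.1 (by decide +kernel)) (ndF (ndF (ndF TOK.nil TOK.nil (p69 h).2.2.2.1.2.2.2.1 (by decide +kernel)) (ndF TOK.nil TOK.nil (p69 h).2.2.2.2.1.1.1 (by decide +kernel)) (p69 h).2.2.2.1.2.2.2.2 (by decide +kernel)) (ndF (ndF TOK.nil TOK.nil (p69 h).2.2.2.2.1.1.2.2 (by decide +kernel)) TOK.nil (p69 h).2.2.2.2.1.2.1 (by decide +kernel)) (p69 h).2.2.2.2.1.1.2.1 (by decide +kernel)) (p69 h).2.2.2.1.2.2.1 (by decide +kernel)) (p69 h).2.2.2.1.1.1.2 (by decide +kernel)) (ndF (ndF (ndF (ndF (ndF TOK.nil TOK.nil (p69 h).2.2.2.2.1.2.2.2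 (by decide +kernel)) (ndF TOK.nil TOK.nil (p69 h).2.2.2.2.2.1.2.1 (by decide +kernel)) (p69 h).2.2.2.2.2.1.1 (by decide +kernel)) (ndF (ndF TOK.nil TOK.nil (p69 h).2.2.2.2.2.2.1 (by decide +kernel)) TOK.nil (p69 h).2.2.2.2.2.2.2.1 (by decide +kernel)) (p69 h).2.2.2.2.2.1.2.2 (by decide +kernel)) (ndF (ndF (ndF TOK.nil TOK.nil (p70 h).1.1.1.1.1.1 (by decide +kernel)) (ndF TOK.nil TOK.nil (p70 h).1.1.1.1.2.1 (by decide +kernel)) (p70 h).1.1.1.1.1.2 (by decide +kernel)) (ndF (ndF TOK.nil TOK.nil (p70 h).1.1.1.2.1.1 (by decide +kernel)) TOK.nil (p70 h).1.1.1.2.1.2 (by decide +kernel)) (p70 h).1.1.1.1.2.2 (by decide +kernel)) (p69 h).2.2.2.2.2.2.2.2 (by decide +kernel)) (ndF (ndF (ndF (ndF TOK.nil TOK.nil (p70 h).1.1.1.2.2.2 (by decide +kernel)) (ndF TOK.nil TOK.nil (p70 h).1.1.2.1.1.2 (by decide +kernel)) (p70 h).1.1.2.1.1.1 (by decide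 +kernel)) (ndF (ndF TOK.nil TOK.nil (p70 h).1.1.2.1.2.2 (by decide +kernel)) TOK.nil (p70 h).1.1.2.2.1.1 (by decide +kernel)) (p70 h).1.1.2.1.2.1 (by decide +kernel)) (ndF (ndF (ndF TOK.nil TOK.nil (p70 h).1.1.2.2.2.1 (by decide +kernel)) (ndF TOK.nil TOK.nil (p70 h).1.1.2.2.2.2.2 (by decide +kernel)) (p70 h).1.1.2.2.2.2.1 (by decide +kernel)) (ndF (ndF TOK.nil TOK.nil (p70 h).1.2.1.1.1.2 (by decide +kernel)) TOK.nil (p70 h).1.2.1.1.2.1 (by decide +kernel)) (p70 h).1.2.1.1.1.1 (by decide +kernel)) (p70 h).1.1.2.2.1.2 (by decide +kernel)) (p70 h).1.1.1.2.2.1 (by decide +kernel)) (p69 h).2.2.2.2.1.2.2.1 (by decide +kernel))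

theorem R_60_120_160_ok (h : RcOK RE.rowE) : R_60_120_160.OK :=
  okF (by decide +kernel) (ndF (ndF (ndF (ndF (ndF (ndF (ndF TOK.nil TOK.nil (p70 h).1.2.1.1.2.2 (by decide +kernel)) TOK.nil (p70 h).1.2.1.2.1.1 (by decide +kernel)) (ndF (ndF TOK.nil TOK.nil (p70 h).1.2.1.2.2.1 (by decide +kernel)) TOK.nil (p70 h).1.2.1.2.2.2.1 (by decide +kernel)) (p70 h).1.2.1.2.1.2 (by decide +kernel)) (ndF (ndF (ndF TOK.nil TOK.nil (p70 h).1.2.2.1.1.1 (by decide +kernel)) TOK.nil (p70 h).1.2.2.1.1.2 (by decide +kernel)) (ndF TOK.nil TOK.nil (p70 h).1.2.2.1.2.2 (by decide +kernel)) (p70 h).1.2.2.1.2.1 (by decide +kernel)) (p70 h).1.2.1.2.2.2.2 (by decide +kernel)) (ndF (ndF (ndF (ndF TOK.nil TOK.nil (p70 h).1.2.2.2.1.2 (by decide +kernel)) TOK.nil (p70 h).1.2.2.2.2.1 (by decide +kernel)) (ndF (ndF TOK.nil TOK.nil (p70 h).1.2.2.2.2.2.2 (by decide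 +kernel)) TOK.nil (p70 h).2.1.1.1.1.1 (by decide +kernel)) (p70 h).1.2.2.2.2.2.1 (by decide +kernel)) (ndF (ndF (ndF TOK.nil TOK.nil (p70 h).2.1.1.1.2.1 (by decide +kernel)) TOK.nil (p70 h).2.1.1.1.2.2 (by decide +kernel)) (ndF TOK.nil TOK.nil (p70 h).2.1.1.2.1.2 (by decide +kernel)) (p70 h).2.1.1.2.1.1 (by decide +kernel)) (p70 h).2.1.1.1.1.2 (by decide +kernel)) (p70 h).1.2.2.2.1.1 (by decide +kernel)) (ndF (ndF (ndF (ndF (ndF TOK.nil TOK.nil (p70 h).2.1.1.2.2.2 (by decide +kernel)) TOK.nil (p70 h).2.1.2.1.1.1 (by decide +kernel)) (ndF (ndF TOK.nil TOK.nil (p70 h).2.1.2.1.2.1 (by decide +kernel)) TOK.nil (p70 h).2.1.2.1.2.2 (by decide +kernel)) (p70 h).2.1.2.1.1.2 (by decide +kernel)) (ndF (ndF (ndF TOK.nil TOK.nil (p70 h).2.1.2.2.1.2 (by decide +kernel)) TOK.nil (p70 h).2.1.2.2.2.1 (by decide +kernel)) (ndF TOK.nil TOK.nil (p70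 h).2.1.2.2.2.2.2 (by decide +kernel)) (p70 h).2.1.2.2.2.2.1 (by decide +kernel)) (p70 h).2.1.2.2.1.1 (by decide +kernel)) (ndF (ndF (ndF (ndF TOK.nil TOK.nil (p70 h).2.2.1.1.1.2 (by decide +kernel)) TOK.nil (p70 h).2.2.1.1.2.1 (by decide +kernel)) (ndF TOK.nil TOK.nil (p70 h).2.2.1.2.1.1 (by decide +kernel)) (p70 h).2.2.1.1.2.2 (by decide +kernel)) (ndF (ndF (ndF TOK.nil TOK.nil (p70 h).2.2.1.2.2.1 (by decide +kernel)) TOK.nil (p70 h).2.2.1.2.2.2.1 (by decide +kernel)) (ndF TOK.nil TOK.nil (p70 h).2.2.2.1.1.1 (by decide +kernel)) (p70 h).2.2.1.2.2.2.2 (by decide +kernel)) (p70 h).2.2.1.2.1.2 (by decide +kernel)) (p70 h).2.2.1.1.1.1 (by decide +kernel)) (p70 h).2.1.1.2.2.1 (by decide +kernel)) (ndF (ndF (ndF (ndF (ndF (ndF TOK.nil TOK.nil (p70 h).2.2.2.1.2.1 (by decide +kernel)) TOK.nil (p70 h).2.2.2.1.2.2 (by decide +kernel)) (ndF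 (ndF TOK.nil TOK.nil (p70 h).2.2.2.2.1.2 (by decide +kernel)) TOK.nil (p70 h).2.2.2.2.2.1 (by decide +kernel)) (p70 h).2.2.2.2.1.1 (by decide +kernel)) (ndF (ndF (ndF TOK.nil TOK.nil (p70 h).2.2.2.2.2.2.2 (by decide +kernel)) TOK.nil (p71 h).1.1.1.1.1.1.1 (by decide +kernel)) (ndF TOK.nil TOK.nil (p71 h).1.1.1.1.1.2.1 (by decide +kernel)) (p71 h).1.1.1.1.1.1.2 (by decide +kernel)) (p70 h).2.2.2.2.2.2.1 (by decide +kernel)) (ndF (ndF (ndF (ndF TOK.nil TOK.nil (p71 h).1.1.1.1.2.1.1 (by decide +kernel)) TOK.nil (p71 h).1.1.1.1.2.1.2 (by decide +kernel)) (ndF TOK.nil TOK.nil (p71 h).1.1.1.1.2.2.2.1 (by decide +kernel)) (p71 h).1.1.1.1.2.2.1 (by decide +kernel)) (ndF (ndF (ndF TOK.nil TOK.nil (p71 h).1.1.1.2.1.1.1 (by decide +kernel)) TOK.nil (p71 h).1.1.1.2.1.1.2 (by decide +kernel)) (ndF TOK.nil TOK.nil (p71 h).1.1.1.2.1.2.2 (by decide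 +kernel)) (p71 h).1.1.1.2.1.2.1 (by decide +kernel)) (p71 h).1.1.1.1.2.2.2.2 (by decide +kernel)) (p71 h).1.1.1.1.1.2.2 (by decide +kernel)) (ndF (ndF (ndF (ndF (ndF TOK.nil TOK.nil (p71 h).1.1.1.2.2.1.2 (by decide +kernel)) TOK.nil (p71 h).1.1.1.2.2.2.1 (by decide +kernel)) (ndF (ndF TOK.nil TOK.nil (p71 h).1.1.1.2.2.2.2.2 (by decide +kernel)) TOK.nil (p71 h).1.1.2.1.1.1.1 (by decide +kernel)) (p71 h).1.1.1.2.2.2.2.1 (by decide +kernel)) (ndF (ndF (ndF TOK.nil TOK.nil (p71 h).1.1.2.1.1.2.1 (by decide +kernel)) TOK.nil (p71 h).1.1.2.1.1.2.2 (by decide +kernel)) (ndF TOK.nil TOK.nil (p71 h).1.1.2.1.2.1.2 (by decide +kernel)) (p71 h).1.1.2.1.2.1.1 (by decide +kernel)) (p71 h).1.1.2.1.1.1.2 (by decide +kernel)) (ndF (ndF (ndF (ndF TOK.nil TOK.nil (p71 h).1.1.2.1.2.2.2.1 (by decide +kernel)) TOK.nil (p71 h).1.1.2.1.2.2.2.2 (by decide +kernel))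 (ndF TOK.nil TOK.nil (p71 h).1.1.2.2.1.1.2 (by decide +kernel)) (p71 h).1.1.2.2.1.1.1 (by decide +kernel)) (ndF (ndF (ndF TOK.nil TOK.nil (p71 h).1.1.2.2.1.2.2 (by decide +kernel)) TOK.nil (p71 h).1.1.2.2.2.1.1 (by decide +kernel)) (ndF TOK.nil TOK.nil (p71 h).1.1.2.2.2.2.1 (by decide +kernel)) (p71 h).1.1.2.2.2.1.2 (by decide +kernel)) (p71 h).1.1.2.2.1.2.1 (by decide +kernel)) (p71 h).1.1.2.1.2.2.1 (by decide +kernel)) (p71 h).1.1.1.2.2.1.1 (by decide +kernel)) (p70 h).2.2.2.1.1.2 (by decide +kernel))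

theorem T_7_14_ok (h : RcOK RE.rowE) : T_7_14.OK :=
  okF (by decide +kernel) (ndF (ndF (ndF (ndF (ndF (ndF (ndF TOK.nil TOK.nil (p71 h).1.1.2.2.2.2.2.1 (by decide +kernel)) (ndF TOK.nil TOK.nil (p71 h).1.2.1.1.1.1.1 (by decide +kernel)) (p71 h).1.1.2.2.2.2.2.2 (by decide +kernel)) (ndF (ndF TOK.nil TOK.nil (p71 h).1.2.1.1.1.2.1 (by decide +kernel)) TOK.nil (p71 h).1.2.1.1.1.2.2 (by decide +kernel)) (p71 h).1.2.1.1.1.1.2 (by decide +kernel)) (ndF (ndF (ndF TOK.nil TOK.nil (p71 h).1.2.1.1.2.1.2 (by decide +kernel)) (ndF TOK.nil TOK.nil (p71 h).1.2.1.1.2.2.2.1 (by decide +kernel)) (p71 h).1.2.1.1.2.2.1 (by decide +kernel)) (ndF (ndF TOK.nil TOK.nil (p71 h).1.2.1.2.1.1.1 (by decide +kernel)) TOK.nil (p71 h).1.2.1.2.1.1.2 (by decide +kernel)) (p71 h).1.2.1.1.2.2.2.2 (by decide +kernel)) (p71 h).1.2.1.1.2.1.1 (by decide +kernel)) (ndF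 (ndF (ndF (ndF TOK.nil TOK.nil (p71 h).1.2.1.2.1.2.2 (by decide +kernel)) (ndF TOK.nil TOK.nil (p71 h).1.2.1.2.2.1.2 (by decide +kernel)) (p71 h).1.2.1.2.2.1.1 (by decide +kernel)) (ndF (ndF TOK.nil TOK.nil (p71 h).1.2.1.2.2.2.2.1 (by decide +kernel)) TOK.nil (p71 h).1.2.1.2.2.2.2.2 (by decide +kernel)) (p71 h).1.2.1.2.2.2.1 (by decide +kernel)) (ndF (ndF (ndF TOK.nil TOK.nil (p71 h).1.2.2.1.1.1.2 (by decide +kernel)) (ndF TOK.nil TOK.nil (p71 h).1.2.2.1.1.2.2 (by decide +kernel)) (p71 h).1.2.2.1.1.2.1 (by decide +kernel)) (ndF (ndF TOK.nil TOK.nil (p71 h).1.2.2.1.2.1.2 (by decide +kernel)) TOK.nil (p71 h).1.2.2.1.2.2.1 (by decide +kernel)) (p71 h).1.2.2.1.2.1.1 (by decide +kernel)) (p71 h).1.2.2.1.1.1.1 (by decide +kernel)) (p71 h).1.2.1.2.1.2.1 (by decide +kernel)) (ndF (ndF (ndF (ndF (ndF TOK.nil TOK.nil (p71 h).1.2.2.1.2.2.2.2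 (by decide +kernel)) (ndF TOK.nil TOK.nil (p71 h).1.2.2.2.1.1.2 (by decide +kernel)) (p71 h).1.2.2.2.1.1.1 (by decide +kernel)) (ndF (ndF TOK.nil TOK.nil (p71 h).1.2.2.2.1.2.2.1 (by decide +kernel)) TOK.nil (p71 h).1.2.2.2.1.2.2.2 (by decide +kernel)) (p71 h).1.2.2.2.1.2.1 (by decide +kernel)) (ndF (ndF (ndF TOK.nil TOK.nil (p71 h).1.2.2.2.2.1.2 (by decide +kernel)) (ndF TOK.nil TOK.nil (p71 h).1.2.2.2.2.2.2.1 (by decide +kernel)) (p71 h).1.2.2.2.2.2.1 (by decide +kernel)) (ndF (ndF TOK.nil TOK.nil (p71 h).2.1.1.1.1.1.1 (by decide +kernel)) TOK.nil (p71 h).2.1.1.1.1.1.2 (by decide +kernel)) (p71 h).1.2.2.2.2.2.2.2 (by decide +kernel)) (p71 h).1.2.2.2.2.1.1 (by decide +kernel)) (ndF (ndF (ndF (ndF TOK.nil TOK.nil (p71 h).2.1.1.1.1.2.2 (by decide +kernel)) (ndF TOK.nil TOK.nil (p71 h).2.1.1.1.2.1.2 (by decide +kernel)) (p71 h).2.1.1.1.2.1.1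 (by decide +kernel)) (ndF (ndF TOK.nil TOK.nil (p71 h).2.1.1.1.2.2.2.1 (by decide +kernel)) TOK.nil (p71 h).2.1.1.1.2.2.2.2 (by decide +kernel)) (p71 h).2.1.1.1.2.2.1 (by decide +kernel)) (ndF (ndF (ndF TOK.nil TOK.nil (p71 h).2.1.1.2.1.1.2 (by decide +kernel)) TOK.nil (p71 h).2.1.1.2.1.2.1 (by decide +kernel)) (ndF (ndF TOK.nil TOK.nil (p71 h).2.1.1.2.2.1.1 (by decide +kernel)) TOK.nil (p71 h).2.1.1.2.2.1.2 (by decide +kernel)) (p71 h).2.1.1.2.1.2.2 (by decide +kernel)) (p71 h).2.1.1.2.1.1.1 (by decide +kernel)) (p71 h).2.1.1.1.1.2.1 (by decide +kernel)) (p71 h).1.2.2.1.2.2.2.1 (by decide +kernel)) (ndF (ndF (ndF (ndF (ndF (ndF TOK.nil TOK.nil (p71 h).2.1.1.2.2.2.2.1 (by decide +kernel)) (ndF TOK.nil TOK.nil (p71 h).2.1.2.1.1.1.1 (by decide +kernel)) (p71 h).2.1.1.2.2.2.2.2 (by decide +kernel)) (ndF (ndF TOK.nil TOK.nil (p71 h).2.1.2.1.1.2.1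 (by decide +kernel)) TOK.nil (p71 h).2.1.2.1.1.2.2 (by decide +kernel)) (p71 h).2.1.2.1.1.1.2 (by decide +kernel)) (ndF (ndF (ndF TOK.nil TOK.nil (p71 h).2.1.2.1.2.1.2 (by decide +kernel)) (ndF TOK.nil TOK.nil (p71 h).2.1.2.1.2.2.2.1 (by decide +kernel)) (p71 h).2.1.2.1.2.2.1 (by decide +kernel)) (ndF (ndF TOK.nil TOK.nil (p71 h).2.1.2.2.1.1.1 (by decide +kernel)) TOK.nil (p71 h).2.1.2.2.1.1.2 (by decide +kernel)) (p71 h).2.1.2.1.2.2.2.2 (by decide +kernel)) (p71 h).2.1.2.1.2.1.1 (by decide +kernel)) (ndF (ndF (ndF (ndF TOK.nil TOK.nil (p71 h).2.1.2.2.1.2.2.1 (by decide +kernel)) (ndF TOK.nil TOK.nil (p71 h).2.1.2.2.2.1.1 (by decide +kernel)) (p71 h).2.1.2.2.1.2.2.2 (by decide +kernel)) (ndF (ndF TOK.nil TOK.nil (p71 h).2.1.2.2.2.2.1 (by decide +kernel)) TOK.nil (p71 h).2.1.2.2.2.2.2.1 (by decide +kernel)) (p71 h).2.1.2.2.2.1.2 (by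 decide +kernel)) (ndF (ndF (ndF TOK.nil TOK.nil (p71 h).2.2.1.1.1.1.1 (by decide +kernel)) (ndF TOK.nil TOK.nil (p71 h).2.2.1.1.1.2.1 (by decide +kernel)) (p71 h).2.2.1.1.1.1.2 (by decide +kernel)) (ndF (ndF TOK.nil TOK.nil (p71 h).2.2.1.1.2.1.1 (by decide +kernel)) TOK.nil (p71 h).2.2.1.1.2.1.2 (by decide +kernel)) (p71 h).2.2.1.1.1.2.2 (by decide +kernel)) (p71 h).2.1.2.2.2.2.2.2 (by decide +kernel)) (p71 h).2.1.2.2.1.2.1 (by decide +kernel)) (ndF (ndF (ndF (ndF (ndF TOK.nil TOK.nil (p71 h).2.2.1.1.2.2.2.1 (by decide +kernel)) (ndF TOK.nil TOK.nil (p71 h).2.2.1.2.1.1.1 (by decide +kernel)) (p71 h).2.2.1.1.2.2.2.2 (by decide +kernel)) (ndF (ndF TOK.nil TOK.nil (p71 h).2.2.1.2.1.2.1 (by decide +kernel)) TOK.nil (p71 h).2.2.1.2.1.2.2 (by decide +kernel)) (p71 h).2.2.1.2.1.1.2 (by decide +kernel)) (ndF (ndF (ndF TOK.nil TOK.nil (p71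 h).2.2.1.2.2.1.2 (by decide +kernel)) (ndF TOK.nil TOK.nil (p71 h).2.2.1.2.2.2.2.1 (by decide +kernel)) (p71 h).2.2.1.2.2.2.1 (by decide +kernel)) (ndF (ndF TOK.nil TOK.nil (p71 h).2.2.2.1.1.1.1 (by decide +kernel)) TOK.nil (p71 h).2.2.2.1.1.1.2 (by decide +kernel)) (p71 h).2.2.1.2.2.2.2.2 (by decide +kernel)) (p71 h).2.2.1.2.2.1.1 (by decide +kernel)) (ndF (ndF (ndF (ndF TOK.nil TOK.nil (p71 h).2.2.2.1.1.2.2 (by decide +kernel)) (ndF TOK.nil TOK.nil (p71 h).2.2.2.1.2.1.2 (by decide +kernel)) (p71 h).2.2.2.1.2.1.1 (by decide +kernel)) (ndF (ndF TOK.nil TOK.nil (p71 h).2.2.2.1.2.2.2.1 (by decide +kernel)) TOK.nil (p71 h).2.2.2.1.2.2.2.2 (by decide +kernel)) (p71 h).2.2.2.1.2.2.1 (by decide +kernel)) (ndF (ndF (ndF TOK.nil TOK.nil (p71 h).2.2.2.2.1.1.2 (by decide +kernel)) TOK.nil (p71 h).2.2.2.2.1.2.1 (by decide +kernel)) (ndF (ndF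 TOK.nil TOK.nil (p71 h).2.2.2.2.1.2.2.2 (by decide +kernel)) TOK.nil (p71 h).2.2.2.2.2.1.1 (by decide +kernel)) (p71 h).2.2.2.2.1.2.2.1 (by decide +kernel)) (p71 h).2.2.2.2.1.1.1 (by decide +kernel)) (p71 h).2.2.2.1.1.2.1 (by decide +kernel)) (p71 h).2.2.1.1.2.2.1 (by decide +kernel)) (p71 h).2.1.1.2.2.2.1 (by decide +kernel))


end TB
end Pool.Agent.Lib.MP_6947cd_al
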