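import Pool.Agent.Lib.MP_6947cd_al.TB.P2
import Pool.Agent.Lib.MP_6947cd_al.TB.P3
import Pool.Agent.Lib.MP_6947cd_al.TB.P4

/-!
Problem MP_6947cd_al (Chollet).  THE FAMILIES OF TABLES ARE CORRECT, part 2.
-/

set_option autoImplicit false
set_option maxHeartbeats 0
set_option maxRecDepth 100000
set_option linter.all false

namespace Pool.Agent.Lib.MP_6947cd_al
namespace TB

open Ent Ent.Pk Fr Fr.WT B1 PkA PkA.TF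

theorem T_100_140_ok (h : RcOK RE.rowE) : T_100_140.OK :=
  okF (by decide +kernel) (ndF (ndF (ndF (ndF (ndF (ndF (ndF (ndF TOK.nil TOK.nil (p2 h).2.2.1.1.1.1.1.1.2.1 (by decide +kernel)) (ndF TOK.nil TOK.nil (p2 h).2.2.1.1.1.1.1.2.1 (by decide +kernel)) (p2 h).2.2.1.1.1.1.1.1.2.2 (by decide +kernel)) (ndF (ndF TOK.nil TOK.nil (p2 h).2.2.1.1.1.1.1.2.2.2 (by decide +kernel)) (ndF TOK.nil TOK.nil (p2 h).2.2.1.1.1.1.2.1.2.1 (by decide +kernel)) (p2 h).2.2.1.1.1.1.2.1.1 (by decide +kernel)) (p2 h).2.2.1.1.1.1.1.2.2.1 (by decide +kernel)) (ndF (ndF (ndF TOK.nil TOK.nil (p2 h).2.2.1.1.1.1.2.2.1 (by decide +kernel)) (ndF TOK.nil TOK.nil (p2 h).2.2.1.1.1.1.2.2.2.2 (by decide +kernel)) (p2 h).2.2.1.1.1.1.2.2.2.1 (by decide +kernel)) (ndF (ndF TOK.nil TOK.nil (p2 h).2.2.1.1.1.2.1.1.2.1 (by decide +kernel))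 (ndF TOK.nil TOK.nil (p2 h).2.2.1.1.1.2.1.2.1 (by decide +kernel)) (p2 h).2.2.1.1.1.2.1.1.2.2 (by decide +kernel)) (p2 h).2.2.1.1.1.2.1.1.1 (by decide +kernel)) (p2 h).2.2.1.1.1.1.2.1.2.2 (by decide +kernel)) (ndF (ndF (ndF (ndF TOK.nil TOK.nil (p2 h).2.2.1.1.1.2.1.2.2.2 (by decide +kernel)) (ndF TOK.nil TOK.nil (p2 h).2.2.1.1.1.2.2.1.2.1 (by decide +kernel)) (p2 h).2.2.1.1.1.2.2.1.1 (by decide +kernel)) (ndF (ndF TOK.nil TOK.nil (p2 h).2.2.1.1.1.2.2.2.1 (by decide +kernel)) (ndF TOK.nil TOK.nil (p2 h).2.2.1.1.1.2.2.2.2.2 (by decide +kernel)) (p2 h).2.2.1.1.1.2.2.2.2.1 (by decide +kernel)) (p2 h).2.2.1.1.1.2.2.1.2.2 (by decide +kernel)) (ndF (ndF (ndF TOK.nil TOK.nil (p2 h).2.2.1.1.2.1.1.1.2.1 (by decide +kernel)) (ndF TOK.nil TOK.nil (p2 h).2.2.1.1.2.1.1.2.1 (by decide +kernel)) (p2 h).2.2.1.1.2.1.1.1.2.2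 (by decide +kernel)) (ndF (ndF TOK.nil TOK.nil (p2 h).2.2.1.1.2.1.1.2.2.2 (by decide +kernel)) TOK.nil (p2 h).2.2.1.1.2.1.2.1.1 (by decide +kernel)) (p2 h).2.2.1.1.2.1.1.2.2.1 (by decide +kernel)) (p2 h).2.2.1.1.2.1.1.1.1 (by decide +kernel)) (p2 h).2.2.1.1.1.2.1.2.2.1 (by decide +kernel)) (ndF (ndF (ndF (ndF (ndF TOK.nil TOK.nil (p2 h).2.2.1.1.2.1.2.1.2.2 (by decide +kernel)) (ndF TOK.nil TOK.nil (p2 h).2.2.1.1.2.1.2.2.2.1 (by decide +kernel)) (p2 h).2.2.1.1.2.1.2.2.1 (by decide +kernel)) (ndF (ndF TOK.nil TOK.nil (p2 h).2.2.1.1.2.2.1.1.1 (by decide +kernel)) (ndF TOK.nil TOK.nil (p2 h).2.2.1.1.2.2.1.1.2.2 (by decide +kernel)) (p2 h).2.2.1.1.2.2.1.1.2.1 (by decide +kernel)) (p2 h).2.2.1.1.2.1.2.2.2.2 (by decide +kernel)) (ndF (ndF (ndF TOK.nil TOK.nil (p2 h).2.2.1.1.2.2.1.2.2.1 (by decide +kernel))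 (ndF TOK.nil TOK.nil (p2 h).2.2.1.1.2.2.2.1.1 (by decide +kernel)) (p2 h).2.2.1.1.2.2.1.2.2.2 (by decide +kernel)) (ndF (ndF TOK.nil TOK.nil (p2 h).2.2.1.1.2.2.2.1.2.2 (by decide +kernel)) TOK.nil (p2 h).2.2.1.1.2.2.2.2.1 (by decide +kernel)) (p2 h).2.2.1.1.2.2.2.1.2.1 (by decide +kernel)) (p2 h).2.2.1.1.2.2.1.2.1 (by decide +kernel)) (ndF (ndF (ndF (ndF TOK.nil TOK.nil (p2 h).2.2.1.1.2.2.2.2.2.2 (by decide +kernel)) (ndF TOK.nil TOK.nil (p2 h).2.2.1.2.1.1.1.1.2.1 (by decide +kernel)) (p2 h).2.2.1.2.1.1.1.1.1 (by decide +kernel)) (ndF (ndF TOK.nil TOK.nil (p2 h).2.2.1.2.1.1.1.2.1 (by decide +kernel)) (ndF TOK.nil TOK.nil (p2 h).2.2.1.2.1.1.1.2.2.2 (by decide +kernel)) (p2 h).2.2.1.2.1.1.1.2.2.1 (by decide +kernel)) (p2 h).2.2.1.2.1.1.1.1.2.2 (by decide +kernel)) (ndF (ndF (ndF TOK.nil TOK.nil (p2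 h).2.2.1.2.1.1.2.1.2.1 (by decide +kernel)) (ndF TOK.nil TOK.nil (p2 h).2.2.1.2.1.1.2.2.1 (by decide +kernel)) (p2 h).2.2.1.2.1.1.2.1.2.2 (by decide +kernel)) (ndF (ndF TOK.nil TOK.nil (p2 h).2.2.1.2.1.1.2.2.2.2 (by decide +kernel)) TOK.nil (p2 h).2.2.1.2.1.2.1.1.1 (by decide +kernel)) (p2 h).2.2.1.2.1.1.2.2.2.1 (by decide +kernel)) (p2 h).2.2.1.2.1.1.2.1.1 (by decide +kernel)) (p2 h).2.2.1.1.2.2.2.2.2.1 (by decide +kernel)) (p2 h).2.2.1.1.2.1.2.1.2.1 (by decide +kernel)) (ndF (ndF (ndF (ndF (ndF (ndF TOK.nil TOK.nil (p2 h).2.2.1.2.1.2.1.1.2.2 (by decide +kernel)) (ndF TOK.nil TOK.nil (p2 h).2.2.1.2.1.2.1.2.2.1 (by decide +kernel)) (p2 h).2.2.1.2.1.2.1.2.1 (by decide +kernel)) (ndF (ndF TOK.nil TOK.nil (p2 h).2.2.1.2.1.2.2.1.1 (by decide +kernel)) (ndF TOK.nil TOK.nil (p2 h).2.2.1.2.1.2.2.1.2.2 (by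 decide +kernel)) (p2 h).2.2.1.2.1.2.2.1.2.1 (by decide +kernel)) (p2 h).2.2.1.2.1.2.1.2.2.2 (by decide +kernel)) (ndF (ndF (ndF TOK.nil TOK.nil (p2 h).2.2.1.2.1.2.2.2.2.1 (by decide +kernel)) (ndF TOK.nil TOK.nil (p2 h).2.2.1.2.2.1.1.1.1 (by decide +kernel)) (p2 h).2.2.1.2.1.2.2.2.2.2 (by decide +kernel)) (ndF (ndF TOK.nil TOK.nil (p2 h).2.2.1.2.2.1.1.1.2.2 (by decide +kernel)) TOK.nil (p2 h).2.2.1.2.2.1.1.2.1 (by decide +kernel)) (p2 h).2.2.1.2.2.1.1.1.2.1 (by decide +kernel)) (p2 h).2.2.1.2.1.2.2.2.1 (by decide +kernel)) (ndF (ndF (ndF (ndF TOK.nil TOK.nil (p2 h).2.2.1.2.2.1.1.2.2.2 (by decide +kernel)) (ndF TOK.nil TOK.nil (p2 h).2.2.1.2.2.1.2.1.2.1 (by decide +kernel)) (p2 h).2.2.1.2.2.1.2.1.1 (by decide +kernel)) (ndF (ndF TOK.nil TOK.nil (p2 h).2.2.1.2.2.1.2.2.1 (by decide +kernel)) (ndF TOK.nil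 TOK.nil (p2 h).2.2.1.2.2.1.2.2.2.2 (by decide +kernel)) (p2 h).2.2.1.2.2.1.2.2.2.1 (by decide +kernel)) (p2 h).2.2.1.2.2.1.2.1.2.2 (by decide +kernel)) (ndF (ndF (ndF TOK.nil TOK.nil (p2 h).2.2.1.2.2.2.1.1.2.1 (by decide +kernel)) (ndF TOK.nil TOK.nil (p2 h).2.2.1.2.2.2.1.2.1 (by decide +kernel)) (p2 h).2.2.1.2.2.2.1.1.2.2 (by decide +kernel)) (ndF (ndF TOK.nil TOK.nil (p2 h).2.2.1.2.2.2.1.2.2.2 (by decide +kernel)) TOK.nil (p2 h).2.2.1.2.2.2.2.1.1 (by decide +kernel)) (p2 h).2.2.1.2.2.2.1.2.2.1 (by decide +kernel)) (p2 h).2.2.1.2.2.2.1.1.1 (by decide +kernel)) (p2 h).2.2.1.2.2.1.1.2.2.1 (by decide +kernel)) (ndF (ndF (ndF (ndF (ndF TOK.nil TOK.nil (p2 h).2.2.1.2.2.2.2.1.2.2 (by decide +kernel)) (ndF TOK.nil TOK.nil (p2 h).2.2.1.2.2.2.2.2.1.2 (by decide +kernel)) (p2 h).2.2.1.2.2.2.2.2.1.1 (by decide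 +kernel)) (ndF (ndF TOK.nil TOK.nil (p2 h).2.2.1.2.2.2.2.2.2.2 (by decide +kernel)) (ndF TOK.nil TOK.nil (p2 h).2.2.2.1.1.1.1.1.2.1 (by decide +kernel)) (p2 h).2.2.2.1.1.1.1.1.1 (by decide +kernel)) (p2 h).2.2.1.2.2.2.2.2.2.1 (by decide +kernel)) (ndF (ndF (ndF TOK.nil TOK.nil (p2 h).2.2.2.1.1.1.1.2.1 (by decide +kernel)) (ndF TOK.nil TOK.nil (p2 h).2.2.2.1.1.1.1.2.2.2 (by decide +kernel)) (p2 h).2.2.2.1.1.1.1.2.2.1 (by decide +kernel)) (ndF (ndF TOK.nil TOK.nil (p2 h).2.2.2.1.1.1.2.1.2.1 (by decide +kernel)) TOK.nil (p2 h).2.2.2.1.1.1.2.1.2.2 (by decide +kernel)) (p2 h).2.2.2.1.1.1.2.1.1 (by decide +kernel)) (p2 h).2.2.2.1.1.1.1.1.2.2 (by decide +kernel)) (ndF (ndF (ndF (ndF TOK.nil TOK.nil (p2 h).2.2.2.1.1.1.2.2.2.1 (by decide +kernel)) (ndF TOK.nil TOK.nil (p2 h).2.2.2.1.1.2.1.1.1 (by decide +kernel))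 (p2 h).2.2.2.1.1.1.2.2.2.2 (by decide +kernel)) (ndF (ndF TOK.nil TOK.nil (p2 h).2.2.2.1.1.2.1.1.2.2 (by decide +kernel)) (ndF TOK.nil TOK.nil (p2 h).2.2.2.1.1.2.1.2.2.1 (by decide +kernel)) (p2 h).2.2.2.1.1.2.1.2.1 (by decide +kernel)) (p2 h).2.2.2.1.1.2.1.1.2.1 (by decide +kernel)) (ndF (ndF (ndF TOK.nil TOK.nil (p2 h).2.2.2.1.1.2.2.1.1 (by decide +kernel)) (ndF TOK.nil TOK.nil (p2 h).2.2.2.1.1.2.2.1.2.2 (by decide +kernel)) (p2 h).2.2.2.1.1.2.2.1.2.1 (by decide +kernel)) (ndF (ndF TOK.nil TOK.nil (p2 h).2.2.2.1.1.2.2.2.2.1 (by decide +kernel)) TOK.nil (p2 h).2.2.2.1.1.2.2.2.2.2 (by decide +kernel)) (p2 h).2.2.2.1.1.2.2.2.1 (by decide +kernel)) (p2 h).2.2.2.1.1.2.1.2.2.2 (by decide +kernel)) (p2 h).2.2.2.1.1.1.2.2.1 (by decide +kernel)) (p2 h).2.2.1.2.2.2.2.1.2.1 (by decide +kernel)) (p2 h).2.2.1.2.1.2.1.1.2.1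 (by decide +kernel)) (ndF (ndF (ndF (ndF (ndF (ndF (ndF TOK.nil TOK.nil (p2 h).2.2.2.1.2.1.1.1.2.1 (by decide +kernel)) (ndF TOK.nil TOK.nil (p2 h).2.2.2.1.2.1.1.2.1 (by decide +kernel)) (p2 h).2.2.2.1.2.1.1.1.2.2 (by decide +kernel)) (ndF (ndF TOK.nil TOK.nil (p2 h).2.2.2.1.2.1.1.2.2.2 (by decide +kernel)) (ndF TOK.nil TOK.nil (p2 h).2.2.2.1.2.1.2.1.2.1 (by decide +kernel)) (p2 h).2.2.2.1.2.1.2.1.1 (by decide +kernel)) (p2 h).2.2.2.1.2.1.1.2.2.1 (by decide +kernel)) (ndF (ndF (ndF TOK.nil TOK.nil (p2 h).2.2.2.1.2.1.2.2.1 (by decide +kernel)) (ndF TOK.nil TOK.nil (p2 h).2.2.2.1.2.1.2.2.2.2 (by decide +kernel)) (p2 h).2.2.2.1.2.1.2.2.2.1 (by decide +kernel)) (ndF (ndF TOK.nil TOK.nil (p2 h).2.2.2.1.2.2.1.1.2.1 (by decide +kernel)) TOK.nil (p2 h).2.2.2.1.2.2.1.1.2.2 (by decide +kernel)) (p2 h).2.2.2.1.2.2.1.1.1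 (by decide +kernel)) (p2 h).2.2.2.1.2.1.2.1.2.2 (by decide +kernel)) (ndF (ndF (ndF (ndF TOK.nil TOK.nil (p2 h).2.2.2.1.2.2.1.2.2.1 (by decide +kernel)) (ndF TOK.nil TOK.nil (p2 h).2.2.2.1.2.2.2.1.1 (by decide +kernel)) (p2 h).2.2.2.1.2.2.1.2.2.2 (by decide +kernel)) (ndF (ndF TOK.nil TOK.nil (p2 h).2.2.2.1.2.2.2.1.2.2 (by decide +kernel)) (ndF TOK.nil TOK.nil (p2 h).2.2.2.1.2.2.2.2.2.1 (by decide +kernel)) (p2 h).2.2.2.1.2.2.2.2.1 (by decide +kernel)) (p2 h).2.2.2.1.2.2.2.1.2.1 (by decide +kernel)) (ndF (ndF (ndF TOK.nil TOK.nil (p2 h).2.2.2.2.1.1.1.1.1 (by decide +kernel)) (ndF TOK.nil TOK.nil (p2 h).2.2.2.2.1.1.1.1.2.2 (by decide +kernel)) (p2 h).2.2.2.2.1.1.1.1.2.1 (by decide +kernel)) (ndF (ndF TOK.nil TOK.nil (p2 h).2.2.2.2.1.1.1.2.2.1 (by decide +kernel)) TOK.nil (p2 h).2.2.2.2.1.1.1.2.2.2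 (by decide +kernel)) (p2 h).2.2.2.2.1.1.1.2.1 (by decide +kernel)) (p2 h).2.2.2.1.2.2.2.2.2.2 (by decide +kernel)) (p2 h).2.2.2.1.2.2.1.2.1 (by decide +kernel)) (ndF (ndF (ndF (ndF (ndF TOK.nil TOK.nil (p2 h).2.2.2.2.1.1.2.1.2.1 (by decide +kernel)) (ndF TOK.nil TOK.nil (p2 h).2.2.2.2.1.1.2.2.1 (by decide +kernel)) (p2 h).2.2.2.2.1.1.2.1.2.2 (by decide +kernel)) (ndF (ndF TOK.nil TOK.nil (p2 h).2.2.2.2.1.1.2.2.2.2 (by decide +kernel)) (ndF TOK.nil TOK.nil (p2 h).2.2.2.2.1.2.1.1.2.1 (by decide +kernel)) (p2 h).2.2.2.2.1.2.1.1.1 (by decide +kernel)) (p2 h).2.2.2.2.1.1.2.2.2.1 (by decide +kernel)) (ndF (ndF (ndF TOK.nil TOK.nil (p2 h).2.2.2.2.1.2.1.2.1 (by decide +kernel)) (ndF TOK.nil TOK.nil (p2 h).2.2.2.2.1.2.1.2.2.2 (by decide +kernel)) (p2 h).2.2.2.2.1.2.1.2.2.1 (by decide +kernel)) (ndF (ndF TOK.nil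 TOK.nil (p2 h).2.2.2.2.1.2.2.1.2.1 (by decide +kernel)) TOK.nil (p2 h).2.2.2.2.1.2.2.1.2.2 (by decide +kernel)) (p2 h).2.2.2.2.1.2.2.1.1 (by decide +kernel)) (p2 h).2.2.2.2.1.2.1.1.2.2 (by decide +kernel)) (ndF (ndF (ndF (ndF TOK.nil TOK.nil (p2 h).2.2.2.2.1.2.2.2.2.1 (by decide +kernel)) (ndF TOK.nil TOK.nil (p2 h).2.2.2.2.2.1.1.1.1 (by decide +kernel)) (p2 h).2.2.2.2.1.2.2.2.2.2 (by decide +kernel)) (ndF (ndF TOK.nil TOK.nil (p2 h).2.2.2.2.2.1.1.1.2.2 (by decide +kernel)) (ndF TOK.nil TOK.nil (p2 h).2.2.2.2.2.1.1.2.2.1 (by decide +kernel)) (p2 h).2.2.2.2.2.1.1.2.1 (by decide +kernel)) (p2 h).2.2.2.2.2.1.1.1.2.1 (by decide +kernel)) (ndF (ndF (ndF TOK.nil TOK.nil (p2 h).2.2.2.2.2.1.2.1.1 (by decide +kernel)) (ndF TOK.nil TOK.nil (p2 h).2.2.2.2.2.1.2.1.2.2 (by decide +kernel)) (p2 h).2.2.2.2.2.1.2.1.2.1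 (by decide +kernel)) (ndF (ndF TOK.nil TOK.nil (p2 h).2.2.2.2.2.1.2.2.2.1 (by decide +kernel)) TOK.nil (p2 h).2.2.2.2.2.1.2.2.2.2 (by decide +kernel)) (p2 h).2.2.2.2.2.1.2.2.1 (by decide +kernel)) (p2 h).2.2.2.2.2.1.1.2.2.2 (by decide +kernel)) (p2 h).2.2.2.2.1.2.2.2.1 (by decide +kernel)) (p2 h).2.2.2.2.1.1.2.1.1 (by decide +kernel)) (ndF (ndF (ndF (ndF (ndF (ndF TOK.nil TOK.nil (p2 h).2.2.2.2.2.2.1.1.2.1 (by decide +kernel)) (ndF TOK.nil TOK.nil (p2 h).2.2.2.2.2.2.1.2.1 (by decide +kernel)) (p2 h).2.2.2.2.2.2.1.1.2.2 (by decide +kernel)) (ndF (ndF TOK.nil TOK.nil (p2 h).2.2.2.2.2.2.1.2.2.2 (by decide +kernel)) (ndF TOK.nil TOK.nil (p2 h).2.2.2.2.2.2.2.1.2.1 (by decide +kernel)) (p2 h).2.2.2.2.2.2.2.1.1 (by decide +kernel)) (p2 h).2.2.2.2.2.2.1.2.2.1 (by decide +kernel)) (ndF (ndF (ndF TOK.nil TOK.nil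 (p2 h).2.2.2.2.2.2.2.2.1.1 (by decide +kernel)) (ndF TOK.nil TOK.nil (p2 h).2.2.2.2.2.2.2.2.2.1 (by decide +kernel)) (p2 h).2.2.2.2.2.2.2.2.1.2 (by decide +kernel)) (ndF (ndF TOK.nil TOK.nil (p3 h).1.1.1.1.1.1.1.1 (by decide +kernel)) TOK.nil (p3 h).1.1.1.1.1.1.1.2 (by decide +kernel)) (p2 h).2.2.2.2.2.2.2.2.2.2 (by decide +kernel)) (p2 h).2.2.2.2.2.2.2.1.2.2 (by decide +kernel)) (ndF (ndF (ndF (ndF TOK.nil TOK.nil (p3 h).1.1.1.1.1.1.2.2.1 (by decide +kernel)) (ndF TOK.nil TOK.nil (p3 h).1.1.1.1.1.2.1.1 (by decide +kernel)) (p3 h).1.1.1.1.1.1.2.2.2 (by decide +kernel)) (ndF (ndF TOK.nil TOK.nil (p3 h).1.1.1.1.1.2.1.2.2 (by decide +kernel)) (ndF TOK.nil TOK.nil (p3 h).1.1.1.1.1.2.2.2.1 (by decide +kernel)) (p3 h).1.1.1.1.1.2.2.1 (by decide +kernel)) (p3 h).1.1.1.1.1.2.1.2.1 (by decide +kernel)) (ndF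 (ndF (ndF TOK.nil TOK.nil (p3 h).1.1.1.1.2.1.1.1 (by decide +kernel)) (ndF TOK.nil TOK.nil (p3 h).1.1.1.1.2.1.2.1 (by decide +kernel)) (p3 h).1.1.1.1.2.1.1.2 (by decide +kernel)) (ndF (ndF TOK.nil TOK.nil (p3 h).1.1.1.1.2.1.2.2.2 (by decide +kernel)) TOK.nil (p3 h).1.1.1.1.2.2.1.1 (by decide +kernel)) (p3 h).1.1.1.1.2.1.2.2.1 (by decide +kernel)) (p3 h).1.1.1.1.1.2.2.2.2 (by decide +kernel)) (p3 h).1.1.1.1.1.1.2.1 (by decide +kernel)) (ndF (ndF (ndF (ndF (ndF TOK.nil TOK.nil (p3 h).1.1.1.1.2.2.1.2.2 (by decide +kernel)) (ndF TOK.nil TOK.nil (p3 h).1.1.1.1.2.2.2.2.1 (by decide +kernel)) (p3 h).1.1.1.1.2.2.2.1 (by decide +kernel)) (ndF (ndF TOK.nil TOK.nil (p3 h).1.1.1.2.1.1.1.1 (by decide +kernel)) (ndF TOK.nil TOK.nil (p3 h).1.1.1.2.1.1.2.1 (by decide +kernel)) (p3 h).1.1.1.2.1.1.1.2 (by decide +kernel))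 (p3 h).1.1.1.1.2.2.2.2.2 (by decide +kernel)) (ndF (ndF (ndF TOK.nil TOK.nil (p3 h).1.1.1.2.1.1.2.2.2 (by decide +kernel)) (ndF TOK.nil TOK.nil (p3 h).1.1.1.2.1.2.1.2.1 (by decide +kernel)) (p3 h).1.1.1.2.1.2.1.1 (by decide +kernel)) (ndF (ndF TOK.nil TOK.nil (p3 h).1.1.1.2.1.2.2.1 (by decide +kernel)) TOK.nil (p3 h).1.1.1.2.1.2.2.2.1 (by decide +kernel)) (p3 h).1.1.1.2.1.2.1.2.2 (by decide +kernel)) (p3 h).1.1.1.2.1.1.2.2.1 (by decide +kernel)) (ndF (ndF (ndF (ndF TOK.nil TOK.nil (p3 h).1.1.1.2.2.1.1.1 (by decide +kernel)) (ndF TOK.nil TOK.nil (p3 h).1.1.1.2.2.1.2.1 (by decide +kernel)) (p3 h).1.1.1.2.2.1.1.2 (by decide +kernel)) (ndF (ndF TOK.nil TOK.nil (p3 h).1.1.1.2.2.1.2.2.2 (by decide +kernel)) (ndF TOK.nil TOK.nil (p3 h).1.1.1.2.2.2.1.2.1 (by decide +kernel)) (p3 h).1.1.1.2.2.2.1.1 (by decide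 +kernel)) (p3 h).1.1.1.2.2.1.2.2.1 (by decide +kernel)) (ndF (ndF (ndF TOK.nil TOK.nil (p3 h).1.1.1.2.2.2.2.1 (by decide +kernel)) (ndF TOK.nil TOK.nil (p3 h).1.1.1.2.2.2.2.2.2 (by decide +kernel)) (p3 h).1.1.1.2.2.2.2.2.1 (by decide +kernel)) (ndF (ndF TOK.nil TOK.nil (p3 h).1.1.2.1.1.1.1.2 (by decide +kernel)) TOK.nil (p3 h).1.1.2.1.1.1.2.1 (by decide +kernel)) (p3 h).1.1.2.1.1.1.1.1 (by decide +kernel)) (p3 h).1.1.1.2.2.2.1.2.2 (by decide +kernel)) (p3 h).1.1.1.2.1.2.2.2.2 (by decide +kernel)) (p3 h).1.1.1.1.2.2.1.2.1 (by decide +kernel)) (p2 h).2.2.2.2.2.2.1.1.1 (by decide +kernel)) (p2 h).2.2.2.1.2.1.1.1.1 (by decide +kernel))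

theorem T_100_120_ok (h : RcOK RE.rowE) : T_100_120.OK :=
  okF (by decide +kernel) (ndF (ndF (ndF (ndF (ndF (ndF (ndF (ndF TOK.nil TOK.nil (p3 h).1.1.2.1.1.1.2.2.1 (by decide +kernel)) (ndF TOK.nil TOK.nil (p3 h).1.1.2.1.1.2.1.1 (by decide +kernel)) (p3 h).1.1.2.1.1.1.2.2.2 (by decide +kernel)) (ndF (ndF TOK.nil TOK.nil (p3 h).1.1.2.1.1.2.1.2.2 (by decide +kernel)) TOK.nil (p3 h).1.1.2.1.1.2.2.1 (by decide +kernel)) (p3 h).1.1.2.1.1.2.1.2.1 (by decide +kernel)) (ndF (ndF (ndF TOK.nil TOK.nil (p3 h).1.1.2.1.1.2.2.2.2 (by decide +kernel)) (ndF TOK.nil TOK.nil (p3 h).1.1.2.1.2.1.1.2 (by decide +kernel)) (p3 h).1.1.2.1.2.1.1.1 (by decide +kernel)) (ndF (ndF TOK.nil TOK.nil (p3 h).1.1.2.1.2.1.2.2.1 (by decide +kernel)) TOK.nil (p3 h).1.1.2.1.2.1.2.2.2 (by decide +kernel)) (p3 h).1.1.2.1.2.1.2.1 (by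 decide +kernel)) (p3 h).1.1.2.1.1.2.2.2.1 (by decide +kernel)) (ndF (ndF (ndF (ndF TOK.nil TOK.nil (p3 h).1.1.2.1.2.2.1.2.1 (by decide +kernel)) (ndF TOK.nil TOK.nil (p3 h).1.1.2.1.2.2.2.1 (by decide +kernel)) (p3 h).1.1.2.1.2.2.1.2.2 (by decide +kernel)) (ndF (ndF TOK.nil TOK.nil (p3 h).1.1.2.1.2.2.2.2.2 (by decide +kernel)) TOK.nil (p3 h).1.1.2.2.1.1.1.1 (by decide +kernel)) (p3 h).1.1.2.1.2.2.2.2.1 (by decide +kernel)) (ndF (ndF (ndF TOK.nil TOK.nil (p3 h).1.1.2.2.1.1.2.1 (by decide +kernel)) (ndF TOK.nil TOK.nil (p3 h).1.1.2.2.1.1.2.2.2 (by decide +kernel)) (p3 h).1.1.2.2.1.1.2.2.1 (by decide +kernel)) (ndF (ndF TOK.nil TOK.nil (p3 h).1.1.2.2.1.2.1.2.1 (by decide +kernel)) TOK.nil (p3 h).1.1.2.2.1.2.1.2.2 (by decide +kernel)) (p3 h).1.1.2.2.1.2.1.1 (by decide +kernel)) (p3 h).1.1.2.2.1.1.1.2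 (by decide +kernel)) (p3 h).1.1.2.1.2.2.1.1 (by decide +kernel)) (ndF (ndF (ndF (ndF (ndF TOK.nil TOK.nil (p3 h).1.1.2.2.1.2.2.2.1 (by decide +kernel)) (ndF TOK.nil TOK.nil (p3 h).1.1.2.2.2.1.1.1 (by decide +kernel)) (p3 h).1.1.2.2.1.2.2.2.2 (by decide +kernel)) (ndF (ndF TOK.nil TOK.nil (p3 h).1.1.2.2.2.1.1.2.2 (by decide +kernel)) TOK.nil (p3 h).1.1.2.2.2.1.2.1 (by decide +kernel)) (p3 h).1.1.2.2.2.1.1.2.1 (by decide +kernel)) (ndF (ndF (ndF TOK.nil TOK.nil (p3 h).1.1.2.2.2.1.2.2.2 (by decide +kernel)) (ndF TOK.nil TOK.nil (p3 h).1.1.2.2.2.2.1.2.1 (by decide +kernel)) (p3 h).1.1.2.2.2.2.1.1 (by decide +kernel)) (ndF (ndF TOK.nil TOK.nil (p3 h).1.1.2.2.2.2.2.1 (by decide +kernel)) TOK.nil (p3 h).1.1.2.2.2.2.2.2.1 (by decide +kernel)) (p3 h).1.1.2.2.2.2.1.2.2 (by decide +kernel)) (p3 h).1.1.2.2.2.1.2.2.1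 (by decide +kernel)) (ndF (ndF (ndF (ndF TOK.nil TOK.nil (p3 h).1.2.1.1.1.1.1.1 (by decide +kernel)) (ndF TOK.nil TOK.nil (p3 h).1.2.1.1.1.1.2.1 (by decide +kernel)) (p3 h).1.2.1.1.1.1.1.2 (by decide +kernel)) (ndF (ndF TOK.nil TOK.nil (p3 h).1.2.1.1.1.1.2.2.2 (by decide +kernel)) TOK.nil (p3 h).1.2.1.1.1.2.1.1 (by decide +kernel)) (p3 h).1.2.1.1.1.1.2.2.1 (by decide +kernel)) (ndF (ndF (ndF TOK.nil TOK.nil (p3 h).1.2.1.1.1.2.1.2.2 (by decide +kernel)) TOK.nil (p3 h).1.2.1.1.1.2.2.1 (by decide +kernel)) (ndF (ndF TOK.nil TOK.nil (p3 h).1.2.1.1.1.2.2.2.2 (by decide +kernel)) TOK.nil (p3 h).1.2.1.1.2.1.1.1 (by decide +kernel)) (p3 h).1.2.1.1.1.2.2.2.1 (by decide +kernel)) (p3 h).1.2.1.1.1.2.1.2.1 (by decide +kernel)) (p3 h).1.1.2.2.2.2.2.2.2 (by decide +kernel)) (p3 h).1.1.2.2.1.2.2.1 (by decide +kernel))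 (ndF (ndF (ndF (ndF (ndF (ndF TOK.nil TOK.nil (p3 h).1.2.1.1.2.1.2.1 (by decide +kernel)) (ndF TOK.nil TOK.nil (p3 h).1.2.1.1.2.1.2.2.2 (by decide +kernel)) (p3 h).1.2.1.1.2.1.2.2.1 (by decide +kernel)) (ndF (ndF TOK.nil TOK.nil (p3 h).1.2.1.1.2.2.1.2.1 (by decide +kernel)) TOK.nil (p3 h).1.2.1.1.2.2.1.2.2 (by decide +kernel)) (p3 h).1.2.1.1.2.2.1.1 (by decide +kernel)) (ndF (ndF (ndF TOK.nil TOK.nil (p3 h).1.2.1.1.2.2.2.2.1 (by decide +kernel)) (ndF TOK.nil TOK.nil (p3 h).1.2.1.2.1.1.1.1 (by decide +kernel)) (p3 h).1.2.1.1.2.2.2.2.2 (by decide +kernel)) (ndF (ndF TOK.nil TOK.nil (p3 h).1.2.1.2.1.1.2.1 (by decide +kernel)) TOK.nil (p3 h).1.2.1.2.1.1.2.2.1 (by decide +kernel)) (p3 h).1.2.1.2.1.1.1.2 (by decide +kernel)) (p3 h).1.2.1.1.2.2.2.1 (by decide +kernel)) (ndF (ndF (ndF (ndF TOK.nil TOK.nil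 (p3 h).1.2.1.2.1.2.1.1 (by decide +kernel)) (ndF TOK.nil TOK.nil (p3 h).1.2.1.2.1.2.1.2.2 (by decide +kernel)) (p3 h).1.2.1.2.1.2.1.2.1 (by decide +kernel)) (ndF (ndF TOK.nil TOK.nil (p3 h).1.2.1.2.1.2.2.2.1 (by decide +kernel)) TOK.nil (p3 h).1.2.1.2.1.2.2.2.2 (by decide +kernel)) (p3 h).1.2.1.2.1.2.2.1 (by decide +kernel)) (ndF (ndF (ndF TOK.nil TOK.nil (p3 h).1.2.1.2.2.1.1.2 (by decide +kernel)) (ndF TOK.nil TOK.nil (p3 h).1.2.1.2.2.1.2.2.1 (by decide +kernel)) (p3 h).1.2.1.2.2.1.2.1 (by decide +kernel)) (ndF (ndF TOK.nil TOK.nil (p3 h).1.2.1.2.2.2.1.1 (by decide +kernel)) TOK.nil (p3 h).1.2.1.2.2.2.1.2.1 (by decide +kernel)) (p3 h).1.2.1.2.2.1.2.2.2 (by decide +kernel)) (p3 h).1.2.1.2.2.1.1.1 (by decide +kernel)) (p3 h).1.2.1.2.1.1.2.2.2 (by decide +kernel)) (ndF (ndF (ndF (ndF (ndF TOK.nil TOK.nil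 (p3 h).1.2.1.2.2.2.2.1 (by decide +kernel)) (ndF TOK.nil TOK.nil (p3 h).1.2.1.2.2.2.2.2.2 (by decide +kernel)) (p3 h).1.2.1.2.2.2.2.2.1 (by decide +kernel)) (ndF (ndF TOK.nil TOK.nil (p3 h).1.2.2.1.1.1.1.2 (by decide +kernel)) TOK.nil (p3 h).1.2.2.1.1.1.2.1 (by decide +kernel)) (p3 h).1.2.2.1.1.1.1.1 (by decide +kernel)) (ndF (ndF (ndF TOK.nil TOK.nil (p3 h).1.2.2.1.1.1.2.2.2 (by decide +kernel)) (ndF TOK.nil TOK.nil (p3 h).1.2.2.1.1.2.1.2.1 (by decide +kernel)) (p3 h).1.2.2.1.1.2.1.1 (by decide +kernel)) (ndF (ndF TOK.nil TOK.nil (p3 h).1.2.2.1.1.2.2.1 (by decide +kernel)) TOK.nil (p3 h).1.2.2.1.1.2.2.2.1 (by decide +kernel)) (p3 h).1.2.2.1.1.2.1.2.2 (by decide +kernel)) (p3 h).1.2.2.1.1.1.2.2.1 (by decide +kernel)) (ndF (ndF (ndF (ndF TOK.nil TOK.nil (p3 h).1.2.2.1.2.1.1.1 (by decide +kernel))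 (ndF TOK.nil TOK.nil (p3 h).1.2.2.1.2.1.2.1 (by decide +kernel)) (p3 h).1.2.2.1.2.1.1.2 (by decide +kernel)) (ndF (ndF TOK.nil TOK.nil (p3 h).1.2.2.1.2.1.2.2.2 (by decide +kernel)) TOK.nil (p3 h).1.2.2.1.2.2.1.1 (by decide +kernel)) (p3 h).1.2.2.1.2.1.2.2.1 (by decide +kernel)) (ndF (ndF (ndF TOK.nil TOK.nil (p3 h).1.2.2.1.2.2.1.2.2 (by decide +kernel)) TOK.nil (p3 h).1.2.2.1.2.2.2.1 (by decide +kernel)) (ndF (ndF TOK.nil TOK.nil (p3 h).1.2.2.1.2.2.2.2.2 (by decide +kernel)) TOK.nil (p3 h).1.2.2.2.1.1.1.1 (by decide +kernel)) (p3 h).1.2.2.1.2.2.2.2.1 (by decide +kernel)) (p3 h).1.2.2.1.2.2.1.2.1 (by decide +kernel)) (p3 h).1.2.2.1.1.2.2.2.2 (by decide +kernel)) (p3 h).1.2.1.2.2.2.1.2.2 (by decide +kernel)) (p3 h).1.2.1.1.2.1.1.2 (by decide +kernel)) (ndF (ndF (ndF (ndF (ndF (ndF (ndF TOK.nil TOK.nil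 (p3 h).1.2.2.2.1.1.2.1 (by decide +kernel)) (ndF TOK.nil TOK.nil (p3 h).1.2.2.2.1.1.2.2.2 (by decide +kernel)) (p3 h).1.2.2.2.1.1.2.2.1 (by decide +kernel)) (ndF (ndF TOK.nil TOK.nil (p3 h).1.2.2.2.1.2.1.2.1 (by decide +kernel)) TOK.nil (p3 h).1.2.2.2.1.2.1.2.2 (by decide +kernel)) (p3 h).1.2.2.2.1.2.1.1 (by decide +kernel)) (ndF (ndF (ndF TOK.nil TOK.nil (p3 h).1.2.2.2.1.2.2.2.1 (by decide +kernel)) (ndF TOK.nil TOK.nil (p3 h).1.2.2.2.2.1.1.1 (by decide +kernel)) (p3 h).1.2.2.2.1.2.2.2.2 (by decide +kernel)) (ndF (ndF TOK.nil TOK.nil (p3 h).1.2.2.2.2.1.1.2.2 (by decide +kernel)) TOK.nil (p3 h).1.2.2.2.2.1.2.1 (by decide +kernel)) (p3 h).1.2.2.2.2.1.1.2.1 (by decide +kernel)) (p3 h).1.2.2.2.1.2.2.1 (by decide +kernel)) (ndF (ndF (ndF (ndF TOK.nil TOK.nil (p3 h).1.2.2.2.2.1.2.2.2 (by decide +kernel))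 (ndF TOK.nil TOK.nil (p3 h).1.2.2.2.2.2.1.2.1 (by decide +kernel)) (p3 h).1.2.2.2.2.2.1.1 (by decide +kernel)) (ndF (ndF TOK.nil TOK.nil (p3 h).1.2.2.2.2.2.2.1 (by decide +kernel)) TOK.nil (p3 h).1.2.2.2.2.2.2.2.1 (by decide +kernel)) (p3 h).1.2.2.2.2.2.1.2.2 (by decide +kernel)) (ndF (ndF (ndF TOK.nil TOK.nil (p3 h).2.1.1.1.1.1.1.1 (by decide +kernel)) (ndF TOK.nil TOK.nil (p3 h).2.1.1.1.1.1.2.1 (by decide +kernel)) (p3 h).2.1.1.1.1.1.1.2 (by decide +kernel)) (ndF (ndF TOK.nil TOK.nil (p3 h).2.1.1.1.1.1.2.2.2 (by decide +kernel)) TOK.nil (p3 h).2.1.1.1.1.2.1.1 (by decide +kernel)) (p3 h).2.1.1.1.1.1.2.2.1 (by decide +kernel)) (p3 h).1.2.2.2.2.2.2.2.2 (by decide +kernel)) (p3 h).1.2.2.2.2.1.2.2.1 (by decide +kernel)) (ndF (ndF (ndF (ndF (ndF TOK.nil TOK.nil (p3 h).2.1.1.1.1.2.1.2.2 (by decide +kernel))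 (ndF TOK.nil TOK.nil (p3 h).2.1.1.1.1.2.2.2.1 (by decide +kernel)) (p3 h).2.1.1.1.1.2.2.1 (by decide +kernel)) (ndF (ndF TOK.nil TOK.nil (p3 h).2.1.1.1.2.1.1.1 (by decide +kernel)) TOK.nil (p3 h).2.1.1.1.2.1.1.2 (by decide +kernel)) (p3 h).2.1.1.1.1.2.2.2.2 (by decide +kernel)) (ndF (ndF (ndF TOK.nil TOK.nil (p3 h).2.1.1.1.2.1.2.2.1 (by decide +kernel)) (ndF TOK.nil TOK.nil (p3 h).2.1.1.1.2.2.1.1 (by decide +kernel)) (p3 h).2.1.1.1.2.1.2.2.2 (by decide +kernel)) (ndF (ndF TOK.nil TOK.nil (p3 h).2.1.1.1.2.2.1.2.2 (by decide +kernel)) TOK.nil (p3 h).2.1.1.1.2.2.2.1 (by decide +kernel)) (p3 h).2.1.1.1.2.2.1.2.1 (by decide +kernel)) (p3 h).2.1.1.1.2.1.2.1 (by decide +kernel)) (ndF (ndF (ndF (ndF TOK.nil TOK.nil (p3 h).2.1.1.1.2.2.2.2.2 (by decide +kernel)) (ndF TOK.nil TOK.nil (p3 h).2.1.1.2.1.1.1.2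 (by decide +kernel)) (p3 h).2.1.1.2.1.1.1.1 (by decide +kernel)) (ndF (ndF TOK.nil TOK.nil (p3 h).2.1.1.2.1.1.2.2.1 (by decide +kernel)) TOK.nil (p3 h).2.1.1.2.1.1.2.2.2 (by decide +kernel)) (p3 h).2.1.1.2.1.1.2.1 (by decide +kernel)) (ndF (ndF (ndF TOK.nil TOK.nil (p3 h).2.1.1.2.1.2.1.2.1 (by decide +kernel)) TOK.nil (p3 h).2.1.1.2.1.2.1.2.2 (by decide +kernel)) (ndF (ndF TOK.nil TOK.nil (p3 h).2.1.1.2.1.2.2.2.1 (by decide +kernel)) TOK.nil (p3 h).2.1.1.2.1.2.2.2.2 (by decide +kernel)) (p3 h).2.1.1.2.1.2.2.1 (by decide +kernel)) (p3 h).2.1.1.2.1.2.1.1 (by decide +kernel)) (p3 h).2.1.1.1.2.2.2.2.1 (by decide +kernel)) (p3 h).2.1.1.1.1.2.1.2.1 (by decide +kernel)) (ndF (ndF (ndF (ndF (ndF (ndF TOK.nil TOK.nil (p3 h).2.1.1.2.2.1.1.2 (by decide +kernel)) (ndF TOK.nil TOK.nil (p3 h).2.1.1.2.2.1.2.2.1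 (by decide +kernel)) (p3 h).2.1.1.2.2.1.2.1 (by decide +kernel)) (ndF (ndF TOK.nil TOK.nil (p3 h).2.1.1.2.2.2.1.1 (by decide +kernel)) TOK.nil (p3 h).2.1.1.2.2.2.1.2.1 (by decide +kernel)) (p3 h).2.1.1.2.2.1.2.2.2 (by decide +kernel)) (ndF (ndF (ndF TOK.nil TOK.nil (p3 h).2.1.1.2.2.2.2.1 (by decide +kernel)) (ndF TOK.nil TOK.nil (p3 h).2.1.1.2.2.2.2.2.2 (by decide +kernel)) (p3 h).2.1.1.2.2.2.2.2.1 (by decide +kernel)) (ndF (ndF TOK.nil TOK.nil (p3 h).2.1.2.1.1.1.1.2 (by decide +kernel)) TOK.nil (p3 h).2.1.2.1.1.1.2.1 (by decide +kernel)) (p3 h).2.1.2.1.1.1.1.1 (by decide +kernel)) (p3 h).2.1.1.2.2.2.1.2.2 (by decide +kernel)) (ndF (ndF (ndF (ndF TOK.nil TOK.nil (p3 h).2.1.2.1.1.1.2.2.2 (by decide +kernel)) (ndF TOK.nil TOK.nil (p3 h).2.1.2.1.1.2.1.2.1 (by decide +kernel)) (p3 h).2.1.2.1.1.2.1.1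 (by decide +kernel)) (ndF (ndF TOK.nil TOK.nil (p3 h).2.1.2.1.1.2.2.1 (by decide +kernel)) TOK.nil (p3 h).2.1.2.1.1.2.2.2.1 (by decide +kernel)) (p3 h).2.1.2.1.1.2.1.2.2 (by decide +kernel)) (ndF (ndF (ndF TOK.nil TOK.nil (p3 h).2.1.2.1.2.1.1.1 (by decide +kernel)) TOK.nil (p3 h).2.1.2.1.2.1.1.2 (by decide +kernel)) (ndF (ndF TOK.nil TOK.nil (p3 h).2.1.2.1.2.1.2.2.1 (by decide +kernel)) TOK.nil (p3 h).2.1.2.1.2.1.2.2.2 (by decide +kernel)) (p3 h).2.1.2.1.2.1.2.1 (by decide +kernel)) (p3 h).2.1.2.1.1.2.2.2.2 (by decide +kernel)) (p3 h).2.1.2.1.1.1.2.2.1 (by decide +kernel)) (ndF (ndF (ndF (ndF (ndF TOK.nil TOK.nil (p3 h).2.1.2.1.2.2.1.2.1 (by decide +kernel)) (ndF TOK.nil TOK.nil (p3 h).2.1.2.1.2.2.2.1 (by decide +kernel)) (p3 h).2.1.2.1.2.2.1.2.2 (by decide +kernel)) (ndF (ndF TOK.nil TOK.nil (p3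 h).2.1.2.1.2.2.2.2.2 (by decide +kernel)) TOK.nil (p3 h).2.1.2.2.1.1.1.1 (by decide +kernel)) (p3 h).2.1.2.1.2.2.2.2.1 (by decide +kernel)) (ndF (ndF (ndF TOK.nil TOK.nil (p3 h).2.1.2.2.1.1.2.1 (by decide +kernel)) (ndF TOK.nil TOK.nil (p3 h).2.1.2.2.1.1.2.2.2 (by decide +kernel)) (p3 h).2.1.2.2.1.1.2.2.1 (by decide +kernel)) (ndF (ndF TOK.nil TOK.nil (p3 h).2.1.2.2.1.2.1.2.1 (by decide +kernel)) TOK.nil (p3 h).2.1.2.2.1.2.1.2.2 (by decide +kernel)) (p3 h).2.1.2.2.1.2.1.1 (by decide +kernel)) (p3 h).2.1.2.2.1.1.1.2 (by decide +kernel)) (ndF (ndF (ndF (ndF TOK.nil TOK.nil (p3 h).2.1.2.2.1.2.2.2.1 (by decide +kernel)) (ndF TOK.nil TOK.nil (p3 h).2.1.2.2.2.1.1.1 (by decide +kernel)) (p3 h).2.1.2.2.1.2.2.2.2 (by decide +kernel)) (ndF (ndF TOK.nil TOK.nil (p3 h).2.1.2.2.2.1.1.2.2 (by decide +kernel))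 TOK.nil (p3 h).2.1.2.2.2.1.2.1 (by decide +kernel)) (p3 h).2.1.2.2.2.1.1.2.1 (by decide +kernel)) (ndF (ndF (ndF TOK.nil TOK.nil (p3 h).2.1.2.2.2.1.2.2.2 (by decide +kernel)) TOK.nil (p3 h).2.1.2.2.2.2.1.1 (by decide +kernel)) (ndF (ndF TOK.nil TOK.nil (p3 h).2.1.2.2.2.2.1.2.2 (by decide +kernel)) TOK.nil (p3 h).2.1.2.2.2.2.2.1 (by decide +kernel)) (p3 h).2.1.2.2.2.2.1.2.1 (by decide +kernel)) (p3 h).2.1.2.2.2.1.2.2.1 (by decide +kernel)) (p3 h).2.1.2.2.1.2.2.1 (by decide +kernel)) (p3 h).2.1.2.1.2.2.1.1 (by decide +kernel)) (p3 h).2.1.1.2.2.1.1.1 (by decide +kernel)) (p3 h).1.2.2.2.1.1.1.2 (by decide +kernel))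

theorem T_80_100_ok (h : RcOK RE.rowE) : T_80_100.OK :=
  okF (by decide +kernel) (ndF (ndF (ndF (ndF (ndF (ndF (ndF (ndF TOK.nil TOK.nil (p3 h).2.1.2.2.2.2.2.2.1 (by decide +kernel)) TOK.nil (p3 h).2.1.2.2.2.2.2.2.2 (by decide +kernel)) (ndF (ndF TOK.nil TOK.nil (p3 h).2.2.1.1.1.1.1.2 (by decide +kernel)) TOK.nil (p3 h).2.2.1.1.1.1.2.1 (by decide +kernel)) (p3 h).2.2.1.1.1.1.1.1 (by decide +kernel)) (ndF (ndF (ndF TOK.nil TOK.nil (p3 h).2.2.1.1.1.1.2.2.2 (by decide +kernel)) TOK.nil (p3 h).2.2.1.1.1.2.1.1 (by decide +kernel)) (ndF (ndF TOK.nil TOK.nil (p3 h).2.2.1.1.1.2.1.2.2 (by decide +kernel)) TOK.nil (p3 h).2.2.1.1.1.2.2.1 (by decide +kernel)) (p3 h).2.2.1.1.1.2.1.2.1 (by decide +kernel)) (p3 h).2.2.1.1.1.1.2.2.1 (by decide +kernel)) (ndF (ndF (ndF (ndF TOK.nil TOK.nil (p3 h).2.2.1.1.1.2.2.2.2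 (by decide +kernel)) TOK.nil (p3 h).2.2.1.1.2.1.1.1 (by decide +kernel)) (ndF (ndF TOK.nil TOK.nil (p3 h).2.2.1.1.2.1.2.1 (by decide +kernel)) TOK.nil (p3 h).2.2.1.1.2.1.2.2.1 (by decide +kernel)) (p3 h).2.2.1.1.2.1.1.2 (by decide +kernel)) (ndF (ndF (ndF TOK.nil TOK.nil (p3 h).2.2.1.1.2.2.1.1 (by decide +kernel)) TOK.nil (p3 h).2.2.1.1.2.2.1.2.1 (by decide +kernel)) (ndF TOK.nil TOK.nil (p3 h).2.2.1.1.2.2.2.1 (by decide +kernel)) (p3 h).2.2.1.1.2.2.1.2.2 (by decide +kernel)) (p3 h).2.2.1.1.2.1.2.2.2 (by decide +kernel)) (p3 h).2.2.1.1.1.2.2.2.1 (by decide +kernel)) (ndF (ndF (ndF (ndF (ndF TOK.nil TOK.nil (p3 h).2.2.1.1.2.2.2.2.2 (by decide +kernel)) TOK.nil (p3 h).2.2.1.2.1.1.1.1 (by decide +kernel)) (ndF (ndF TOK.nil TOK.nil (p3 h).2.2.1.2.1.1.2.1 (by decide +kernel)) TOK.nil (p3 h).2.2.1.2.1.1.2.2.1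 (by decide +kernel)) (p3 h).2.2.1.2.1.1.1.2 (by decide +kernel)) (ndF (ndF (ndF TOK.nil TOK.nil (p3 h).2.2.1.2.1.2.1.1 (by decide +kernel)) TOK.nil (p3 h).2.2.1.2.1.2.1.2.1 (by decide +kernel)) (ndF (ndF TOK.nil TOK.nil (p3 h).2.2.1.2.1.2.2.1 (by decide +kernel)) TOK.nil (p3 h).2.2.1.2.1.2.2.2.1 (by decide +kernel)) (p3 h).2.2.1.2.1.2.1.2.2 (by decide +kernel)) (p3 h).2.2.1.2.1.1.2.2.2 (by decide +kernel)) (ndF (ndF (ndF (ndF TOK.nil TOK.nil (p3 h).2.2.1.2.2.1.1.1 (by decide +kernel)) TOK.nil (p3 h).2.2.1.2.2.1.1.2.1 (by decide +kernel)) (ndF (ndF TOK.nil TOK.nil (p3 h).2.2.1.2.2.1.2.1 (by decide +kernel)) TOK.nil (p3 h).2.2.1.2.2.1.2.2.1 (by decide +kernel)) (p3 h).2.2.1.2.2.1.1.2.2 (by decide +kernel)) (ndF (ndF (ndF TOK.nil TOK.nil (p3 h).2.2.1.2.2.2.1.1 (by decide +kernel)) TOK.nil (p3 h).2.2.1.2.2.2.1.2.1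 (by decide +kernel)) (ndF TOK.nil TOK.nil (p3 h).2.2.1.2.2.2.2.1 (by decide +kernel)) (p3 h).2.2.1.2.2.2.1.2.2 (by decide +kernel)) (p3 h).2.2.1.2.2.1.2.2.2 (by decide +kernel)) (p3 h).2.2.1.2.1.2.2.2.2 (by decide +kernel)) (p3 h).2.2.1.1.2.2.2.2.1 (by decide +kernel)) (ndF (ndF (ndF (ndF (ndF (ndF TOK.nil TOK.nil (p3 h).2.2.1.2.2.2.2.2.2 (by decide +kernel)) TOK.nil (p3 h).2.2.2.1.1.1.1.1 (by decide +kernel)) (ndF (ndF TOK.nil TOK.nil (p3 h).2.2.2.1.1.1.2.1 (by decide +kernel)) TOK.nil (p3 h).2.2.2.1.1.1.2.2.1 (by decide +kernel)) (p3 h).2.2.2.1.1.1.1.2 (by decide +kernel)) (ndF (ndF (ndF TOK.nil TOK.nil (p3 h).2.2.2.1.1.2.1.1 (by decide +kernel)) TOK.nil (p3 h).2.2.2.1.1.2.1.2.1 (by decide +kernel)) (ndF (ndF TOK.nil TOK.nil (p3 h).2.2.2.1.1.2.2.1 (by decide +kernel)) TOK.nil (p3 h).2.2.2.1.1.2.2.2.1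 (by decide +kernel)) (p3 h).2.2.2.1.1.2.1.2.2 (by decide +kernel)) (p3 h).2.2.2.1.1.1.2.2.2 (by decide +kernel)) (ndF (ndF (ndF (ndF TOK.nil TOK.nil (p3 h).2.2.2.1.2.1.1.1 (by decide +kernel)) TOK.nil (p3 h).2.2.2.1.2.1.1.2 (by decide +kernel)) (ndF (ndF TOK.nil TOK.nil (p3 h).2.2.2.1.2.1.2.2.1 (by decide +kernel)) TOK.nil (p3 h).2.2.2.1.2.1.2.2.2 (by decide +kernel)) (p3 h).2.2.2.1.2.1.2.1 (by decide +kernel)) (ndF (ndF (ndF TOK.nil TOK.nil (p3 h).2.2.2.1.2.2.1.2.1 (by decide +kernel)) TOK.nil (p3 h).2.2.2.1.2.2.1.2.2 (by decide +kernel)) (ndF TOK.nil TOK.nil (p3 h).2.2.2.1.2.2.2.2.1 (by decide +kernel)) (p3 h).2.2.2.1.2.2.2.1 (by decide +kernel)) (p3 h).2.2.2.1.2.2.1.1 (by decide +kernel)) (p3 h).2.2.2.1.1.2.2.2.2 (by decide +kernel)) (ndF (ndF (ndF (ndF (ndF TOK.nil TOK.nil (p3 h).2.2.2.2.1.1.1.1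 (by decide +kernel)) TOK.nil (p3 h).2.2.2.2.1.1.1.2 (by decide +kernel)) (ndF (ndF TOK.nil TOK.nil (p3 h).2.2.2.2.1.1.2.2.1 (by decide +kernel)) TOK.nil (p3 h).2.2.2.2.1.1.2.2.2 (by decide +kernel)) (p3 h).2.2.2.2.1.1.2.1 (by decide +kernel)) (ndF (ndF (ndF TOK.nil TOK.nil (p3 h).2.2.2.2.1.2.1.2.1 (by decide +kernel)) TOK.nil (p3 h).2.2.2.2.1.2.1.2.2 (by decide +kernel)) (ndF TOK.nil TOK.nil (p3 h).2.2.2.2.1.2.2.2.1 (by decide +kernel)) (p3 h).2.2.2.2.1.2.2.1 (by decide +kernel)) (p3 h).2.2.2.2.1.2.1.1 (by decide +kernel)) (ndF (ndF (ndF (ndF TOK.nil TOK.nil (p3 h).2.2.2.2.2.1.1.1 (by decide +kernel)) TOK.nil (p3 h).2.2.2.2.2.1.1.2.1 (by decide +kernel)) (ndF (ndF TOK.nil TOK.nil (p3 h).2.2.2.2.2.1.2.1 (by decide +kernel)) TOK.nil (p3 h).2.2.2.2.2.1.2.2.1 (by decide +kernel)) (p3 h).2.2.2.2.2.1.1.2.2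 (by decide +kernel)) (ndF (ndF (ndF TOK.nil TOK.nil (p3 h).2.2.2.2.2.2.1.1 (by decide +kernel)) TOK.nil (p3 h).2.2.2.2.2.2.1.2.1 (by decide +kernel)) (ndF TOK.nil TOK.nil (p3 h).2.2.2.2.2.2.2.1 (by decide +kernel)) (p3 h).2.2.2.2.2.2.1.2.2 (by decide +kernel)) (p3 h).2.2.2.2.2.1.2.2.2 (by decide +kernel)) (p3 h).2.2.2.2.1.2.2.2.2 (by decide +kernel)) (p3 h).2.2.2.1.2.2.2.2.2 (by decide +kernel)) (p3 h).2.2.1.2.2.2.2.2.1 (by decide +kernel)) (ndF (ndF (ndF (ndF (ndF (ndF (ndF TOK.nil TOK.nil (p3 h).2.2.2.2.2.2.2.2.2 (by decide +kernel)) TOK.nil (p4 h).1.1.1.1.1.1.1.1.1 (by decide +kernel)) (ndF (ndF TOK.nil TOK.nil (p4 h).1.1.1.1.1.1.1.1.2.2 (by decide +kernel)) TOK.nil (p4 h).1.1.1.1.1.1.1.2.1.1 (by decide +kernel)) (p4 h).1.1.1.1.1.1.1.1.2.1 (by decide +kernel)) (ndF (ndF (ndF TOK.nil TOK.nil (p4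 h).1.1.1.1.1.1.1.2.2.1 (by decide +kernel)) TOK.nil (p4 h).1.1.1.1.1.1.1.2.2.2 (by decide +kernel)) (ndF (ndF TOK.nil TOK.nil (p4 h).1.1.1.1.1.1.2.1.2.1 (by decide +kernel)) TOK.nil (p4 h).1.1.1.1.1.1.2.1.2.2 (by decide +kernel)) (p4 h).1.1.1.1.1.1.2.1.1 (by decide +kernel)) (p4 h).1.1.1.1.1.1.1.2.1.2 (by decide +kernel)) (ndF (ndF (ndF (ndF TOK.nil TOK.nil (p4 h).1.1.1.1.1.1.2.2.1.2 (by decide +kernel)) TOK.nil (p4 h).1.1.1.1.1.1.2.2.2.1 (by decide +kernel)) (ndF (ndF TOK.nil TOK.nil (p4 h).1.1.1.1.1.2.1.1.1 (by decide +kernel)) TOK.nil (p4 h).1.1.1.1.1.2.1.1.2.1 (by decide +kernel)) (p4 h).1.1.1.1.1.1.2.2.2.2 (by decide +kernel)) (ndF (ndF (ndF TOK.nil TOK.nil (p4 h).1.1.1.1.1.2.1.2.1.1 (by decide +kernel)) TOK.nil (p4 h).1.1.1.1.1.2.1.2.1.2 (by decide +kernel)) (ndF TOK.nil TOK.nil (p4 h).1.1.1.1.1.2.1.2.2.2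 (by decide +kernel)) (p4 h).1.1.1.1.1.2.1.2.2.1 (by decide +kernel)) (p4 h).1.1.1.1.1.2.1.1.2.2 (by decide +kernel)) (p4 h).1.1.1.1.1.1.2.2.1.1 (by decide +kernel)) (ndF (ndF (ndF (ndF (ndF TOK.nil TOK.nil (p4 h).1.1.1.1.1.2.2.1.2.1 (by decide +kernel)) TOK.nil (p4 h).1.1.1.1.1.2.2.1.2.2 (by decide +kernel)) (ndF (ndF TOK.nil TOK.nil (p4 h).1.1.1.1.1.2.2.2.1.2 (by decide +kernel)) TOK.nil (p4 h).1.1.1.1.1.2.2.2.2.1 (by decide +kernel)) (p4 h).1.1.1.1.1.2.2.2.1.1 (by decide +kernel)) (ndF (ndF (ndF TOK.nil TOK.nil (p4 h).1.1.1.1.2.1.1.1.1 (by decide +kernel)) TOK.nil (p4 h).1.1.1.1.2.1.1.1.2.1 (by decide +kernel)) (ndF (ndF TOK.nil TOK.nil (p4 h).1.1.1.1.2.1.1.2.1.1 (by decide +kernel)) TOK.nil (p4 h).1.1.1.1.2.1.1.2.1.2 (by decide +kernel)) (p4 h).1.1.1.1.2.1.1.1.2.2 (by decide +kernel)) (p4 h).1.1.1.1.1.2.2.2.2.2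 (by decide +kernel)) (ndF (ndF (ndF (ndF TOK.nil TOK.nil (p4 h).1.1.1.1.2.1.1.2.2.2 (by decide +kernel)) TOK.nil (p4 h).1.1.1.1.2.1.2.1.1 (by decide +kernel)) (ndF (ndF TOK.nil TOK.nil (p4 h).1.1.1.1.2.1.2.1.2.2 (by decide +kernel)) TOK.nil (p4 h).1.1.1.1.2.1.2.2.1.1 (by decide +kernel)) (p4 h).1.1.1.1.2.1.2.1.2.1 (by decide +kernel)) (ndF (ndF (ndF TOK.nil TOK.nil (p4 h).1.1.1.1.2.1.2.2.2.1 (by decide +kernel)) TOK.nil (p4 h).1.1.1.1.2.1.2.2.2.2 (by decide +kernel)) (ndF TOK.nil TOK.nil (p4 h).1.1.1.1.2.2.1.1.2.1 (by decide +kernel)) (p4 h).1.1.1.1.2.2.1.1.1 (by decide +kernel)) (p4 h).1.1.1.1.2.1.2.2.1.2 (by decide +kernel)) (p4 h).1.1.1.1.2.1.1.2.2.1 (by decide +kernel)) (p4 h).1.1.1.1.1.2.2.1.1 (by decide +kernel)) (ndF (ndF (ndF (ndF (ndF (ndF TOK.nil TOK.nil (p4 h).1.1.1.1.2.2.1.2.1.1 (by decide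 +kernel)) TOK.nil (p4 h).1.1.1.1.2.2.1.2.1.2 (by decide +kernel)) (ndF (ndF TOK.nil TOK.nil (p4 h).1.1.1.1.2.2.1.2.2.2 (by decide +kernel)) TOK.nil (p4 h).1.1.1.1.2.2.2.1.1.1 (by decide +kernel)) (p4 h).1.1.1.1.2.2.1.2.2.1 (by decide +kernel)) (ndF (ndF (ndF TOK.nil TOK.nil (p4 h).1.1.1.1.2.2.2.1.2.1 (by decide +kernel)) TOK.nil (p4 h).1.1.1.1.2.2.2.1.2.2 (by decide +kernel)) (ndF (ndF TOK.nil TOK.nil (p4 h).1.1.1.1.2.2.2.2.1.2 (by decide +kernel)) TOK.nil (p4 h).1.1.1.1.2.2.2.2.2.1 (by decide +kernel)) (p4 h).1.1.1.1.2.2.2.2.1.1 (by decide +kernel)) (p4 h).1.1.1.1.2.2.2.1.1.2 (by decide +kernel)) (ndF (ndF (ndF (ndF TOK.nil TOK.nil (p4 h).1.1.1.2.1.1.1.1.1 (by decide +kernel)) TOK.nil (p4 h).1.1.1.2.1.1.1.1.2.1 (by decide +kernel)) (ndF (ndF TOK.nil TOK.nil (p4 h).1.1.1.2.1.1.1.2.1.1 (by decide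 +kernel)) TOK.nil (p4 h).1.1.1.2.1.1.1.2.1.2 (by decide +kernel)) (p4 h).1.1.1.2.1.1.1.1.2.2 (by decide +kernel)) (ndF (ndF (ndF TOK.nil TOK.nil (p4 h).1.1.1.2.1.1.1.2.2.2 (by decide +kernel)) TOK.nil (p4 h).1.1.1.2.1.1.2.1.1 (by decide +kernel)) (ndF TOK.nil TOK.nil (p4 h).1.1.1.2.1.1.2.1.2.2 (by decide +kernel)) (p4 h).1.1.1.2.1.1.2.1.2.1 (by decide +kernel)) (p4 h).1.1.1.2.1.1.1.2.2.1 (by decide +kernel)) (p4 h).1.1.1.1.2.2.2.2.2.2 (by decide +kernel)) (ndF (ndF (ndF (ndF (ndF TOK.nil TOK.nil (p4 h).1.1.1.2.1.1.2.2.1.2 (by decide +kernel)) TOK.nil (p4 h).1.1.1.2.1.1.2.2.2.1 (by decide +kernel)) (ndF (ndF TOK.nil TOK.nil (p4 h).1.1.1.2.1.2.1.1.1 (by decide +kernel)) TOK.nil (p4 h).1.1.1.2.1.2.1.1.2.1 (by decide +kernel)) (p4 h).1.1.1.2.1.1.2.2.2.2 (by decide +kernel)) (ndF (ndF (ndF TOK.nil TOK.nil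 (p4 h).1.1.1.2.1.2.1.2.1.1 (by decide +kernel)) TOK.nil (p4 h).1.1.1.2.1.2.1.2.1.2 (by decide +kernel)) (ndF TOK.nil TOK.nil (p4 h).1.1.1.2.1.2.1.2.2.2 (by decide +kernel)) (p4 h).1.1.1.2.1.2.1.2.2.1 (by decide +kernel)) (p4 h).1.1.1.2.1.2.1.1.2.2 (by decide +kernel)) (ndF (ndF (ndF (ndF TOK.nil TOK.nil (p4 h).1.1.1.2.1.2.2.1.1.2 (by decide +kernel)) TOK.nil (p4 h).1.1.1.2.1.2.2.1.2.1 (by decide +kernel)) (ndF (ndF TOK.nil TOK.nil (p4 h).1.1.1.2.1.2.2.2.1.1 (by decide +kernel)) TOK.nil (p4 h).1.1.1.2.1.2.2.2.1.2 (by decide +kernel)) (p4 h).1.1.1.2.1.2.2.1.2.2 (by decide +kernel)) (ndF (ndF (ndF TOK.nil TOK.nil (p4 h).1.1.1.2.1.2.2.2.2.2 (by decide +kernel)) TOK.nil (p4 h).1.1.1.2.2.1.1.1.1 (by decide +kernel)) (ndF TOK.nil TOK.nil (p4 h).1.1.1.2.2.1.1.1.2.2 (by decide +kernel)) (p4 h).1.1.1.2.2.1.1.1.2.1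 (by decide +kernel)) (p4 h).1.1.1.2.1.2.2.2.2.1 (by decide +kernel)) (p4 h).1.1.1.2.1.2.2.1.1.1 (by decide +kernel)) (p4 h).1.1.1.2.1.1.2.2.1.1 (by decide +kernel)) (p4 h).1.1.1.1.2.2.1.1.2.2 (by decide +kernel)) (p3 h).2.2.2.2.2.2.2.2.1 (by decide +kernel))


end TB
end Pool.Agent.Lib.MP_6947cd_al
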