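import Pool.Agent.Lib.MP_6947cd_al.TB.P71
import Pool.Agent.Lib.MP_6947cd_al.TB.P72
import Pool.Agent.Lib.MP_6947cd_al.TB.P73
import Pool.Agent.Lib.MP_6947cd_al.TB.P74
import Pool.Agent.Lib.MP_6947cd_al.TB.P75
import Pool.Agent.Lib.MP_6947cd_al.TB.P76
import Pool.Agent.Lib.MP_6947cd_al.TB.P77
import Pool.Agent.Lib.MP_6947cd_al.TB.P78
import Pool.Agent.Lib.MP_6947cd_al.TB.P79

/-!
Problem MP_6947cd_al (Chollet).  THE FAMILIES OF TABLES ARE CORRECT, part 20.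
-/

set_option autoImplicit false
set_option maxHeartbeats 0
set_option maxRecDepth 100000
set_option linter.all false

namespace Pool.Agent.Lib.MP_6947cd_al
namespace TB

open Ent Ent.Pk Fr Fr.WT B1 PkA PkA.TF

theorem R_20_80_140_ok (h : RcOK RE.rowE) : R_20_80_140.OK :=
  okF (by decide +kernel) (ndF (ndF (ndF (ndF (ndF (ndF (ndF TOK.nil TOK.nil (p71 h).2.2.2.2.2.1.2 (by decide +kernel)) TOK.nil (p71 h).2.2.2.2.2.2.1 (by decide +kernel)) (ndF TOK.nil TOK.nil (p71 h).2.2.2.2.2.2.2.2 (by decide +kernel)) (p71 h).2.2.2.2.2.2.2.1 (by decide +kernel)) (ndF (ndF TOK.nil TOK.nil (p72 h).1.1.1.1.2 (by decide +kernel)) (ndF TOK.nil TOK.nil (p72 h).1.1.1.2.2.1 (by decide +kernel)) (p72 h).1.1.1.2.1 (by decide +kernel)) (p72 h).1.1.1.1.1 (by decide +kernel)) (ndF (ndF (ndF (ndF TOK.nil TOK.nil (p72 h).1.1.2.1.1 (by decide +kernel)) TOK.nil (p72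 h).1.1.2.1.2 (by decide +kernel)) (ndF TOK.nil TOK.nil (p72 h).1.1.2.2.2.1 (by decide +kernel)) (p72 h).1.1.2.2.1 (by decide +kernel)) (ndF (ndF TOK.nil TOK.nil (p72 h).1.2.1.1.1 (by decide +kernel)) (ndF TOK.nil TOK.nil (p72 h).1.2.1.2.1 (by decide +kernel)) (p72 h).1.2.1.1.2 (by decide +kernel)) (p72 h).1.1.2.2.2.2 (by decide +kernel)) (p72 h).1.1.1.2.2.2 (by decide +kernel)) (ndF (ndF (ndF (ndF (ndF TOK.nil TOK.nil (p72 h).1.2.1.2.2.2 (by decide +kernel)) TOK.nil (p72 h).1.2.2.1.1 (by decide +kernel)) (ndF TOK.nil TOK.nil (p72 h).1.2.2.2.1 (by decide +kernel)) (p72 h).1.2.2.1.2 (by decide +kernel)) (ndF (ndF TOK.nil TOK.nil (p72 h).1.2.2.2.2.2 (by decide +kernel)) (ndF TOK.nil TOK.nil (p72 h).2.1.1.1.2 (by decide +kernel)) (p72 h).2.1.1.1.1 (by decide +kernel)) (p72 h).1.2.2.2.2.1 (by decide +kernel)) (ndF (ndF (ndF (ndF TOK.nil TOK.nil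 (p72 h).2.1.1.2.2.1 (by decide +kernel)) TOK.nil (p72 h).2.1.1.2.2.2 (by decide +kernel)) (ndF TOK.nil TOK.nil (p72 h).2.1.2.1.2 (by decide +kernel)) (p72 h).2.1.2.1.1 (by decide +kernel)) (ndF (ndF TOK.nil TOK.nil (p72 h).2.1.2.2.2.1 (by decide +kernel)) (ndF TOK.nil TOK.nil (p72 h).2.2.1.1.1 (by decide +kernel)) (p72 h).2.1.2.2.2.2 (by decide +kernel)) (p72 h).2.1.2.2.1 (by decide +kernel)) (p72 h).2.1.1.2.1 (by decide +kernel)) (p72 h).1.2.1.2.2.1 (by decide +kernel)) (ndF (ndF (ndF (ndF (ndF (ndF TOK.nil TOK.nil (p72 h).2.2.1.2.1 (by decide +kernel)) TOK.nil (p72 h).2.2.1.2.2.1 (by decide +kernel)) (ndF TOK.nil TOK.nil (p72 h).2.2.2.1.1 (by decide +kernel)) (p72 h).2.2.1.2.2.2 (by decide +kernel)) (ndF (ndF TOK.nil TOK.nil (p72 h).2.2.2.2.1 (by decide +kernel)) (ndF TOK.nil TOK.nil (p72 h).2.2.2.2.2.2 (by decide +kernel)) (p72 h).2.2.2.2.2.1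 (by decide +kernel)) (p72 h).2.2.2.1.2 (by decide +kernel)) (ndF (ndF (ndF (ndF TOK.nil TOK.nil (p73 h).1.1.1.1.1.1.2 (by decide +kernel)) TOK.nil (p73 h).1.1.1.1.1.2.1 (by decide +kernel)) (ndF TOK.nil TOK.nil (p73 h).1.1.1.1.2.1.1 (by decide +kernel)) (p73 h).1.1.1.1.1.2.2 (by decide +kernel)) (ndF (ndF TOK.nil TOK.nil (p73 h).1.1.1.1.2.2.1 (by decide +kernel)) (ndF TOK.nil TOK.nil (p73 h).1.1.1.2.1.1.1 (by decide +kernel)) (p73 h).1.1.1.1.2.2.2 (by decide +kernel)) (p73 h).1.1.1.1.2.1.2 (by decide +kernel)) (p73 h).1.1.1.1.1.1.1 (by decide +kernel)) (ndF (ndF (ndF (ndF (ndF TOK.nil TOK.nil (p73 h).1.1.1.2.1.2.1 (by decide +kernel)) TOK.nil (p73 h).1.1.1.2.1.2.2 (by decide +kernel)) (ndF TOK.nil TOK.nil (p73 h).1.1.1.2.2.1.2 (by decide +kernel)) (p73 h).1.1.1.2.2.1.1 (by decide +kernel)) (ndF (ndF TOK.nil TOK.nil (p73 h).1.1.1.2.2.2.2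 (by decide +kernel)) (ndF TOK.nil TOK.nil (p73 h).1.1.2.1.1.1.2 (by decide +kernel)) (p73 h).1.1.2.1.1.1.1 (by decide +kernel)) (p73 h).1.1.1.2.2.2.1 (by decide +kernel)) (ndF (ndF (ndF (ndF TOK.nil TOK.nil (p73 h).1.1.2.1.1.2.2 (by decide +kernel)) TOK.nil (p73 h).1.1.2.1.2.1.1 (by decide +kernel)) (ndF TOK.nil TOK.nil (p73 h).1.1.2.1.2.2.1 (by decide +kernel)) (p73 h).1.1.2.1.2.1.2 (by decide +kernel)) (ndF (ndF TOK.nil TOK.nil (p73 h).1.1.2.2.1.1.1 (by decide +kernel)) (ndF TOK.nil TOK.nil (p73 h).1.1.2.2.1.2.1 (by decide +kernel)) (p73 h).1.1.2.2.1.1.2 (by decide +kernel)) (p73 h).1.1.2.1.2.2.2 (by decide +kernel)) (p73 h).1.1.2.1.1.2.1 (by decide +kernel)) (p73 h).1.1.1.2.1.1.2 (by decide +kernel)) (p72 h).2.2.1.1.2 (by decide +kernel))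

theorem R_60_140_ok (h : RcOK RE.rowE) : R_60_140.OK :=
  okF (by decide +kernel) (ndF (ndF (ndF (ndF (ndF (ndF (ndF TOK.nil TOK.nil (p73 h).1.1.2.2.1.2.2 (by decide +kernel)) TOK.nil (p73 h).1.1.2.2.2.1.1 (by decide +kernel)) (ndF TOK.nil TOK.nil (p73 h).1.1.2.2.2.2.1 (by decide +kernel)) (p73 h).1.1.2.2.2.1.2 (by decide +kernel)) (ndF (ndF (ndF TOK.nil TOK.nil (p73 h).1.2.1.1.1.1.1 (by decide +kernel)) TOK.nil (p73 h).1.2.1.1.1.1.2 (by decide +kernel)) (ndF TOK.nil TOK.nil (p73 h).1.2.1.1.1.2.2 (by decide +kernel)) (p73 h).1.2.1.1.1.2.1 (by decide +kernel)) (p73 h).1.1.2.2.2.2.2 (by decide +kernel)) (ndF (ndF (ndF (ndF TOK.nil TOK.nil (p73 h).1.2.1.1.2.1.2 (by decide +kernel)) TOK.nil (p73 h).1.2.1.1.2.2.1 (by decide +kernel)) (ndF TOK.nil TOK.nil (p73 h).1.2.1.2.1.1.1 (by decide +kernel)) (p73 h).1.2.1.1.2.2.2 (by decide +kernel))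 (ndF (ndF TOK.nil TOK.nil (p73 h).1.2.1.2.1.2.1 (by decide +kernel)) (ndF TOK.nil TOK.nil (p73 h).1.2.1.2.2.1.1 (by decide +kernel)) (p73 h).1.2.1.2.1.2.2 (by decide +kernel)) (p73 h).1.2.1.2.1.1.2 (by decide +kernel)) (p73 h).1.2.1.1.2.1.1 (by decide +kernel)) (ndF (ndF (ndF (ndF (ndF TOK.nil TOK.nil (p73 h).1.2.1.2.2.2.1 (by decide +kernel)) TOK.nil (p73 h).1.2.1.2.2.2.2 (by decide +kernel)) (ndF TOK.nil TOK.nil (p73 h).1.2.2.1.1.1.2 (by decide +kernel)) (p73 h).1.2.2.1.1.1.1 (by decide +kernel)) (ndF (ndF (ndF TOK.nil TOK.nil (p73 h).1.2.2.1.1.2.2 (by decide +kernel)) TOK.nil (p73 h).1.2.2.1.2.1.1 (by decide +kernel)) (ndF TOK.nil TOK.nil (p73 h).1.2.2.1.2.2.1 (by decide +kernel)) (p73 h).1.2.2.1.2.1.2 (by decide +kernel)) (p73 h).1.2.2.1.1.2.1 (by decide +kernel)) (ndF (ndF (ndF (ndF TOK.nil TOK.nil (p73 h).1.2.2.2.1.1.1 (by decide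 +kernel)) TOK.nil (p73 h).1.2.2.2.1.1.2 (by decide +kernel)) (ndF TOK.nil TOK.nil (p73 h).1.2.2.2.1.2.2 (by decide +kernel)) (p73 h).1.2.2.2.1.2.1 (by decide +kernel)) (ndF (ndF TOK.nil TOK.nil (p73 h).1.2.2.2.2.1.2 (by decide +kernel)) (ndF TOK.nil TOK.nil (p73 h).1.2.2.2.2.2.2.1 (by decide +kernel)) (p73 h).1.2.2.2.2.2.1 (by decide +kernel)) (p73 h).1.2.2.2.2.1.1 (by decide +kernel)) (p73 h).1.2.2.1.2.2.2 (by decide +kernel)) (p73 h).1.2.1.2.2.1.2 (by decide +kernel)) (ndF (ndF (ndF (ndF (ndF (ndF TOK.nil TOK.nil (p73 h).2.1.1.1.1.1.1 (by decide +kernel)) TOK.nil (p73 h).2.1.1.1.1.1.2 (by decide +kernel)) (ndF TOK.nil TOK.nil (p73 h).2.1.1.1.1.2.2 (by decide +kernel)) (p73 h).2.1.1.1.1.2.1 (by decide +kernel)) (ndF (ndF (ndF TOK.nil TOK.nil (p73 h).2.1.1.1.2.1.2 (by decide +kernel)) TOK.nil (p73 h).2.1.1.1.2.2.1 (by decide +kernel))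 (ndF TOK.nil TOK.nil (p73 h).2.1.1.2.1.1.1 (by decide +kernel)) (p73 h).2.1.1.1.2.2.2 (by decide +kernel)) (p73 h).2.1.1.1.2.1.1 (by decide +kernel)) (ndF (ndF (ndF (ndF TOK.nil TOK.nil (p73 h).2.1.1.2.1.2.1 (by decide +kernel)) TOK.nil (p73 h).2.1.1.2.1.2.2 (by decide +kernel)) (ndF TOK.nil TOK.nil (p73 h).2.1.1.2.2.1.2 (by decide +kernel)) (p73 h).2.1.1.2.2.1.1 (by decide +kernel)) (ndF (ndF TOK.nil TOK.nil (p73 h).2.1.1.2.2.2.2 (by decide +kernel)) (ndF TOK.nil TOK.nil (p73 h).2.1.2.1.1.1.2 (by decide +kernel)) (p73 h).2.1.2.1.1.1.1 (by decide +kernel)) (p73 h).2.1.1.2.2.2.1 (by decide +kernel)) (p73 h).2.1.1.2.1.1.2 (by decide +kernel)) (ndF (ndF (ndF (ndF (ndF TOK.nil TOK.nil (p73 h).2.1.2.1.1.2.2 (by decide +kernel)) TOK.nil (p73 h).2.1.2.1.2.1.1 (by decide +kernel)) (ndF TOK.nil TOK.nil (p73 h).2.1.2.1.2.2.1 (by decide +kernel))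 (p73 h).2.1.2.1.2.1.2 (by decide +kernel)) (ndF (ndF TOK.nil TOK.nil (p73 h).2.1.2.2.1.1.1 (by decide +kernel)) (ndF TOK.nil TOK.nil (p73 h).2.1.2.2.1.2.1 (by decide +kernel)) (p73 h).2.1.2.2.1.1.2 (by decide +kernel)) (p73 h).2.1.2.1.2.2.2 (by decide +kernel)) (ndF (ndF (ndF (ndF TOK.nil TOK.nil (p73 h).2.1.2.2.2.1.1 (by decide +kernel)) TOK.nil (p73 h).2.1.2.2.2.1.2 (by decide +kernel)) (ndF TOK.nil TOK.nil (p73 h).2.1.2.2.2.2.2.1 (by decide +kernel)) (p73 h).2.1.2.2.2.2.1 (by decide +kernel)) (ndF (ndF TOK.nil TOK.nil (p73 h).2.2.1.1.1.1.1 (by decide +kernel)) (ndF TOK.nil TOK.nil (p73 h).2.2.1.1.1.2.1 (by decide +kernel)) (p73 h).2.2.1.1.1.1.2 (by decide +kernel)) (p73 h).2.1.2.2.2.2.2.2 (by decide +kernel)) (p73 h).2.1.2.2.1.2.2 (by decide +kernel)) (p73 h).2.1.2.1.1.2.1 (by decide +kernel)) (p73 h).1.2.2.2.2.2.2.2 (by decide +kernel))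

theorem R_80_140_200_ok (h : RcOK RE.rowE) : R_80_140_200.OK :=
  okF (by decide +kernel) (ndF (ndF (ndF (ndF (ndF (ndF (ndF TOK.nil TOK.nil (p73 h).2.2.1.1.1.2.2 (by decide +kernel)) TOK.nil (p73 h).2.2.1.1.2.1.1 (by decide +kernel)) (ndF TOK.nil TOK.nil (p73 h).2.2.1.1.2.2.1 (by decide +kernel)) (p73 h).2.2.1.1.2.1.2 (by decide +kernel)) (ndF (ndF (ndF TOK.nil TOK.nil (p73 h).2.2.1.2.1.1.1 (by decide +kernel)) TOK.nil (p73 h).2.2.1.2.1.1.2 (by decide +kernel)) (ndF TOK.nil TOK.nil (p73 h).2.2.1.2.1.2.2 (by decide +kernel)) (p73 h).2.2.1.2.1.2.1 (by decide +kernel)) (p73 h).2.2.1.1.2.2.2 (by decide +kernel)) (ndF (ndF (ndF (ndF TOK.nil TOK.nil (p73 h).2.2.1.2.2.1.2 (by decide +kernel)) TOK.nil (p73 h).2.2.1.2.2.2.1 (by decide +kernel)) (ndF TOK.nil TOK.nil (p73 h).2.2.2.1.1.1.1 (by decide +kernel)) (p73 h).2.2.1.2.2.2.2 (by decide +kernel))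 (ndF (ndF TOK.nil TOK.nil (p73 h).2.2.2.1.1.2.1 (by decide +kernel)) (ndF TOK.nil TOK.nil (p73 h).2.2.2.1.2.1.1 (by decide +kernel)) (p73 h).2.2.2.1.1.2.2 (by decide +kernel)) (p73 h).2.2.2.1.1.1.2 (by decide +kernel)) (p73 h).2.2.1.2.2.1.1 (by decide +kernel)) (ndF (ndF (ndF (ndF (ndF TOK.nil TOK.nil (p73 h).2.2.2.1.2.2.1 (by decide +kernel)) TOK.nil (p73 h).2.2.2.1.2.2.2 (by decide +kernel)) (ndF TOK.nil TOK.nil (p73 h).2.2.2.2.1.1.2 (by decide +kernel)) (p73 h).2.2.2.2.1.1.1 (by decide +kernel)) (ndF (ndF (ndF TOK.nil TOK.nil (p73 h).2.2.2.2.1.2.2 (by decide +kernel)) TOK.nil (p73 h).2.2.2.2.2.1.1 (by decide +kernel)) (ndF TOK.nil TOK.nil (p73 h).2.2.2.2.2.2.1 (by decide +kernel)) (p73 h).2.2.2.2.2.1.2 (by decide +kernel)) (p73 h).2.2.2.2.1.2.1 (by decide +kernel)) (ndF (ndF (ndF (ndF TOK.nil TOK.nil (p73 h).2.2.2.2.2.2.2.2 (by decide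 +kernel)) TOK.nil (p74 h).1.1.1.1.1.1 (by decide +kernel)) (ndF TOK.nil TOK.nil (p74 h).1.1.1.1.1.2.2 (by decide +kernel)) (p74 h).1.1.1.1.1.2.1 (by decide +kernel)) (ndF (ndF TOK.nil TOK.nil (p74 h).1.1.1.1.2.1.2 (by decide +kernel)) (ndF TOK.nil TOK.nil (p74 h).1.1.1.1.2.2.2 (by decide +kernel)) (p74 h).1.1.1.1.2.2.1 (by decide +kernel)) (p74 h).1.1.1.1.2.1.1 (by decide +kernel)) (p73 h).2.2.2.2.2.2.2.1 (by decide +kernel)) (p73 h).2.2.2.1.2.1.2 (by decide +kernel)) (ndF (ndF (ndF (ndF (ndF (ndF TOK.nil TOK.nil (p74 h).1.1.1.2.1.1.2 (by decide +kernel)) TOK.nil (p74 h).1.1.1.2.1.2.1 (by decide +kernel)) (ndF TOK.nil TOK.nil (p74 h).1.1.1.2.2.1.1 (by decide +kernel)) (p74 h).1.1.1.2.1.2.2 (by decide +kernel)) (ndF (ndF (ndF TOK.nil TOK.nil (p74 h).1.1.1.2.2.2.1 (by decide +kernel)) TOK.nil (p74 h).1.1.1.2.2.2.2 (by decide +kernel)) (ndF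 TOK.nil TOK.nil (p74 h).1.1.2.1.1.1.2 (by decide +kernel)) (p74 h).1.1.2.1.1.1.1 (by decide +kernel)) (p74 h).1.1.1.2.2.1.2 (by decide +kernel)) (ndF (ndF (ndF (ndF TOK.nil TOK.nil (p74 h).1.1.2.1.1.2.2 (by decide +kernel)) TOK.nil (p74 h).1.1.2.1.2.1.1 (by decide +kernel)) (ndF TOK.nil TOK.nil (p74 h).1.1.2.1.2.2.1 (by decide +kernel)) (p74 h).1.1.2.1.2.1.2 (by decide +kernel)) (ndF (ndF TOK.nil TOK.nil (p74 h).1.1.2.2.1.1.1 (by decide +kernel)) (ndF TOK.nil TOK.nil (p74 h).1.1.2.2.1.2.1 (by decide +kernel)) (p74 h).1.1.2.2.1.1.2 (by decide +kernel)) (p74 h).1.1.2.1.2.2.2 (by decide +kernel)) (p74 h).1.1.2.1.1.2.1 (by decide +kernel)) (ndF (ndF (ndF (ndF (ndF TOK.nil TOK.nil (p74 h).1.1.2.2.2.1.1 (by decide +kernel)) TOK.nil (p74 h).1.1.2.2.2.1.2 (by decide +kernel)) (ndF TOK.nil TOK.nil (p74 h).1.1.2.2.2.2.2 (by decide +kernel)) (p74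 h).1.1.2.2.2.2.1 (by decide +kernel)) (ndF (ndF (ndF TOK.nil TOK.nil (p74 h).1.2.1.1.1.2.1 (by decide +kernel)) TOK.nil (p74 h).1.2.1.1.1.2.2 (by decide +kernel)) (ndF TOK.nil TOK.nil (p74 h).1.2.1.1.2.1.2 (by decide +kernel)) (p74 h).1.2.1.1.2.1.1 (by decide +kernel)) (p74 h).1.2.1.1.1.1 (by decide +kernel)) (ndF (ndF (ndF (ndF TOK.nil TOK.nil (p74 h).1.2.1.1.2.2.2 (by decide +kernel)) TOK.nil (p74 h).1.2.1.2.1.1.1 (by decide +kernel)) (ndF TOK.nil TOK.nil (p74 h).1.2.1.2.1.2.1 (by decide +kernel)) (p74 h).1.2.1.2.1.1.2 (by decide +kernel)) (ndF (ndF TOK.nil TOK.nil (p74 h).1.2.1.2.2.1.1 (by decide +kernel)) (ndF TOK.nil TOK.nil (p74 h).1.2.1.2.2.2.1 (by decide +kernel)) (p74 h).1.2.1.2.2.1.2 (by decide +kernel)) (p74 h).1.2.1.2.1.2.2 (by decide +kernel)) (p74 h).1.2.1.1.2.2.1 (by decide +kernel)) (p74 h).1.1.2.2.1.2.2 (by decide +kernel))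 (p74 h).1.1.1.2.1.1.1 (by decide +kernel))

theorem R_60_120_180_ok (h : RcOK RE.rowE) : R_60_120_180.OK :=
  okF (by decide +kernel) (ndF (ndF (ndF (ndF (ndF (ndF (ndF TOK.nil TOK.nil (p74 h).1.2.1.2.2.2.2 (by decide +kernel)) TOK.nil (p74 h).1.2.2.1.1.1.1 (by decide +kernel)) (ndF TOK.nil TOK.nil (p74 h).1.2.2.1.1.2.1 (by decide +kernel)) (p74 h).1.2.2.1.1.1.2 (by decide +kernel)) (ndF (ndF TOK.nil TOK.nil (p74 h).1.2.2.1.2.1.1 (by decide +kernel)) (ndF TOK.nil TOK.nil (p74 h).1.2.2.1.2.2.1 (by decide +kernel)) (p74 h).1.2.2.1.2.1.2 (by decide +kernel)) (p74 h).1.2.2.1.1.2.2 (by decide +kernel)) (ndF (ndF (ndF (ndF TOK.nil TOK.nil (p74 h).1.2.2.2.1.1.1 (by decide +kernel)) TOK.nil (p74 h).1.2.2.2.1.1.2 (by decide +kernel)) (ndF TOK.nil TOK.nil (p74 h).1.2.2.2.1.2.2 (by decide +kernel)) (p74 h).1.2.2.2.1.2.1 (by decide +kernel)) (ndF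 (ndF TOK.nil TOK.nil (p74 h).1.2.2.2.2.1.2 (by decide +kernel)) (ndF TOK.nil TOK.nil (p74 h).1.2.2.2.2.2.2 (by decide +kernel)) (p74 h).1.2.2.2.2.2.1 (by decide +kernel)) (p74 h).1.2.2.2.2.1.1 (by decide +kernel)) (p74 h).1.2.2.1.2.2.2 (by decide +kernel)) (ndF (ndF (ndF (ndF (ndF TOK.nil TOK.nil (p74 h).2.1.1.1.1.2.1 (by decide +kernel)) TOK.nil (p74 h).2.1.1.1.1.2.2 (by decide +kernel)) (ndF TOK.nil TOK.nil (p74 h).2.1.1.1.2.1.2 (by decide +kernel)) (p74 h).2.1.1.1.2.1.1 (by decide +kernel)) (ndF (ndF TOK.nil TOK.nil (p74 h).2.1.1.1.2.2.2 (by decide +kernel)) (ndF TOK.nil TOK.nil (p74 h).2.1.1.2.1.1.2 (by decide +kernel)) (p74 h).2.1.1.2.1.1.1 (by decide +kernel)) (p74 h).2.1.1.1.2.2.1 (by decide +kernel)) (ndF (ndF (ndF TOK.nil TOK.nil (p74 h).2.1.1.2.1.2.2 (by decide +kernel)) (ndF TOK.nil TOK.nil (p74 h).2.1.1.2.2.1.2 (by decide +kernel))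 (p74 h).2.1.1.2.2.1.1 (by decide +kernel)) (ndF (ndF TOK.nil TOK.nil (p74 h).2.1.1.2.2.2.2 (by decide +kernel)) (ndF TOK.nil TOK.nil (p74 h).2.1.2.1.1.1.2 (by decide +kernel)) (p74 h).2.1.2.1.1.1.1 (by decide +kernel)) (p74 h).2.1.1.2.2.2.1 (by decide +kernel)) (p74 h).2.1.1.2.1.2.1 (by decide +kernel)) (p74 h).2.1.1.1.1.1 (by decide +kernel)) (ndF (ndF (ndF (ndF (ndF (ndF TOK.nil TOK.nil (p74 h).2.1.2.1.1.2.2 (by decide +kernel)) TOK.nil (p74 h).2.1.2.1.2.1.1 (by decide +kernel)) (ndF TOK.nil TOK.nil (p74 h).2.1.2.1.2.2.1 (by decide +kernel)) (p74 h).2.1.2.1.2.1.2 (by decide +kernel)) (ndF (ndF TOK.nil TOK.nil (p74 h).2.1.2.2.1.1.1 (by decide +kernel)) (ndF TOK.nil TOK.nil (p74 h).2.1.2.2.1.2.1 (by decide +kernel)) (p74 h).2.1.2.2.1.1.2 (by decide +kernel)) (p74 h).2.1.2.1.2.2.2 (by decide +kernel)) (ndF (ndF (ndF (ndF TOK.nil TOK.nil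 (p74 h).2.1.2.2.2.1.1 (by decide +kernel)) TOK.nil (p74 h).2.1.2.2.2.1.2 (by decide +kernel)) (ndF TOK.nil TOK.nil (p74 h).2.1.2.2.2.2.2 (by decide +kernel)) (p74 h).2.1.2.2.2.2.1 (by decide +kernel)) (ndF (ndF TOK.nil TOK.nil (p74 h).2.2.1.1.1.1.2 (by decide +kernel)) (ndF TOK.nil TOK.nil (p74 h).2.2.1.1.1.2.2 (by decide +kernel)) (p74 h).2.2.1.1.1.2.1 (by decide +kernel)) (p74 h).2.2.1.1.1.1.1 (by decide +kernel)) (p74 h).2.1.2.2.1.2.2 (by decide +kernel)) (ndF (ndF (ndF (ndF (ndF TOK.nil TOK.nil (p74 h).2.2.1.1.2.1.2 (by decide +kernel)) TOK.nil (p74 h).2.2.1.1.2.2.1 (by decide +kernel)) (ndF TOK.nil TOK.nil (p74 h).2.2.1.2.1.1.1 (by decide +kernel)) (p74 h).2.2.1.1.2.2.2 (by decide +kernel)) (ndF (ndF TOK.nil TOK.nil (p74 h).2.2.1.2.1.2.1 (by decide +kernel)) (ndF TOK.nil TOK.nil (p74 h).2.2.1.2.2.1.1 (by decide +kernel)) (p74 h).2.2.1.2.1.2.2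 (by decide +kernel)) (p74 h).2.2.1.2.1.1.2 (by decide +kernel)) (ndF (ndF (ndF TOK.nil TOK.nil (p74 h).2.2.1.2.2.2.1 (by decide +kernel)) (ndF TOK.nil TOK.nil (p74 h).2.2.2.1.1.1.1 (by decide +kernel)) (p74 h).2.2.1.2.2.2.2 (by decide +kernel)) (ndF (ndF TOK.nil TOK.nil (p74 h).2.2.2.1.1.2.1 (by decide +kernel)) (ndF TOK.nil TOK.nil (p74 h).2.2.2.1.2.1.1 (by decide +kernel)) (p74 h).2.2.2.1.1.2.2 (by decide +kernel)) (p74 h).2.2.2.1.1.1.2 (by decide +kernel)) (p74 h).2.2.1.2.2.1.2 (by decide +kernel)) (p74 h).2.2.1.1.2.1.1 (by decide +kernel)) (p74 h).2.1.2.1.1.2.1 (by decide +kernel))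

theorem R_40_60_100_ok (h : RcOK RE.rowE) : R_40_60_100.OK :=
  okF (by decide +kernel) (ndF (ndF (ndF (ndF (ndF (ndF TOK.nil TOK.nil (p74 h).2.2.2.1.2.1.2 (by decide +kernel)) (ndF TOK.nil TOK.nil (p74 h).2.2.2.1.2.2.2 (by decide +kernel)) (p74 h).2.2.2.1.2.2.1 (by decide +kernel)) (ndF (ndF TOK.nil TOK.nil (p74 h).2.2.2.2.1.1.2 (by decide +kernel)) TOK.nil (p74 h).2.2.2.2.1.2.1 (by decide +kernel)) (p74 h).2.2.2.2.1.1.1 (by decide +kernel)) (ndF (ndF (ndF TOK.nil TOK.nil (p74 h).2.2.2.2.2.1.1 (by decide +kernel)) (ndF TOK.nil TOK.nil (p74 h).2.2.2.2.2.2.1 (by decide +kernel)) (p74 h).2.2.2.2.2.1.2 (by decide +kernel)) (ndF (ndF TOK.nil TOK.nil (p75 h).1.1.1.1.1 (by decide +kernel)) TOK.nil (p75 h).1.1.1.1.2 (by decide +kernel)) (p74 h).2.2.2.2.2.2.2 (by decide +kernel)) (p74 h).2.2.2.2.1.2.2 (by decide +kernel)) (ndF (ndF (ndF (ndF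 TOK.nil TOK.nil (p75 h).1.1.1.2.2.1 (by decide +kernel)) (ndF TOK.nil TOK.nil (p75 h).1.1.2.1.1 (by decide +kernel)) (p75 h).1.1.1.2.2.2 (by decide +kernel)) (ndF (ndF TOK.nil TOK.nil (p75 h).1.1.2.2.1 (by decide +kernel)) TOK.nil (p75 h).1.1.2.2.2.1 (by decide +kernel)) (p75 h).1.1.2.1.2 (by decide +kernel)) (ndF (ndF (ndF TOK.nil TOK.nil (p75 h).1.2.1.1.1 (by decide +kernel)) TOK.nil (p75 h).1.2.1.1.2 (by decide +kernel)) (ndF (ndF TOK.nil TOK.nil (p75 h).1.2.1.2.2.1 (by decide +kernel)) TOK.nil (p75 h).1.2.1.2.2.2 (by decide +kernel)) (p75 h).1.2.1.2.1 (by decide +kernel)) (p75 h).1.1.2.2.2.2 (by decide +kernel)) (p75 h).1.1.1.2.1 (by decide +kernel)) (ndF (ndF (ndF (ndF (ndF TOK.nil TOK.nil (p75 h).1.2.2.1.2 (by decide +kernel)) (ndF TOK.nil TOK.nil (p75 h).1.2.2.2.2.1 (by decide +kernel)) (p75 h).1.2.2.2.1 (by decide +kernel)) (ndF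 (ndF TOK.nil TOK.nil (p75 h).2.1.1.1.1 (by decide +kernel)) TOK.nil (p75 h).2.1.1.1.2 (by decide +kernel)) (p75 h).1.2.2.2.2.2 (by decide +kernel)) (ndF (ndF (ndF TOK.nil TOK.nil (p75 h).2.1.1.2.2.1 (by decide +kernel)) (ndF TOK.nil TOK.nil (p75 h).2.1.2.1.1 (by decide +kernel)) (p75 h).2.1.1.2.2.2 (by decide +kernel)) (ndF (ndF TOK.nil TOK.nil (p75 h).2.1.2.2.1 (by decide +kernel)) TOK.nil (p75 h).2.1.2.2.2.1 (by decide +kernel)) (p75 h).2.1.2.1.2 (by decide +kernel)) (p75 h).2.1.1.2.1 (by decide +kernel)) (ndF (ndF (ndF (ndF TOK.nil TOK.nil (p75 h).2.2.1.1.1 (by decide +kernel)) (ndF TOK.nil TOK.nil (p75 h).2.2.1.2.1 (by decide +kernel)) (p75 h).2.2.1.1.2 (by decide +kernel)) (ndF (ndF TOK.nil TOK.nil (p75 h).2.2.1.2.2.2 (by decide +kernel)) TOK.nil (p75 h).2.2.2.1.1 (by decide +kernel)) (p75 h).2.2.1.2.2.1 (by decide +kernel)) (ndF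 (ndF (ndF TOK.nil TOK.nil (p75 h).2.2.2.1.2.2 (by decide +kernel)) TOK.nil (p75 h).2.2.2.2.1 (by decide +kernel)) (ndF (ndF TOK.nil TOK.nil (p75 h).2.2.2.2.2.2 (by decide +kernel)) TOK.nil (p76 h).1.1.1.1.1 (by decide +kernel)) (p75 h).2.2.2.2.2.1 (by decide +kernel)) (p75 h).2.2.2.1.2.1 (by decide +kernel)) (p75 h).2.1.2.2.2.2 (by decide +kernel)) (p75 h).1.2.2.1.1 (by decide +kernel))

theorem R_20_80_ok (h : RcOK RE.rowE) : R_20_80.OK :=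
  okF (by decide +kernel) (ndF (ndF (ndF (ndF (ndF (ndF (ndF TOK.nil TOK.nil (p76 h).1.1.1.1.2.1 (by decide +kernel)) TOK.nil (p76 h).1.1.1.1.2.2 (by decide +kernel)) (ndF (ndF TOK.nil TOK.nil (p76 h).1.1.1.2.1.2 (by decide +kernel)) TOK.nil (p76 h).1.1.1.2.2.1 (by decide +kernel)) (p76 h).1.1.1.2.1.1 (by decide +kernel)) (ndF (ndF (ndF TOK.nil TOK.nil (p76 h).1.1.2.1.1.1 (by decide +kernel)) TOK.nil (p76 h).1.1.2.1.1.2 (by decide +kernel)) (ndF TOK.nil TOK.nil (p76 h).1.1.2.1.2.2 (by decide +kernel)) (p76 h).1.1.2.1.2.1 (by decide +kernel)) (p76 h).1.1.1.2.2.2 (by decide +kernel)) (ndF (ndF (ndF (ndF TOK.nil TOK.nil (p76 h).1.1.2.2.1.2 (by decide +kernel)) TOK.nil (p76 h).1.1.2.2.2.1 (by decide +kernel)) (ndF TOK.nil TOK.nil (p76 h).1.2.1.1.1 (by decide +kernel)) (p76 h).1.1.2.2.2.2 (by decide +kernel)) (ndF (ndF (ndF TOK.nil TOK.nil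 (p76 h).1.2.1.1.2.2 (by decide +kernel)) TOK.nil (p76 h).1.2.1.2.1.1 (by decide +kernel)) (ndF TOK.nil TOK.nil (p76 h).1.2.1.2.2.1 (by decide +kernel)) (p76 h).1.2.1.2.1.2 (by decide +kernel)) (p76 h).1.2.1.1.2.1 (by decide +kernel)) (p76 h).1.1.2.2.1.1 (by decide +kernel)) (ndF (ndF (ndF (ndF (ndF TOK.nil TOK.nil (p76 h).1.2.2.1.1.1 (by decide +kernel)) TOK.nil (p76 h).1.2.2.1.1.2 (by decide +kernel)) (ndF (ndF TOK.nil TOK.nil (p76 h).1.2.2.1.2.2 (by decide +kernel)) TOK.nil (p76 h).1.2.2.2.1.1 (by decide +kernel)) (p76 h).1.2.2.1.2.1 (by decide +kernel)) (ndF (ndF (ndF TOK.nil TOK.nil (p76 h).1.2.2.2.2.1 (by decide +kernel)) TOK.nil (p76 h).1.2.2.2.2.2 (by decide +kernel)) (ndF TOK.nil TOK.nil (p76 h).2.1.1.1.2.1 (by decide +kernel)) (p76 h).2.1.1.1.1 (by decide +kernel)) (p76 h).1.2.2.2.1.2 (by decide +kernel)) (ndF (ndF (ndF (ndF TOK.nil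 TOK.nil (p76 h).2.1.1.2.1.1 (by decide +kernel)) TOK.nil (p76 h).2.1.1.2.1.2 (by decide +kernel)) (ndF TOK.nil TOK.nil (p76 h).2.1.1.2.2.2 (by decide +kernel)) (p76 h).2.1.1.2.2.1 (by decide +kernel)) (ndF (ndF (ndF TOK.nil TOK.nil (p76 h).2.1.2.1.1.2 (by decide +kernel)) TOK.nil (p76 h).2.1.2.1.2.1 (by decide +kernel)) (ndF TOK.nil TOK.nil (p76 h).2.1.2.2.1.1 (by decide +kernel)) (p76 h).2.1.2.1.2.2 (by decide +kernel)) (p76 h).2.1.2.1.1.1 (by decide +kernel)) (p76 h).2.1.1.1.2.2 (by decide +kernel)) (p76 h).1.2.1.2.2.2 (by decide +kernel)) (ndF (ndF (ndF (ndF (ndF (ndF TOK.nil TOK.nil (p76 h).2.1.2.2.2.1 (by decide +kernel)) TOK.nil (p76 h).2.1.2.2.2.2 (by decide +kernel)) (ndF (ndF TOK.nil TOK.nil (p76 h).2.2.1.1.1.2 (by decide +kernel)) TOK.nil (p76 h).2.2.1.1.2.1 (by decide +kernel)) (p76 h).2.2.1.1.1.1 (by decide +kernel)) (ndF (ndF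 (ndF TOK.nil TOK.nil (p76 h).2.2.1.2.1.1 (by decide +kernel)) TOK.nil (p76 h).2.2.1.2.1.2 (by decide +kernel)) (ndF TOK.nil TOK.nil (p76 h).2.2.1.2.2.2 (by decide +kernel)) (p76 h).2.2.1.2.2.1 (by decide +kernel)) (p76 h).2.2.1.1.2.2 (by decide +kernel)) (ndF (ndF (ndF (ndF TOK.nil TOK.nil (p76 h).2.2.2.1.1.2 (by decide +kernel)) TOK.nil (p76 h).2.2.2.1.2.1 (by decide +kernel)) (ndF TOK.nil TOK.nil (p76 h).2.2.2.2.1.1 (by decide +kernel)) (p76 h).2.2.2.1.2.2 (by decide +kernel)) (ndF (ndF (ndF TOK.nil TOK.nil (p76 h).2.2.2.2.2.1 (by decide +kernel)) TOK.nil (p76 h).2.2.2.2.2.2 (by decide +kernel)) (ndF TOK.nil TOK.nil (p77 h).1.1.1.1.1.1.2 (by decide +kernel)) (p77 h).1.1.1.1.1.1.1 (by decide +kernel)) (p76 h).2.2.2.2.1.2 (by decide +kernel)) (p76 h).2.2.2.1.1.1 (by decide +kernel)) (ndF (ndF (ndF (ndF (ndF TOK.nil TOK.nil (p77 h).1.1.1.1.1.2.2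 (by decide +kernel)) TOK.nil (p77 h).1.1.1.1.2.1.1 (by decide +kernel)) (ndF (ndF TOK.nil TOK.nil (p77 h).1.1.1.1.2.2.1 (by decide +kernel)) TOK.nil (p77 h).1.1.1.1.2.2.2.1 (by decide +kernel)) (p77 h).1.1.1.1.2.1.2 (by decide +kernel)) (ndF (ndF (ndF TOK.nil TOK.nil (p77 h).1.1.1.2.1.1.1 (by decide +kernel)) TOK.nil (p77 h).1.1.1.2.1.1.2 (by decide +kernel)) (ndF TOK.nil TOK.nil (p77 h).1.1.1.2.1.2.2 (by decide +kernel)) (p77 h).1.1.1.2.1.2.1 (by decide +kernel)) (p77 h).1.1.1.1.2.2.2.2 (by decide +kernel)) (ndF (ndF (ndF (ndF TOK.nil TOK.nil (p77 h).1.1.1.2.2.1.2 (by decide +kernel)) TOK.nil (p77 h).1.1.1.2.2.2.1 (by decide +kernel)) (ndF TOK.nil TOK.nil (p77 h).1.1.1.2.2.2.2.2 (by decide +kernel)) (p77 h).1.1.1.2.2.2.2.1 (by decide +kernel)) (ndF (ndF (ndF TOK.nil TOK.nil (p77 h).1.1.2.1.1.1.2 (by decide +kernel)) TOK.nil (p77 h).1.1.2.1.1.2.1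 (by decide +kernel)) (ndF TOK.nil TOK.nil (p77 h).1.1.2.1.2.1.1 (by decide +kernel)) (p77 h).1.1.2.1.1.2.2 (by decide +kernel)) (p77 h).1.1.2.1.1.1.1 (by decide +kernel)) (p77 h).1.1.1.2.2.1.1 (by decide +kernel)) (p77 h).1.1.1.1.1.2.1 (by decide +kernel)) (p76 h).2.1.2.2.1.2 (by decide +kernel))

theorem T_20_80_ok (h : RcOK RE.rowE) : T_20_80.OK :=
  okF (by decide +kernel) (ndF (ndF (ndF (ndF (ndF (ndF (ndF TOK.nil TOK.nil (p77 h).1.1.2.1.2.1.2 (by decide +kernel)) TOK.nil (p77 h).1.1.2.1.2.2.1 (by decide +kernel)) (ndF (ndF TOK.nil TOK.nil (p77 h).1.1.2.1.2.2.2.2 (by decide +kernel)) TOK.nil (p77 h).1.1.2.2.1.1.1 (by decide +kernel)) (p77 h).1.1.2.1.2.2.2.1 (by decide +kernel)) (ndF (ndF (ndF TOK.nil TOK.nil (p77 h).1.1.2.2.1.2.1 (by decide +kernel)) TOK.nil (p77 h).1.1.2.2.1.2.2.1 (by decide +kernel)) (ndF TOK.nil TOK.nil (p77 h).1.1.2.2.2.1.1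 (by decide +kernel)) (p77 h).1.1.2.2.1.2.2.2 (by decide +kernel)) (p77 h).1.1.2.2.1.1.2 (by decide +kernel)) (ndF (ndF (ndF (ndF TOK.nil TOK.nil (p77 h).1.1.2.2.2.2.1 (by decide +kernel)) TOK.nil (p77 h).1.1.2.2.2.2.2.1 (by decide +kernel)) (ndF TOK.nil TOK.nil (p77 h).1.2.1.1.1.1.1 (by decide +kernel)) (p77 h).1.1.2.2.2.2.2.2 (by decide +kernel)) (ndF (ndF (ndF TOK.nil TOK.nil (p77 h).1.2.1.1.1.2.1 (by decide +kernel)) TOK.nil (p77 h).1.2.1.1.1.2.2 (by decide +kernel)) (ndF TOK.nil TOK.nil (p77 h).1.2.1.1.2.1.2 (by decide +kernel)) (p77 h).1.2.1.1.2.1.1 (by decide +kernel)) (p77 h).1.2.1.1.1.1.2 (by decide +kernel)) (p77 h).1.1.2.2.2.1.2 (by decide +kernel)) (ndF (ndF (ndF (ndF (ndF TOK.nil TOK.nil (p77 h).1.2.1.1.2.2.2.1 (by decide +kernel)) TOK.nil (p77 h).1.2.1.1.2.2.2.2 (by decide +kernel)) (ndF (ndF TOK.nil TOK.nil (p77 h).1.2.1.2.1.1.2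 (by decide +kernel)) TOK.nil (p77 h).1.2.1.2.1.2.1 (by decide +kernel)) (p77 h).1.2.1.2.1.1.1 (by decide +kernel)) (ndF (ndF (ndF TOK.nil TOK.nil (p77 h).1.2.1.2.2.1.1 (by decide +kernel)) TOK.nil (p77 h).1.2.1.2.2.1.2 (by decide +kernel)) (ndF TOK.nil TOK.nil (p77 h).1.2.1.2.2.2.2.1 (by decide +kernel)) (p77 h).1.2.1.2.2.2.1 (by decide +kernel)) (p77 h).1.2.1.2.1.2.2 (by decide +kernel)) (ndF (ndF (ndF (ndF TOK.nil TOK.nil (p77 h).1.2.2.1.1.1.1 (by decide +kernel)) TOK.nil (p77 h).1.2.2.1.1.1.2 (by decide +kernel)) (ndF TOK.nil TOK.nil (p77 h).1.2.2.1.1.2.2 (by decide +kernel)) (p77 h).1.2.2.1.1.2.1 (by decide +kernel)) (ndF (ndF (ndF TOK.nil TOK.nil (p77 h).1.2.2.1.2.1.2 (by decide +kernel)) TOK.nil (p77 h).1.2.2.1.2.2.1 (by decide +kernel)) (ndF TOK.nil TOK.nil (p77 h).1.2.2.1.2.2.2.2 (by decide +kernel)) (p77 h).1.2.2.1.2.2.2.1 (by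 decide +kernel)) (p77 h).1.2.2.1.2.1.1 (by decide +kernel)) (p77 h).1.2.1.2.2.2.2.2 (by decide +kernel)) (p77 h).1.2.1.1.2.2.1 (by decide +kernel)) (ndF (ndF (ndF (ndF (ndF (ndF TOK.nil TOK.nil (p77 h).1.2.2.2.1.1.2 (by decide +kernel)) TOK.nil (p77 h).1.2.2.2.1.2.1 (by decide +kernel)) (ndF (ndF TOK.nil TOK.nil (p77 h).1.2.2.2.1.2.2.2 (by decide +kernel)) TOK.nil (p77 h).1.2.2.2.2.1.1 (by decide +kernel)) (p77 h).1.2.2.2.1.2.2.1 (by decide +kernel)) (ndF (ndF (ndF TOK.nil TOK.nil (p77 h).1.2.2.2.2.2.1 (by decide +kernel)) TOK.nil (p77 h).1.2.2.2.2.2.2.1 (by decide +kernel)) (ndF TOK.nil TOK.nil (p77 h).2.1.1.1.1.1.1 (by decide +kernel)) (p77 h).1.2.2.2.2.2.2.2 (by decide +kernel)) (p77 h).1.2.2.2.2.1.2 (by decide +kernel)) (ndF (ndF (ndF (ndF TOK.nil TOK.nil (p77 h).2.1.1.1.1.2.1 (by decide +kernel)) TOK.nil (p77 h).2.1.1.1.1.2.2 (by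 decide +kernel)) (ndF TOK.nil TOK.nil (p77 h).2.1.1.1.2.1.2 (by decide +kernel)) (p77 h).2.1.1.1.2.1.1 (by decide +kernel)) (ndF (ndF (ndF TOK.nil TOK.nil (p77 h).2.1.1.1.2.2.2.1 (by decide +kernel)) TOK.nil (p77 h).2.1.1.1.2.2.2.2 (by decide +kernel)) (ndF TOK.nil TOK.nil (p77 h).2.1.1.2.1.1.2 (by decide +kernel)) (p77 h).2.1.1.2.1.1.1 (by decide +kernel)) (p77 h).2.1.1.1.2.2.1 (by decide +kernel)) (p77 h).2.1.1.1.1.1.2 (by decide +kernel)) (ndF (ndF (ndF (ndF (ndF TOK.nil TOK.nil (p77 h).2.1.1.2.1.2.2 (by decide +kernel)) TOK.nil (p77 h).2.1.1.2.2.1.1 (by decide +kernel)) (ndF (ndF TOK.nil TOK.nil (p77 h).2.1.1.2.2.2.1 (by decide +kernel)) TOK.nil (p77 h).2.1.1.2.2.2.2.1 (by decide +kernel)) (p77 h).2.1.1.2.2.1.2 (by decide +kernel)) (ndF (ndF (ndF TOK.nil TOK.nil (p77 h).2.1.2.1.1.1.1 (by decide +kernel)) TOK.nil (p77 h).2.1.2.1.1.1.2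 (by decide +kernel)) (ndF TOK.nil TOK.nil (p77 h).2.1.2.1.1.2.2 (by decide +kernel)) (p77 h).2.1.2.1.1.2.1 (by decide +kernel)) (p77 h).2.1.1.2.2.2.2.2 (by decide +kernel)) (ndF (ndF (ndF (ndF TOK.nil TOK.nil (p77 h).2.1.2.1.2.1.2 (by decide +kernel)) TOK.nil (p77 h).2.1.2.1.2.2.1 (by decide +kernel)) (ndF TOK.nil TOK.nil (p77 h).2.1.2.1.2.2.2.2 (by decide +kernel)) (p77 h).2.1.2.1.2.2.2.1 (by decide +kernel)) (ndF (ndF (ndF TOK.nil TOK.nil (p77 h).2.1.2.2.1.1.2 (by decide +kernel)) TOK.nil (p77 h).2.1.2.2.1.2.1 (by decide +kernel)) (ndF TOK.nil TOK.nil (p77 h).2.1.2.2.1.2.2.2 (by decide +kernel)) (p77 h).2.1.2.2.1.2.2.1 (by decide +kernel)) (p77 h).2.1.2.2.1.1.1 (by decide +kernel)) (p77 h).2.1.2.1.2.1.1 (by decide +kernel)) (p77 h).2.1.1.2.1.2.1 (by decide +kernel)) (p77 h).1.2.2.2.1.1.1 (by decide +kernel))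

theorem R_20_100_ok (h : RcOK RE.rowE) : R_20_100.OK :=
  okF (by decide +kernel) (ndF (ndF (ndF (ndF (ndF (ndF (ndF TOK.nil TOK.nil (p77 h).2.1.2.2.2.1.1 (by decide +kernel)) TOK.nil (p77 h).2.1.2.2.2.1.2 (by decide +kernel)) (ndF (ndF TOK.nil TOK.nil (p77 h).2.1.2.2.2.2.2.1 (by decide +kernel)) TOK.nil (p77 h).2.1.2.2.2.2.2.2 (by decide +kernel)) (p77 h).2.1.2.2.2.2.1 (by decide +kernel)) (ndF (ndF (ndF TOK.nil TOK.nil (p77 h).2.2.1.1.1.1.2 (by decide +kernel)) TOK.nil (p77 h).2.2.1.1.1.2.1 (by decide +kernel)) (ndF TOK.nil TOK.nil (p77 h).2.2.1.1.2.1.1 (by decide +kernel)) (p77 h).2.2.1.1.1.2.2 (by decide +kernel)) (p77 h).2.2.1.1.1.1.1 (by decide +kernel)) (ndF (ndF (ndF (ndF TOK.nil TOK.nil (p77 h).2.2.1.1.2.2.1 (by decide +kernel)) TOK.nil (p77 h).2.2.1.1.2.2.2.1 (by decide +kernel)) (ndF TOK.nil TOK.nil (p77 h).2.2.1.2.1.1.1 (by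 decide +kernel)) (p77 h).2.2.1.1.2.2.2.2 (by decide +kernel)) (ndF (ndF (ndF TOK.nil TOK.nil (p77 h).2.2.1.2.1.2.1 (by decide +kernel)) TOK.nil (p77 h).2.2.1.2.1.2.2.1 (by decide +kernel)) (ndF TOK.nil TOK.nil (p77 h).2.2.1.2.2.1.1 (by decide +kernel)) (p77 h).2.2.1.2.1.2.2.2 (by decide +kernel)) (p77 h).2.2.1.2.1.1.2 (by decide +kernel)) (p77 h).2.2.1.1.2.1.2 (by decide +kernel)) (ndF (ndF (ndF (ndF (ndF TOK.nil TOK.nil (p77 h).2.2.1.2.2.2.1 (by decide +kernel)) TOK.nil (p77 h).2.2.1.2.2.2.2.1 (by decide +kernel)) (ndF TOK.nil TOK.nil (p77 h).2.2.2.1.1.1.1 (by decide +kernel)) (p77 h).2.2.1.2.2.2.2.2 (by decide +kernel)) (ndF (ndF (ndF TOK.nil TOK.nil (p77 h).2.2.2.1.1.2.1 (by decide +kernel)) TOK.nil (p77 h).2.2.2.1.1.2.2 (by decide +kernel)) (ndF TOK.nil TOK.nil (p77 h).2.2.2.1.2.1.2 (by decide +kernel)) (p77 h).2.2.2.1.2.1.1 (by decide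 +kernel)) (p77 h).2.2.2.1.1.1.2 (by decide +kernel)) (ndF (ndF (ndF (ndF TOK.nil TOK.nil (p77 h).2.2.2.1.2.2.2.1 (by decide +kernel)) TOK.nil (p77 h).2.2.2.1.2.2.2.2 (by decide +kernel)) (ndF TOK.nil TOK.nil (p77 h).2.2.2.2.1.1.2 (by decide +kernel)) (p77 h).2.2.2.2.1.1.1 (by decide +kernel)) (ndF (ndF (ndF TOK.nil TOK.nil (p77 h).2.2.2.2.1.2.2.1 (by decide +kernel)) TOK.nil (p77 h).2.2.2.2.1.2.2.2 (by decide +kernel)) (ndF TOK.nil TOK.nil (p77 h).2.2.2.2.2.1.2 (by decide +kernel)) (p77 h).2.2.2.2.2.1.1 (by decide +kernel)) (p77 h).2.2.2.2.1.2.1 (by decide +kernel)) (p77 h).2.2.2.1.2.2.1 (by decide +kernel)) (p77 h).2.2.1.2.2.1.2 (by decide +kernel)) (ndF (ndF (ndF (ndF (ndF (ndF TOK.nil TOK.nil (p77 h).2.2.2.2.2.2.2.1 (by decide +kernel)) TOK.nil (p77 h).2.2.2.2.2.2.2.2 (by decide +kernel)) (ndF (ndF TOK.nil TOK.nil (p78 h).1.1.1.1.1.1.2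 (by decide +kernel)) TOK.nil (p78 h).1.1.1.1.1.2.1 (by decide +kernel)) (p78 h).1.1.1.1.1.1.1 (by decide +kernel)) (ndF (ndF (ndF TOK.nil TOK.nil (p78 h).1.1.1.1.1.2.2.2 (by decide +kernel)) TOK.nil (p78 h).1.1.1.1.2.1.1 (by decide +kernel)) (ndF TOK.nil TOK.nil (p78 h).1.1.1.1.2.1.2.2 (by decide +kernel)) (p78 h).1.1.1.1.2.1.2.1 (by decide +kernel)) (p78 h).1.1.1.1.1.2.2.1 (by decide +kernel)) (ndF (ndF (ndF (ndF TOK.nil TOK.nil (p78 h).1.1.1.1.2.2.2.1 (by decide +kernel)) TOK.nil (p78 h).1.1.1.1.2.2.2.2 (by decide +kernel)) (ndF TOK.nil TOK.nil (p78 h).1.1.1.2.1.1.2 (by decide +kernel)) (p78 h).1.1.1.2.1.1.1 (by decide +kernel)) (ndF (ndF (ndF TOK.nil TOK.nil (p78 h).1.1.1.2.1.2.2.1 (by decide +kernel)) TOK.nil (p78 h).1.1.1.2.1.2.2.2 (by decide +kernel)) (ndF TOK.nil TOK.nil (p78 h).1.1.1.2.2.1.2.1 (by decide +kernel)) (p78 h).1.1.1.2.2.1.1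 (by decide +kernel)) (p78 h).1.1.1.2.1.2.1 (by decide +kernel)) (p78 h).1.1.1.1.2.2.1 (by decide +kernel)) (ndF (ndF (ndF (ndF (ndF TOK.nil TOK.nil (p78 h).1.1.1.2.2.2.1 (by decide +kernel)) TOK.nil (p78 h).1.1.1.2.2.2.2.1 (by decide +kernel)) (ndF TOK.nil TOK.nil (p78 h).1.1.2.1.1.1.1 (by decide +kernel)) (p78 h).1.1.1.2.2.2.2.2 (by decide +kernel)) (ndF (ndF (ndF TOK.nil TOK.nil (p78 h).1.1.2.1.1.2.1 (by decide +kernel)) TOK.nil (p78 h).1.1.2.1.1.2.2.1 (by decide +kernel)) (ndF TOK.nil TOK.nil (p78 h).1.1.2.1.2.1.1 (by decide +kernel)) (p78 h).1.1.2.1.1.2.2.2 (by decide +kernel)) (p78 h).1.1.2.1.1.1.2 (by decide +kernel)) (ndF (ndF (ndF (ndF TOK.nil TOK.nil (p78 h).1.1.2.1.2.1.2.2 (by decide +kernel)) TOK.nil (p78 h).1.1.2.1.2.2.1 (by decide +kernel)) (ndF TOK.nil TOK.nil (p78 h).1.1.2.1.2.2.2.2 (by decide +kernel)) (p78 h).1.1.2.1.2.2.2.1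 (by decide +kernel)) (ndF (ndF (ndF TOK.nil TOK.nil (p78 h).1.1.2.2.1.1.2 (by decide +kernel)) TOK.nil (p78 h).1.1.2.2.1.2.1 (by decide +kernel)) (ndF TOK.nil TOK.nil (p78 h).1.1.2.2.1.2.2.2 (by decide +kernel)) (p78 h).1.1.2.2.1.2.2.1 (by decide +kernel)) (p78 h).1.1.2.2.1.1.1 (by decide +kernel)) (p78 h).1.1.2.1.2.1.2.1 (by decide +kernel)) (p78 h).1.1.1.2.2.1.2.2 (by decide +kernel)) (p77 h).2.2.2.2.2.2.1 (by decide +kernel))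

theorem T_20_100_ok (h : RcOK RE.rowE) : T_20_100.OK :=
  okF (by decide +kernel) (ndF (ndF (ndF (ndF (ndF (ndF (ndF TOK.nil TOK.nil (p78 h).1.1.2.2.2.1.1 (by decide +kernel)) TOK.nil (p78 h).1.1.2.2.2.1.2.1 (by decide +kernel)) (ndF (ndF TOK.nil TOK.nil (p78 h).1.1.2.2.2.2.1 (by decide +kernel)) TOK.nil (p78 h).1.1.2.2.2.2.2.1 (by decide +kernel)) (p78 h).1.1.2.2.2.1.2.2 (by decide +kernel)) (ndF (ndF (ndF TOK.nil TOK.nil (p78 h).1.2.1.1.1.1.1 (by decide +kernel)) TOK.nil (p78 h).1.2.1.1.1.1.2 (by decide +kernel)) (ndF TOK.nil TOK.nil (p78 h).1.2.1.1.1.2.2.1 (by decide +kernel)) (p78 h).1.2.1.1.1.2.1 (by decide +kernel)) (p78 h).1.1.2.2.2.2.2.2 (by decide +kernel)) (ndF (ndF (ndF (ndF TOK.nil TOK.nil (p78 h).1.2.1.1.2.1.1 (by decide +kernel)) TOK.nil (p78 h).1.2.1.1.2.1.2.1 (by decide +kernel)) (ndF TOK.nil TOK.nil (p78 h).1.2.1.1.2.2.1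 (by decide +kernel)) (p78 h).1.2.1.1.2.1.2.2 (by decide +kernel)) (ndF (ndF (ndF TOK.nil TOK.nil (p78 h).1.2.1.1.2.2.2.2 (by decide +kernel)) TOK.nil (p78 h).1.2.1.2.1.1.1 (by decide +kernel)) (ndF TOK.nil TOK.nil (p78 h).1.2.1.2.1.2.1 (by decide +kernel)) (p78 h).1.2.1.2.1.1.2 (by decide +kernel)) (p78 h).1.2.1.1.2.2.2.1 (by decide +kernel)) (p78 h).1.2.1.1.1.2.2.2 (by decide +kernel)) (ndF (ndF (ndF (ndF (ndF TOK.nil TOK.nil (p78 h).1.2.1.2.1.2.2.2 (by decide +kernel)) TOK.nil (p78 h).1.2.1.2.2.1.1 (by decide +kernel)) (ndF TOK.nil TOK.nil (p78 h).1.2.1.2.2.1.2.2 (by decide +kernel)) (p78 h).1.2.1.2.2.1.2.1 (by decide +kernel)) (ndF (ndF (ndF TOK.nil TOK.nil (p78 h).1.2.1.2.2.2.2.1 (by decide +kernel)) TOK.nil (p78 h).1.2.1.2.2.2.2.2 (by decide +kernel)) (ndF TOK.nil TOK.nil (p78 h).1.2.2.1.1.1.2 (by decide +kernel)) (p78 h).1.2.2.1.1.1.1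 (by decide +kernel)) (p78 h).1.2.1.2.2.2.1 (by decide +kernel)) (ndF (ndF (ndF (ndF TOK.nil TOK.nil (p78 h).1.2.2.1.1.2.2.1 (by decide +kernel)) TOK.nil (p78 h).1.2.2.1.1.2.2.2 (by decide +kernel)) (ndF TOK.nil TOK.nil (p78 h).1.2.2.1.2.1.2.1 (by decide +kernel)) (p78 h).1.2.2.1.2.1.1 (by decide +kernel)) (ndF (ndF (ndF TOK.nil TOK.nil (p78 h).1.2.2.1.2.2.1 (by decide +kernel)) TOK.nil (p78 h).1.2.2.1.2.2.2.1 (by decide +kernel)) (ndF TOK.nil TOK.nil (p78 h).1.2.2.2.1.1.1 (by decide +kernel)) (p78 h).1.2.2.1.2.2.2.2 (by decide +kernel)) (p78 h).1.2.2.1.2.1.2.2 (by decide +kernel)) (p78 h).1.2.2.1.1.2.1 (by decide +kernel)) (p78 h).1.2.1.2.1.2.2.1 (by decide +kernel)) (ndF (ndF (ndF (ndF (ndF (ndF TOK.nil TOK.nil (p78 h).1.2.2.2.1.2.1 (by decide +kernel)) TOK.nil (p78 h).1.2.2.2.1.2.2.1 (by decide +kernel)) (ndF (ndF TOK.nil TOK.nil (p78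 h).1.2.2.2.2.1.1 (by decide +kernel)) TOK.nil (p78 h).1.2.2.2.2.1.2.1 (by decide +kernel)) (p78 h).1.2.2.2.1.2.2.2 (by decide +kernel)) (ndF (ndF (ndF TOK.nil TOK.nil (p78 h).1.2.2.2.2.2.1 (by decide +kernel)) TOK.nil (p78 h).1.2.2.2.2.2.2.1 (by decide +kernel)) (ndF TOK.nil TOK.nil (p78 h).2.1.1.1.1.1.1 (by decide +kernel)) (p78 h).1.2.2.2.2.2.2.2 (by decide +kernel)) (p78 h).1.2.2.2.2.1.2.2 (by decide +kernel)) (ndF (ndF (ndF (ndF TOK.nil TOK.nil (p78 h).2.1.1.1.1.2.1 (by decide +kernel)) TOK.nil (p78 h).2.1.1.1.1.2.2.1 (by decide +kernel)) (ndF TOK.nil TOK.nil (p78 h).2.1.1.1.2.1.1 (by decide +kernel)) (p78 h).2.1.1.1.1.2.2.2 (by decide +kernel)) (ndF (ndF (ndF TOK.nil TOK.nil (p78 h).2.1.1.1.2.1.2.2 (by decide +kernel)) TOK.nil (p78 h).2.1.1.1.2.2.1 (by decide +kernel)) (ndF TOK.nil TOK.nil (p78 h).2.1.1.1.2.2.2.2 (by decide +kernel))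 (p78 h).2.1.1.1.2.2.2.1 (by decide +kernel)) (p78 h).2.1.1.1.2.1.2.1 (by decide +kernel)) (p78 h).2.1.1.1.1.1.2 (by decide +kernel)) (ndF (ndF (ndF (ndF (ndF TOK.nil TOK.nil (p78 h).2.1.1.2.1.1.2 (by decide +kernel)) TOK.nil (p78 h).2.1.1.2.1.2.1 (by decide +kernel)) (ndF TOK.nil TOK.nil (p78 h).2.1.1.2.1.2.2.2 (by decide +kernel)) (p78 h).2.1.1.2.1.2.2.1 (by decide +kernel)) (ndF (ndF (ndF TOK.nil TOK.nil (p78 h).2.1.1.2.2.1.2.1 (by decide +kernel)) TOK.nil (p78 h).2.1.1.2.2.1.2.2 (by decide +kernel)) (ndF TOK.nil TOK.nil (p78 h).2.1.1.2.2.2.2.1 (by decide +kernel)) (p78 h).2.1.1.2.2.2.1 (by decide +kernel)) (p78 h).2.1.1.2.2.1.1 (by decide +kernel)) (ndF (ndF (ndF (ndF TOK.nil TOK.nil (p78 h).2.1.2.1.1.1.1 (by decide +kernel)) TOK.nil (p78 h).2.1.2.1.1.1.2 (by decide +kernel)) (ndF TOK.nil TOK.nil (p78 h).2.1.2.1.1.2.2.1 (by decide +kernel))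 (p78 h).2.1.2.1.1.2.1 (by decide +kernel)) (ndF (ndF (ndF TOK.nil TOK.nil (p78 h).2.1.2.1.2.1.1 (by decide +kernel)) TOK.nil (p78 h).2.1.2.1.2.1.2.1 (by decide +kernel)) (ndF TOK.nil TOK.nil (p78 h).2.1.2.1.2.2.1 (by decide +kernel)) (p78 h).2.1.2.1.2.1.2.2 (by decide +kernel)) (p78 h).2.1.2.1.1.2.2.2 (by decide +kernel)) (p78 h).2.1.1.2.2.2.2.2 (by decide +kernel)) (p78 h).2.1.1.2.1.1.1 (by decide +kernel)) (p78 h).1.2.2.2.1.1.2 (by decide +kernel))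

theorem R_50_90_110_ok (h : RcOK RE.rowE) : R_50_90_110.OK :=
  okF (by decide +kernel) (ndF (ndF (ndF (ndF (ndF TOK.nil TOK.nil (p78 h).2.1.2.1.2.2.2.1 (by decide +kernel)) TOK.nil (p78 h).2.1.2.1.2.2.2.2 (by decide +kernel)) (ndF (ndF TOK.nil TOK.nil (p78 h).2.1.2.2.1.1.2 (by decide +kernel)) TOK.nil (p78 h).2.1.2.2.1.2.1 (by decide +kernel)) (p78 h).2.1.2.2.1.1.1 (by decide +kernel)) (ndF (ndF (ndF TOK.nil TOK.nil (p78 h).2.1.2.2.1.2.2.2 (by decide +kernel)) TOK.nil (p78 h).2.1.2.2.2.1.1 (by decide +kernel)) (ndF TOK.nil TOK.nil (p78 h).2.1.2.2.2.1.2.2 (by decide +kernel)) (p78 h).2.1.2.2.2.1.2.1 (by decide +kernel)) (p78 h).2.1.2.2.1.2.2.1 (by decide +kernel)) (ndF (ndF (ndF (ndF TOK.nil TOK.nil (p78 h).2.1.2.2.2.2.2.1 (by decide +kernel)) TOK.nil (p78 h).2.1.2.2.2.2.2.2 (by decide +kernel)) (ndF TOK.nil TOK.nil (p78 h).2.2.1.1.1.1.2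 (by decide +kernel)) (p78 h).2.2.1.1.1.1.1 (by decide +kernel)) (ndF (ndF (ndF TOK.nil TOK.nil (p78 h).2.2.1.1.1.2.2.1 (by decide +kernel)) TOK.nil (p78 h).2.2.1.1.1.2.2.2 (by decide +kernel)) (ndF TOK.nil TOK.nil (p78 h).2.2.1.1.2.1.2.1 (by decide +kernel)) (p78 h).2.2.1.1.2.1.1 (by decide +kernel)) (p78 h).2.2.1.1.1.2.1 (by decide +kernel)) (p78 h).2.1.2.2.2.2.1 (by decide +kernel))

theorem R_50_90_110_140_ok (h : RcOK RE.rowE) : R_50_90_110_140.OK :=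
  okF (by decide +kernel) (ndF (ndF (ndF (ndF (ndF TOK.nil TOK.nil (p78 h).2.2.1.1.2.1.2.2 (by decide +kernel)) TOK.nil (p78 h).2.2.1.1.2.2.1 (by decide +kernel)) (ndF TOK.nil TOK.nil (p78 h).2.2.1.1.2.2.2.2 (by decide +kernel)) (p78 h).2.2.1.1.2.2.2.1 (by decide +kernel)) (ndF (ndF TOK.nil TOK.nil (p78 h).2.2.1.2.1.1.2 (by decide +kernel)) (ndF TOK.nil TOK.nil (p78 h).2.2.1.2.1.2.2.1 (by decide +kernel)) (p78 h).2.2.1.2.1.2.1 (by decide +kernel)) (p78 h).2.2.1.2.1.1.1 (by decide +kernel)) (ndF (ndF (ndF TOK.nil TOK.nil (p78 h).2.2.1.2.2.1.1 (by decide +kernel)) (ndF TOK.nil TOK.nil (p78 h).2.2.1.2.2.1.2.2 (by decide +kernel)) (p78 h).2.2.1.2.2.1.2.1 (by decide +kernel)) (ndF (ndF TOK.nil TOK.nil (p78 h).2.2.1.2.2.2.2.1 (by decide +kernel)) (ndF TOK.nil TOK.nil (p78 h).2.2.2.1.1.1.1 (by decide +kernel)) (p78 h).2.2.1.2.2.2.2.2 (by decide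 +kernel)) (p78 h).2.2.1.2.2.2.1 (by decide +kernel)) (p78 h).2.2.1.2.1.2.2.2 (by decide +kernel))

theorem R_120_140_180_ok (h : RcOK RE.rowE) : R_120_140_180.OK :=
  okF (by decide +kernel) (ndF (ndF (ndF (ndF (ndF (ndF TOK.nil TOK.nil (p78 h).2.2.2.1.1.1.2 (by decide +kernel)) (ndF TOK.nil TOK.nil (p78 h).2.2.2.1.1.2.2.1 (by decide +kernel)) (p78 h).2.2.2.1.1.2.1 (by decide +kernel)) (ndF (ndF TOK.nil TOK.nil (p78 h).2.2.2.1.2.1.1 (by decide +kernel)) (ndF TOK.nil TOK.nil (p78 h).2.2.2.1.2.1.2.2 (by decide +kernel)) (p78 h).2.2.2.1.2.1.2.1 (by decide +kernel)) (p78 h).2.2.2.1.1.2.2.2 (by decide +kernel)) (ndF (ndF (ndF TOK.nil TOK.nil (p78 h).2.2.2.1.2.2.2.1 (by decide +kernel)) (ndF TOK.nil TOK.nil (p78 h).2.2.2.2.1.1.1 (by decide +kernel)) (p78 h).2.2.2.1.2.2.2.2 (by decide +kernel)) (ndF (ndF TOK.nil TOK.nil (p78 h).2.2.2.2.1.1.2.2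 (by decide +kernel)) (ndF TOK.nil TOK.nil (p78 h).2.2.2.2.1.2.2.1 (by decide +kernel)) (p78 h).2.2.2.2.1.2.1 (by decide +kernel)) (p78 h).2.2.2.2.1.1.2.1 (by decide +kernel)) (p78 h).2.2.2.1.2.2.1 (by decide +kernel)) (ndF (ndF (ndF (ndF TOK.nil TOK.nil (p78 h).2.2.2.2.2.1.1 (by decide +kernel)) (ndF TOK.nil TOK.nil (p78 h).2.2.2.2.2.1.2.2 (by decide +kernel)) (p78 h).2.2.2.2.2.1.2.1 (by decide +kernel)) (ndF (ndF TOK.nil TOK.nil (p78 h).2.2.2.2.2.2.2.1 (by decide +kernel)) (ndF TOK.nil TOK.nil (p79 h).1.1.1.1.1.1 (by decide +kernel)) (p78 h).2.2.2.2.2.2.2.2 (by decide +kernel)) (p78 h).2.2.2.2.2.2.1 (by decide +kernel)) (ndF (ndF (ndF TOK.nil TOK.nil (p79 h).1.1.1.1.2.1 (by decide +kernel)) (ndF TOK.nil TOK.nil (p79 h).1.1.1.2.1.1 (by decide +kernel)) (p79 h).1.1.1.1.2.2 (by decide +kernel)) (ndF (ndF TOK.nil TOK.nil (p79 h).1.1.1.2.2.1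 (by decide +kernel)) TOK.nil (p79 h).1.1.1.2.2.2 (by decide +kernel)) (p79 h).1.1.1.2.1.2 (by decide +kernel)) (p79 h).1.1.1.1.1.2 (by decide +kernel)) (p78 h).2.2.2.2.1.2.2.2 (by decide +kernel)) (ndF (ndF (ndF (ndF (ndF TOK.nil TOK.nil (p79 h).1.1.2.1.1.2 (by decide +kernel)) (ndF TOK.nil TOK.nil (p79 h).1.1.2.1.2.2 (by decide +kernel)) (p79 h).1.1.2.1.2.1 (by decide +kernel)) (ndF (ndF TOK.nil TOK.nil (p79 h).1.1.2.2.1.2 (by decide +kernel)) (ndF TOK.nil TOK.nil (p79 h).1.1.2.2.2.2.1 (by decide +kernel)) (p79 h).1.1.2.2.2.1 (by decide +kernel)) (p79 h).1.1.2.2.1.1 (by decide +kernel)) (ndF (ndF (ndF TOK.nil TOK.nil (p79 h).1.2.1.1.1.1 (by decide +kernel)) (ndF TOK.nil TOK.nil (p79 h).1.2.1.1.2.1 (by decide +kernel)) (p79 h).1.2.1.1.1.2 (by decide +kernel)) (ndF (ndF TOK.nil TOK.nil (p79 h).1.2.1.2.1.1 (by decide +kernel)) (ndF TOK.nil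 TOK.nil (p79 h).1.2.1.2.2.1 (by decide +kernel)) (p79 h).1.2.1.2.1.2 (by decide +kernel)) (p79 h).1.2.1.1.2.2 (by decide +kernel)) (p79 h).1.1.2.2.2.2.2 (by decide +kernel)) (ndF (ndF (ndF (ndF TOK.nil TOK.nil (p79 h).1.2.2.1.1.1 (by decide +kernel)) (ndF TOK.nil TOK.nil (p79 h).1.2.2.1.2.1 (by decide +kernel)) (p79 h).1.2.2.1.1.2 (by decide +kernel)) (ndF (ndF TOK.nil TOK.nil (p79 h).1.2.2.2.1.1 (by decide +kernel)) (ndF TOK.nil TOK.nil (p79 h).1.2.2.2.2.1 (by decide +kernel)) (p79 h).1.2.2.2.1.2 (by decide +kernel)) (p79 h).1.2.2.1.2.2 (by decide +kernel)) (ndF (ndF (ndF TOK.nil TOK.nil (p79 h).1.2.2.2.2.2.2 (by decide +kernel)) (ndF TOK.nil TOK.nil (p79 h).2.1.1.1.1.2 (by decide +kernel)) (p79 h).2.1.1.1.1.1 (by decide +kernel)) (ndF (ndF TOK.nil TOK.nil (p79 h).2.1.1.1.2.2 (by decide +kernel)) TOK.nil (p79 h).2.1.1.2.1.1 (by decide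 +kernel)) (p79 h).2.1.1.1.2.1 (by decide +kernel)) (p79 h).1.2.2.2.2.2.1 (by decide +kernel)) (p79 h).1.2.1.2.2.2 (by decide +kernel)) (p79 h).1.1.2.1.1.1 (by decide +kernel))


end TB
end Pool.Agent.Lib.MP_6947cd_al
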