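import Pool.Agent.Lib.MP_6947cd_al.TB.P85
import Pool.Agent.Lib.MP_6947cd_al.TB.P86
import Pool.Agent.Lib.MP_6947cd_al.TB.P87

/-!
Problem MP_6947cd_al (Chollet).  THE FAMILIES OF TABLES ARE CORRECT, part 22.
-/

set_option autoImplicit false
set_option maxHeartbeats 0
set_option maxRecDepth 100000
set_option linter.all false

namespace Pool.Agent.Lib.MP_6947cd_al
namespace TB

open Ent Ent.Pk Fr Fr.WT B1 PkA PkA.TF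

theorem R_100_160_ok (h : RcOK RE.rowE) : R_100_160.OK :=
  okF (by decide +kernel) (ndF (ndF (ndF (ndF (ndF (ndF (ndF TOK.nil TOK.nil (p85 h).1.1.1.2.2.2.2.1 (by decide +kernel)) TOK.nil (p85 h).1.1.1.2.2.2.2.2.1 (by decide +kernel)) (ndF TOK.nil TOK.nil (p85 h).1.1.2.1.1.1.1.1 (by decide +kernel)) (p85 h).1.1.1.2.2.2.2.2.2 (by decide +kernel)) (ndF (ndF (ndF TOK.nil TOK.nil (p85 h).1.1.2.1.1.1.2.1 (by decide +kernel)) TOK.nil (p85 h).1.1.2.1.1.1.2.2.1 (by decide +kernel)) (ndF TOK.nil TOK.nil (p85 h).1.1.2.1.1.2.1.1 (by decide +kernel)) (p85 h).1.1.2.1.1.1.2.2.2 (by decide +kernel)) (p85 h).1.1.2.1.1.1.1.2 (by decide +kernel)) (ndF (ndF (ndF (ndF TOK.nil TOK.nil (p85 h).1.1.2.1.1.2.2.1 (by decide +kernel)) TOK.nil (p85 h).1.1.2.1.1.2.2.2.1 (by decide +kernel)) (ndF TOK.nil TOK.nil (p85 h).1.1.2.1.2.1.1.1 (by decide +kernel))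 (p85 h).1.1.2.1.1.2.2.2.2 (by decide +kernel)) (ndF (ndF TOK.nil TOK.nil (p85 h).1.1.2.1.2.1.2.1 (by decide +kernel)) (ndF TOK.nil TOK.nil (p85 h).1.1.2.1.2.1.2.2.2 (by decide +kernel)) (p85 h).1.1.2.1.2.1.2.2.1 (by decide +kernel)) (p85 h).1.1.2.1.2.1.1.2 (by decide +kernel)) (p85 h).1.1.2.1.1.2.1.2 (by decide +kernel)) (ndF (ndF (ndF (ndF (ndF TOK.nil TOK.nil (p85 h).1.1.2.1.2.2.1.2 (by decide +kernel)) TOK.nil (p85 h).1.1.2.1.2.2.2.1 (by decide +kernel)) (ndF TOK.nil TOK.nil (p85 h).1.1.2.1.2.2.2.2.2 (by decide +kernel)) (p85 h).1.1.2.1.2.2.2.2.1 (by decide +kernel)) (ndF (ndF (ndF TOK.nil TOK.nil (p85 h).1.1.2.2.1.1.1.2 (by decide +kernel)) TOK.nil (p85 h).1.1.2.2.1.1.2.1 (by decide +kernel)) (ndF TOK.nil TOK.nil (p85 h).1.1.2.2.1.1.2.2.2 (by decide +kernel)) (p85 h).1.1.2.2.1.1.2.2.1 (by decide +kernel)) (p85 h).1.1.2.2.1.1.1.1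 (by decide +kernel)) (ndF (ndF (ndF (ndF TOK.nil TOK.nil (p85 h).1.1.2.2.1.2.1.2 (by decide +kernel)) TOK.nil (p85 h).1.1.2.2.1.2.2.1 (by decide +kernel)) (ndF TOK.nil TOK.nil (p85 h).1.1.2.2.1.2.2.2.2 (by decide +kernel)) (p85 h).1.1.2.2.1.2.2.2.1 (by decide +kernel)) (ndF (ndF TOK.nil TOK.nil (p85 h).1.1.2.2.2.1.1.2 (by decide +kernel)) (ndF TOK.nil TOK.nil (p85 h).1.1.2.2.2.1.2.2.1 (by decide +kernel)) (p85 h).1.1.2.2.2.1.2.1 (by decide +kernel)) (p85 h).1.1.2.2.2.1.1.1 (by decide +kernel)) (p85 h).1.1.2.2.1.2.1.1 (by decide +kernel)) (p85 h).1.1.2.1.2.2.1.1 (by decide +kernel)) (ndF (ndF (ndF (ndF (ndF (ndF TOK.nil TOK.nil (p85 h).1.1.2.2.2.2.1.1 (by decide +kernel)) TOK.nil (p85 h).1.1.2.2.2.2.1.2.1 (by decide +kernel)) (ndF TOK.nil TOK.nil (p85 h).1.1.2.2.2.2.2.1 (by decide +kernel)) (p85 h).1.1.2.2.2.2.1.2.2 (by decide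 +kernel)) (ndF (ndF (ndF TOK.nil TOK.nil (p85 h).1.1.2.2.2.2.2.2.2 (by decide +kernel)) TOK.nil (p85 h).1.2.1.1.1.1.1.1 (by decide +kernel)) (ndF TOK.nil TOK.nil (p85 h).1.2.1.1.1.1.2.1 (by decide +kernel)) (p85 h).1.2.1.1.1.1.1.2 (by decide +kernel)) (p85 h).1.1.2.2.2.2.2.2.1 (by decide +kernel)) (ndF (ndF (ndF (ndF TOK.nil TOK.nil (p85 h).1.2.1.1.1.1.2.2.2 (by decide +kernel)) TOK.nil (p85 h).1.2.1.1.1.2.1.1 (by decide +kernel)) (ndF TOK.nil TOK.nil (p85 h).1.2.1.1.1.2.2.1 (by decide +kernel)) (p85 h).1.2.1.1.1.2.1.2 (by decide +kernel)) (ndF (ndF TOK.nil TOK.nil (p85 h).1.2.1.1.1.2.2.2.2 (by decide +kernel)) (ndF TOK.nil TOK.nil (p85 h).1.2.1.1.2.1.1.2 (by decide +kernel)) (p85 h).1.2.1.1.2.1.1.1 (by decide +kernel)) (p85 h).1.2.1.1.1.2.2.2.1 (by decide +kernel)) (p85 h).1.2.1.1.1.1.2.2.1 (by decide +kernel)) (ndF (ndF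 (ndF (ndF (ndF TOK.nil TOK.nil (p85 h).1.2.1.1.2.1.2.2.1 (by decide +kernel)) TOK.nil (p85 h).1.2.1.1.2.1.2.2.2 (by decide +kernel)) (ndF TOK.nil TOK.nil (p85 h).1.2.1.1.2.2.1.2 (by decide +kernel)) (p85 h).1.2.1.1.2.2.1.1 (by decide +kernel)) (ndF (ndF TOK.nil TOK.nil (p85 h).1.2.1.1.2.2.2.2.1 (by decide +kernel)) (ndF TOK.nil TOK.nil (p85 h).1.2.1.2.1.1.1.1 (by decide +kernel)) (p85 h).1.2.1.1.2.2.2.2.2 (by decide +kernel)) (p85 h).1.2.1.1.2.2.2.1 (by decide +kernel)) (ndF (ndF (ndF (ndF TOK.nil TOK.nil (p85 h).1.2.1.2.1.1.2.1 (by decide +kernel)) TOK.nil (p85 h).1.2.1.2.1.1.2.2.1 (by decide +kernel)) (ndF TOK.nil TOK.nil (p85 h).1.2.1.2.1.2.1.1 (by decide +kernel)) (p85 h).1.2.1.2.1.1.2.2.2 (by decide +kernel)) (ndF (ndF TOK.nil TOK.nil (p85 h).1.2.1.2.1.2.2.1 (by decide +kernel)) (ndF TOK.nil TOK.nil (p85 h).1.2.1.2.1.2.2.2.2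 (by decide +kernel)) (p85 h).1.2.1.2.1.2.2.2.1 (by decide +kernel)) (p85 h).1.2.1.2.1.2.1.2 (by decide +kernel)) (p85 h).1.2.1.2.1.1.1.2 (by decide +kernel)) (p85 h).1.2.1.1.2.1.2.1 (by decide +kernel)) (p85 h).1.1.2.2.2.1.2.2.2 (by decide +kernel))

theorem T_26_52_ok (h : RcOK RE.rowE) : T_26_52.OK :=
  okF (by decide +kernel) (ndF (ndF (ndF (ndF (ndF (ndF (ndF TOK.nil TOK.nil (p85 h).1.2.1.2.2.1.1.1 (by decide +kernel)) TOK.nil (p85 h).1.2.1.2.2.1.1.2 (by decide +kernel)) (ndF TOK.nil TOK.nil (p85 h).1.2.1.2.2.1.2.2.1 (by decide +kernel)) (p85 h).1.2.1.2.2.1.2.1 (by decide +kernel)) (ndF (ndF TOK.nil TOK.nil (p85 h).1.2.1.2.2.2.1.1 (by decide +kernel)) (ndF TOK.nil TOK.nil (p85 h).1.2.1.2.2.2.1.2.2 (by decide +kernel)) (p85 h).1.2.1.2.2.2.1.2.1 (by decide +kernel)) (p85 h).1.2.1.2.2.1.2.2.2 (by decide +kernel)) (ndF (ndF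 (ndF TOK.nil TOK.nil (p85 h).1.2.1.2.2.2.2.2.1 (by decide +kernel)) (ndF TOK.nil TOK.nil (p85 h).1.2.2.1.1.1.1.1 (by decide +kernel)) (p85 h).1.2.1.2.2.2.2.2.2 (by decide +kernel)) (ndF (ndF TOK.nil TOK.nil (p85 h).1.2.2.1.1.1.2.1 (by decide +kernel)) (ndF TOK.nil TOK.nil (p85 h).1.2.2.1.1.1.2.2.2 (by decide +kernel)) (p85 h).1.2.2.1.1.1.2.2.1 (by decide +kernel)) (p85 h).1.2.2.1.1.1.1.2 (by decide +kernel)) (p85 h).1.2.1.2.2.2.2.1 (by decide +kernel)) (ndF (ndF (ndF (ndF TOK.nil TOK.nil (p85 h).1.2.2.1.1.2.1.2 (by decide +kernel)) (ndF TOK.nil TOK.nil (p85 h).1.2.2.1.1.2.2.2.1 (by decide +kernel)) (p85 h).1.2.2.1.1.2.2.1 (by decide +kernel)) (ndF (ndF TOK.nil TOK.nil (p85 h).1.2.2.1.2.1.1.1 (by decide +kernel)) (ndF TOK.nil TOK.nil (p85 h).1.2.2.1.2.1.2.1 (by decide +kernel)) (p85 h).1.2.2.1.2.1.1.2 (by decide +kernel))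 (p85 h).1.2.2.1.1.2.2.2.2 (by decide +kernel)) (ndF (ndF (ndF TOK.nil TOK.nil (p85 h).1.2.2.1.2.1.2.2.2 (by decide +kernel)) (ndF TOK.nil TOK.nil (p85 h).1.2.2.1.2.2.1.2.1 (by decide +kernel)) (p85 h).1.2.2.1.2.2.1.1 (by decide +kernel)) (ndF (ndF TOK.nil TOK.nil (p85 h).1.2.2.1.2.2.2.1 (by decide +kernel)) (ndF TOK.nil TOK.nil (p85 h).1.2.2.1.2.2.2.2.2 (by decide +kernel)) (p85 h).1.2.2.1.2.2.2.2.1 (by decide +kernel)) (p85 h).1.2.2.1.2.2.1.2.2 (by decide +kernel)) (p85 h).1.2.2.1.2.1.2.2.1 (by decide +kernel)) (p85 h).1.2.2.1.1.2.1.1 (by decide +kernel)) (ndF (ndF (ndF (ndF (ndF TOK.nil TOK.nil (p85 h).1.2.2.2.1.1.1.2 (by decide +kernel)) (ndF TOK.nil TOK.nil (p85 h).1.2.2.2.1.1.2.2.1 (by decide +kernel)) (p85 h).1.2.2.2.1.1.2.1 (by decide +kernel)) (ndF (ndF TOK.nil TOK.nil (p85 h).1.2.2.2.1.2.1.1 (by decide +kernel))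 (ndF TOK.nil TOK.nil (p85 h).1.2.2.2.1.2.2.1 (by decide +kernel)) (p85 h).1.2.2.2.1.2.1.2 (by decide +kernel)) (p85 h).1.2.2.2.1.1.2.2.2 (by decide +kernel)) (ndF (ndF (ndF TOK.nil TOK.nil (p85 h).1.2.2.2.1.2.2.2.2 (by decide +kernel)) (ndF TOK.nil TOK.nil (p85 h).1.2.2.2.2.1.1.2 (by decide +kernel)) (p85 h).1.2.2.2.2.1.1.1 (by decide +kernel)) (ndF (ndF TOK.nil TOK.nil (p85 h).1.2.2.2.2.1.2.2.1 (by decide +kernel)) (ndF TOK.nil TOK.nil (p85 h).1.2.2.2.2.2.1.1 (by decide +kernel)) (p85 h).1.2.2.2.2.1.2.2.2 (by decide +kernel)) (p85 h).1.2.2.2.2.1.2.1 (by decide +kernel)) (p85 h).1.2.2.2.1.2.2.2.1 (by decide +kernel)) (ndF (ndF (ndF (ndF TOK.nil TOK.nil (p85 h).1.2.2.2.2.2.1.2.2 (by decide +kernel)) (ndF TOK.nil TOK.nil (p85 h).1.2.2.2.2.2.2.2.1 (by decide +kernel)) (p85 h).1.2.2.2.2.2.2.1 (by decide +kernel)) (ndF (ndF TOK.nil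 TOK.nil (p85 h).2.1.1.1.1.1.1.1 (by decide +kernel)) (ndF TOK.nil TOK.nil (p85 h).2.1.1.1.1.1.2.1 (by decide +kernel)) (p85 h).2.1.1.1.1.1.1.2 (by decide +kernel)) (p85 h).1.2.2.2.2.2.2.2.2 (by decide +kernel)) (ndF (ndF (ndF TOK.nil TOK.nil (p85 h).2.1.1.1.1.1.2.2.2 (by decide +kernel)) (ndF TOK.nil TOK.nil (p85 h).2.1.1.1.1.2.1.2 (by decide +kernel)) (p85 h).2.1.1.1.1.2.1.1 (by decide +kernel)) (ndF (ndF TOK.nil TOK.nil (p85 h).2.1.1.1.1.2.2.2.1 (by decide +kernel)) (ndF TOK.nil TOK.nil (p85 h).2.1.1.1.2.1.1.1 (by decide +kernel)) (p85 h).2.1.1.1.1.2.2.2.2 (by decide +kernel)) (p85 h).2.1.1.1.1.2.2.1 (by decide +kernel)) (p85 h).2.1.1.1.1.1.2.2.1 (by decide +kernel)) (p85 h).1.2.2.2.2.2.1.2.1 (by decide +kernel)) (p85 h).1.2.2.2.1.1.1.1 (by decide +kernel))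

theorem T_40_120_ok (h : RcOK RE.rowE) : T_40_120.OK :=
  okF (by decide +kernel) (ndF (ndF (ndF (ndF (ndF (ndF (ndF TOK.nil TOK.nil (p85 h).2.1.1.1.2.1.1.2 (by decide +kernel)) TOK.nil (p85 h).2.1.1.1.2.1.2.1 (by decide +kernel)) (ndF (ndF TOK.nil TOK.nil (p85 h).2.1.1.1.2.1.2.2.2 (by decide +kernel)) TOK.nil (p85 h).2.1.1.1.2.2.1.1 (by decide +kernel)) (p85 h).2.1.1.1.2.1.2.2.1 (by decide +kernel)) (ndF (ndF (ndF TOK.nil TOK.nil (p85 h).2.1.1.1.2.2.2.1 (by decide +kernel)) TOK.nil (p85 h).2.1.1.1.2.2.2.2.1 (by decide +kernel)) (ndF TOK.nil TOK.nil (p85 h).2.1.1.2.1.1.1.1 (by decide +kernel)) (p85 h).2.1.1.1.2.2.2.2.2 (by decide +kernel)) (p85 h).2.1.1.1.2.2.1.2 (by decide +kernel)) (ndF (ndF (ndF (ndF TOK.nil TOK.nil (p85 h).2.1.1.2.1.1.2.1 (by decide +kernel)) TOK.nil (p85 h).2.1.1.2.1.1.2.2.1 (by decide +kernel)) (ndF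 TOK.nil TOK.nil (p85 h).2.1.1.2.1.2.1.1 (by decide +kernel)) (p85 h).2.1.1.2.1.1.2.2.2 (by decide +kernel)) (ndF (ndF (ndF TOK.nil TOK.nil (p85 h).2.1.1.2.1.2.2.1 (by decide +kernel)) TOK.nil (p85 h).2.1.1.2.1.2.2.2.1 (by decide +kernel)) (ndF TOK.nil TOK.nil (p85 h).2.1.1.2.2.1.1.1 (by decide +kernel)) (p85 h).2.1.1.2.1.2.2.2.2 (by decide +kernel)) (p85 h).2.1.1.2.1.2.1.2 (by decide +kernel)) (p85 h).2.1.1.2.1.1.1.2 (by decide +kernel)) (ndF (ndF (ndF (ndF (ndF TOK.nil TOK.nil (p85 h).2.1.1.2.2.1.2.1 (by decide +kernel)) TOK.nil (p85 h).2.1.1.2.2.1.2.2.1 (by decide +kernel)) (ndF TOK.nil TOK.nil (p85 h).2.1.1.2.2.2.1.1 (by decide +kernel)) (p85 h).2.1.1.2.2.1.2.2.2 (by decide +kernel)) (ndF (ndF (ndF TOK.nil TOK.nil (p85 h).2.1.1.2.2.2.1.2.2 (by decide +kernel)) TOK.nil (p85 h).2.1.1.2.2.2.2.1 (by decide +kernel)) (ndF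 TOK.nil TOK.nil (p85 h).2.1.1.2.2.2.2.2.2 (by decide +kernel)) (p85 h).2.1.1.2.2.2.2.2.1 (by decide +kernel)) (p85 h).2.1.1.2.2.2.1.2.1 (by decide +kernel)) (ndF (ndF (ndF (ndF TOK.nil TOK.nil (p85 h).2.1.2.1.1.1.1.2 (by decide +kernel)) TOK.nil (p85 h).2.1.2.1.1.1.2.1 (by decide +kernel)) (ndF TOK.nil TOK.nil (p85 h).2.1.2.1.1.1.2.2.2 (by decide +kernel)) (p85 h).2.1.2.1.1.1.2.2.1 (by decide +kernel)) (ndF (ndF (ndF TOK.nil TOK.nil (p85 h).2.1.2.1.1.2.1.2 (by decide +kernel)) TOK.nil (p85 h).2.1.2.1.1.2.2.1 (by decide +kernel)) (ndF TOK.nil TOK.nil (p85 h).2.1.2.1.1.2.2.2.2 (by decide +kernel)) (p85 h).2.1.2.1.1.2.2.2.1 (by decide +kernel)) (p85 h).2.1.2.1.1.2.1.1 (by decide +kernel)) (p85 h).2.1.2.1.1.1.1.1 (by decide +kernel)) (p85 h).2.1.1.2.2.1.1.2 (by decide +kernel)) (ndF (ndF (ndF (ndF (ndF (ndF TOK.nil TOK.nil (p85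 h).2.1.2.1.2.1.1.2 (by decide +kernel)) TOK.nil (p85 h).2.1.2.1.2.1.2.1 (by decide +kernel)) (ndF (ndF TOK.nil TOK.nil (p85 h).2.1.2.1.2.1.2.2.2 (by decide +kernel)) TOK.nil (p85 h).2.1.2.1.2.2.1.1 (by decide +kernel)) (p85 h).2.1.2.1.2.1.2.2.1 (by decide +kernel)) (ndF (ndF (ndF TOK.nil TOK.nil (p85 h).2.1.2.1.2.2.2.1 (by decide +kernel)) TOK.nil (p85 h).2.1.2.1.2.2.2.2.1 (by decide +kernel)) (ndF TOK.nil TOK.nil (p85 h).2.1.2.2.1.1.1.1 (by decide +kernel)) (p85 h).2.1.2.1.2.2.2.2.2 (by decide +kernel)) (p85 h).2.1.2.1.2.2.1.2 (by decide +kernel)) (ndF (ndF (ndF (ndF TOK.nil TOK.nil (p85 h).2.1.2.2.1.1.2.1 (by decide +kernel)) TOK.nil (p85 h).2.1.2.2.1.1.2.2.1 (by decide +kernel)) (ndF TOK.nil TOK.nil (p85 h).2.1.2.2.1.2.1.1 (by decide +kernel)) (p85 h).2.1.2.2.1.1.2.2.2 (by decide +kernel)) (ndF (ndF (ndF TOK.nil TOK.nil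 (p85 h).2.1.2.2.1.2.2.1 (by decide +kernel)) TOK.nil (p85 h).2.1.2.2.1.2.2.2.1 (by decide +kernel)) (ndF TOK.nil TOK.nil (p85 h).2.1.2.2.2.1.1.1 (by decide +kernel)) (p85 h).2.1.2.2.1.2.2.2.2 (by decide +kernel)) (p85 h).2.1.2.2.1.2.1.2 (by decide +kernel)) (p85 h).2.1.2.2.1.1.1.2 (by decide +kernel)) (ndF (ndF (ndF (ndF (ndF TOK.nil TOK.nil (p85 h).2.1.2.2.2.1.2.1 (by decide +kernel)) TOK.nil (p85 h).2.1.2.2.2.1.2.2.1 (by decide +kernel)) (ndF TOK.nil TOK.nil (p85 h).2.1.2.2.2.2.1.1 (by decide +kernel)) (p85 h).2.1.2.2.2.1.2.2.2 (by decide +kernel)) (ndF (ndF (ndF TOK.nil TOK.nil (p85 h).2.1.2.2.2.2.1.2.2 (by decide +kernel)) TOK.nil (p85 h).2.1.2.2.2.2.2.1 (by decide +kernel)) (ndF TOK.nil TOK.nil (p85 h).2.1.2.2.2.2.2.2.2 (by decide +kernel)) (p85 h).2.1.2.2.2.2.2.2.1 (by decide +kernel)) (p85 h).2.1.2.2.2.2.1.2.1 (by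 decide +kernel)) (ndF (ndF (ndF (ndF TOK.nil TOK.nil (p85 h).2.2.1.1.1.1.1.2 (by decide +kernel)) TOK.nil (p85 h).2.2.1.1.1.1.2.1 (by decide +kernel)) (ndF TOK.nil TOK.nil (p85 h).2.2.1.1.1.1.2.2.2 (by decide +kernel)) (p85 h).2.2.1.1.1.1.2.2.1 (by decide +kernel)) (ndF (ndF (ndF TOK.nil TOK.nil (p85 h).2.2.1.1.1.2.1.2 (by decide +kernel)) TOK.nil (p85 h).2.2.1.1.1.2.2.1 (by decide +kernel)) (ndF TOK.nil TOK.nil (p85 h).2.2.1.1.1.2.2.2.2 (by decide +kernel)) (p85 h).2.2.1.1.1.2.2.2.1 (by decide +kernel)) (p85 h).2.2.1.1.1.2.1.1 (by decide +kernel)) (p85 h).2.2.1.1.1.1.1.1 (by decide +kernel)) (p85 h).2.1.2.2.2.1.1.2 (by decide +kernel)) (p85 h).2.1.2.1.2.1.1.1 (by decide +kernel))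

theorem R_40_120_ok (h : RcOK RE.rowE) : R_40_120.OK :=
  okF (by decide +kernel) (ndF (ndF (ndF (ndF (ndF (ndF (ndF TOK.nil TOK.nil (p85 h).2.2.1.1.2.1.1.1 (by decide +kernel)) TOK.nil (p85 h).2.2.1.1.2.1.1.2 (by decide +kernel)) (ndF TOK.nil TOK.nil (p85 h).2.2.1.1.2.1.2.2.1 (by decide +kernel)) (p85 h).2.2.1.1.2.1.2.1 (by decide +kernel)) (ndF (ndF (ndF TOK.nil TOK.nil (p85 h).2.2.1.1.2.2.1.1 (by decide +kernel)) TOK.nil (p85 h).2.2.1.1.2.2.1.2 (by decide +kernel)) (ndF TOK.nil TOK.nil (p85 h).2.2.1.1.2.2.2.2.1 (by decide +kernel)) (p85 h).2.2.1.1.2.2.2.1 (by decide +kernel)) (p85 h).2.2.1.1.2.1.2.2.2 (by decide +kernel)) (ndF (ndF (ndF (ndF TOK.nil TOK.nil (p85 h).2.2.1.2.1.1.1.1 (by decide +kernel)) TOK.nil (p85 h).2.2.1.2.1.1.1.2 (by decide +kernel)) (ndF TOK.nil TOK.nil (p85 h).2.2.1.2.1.1.2.2.1 (by decide +kernel))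 (p85 h).2.2.1.2.1.1.2.1 (by decide +kernel)) (ndF (ndF (ndF TOK.nil TOK.nil (p85 h).2.2.1.2.1.2.1.1 (by decide +kernel)) TOK.nil (p85 h).2.2.1.2.1.2.1.2 (by decide +kernel)) (ndF TOK.nil TOK.nil (p85 h).2.2.1.2.1.2.2.2.1 (by decide +kernel)) (p85 h).2.2.1.2.1.2.2.1 (by decide +kernel)) (p85 h).2.2.1.2.1.1.2.2.2 (by decide +kernel)) (p85 h).2.2.1.1.2.2.2.2.2 (by decide +kernel)) (ndF (ndF (ndF (ndF (ndF TOK.nil TOK.nil (p85 h).2.2.1.2.2.1.1.1 (by decide +kernel)) TOK.nil (p85 h).2.2.1.2.2.1.1.2 (by decide +kernel)) (ndF TOK.nil TOK.nil (p85 h).2.2.1.2.2.1.2.2.1 (by decide +kernel)) (p85 h).2.2.1.2.2.1.2.1 (by decide +kernel)) (ndF (ndF (ndF TOK.nil TOK.nil (p85 h).2.2.1.2.2.2.1.1 (by decide +kernel)) TOK.nil (p85 h).2.2.1.2.2.2.1.2.1 (by decide +kernel)) (ndF TOK.nil TOK.nil (p85 h).2.2.1.2.2.2.2.1 (by decide +kernel)) (p85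 h).2.2.1.2.2.2.1.2.2 (by decide +kernel)) (p85 h).2.2.1.2.2.1.2.2.2 (by decide +kernel)) (ndF (ndF (ndF (ndF TOK.nil TOK.nil (p85 h).2.2.1.2.2.2.2.2.2 (by decide +kernel)) TOK.nil (p85 h).2.2.2.1.1.1.1.1 (by decide +kernel)) (ndF TOK.nil TOK.nil (p85 h).2.2.2.1.1.1.2.1 (by decide +kernel)) (p85 h).2.2.2.1.1.1.1.2 (by decide +kernel)) (ndF (ndF TOK.nil TOK.nil (p85 h).2.2.2.1.1.1.2.2.2 (by decide +kernel)) (ndF TOK.nil TOK.nil (p85 h).2.2.2.1.1.2.1.2 (by decide +kernel)) (p85 h).2.2.2.1.1.2.1.1 (by decide +kernel)) (p85 h).2.2.2.1.1.1.2.2.1 (by decide +kernel)) (p85 h).2.2.1.2.2.2.2.2.1 (by decide +kernel)) (p85 h).2.2.1.2.1.2.2.2.2 (by decide +kernel)) (ndF (ndF (ndF (ndF (ndF (ndF TOK.nil TOK.nil (p85 h).2.2.2.1.1.2.2.2.1 (by decide +kernel)) TOK.nil (p85 h).2.2.2.1.1.2.2.2.2 (by decide +kernel)) (ndF TOK.nil TOK.nil (p85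 h).2.2.2.1.2.1.1.2 (by decide +kernel)) (p85 h).2.2.2.1.2.1.1.1 (by decide +kernel)) (ndF (ndF (ndF TOK.nil TOK.nil (p85 h).2.2.2.1.2.1.2.2.1 (by decide +kernel)) TOK.nil (p85 h).2.2.2.1.2.1.2.2.2 (by decide +kernel)) (ndF TOK.nil TOK.nil (p85 h).2.2.2.1.2.2.1.2.1 (by decide +kernel)) (p85 h).2.2.2.1.2.2.1.1 (by decide +kernel)) (p85 h).2.2.2.1.2.1.2.1 (by decide +kernel)) (ndF (ndF (ndF (ndF TOK.nil TOK.nil (p85 h).2.2.2.1.2.2.2.1 (by decide +kernel)) TOK.nil (p85 h).2.2.2.1.2.2.2.2.1 (by decide +kernel)) (ndF TOK.nil TOK.nil (p85 h).2.2.2.2.1.1.1.1 (by decide +kernel)) (p85 h).2.2.2.1.2.2.2.2.2 (by decide +kernel)) (ndF (ndF (ndF TOK.nil TOK.nil (p85 h).2.2.2.2.1.1.2.1 (by decide +kernel)) TOK.nil (p85 h).2.2.2.2.1.1.2.2.1 (by decide +kernel)) (ndF TOK.nil TOK.nil (p85 h).2.2.2.2.1.2.1.1 (by decide +kernel)) (p85 h).2.2.2.2.1.1.2.2.2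 (by decide +kernel)) (p85 h).2.2.2.2.1.1.1.2 (by decide +kernel)) (p85 h).2.2.2.1.2.2.1.2.2 (by decide +kernel)) (ndF (ndF (ndF (ndF (ndF TOK.nil TOK.nil (p85 h).2.2.2.2.1.2.2.1 (by decide +kernel)) TOK.nil (p85 h).2.2.2.2.1.2.2.2.1 (by decide +kernel)) (ndF TOK.nil TOK.nil (p85 h).2.2.2.2.2.1.1.1 (by decide +kernel)) (p85 h).2.2.2.2.1.2.2.2.2 (by decide +kernel)) (ndF (ndF (ndF TOK.nil TOK.nil (p85 h).2.2.2.2.2.1.2.1 (by decide +kernel)) TOK.nil (p85 h).2.2.2.2.2.1.2.2.1 (by decide +kernel)) (ndF TOK.nil TOK.nil (p85 h).2.2.2.2.2.2.1.1 (by decide +kernel)) (p85 h).2.2.2.2.2.1.2.2.2 (by decide +kernel)) (p85 h).2.2.2.2.2.1.1.2 (by decide +kernel)) (ndF (ndF (ndF (ndF TOK.nil TOK.nil (p85 h).2.2.2.2.2.2.1.2.2 (by decide +kernel)) TOK.nil (p85 h).2.2.2.2.2.2.2.1 (by decide +kernel)) (ndF TOK.nil TOK.nil (p85 h).2.2.2.2.2.2.2.2.2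 (by decide +kernel)) (p85 h).2.2.2.2.2.2.2.2.1 (by decide +kernel)) (ndF (ndF TOK.nil TOK.nil (p86 h).1.1.1.1.1.1.1.2 (by decide +kernel)) (ndF TOK.nil TOK.nil (p86 h).1.1.1.1.1.1.2.2 (by decide +kernel)) (p86 h).1.1.1.1.1.1.2.1 (by decide +kernel)) (p86 h).1.1.1.1.1.1.1.1 (by decide +kernel)) (p85 h).2.2.2.2.2.2.1.2.1 (by decide +kernel)) (p85 h).2.2.2.2.1.2.1.2 (by decide +kernel)) (p85 h).2.2.2.1.1.2.2.1 (by decide +kernel))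

theorem T_120_200_ok (h : RcOK RE.rowE) : T_120_200.OK :=
  okF (by decide +kernel) (ndF (ndF (ndF (ndF (ndF (ndF (ndF TOK.nil TOK.nil (p86 h).1.1.1.1.1.2.1.1 (by decide +kernel)) (ndF TOK.nil TOK.nil (p86 h).1.1.1.1.1.2.2.1 (by decide +kernel)) (p86 h).1.1.1.1.1.2.1.2 (by decide +kernel)) (ndF (ndF TOK.nil TOK.nil (p86 h).1.1.1.1.1.2.2.2.2 (by decide +kernel)) TOK.nil (p86 h).1.1.1.1.2.1.1.1 (by decide +kernel)) (p86 h).1.1.1.1.1.2.2.2.1 (by decide +kernel)) (ndF (ndF (ndF TOK.nil TOK.nil (p86 h).1.1.1.1.2.1.2.1 (by decide +kernel)) TOK.nil (p86 h).1.1.1.1.2.1.2.2 (by decide +kernel)) (ndF (ndF TOK.nil TOK.nil (p86 h).1.1.1.1.2.2.1.2 (by decide +kernel)) TOK.nil (p86 h).1.1.1.1.2.2.2.1 (by decide +kernel)) (p86 h).1.1.1.1.2.2.1.1 (by decide +kernel)) (p86 h).1.1.1.1.2.1.1.2 (by decide +kernel)) (ndF (ndF (ndF (ndF TOK.nil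 TOK.nil (p86 h).1.1.1.1.2.2.2.2.2 (by decide +kernel)) (ndF TOK.nil TOK.nil (p86 h).1.1.1.2.1.1.1.2 (by decide +kernel)) (p86 h).1.1.1.2.1.1.1.1 (by decide +kernel)) (ndF (ndF TOK.nil TOK.nil (p86 h).1.1.1.2.1.1.2.2 (by decide +kernel)) TOK.nil (p86 h).1.1.1.2.1.2.1.1 (by decide +kernel)) (p86 h).1.1.1.2.1.1.2.1 (by decide +kernel)) (ndF (ndF (ndF TOK.nil TOK.nil (p86 h).1.1.1.2.1.2.2.1 (by decide +kernel)) TOK.nil (p86 h).1.1.1.2.1.2.2.2.1 (by decide +kernel)) (ndF (ndF TOK.nil TOK.nil (p86 h).1.1.1.2.2.1.1.1 (by decide +kernel)) TOK.nil (p86 h).1.1.1.2.2.1.1.2 (by decide +kernel)) (p86 h).1.1.1.2.1.2.2.2.2 (by decide +kernel)) (p86 h).1.1.1.2.1.2.1.2 (by decide +kernel)) (p86 h).1.1.1.1.2.2.2.2.1 (by decide +kernel)) (ndF (ndF (ndF (ndF (ndF TOK.nil TOK.nil (p86 h).1.1.1.2.2.1.2.2.1 (by decide +kernel)) (ndF TOK.nil TOK.nil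 (p86 h).1.1.1.2.2.2.1.1 (by decide +kernel)) (p86 h).1.1.1.2.2.1.2.2.2 (by decide +kernel)) (ndF (ndF TOK.nil TOK.nil (p86 h).1.1.1.2.2.2.2.1 (by decide +kernel)) TOK.nil (p86 h).1.1.1.2.2.2.2.2.1 (by decide +kernel)) (p86 h).1.1.1.2.2.2.1.2 (by decide +kernel)) (ndF (ndF (ndF TOK.nil TOK.nil (p86 h).1.1.2.1.1.1.1.1 (by decide +kernel)) TOK.nil (p86 h).1.1.2.1.1.1.1.2 (by decide +kernel)) (ndF (ndF TOK.nil TOK.nil (p86 h).1.1.2.1.1.1.2.2 (by decide +kernel)) TOK.nil (p86 h).1.1.2.1.1.2.1.1 (by decide +kernel)) (p86 h).1.1.2.1.1.1.2.1 (by decide +kernel)) (p86 h).1.1.1.2.2.2.2.2.2 (by decide +kernel)) (ndF (ndF (ndF (ndF TOK.nil TOK.nil (p86 h).1.1.2.1.1.2.2.1 (by decide +kernel)) TOK.nil (p86 h).1.1.2.1.1.2.2.2.1 (by decide +kernel)) (ndF (ndF TOK.nil TOK.nil (p86 h).1.1.2.1.2.1.1.1 (by decide +kernel)) TOK.nil (p86 h).1.1.2.1.2.1.1.2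 (by decide +kernel)) (p86 h).1.1.2.1.1.2.2.2.2 (by decide +kernel)) (ndF (ndF (ndF TOK.nil TOK.nil (p86 h).1.1.2.1.2.1.2.2.1 (by decide +kernel)) TOK.nil (p86 h).1.1.2.1.2.1.2.2.2 (by decide +kernel)) (ndF (ndF TOK.nil TOK.nil (p86 h).1.1.2.1.2.2.1.2 (by decide +kernel)) TOK.nil (p86 h).1.1.2.1.2.2.2.1 (by decide +kernel)) (p86 h).1.1.2.1.2.2.1.1 (by decide +kernel)) (p86 h).1.1.2.1.2.1.2.1 (by decide +kernel)) (p86 h).1.1.2.1.1.2.1.2 (by decide +kernel)) (p86 h).1.1.1.2.2.1.2.1 (by decide +kernel)) (ndF (ndF (ndF (ndF (ndF (ndF TOK.nil TOK.nil (p86 h).1.1.2.1.2.2.2.2.2 (by decide +kernel)) (ndF TOK.nil TOK.nil (p86 h).1.1.2.2.1.1.1.2 (by decide +kernel)) (p86 h).1.1.2.2.1.1.1.1 (by decide +kernel)) (ndF (ndF TOK.nil TOK.nil (p86 h).1.1.2.2.1.1.2.2 (by decide +kernel)) TOK.nil (p86 h).1.1.2.2.1.2.1.1 (by decide +kernel))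 (p86 h).1.1.2.2.1.1.2.1 (by decide +kernel)) (ndF (ndF (ndF TOK.nil TOK.nil (p86 h).1.1.2.2.1.2.2.1 (by decide +kernel)) TOK.nil (p86 h).1.1.2.2.1.2.2.2.1 (by decide +kernel)) (ndF (ndF TOK.nil TOK.nil (p86 h).1.1.2.2.2.1.1.1 (by decide +kernel)) TOK.nil (p86 h).1.1.2.2.2.1.1.2 (by decide +kernel)) (p86 h).1.1.2.2.1.2.2.2.2 (by decide +kernel)) (p86 h).1.1.2.2.1.2.1.2 (by decide +kernel)) (ndF (ndF (ndF (ndF TOK.nil TOK.nil (p86 h).1.1.2.2.2.1.2.2.1 (by decide +kernel)) TOK.nil (p86 h).1.1.2.2.2.1.2.2.2 (by decide +kernel)) (ndF (ndF TOK.nil TOK.nil (p86 h).1.1.2.2.2.2.1.2 (by decide +kernel)) TOK.nil (p86 h).1.1.2.2.2.2.2.1 (by decide +kernel)) (p86 h).1.1.2.2.2.2.1.1 (by decide +kernel)) (ndF (ndF (ndF TOK.nil TOK.nil (p86 h).1.1.2.2.2.2.2.2.2 (by decide +kernel)) TOK.nil (p86 h).1.2.1.1.1.1.1.1 (by decide +kernel)) (ndF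 (ndF TOK.nil TOK.nil (p86 h).1.2.1.1.1.1.2.1 (by decide +kernel)) TOK.nil (p86 h).1.2.1.1.1.1.2.2 (by decide +kernel)) (p86 h).1.2.1.1.1.1.1.2 (by decide +kernel)) (p86 h).1.1.2.2.2.2.2.2.1 (by decide +kernel)) (p86 h).1.1.2.2.2.1.2.1 (by decide +kernel)) (ndF (ndF (ndF (ndF (ndF TOK.nil TOK.nil (p86 h).1.2.1.1.1.2.1.2 (by decide +kernel)) (ndF TOK.nil TOK.nil (p86 h).1.2.1.1.1.2.2.2.1 (by decide +kernel)) (p86 h).1.2.1.1.1.2.2.1 (by decide +kernel)) (ndF (ndF TOK.nil TOK.nil (p86 h).1.2.1.1.2.1.1.1 (by decide +kernel)) TOK.nil (p86 h).1.2.1.1.2.1.1.2 (by decide +kernel)) (p86 h).1.2.1.1.1.2.2.2.2 (by decide +kernel)) (ndF (ndF (ndF TOK.nil TOK.nil (p86 h).1.2.1.1.2.1.2.2.1 (by decide +kernel)) TOK.nil (p86 h).1.2.1.1.2.1.2.2.2 (by decide +kernel)) (ndF (ndF TOK.nil TOK.nil (p86 h).1.2.1.1.2.2.1.2 (by decide +kernel)) TOK.nil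 (p86 h).1.2.1.1.2.2.2.1 (by decide +kernel)) (p86 h).1.2.1.1.2.2.1.1 (by decide +kernel)) (p86 h).1.2.1.1.2.1.2.1 (by decide +kernel)) (ndF (ndF (ndF (ndF TOK.nil TOK.nil (p86 h).1.2.1.1.2.2.2.2.2 (by decide +kernel)) TOK.nil (p86 h).1.2.1.2.1.1.1.1 (by decide +kernel)) (ndF (ndF TOK.nil TOK.nil (p86 h).1.2.1.2.1.1.2.1 (by decide +kernel)) TOK.nil (p86 h).1.2.1.2.1.1.2.2 (by decide +kernel)) (p86 h).1.2.1.2.1.1.1.2 (by decide +kernel)) (ndF (ndF (ndF TOK.nil TOK.nil (p86 h).1.2.1.2.1.2.1.2 (by decide +kernel)) TOK.nil (p86 h).1.2.1.2.1.2.2.1 (by decide +kernel)) (ndF (ndF TOK.nil TOK.nil (p86 h).1.2.1.2.1.2.2.2.2 (by decide +kernel)) TOK.nil (p86 h).1.2.1.2.2.1.1.1 (by decide +kernel)) (p86 h).1.2.1.2.1.2.2.2.1 (by decide +kernel)) (p86 h).1.2.1.2.1.2.1.1 (by decide +kernel)) (p86 h).1.2.1.1.2.2.2.2.1 (by decide +kernel))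 (p86 h).1.2.1.1.1.2.1.1 (by decide +kernel)) (p86 h).1.1.2.1.2.2.2.2.1 (by decide +kernel))

theorem R_40_60_ok (h : RcOK RE.rowE) : R_40_60.OK :=
  okF (by decide +kernel) (ndF (ndF (ndF (ndF (ndF (ndF TOK.nil TOK.nil (p86 h).1.2.1.2.2.1.1.2 (by decide +kernel)) TOK.nil (p86 h).1.2.1.2.2.1.2.1 (by decide +kernel)) (ndF (ndF TOK.nil TOK.nil (p86 h).1.2.1.2.2.1.2.2.2 (by decide +kernel)) TOK.nil (p86 h).1.2.1.2.2.2.1.1 (by decide +kernel)) (p86 h).1.2.1.2.2.1.2.2.1 (by decide +kernel)) (ndF (ndF (ndF TOK.nil TOK.nil (p86 h).1.2.1.2.2.2.2.1 (by decide +kernel)) TOK.nil (p86 h).1.2.1.2.2.2.2.2.1 (by decide +kernel)) (ndF TOK.nil TOK.nil (p86 h).1.2.2.1.1.1.1.1 (by decide +kernel)) (p86 h).1.2.1.2.2.2.2.2.2 (by decide +kernel)) (p86 h).1.2.1.2.2.2.1.2 (by decide +kernel)) (ndF (ndF (ndF (ndF TOK.nil TOK.nil (p86 h).1.2.2.1.1.1.2.1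 (by decide +kernel)) TOK.nil (p86 h).1.2.2.1.1.1.2.2 (by decide +kernel)) (ndF (ndF TOK.nil TOK.nil (p86 h).1.2.2.1.1.2.1.2 (by decide +kernel)) TOK.nil (p86 h).1.2.2.1.1.2.2.1 (by decide +kernel)) (p86 h).1.2.2.1.1.2.1.1 (by decide +kernel)) (ndF (ndF (ndF TOK.nil TOK.nil (p86 h).1.2.2.1.1.2.2.2.2 (by decide +kernel)) TOK.nil (p86 h).1.2.2.1.2.1.1.1 (by decide +kernel)) (ndF TOK.nil TOK.nil (p86 h).1.2.2.1.2.1.2.1 (by decide +kernel)) (p86 h).1.2.2.1.2.1.1.2 (by decide +kernel)) (p86 h).1.2.2.1.1.2.2.2.1 (by decide +kernel)) (p86 h).1.2.2.1.1.1.1.2 (by decide +kernel)) (ndF (ndF (ndF (ndF (ndF TOK.nil TOK.nil (p86 h).1.2.2.1.2.1.2.2.2 (by decide +kernel)) TOK.nil (p86 h).1.2.2.1.2.2.1.1 (by decide +kernel)) (ndF (ndF TOK.nil TOK.nil (p86 h).1.2.2.1.2.2.2.1 (by decide +kernel)) TOK.nil (p86 h).1.2.2.1.2.2.2.2.1 (by decide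 +kernel)) (p86 h).1.2.2.1.2.2.1.2 (by decide +kernel)) (ndF (ndF (ndF TOK.nil TOK.nil (p86 h).1.2.2.2.1.1.1.1 (by decide +kernel)) TOK.nil (p86 h).1.2.2.2.1.1.1.2 (by decide +kernel)) (ndF TOK.nil TOK.nil (p86 h).1.2.2.2.1.1.2.2 (by decide +kernel)) (p86 h).1.2.2.2.1.1.2.1 (by decide +kernel)) (p86 h).1.2.2.1.2.2.2.2.2 (by decide +kernel)) (ndF (ndF (ndF (ndF TOK.nil TOK.nil (p86 h).1.2.2.2.1.2.1.2 (by decide +kernel)) TOK.nil (p86 h).1.2.2.2.1.2.2.1 (by decide +kernel)) (ndF (ndF TOK.nil TOK.nil (p86 h).1.2.2.2.1.2.2.2.2 (by decide +kernel)) TOK.nil (p86 h).1.2.2.2.2.1.1.1 (by decide +kernel)) (p86 h).1.2.2.2.1.2.2.2.1 (by decide +kernel)) (ndF (ndF (ndF TOK.nil TOK.nil (p86 h).1.2.2.2.2.1.2.1 (by decide +kernel)) TOK.nil (p86 h).1.2.2.2.2.1.2.2.1 (by decide +kernel)) (ndF TOK.nil TOK.nil (p86 h).1.2.2.2.2.2.1.1 (by decide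 +kernel)) (p86 h).1.2.2.2.2.1.2.2.2 (by decide +kernel)) (p86 h).1.2.2.2.2.1.1.2 (by decide +kernel)) (p86 h).1.2.2.2.1.2.1.1 (by decide +kernel)) (p86 h).1.2.2.1.2.1.2.2.1 (by decide +kernel))

theorem T_40_60_ok (h : RcOK RE.rowE) : T_40_60.OK :=
  okF (by decide +kernel) (ndF (ndF (ndF (ndF (ndF (ndF TOK.nil TOK.nil (p86 h).1.2.2.2.2.2.1.2 (by decide +kernel)) TOK.nil (p86 h).1.2.2.2.2.2.2.1 (by decide +kernel)) (ndF (ndF TOK.nil TOK.nil (p86 h).1.2.2.2.2.2.2.2.2 (by decide +kernel)) TOK.nil (p86 h).2.1.1.1.1.1.1.1 (by decide +kernel)) (p86 h).1.2.2.2.2.2.2.2.1 (by decide +kernel)) (ndF (ndF (ndF TOK.nil TOK.nil (p86 h).2.1.1.1.1.1.2.1 (by decide +kernel)) TOK.nil (p86 h).2.1.1.1.1.1.2.2 (by decide +kernel)) (ndF TOK.nil TOK.nil (p86 h).2.1.1.1.1.2.1.2 (by decide +kernel)) (p86 h).2.1.1.1.1.2.1.1 (by decide +kernel))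 (p86 h).2.1.1.1.1.1.1.2 (by decide +kernel)) (ndF (ndF (ndF (ndF TOK.nil TOK.nil (p86 h).2.1.1.1.1.2.2.2.1 (by decide +kernel)) TOK.nil (p86 h).2.1.1.1.1.2.2.2.2 (by decide +kernel)) (ndF (ndF TOK.nil TOK.nil (p86 h).2.1.1.1.2.1.1.2 (by decide +kernel)) TOK.nil (p86 h).2.1.1.1.2.1.2.1 (by decide +kernel)) (p86 h).2.1.1.1.2.1.1.1 (by decide +kernel)) (ndF (ndF (ndF TOK.nil TOK.nil (p86 h).2.1.1.1.2.2.1.1 (by decide +kernel)) TOK.nil (p86 h).2.1.1.1.2.2.1.2 (by decide +kernel)) (ndF TOK.nil TOK.nil (p86 h).2.1.1.1.2.2.2.2.1 (by decide +kernel)) (p86 h).2.1.1.1.2.2.2.1 (by decide +kernel)) (p86 h).2.1.1.1.2.1.2.2 (by decide +kernel)) (p86 h).2.1.1.1.1.2.2.1 (by decide +kernel)) (ndF (ndF (ndF (ndF (ndF TOK.nil TOK.nil (p86 h).2.1.1.2.1.1.1.1 (by decide +kernel)) TOK.nil (p86 h).2.1.1.2.1.1.1.2 (by decide +kernel)) (ndF (ndF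 TOK.nil TOK.nil (p86 h).2.1.1.2.1.1.2.2 (by decide +kernel)) TOK.nil (p86 h).2.1.1.2.1.2.1.1 (by decide +kernel)) (p86 h).2.1.1.2.1.1.2.1 (by decide +kernel)) (ndF (ndF (ndF TOK.nil TOK.nil (p86 h).2.1.1.2.1.2.2.1 (by decide +kernel)) TOK.nil (p86 h).2.1.1.2.1.2.2.2.1 (by decide +kernel)) (ndF TOK.nil TOK.nil (p86 h).2.1.1.2.2.1.1.1 (by decide +kernel)) (p86 h).2.1.1.2.1.2.2.2.2 (by decide +kernel)) (p86 h).2.1.1.2.1.2.1.2 (by decide +kernel)) (ndF (ndF (ndF (ndF TOK.nil TOK.nil (p86 h).2.1.1.2.2.1.2.1 (by decide +kernel)) TOK.nil (p86 h).2.1.1.2.2.1.2.2.1 (by decide +kernel)) (ndF (ndF TOK.nil TOK.nil (p86 h).2.1.1.2.2.2.1.1 (by decide +kernel)) TOK.nil (p86 h).2.1.1.2.2.2.1.2 (by decide +kernel)) (p86 h).2.1.1.2.2.1.2.2.2 (by decide +kernel)) (ndF (ndF (ndF TOK.nil TOK.nil (p86 h).2.1.1.2.2.2.2.2.1 (by decide +kernel))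 TOK.nil (p86 h).2.1.1.2.2.2.2.2.2 (by decide +kernel)) (ndF TOK.nil TOK.nil (p86 h).2.1.2.1.1.1.1.2 (by decide +kernel)) (p86 h).2.1.2.1.1.1.1.1 (by decide +kernel)) (p86 h).2.1.1.2.2.2.2.1 (by decide +kernel)) (p86 h).2.1.1.2.2.1.1.2 (by decide +kernel)) (p86 h).2.1.1.1.2.2.2.2.2 (by decide +kernel))

theorem T_23_46_ok (h : RcOK RE.rowE) : T_23_46.OK :=
  okF (by decide +kernel) (ndF (ndF (ndF (ndF (ndF (ndF TOK.nil TOK.nil (p86 h).2.1.2.1.1.1.2.1 (by decide +kernel)) TOK.nil (p86 h).2.1.2.1.1.1.2.2 (by decide +kernel)) (ndF (ndF TOK.nil TOK.nil (p86 h).2.1.2.1.1.2.1.2 (by decide +kernel)) TOK.nil (p86 h).2.1.2.1.1.2.2.1 (by decide +kernel)) (p86 h).2.1.2.1.1.2.1.1 (by decide +kernel)) (ndF (ndF (ndF TOK.nil TOK.nil (p86 h).2.1.2.1.1.2.2.2.2 (by decide +kernel)) TOK.nil (p86 h).2.1.2.1.2.1.1.1 (by decide +kernel)) (ndF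 TOK.nil TOK.nil (p86 h).2.1.2.1.2.1.2.1 (by decide +kernel)) (p86 h).2.1.2.1.2.1.1.2 (by decide +kernel)) (p86 h).2.1.2.1.1.2.2.2.1 (by decide +kernel)) (ndF (ndF (ndF (ndF TOK.nil TOK.nil (p86 h).2.1.2.1.2.1.2.2.2 (by decide +kernel)) TOK.nil (p86 h).2.1.2.1.2.2.1.1 (by decide +kernel)) (ndF TOK.nil TOK.nil (p86 h).2.1.2.1.2.2.2.1 (by decide +kernel)) (p86 h).2.1.2.1.2.2.1.2 (by decide +kernel)) (ndF (ndF (ndF TOK.nil TOK.nil (p86 h).2.1.2.1.2.2.2.2.2 (by decide +kernel)) TOK.nil (p86 h).2.1.2.2.1.1.1.1 (by decide +kernel)) (ndF TOK.nil TOK.nil (p86 h).2.1.2.2.1.1.2.1 (by decide +kernel)) (p86 h).2.1.2.2.1.1.1.2 (by decide +kernel)) (p86 h).2.1.2.1.2.2.2.2.1 (by decide +kernel)) (p86 h).2.1.2.1.2.1.2.2.1 (by decide +kernel)) (ndF (ndF (ndF (ndF (ndF TOK.nil TOK.nil (p86 h).2.1.2.2.1.2.1.1 (by decide +kernel)) TOK.nil (p86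 h).2.1.2.2.1.2.1.2 (by decide +kernel)) (ndF TOK.nil TOK.nil (p86 h).2.1.2.2.1.2.2.2.1 (by decide +kernel)) (p86 h).2.1.2.2.1.2.2.1 (by decide +kernel)) (ndF (ndF (ndF TOK.nil TOK.nil (p86 h).2.1.2.2.2.1.1.1 (by decide +kernel)) TOK.nil (p86 h).2.1.2.2.2.1.1.2 (by decide +kernel)) (ndF TOK.nil TOK.nil (p86 h).2.1.2.2.2.1.2.2.1 (by decide +kernel)) (p86 h).2.1.2.2.2.1.2.1 (by decide +kernel)) (p86 h).2.1.2.2.1.2.2.2.2 (by decide +kernel)) (ndF (ndF (ndF (ndF TOK.nil TOK.nil (p86 h).2.1.2.2.2.2.1.1 (by decide +kernel)) TOK.nil (p86 h).2.1.2.2.2.2.1.2 (by decide +kernel)) (ndF TOK.nil TOK.nil (p86 h).2.1.2.2.2.2.2.2.1 (by decide +kernel)) (p86 h).2.1.2.2.2.2.2.1 (by decide +kernel)) (ndF (ndF (ndF TOK.nil TOK.nil (p86 h).2.2.1.1.1.1.1.1 (by decide +kernel)) TOK.nil (p86 h).2.2.1.1.1.1.1.2 (by decide +kernel)) (ndF TOK.nil TOK.nil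 (p86 h).2.2.1.1.1.1.2.2 (by decide +kernel)) (p86 h).2.2.1.1.1.1.2.1 (by decide +kernel)) (p86 h).2.1.2.2.2.2.2.2.2 (by decide +kernel)) (p86 h).2.1.2.2.2.1.2.2.2 (by decide +kernel)) (p86 h).2.1.2.2.1.1.2.2 (by decide +kernel))

theorem R_60_110_130_ok (h : RcOK RE.rowE) : R_60_110_130.OK :=
  okF (by decide +kernel) (ndF (ndF (ndF (ndF TOK.nil TOK.nil (p86 h).2.2.1.1.1.2.1.1 (by decide +kernel)) TOK.nil (p86 h).2.2.1.1.1.2.1.2 (by decide +kernel)) (ndF TOK.nil TOK.nil (p86 h).2.2.1.1.1.2.2.2.1 (by decide +kernel)) (p86 h).2.2.1.1.1.2.2.1 (by decide +kernel)) (ndF (ndF TOK.nil TOK.nil (p86 h).2.2.1.1.2.1.1.1 (by decide +kernel)) (ndF TOK.nil TOK.nil (p86 h).2.2.1.1.2.1.2.1 (by decide +kernel)) (p86 h).2.2.1.1.2.1.1.2 (by decide +kernel)) (p86 h).2.2.1.1.1.2.2.2.2 (by decide +kernel))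

theorem R_80_160_ok (h : RcOK RE.rowE) : R_80_160.OK :=
  okF (by decide +kernel) (ndF (ndF (ndF (ndF (ndF (ndF (ndF TOK.nil TOK.nil (p86 h).2.2.1.1.2.1.2.2.1 (by decide +kernel)) TOK.nil (p86 h).2.2.1.1.2.1.2.2.2 (by decide +kernel)) (ndF (ndF TOK.nil TOK.nil (p86 h).2.2.1.1.2.2.1.2 (by decide +kernel)) TOK.nil (p86 h).2.2.1.1.2.2.2.1 (by decide +kernel)) (p86 h).2.2.1.1.2.2.1.1 (by decide +kernel)) (ndF (ndF (ndF TOK.nil TOK.nil (p86 h).2.2.1.1.2.2.2.2.2 (by decide +kernel)) TOK.nil (p86 h).2.2.1.2.1.1.1.1 (by decide +kernel)) (ndF TOK.nil TOK.nil (p86 h).2.2.1.2.1.1.2.1 (by decide +kernel)) (p86 h).2.2.1.2.1.1.1.2 (by decide +kernel)) (p86 h).2.2.1.1.2.2.2.2.1 (by decide +kernel)) (ndF (ndF (ndF (ndF TOK.nil TOK.nil (p86 h).2.2.1.2.1.2.1.1 (by decide +kernel)) TOK.nil (p86 h).2.2.1.2.1.2.1.2 (by decide +kernel)) (ndF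 TOK.nil TOK.nil (p86 h).2.2.1.2.1.2.2.2.1 (by decide +kernel)) (p86 h).2.2.1.2.1.2.2.1 (by decide +kernel)) (ndF (ndF (ndF TOK.nil TOK.nil (p86 h).2.2.1.2.2.1.1.1 (by decide +kernel)) TOK.nil (p86 h).2.2.1.2.2.1.1.2 (by decide +kernel)) (ndF TOK.nil TOK.nil (p86 h).2.2.1.2.2.1.2.2.1 (by decide +kernel)) (p86 h).2.2.1.2.2.1.2.1 (by decide +kernel)) (p86 h).2.2.1.2.1.2.2.2.2 (by decide +kernel)) (p86 h).2.2.1.2.1.1.2.2 (by decide +kernel)) (ndF (ndF (ndF (ndF (ndF TOK.nil TOK.nil (p86 h).2.2.1.2.2.2.1.1 (by decide +kernel)) TOK.nil (p86 h).2.2.1.2.2.2.1.2 (by decide +kernel)) (ndF TOK.nil TOK.nil (p86 h).2.2.1.2.2.2.2.2.1 (by decide +kernel)) (p86 h).2.2.1.2.2.2.2.1 (by decide +kernel)) (ndF (ndF (ndF TOK.nil TOK.nil (p86 h).2.2.2.1.1.1.1.1 (by decide +kernel)) TOK.nil (p86 h).2.2.2.1.1.1.1.2 (by decide +kernel)) (ndF TOK.nil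 TOK.nil (p86 h).2.2.2.1.1.1.2.2 (by decide +kernel)) (p86 h).2.2.2.1.1.1.2.1 (by decide +kernel)) (p86 h).2.2.1.2.2.2.2.2.2 (by decide +kernel)) (ndF (ndF (ndF (ndF TOK.nil TOK.nil (p86 h).2.2.2.1.1.2.1.2 (by decide +kernel)) TOK.nil (p86 h).2.2.2.1.1.2.2.1 (by decide +kernel)) (ndF TOK.nil TOK.nil (p86 h).2.2.2.1.1.2.2.2.2 (by decide +kernel)) (p86 h).2.2.2.1.1.2.2.2.1 (by decide +kernel)) (ndF (ndF (ndF TOK.nil TOK.nil (p86 h).2.2.2.1.2.1.1.2 (by decide +kernel)) TOK.nil (p86 h).2.2.2.1.2.1.2.1 (by decide +kernel)) (ndF TOK.nil TOK.nil (p86 h).2.2.2.1.2.1.2.2.2 (by decide +kernel)) (p86 h).2.2.2.1.2.1.2.2.1 (by decide +kernel)) (p86 h).2.2.2.1.2.1.1.1 (by decide +kernel)) (p86 h).2.2.2.1.1.2.1.1 (by decide +kernel)) (p86 h).2.2.1.2.2.1.2.2.2 (by decide +kernel)) (ndF (ndF (ndF (ndF (ndF (ndF TOK.nil TOK.nil (p86 h).2.2.2.1.2.2.1.2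 (by decide +kernel)) TOK.nil (p86 h).2.2.2.1.2.2.2.1 (by decide +kernel)) (ndF (ndF TOK.nil TOK.nil (p86 h).2.2.2.1.2.2.2.2.2 (by decide +kernel)) TOK.nil (p86 h).2.2.2.2.1.1.1.1 (by decide +kernel)) (p86 h).2.2.2.1.2.2.2.2.1 (by decide +kernel)) (ndF (ndF (ndF TOK.nil TOK.nil (p86 h).2.2.2.2.1.1.2.1 (by decide +kernel)) TOK.nil (p86 h).2.2.2.2.1.1.2.2 (by decide +kernel)) (ndF TOK.nil TOK.nil (p86 h).2.2.2.2.1.2.1.2 (by decide +kernel)) (p86 h).2.2.2.2.1.2.1.1 (by decide +kernel)) (p86 h).2.2.2.2.1.1.1.2 (by decide +kernel)) (ndF (ndF (ndF (ndF TOK.nil TOK.nil (p86 h).2.2.2.2.1.2.2.2.1 (by decide +kernel)) TOK.nil (p86 h).2.2.2.2.1.2.2.2.2 (by decide +kernel)) (ndF TOK.nil TOK.nil (p86 h).2.2.2.2.2.1.1.2 (by decide +kernel)) (p86 h).2.2.2.2.2.1.1.1 (by decide +kernel)) (ndF (ndF (ndF TOK.nil TOK.nil (p86 h).2.2.2.2.2.1.2.2.1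 (by decide +kernel)) TOK.nil (p86 h).2.2.2.2.2.1.2.2.2 (by decide +kernel)) (ndF TOK.nil TOK.nil (p86 h).2.2.2.2.2.2.1.2 (by decide +kernel)) (p86 h).2.2.2.2.2.2.1.1 (by decide +kernel)) (p86 h).2.2.2.2.2.1.2.1 (by decide +kernel)) (p86 h).2.2.2.2.1.2.2.1 (by decide +kernel)) (ndF (ndF (ndF (ndF (ndF TOK.nil TOK.nil (p86 h).2.2.2.2.2.2.2.2.1 (by decide +kernel)) TOK.nil (p86 h).2.2.2.2.2.2.2.2.2 (by decide +kernel)) (ndF TOK.nil TOK.nil (p87 h).1.1.1.1.1.1.2.1 (by decide +kernel)) (p87 h).1.1.1.1.1.1.1 (by decide +kernel)) (ndF (ndF (ndF TOK.nil TOK.nil (p87 h).1.1.1.1.1.2.1 (by decide +kernel)) TOK.nil (p87 h).1.1.1.1.1.2.2.1 (by decide +kernel)) (ndF TOK.nil TOK.nil (p87 h).1.1.1.1.2.1.1 (by decide +kernel)) (p87 h).1.1.1.1.1.2.2.2 (by decide +kernel)) (p87 h).1.1.1.1.1.1.2.2 (by decide +kernel)) (ndF (ndF (ndF (ndF TOK.nil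 TOK.nil (p87 h).1.1.1.1.2.1.2.2 (by decide +kernel)) TOK.nil (p87 h).1.1.1.1.2.2.1.1 (by decide +kernel)) (ndF TOK.nil TOK.nil (p87 h).1.1.1.1.2.2.2.1 (by decide +kernel)) (p87 h).1.1.1.1.2.2.1.2 (by decide +kernel)) (ndF (ndF (ndF TOK.nil TOK.nil (p87 h).1.1.1.2.1.1.1 (by decide +kernel)) TOK.nil (p87 h).1.1.1.2.1.1.2.1 (by decide +kernel)) (ndF TOK.nil TOK.nil (p87 h).1.1.1.2.1.2.1 (by decide +kernel)) (p87 h).1.1.1.2.1.1.2.2 (by decide +kernel)) (p87 h).1.1.1.1.2.2.2.2 (by decide +kernel)) (p87 h).1.1.1.1.2.1.2.1 (by decide +kernel)) (p86 h).2.2.2.2.2.2.2.1 (by decide +kernel)) (p86 h).2.2.2.1.2.2.1.1 (by decide +kernel))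

theorem R_50_90_110_130_ok (h : RcOK RE.rowE) : R_50_90_110_130.OK :=
  okF (by decide +kernel) (ndF (ndF (ndF (ndF (ndF TOK.nil TOK.nil (p87 h).1.1.1.2.1.2.2.1 (by decide +kernel)) TOK.nil (p87 h).1.1.1.2.1.2.2.2 (by decide +kernel)) (ndF TOK.nil TOK.nil (p87 h).1.1.1.2.2.1.2.1 (by decide +kernel)) (p87 h).1.1.1.2.2.1.1 (by decide +kernel)) (ndF (ndF (ndF TOK.nil TOK.nil (p87 h).1.1.1.2.2.2.1.1 (by decide +kernel)) TOK.nil (p87 h).1.1.1.2.2.2.1.2 (by decide +kernel)) (ndF TOK.nil TOK.nil (p87 h).1.1.1.2.2.2.2.2 (by decide +kernel)) (p87 h).1.1.1.2.2.2.2.1 (by decide +kernel)) (p87 h).1.1.1.2.2.1.2.2 (by decide +kernel)) (ndF (ndF (ndF (ndF TOK.nil TOK.nil (p87 h).1.1.2.1.1.1.2.1 (by decide +kernel)) TOK.nil (p87 h).1.1.2.1.1.1.2.2 (by decide +kernel)) (ndF TOK.nil TOK.nil (p87 h).1.1.2.1.1.2.2.1 (by decide +kernel)) (p87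 h).1.1.2.1.1.2.1 (by decide +kernel)) (ndF (ndF TOK.nil TOK.nil (p87 h).1.1.2.1.2.1.1 (by decide +kernel)) (ndF TOK.nil TOK.nil (p87 h).1.1.2.1.2.1.2.2 (by decide +kernel)) (p87 h).1.1.2.1.2.1.2.1 (by decide +kernel)) (p87 h).1.1.2.1.1.2.2.2 (by decide +kernel)) (p87 h).1.1.2.1.1.1.1 (by decide +kernel))

theorem R_100_140_200_ok (h : RcOK RE.rowE) : R_100_140_200.OK :=
  okF (by decide +kernel) (ndF (ndF (ndF (ndF (ndF (ndF TOK.nil TOK.nil (p87 h).1.1.2.1.2.2.1.1 (by decide +kernel)) TOK.nil (p87 h).1.1.2.1.2.2.1.2 (by decide +kernel)) (ndF (ndF TOK.nil TOK.nil (p87 h).1.1.2.1.2.2.2.2 (by decide +kernel)) TOK.nil (p87 h).1.1.2.2.1.1.1 (by decide +kernel)) (p87 h).1.1.2.1.2.2.2.1 (by decide +kernel)) (ndF (ndF (ndF TOK.nil TOK.nil (p87 h).1.1.2.2.1.1.2.2 (by decide +kernel)) TOK.nil (p87 h).1.1.2.2.1.2.1.1 (by decide +kernel))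 (ndF (ndF TOK.nil TOK.nil (p87 h).1.1.2.2.1.2.2.1 (by decide +kernel)) TOK.nil (p87 h).1.1.2.2.1.2.2.2 (by decide +kernel)) (p87 h).1.1.2.2.1.2.1.2 (by decide +kernel)) (p87 h).1.1.2.2.1.1.2.1 (by decide +kernel)) (ndF (ndF (ndF (ndF TOK.nil TOK.nil (p87 h).1.1.2.2.2.1.2.1 (by decide +kernel)) TOK.nil (p87 h).1.1.2.2.2.1.2.2 (by decide +kernel)) (ndF (ndF TOK.nil TOK.nil (p87 h).1.1.2.2.2.2.1.2 (by decide +kernel)) TOK.nil (p87 h).1.1.2.2.2.2.2.1 (by decide +kernel)) (p87 h).1.1.2.2.2.2.1.1 (by decide +kernel)) (ndF (ndF (ndF TOK.nil TOK.nil (p87 h).1.2.1.1.1.1.1 (by decide +kernel)) TOK.nil (p87 h).1.2.1.1.1.1.2.1 (by decide +kernel)) (ndF (ndF TOK.nil TOK.nil (p87 h).1.2.1.1.1.2.1 (by decide +kernel)) TOK.nil (p87 h).1.2.1.1.1.2.2.1 (by decide +kernel)) (p87 h).1.2.1.1.1.1.2.2 (by decide +kernel)) (p87 h).1.1.2.2.2.2.2.2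 (by decide +kernel)) (p87 h).1.1.2.2.2.1.1 (by decide +kernel)) (ndF (ndF (ndF (ndF (ndF TOK.nil TOK.nil (p87 h).1.2.1.1.2.1.1 (by decide +kernel)) TOK.nil (p87 h).1.2.1.1.2.1.2.1 (by decide +kernel)) (ndF (ndF TOK.nil TOK.nil (p87 h).1.2.1.1.2.2.1.1 (by decide +kernel)) TOK.nil (p87 h).1.2.1.1.2.2.1.2 (by decide +kernel)) (p87 h).1.2.1.1.2.1.2.2 (by decide +kernel)) (ndF (ndF (ndF TOK.nil TOK.nil (p87 h).1.2.1.1.2.2.2.2 (by decide +kernel)) TOK.nil (p87 h).1.2.1.2.1.1.1 (by decide +kernel)) (ndF (ndF TOK.nil TOK.nil (p87 h).1.2.1.2.1.1.2.2 (by decide +kernel)) TOK.nil (p87 h).1.2.1.2.1.2.1.1 (by decide +kernel)) (p87 h).1.2.1.2.1.1.2.1 (by decide +kernel)) (p87 h).1.2.1.1.2.2.2.1 (by decide +kernel)) (ndF (ndF (ndF (ndF TOK.nil TOK.nil (p87 h).1.2.1.2.1.2.2.1 (by decide +kernel)) TOK.nil (p87 h).1.2.1.2.1.2.2.2 (by decide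 +kernel)) (ndF (ndF TOK.nil TOK.nil (p87 h).1.2.1.2.2.1.2.1 (by decide +kernel)) TOK.nil (p87 h).1.2.1.2.2.1.2.2 (by decide +kernel)) (p87 h).1.2.1.2.2.1.1 (by decide +kernel)) (ndF (ndF (ndF TOK.nil TOK.nil (p87 h).1.2.1.2.2.2.1.2 (by decide +kernel)) TOK.nil (p87 h).1.2.1.2.2.2.2.1 (by decide +kernel)) (ndF TOK.nil TOK.nil (p87 h).1.2.2.1.1.1.1 (by decide +kernel)) (p87 h).1.2.1.2.2.2.2.2 (by decide +kernel)) (p87 h).1.2.1.2.2.2.1.1 (by decide +kernel)) (p87 h).1.2.1.2.1.2.1.2 (by decide +kernel)) (p87 h).1.2.1.1.1.2.2.2 (by decide +kernel))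

theorem T_14_28_ok (h : RcOK RE.rowE) : T_14_28.OK :=
  okF (by decide +kernel) (ndF (ndF (ndF (ndF (ndF (ndF (ndF TOK.nil TOK.nil (p87 h).1.2.2.1.1.1.2.1 (by decide +kernel)) TOK.nil (p87 h).1.2.2.1.1.1.2.2 (by decide +kernel)) (ndF TOK.nil TOK.nil (p87 h).1.2.2.1.1.2.2.1 (by decide +kernel)) (p87 h).1.2.2.1.1.2.1 (by decide +kernel)) (ndF (ndF (ndF TOK.nil TOK.nil (p87 h).1.2.2.1.2.1.1 (by decide +kernel)) TOK.nil (p87 h).1.2.2.1.2.1.2.1 (by decide +kernel)) (ndF TOK.nil TOK.nil (p87 h).1.2.2.1.2.2.1.1 (by decide +kernel)) (p87 h).1.2.2.1.2.1.2.2 (by decide +kernel)) (p87 h).1.2.2.1.1.2.2.2 (by decide +kernel)) (ndF (ndF (ndF (ndF TOK.nil TOK.nil (p87 h).1.2.2.1.2.2.2.1 (by decide +kernel)) TOK.nil (p87 h).1.2.2.1.2.2.2.2 (by decide +kernel)) (ndF TOK.nil TOK.nil (p87 h).1.2.2.2.1.1.2.1 (by decide +kernel)) (p87 h).1.2.2.2.1.1.1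 (by decide +kernel)) (ndF (ndF TOK.nil TOK.nil (p87 h).1.2.2.2.1.2.1.1 (by decide +kernel)) (ndF TOK.nil TOK.nil (p87 h).1.2.2.2.1.2.2.1 (by decide +kernel)) (p87 h).1.2.2.2.1.2.1.2 (by decide +kernel)) (p87 h).1.2.2.2.1.1.2.2 (by decide +kernel)) (p87 h).1.2.2.1.2.2.1.2 (by decide +kernel)) (ndF (ndF (ndF (ndF (ndF TOK.nil TOK.nil (p87 h).1.2.2.2.2.1.1 (by decide +kernel)) TOK.nil (p87 h).1.2.2.2.2.1.2.1 (by decide +kernel)) (ndF TOK.nil TOK.nil (p87 h).1.2.2.2.2.2.1.1 (by decide +kernel)) (p87 h).1.2.2.2.2.1.2.2 (by decide +kernel)) (ndF (ndF (ndF TOK.nil TOK.nil (p87 h).1.2.2.2.2.2.2.1 (by decide +kernel)) TOK.nil (p87 h).1.2.2.2.2.2.2.2 (by decide +kernel)) (ndF TOK.nil TOK.nil (p87 h).2.1.1.1.1.1.2.1 (by decide +kernel)) (p87 h).2.1.1.1.1.1.1 (by decide +kernel)) (p87 h).1.2.2.2.2.2.1.2 (by decide +kernel)) (ndF (ndF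 (ndF (ndF TOK.nil TOK.nil (p87 h).2.1.1.1.1.2.1 (by decide +kernel)) TOK.nil (p87 h).2.1.1.1.1.2.2.1 (by decide +kernel)) (ndF TOK.nil TOK.nil (p87 h).2.1.1.1.2.1.1 (by decide +kernel)) (p87 h).2.1.1.1.1.2.2.2 (by decide +kernel)) (ndF (ndF TOK.nil TOK.nil (p87 h).2.1.1.1.2.1.2.2 (by decide +kernel)) (ndF TOK.nil TOK.nil (p87 h).2.1.1.1.2.2.1.2 (by decide +kernel)) (p87 h).2.1.1.1.2.2.1.1 (by decide +kernel)) (p87 h).2.1.1.1.2.1.2.1 (by decide +kernel)) (p87 h).2.1.1.1.1.1.2.2 (by decide +kernel)) (p87 h).1.2.2.2.1.2.2.2 (by decide +kernel)) (ndF (ndF (ndF (ndF (ndF (ndF TOK.nil TOK.nil (p87 h).2.1.1.1.2.2.2.2 (by decide +kernel)) TOK.nil (p87 h).2.1.1.2.1.1.1 (by decide +kernel)) (ndF TOK.nil TOK.nil (p87 h).2.1.1.2.1.1.2.2 (by decide +kernel)) (p87 h).2.1.1.2.1.1.2.1 (by decide +kernel)) (ndF (ndF (ndF TOK.nil TOK.nil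 (p87 h).2.1.1.2.1.2.1.2 (by decide +kernel)) TOK.nil (p87 h).2.1.1.2.1.2.2.1 (by decide +kernel)) (ndF TOK.nil TOK.nil (p87 h).2.1.1.2.2.1.1 (by decide +kernel)) (p87 h).2.1.1.2.1.2.2.2 (by decide +kernel)) (p87 h).2.1.1.2.1.2.1.1 (by decide +kernel)) (ndF (ndF (ndF (ndF TOK.nil TOK.nil (p87 h).2.1.1.2.2.1.2.2 (by decide +kernel)) TOK.nil (p87 h).2.1.1.2.2.2.1.1 (by decide +kernel)) (ndF TOK.nil TOK.nil (p87 h).2.1.1.2.2.2.2.1 (by decide +kernel)) (p87 h).2.1.1.2.2.2.1.2 (by decide +kernel)) (ndF (ndF TOK.nil TOK.nil (p87 h).2.1.2.1.1.1.1 (by decide +kernel)) (ndF TOK.nil TOK.nil (p87 h).2.1.2.1.1.1.2.2 (by decide +kernel)) (p87 h).2.1.2.1.1.1.2.1 (by decide +kernel)) (p87 h).2.1.1.2.2.2.2.2 (by decide +kernel)) (p87 h).2.1.1.2.2.1.2.1 (by decide +kernel)) (ndF (ndF (ndF (ndF (ndF TOK.nil TOK.nil (p87 h).2.1.2.1.1.2.2.1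 (by decide +kernel)) TOK.nil (p87 h).2.1.2.1.1.2.2.2 (by decide +kernel)) (ndF TOK.nil TOK.nil (p87 h).2.1.2.1.2.1.2.1 (by decide +kernel)) (p87 h).2.1.2.1.2.1.1 (by decide +kernel)) (ndF (ndF TOK.nil TOK.nil (p87 h).2.1.2.1.2.2.1.1 (by decide +kernel)) (ndF TOK.nil TOK.nil (p87 h).2.1.2.1.2.2.2.1 (by decide +kernel)) (p87 h).2.1.2.1.2.2.1.2 (by decide +kernel)) (p87 h).2.1.2.1.2.1.2.2 (by decide +kernel)) (ndF (ndF (ndF (ndF TOK.nil TOK.nil (p87 h).2.1.2.2.1.1.1 (by decide +kernel)) TOK.nil (p87 h).2.1.2.2.1.1.2.1 (by decide +kernel)) (ndF TOK.nil TOK.nil (p87 h).2.1.2.2.1.2.1.1 (by decide +kernel)) (p87 h).2.1.2.2.1.1.2.2 (by decide +kernel)) (ndF (ndF TOK.nil TOK.nil (p87 h).2.1.2.2.1.2.2.1 (by decide +kernel)) (ndF TOK.nil TOK.nil (p87 h).2.1.2.2.2.1.1 (by decide +kernel)) (p87 h).2.1.2.2.1.2.2.2 (by decide +kernel))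 (p87 h).2.1.2.2.1.2.1.2 (by decide +kernel)) (p87 h).2.1.2.1.2.2.2.2 (by decide +kernel)) (p87 h).2.1.2.1.1.2.1 (by decide +kernel)) (p87 h).2.1.1.1.2.2.2.1 (by decide +kernel))

theorem T_19_38_ok (h : RcOK RE.rowE) : T_19_38.OK :=
  okF (by decide +kernel) (ndF (ndF (ndF (ndF (ndF TOK.nil TOK.nil (p87 h).2.1.2.2.2.1.2.1 (by decide +kernel)) (ndF TOK.nil TOK.nil (p87 h).2.1.2.2.2.2.1.1 (by decide +kernel)) (p87 h).2.1.2.2.2.1.2.2 (by decide +kernel)) (ndF (ndF TOK.nil TOK.nil (p87 h).2.1.2.2.2.2.2.1 (by decide +kernel)) TOK.nil (p87 h).2.1.2.2.2.2.2.2 (by decide +kernel)) (p87 h).2.1.2.2.2.2.1.2 (by decide +kernel)) (ndF (ndF (ndF TOK.nil TOK.nil (p87 h).2.2.1.1.1.1.2.1 (by decide +kernel)) (ndF TOK.nil TOK.nil (p87 h).2.2.1.1.1.2.1 (by decide +kernel)) (p87 h).2.2.1.1.1.1.2.2 (by decide +kernel)) (ndF (ndF TOK.nil TOK.nil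 (p87 h).2.2.1.1.1.2.2.2 (by decide +kernel)) TOK.nil (p87 h).2.2.1.1.2.1.1 (by decide +kernel)) (p87 h).2.2.1.1.1.2.2.1 (by decide +kernel)) (p87 h).2.2.1.1.1.1.1 (by decide +kernel)) (ndF (ndF (ndF (ndF TOK.nil TOK.nil (p87 h).2.2.1.1.2.1.2.2 (by decide +kernel)) (ndF TOK.nil TOK.nil (p87 h).2.2.1.1.2.2.1.2 (by decide +kernel)) (p87 h).2.2.1.1.2.2.1.1 (by decide +kernel)) (ndF (ndF TOK.nil TOK.nil (p87 h).2.2.1.1.2.2.2.2 (by decide +kernel)) TOK.nil (p87 h).2.2.1.2.1.1.1 (by decide +kernel)) (p87 h).2.2.1.1.2.2.2.1 (by decide +kernel)) (ndF (ndF (ndF TOK.nil TOK.nil (p87 h).2.2.1.2.1.1.2.2 (by decide +kernel)) TOK.nil (p87 h).2.2.1.2.1.2.1.1 (by decide +kernel)) (ndF (ndF TOK.nil TOK.nil (p87 h).2.2.1.2.1.2.2.1 (by decide +kernel)) TOK.nil (p87 h).2.2.1.2.1.2.2.2 (by decide +kernel)) (p87 h).2.2.1.2.1.2.1.2 (by decide +kernel))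 (p87 h).2.2.1.2.1.1.2.1 (by decide +kernel)) (p87 h).2.2.1.1.2.1.2.1 (by decide +kernel))


end TB
end Pool.Agent.Lib.MP_6947cd_al
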