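import Pool.Agent.Lib.MP_6947cd_al.TB.P87
import Pool.Agent.Lib.MP_6947cd_al.TB.P88
import Pool.Agent.Lib.MP_6947cd_al.TB.P89
import Pool.Agent.Lib.MP_6947cd_al.TB.P90
import Pool.Agent.Lib.MP_6947cd_al.TB.P91

/-!
Problem MP_6947cd_al (Chollet).  THE FAMILIES OF TABLES ARE CORRECT, part 23.
-/

set_option autoImplicit false
set_option maxHeartbeats 0
set_option maxRecDepth 100000
set_option linter.all false

namespace Pool.Agent.Lib.MP_6947cd_al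
namespace TB

open Ent Ent.Pk Fr Fr.WT B1 PkA PkA.TF

theorem R_120_180_ok (h : RcOK RE.rowE) : R_120_180.OK :=
  okF (by decide +kernel) (ndF (ndF (ndF (ndF (ndF (ndF TOK.nil TOK.nil (p87 h).2.2.1.2.2.1.1 (by decide +kernel)) (ndF TOK.nil TOK.nil (p87 h).2.2.1.2.2.1.2.2 (by decide +kernel)) (p87 h).2.2.1.2.2.1.2.1 (by decide +kernel)) (ndF (ndF TOK.nil TOK.nil (p87 h).2.2.1.2.2.2.1.2 (by decide +kernel)) (ndF TOK.nil TOK.nil (p87 h).2.2.1.2.2.2.2.2 (by decide +kernel)) (p87 h).2.2.1.2.2.2.2.1 (by decide +kernel)) (p87 h).2.2.1.2.2.2.1.1 (by decide +kernel)) (ndF (ndF (ndF TOK.nil TOK.nil (p87 h).2.2.2.1.1.1.2.1 (by decide +kernel)) (ndF TOK.nil TOK.nil (p87 h).2.2.2.1.1.2.1 (by decide +kernel)) (p87 h).2.2.2.1.1.1.2.2 (by decide +kernel)) (ndF (ndF TOK.nil TOK.nil (p87 h).2.2.2.1.1.2.2.2 (by decide +kernel)) (ndF TOK.nil TOK.nil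 (p87 h).2.2.2.1.2.1.2.1 (by decide +kernel)) (p87 h).2.2.2.1.2.1.1 (by decide +kernel)) (p87 h).2.2.2.1.1.2.2.1 (by decide +kernel)) (p87 h).2.2.2.1.1.1.1 (by decide +kernel)) (ndF (ndF (ndF (ndF TOK.nil TOK.nil (p87 h).2.2.2.1.2.2.1.1 (by decide +kernel)) (ndF TOK.nil TOK.nil (p87 h).2.2.2.1.2.2.2.1 (by decide +kernel)) (p87 h).2.2.2.1.2.2.1.2 (by decide +kernel)) (ndF (ndF TOK.nil TOK.nil (p87 h).2.2.2.2.1.1.1 (by decide +kernel)) (ndF TOK.nil TOK.nil (p87 h).2.2.2.2.1.1.2.2 (by decide +kernel)) (p87 h).2.2.2.2.1.1.2.1 (by decide +kernel)) (p87 h).2.2.2.1.2.2.2.2 (by decide +kernel)) (ndF (ndF (ndF TOK.nil TOK.nil (p87 h).2.2.2.2.1.2.1.2 (by decide +kernel)) (ndF TOK.nil TOK.nil (p87 h).2.2.2.2.1.2.2.2 (by decide +kernel)) (p87 h).2.2.2.2.1.2.2.1 (by decide +kernel)) (ndF (ndF TOK.nil TOK.nil (p87 h).2.2.2.2.2.1.2.1 (by decide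 +kernel)) TOK.nil (p87 h).2.2.2.2.2.1.2.2 (by decide +kernel)) (p87 h).2.2.2.2.2.1.1 (by decide +kernel)) (p87 h).2.2.2.2.1.2.1.1 (by decide +kernel)) (p87 h).2.2.2.1.2.1.2.2 (by decide +kernel)) (ndF (ndF (ndF (ndF (ndF TOK.nil TOK.nil (p87 h).2.2.2.2.2.2.1.2 (by decide +kernel)) (ndF TOK.nil TOK.nil (p87 h).2.2.2.2.2.2.2.2 (by decide +kernel)) (p87 h).2.2.2.2.2.2.2.1 (by decide +kernel)) (ndF (ndF TOK.nil TOK.nil (p88 h).1.1.1.1.1.2.1 (by decide +kernel)) (ndF TOK.nil TOK.nil (p88 h).1.1.1.1.2.1.1 (by decide +kernel)) (p88 h).1.1.1.1.1.2.2 (by decide +kernel)) (p88 h).1.1.1.1.1.1 (by decide +kernel)) (ndF (ndF (ndF TOK.nil TOK.nil (p88 h).1.1.1.1.2.2.1 (by decide +kernel)) (ndF TOK.nil TOK.nil (p88 h).1.1.1.2.1.1.1 (by decide +kernel)) (p88 h).1.1.1.1.2.2.2 (by decide +kernel)) (ndF (ndF TOK.nil TOK.nil (p88 h).1.1.1.2.1.2.1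 (by decide +kernel)) (ndF TOK.nil TOK.nil (p88 h).1.1.1.2.2.1.1 (by decide +kernel)) (p88 h).1.1.1.2.1.2.2 (by decide +kernel)) (p88 h).1.1.1.2.1.1.2 (by decide +kernel)) (p88 h).1.1.1.1.2.1.2 (by decide +kernel)) (ndF (ndF (ndF (ndF TOK.nil TOK.nil (p88 h).1.1.1.2.2.2.1 (by decide +kernel)) (ndF TOK.nil TOK.nil (p88 h).1.1.2.1.1.1 (by decide +kernel)) (p88 h).1.1.1.2.2.2.2 (by decide +kernel)) (ndF (ndF TOK.nil TOK.nil (p88 h).1.1.2.1.1.2.2 (by decide +kernel)) (ndF TOK.nil TOK.nil (p88 h).1.1.2.1.2.1.2 (by decide +kernel)) (p88 h).1.1.2.1.2.1.1 (by decide +kernel)) (p88 h).1.1.2.1.1.2.1 (by decide +kernel)) (ndF (ndF (ndF TOK.nil TOK.nil (p88 h).1.1.2.1.2.2.2 (by decide +kernel)) (ndF TOK.nil TOK.nil (p88 h).1.1.2.2.1.1.2 (by decide +kernel)) (p88 h).1.1.2.2.1.1.1 (by decide +kernel)) (ndF (ndF TOK.nil TOK.nil (p88 h).1.1.2.2.1.2.2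 (by decide +kernel)) TOK.nil (p88 h).1.1.2.2.2.1.1 (by decide +kernel)) (p88 h).1.1.2.2.1.2.1 (by decide +kernel)) (p88 h).1.1.2.1.2.2.1 (by decide +kernel)) (p88 h).1.1.1.2.2.1.2 (by decide +kernel)) (p87 h).2.2.2.2.2.2.1.1 (by decide +kernel))

theorem R_80_120_200_ok (h : RcOK RE.rowE) : R_80_120_200.OK :=
  okF (by decide +kernel) (ndF (ndF (ndF (ndF (ndF (ndF (ndF TOK.nil TOK.nil (p88 h).1.1.2.2.2.1.2 (by decide +kernel)) TOK.nil (p88 h).1.1.2.2.2.2.1 (by decide +kernel)) (ndF TOK.nil TOK.nil (p88 h).1.2.1.1.1.1 (by decide +kernel)) (p88 h).1.1.2.2.2.2.2 (by decide +kernel)) (ndF (ndF TOK.nil TOK.nil (p88 h).1.2.1.1.1.2.2 (by decide +kernel)) (ndF TOK.nil TOK.nil (p88 h).1.2.1.1.2.1.2 (by decide +kernel)) (p88 h).1.2.1.1.2.1.1 (by decide +kernel)) (p88 h).1.2.1.1.1.2.1 (by decide +kernel)) (ndF (ndF (ndF TOK.nil TOK.nil (p88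 h).1.2.1.1.2.2.2 (by decide +kernel)) (ndF TOK.nil TOK.nil (p88 h).1.2.1.2.1.1.2 (by decide +kernel)) (p88 h).1.2.1.2.1.1.1 (by decide +kernel)) (ndF (ndF TOK.nil TOK.nil (p88 h).1.2.1.2.1.2.2 (by decide +kernel)) (ndF TOK.nil TOK.nil (p88 h).1.2.1.2.2.1.2 (by decide +kernel)) (p88 h).1.2.1.2.2.1.1 (by decide +kernel)) (p88 h).1.2.1.2.1.2.1 (by decide +kernel)) (p88 h).1.2.1.1.2.2.1 (by decide +kernel)) (ndF (ndF (ndF (ndF (ndF TOK.nil TOK.nil (p88 h).1.2.1.2.2.2.2 (by decide +kernel)) TOK.nil (p88 h).1.2.2.1.1.1 (by decide +kernel)) (ndF TOK.nil TOK.nil (p88 h).1.2.2.1.1.2.2 (by decide +kernel)) (p88 h).1.2.2.1.1.2.1 (by decide +kernel)) (ndF (ndF TOK.nil TOK.nil (p88 h).1.2.2.1.2.1.2 (by decide +kernel)) (ndF TOK.nil TOK.nil (p88 h).1.2.2.1.2.2.2 (by decide +kernel)) (p88 h).1.2.2.1.2.2.1 (by decide +kernel)) (p88 h).1.2.2.1.2.1.1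 (by decide +kernel)) (ndF (ndF (ndF TOK.nil TOK.nil (p88 h).1.2.2.2.1.1.2 (by decide +kernel)) (ndF TOK.nil TOK.nil (p88 h).1.2.2.2.1.2.2 (by decide +kernel)) (p88 h).1.2.2.2.1.2.1 (by decide +kernel)) (ndF (ndF TOK.nil TOK.nil (p88 h).1.2.2.2.2.1.2 (by decide +kernel)) (ndF TOK.nil TOK.nil (p88 h).1.2.2.2.2.2.2 (by decide +kernel)) (p88 h).1.2.2.2.2.2.1 (by decide +kernel)) (p88 h).1.2.2.2.2.1.1 (by decide +kernel)) (p88 h).1.2.2.2.1.1.1 (by decide +kernel)) (p88 h).1.2.1.2.2.2.1 (by decide +kernel)) (ndF (ndF (ndF (ndF (ndF (ndF TOK.nil TOK.nil (p88 h).2.1.1.1.1.2.1 (by decide +kernel)) TOK.nil (p88 h).2.1.1.1.1.2.2 (by decide +kernel)) (ndF TOK.nil TOK.nil (p88 h).2.1.1.1.2.1.2 (by decide +kernel)) (p88 h).2.1.1.1.2.1.1 (by decide +kernel)) (ndF (ndF TOK.nil TOK.nil (p88 h).2.1.1.1.2.2.2 (by decide +kernel)) (ndF TOK.nil TOK.nil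 (p88 h).2.1.1.2.1.1.2 (by decide +kernel)) (p88 h).2.1.1.2.1.1.1 (by decide +kernel)) (p88 h).2.1.1.1.2.2.1 (by decide +kernel)) (ndF (ndF (ndF TOK.nil TOK.nil (p88 h).2.1.1.2.1.2.2 (by decide +kernel)) (ndF TOK.nil TOK.nil (p88 h).2.1.1.2.2.1.2 (by decide +kernel)) (p88 h).2.1.1.2.2.1.1 (by decide +kernel)) (ndF (ndF TOK.nil TOK.nil (p88 h).2.1.1.2.2.2.2 (by decide +kernel)) (ndF TOK.nil TOK.nil (p88 h).2.1.2.1.1.2.1 (by decide +kernel)) (p88 h).2.1.2.1.1.1 (by decide +kernel)) (p88 h).2.1.1.2.2.2.1 (by decide +kernel)) (p88 h).2.1.1.2.1.2.1 (by decide +kernel)) (ndF (ndF (ndF (ndF TOK.nil TOK.nil (p88 h).2.1.2.1.2.1.1 (by decide +kernel)) (ndF TOK.nil TOK.nil (p88 h).2.1.2.1.2.2.1 (by decide +kernel)) (p88 h).2.1.2.1.2.1.2 (by decide +kernel)) (ndF (ndF TOK.nil TOK.nil (p88 h).2.1.2.2.1.1.1 (by decide +kernel)) (ndF TOK.nil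 TOK.nil (p88 h).2.1.2.2.1.2.1 (by decide +kernel)) (p88 h).2.1.2.2.1.1.2 (by decide +kernel)) (p88 h).2.1.2.1.2.2.2 (by decide +kernel)) (ndF (ndF (ndF TOK.nil TOK.nil (p88 h).2.1.2.2.2.1.1 (by decide +kernel)) (ndF TOK.nil TOK.nil (p88 h).2.1.2.2.2.2.1 (by decide +kernel)) (p88 h).2.1.2.2.2.1.2 (by decide +kernel)) (ndF (ndF TOK.nil TOK.nil (p88 h).2.2.1.1.1.1 (by decide +kernel)) (ndF TOK.nil TOK.nil (p88 h).2.2.1.1.1.2.2 (by decide +kernel)) (p88 h).2.2.1.1.1.2.1 (by decide +kernel)) (p88 h).2.1.2.2.2.2.2 (by decide +kernel)) (p88 h).2.1.2.2.1.2.2 (by decide +kernel)) (p88 h).2.1.2.1.1.2.2 (by decide +kernel)) (p88 h).2.1.1.1.1.1 (by decide +kernel))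

theorem R_80_100_130_ok (h : RcOK RE.rowE) : R_80_100_130.OK :=
  okF (by decide +kernel) (ndF (ndF (ndF (ndF (ndF TOK.nil TOK.nil (p88 h).2.2.1.1.2.1.1 (by decide +kernel)) (ndF TOK.nil TOK.nil (p88 h).2.2.1.1.2.2.1 (by decide +kernel)) (p88 h).2.2.1.1.2.1.2 (by decide +kernel)) (ndF (ndF TOK.nil TOK.nil (p88 h).2.2.1.2.1.1.1 (by decide +kernel)) TOK.nil (p88 h).2.2.1.2.1.1.2 (by decide +kernel)) (p88 h).2.2.1.1.2.2.2 (by decide +kernel)) (ndF (ndF (ndF TOK.nil TOK.nil (p88 h).2.2.1.2.1.2.2 (by decide +kernel)) (ndF TOK.nil TOK.nil (p88 h).2.2.1.2.2.1.2 (by decide +kernel)) (p88 h).2.2.1.2.2.1.1 (by decide +kernel)) (ndF (ndF TOK.nil TOK.nil (p88 h).2.2.1.2.2.2.2 (by decide +kernel)) TOK.nil (p88 h).2.2.2.1.1.1.1 (by decide +kernel)) (p88 h).2.2.1.2.2.2.1 (by decide +kernel)) (p88 h).2.2.1.2.1.2.1 (by decide +kernel)) (ndF (ndF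 (ndF (ndF TOK.nil TOK.nil (p88 h).2.2.2.1.1.2.1 (by decide +kernel)) (ndF TOK.nil TOK.nil (p88 h).2.2.2.1.2.1.1 (by decide +kernel)) (p88 h).2.2.2.1.1.2.2 (by decide +kernel)) (ndF (ndF TOK.nil TOK.nil (p88 h).2.2.2.1.2.2.1 (by decide +kernel)) TOK.nil (p88 h).2.2.2.1.2.2.2 (by decide +kernel)) (p88 h).2.2.2.1.2.1.2 (by decide +kernel)) (ndF (ndF (ndF TOK.nil TOK.nil (p88 h).2.2.2.2.1.1.2 (by decide +kernel)) TOK.nil (p88 h).2.2.2.2.1.2.1 (by decide +kernel)) (ndF (ndF TOK.nil TOK.nil (p88 h).2.2.2.2.2.1.1 (by decide +kernel)) TOK.nil (p88 h).2.2.2.2.2.1.2 (by decide +kernel)) (p88 h).2.2.2.2.1.2.2 (by decide +kernel)) (p88 h).2.2.2.2.1.1.1 (by decide +kernel)) (p88 h).2.2.2.1.1.1.2 (by decide +kernel))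

theorem R_80_90_100_ok (h : RcOK RE.rowE) : R_80_90_100.OK :=
  okF (by decide +kernel) (ndF (ndF (ndF (ndF (ndF TOK.nil TOK.nil (p88 h).2.2.2.2.2.2.1 (by decide +kernel)) (ndF TOK.nil TOK.nil (p89 h).1.1.1.1.1.1.1 (by decide +kernel)) (p88 h).2.2.2.2.2.2.2 (by decide +kernel)) (ndF (ndF TOK.nil TOK.nil (p89 h).1.1.1.1.1.1.2.2 (by decide +kernel)) TOK.nil (p89 h).1.1.1.1.1.2.1 (by decide +kernel)) (p89 h).1.1.1.1.1.1.2.1 (by decide +kernel)) (ndF (ndF (ndF TOK.nil TOK.nil (p89 h).1.1.1.1.1.2.2.2 (by decide +kernel)) TOK.nil (p89 h).1.1.1.1.2.1.1 (by decide +kernel)) (ndF (ndF TOK.nil TOK.nil (p89 h).1.1.1.1.2.1.2.2 (by decide +kernel)) TOK.nil (p89 h).1.1.1.1.2.2.1.1 (by decide +kernel)) (p89 h).1.1.1.1.2.1.2.1 (by decide +kernel)) (p89 h).1.1.1.1.1.2.2.1 (by decide +kernel)) (ndF (ndF (ndF (ndF TOK.nil TOK.nil (p89 h).1.1.1.1.2.2.2.1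 (by decide +kernel)) TOK.nil (p89 h).1.1.1.1.2.2.2.2 (by decide +kernel)) (ndF (ndF TOK.nil TOK.nil (p89 h).1.1.1.2.1.1.2.1 (by decide +kernel)) TOK.nil (p89 h).1.1.1.2.1.1.2.2 (by decide +kernel)) (p89 h).1.1.1.2.1.1.1 (by decide +kernel)) (ndF (ndF (ndF TOK.nil TOK.nil (p89 h).1.1.1.2.1.2.1.2 (by decide +kernel)) TOK.nil (p89 h).1.1.1.2.1.2.2.1 (by decide +kernel)) (ndF (ndF TOK.nil TOK.nil (p89 h).1.1.1.2.2.1.1 (by decide +kernel)) TOK.nil (p89 h).1.1.1.2.2.1.2.1 (by decide +kernel)) (p89 h).1.1.1.2.1.2.2.2 (by decide +kernel)) (p89 h).1.1.1.2.1.2.1.1 (by decide +kernel)) (p89 h).1.1.1.1.2.2.1.2 (by decide +kernel))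

theorem R_80_140_160_ok (h : RcOK RE.rowE) : R_80_140_160.OK :=
  okF (by decide +kernel) (ndF (ndF (ndF (ndF (ndF (ndF (ndF TOK.nil TOK.nil (p89 h).1.1.1.2.2.1.2.2 (by decide +kernel)) TOK.nil (p89 h).1.1.1.2.2.2.1.1 (by decide +kernel)) (ndF TOK.nil TOK.nil (p89 h).1.1.1.2.2.2.2.1 (by decide +kernel)) (p89 h).1.1.1.2.2.2.1.2 (by decide +kernel)) (ndF (ndF TOK.nil TOK.nil (p89 h).1.1.2.1.1.1.1 (by decide +kernel)) (ndF TOK.nil TOK.nil (p89 h).1.1.2.1.1.1.2.2 (by decide +kernel)) (p89 h).1.1.2.1.1.1.2.1 (by decide +kernel)) (p89 h).1.1.1.2.2.2.2.2 (by decide +kernel)) (ndF (ndF (ndF (ndF TOK.nil TOK.nil (p89 h).1.1.2.1.1.2.2.1 (by decide +kernel)) TOK.nil (p89 h).1.1.2.1.1.2.2.2 (by decide +kernel)) (ndF TOK.nil TOK.nil (p89 h).1.1.2.1.2.1.2.1 (by decide +kernel)) (p89 h).1.1.2.1.2.1.1 (by decide +kernel)) (ndF (ndF TOK.nil TOK.nil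 (p89 h).1.1.2.1.2.2.1.1 (by decide +kernel)) (ndF TOK.nil TOK.nil (p89 h).1.1.2.1.2.2.2.1 (by decide +kernel)) (p89 h).1.1.2.1.2.2.1.2 (by decide +kernel)) (p89 h).1.1.2.1.2.1.2.2 (by decide +kernel)) (p89 h).1.1.2.1.1.2.1 (by decide +kernel)) (ndF (ndF (ndF (ndF (ndF TOK.nil TOK.nil (p89 h).1.1.2.2.1.1.1 (by decide +kernel)) TOK.nil (p89 h).1.1.2.2.1.1.2.1 (by decide +kernel)) (ndF TOK.nil TOK.nil (p89 h).1.1.2.2.1.2.1.1 (by decide +kernel)) (p89 h).1.1.2.2.1.1.2.2 (by decide +kernel)) (ndF (ndF TOK.nil TOK.nil (p89 h).1.1.2.2.1.2.2.1 (by decide +kernel)) (ndF TOK.nil TOK.nil (p89 h).1.1.2.2.2.1.1 (by decide +kernel)) (p89 h).1.1.2.2.1.2.2.2 (by decide +kernel)) (p89 h).1.1.2.2.1.2.1.2 (by decide +kernel)) (ndF (ndF (ndF (ndF TOK.nil TOK.nil (p89 h).1.1.2.2.2.1.2.2 (by decide +kernel)) TOK.nil (p89 h).1.1.2.2.2.2.1.1 (by decide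 +kernel)) (ndF TOK.nil TOK.nil (p89 h).1.1.2.2.2.2.2.1 (by decide +kernel)) (p89 h).1.1.2.2.2.2.1.2 (by decide +kernel)) (ndF (ndF TOK.nil TOK.nil (p89 h).1.2.1.1.1.1.1 (by decide +kernel)) (ndF TOK.nil TOK.nil (p89 h).1.2.1.1.1.1.2.2 (by decide +kernel)) (p89 h).1.2.1.1.1.1.2.1 (by decide +kernel)) (p89 h).1.1.2.2.2.2.2.2 (by decide +kernel)) (p89 h).1.1.2.2.2.1.2.1 (by decide +kernel)) (p89 h).1.1.2.1.2.2.2.2 (by decide +kernel)) (ndF (ndF (ndF (ndF (ndF (ndF TOK.nil TOK.nil (p89 h).1.2.1.1.1.2.2.1 (by decide +kernel)) TOK.nil (p89 h).1.2.1.1.1.2.2.2 (by decide +kernel)) (ndF TOK.nil TOK.nil (p89 h).1.2.1.1.2.1.2.1 (by decide +kernel)) (p89 h).1.2.1.1.2.1.1 (by decide +kernel)) (ndF (ndF TOK.nil TOK.nil (p89 h).1.2.1.1.2.2.1.1 (by decide +kernel)) (ndF TOK.nil TOK.nil (p89 h).1.2.1.1.2.2.2.1 (by decide +kernel)) (p89 h).1.2.1.1.2.2.1.2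 (by decide +kernel)) (p89 h).1.2.1.1.2.1.2.2 (by decide +kernel)) (ndF (ndF (ndF (ndF TOK.nil TOK.nil (p89 h).1.2.1.2.1.1.1 (by decide +kernel)) TOK.nil (p89 h).1.2.1.2.1.1.2.1 (by decide +kernel)) (ndF TOK.nil TOK.nil (p89 h).1.2.1.2.1.2.1.1 (by decide +kernel)) (p89 h).1.2.1.2.1.1.2.2 (by decide +kernel)) (ndF (ndF TOK.nil TOK.nil (p89 h).1.2.1.2.1.2.2.1 (by decide +kernel)) (ndF TOK.nil TOK.nil (p89 h).1.2.1.2.2.1.1 (by decide +kernel)) (p89 h).1.2.1.2.1.2.2.2 (by decide +kernel)) (p89 h).1.2.1.2.1.2.1.2 (by decide +kernel)) (p89 h).1.2.1.1.2.2.2.2 (by decide +kernel)) (ndF (ndF (ndF (ndF (ndF TOK.nil TOK.nil (p89 h).1.2.1.2.2.1.2.2 (by decide +kernel)) TOK.nil (p89 h).1.2.1.2.2.2.1.1 (by decide +kernel)) (ndF TOK.nil TOK.nil (p89 h).1.2.1.2.2.2.2.1 (by decide +kernel)) (p89 h).1.2.1.2.2.2.1.2 (by decide +kernel)) (ndF (ndF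 TOK.nil TOK.nil (p89 h).1.2.2.1.1.1.1 (by decide +kernel)) (ndF TOK.nil TOK.nil (p89 h).1.2.2.1.1.1.2.2 (by decide +kernel)) (p89 h).1.2.2.1.1.1.2.1 (by decide +kernel)) (p89 h).1.2.1.2.2.2.2.2 (by decide +kernel)) (ndF (ndF (ndF TOK.nil TOK.nil (p89 h).1.2.2.1.1.2.1.2 (by decide +kernel)) (ndF TOK.nil TOK.nil (p89 h).1.2.2.1.1.2.2.2 (by decide +kernel)) (p89 h).1.2.2.1.1.2.2.1 (by decide +kernel)) (ndF (ndF TOK.nil TOK.nil (p89 h).1.2.2.1.2.1.2.1 (by decide +kernel)) (ndF TOK.nil TOK.nil (p89 h).1.2.2.1.2.2.1.1 (by decide +kernel)) (p89 h).1.2.2.1.2.1.2.2 (by decide +kernel)) (p89 h).1.2.2.1.2.1.1 (by decide +kernel)) (p89 h).1.2.2.1.1.2.1.1 (by decide +kernel)) (p89 h).1.2.1.2.2.1.2.1 (by decide +kernel)) (p89 h).1.2.1.1.1.2.1 (by decide +kernel))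

theorem T_12_24_ok (h : RcOK RE.rowE) : T_12_24.OK :=
  okF (by decide +kernel) (ndF (ndF (ndF (ndF (ndF (ndF (ndF TOK.nil TOK.nil (p89 h).1.2.2.1.2.2.1.2 (by decide +kernel)) (ndF TOK.nil TOK.nil (p89 h).1.2.2.1.2.2.2.2 (by decide +kernel)) (p89 h).1.2.2.1.2.2.2.1 (by decide +kernel)) (ndF (ndF TOK.nil TOK.nil (p89 h).1.2.2.2.1.1.2.1 (by decide +kernel)) TOK.nil (p89 h).1.2.2.2.1.1.2.2 (by decide +kernel)) (p89 h).1.2.2.2.1.1.1 (by decide +kernel)) (ndF (ndF (ndF TOK.nil TOK.nil (p89 h).1.2.2.2.1.2.1.2 (by decide +kernel)) TOK.nil (p89 h).1.2.2.2.1.2.2.1 (by decide +kernel)) (ndF (ndF TOK.nil TOK.nil (p89 h).1.2.2.2.2.1.1 (by decide +kernel)) TOK.nil (p89 h).1.2.2.2.2.1.2.1 (by decide +kernel)) (p89 h).1.2.2.2.1.2.2.2 (by decide +kernel)) (p89 h).1.2.2.2.1.2.1.1 (by decide +kernel)) (ndF (ndF (ndF (ndF TOK.nil TOK.nil (p89 h).1.2.2.2.2.2.1.1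 (by decide +kernel)) (ndF TOK.nil TOK.nil (p89 h).1.2.2.2.2.2.2.1 (by decide +kernel)) (p89 h).1.2.2.2.2.2.1.2 (by decide +kernel)) (ndF (ndF TOK.nil TOK.nil (p89 h).2.1.1.1.1.1.1 (by decide +kernel)) TOK.nil (p89 h).2.1.1.1.1.1.2.1 (by decide +kernel)) (p89 h).1.2.2.2.2.2.2.2 (by decide +kernel)) (ndF (ndF (ndF TOK.nil TOK.nil (p89 h).2.1.1.1.1.2.1 (by decide +kernel)) TOK.nil (p89 h).2.1.1.1.1.2.2.1 (by decide +kernel)) (ndF (ndF TOK.nil TOK.nil (p89 h).2.1.1.1.2.1.1 (by decide +kernel)) TOK.nil (p89 h).2.1.1.1.2.1.2.1 (by decide +kernel)) (p89 h).2.1.1.1.1.2.2.2 (by decide +kernel)) (p89 h).2.1.1.1.1.1.2.2 (by decide +kernel)) (p89 h).1.2.2.2.2.1.2.2 (by decide +kernel)) (ndF (ndF (ndF (ndF (ndF TOK.nil TOK.nil (p89 h).2.1.1.1.2.2.1.1 (by decide +kernel)) (ndF TOK.nil TOK.nil (p89 h).2.1.1.1.2.2.2.1 (by decide +kernel)) (p89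 h).2.1.1.1.2.2.1.2 (by decide +kernel)) (ndF (ndF TOK.nil TOK.nil (p89 h).2.1.1.2.1.1.1 (by decide +kernel)) TOK.nil (p89 h).2.1.1.2.1.1.2.1 (by decide +kernel)) (p89 h).2.1.1.1.2.2.2.2 (by decide +kernel)) (ndF (ndF (ndF TOK.nil TOK.nil (p89 h).2.1.1.2.1.2.1.1 (by decide +kernel)) TOK.nil (p89 h).2.1.1.2.1.2.1.2 (by decide +kernel)) (ndF (ndF TOK.nil TOK.nil (p89 h).2.1.1.2.1.2.2.2 (by decide +kernel)) TOK.nil (p89 h).2.1.1.2.2.1.1 (by decide +kernel)) (p89 h).2.1.1.2.1.2.2.1 (by decide +kernel)) (p89 h).2.1.1.2.1.1.2.2 (by decide +kernel)) (ndF (ndF (ndF (ndF TOK.nil TOK.nil (p89 h).2.1.1.2.2.1.2.2 (by decide +kernel)) TOK.nil (p89 h).2.1.1.2.2.2.1.1 (by decide +kernel)) (ndF (ndF TOK.nil TOK.nil (p89 h).2.1.1.2.2.2.2.1 (by decide +kernel)) TOK.nil (p89 h).2.1.1.2.2.2.2.2 (by decide +kernel)) (p89 h).2.1.1.2.2.2.1.2 (by decide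 +kernel)) (ndF (ndF (ndF TOK.nil TOK.nil (p89 h).2.1.2.1.1.1.2.1 (by decide +kernel)) TOK.nil (p89 h).2.1.2.1.1.1.2.2 (by decide +kernel)) (ndF (ndF TOK.nil TOK.nil (p89 h).2.1.2.1.1.2.2.1 (by decide +kernel)) TOK.nil (p89 h).2.1.2.1.1.2.2.2 (by decide +kernel)) (p89 h).2.1.2.1.1.2.1 (by decide +kernel)) (p89 h).2.1.2.1.1.1.1 (by decide +kernel)) (p89 h).2.1.1.2.2.1.2.1 (by decide +kernel)) (p89 h).2.1.1.1.2.1.2.2 (by decide +kernel)) (ndF (ndF (ndF (ndF (ndF (ndF TOK.nil TOK.nil (p89 h).2.1.2.1.2.1.2.1 (by decide +kernel)) (ndF TOK.nil TOK.nil (p89 h).2.1.2.1.2.2.1.1 (by decide +kernel)) (p89 h).2.1.2.1.2.1.2.2 (by decide +kernel)) (ndF (ndF TOK.nil TOK.nil (p89 h).2.1.2.1.2.2.2.1 (by decide +kernel)) TOK.nil (p89 h).2.1.2.1.2.2.2.2 (by decide +kernel)) (p89 h).2.1.2.1.2.2.1.2 (by decide +kernel)) (ndF (ndF (ndF TOK.nil TOK.nil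 (p89 h).2.1.2.2.1.1.2.1 (by decide +kernel)) TOK.nil (p89 h).2.1.2.2.1.1.2.2 (by decide +kernel)) (ndF (ndF TOK.nil TOK.nil (p89 h).2.1.2.2.1.2.1.2 (by decide +kernel)) TOK.nil (p89 h).2.1.2.2.1.2.2.1 (by decide +kernel)) (p89 h).2.1.2.2.1.2.1.1 (by decide +kernel)) (p89 h).2.1.2.2.1.1.1 (by decide +kernel)) (ndF (ndF (ndF (ndF TOK.nil TOK.nil (p89 h).2.1.2.2.2.1.1 (by decide +kernel)) (ndF TOK.nil TOK.nil (p89 h).2.1.2.2.2.1.2.2 (by decide +kernel)) (p89 h).2.1.2.2.2.1.2.1 (by decide +kernel)) (ndF (ndF TOK.nil TOK.nil (p89 h).2.1.2.2.2.2.1.2 (by decide +kernel)) TOK.nil (p89 h).2.1.2.2.2.2.2.1 (by decide +kernel)) (p89 h).2.1.2.2.2.2.1.1 (by decide +kernel)) (ndF (ndF (ndF TOK.nil TOK.nil (p89 h).2.2.1.1.1.1.1 (by decide +kernel)) TOK.nil (p89 h).2.2.1.1.1.1.2.1 (by decide +kernel)) (ndF (ndF TOK.nil TOK.nil (p89 h).2.2.1.1.1.2.1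 (by decide +kernel)) TOK.nil (p89 h).2.2.1.1.1.2.2.1 (by decide +kernel)) (p89 h).2.2.1.1.1.1.2.2 (by decide +kernel)) (p89 h).2.1.2.2.2.2.2.2 (by decide +kernel)) (p89 h).2.1.2.2.1.2.2.2 (by decide +kernel)) (ndF (ndF (ndF (ndF (ndF TOK.nil TOK.nil (p89 h).2.2.1.1.2.1.1 (by decide +kernel)) (ndF TOK.nil TOK.nil (p89 h).2.2.1.1.2.1.2.2 (by decide +kernel)) (p89 h).2.2.1.1.2.1.2.1 (by decide +kernel)) (ndF (ndF TOK.nil TOK.nil (p89 h).2.2.1.1.2.2.1.2 (by decide +kernel)) TOK.nil (p89 h).2.2.1.1.2.2.2.1 (by decide +kernel)) (p89 h).2.2.1.1.2.2.1.1 (by decide +kernel)) (ndF (ndF (ndF TOK.nil TOK.nil (p89 h).2.2.1.2.1.1.1 (by decide +kernel)) TOK.nil (p89 h).2.2.1.2.1.1.2.1 (by decide +kernel)) (ndF (ndF TOK.nil TOK.nil (p89 h).2.2.1.2.1.2.1.1 (by decide +kernel)) TOK.nil (p89 h).2.2.1.2.1.2.1.2 (by decide +kernel)) (p89 h).2.2.1.2.1.1.2.2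 (by decide +kernel)) (p89 h).2.2.1.1.2.2.2.2 (by decide +kernel)) (ndF (ndF (ndF (ndF TOK.nil TOK.nil (p89 h).2.2.1.2.1.2.2.2 (by decide +kernel)) TOK.nil (p89 h).2.2.1.2.2.1.1 (by decide +kernel)) (ndF (ndF TOK.nil TOK.nil (p89 h).2.2.1.2.2.1.2.2 (by decide +kernel)) TOK.nil (p89 h).2.2.1.2.2.2.1.1 (by decide +kernel)) (p89 h).2.2.1.2.2.1.2.1 (by decide +kernel)) (ndF (ndF (ndF TOK.nil TOK.nil (p89 h).2.2.1.2.2.2.2.1 (by decide +kernel)) TOK.nil (p89 h).2.2.1.2.2.2.2.2 (by decide +kernel)) (ndF (ndF TOK.nil TOK.nil (p89 h).2.2.2.1.1.1.2.1 (by decide +kernel)) TOK.nil (p89 h).2.2.2.1.1.1.2.2 (by decide +kernel)) (p89 h).2.2.2.1.1.1.1 (by decide +kernel)) (p89 h).2.2.1.2.2.2.1.2 (by decide +kernel)) (p89 h).2.2.1.2.1.2.2.1 (by decide +kernel)) (p89 h).2.2.1.1.1.2.2.2 (by decide +kernel)) (p89 h).2.1.2.1.2.1.1 (by decide +kernel))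

theorem R_40_60_80_100_ok (h : RcOK RE.rowE) : R_40_60_80_100.OK :=
  okF (by decide +kernel) (ndF (ndF (ndF (ndF (ndF (ndF TOK.nil TOK.nil (p89 h).2.2.2.1.1.2.1.1 (by decide +kernel)) TOK.nil (p89 h).2.2.2.1.1.2.1.2 (by decide +kernel)) (ndF (ndF TOK.nil TOK.nil (p89 h).2.2.2.1.1.2.2.2 (by decide +kernel)) TOK.nil (p89 h).2.2.2.1.2.1.1 (by decide +kernel)) (p89 h).2.2.2.1.1.2.2.1 (by decide +kernel)) (ndF (ndF (ndF TOK.nil TOK.nil (p89 h).2.2.2.1.2.1.2.2 (by decide +kernel)) TOK.nil (p89 h).2.2.2.1.2.2.1.1 (by decide +kernel)) (ndF TOK.nil TOK.nil (p89 h).2.2.2.1.2.2.2.1 (by decide +kernel)) (p89 h).2.2.2.1.2.2.1.2 (by decide +kernel)) (p89 h).2.2.2.1.2.1.2.1 (by decide +kernel)) (ndF (ndF (ndF (ndF TOK.nil TOK.nil (p89 h).2.2.2.2.1.1.1 (by decide +kernel)) TOK.nil (p89 h).2.2.2.2.1.1.2.1 (by decide +kernel)) (ndF TOK.nil TOK.nil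 (p89 h).2.2.2.2.1.2.1.1 (by decide +kernel)) (p89 h).2.2.2.2.1.1.2.2 (by decide +kernel)) (ndF (ndF (ndF TOK.nil TOK.nil (p89 h).2.2.2.2.1.2.2.1 (by decide +kernel)) TOK.nil (p89 h).2.2.2.2.1.2.2.2 (by decide +kernel)) (ndF TOK.nil TOK.nil (p89 h).2.2.2.2.2.1.2.1 (by decide +kernel)) (p89 h).2.2.2.2.2.1.1 (by decide +kernel)) (p89 h).2.2.2.2.1.2.1.2 (by decide +kernel)) (p89 h).2.2.2.1.2.2.2.2 (by decide +kernel)) (ndF (ndF (ndF (ndF (ndF TOK.nil TOK.nil (p89 h).2.2.2.2.2.2.1.1 (by decide +kernel)) TOK.nil (p89 h).2.2.2.2.2.2.1.2 (by decide +kernel)) (ndF (ndF TOK.nil TOK.nil (p89 h).2.2.2.2.2.2.2.2 (by decide +kernel)) TOK.nil (p90 h).1.1.1.1.1.1.1 (by decide +kernel)) (p89 h).2.2.2.2.2.2.2.1 (by decide +kernel)) (ndF (ndF (ndF TOK.nil TOK.nil (p90 h).1.1.1.1.1.2.1 (by decide +kernel)) TOK.nil (p90 h).1.1.1.1.1.2.2 (by decide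 +kernel)) (ndF TOK.nil TOK.nil (p90 h).1.1.1.1.2.1.2 (by decide +kernel)) (p90 h).1.1.1.1.2.1.1 (by decide +kernel)) (p90 h).1.1.1.1.1.1.2 (by decide +kernel)) (ndF (ndF (ndF (ndF TOK.nil TOK.nil (p90 h).1.1.1.1.2.2.2 (by decide +kernel)) TOK.nil (p90 h).1.1.1.2.1.1.1 (by decide +kernel)) (ndF TOK.nil TOK.nil (p90 h).1.1.1.2.1.2.1 (by decide +kernel)) (p90 h).1.1.1.2.1.1.2 (by decide +kernel)) (ndF (ndF (ndF TOK.nil TOK.nil (p90 h).1.1.1.2.2.1.1 (by decide +kernel)) TOK.nil (p90 h).1.1.1.2.2.1.2 (by decide +kernel)) (ndF TOK.nil TOK.nil (p90 h).1.1.1.2.2.2.2 (by decide +kernel)) (p90 h).1.1.1.2.2.2.1 (by decide +kernel)) (p90 h).1.1.1.2.1.2.2 (by decide +kernel)) (p90 h).1.1.1.1.2.2.1 (by decide +kernel)) (p89 h).2.2.2.2.2.1.2.2 (by decide +kernel))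

theorem R_40_80_100_130_ok (h : RcOK RE.rowE) : R_40_80_100_130.OK :=
  okF (by decide +kernel) (ndF (ndF (ndF (ndF TOK.nil TOK.nil (p90 h).1.1.2.1.1.1.1 (by decide +kernel)) TOK.nil (p90 h).1.1.2.1.1.1.2 (by decide +kernel)) (ndF TOK.nil TOK.nil (p90 h).1.1.2.1.1.2.2 (by decide +kernel)) (p90 h).1.1.2.1.1.2.1 (by decide +kernel)) (ndF (ndF TOK.nil TOK.nil (p90 h).1.1.2.1.2.1.2 (by decide +kernel)) (ndF TOK.nil TOK.nil (p90 h).1.1.2.1.2.2.2 (by decide +kernel)) (p90 h).1.1.2.1.2.2.1 (by decide +kernel)) (p90 h).1.1.2.1.2.1.1 (by decide +kernel))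

theorem R_80_90_110_120_ok (h : RcOK RE.rowE) : R_80_90_110_120.OK :=
  okF (by decide +kernel) (ndF (ndF (ndF (ndF (ndF (ndF TOK.nil TOK.nil (p90 h).1.1.2.2.1.1.1 (by decide +kernel)) TOK.nil (p90 h).1.1.2.2.1.1.2 (by decide +kernel)) (ndF (ndF TOK.nil TOK.nil (p90 h).1.1.2.2.1.2.2 (by decide +kernel)) TOK.nil (p90 h).1.1.2.2.2.1.1 (by decide +kernel)) (p90 h).1.1.2.2.1.2.1 (by decide +kernel)) (ndF (ndF (ndF TOK.nil TOK.nil (p90 h).1.1.2.2.2.2.1 (by decide +kernel)) TOK.nil (p90 h).1.1.2.2.2.2.2 (by decide +kernel)) (ndF (ndF TOK.nil TOK.nil (p90 h).1.2.1.1.1.1.2 (by decide +kernel)) TOK.nil (p90 h).1.2.1.1.1.2.1 (by decide +kernel)) (p90 h).1.2.1.1.1.1.1 (by decide +kernel)) (p90 h).1.1.2.2.2.1.2 (by decide +kernel)) (ndF (ndF (ndF (ndF TOK.nil TOK.nil (p90 h).1.2.1.1.2.1.1 (by decide +kernel)) TOK.nil (p90 h).1.2.1.1.2.1.2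 (by decide +kernel)) (ndF (ndF TOK.nil TOK.nil (p90 h).1.2.1.1.2.2.2 (by decide +kernel)) TOK.nil (p90 h).1.2.1.2.1.1.1 (by decide +kernel)) (p90 h).1.2.1.1.2.2.1 (by decide +kernel)) (ndF (ndF (ndF TOK.nil TOK.nil (p90 h).1.2.1.2.1.2.1 (by decide +kernel)) TOK.nil (p90 h).1.2.1.2.1.2.2 (by decide +kernel)) (ndF TOK.nil TOK.nil (p90 h).1.2.1.2.2.1.2 (by decide +kernel)) (p90 h).1.2.1.2.2.1.1 (by decide +kernel)) (p90 h).1.2.1.2.1.1.2 (by decide +kernel)) (p90 h).1.2.1.1.1.2.2 (by decide +kernel)) (ndF (ndF (ndF (ndF (ndF TOK.nil TOK.nil (p90 h).1.2.1.2.2.2.2 (by decide +kernel)) TOK.nil (p90 h).1.2.2.1.1.1.1 (by decide +kernel)) (ndF (ndF TOK.nil TOK.nil (p90 h).1.2.2.1.1.2.1 (by decide +kernel)) TOK.nil (p90 h).1.2.2.1.1.2.2 (by decide +kernel)) (p90 h).1.2.2.1.1.1.2 (by decide +kernel)) (ndF (ndF (ndF TOK.nil TOK.nil (p90 h).1.2.2.1.2.1.2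 (by decide +kernel)) TOK.nil (p90 h).1.2.2.1.2.2.1 (by decide +kernel)) (ndF TOK.nil TOK.nil (p90 h).1.2.2.2.1.1.1 (by decide +kernel)) (p90 h).1.2.2.1.2.2.2 (by decide +kernel)) (p90 h).1.2.2.1.2.1.1 (by decide +kernel)) (ndF (ndF (ndF (ndF TOK.nil TOK.nil (p90 h).1.2.2.2.1.2.1 (by decide +kernel)) TOK.nil (p90 h).1.2.2.2.1.2.2 (by decide +kernel)) (ndF (ndF TOK.nil TOK.nil (p90 h).1.2.2.2.2.1.2 (by decide +kernel)) TOK.nil (p90 h).1.2.2.2.2.2.1 (by decide +kernel)) (p90 h).1.2.2.2.2.1.1 (by decide +kernel)) (ndF (ndF (ndF TOK.nil TOK.nil (p90 h).2.1.1.1.1.1.1 (by decide +kernel)) TOK.nil (p90 h).2.1.1.1.1.1.2 (by decide +kernel)) (ndF TOK.nil TOK.nil (p90 h).2.1.1.1.1.2.2 (by decide +kernel)) (p90 h).2.1.1.1.1.2.1 (by decide +kernel)) (p90 h).1.2.2.2.2.2.2 (by decide +kernel)) (p90 h).1.2.2.2.1.1.2 (by decide +kernel)) (p90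 h).1.2.1.2.2.2.1 (by decide +kernel))

theorem R_50_100_120_140_ok (h : RcOK RE.rowE) : R_50_100_120_140.OK :=
  okF (by decide +kernel) (ndF (ndF (ndF (ndF TOK.nil TOK.nil (p90 h).2.1.1.1.2.1.1 (by decide +kernel)) (ndF TOK.nil TOK.nil (p90 h).2.1.1.1.2.2.1 (by decide +kernel)) (p90 h).2.1.1.1.2.1.2 (by decide +kernel)) (ndF (ndF TOK.nil TOK.nil (p90 h).2.1.1.2.1.1.1 (by decide +kernel)) (ndF TOK.nil TOK.nil (p90 h).2.1.1.2.1.2.1 (by decide +kernel)) (p90 h).2.1.1.2.1.1.2 (by decide +kernel)) (p90 h).2.1.1.1.2.2.2 (by decide +kernel)) (ndF (ndF (ndF TOK.nil TOK.nil (p90 h).2.1.1.2.2.1.1 (by decide +kernel)) (ndF TOK.nil TOK.nil (p90 h).2.1.1.2.2.2.1 (by decide +kernel)) (p90 h).2.1.1.2.2.1.2 (by decide +kernel)) (ndF (ndF TOK.nil TOK.nil (p90 h).2.1.2.1.1.1.1 (by decide +kernel)) TOK.nil (p90 h).2.1.2.1.1.1.2 (by decide +kernel))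 (p90 h).2.1.1.2.2.2.2 (by decide +kernel)) (p90 h).2.1.1.2.1.2.2 (by decide +kernel))

theorem R_20_40_100_ok (h : RcOK RE.rowE) : R_20_40_100.OK :=
  okF (by decide +kernel) (ndF (ndF (ndF (ndF (ndF (ndF TOK.nil TOK.nil (p90 h).2.1.2.1.1.2.1 (by decide +kernel)) TOK.nil (p90 h).2.1.2.1.1.2.2 (by decide +kernel)) (ndF (ndF TOK.nil TOK.nil (p90 h).2.1.2.1.2.1.2 (by decide +kernel)) TOK.nil (p90 h).2.1.2.1.2.2.1 (by decide +kernel)) (p90 h).2.1.2.1.2.1.1 (by decide +kernel)) (ndF (ndF (ndF TOK.nil TOK.nil (p90 h).2.1.2.2.1.1.1 (by decide +kernel)) TOK.nil (p90 h).2.1.2.2.1.1.2 (by decide +kernel)) (ndF (ndF TOK.nil TOK.nil (p90 h).2.1.2.2.1.2.2 (by decide +kernel)) TOK.nil (p90 h).2.1.2.2.2.1.1 (by decide +kernel)) (p90 h).2.1.2.2.1.2.1 (by decide +kernel)) (p90 h).2.1.2.1.2.2.2 (by decide +kernel)) (ndF (ndF (ndF (ndF TOK.nil TOK.nil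 (p90 h).2.1.2.2.2.2.1 (by decide +kernel)) TOK.nil (p90 h).2.1.2.2.2.2.2 (by decide +kernel)) (ndF (ndF TOK.nil TOK.nil (p90 h).2.2.1.1.1.1.2 (by decide +kernel)) TOK.nil (p90 h).2.2.1.1.1.2.1 (by decide +kernel)) (p90 h).2.2.1.1.1.1.1 (by decide +kernel)) (ndF (ndF (ndF TOK.nil TOK.nil (p90 h).2.2.1.1.2.1.1 (by decide +kernel)) TOK.nil (p90 h).2.2.1.1.2.1.2 (by decide +kernel)) (ndF (ndF TOK.nil TOK.nil (p90 h).2.2.1.1.2.2.2 (by decide +kernel)) TOK.nil (p90 h).2.2.1.2.1.1.1 (by decide +kernel)) (p90 h).2.2.1.1.2.2.1 (by decide +kernel)) (p90 h).2.2.1.1.1.2.2 (by decide +kernel)) (p90 h).2.1.2.2.2.1.2 (by decide +kernel)) (ndF (ndF (ndF (ndF (ndF TOK.nil TOK.nil (p90 h).2.2.1.2.1.2.1 (by decide +kernel)) TOK.nil (p90 h).2.2.1.2.1.2.2 (by decide +kernel)) (ndF (ndF TOK.nil TOK.nil (p90 h).2.2.1.2.2.1.2 (by decide +kernel)) TOK.nil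 (p90 h).2.2.1.2.2.2.1 (by decide +kernel)) (p90 h).2.2.1.2.2.1.1 (by decide +kernel)) (ndF (ndF (ndF TOK.nil TOK.nil (p90 h).2.2.2.1.1.1.1 (by decide +kernel)) TOK.nil (p90 h).2.2.2.1.1.1.2 (by decide +kernel)) (ndF (ndF TOK.nil TOK.nil (p90 h).2.2.2.1.1.2.2 (by decide +kernel)) TOK.nil (p90 h).2.2.2.1.2.1.1 (by decide +kernel)) (p90 h).2.2.2.1.1.2.1 (by decide +kernel)) (p90 h).2.2.1.2.2.2.2 (by decide +kernel)) (ndF (ndF (ndF (ndF TOK.nil TOK.nil (p90 h).2.2.2.1.2.2.1 (by decide +kernel)) TOK.nil (p90 h).2.2.2.1.2.2.2 (by decide +kernel)) (ndF (ndF TOK.nil TOK.nil (p90 h).2.2.2.2.1.1.2 (by decide +kernel)) TOK.nil (p90 h).2.2.2.2.1.2.1 (by decide +kernel)) (p90 h).2.2.2.2.1.1.1 (by decide +kernel)) (ndF (ndF (ndF TOK.nil TOK.nil (p90 h).2.2.2.2.2.1.1 (by decide +kernel)) TOK.nil (p90 h).2.2.2.2.2.1.2 (by decide +kernel)) (ndF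 (ndF TOK.nil TOK.nil (p90 h).2.2.2.2.2.2.2 (by decide +kernel)) TOK.nil (p91 h).1.1.1.1.1.1.1.1 (by decide +kernel)) (p90 h).2.2.2.2.2.2.1 (by decide +kernel)) (p90 h).2.2.2.2.1.2.2 (by decide +kernel)) (p90 h).2.2.2.1.2.1.2 (by decide +kernel)) (p90 h).2.2.1.2.1.1.2 (by decide +kernel))

theorem R_20_140_ok (h : RcOK RE.rowE) : R_20_140.OK :=
  okF (by decide +kernel) (ndF (ndF (ndF (ndF (ndF (ndF (ndF TOK.nil TOK.nil (p91 h).1.1.1.1.1.1.1.2 (by decide +kernel)) TOK.nil (p91 h).1.1.1.1.1.1.2.1 (by decide +kernel)) (ndF TOK.nil TOK.nil (p91 h).1.1.1.1.1.2.1.1 (by decide +kernel)) (p91 h).1.1.1.1.1.1.2.2 (by decide +kernel)) (ndF (ndF TOK.nil TOK.nil (p91 h).1.1.1.1.1.2.2.1 (by decide +kernel)) (ndF TOK.nil TOK.nil (p91 h).1.1.1.1.2.1.1.1 (by decide +kernel)) (p91 h).1.1.1.1.1.2.2.2 (by decide +kernel)) (p91 h).1.1.1.1.1.2.1.2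 (by decide +kernel)) (ndF (ndF (ndF TOK.nil TOK.nil (p91 h).1.1.1.1.2.1.2.1 (by decide +kernel)) (ndF TOK.nil TOK.nil (p91 h).1.1.1.1.2.2.1.1 (by decide +kernel)) (p91 h).1.1.1.1.2.1.2.2 (by decide +kernel)) (ndF (ndF TOK.nil TOK.nil (p91 h).1.1.1.1.2.2.2.1 (by decide +kernel)) (ndF TOK.nil TOK.nil (p91 h).1.1.1.1.2.2.2.2.2 (by decide +kernel)) (p91 h).1.1.1.1.2.2.2.2.1 (by decide +kernel)) (p91 h).1.1.1.1.2.2.1.2 (by decide +kernel)) (p91 h).1.1.1.1.2.1.1.2 (by decide +kernel)) (ndF (ndF (ndF (ndF TOK.nil TOK.nil (p91 h).1.1.1.2.1.1.1.2 (by decide +kernel)) (ndF TOK.nil TOK.nil (p91 h).1.1.1.2.1.1.2.2 (by decide +kernel)) (p91 h).1.1.1.2.1.1.2.1 (by decide +kernel)) (ndF (ndF TOK.nil TOK.nil (p91 h).1.1.1.2.1.2.1.2 (by decide +kernel)) (ndF TOK.nil TOK.nil (p91 h).1.1.1.2.1.2.2.2.1 (by decide +kernel)) (p91 h).1.1.1.2.1.2.2.1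 (by decide +kernel)) (p91 h).1.1.1.2.1.2.1.1 (by decide +kernel)) (ndF (ndF (ndF TOK.nil TOK.nil (p91 h).1.1.1.2.2.1.1.1 (by decide +kernel)) (ndF TOK.nil TOK.nil (p91 h).1.1.1.2.2.1.2.1 (by decide +kernel)) (p91 h).1.1.1.2.2.1.1.2 (by decide +kernel)) (ndF (ndF TOK.nil TOK.nil (p91 h).1.1.1.2.2.2.1.1 (by decide +kernel)) (ndF TOK.nil TOK.nil (p91 h).1.1.1.2.2.2.2.1 (by decide +kernel)) (p91 h).1.1.1.2.2.2.1.2 (by decide +kernel)) (p91 h).1.1.1.2.2.1.2.2 (by decide +kernel)) (p91 h).1.1.1.2.1.2.2.2.2 (by decide +kernel)) (p91 h).1.1.1.2.1.1.1.1 (by decide +kernel)) (ndF (ndF (ndF (ndF (ndF (ndF TOK.nil TOK.nil (p91 h).1.1.1.2.2.2.2.2.2 (by decide +kernel)) TOK.nil (p91 h).1.1.2.1.1.1.1.1 (by decide +kernel)) (ndF TOK.nil TOK.nil (p91 h).1.1.2.1.1.1.2.1 (by decide +kernel)) (p91 h).1.1.2.1.1.1.1.2 (by decide +kernel)) (ndF (ndF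 TOK.nil TOK.nil (p91 h).1.1.2.1.1.2.1.1 (by decide +kernel)) (ndF TOK.nil TOK.nil (p91 h).1.1.2.1.1.2.2.1 (by decide +kernel)) (p91 h).1.1.2.1.1.2.1.2 (by decide +kernel)) (p91 h).1.1.2.1.1.1.2.2 (by decide +kernel)) (ndF (ndF (ndF TOK.nil TOK.nil (p91 h).1.1.2.1.1.2.2.2.2 (by decide +kernel)) (ndF TOK.nil TOK.nil (p91 h).1.1.2.1.2.1.1.2 (by decide +kernel)) (p91 h).1.1.2.1.2.1.1.1 (by decide +kernel)) (ndF (ndF TOK.nil TOK.nil (p91 h).1.1.2.1.2.1.2.2 (by decide +kernel)) (ndF TOK.nil TOK.nil (p91 h).1.1.2.1.2.2.1.2 (by decide +kernel)) (p91 h).1.1.2.1.2.2.1.1 (by decide +kernel)) (p91 h).1.1.2.1.2.1.2.1 (by decide +kernel)) (p91 h).1.1.2.1.1.2.2.2.1 (by decide +kernel)) (ndF (ndF (ndF (ndF TOK.nil TOK.nil (p91 h).1.1.2.1.2.2.2.2.1 (by decide +kernel)) (ndF TOK.nil TOK.nil (p91 h).1.1.2.2.1.1.1.1 (by decide +kernel)) (p91 h).1.1.2.1.2.2.2.2.2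 (by decide +kernel)) (ndF (ndF TOK.nil TOK.nil (p91 h).1.1.2.2.1.1.2.1 (by decide +kernel)) (ndF TOK.nil TOK.nil (p91 h).1.1.2.2.1.2.1.1 (by decide +kernel)) (p91 h).1.1.2.2.1.1.2.2 (by decide +kernel)) (p91 h).1.1.2.2.1.1.1.2 (by decide +kernel)) (ndF (ndF (ndF TOK.nil TOK.nil (p91 h).1.1.2.2.1.2.2.1 (by decide +kernel)) (ndF TOK.nil TOK.nil (p91 h).1.1.2.2.1.2.2.2.2 (by decide +kernel)) (p91 h).1.1.2.2.1.2.2.2.1 (by decide +kernel)) (ndF (ndF TOK.nil TOK.nil (p91 h).1.1.2.2.2.1.1.2 (by decide +kernel)) (ndF TOK.nil TOK.nil (p91 h).1.1.2.2.2.1.2.2 (by decide +kernel)) (p91 h).1.1.2.2.2.1.2.1 (by decide +kernel)) (p91 h).1.1.2.2.2.1.1.1 (by decide +kernel)) (p91 h).1.1.2.2.1.2.1.2 (by decide +kernel)) (p91 h).1.1.2.1.2.2.2.1 (by decide +kernel)) (p91 h).1.1.1.2.2.2.2.2.1 (by decide +kernel))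

theorem T_20_140_ok (h : RcOK RE.rowE) : T_20_140.OK :=
  okF (by decide +kernel) (ndF (ndF (ndF (ndF (ndF (ndF (ndF TOK.nil TOK.nil (p91 h).1.1.2.2.2.2.1.1 (by decide +kernel)) TOK.nil (p91 h).1.1.2.2.2.2.1.2 (by decide +kernel)) (ndF TOK.nil TOK.nil (p91 h).1.1.2.2.2.2.2.2.1 (by decide +kernel)) (p91 h).1.1.2.2.2.2.2.1 (by decide +kernel)) (ndF (ndF TOK.nil TOK.nil (p91 h).1.2.1.1.1.1.1.1 (by decide +kernel)) (ndF TOK.nil TOK.nil (p91 h).1.2.1.1.1.1.2.1 (by decide +kernel)) (p91 h).1.2.1.1.1.1.1.2 (by decide +kernel)) (p91 h).1.1.2.2.2.2.2.2.2 (by decide +kernel)) (ndF (ndF (ndF TOK.nil TOK.nil (p91 h).1.2.1.1.1.2.1.1 (by decide +kernel)) (ndF TOK.nil TOK.nil (p91 h).1.2.1.1.1.2.2.1 (by decide +kernel)) (p91 h).1.2.1.1.1.2.1.2 (by decide +kernel)) (ndF (ndF TOK.nil TOK.nil (p91 h).1.2.1.1.2.1.1.1 (by decide +kernel)) (ndF TOK.nil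 TOK.nil (p91 h).1.2.1.1.2.1.2.1 (by decide +kernel)) (p91 h).1.2.1.1.2.1.1.2 (by decide +kernel)) (p91 h).1.2.1.1.1.2.2.2 (by decide +kernel)) (p91 h).1.2.1.1.1.1.2.2 (by decide +kernel)) (ndF (ndF (ndF (ndF TOK.nil TOK.nil (p91 h).1.2.1.1.2.2.1.1 (by decide +kernel)) (ndF TOK.nil TOK.nil (p91 h).1.2.1.1.2.2.2.1 (by decide +kernel)) (p91 h).1.2.1.1.2.2.1.2 (by decide +kernel)) (ndF (ndF TOK.nil TOK.nil (p91 h).1.2.1.1.2.2.2.2.2 (by decide +kernel)) (ndF TOK.nil TOK.nil (p91 h).1.2.1.2.1.1.1.2 (by decide +kernel)) (p91 h).1.2.1.2.1.1.1.1 (by decide +kernel)) (p91 h).1.2.1.1.2.2.2.2.1 (by decide +kernel)) (ndF (ndF (ndF TOK.nil TOK.nil (p91 h).1.2.1.2.1.1.2.2 (by decide +kernel)) (ndF TOK.nil TOK.nil (p91 h).1.2.1.2.1.2.1.2 (by decide +kernel)) (p91 h).1.2.1.2.1.2.1.1 (by decide +kernel)) (ndF (ndF TOK.nil TOK.nil (p91 h).1.2.1.2.1.2.2.2.1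 (by decide +kernel)) (ndF TOK.nil TOK.nil (p91 h).1.2.1.2.2.1.1.1 (by decide +kernel)) (p91 h).1.2.1.2.1.2.2.2.2 (by decide +kernel)) (p91 h).1.2.1.2.1.2.2.1 (by decide +kernel)) (p91 h).1.2.1.2.1.1.2.1 (by decide +kernel)) (p91 h).1.2.1.1.2.1.2.2 (by decide +kernel)) (ndF (ndF (ndF (ndF (ndF (ndF TOK.nil TOK.nil (p91 h).1.2.1.2.2.1.2.1 (by decide +kernel)) TOK.nil (p91 h).1.2.1.2.2.1.2.2 (by decide +kernel)) (ndF TOK.nil TOK.nil (p91 h).1.2.1.2.2.2.1.2 (by decide +kernel)) (p91 h).1.2.1.2.2.2.1.1 (by decide +kernel)) (ndF (ndF TOK.nil TOK.nil (p91 h).1.2.1.2.2.2.2.2.1 (by decide +kernel)) (ndF TOK.nil TOK.nil (p91 h).1.2.2.1.1.1.1.1 (by decide +kernel)) (p91 h).1.2.1.2.2.2.2.2.2 (by decide +kernel)) (p91 h).1.2.1.2.2.2.2.1 (by decide +kernel)) (ndF (ndF (ndF TOK.nil TOK.nil (p91 h).1.2.2.1.1.1.2.1 (by decide +kernel)) (ndF TOK.nil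 TOK.nil (p91 h).1.2.2.1.1.2.1.1 (by decide +kernel)) (p91 h).1.2.2.1.1.1.2.2 (by decide +kernel)) (ndF (ndF TOK.nil TOK.nil (p91 h).1.2.2.1.1.2.2.1 (by decide +kernel)) (ndF TOK.nil TOK.nil (p91 h).1.2.2.1.1.2.2.2.2 (by decide +kernel)) (p91 h).1.2.2.1.1.2.2.2.1 (by decide +kernel)) (p91 h).1.2.2.1.1.2.1.2 (by decide +kernel)) (p91 h).1.2.2.1.1.1.1.2 (by decide +kernel)) (ndF (ndF (ndF (ndF TOK.nil TOK.nil (p91 h).1.2.2.1.2.1.1.2 (by decide +kernel)) (ndF TOK.nil TOK.nil (p91 h).1.2.2.1.2.1.2.2 (by decide +kernel)) (p91 h).1.2.2.1.2.1.2.1 (by decide +kernel)) (ndF (ndF TOK.nil TOK.nil (p91 h).1.2.2.1.2.2.1.2 (by decide +kernel)) (ndF TOK.nil TOK.nil (p91 h).1.2.2.1.2.2.2.2.1 (by decide +kernel)) (p91 h).1.2.2.1.2.2.2.1 (by decide +kernel)) (p91 h).1.2.2.1.2.2.1.1 (by decide +kernel)) (ndF (ndF (ndF TOK.nil TOK.nil (p91 h).1.2.2.2.1.1.1.1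 (by decide +kernel)) (ndF TOK.nil TOK.nil (p91 h).1.2.2.2.1.1.2.1 (by decide +kernel)) (p91 h).1.2.2.2.1.1.1.2 (by decide +kernel)) (ndF (ndF TOK.nil TOK.nil (p91 h).1.2.2.2.1.2.1.1 (by decide +kernel)) (ndF TOK.nil TOK.nil (p91 h).1.2.2.2.1.2.2.1 (by decide +kernel)) (p91 h).1.2.2.2.1.2.1.2 (by decide +kernel)) (p91 h).1.2.2.2.1.1.2.2 (by decide +kernel)) (p91 h).1.2.2.1.2.2.2.2.2 (by decide +kernel)) (p91 h).1.2.2.1.2.1.1.1 (by decide +kernel)) (p91 h).1.2.1.2.2.1.1.2 (by decide +kernel))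

theorem T_60_160_ok (h : RcOK RE.rowE) : T_60_160.OK :=
  okF (by decide +kernel) (ndF (ndF (ndF (ndF (ndF (ndF (ndF TOK.nil TOK.nil (p91 h).1.2.2.2.1.2.2.2.1 (by decide +kernel)) TOK.nil (p91 h).1.2.2.2.1.2.2.2.2 (by decide +kernel)) (ndF TOK.nil TOK.nil (p91 h).1.2.2.2.2.1.1.2 (by decide +kernel)) (p91 h).1.2.2.2.2.1.1.1 (by decide +kernel)) (ndF (ndF TOK.nil TOK.nil (p91 h).1.2.2.2.2.1.2.2 (by decide +kernel)) (ndF TOK.nil TOK.nil (p91 h).1.2.2.2.2.2.1.2 (by decide +kernel)) (p91 h).1.2.2.2.2.2.1.1 (by decide +kernel)) (p91 h).1.2.2.2.2.1.2.1 (by decide +kernel)) (ndF (ndF (ndF TOK.nil TOK.nil (p91 h).1.2.2.2.2.2.2.2.1 (by decide +kernel)) (ndF TOK.nil TOK.nil (p91 h).2.1.1.1.1.1.1.1 (by decide +kernel)) (p91 h).1.2.2.2.2.2.2.2.2 (by decide +kernel)) (ndF (ndF TOK.nil TOK.nil (p91 h).2.1.1.1.1.1.2.1 (by decide +kernel)) (ndF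 TOK.nil TOK.nil (p91 h).2.1.1.1.1.2.1.1 (by decide +kernel)) (p91 h).2.1.1.1.1.1.2.2 (by decide +kernel)) (p91 h).2.1.1.1.1.1.1.2 (by decide +kernel)) (p91 h).1.2.2.2.2.2.2.1 (by decide +kernel)) (ndF (ndF (ndF (ndF TOK.nil TOK.nil (p91 h).2.1.1.1.1.2.2.1 (by decide +kernel)) (ndF TOK.nil TOK.nil (p91 h).2.1.1.1.2.1.1.1 (by decide +kernel)) (p91 h).2.1.1.1.1.2.2.2 (by decide +kernel)) (ndF (ndF TOK.nil TOK.nil (p91 h).2.1.1.1.2.1.2.1 (by decide +kernel)) (ndF TOK.nil TOK.nil (p91 h).2.1.1.1.2.2.1.1 (by decide +kernel)) (p91 h).2.1.1.1.2.1.2.2 (by decide +kernel)) (p91 h).2.1.1.1.2.1.1.2 (by decide +kernel)) (ndF (ndF (ndF TOK.nil TOK.nil (p91 h).2.1.1.1.2.2.2.1 (by decide +kernel)) (ndF TOK.nil TOK.nil (p91 h).2.1.1.1.2.2.2.2.2 (by decide +kernel)) (p91 h).2.1.1.1.2.2.2.2.1 (by decide +kernel)) (ndF (ndF TOK.nil TOK.nil (p91 h).2.1.1.2.1.1.1.2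 (by decide +kernel)) (ndF TOK.nil TOK.nil (p91 h).2.1.1.2.1.1.2.2 (by decide +kernel)) (p91 h).2.1.1.2.1.1.2.1 (by decide +kernel)) (p91 h).2.1.1.2.1.1.1.1 (by decide +kernel)) (p91 h).2.1.1.1.2.2.1.2 (by decide +kernel)) (p91 h).2.1.1.1.1.2.1.2 (by decide +kernel)) (ndF (ndF (ndF (ndF (ndF (ndF TOK.nil TOK.nil (p91 h).2.1.1.2.1.2.1.2 (by decide +kernel)) TOK.nil (p91 h).2.1.1.2.1.2.2.1 (by decide +kernel)) (ndF TOK.nil TOK.nil (p91 h).2.1.1.2.1.2.2.2.2 (by decide +kernel)) (p91 h).2.1.1.2.1.2.2.2.1 (by decide +kernel)) (ndF (ndF TOK.nil TOK.nil (p91 h).2.1.1.2.2.1.1.2 (by decide +kernel)) (ndF TOK.nil TOK.nil (p91 h).2.1.1.2.2.1.2.2 (by decide +kernel)) (p91 h).2.1.1.2.2.1.2.1 (by decide +kernel)) (p91 h).2.1.1.2.2.1.1.1 (by decide +kernel)) (ndF (ndF (ndF TOK.nil TOK.nil (p91 h).2.1.1.2.2.2.1.2 (by decide +kernel)) (ndF TOK.nil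 TOK.nil (p91 h).2.1.1.2.2.2.2.2.1 (by decide +kernel)) (p91 h).2.1.1.2.2.2.2.1 (by decide +kernel)) (ndF (ndF TOK.nil TOK.nil (p91 h).2.1.2.1.1.1.1.1 (by decide +kernel)) (ndF TOK.nil TOK.nil (p91 h).2.1.2.1.1.1.2.1 (by decide +kernel)) (p91 h).2.1.2.1.1.1.1.2 (by decide +kernel)) (p91 h).2.1.1.2.2.2.2.2.2 (by decide +kernel)) (p91 h).2.1.1.2.2.2.1.1 (by decide +kernel)) (ndF (ndF (ndF (ndF TOK.nil TOK.nil (p91 h).2.1.2.1.1.2.1.1 (by decide +kernel)) (ndF TOK.nil TOK.nil (p91 h).2.1.2.1.1.2.2.1 (by decide +kernel)) (p91 h).2.1.2.1.1.2.1.2 (by decide +kernel)) (ndF (ndF TOK.nil TOK.nil (p91 h).2.1.2.1.1.2.2.2.2 (by decide +kernel)) (ndF TOK.nil TOK.nil (p91 h).2.1.2.1.2.1.1.2 (by decide +kernel)) (p91 h).2.1.2.1.2.1.1.1 (by decide +kernel)) (p91 h).2.1.2.1.1.2.2.2.1 (by decide +kernel)) (ndF (ndF (ndF TOK.nil TOK.nil (p91 h).2.1.2.1.2.1.2.2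 (by decide +kernel)) (ndF TOK.nil TOK.nil (p91 h).2.1.2.1.2.2.1.2 (by decide +kernel)) (p91 h).2.1.2.1.2.2.1.1 (by decide +kernel)) (ndF (ndF TOK.nil TOK.nil (p91 h).2.1.2.1.2.2.2.2.1 (by decide +kernel)) (ndF TOK.nil TOK.nil (p91 h).2.1.2.2.1.1.1.1 (by decide +kernel)) (p91 h).2.1.2.1.2.2.2.2.2 (by decide +kernel)) (p91 h).2.1.2.1.2.2.2.1 (by decide +kernel)) (p91 h).2.1.2.1.2.1.2.1 (by decide +kernel)) (p91 h).2.1.2.1.1.1.2.2 (by decide +kernel)) (p91 h).2.1.1.2.1.2.1.1 (by decide +kernel))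

theorem R_60_160_ok (h : RcOK RE.rowE) : R_60_160.OK :=
  okF (by decide +kernel) (ndF (ndF (ndF (ndF (ndF (ndF TOK.nil TOK.nil (p91 h).2.1.2.2.1.1.1.2 (by decide +kernel)) (ndF TOK.nil TOK.nil (p91 h).2.1.2.2.1.1.2.2 (by decide +kernel)) (p91 h).2.1.2.2.1.1.2.1 (by decide +kernel)) (ndF (ndF TOK.nil TOK.nil (p91 h).2.1.2.2.1.2.1.2 (by decide +kernel)) (ndF TOK.nil TOK.nil (p91 h).2.1.2.2.1.2.2.2.1 (by decide +kernel)) (p91 h).2.1.2.2.1.2.2.1 (by decide +kernel)) (p91 h).2.1.2.2.1.2.1.1 (by decide +kernel)) (ndF (ndF (ndF TOK.nil TOK.nil (p91 h).2.1.2.2.2.1.1.1 (by decide +kernel)) (ndF TOK.nil TOK.nil (p91 h).2.1.2.2.2.1.2.1 (by decide +kernel)) (p91 h).2.1.2.2.2.1.1.2 (by decide +kernel)) (ndF (ndF TOK.nil TOK.nil (p91 h).2.1.2.2.2.2.1.1 (by decide +kernel)) (ndF TOK.nil TOK.nil (p91 h).2.1.2.2.2.2.2.1 (by decide +kernel))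 (p91 h).2.1.2.2.2.2.1.2 (by decide +kernel)) (p91 h).2.1.2.2.2.1.2.2 (by decide +kernel)) (p91 h).2.1.2.2.1.2.2.2.2 (by decide +kernel)) (ndF (ndF (ndF (ndF TOK.nil TOK.nil (p91 h).2.1.2.2.2.2.2.2.2 (by decide +kernel)) (ndF TOK.nil TOK.nil (p91 h).2.2.1.1.1.1.1.2 (by decide +kernel)) (p91 h).2.2.1.1.1.1.1.1 (by decide +kernel)) (ndF (ndF TOK.nil TOK.nil (p91 h).2.2.1.1.1.1.2.2 (by decide +kernel)) (ndF TOK.nil TOK.nil (p91 h).2.2.1.1.1.2.1.2 (by decide +kernel)) (p91 h).2.2.1.1.1.2.1.1 (by decide +kernel)) (p91 h).2.2.1.1.1.1.2.1 (by decide +kernel)) (ndF (ndF (ndF TOK.nil TOK.nil (p91 h).2.2.1.1.1.2.2.2 (by decide +kernel)) (ndF TOK.nil TOK.nil (p91 h).2.2.1.1.2.1.1.2 (by decide +kernel)) (p91 h).2.2.1.1.2.1.1.1 (by decide +kernel)) (ndF (ndF TOK.nil TOK.nil (p91 h).2.2.1.1.2.1.2.2 (by decide +kernel)) (ndF TOK.nil TOK.nil (p91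 h).2.2.1.1.2.2.1.2 (by decide +kernel)) (p91 h).2.2.1.1.2.2.1.1 (by decide +kernel)) (p91 h).2.2.1.1.2.1.2.1 (by decide +kernel)) (p91 h).2.2.1.1.1.2.2.1 (by decide +kernel)) (p91 h).2.1.2.2.2.2.2.2.1 (by decide +kernel)) (ndF (ndF (ndF (ndF (ndF TOK.nil TOK.nil (p91 h).2.2.1.1.2.2.2.2.1 (by decide +kernel)) (ndF TOK.nil TOK.nil (p91 h).2.2.1.2.1.1.1.1 (by decide +kernel)) (p91 h).2.2.1.1.2.2.2.2.2 (by decide +kernel)) (ndF (ndF TOK.nil TOK.nil (p91 h).2.2.1.2.1.1.2.1 (by decide +kernel)) (ndF TOK.nil TOK.nil (p91 h).2.2.1.2.1.2.1.1 (by decide +kernel)) (p91 h).2.2.1.2.1.1.2.2 (by decide +kernel)) (p91 h).2.2.1.2.1.1.1.2 (by decide +kernel)) (ndF (ndF (ndF TOK.nil TOK.nil (p91 h).2.2.1.2.1.2.2.1 (by decide +kernel)) (ndF TOK.nil TOK.nil (p91 h).2.2.1.2.1.2.2.2.2 (by decide +kernel)) (p91 h).2.2.1.2.1.2.2.2.1 (by decide +kernel))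 (ndF (ndF TOK.nil TOK.nil (p91 h).2.2.1.2.2.1.1.2 (by decide +kernel)) (ndF TOK.nil TOK.nil (p91 h).2.2.1.2.2.1.2.2 (by decide +kernel)) (p91 h).2.2.1.2.2.1.2.1 (by decide +kernel)) (p91 h).2.2.1.2.2.1.1.1 (by decide +kernel)) (p91 h).2.2.1.2.1.2.1.2 (by decide +kernel)) (ndF (ndF (ndF (ndF TOK.nil TOK.nil (p91 h).2.2.1.2.2.2.1.2 (by decide +kernel)) (ndF TOK.nil TOK.nil (p91 h).2.2.1.2.2.2.2.2.1 (by decide +kernel)) (p91 h).2.2.1.2.2.2.2.1 (by decide +kernel)) (ndF (ndF TOK.nil TOK.nil (p91 h).2.2.2.1.1.1.1.1 (by decide +kernel)) (ndF TOK.nil TOK.nil (p91 h).2.2.2.1.1.1.2.1 (by decide +kernel)) (p91 h).2.2.2.1.1.1.1.2 (by decide +kernel)) (p91 h).2.2.1.2.2.2.2.2.2 (by decide +kernel)) (ndF (ndF (ndF TOK.nil TOK.nil (p91 h).2.2.2.1.1.2.1.1 (by decide +kernel)) (ndF TOK.nil TOK.nil (p91 h).2.2.2.1.1.2.2.1 (by decide +kernel)) (p91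 h).2.2.2.1.1.2.1.2 (by decide +kernel)) (ndF (ndF TOK.nil TOK.nil (p91 h).2.2.2.1.1.2.2.2.2 (by decide +kernel)) TOK.nil (p91 h).2.2.2.1.2.1.1.1 (by decide +kernel)) (p91 h).2.2.2.1.1.2.2.2.1 (by decide +kernel)) (p91 h).2.2.2.1.1.1.2.2 (by decide +kernel)) (p91 h).2.2.1.2.2.2.1.1 (by decide +kernel)) (p91 h).2.2.1.1.2.2.2.1 (by decide +kernel))

theorem T_13_26_ok (h : RcOK RE.rowE) : T_13_26.OK :=
  okF (by decide +kernel) (ndF (ndF (ndF (ndF (ndF TOK.nil TOK.nil (p91 h).2.2.2.1.2.1.1.2 (by decide +kernel)) TOK.nil (p91 h).2.2.2.1.2.1.2.1 (by decide +kernel)) (ndF TOK.nil TOK.nil (p91 h).2.2.2.1.2.2.1.1 (by decide +kernel)) (p91 h).2.2.2.1.2.1.2.2 (by decide +kernel)) (ndF (ndF (ndF TOK.nil TOK.nil (p91 h).2.2.2.1.2.2.2.1 (by decide +kernel)) TOK.nil (p91 h).2.2.2.1.2.2.2.2.1 (by decide +kernel)) (ndF TOK.nil TOK.nil (p91 h).2.2.2.2.1.1.1.1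 (by decide +kernel)) (p91 h).2.2.2.1.2.2.2.2.2 (by decide +kernel)) (p91 h).2.2.2.1.2.2.1.2 (by decide +kernel)) (ndF (ndF (ndF (ndF TOK.nil TOK.nil (p91 h).2.2.2.2.1.1.2.1 (by decide +kernel)) TOK.nil (p91 h).2.2.2.2.1.1.2.2 (by decide +kernel)) (ndF TOK.nil TOK.nil (p91 h).2.2.2.2.1.2.1.2 (by decide +kernel)) (p91 h).2.2.2.2.1.2.1.1 (by decide +kernel)) (ndF (ndF TOK.nil TOK.nil (p91 h).2.2.2.2.1.2.2.2.1 (by decide +kernel)) (ndF TOK.nil TOK.nil (p91 h).2.2.2.2.2.1.1.1 (by decide +kernel)) (p91 h).2.2.2.2.1.2.2.2.2 (by decide +kernel)) (p91 h).2.2.2.2.1.2.2.1 (by decide +kernel)) (p91 h).2.2.2.2.1.1.1.2 (by decide +kernel))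


end TB
end Pool.Agent.Lib.MP_6947cd_al
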