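import Pool.Agent.Lib.MP_6947cd_al.TB.P95
import Pool.Agent.Lib.MP_6947cd_al.TB.P96
import Pool.Agent.Lib.MP_6947cd_al.TB.P97
import Pool.Agent.Lib.MP_6947cd_al.TB.P98
import Pool.Agent.Lib.MP_6947cd_al.TB.P99

/-!
Problem MP_6947cd_al (Chollet).  THE FAMILIES OF TABLES ARE CORRECT, part 25.
-/

set_option autoImplicit false
set_option maxHeartbeats 0
set_option maxRecDepth 100000
set_option linter.all false

namespace Pool.Agent.Lib.MP_6947cd_al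
namespace TB

open Ent Ent.Pk Fr Fr.WT B1 PkA PkA.TF

theorem T_28_56_ok (h : RcOK RE.rowE) : T_28_56.OK :=
  okF (by decide +kernel) (ndF (ndF (ndF (ndF (ndF (ndF (ndF TOK.nil TOK.nil (p95 h).2.1.1.2.2.2.2.1 (by decide +kernel)) TOK.nil (p95 h).2.1.1.2.2.2.2.2 (by decide +kernel)) (ndF TOK.nil TOK.nil (p95 h).2.1.2.1.1.1.2.1 (by decide +kernel)) (p95 h).2.1.2.1.1.1.1 (by decide +kernel)) (ndF (ndF TOK.nil TOK.nil (p95 h).2.1.2.1.1.2.1 (by decide +kernel)) (ndF TOK.nil TOK.nil (p95 h).2.1.2.1.1.2.2.2 (by decide +kernel)) (p95 h).2.1.2.1.1.2.2.1 (by decide +kernel)) (p95 h).2.1.2.1.1.1.2.2 (by decide +kernel)) (ndF (ndF (ndF TOK.nil TOK.nil (p95 h).2.1.2.1.2.1.2.1 (by decide +kernel)) (ndF TOK.nil TOK.nil (p95 h).2.1.2.1.2.2.1.1 (by decide +kernel)) (p95 h).2.1.2.1.2.1.2.2 (by decide +kernel)) (ndF (ndF TOK.nil TOK.nil (p95 h).2.1.2.1.2.2.2.1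 (by decide +kernel)) (ndF TOK.nil TOK.nil (p95 h).2.1.2.2.1.1.1 (by decide +kernel)) (p95 h).2.1.2.1.2.2.2.2 (by decide +kernel)) (p95 h).2.1.2.1.2.2.1.2 (by decide +kernel)) (p95 h).2.1.2.1.2.1.1 (by decide +kernel)) (ndF (ndF (ndF (ndF (ndF TOK.nil TOK.nil (p95 h).2.1.2.2.1.1.2.2 (by decide +kernel)) TOK.nil (p95 h).2.1.2.2.1.2.1 (by decide +kernel)) (ndF TOK.nil TOK.nil (p95 h).2.1.2.2.1.2.2.2 (by decide +kernel)) (p95 h).2.1.2.2.1.2.2.1 (by decide +kernel)) (ndF (ndF TOK.nil TOK.nil (p95 h).2.1.2.2.2.1.2.1 (by decide +kernel)) (ndF TOK.nil TOK.nil (p95 h).2.1.2.2.2.2.1.1 (by decide +kernel)) (p95 h).2.1.2.2.2.1.2.2 (by decide +kernel)) (p95 h).2.1.2.2.2.1.1 (by decide +kernel)) (ndF (ndF (ndF TOK.nil TOK.nil (p95 h).2.1.2.2.2.2.2.1 (by decide +kernel)) (ndF TOK.nil TOK.nil (p95 h).2.2.1.1.1.1.1 (by decide +kernel)) (p95 h).2.1.2.2.2.2.2.2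 (by decide +kernel)) (ndF (ndF TOK.nil TOK.nil (p95 h).2.2.1.1.1.1.2.2 (by decide +kernel)) (ndF TOK.nil TOK.nil (p95 h).2.2.1.1.1.2.2.1 (by decide +kernel)) (p95 h).2.2.1.1.1.2.1 (by decide +kernel)) (p95 h).2.2.1.1.1.1.2.1 (by decide +kernel)) (p95 h).2.1.2.2.2.2.1.2 (by decide +kernel)) (p95 h).2.1.2.2.1.1.2.1 (by decide +kernel)) (ndF (ndF (ndF (ndF (ndF (ndF TOK.nil TOK.nil (p95 h).2.2.1.1.2.1.1 (by decide +kernel)) TOK.nil (p95 h).2.2.1.1.2.1.2.1 (by decide +kernel)) (ndF TOK.nil TOK.nil (p95 h).2.2.1.1.2.2.1.1 (by decide +kernel)) (p95 h).2.2.1.1.2.1.2.2 (by decide +kernel)) (ndF (ndF TOK.nil TOK.nil (p95 h).2.2.1.1.2.2.2.1 (by decide +kernel)) (ndF TOK.nil TOK.nil (p95 h).2.2.1.2.1.1.1 (by decide +kernel)) (p95 h).2.2.1.1.2.2.2.2 (by decide +kernel)) (p95 h).2.2.1.1.2.2.1.2 (by decide +kernel)) (ndF (ndF (ndF TOK.nil TOK.nil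 (p95 h).2.2.1.2.1.1.2.2 (by decide +kernel)) (ndF TOK.nil TOK.nil (p95 h).2.2.1.2.1.2.2.1 (by decide +kernel)) (p95 h).2.2.1.2.1.2.1 (by decide +kernel)) (ndF (ndF TOK.nil TOK.nil (p95 h).2.2.1.2.2.1.1 (by decide +kernel)) (ndF TOK.nil TOK.nil (p95 h).2.2.1.2.2.1.2.2 (by decide +kernel)) (p95 h).2.2.1.2.2.1.2.1 (by decide +kernel)) (p95 h).2.2.1.2.1.2.2.2 (by decide +kernel)) (p95 h).2.2.1.2.1.1.2.1 (by decide +kernel)) (ndF (ndF (ndF (ndF TOK.nil TOK.nil (p95 h).2.2.1.2.2.2.1.2 (by decide +kernel)) (ndF TOK.nil TOK.nil (p95 h).2.2.1.2.2.2.2.2 (by decide +kernel)) (p95 h).2.2.1.2.2.2.2.1 (by decide +kernel)) (ndF (ndF TOK.nil TOK.nil (p95 h).2.2.2.1.1.1.2.1 (by decide +kernel)) (ndF TOK.nil TOK.nil (p95 h).2.2.2.1.1.2.1 (by decide +kernel)) (p95 h).2.2.2.1.1.1.2.2 (by decide +kernel)) (p95 h).2.2.2.1.1.1.1 (by decide +kernel)) (ndF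 (ndF (ndF TOK.nil TOK.nil (p95 h).2.2.2.1.1.2.2.2 (by decide +kernel)) (ndF TOK.nil TOK.nil (p95 h).2.2.2.1.2.1.2.1 (by decide +kernel)) (p95 h).2.2.2.1.2.1.1 (by decide +kernel)) (ndF (ndF TOK.nil TOK.nil (p95 h).2.2.2.1.2.2.1.1 (by decide +kernel)) (ndF TOK.nil TOK.nil (p95 h).2.2.2.1.2.2.2.1 (by decide +kernel)) (p95 h).2.2.2.1.2.2.1.2 (by decide +kernel)) (p95 h).2.2.2.1.2.1.2.2 (by decide +kernel)) (p95 h).2.2.2.1.1.2.2.1 (by decide +kernel)) (p95 h).2.2.1.2.2.2.1.1 (by decide +kernel)) (p95 h).2.2.1.1.1.2.2.2 (by decide +kernel))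

theorem R_60_80_160_ok (h : RcOK RE.rowE) : R_60_80_160.OK :=
  okF (by decide +kernel) (ndF (ndF (ndF (ndF (ndF (ndF TOK.nil TOK.nil (p95 h).2.2.2.1.2.2.2.2 (by decide +kernel)) TOK.nil (p95 h).2.2.2.2.1.1.1 (by decide +kernel)) (ndF TOK.nil TOK.nil (p95 h).2.2.2.2.1.1.2.2 (by decide +kernel)) (p95 h).2.2.2.2.1.1.2.1 (by decide +kernel)) (ndF (ndF (ndF TOK.nil TOK.nil (p95 h).2.2.2.2.1.2.1.2 (by decide +kernel)) TOK.nil (p95 h).2.2.2.2.1.2.2.1 (by decide +kernel)) (ndF TOK.nil TOK.nil (p95 h).2.2.2.2.2.1.1 (by decide +kernel)) (p95 h).2.2.2.2.1.2.2.2 (by decide +kernel)) (p95 h).2.2.2.2.1.2.1.1 (by decide +kernel)) (ndF (ndF (ndF (ndF TOK.nil TOK.nil (p95 h).2.2.2.2.2.1.2.2 (by decide +kernel)) TOK.nil (p95 h).2.2.2.2.2.2.1.1 (by decide +kernel)) (ndF TOK.nil TOK.nil (p95 h).2.2.2.2.2.2.2.1 (by decide +kernel)) (p95 h).2.2.2.2.2.2.1.2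 (by decide +kernel)) (ndF (ndF (ndF TOK.nil TOK.nil (p96 h).1.1.1.1.1.1 (by decide +kernel)) TOK.nil (p96 h).1.1.1.1.1.2.1 (by decide +kernel)) (ndF TOK.nil TOK.nil (p96 h).1.1.1.1.2.1.1 (by decide +kernel)) (p96 h).1.1.1.1.1.2.2 (by decide +kernel)) (p95 h).2.2.2.2.2.2.2.2 (by decide +kernel)) (p95 h).2.2.2.2.2.1.2.1 (by decide +kernel)) (ndF (ndF (ndF (ndF (ndF TOK.nil TOK.nil (p96 h).1.1.1.1.2.2.1 (by decide +kernel)) TOK.nil (p96 h).1.1.1.1.2.2.2 (by decide +kernel)) (ndF TOK.nil TOK.nil (p96 h).1.1.1.2.1.1.2 (by decide +kernel)) (p96 h).1.1.1.2.1.1.1 (by decide +kernel)) (ndF (ndF (ndF TOK.nil TOK.nil (p96 h).1.1.1.2.1.2.2 (by decide +kernel)) TOK.nil (p96 h).1.1.1.2.2.1.1 (by decide +kernel)) (ndF TOK.nil TOK.nil (p96 h).1.1.1.2.2.2.1 (by decide +kernel)) (p96 h).1.1.1.2.2.1.2 (by decide +kernel)) (p96 h).1.1.1.2.1.2.1 (by decide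 +kernel)) (ndF (ndF (ndF (ndF TOK.nil TOK.nil (p96 h).1.1.2.1.1.1 (by decide +kernel)) TOK.nil (p96 h).1.1.2.1.1.2.1 (by decide +kernel)) (ndF TOK.nil TOK.nil (p96 h).1.1.2.1.2.1.1 (by decide +kernel)) (p96 h).1.1.2.1.1.2.2 (by decide +kernel)) (ndF (ndF TOK.nil TOK.nil (p96 h).1.1.2.1.2.2.1 (by decide +kernel)) (ndF TOK.nil TOK.nil (p96 h).1.1.2.2.1.1.1 (by decide +kernel)) (p96 h).1.1.2.1.2.2.2 (by decide +kernel)) (p96 h).1.1.2.1.2.1.2 (by decide +kernel)) (p96 h).1.1.1.2.2.2.2 (by decide +kernel)) (p96 h).1.1.1.1.2.1.2 (by decide +kernel))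

theorem R_120_200_ok (h : RcOK RE.rowE) : R_120_200.OK :=
  okF (by decide +kernel) (ndF (ndF (ndF (ndF (ndF (ndF TOK.nil TOK.nil (p96 h).1.1.2.2.1.1.2 (by decide +kernel)) TOK.nil (p96 h).1.1.2.2.1.2.1 (by decide +kernel)) (ndF (ndF TOK.nil TOK.nil (p96 h).1.1.2.2.2.1.1 (by decide +kernel)) TOK.nil (p96 h).1.1.2.2.2.1.2 (by decide +kernel)) (p96 h).1.1.2.2.1.2.2 (by decide +kernel)) (ndF (ndF (ndF TOK.nil TOK.nil (p96 h).1.1.2.2.2.2.2 (by decide +kernel)) TOK.nil (p96 h).1.2.1.1.1.1 (by decide +kernel)) (ndF (ndF TOK.nil TOK.nil (p96 h).1.2.1.1.1.2.2 (by decide +kernel)) TOK.nil (p96 h).1.2.1.1.2.1.1 (by decide +kernel)) (p96 h).1.2.1.1.1.2.1 (by decide +kernel)) (p96 h).1.1.2.2.2.2.1 (by decide +kernel)) (ndF (ndF (ndF (ndF TOK.nil TOK.nil (p96 h).1.2.1.1.2.2.1 (by decide +kernel)) TOK.nil (p96 h).1.2.1.1.2.2.2 (by decide +kernel))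 (ndF (ndF TOK.nil TOK.nil (p96 h).1.2.1.2.1.1.2 (by decide +kernel)) TOK.nil (p96 h).1.2.1.2.1.2.1 (by decide +kernel)) (p96 h).1.2.1.2.1.1.1 (by decide +kernel)) (ndF (ndF (ndF TOK.nil TOK.nil (p96 h).1.2.1.2.2.1.1 (by decide +kernel)) TOK.nil (p96 h).1.2.1.2.2.1.2 (by decide +kernel)) (ndF (ndF TOK.nil TOK.nil (p96 h).1.2.1.2.2.2.2 (by decide +kernel)) TOK.nil (p96 h).1.2.2.1.1.1.1 (by decide +kernel)) (p96 h).1.2.1.2.2.2.1 (by decide +kernel)) (p96 h).1.2.1.2.1.2.2 (by decide +kernel)) (p96 h).1.2.1.1.2.1.2 (by decide +kernel)) (ndF (ndF (ndF (ndF (ndF TOK.nil TOK.nil (p96 h).1.2.2.1.1.2.1 (by decide +kernel)) TOK.nil (p96 h).1.2.2.1.1.2.2 (by decide +kernel)) (ndF (ndF TOK.nil TOK.nil (p96 h).1.2.2.1.2.1.2 (by decide +kernel)) TOK.nil (p96 h).1.2.2.1.2.2.1 (by decide +kernel)) (p96 h).1.2.2.1.2.1.1 (by decide +kernel)) (ndF (ndF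 (ndF TOK.nil TOK.nil (p96 h).1.2.2.2.1.1.1 (by decide +kernel)) TOK.nil (p96 h).1.2.2.2.1.1.2 (by decide +kernel)) (ndF (ndF TOK.nil TOK.nil (p96 h).1.2.2.2.1.2.2 (by decide +kernel)) TOK.nil (p96 h).1.2.2.2.2.1.1 (by decide +kernel)) (p96 h).1.2.2.2.1.2.1 (by decide +kernel)) (p96 h).1.2.2.1.2.2.2 (by decide +kernel)) (ndF (ndF (ndF (ndF TOK.nil TOK.nil (p96 h).1.2.2.2.2.2.1 (by decide +kernel)) TOK.nil (p96 h).1.2.2.2.2.2.2 (by decide +kernel)) (ndF (ndF TOK.nil TOK.nil (p96 h).2.1.1.1.1.2.1 (by decide +kernel)) TOK.nil (p96 h).2.1.1.1.1.2.2 (by decide +kernel)) (p96 h).2.1.1.1.1.1 (by decide +kernel)) (ndF (ndF (ndF TOK.nil TOK.nil (p96 h).2.1.1.1.2.1.2 (by decide +kernel)) TOK.nil (p96 h).2.1.1.1.2.2.1 (by decide +kernel)) (ndF TOK.nil TOK.nil (p96 h).2.1.1.2.1.1.1 (by decide +kernel)) (p96 h).2.1.1.1.2.2.2 (by decide +kernel))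 (p96 h).2.1.1.1.2.1.1 (by decide +kernel)) (p96 h).1.2.2.2.2.1.2 (by decide +kernel)) (p96 h).1.2.2.1.1.1.2 (by decide +kernel))

theorem R_60_80_130_ok (h : RcOK RE.rowE) : R_60_80_130.OK :=
  okF (by decide +kernel) (ndF (ndF (ndF (ndF (ndF (ndF TOK.nil TOK.nil (p96 h).2.1.1.2.1.1.2 (by decide +kernel)) TOK.nil (p96 h).2.1.1.2.1.2.1 (by decide +kernel)) (ndF TOK.nil TOK.nil (p96 h).2.1.1.2.2.1.1 (by decide +kernel)) (p96 h).2.1.1.2.1.2.2 (by decide +kernel)) (ndF (ndF (ndF TOK.nil TOK.nil (p96 h).2.1.1.2.2.2.1 (by decide +kernel)) TOK.nil (p96 h).2.1.1.2.2.2.2 (by decide +kernel)) (ndF TOK.nil TOK.nil (p96 h).2.1.2.1.1.2.1 (by decide +kernel)) (p96 h).2.1.2.1.1.1 (by decide +kernel)) (p96 h).2.1.1.2.2.1.2 (by decide +kernel)) (ndF (ndF (ndF (ndF TOK.nil TOK.nil (p96 h).2.1.2.1.2.1.1 (by decide +kernel)) TOK.nil (p96 h).2.1.2.1.2.1.2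 (by decide +kernel)) (ndF TOK.nil TOK.nil (p96 h).2.1.2.1.2.2.2 (by decide +kernel)) (p96 h).2.1.2.1.2.2.1 (by decide +kernel)) (ndF (ndF (ndF TOK.nil TOK.nil (p96 h).2.1.2.2.1.1.2 (by decide +kernel)) TOK.nil (p96 h).2.1.2.2.1.2.1 (by decide +kernel)) (ndF TOK.nil TOK.nil (p96 h).2.1.2.2.2.1.1 (by decide +kernel)) (p96 h).2.1.2.2.1.2.2 (by decide +kernel)) (p96 h).2.1.2.2.1.1.1 (by decide +kernel)) (p96 h).2.1.2.1.1.2.2 (by decide +kernel)) (ndF (ndF (ndF (ndF (ndF TOK.nil TOK.nil (p96 h).2.1.2.2.2.2.1 (by decide +kernel)) TOK.nil (p96 h).2.1.2.2.2.2.2 (by decide +kernel)) (ndF TOK.nil TOK.nil (p96 h).2.2.1.1.1.2.1 (by decide +kernel)) (p96 h).2.2.1.1.1.1 (by decide +kernel)) (ndF (ndF (ndF TOK.nil TOK.nil (p96 h).2.2.1.1.2.1.1 (by decide +kernel)) TOK.nil (p96 h).2.2.1.1.2.1.2 (by decide +kernel)) (ndF TOK.nil TOK.nil (p96 h).2.2.1.1.2.2.2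 (by decide +kernel)) (p96 h).2.2.1.1.2.2.1 (by decide +kernel)) (p96 h).2.2.1.1.1.2.2 (by decide +kernel)) (ndF (ndF (ndF (ndF TOK.nil TOK.nil (p96 h).2.2.1.2.1.1.2 (by decide +kernel)) TOK.nil (p96 h).2.2.1.2.1.2.1 (by decide +kernel)) (ndF TOK.nil TOK.nil (p96 h).2.2.1.2.2.1.1 (by decide +kernel)) (p96 h).2.2.1.2.1.2.2 (by decide +kernel)) (ndF (ndF TOK.nil TOK.nil (p96 h).2.2.1.2.2.2.1 (by decide +kernel)) (ndF TOK.nil TOK.nil (p96 h).2.2.2.1.1.1.1 (by decide +kernel)) (p96 h).2.2.1.2.2.2.2 (by decide +kernel)) (p96 h).2.2.1.2.2.1.2 (by decide +kernel)) (p96 h).2.2.1.2.1.1.1 (by decide +kernel)) (p96 h).2.1.2.2.2.1.2 (by decide +kernel))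

theorem R_40_60_120_ok (h : RcOK RE.rowE) : R_40_60_120.OK :=
  okF (by decide +kernel) (ndF (ndF (ndF (ndF (ndF TOK.nil TOK.nil (p96 h).2.2.2.1.1.1.2 (by decide +kernel)) (ndF TOK.nil TOK.nil (p96 h).2.2.2.1.1.2.2 (by decide +kernel)) (p96 h).2.2.2.1.1.2.1 (by decide +kernel)) (ndF (ndF TOK.nil TOK.nil (p96 h).2.2.2.1.2.1.2 (by decide +kernel)) (ndF TOK.nil TOK.nil (p96 h).2.2.2.1.2.2.2 (by decide +kernel)) (p96 h).2.2.2.1.2.2.1 (by decide +kernel)) (p96 h).2.2.2.1.2.1.1 (by decide +kernel)) (ndF (ndF (ndF TOK.nil TOK.nil (p96 h).2.2.2.2.1.1.2 (by decide +kernel)) (ndF TOK.nil TOK.nil (p96 h).2.2.2.2.1.2.2 (by decide +kernel)) (p96 h).2.2.2.2.1.2.1 (by decide +kernel)) (ndF (ndF TOK.nil TOK.nil (p96 h).2.2.2.2.2.1.2 (by decide +kernel)) TOK.nil (p96 h).2.2.2.2.2.2.1 (by decide +kernel)) (p96 h).2.2.2.2.2.1.1 (by decide +kernel)) (p96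 h).2.2.2.2.1.1.1 (by decide +kernel)) (ndF (ndF (ndF (ndF TOK.nil TOK.nil (p97 h).1.1.1.1.1.1.1 (by decide +kernel)) (ndF TOK.nil TOK.nil (p97 h).1.1.1.1.1.2.1 (by decide +kernel)) (p97 h).1.1.1.1.1.1.2 (by decide +kernel)) (ndF (ndF TOK.nil TOK.nil (p97 h).1.1.1.1.2.1.1 (by decide +kernel)) TOK.nil (p97 h).1.1.1.1.2.1.2 (by decide +kernel)) (p97 h).1.1.1.1.1.2.2 (by decide +kernel)) (ndF (ndF (ndF TOK.nil TOK.nil (p97 h).1.1.1.1.2.2.2 (by decide +kernel)) (ndF TOK.nil TOK.nil (p97 h).1.1.1.2.1.1.2 (by decide +kernel)) (p97 h).1.1.1.2.1.1.1 (by decide +kernel)) (ndF (ndF TOK.nil TOK.nil (p97 h).1.1.1.2.1.2.2 (by decide +kernel)) TOK.nil (p97 h).1.1.1.2.2.1.1 (by decide +kernel)) (p97 h).1.1.1.2.1.2.1 (by decide +kernel)) (p97 h).1.1.1.1.2.2.1 (by decide +kernel)) (p96 h).2.2.2.2.2.2.2 (by decide +kernel))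

theorem R_110_130_ok (h : RcOK RE.rowE) : R_110_130.OK :=
  okF (by decide +kernel) (ndF (ndF (ndF (ndF TOK.nil TOK.nil (p97 h).1.1.1.2.2.1.2 (by decide +kernel)) (ndF TOK.nil TOK.nil (p97 h).1.1.1.2.2.2.2.1 (by decide +kernel)) (p97 h).1.1.1.2.2.2.1 (by decide +kernel)) (ndF (ndF TOK.nil TOK.nil (p97 h).1.1.2.1.1.1.1 (by decide +kernel)) TOK.nil (p97 h).1.1.2.1.1.1.2 (by decide +kernel)) (p97 h).1.1.1.2.2.2.2.2 (by decide +kernel)) (ndF (ndF (ndF TOK.nil TOK.nil (p97 h).1.1.2.1.1.2.2 (by decide +kernel)) TOK.nil (p97 h).1.1.2.1.2.1.1 (by decide +kernel)) (ndF (ndF TOK.nil TOK.nil (p97 h).1.1.2.1.2.2.1 (by decide +kernel)) TOK.nil (p97 h).1.1.2.1.2.2.2.1 (by decide +kernel)) (p97 h).1.1.2.1.2.1.2 (by decide +kernel)) (p97 h).1.1.2.1.1.2.1 (by decide +kernel))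

theorem R_100_110_130_ok (h : RcOK RE.rowE) : R_100_110_130.OK :=
  okF (by decide +kernel) (ndF (ndF (ndF (ndF TOK.nil TOK.nil (p97 h).1.1.2.1.2.2.2.2 (by decide +kernel)) (ndF TOK.nil TOK.nil (p97 h).1.1.2.2.1.1.2 (by decide +kernel)) (p97 h).1.1.2.2.1.1.1 (by decide +kernel)) (ndF (ndF TOK.nil TOK.nil (p97 h).1.1.2.2.1.2.2 (by decide +kernel)) TOK.nil (p97 h).1.1.2.2.2.1.1 (by decide +kernel)) (p97 h).1.1.2.2.1.2.1 (by decide +kernel)) (ndF (ndF (ndF TOK.nil TOK.nil (p97 h).1.1.2.2.2.2.1 (by decide +kernel)) TOK.nil (p97 h).1.1.2.2.2.2.2.1 (by decide +kernel)) (ndF (ndF TOK.nil TOK.nil (p97 h).1.2.1.1.1.1.1 (by decide +kernel)) TOK.nil (p97 h).1.2.1.1.1.1.2 (by decide +kernel)) (p97 h).1.1.2.2.2.2.2.2 (by decide +kernel)) (p97 h).1.1.2.2.2.1.2 (by decide +kernel))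

theorem R_40_50_70_ok (h : RcOK RE.rowE) : R_40_50_70.OK :=
  okF (by decide +kernel) (ndF (ndF (ndF (ndF (ndF TOK.nil TOK.nil (p97 h).1.2.1.1.1.2.1 (by decide +kernel)) (ndF TOK.nil TOK.nil (p97 h).1.2.1.1.2.1.1 (by decide +kernel)) (p97 h).1.2.1.1.1.2.2 (by decide +kernel)) (ndF (ndF TOK.nil TOK.nil (p97 h).1.2.1.1.2.2.1 (by decide +kernel)) (ndF TOK.nil TOK.nil (p97 h).1.2.1.1.2.2.2.2 (by decide +kernel)) (p97 h).1.2.1.1.2.2.2.1 (by decide +kernel)) (p97 h).1.2.1.1.2.1.2 (by decide +kernel)) (ndF (ndF (ndF TOK.nil TOK.nil (p97 h).1.2.1.2.1.1.2 (by decide +kernel)) (ndF TOK.nil TOK.nil (p97 h).1.2.1.2.1.2.2 (by decide +kernel)) (p97 h).1.2.1.2.1.2.1 (by decide +kernel)) (ndF (ndF TOK.nil TOK.nil (p97 h).1.2.1.2.2.1.2 (by decide +kernel)) TOK.nil (p97 h).1.2.1.2.2.2.1 (by decide +kernel)) (p97 h).1.2.1.2.2.1.1 (by decide +kernel))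 (p97 h).1.2.1.2.1.1.1 (by decide +kernel)) (ndF (ndF (ndF (ndF TOK.nil TOK.nil (p97 h).1.2.1.2.2.2.2.2 (by decide +kernel)) (ndF TOK.nil TOK.nil (p97 h).1.2.2.1.1.1.2 (by decide +kernel)) (p97 h).1.2.2.1.1.1.1 (by decide +kernel)) (ndF (ndF TOK.nil TOK.nil (p97 h).1.2.2.1.1.2.2 (by decide +kernel)) TOK.nil (p97 h).1.2.2.1.2.1.1 (by decide +kernel)) (p97 h).1.2.2.1.1.2.1 (by decide +kernel)) (ndF (ndF (ndF TOK.nil TOK.nil (p97 h).1.2.2.1.2.2.1 (by decide +kernel)) (ndF TOK.nil TOK.nil (p97 h).1.2.2.1.2.2.2.2 (by decide +kernel)) (p97 h).1.2.2.1.2.2.2.1 (by decide +kernel)) (ndF (ndF TOK.nil TOK.nil (p97 h).1.2.2.2.1.1.2 (by decide +kernel)) TOK.nil (p97 h).1.2.2.2.1.2.1 (by decide +kernel)) (p97 h).1.2.2.2.1.1.1 (by decide +kernel)) (p97 h).1.2.2.1.2.1.2 (by decide +kernel)) (p97 h).1.2.1.2.2.2.2.1 (by decide +kernel))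

theorem R_30_50_70_110_ok (h : RcOK RE.rowE) : R_30_50_70_110.OK :=
  okF (by decide +kernel) (ndF (ndF (ndF (ndF (ndF TOK.nil TOK.nil (p97 h).1.2.2.2.1.2.2 (by decide +kernel)) TOK.nil (p97 h).1.2.2.2.2.1.1 (by decide +kernel)) (ndF TOK.nil TOK.nil (p97 h).1.2.2.2.2.2.1 (by decide +kernel)) (p97 h).1.2.2.2.2.1.2 (by decide +kernel)) (ndF (ndF (ndF TOK.nil TOK.nil (p97 h).1.2.2.2.2.2.2.2 (by decide +kernel)) TOK.nil (p97 h).2.1.1.1.1.1.1 (by decide +kernel)) (ndF TOK.nil TOK.nil (p97 h).2.1.1.1.1.2.1 (by decide +kernel)) (p97 h).2.1.1.1.1.1.2 (by decide +kernel)) (p97 h).1.2.2.2.2.2.2.1 (by decide +kernel)) (ndF (ndF (ndF (ndF TOK.nil TOK.nil (p97 h).2.1.1.1.2.1.1 (by decide +kernel)) TOK.nil (p97 h).2.1.1.1.2.1.2 (by decide +kernel)) (ndF TOK.nil TOK.nil (p97 h).2.1.1.1.2.2.2 (by decide +kernel)) (p97 h).2.1.1.1.2.2.1 (by decide +kernel))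 (ndF (ndF TOK.nil TOK.nil (p97 h).2.1.1.2.1.1.2 (by decide +kernel)) (ndF TOK.nil TOK.nil (p97 h).2.1.1.2.1.2.2 (by decide +kernel)) (p97 h).2.1.1.2.1.2.1 (by decide +kernel)) (p97 h).2.1.1.2.1.1.1 (by decide +kernel)) (p97 h).2.1.1.1.1.2.2 (by decide +kernel))

theorem R_60_70_90_120_ok (h : RcOK RE.rowE) : R_60_70_90_120.OK :=
  okF (by decide +kernel) (ndF (ndF (ndF (ndF (ndF TOK.nil TOK.nil (p97 h).2.1.1.2.2.1.1 (by decide +kernel)) TOK.nil (p97 h).2.1.1.2.2.1.2 (by decide +kernel)) (ndF (ndF TOK.nil TOK.nil (p97 h).2.1.1.2.2.2.2.1 (by decide +kernel)) TOK.nil (p97 h).2.1.1.2.2.2.2.2 (by decide +kernel)) (p97 h).2.1.1.2.2.2.1 (by decide +kernel)) (ndF (ndF (ndF TOK.nil TOK.nil (p97 h).2.1.2.1.1.1.2 (by decide +kernel)) TOK.nil (p97 h).2.1.2.1.1.2.1 (by decide +kernel)) (ndF (ndF TOK.nil TOK.nil (p97 h).2.1.2.1.2.1.1 (by decide +kernel))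 TOK.nil (p97 h).2.1.2.1.2.1.2 (by decide +kernel)) (p97 h).2.1.2.1.1.2.2 (by decide +kernel)) (p97 h).2.1.2.1.1.1.1 (by decide +kernel)) (ndF (ndF (ndF (ndF TOK.nil TOK.nil (p97 h).2.1.2.1.2.2.2.1 (by decide +kernel)) TOK.nil (p97 h).2.1.2.1.2.2.2.2 (by decide +kernel)) (ndF (ndF TOK.nil TOK.nil (p97 h).2.1.2.2.1.1.2 (by decide +kernel)) TOK.nil (p97 h).2.1.2.2.1.2.1 (by decide +kernel)) (p97 h).2.1.2.2.1.1.1 (by decide +kernel)) (ndF (ndF (ndF TOK.nil TOK.nil (p97 h).2.1.2.2.2.1.1 (by decide +kernel)) TOK.nil (p97 h).2.1.2.2.2.1.2 (by decide +kernel)) (ndF (ndF TOK.nil TOK.nil (p97 h).2.1.2.2.2.2.2.1 (by decide +kernel)) TOK.nil (p97 h).2.1.2.2.2.2.2.2 (by decide +kernel)) (p97 h).2.1.2.2.2.2.1 (by decide +kernel)) (p97 h).2.1.2.2.1.2.2 (by decide +kernel)) (p97 h).2.1.2.1.2.2.1 (by decide +kernel))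

theorem R_60_80_100_130_140_ok (h : RcOK RE.rowE) : R_60_80_100_130_140.OK :=
  okF (by decide +kernel) (ndF (ndF (ndF (ndF TOK.nil TOK.nil (p97 h).2.2.1.1.1.1.1 (by decide +kernel)) TOK.nil (p97 h).2.2.1.1.1.1.2 (by decide +kernel)) (ndF (ndF TOK.nil TOK.nil (p97 h).2.2.1.1.1.2.2 (by decide +kernel)) TOK.nil (p97 h).2.2.1.1.2.1.1 (by decide +kernel)) (p97 h).2.2.1.1.1.2.1 (by decide +kernel)) (ndF (ndF (ndF TOK.nil TOK.nil (p97 h).2.2.1.1.2.2.1 (by decide +kernel)) TOK.nil (p97 h).2.2.1.1.2.2.2.1 (by decide +kernel)) (ndF TOK.nil TOK.nil (p97 h).2.2.1.2.1.1.1 (by decide +kernel)) (p97 h).2.2.1.1.2.2.2.2 (by decide +kernel)) (p97 h).2.2.1.1.2.1.2 (by decide +kernel))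

theorem R_70_90_130_ok (h : RcOK RE.rowE) : R_70_90_130.OK :=
  okF (by decide +kernel) (ndF (ndF (ndF (ndF (ndF TOK.nil TOK.nil (p97 h).2.2.1.2.1.1.2 (by decide +kernel)) (ndF TOK.nil TOK.nil (p97 h).2.2.1.2.1.2.2 (by decide +kernel)) (p97 h).2.2.1.2.1.2.1 (by decide +kernel)) (ndF (ndF TOK.nil TOK.nil (p97 h).2.2.1.2.2.1.2 (by decide +kernel)) TOK.nil (p97 h).2.2.1.2.2.2.1 (by decide +kernel)) (p97 h).2.2.1.2.2.1.1 (by decide +kernel)) (ndF (ndF (ndF TOK.nil TOK.nil (p97 h).2.2.1.2.2.2.2.2 (by decide +kernel)) (ndF TOK.nil TOK.nil (p97 h).2.2.2.1.1.1.2 (by decide +kernel)) (p97 h).2.2.2.1.1.1.1 (by decide +kernel)) (ndF (ndF TOK.nil TOK.nil (p97 h).2.2.2.1.1.2.2 (by decide +kernel)) TOK.nil (p97 h).2.2.2.1.2.1.1 (by decide +kernel)) (p97 h).2.2.2.1.1.2.1 (by decide +kernel)) (p97 h).2.2.1.2.2.2.2.1 (by decide +kernel)) (ndF (ndF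 (ndF (ndF TOK.nil TOK.nil (p97 h).2.2.2.1.2.2.1 (by decide +kernel)) (ndF TOK.nil TOK.nil (p97 h).2.2.2.1.2.2.2.2 (by decide +kernel)) (p97 h).2.2.2.1.2.2.2.1 (by decide +kernel)) (ndF (ndF TOK.nil TOK.nil (p97 h).2.2.2.2.1.1.2 (by decide +kernel)) TOK.nil (p97 h).2.2.2.2.1.2.1 (by decide +kernel)) (p97 h).2.2.2.2.1.1.1 (by decide +kernel)) (ndF (ndF (ndF TOK.nil TOK.nil (p97 h).2.2.2.2.2.1.1 (by decide +kernel)) (ndF TOK.nil TOK.nil (p97 h).2.2.2.2.2.2.1 (by decide +kernel)) (p97 h).2.2.2.2.2.1.2 (by decide +kernel)) (ndF (ndF TOK.nil TOK.nil (p97 h).2.2.2.2.2.2.2.2 (by decide +kernel)) TOK.nil (p98 h).1.1.1.1.1.1.1 (by decide +kernel)) (p97 h).2.2.2.2.2.2.2.1 (by decide +kernel)) (p97 h).2.2.2.2.1.2.2 (by decide +kernel)) (p97 h).2.2.2.1.2.1.2 (by decide +kernel))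

theorem R_70_90_140_ok (h : RcOK RE.rowE) : R_70_90_140.OK :=
  okF (by decide +kernel) (ndF (ndF (ndF (ndF (ndF (ndF TOK.nil TOK.nil (p98 h).1.1.1.1.1.1.2.1 (by decide +kernel)) (ndF TOK.nil TOK.nil (p98 h).1.1.1.1.1.2.1.1 (by decide +kernel)) (p98 h).1.1.1.1.1.1.2.2 (by decide +kernel)) (ndF (ndF TOK.nil TOK.nil (p98 h).1.1.1.1.1.2.2.1 (by decide +kernel)) (ndF TOK.nil TOK.nil (p98 h).1.1.1.1.2.1.1 (by decide +kernel)) (p98 h).1.1.1.1.1.2.2.2 (by decide +kernel)) (p98 h).1.1.1.1.1.2.1.2 (by decide +kernel)) (ndF (ndF (ndF TOK.nil TOK.nil (p98 h).1.1.1.1.2.1.2.2 (by decide +kernel)) (ndF TOK.nil TOK.nil (p98 h).1.1.1.1.2.2.1.2 (by decide +kernel)) (p98 h).1.1.1.1.2.2.1.1 (by decide +kernel)) (ndF (ndF TOK.nil TOK.nil (p98 h).1.1.1.1.2.2.2.2 (by decide +kernel)) TOK.nil (p98 h).1.1.1.2.1.1.1 (by decide +kernel)) (p98 h).1.1.1.1.2.2.2.1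 (by decide +kernel)) (p98 h).1.1.1.1.2.1.2.1 (by decide +kernel)) (ndF (ndF (ndF (ndF TOK.nil TOK.nil (p98 h).1.1.1.2.1.1.2.2 (by decide +kernel)) (ndF TOK.nil TOK.nil (p98 h).1.1.1.2.1.2.1.2 (by decide +kernel)) (p98 h).1.1.1.2.1.2.1.1 (by decide +kernel)) (ndF (ndF TOK.nil TOK.nil (p98 h).1.1.1.2.1.2.2.2 (by decide +kernel)) TOK.nil (p98 h).1.1.1.2.2.1.1 (by decide +kernel)) (p98 h).1.1.1.2.1.2.2.1 (by decide +kernel)) (ndF (ndF (ndF TOK.nil TOK.nil (p98 h).1.1.1.2.2.1.2.2 (by decide +kernel)) (ndF TOK.nil TOK.nil (p98 h).1.1.1.2.2.2.1.2 (by decide +kernel)) (p98 h).1.1.1.2.2.2.1.1 (by decide +kernel)) (ndF (ndF TOK.nil TOK.nil (p98 h).1.1.1.2.2.2.2.2 (by decide +kernel)) TOK.nil (p98 h).1.1.2.1.1.1.1 (by decide +kernel)) (p98 h).1.1.1.2.2.2.2.1 (by decide +kernel)) (p98 h).1.1.1.2.2.1.2.1 (by decide +kernel)) (p98 h).1.1.1.2.1.1.2.1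 (by decide +kernel)) (ndF (ndF (ndF (ndF (ndF TOK.nil TOK.nil (p98 h).1.1.2.1.1.1.2.2 (by decide +kernel)) (ndF TOK.nil TOK.nil (p98 h).1.1.2.1.1.2.1.2 (by decide +kernel)) (p98 h).1.1.2.1.1.2.1.1 (by decide +kernel)) (ndF (ndF TOK.nil TOK.nil (p98 h).1.1.2.1.1.2.2.2 (by decide +kernel)) TOK.nil (p98 h).1.1.2.1.2.1.1 (by decide +kernel)) (p98 h).1.1.2.1.1.2.2.1 (by decide +kernel)) (ndF (ndF (ndF TOK.nil TOK.nil (p98 h).1.1.2.1.2.1.2.2 (by decide +kernel)) (ndF TOK.nil TOK.nil (p98 h).1.1.2.1.2.2.1.2 (by decide +kernel)) (p98 h).1.1.2.1.2.2.1.1 (by decide +kernel)) (ndF (ndF TOK.nil TOK.nil (p98 h).1.1.2.1.2.2.2.2 (by decide +kernel)) TOK.nil (p98 h).1.1.2.2.1.1.1 (by decide +kernel)) (p98 h).1.1.2.1.2.2.2.1 (by decide +kernel)) (p98 h).1.1.2.1.2.1.2.1 (by decide +kernel)) (ndF (ndF (ndF (ndF TOK.nil TOK.nil (p98 h).1.1.2.2.1.1.2.2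 (by decide +kernel)) (ndF TOK.nil TOK.nil (p98 h).1.1.2.2.1.2.1.2 (by decide +kernel)) (p98 h).1.1.2.2.1.2.1.1 (by decide +kernel)) (ndF (ndF TOK.nil TOK.nil (p98 h).1.1.2.2.1.2.2.2 (by decide +kernel)) TOK.nil (p98 h).1.1.2.2.2.1.1.1 (by decide +kernel)) (p98 h).1.1.2.2.1.2.2.1 (by decide +kernel)) (ndF (ndF (ndF TOK.nil TOK.nil (p98 h).1.1.2.2.2.1.2.1 (by decide +kernel)) (ndF TOK.nil TOK.nil (p98 h).1.1.2.2.2.2.1.1 (by decide +kernel)) (p98 h).1.1.2.2.2.1.2.2 (by decide +kernel)) (ndF (ndF TOK.nil TOK.nil (p98 h).1.1.2.2.2.2.2.1 (by decide +kernel)) TOK.nil (p98 h).1.1.2.2.2.2.2.2 (by decide +kernel)) (p98 h).1.1.2.2.2.2.1.2 (by decide +kernel)) (p98 h).1.1.2.2.2.1.1.2 (by decide +kernel)) (p98 h).1.1.2.2.1.1.2.1 (by decide +kernel)) (p98 h).1.1.2.1.1.1.2.1 (by decide +kernel))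

theorem R_90_100_120_ok (h : RcOK RE.rowE) : R_90_100_120.OK :=
  okF (by decide +kernel) (ndF (ndF (ndF (ndF TOK.nil TOK.nil (p98 h).1.2.1.1.1.1.1 (by decide +kernel)) TOK.nil (p98 h).1.2.1.1.1.1.2.1 (by decide +kernel)) (ndF TOK.nil TOK.nil (p98 h).1.2.1.1.1.2.1.1 (by decide +kernel)) (p98 h).1.2.1.1.1.1.2.2 (by decide +kernel)) (ndF (ndF TOK.nil TOK.nil (p98 h).1.2.1.1.1.2.2.1 (by decide +kernel)) (ndF TOK.nil TOK.nil (p98 h).1.2.1.1.2.1.1 (by decide +kernel)) (p98 h).1.2.1.1.1.2.2.2 (by decide +kernel)) (p98 h).1.2.1.1.1.2.1.2 (by decide +kernel))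

theorem R_110_120_130_ok (h : RcOK RE.rowE) : R_110_120_130.OK :=
  okF (by decide +kernel) (ndF (ndF (ndF (ndF TOK.nil TOK.nil (p98 h).1.2.1.1.2.1.2.1 (by decide +kernel)) TOK.nil (p98 h).1.2.1.1.2.1.2.2 (by decide +kernel)) (ndF TOK.nil TOK.nil (p98 h).1.2.1.1.2.2.1.2 (by decide +kernel)) (p98 h).1.2.1.1.2.2.1.1 (by decide +kernel)) (ndF (ndF TOK.nil TOK.nil (p98 h).1.2.1.1.2.2.2.2 (by decide +kernel)) (ndF TOK.nil TOK.nil (p98 h).1.2.1.2.1.1.2.1 (by decide +kernel)) (p98 h).1.2.1.2.1.1.1 (by decide +kernel)) (p98 h).1.2.1.1.2.2.2.1 (by decide +kernel))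

theorem T_17_34_ok (h : RcOK RE.rowE) : T_17_34.OK :=
  okF (by decide +kernel) (ndF (ndF (ndF (ndF (ndF TOK.nil TOK.nil (p98 h).1.2.1.2.1.1.2.2 (by decide +kernel)) (ndF TOK.nil TOK.nil (p98 h).1.2.1.2.1.2.1.2 (by decide +kernel)) (p98 h).1.2.1.2.1.2.1.1 (by decide +kernel)) (ndF (ndF TOK.nil TOK.nil (p98 h).1.2.1.2.1.2.2.2 (by decide +kernel)) TOK.nil (p98 h).1.2.1.2.2.1.1 (by decide +kernel)) (p98 h).1.2.1.2.1.2.2.1 (by decide +kernel)) (ndF (ndF (ndF TOK.nil TOK.nil (p98 h).1.2.1.2.2.1.2.2 (by decide +kernel)) (ndF TOK.nil TOK.nil (p98 h).1.2.1.2.2.2.1.2 (by decide +kernel)) (p98 h).1.2.1.2.2.2.1.1 (by decide +kernel)) (ndF (ndF TOK.nil TOK.nil (p98 h).1.2.1.2.2.2.2.2 (by decide +kernel)) TOK.nil (p98 h).1.2.2.1.1.1.1 (by decide +kernel)) (p98 h).1.2.1.2.2.2.2.1 (by decide +kernel)) (p98 h).1.2.1.2.2.1.2.1 (by decide +kernel))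 (ndF (ndF (ndF (ndF TOK.nil TOK.nil (p98 h).1.2.2.1.1.1.2.2 (by decide +kernel)) (ndF TOK.nil TOK.nil (p98 h).1.2.2.1.1.2.1.2 (by decide +kernel)) (p98 h).1.2.2.1.1.2.1.1 (by decide +kernel)) (ndF (ndF TOK.nil TOK.nil (p98 h).1.2.2.1.1.2.2.2 (by decide +kernel)) TOK.nil (p98 h).1.2.2.1.2.1.1 (by decide +kernel)) (p98 h).1.2.2.1.1.2.2.1 (by decide +kernel)) (ndF (ndF (ndF TOK.nil TOK.nil (p98 h).1.2.2.1.2.1.2.2 (by decide +kernel)) TOK.nil (p98 h).1.2.2.1.2.2.1.1 (by decide +kernel)) (ndF (ndF TOK.nil TOK.nil (p98 h).1.2.2.1.2.2.2.1 (by decide +kernel)) TOK.nil (p98 h).1.2.2.1.2.2.2.2 (by decide +kernel)) (p98 h).1.2.2.1.2.2.1.2 (by decide +kernel)) (p98 h).1.2.2.1.2.1.2.1 (by decide +kernel)) (p98 h).1.2.2.1.1.1.2.1 (by decide +kernel))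

theorem R_30_50_70_90_ok (h : RcOK RE.rowE) : R_30_50_70_90.OK :=
  okF (by decide +kernel) (ndF (ndF (ndF (ndF (ndF TOK.nil TOK.nil (p98 h).1.2.2.2.1.1.1 (by decide +kernel)) TOK.nil (p98 h).1.2.2.2.1.1.2.1 (by decide +kernel)) (ndF TOK.nil TOK.nil (p98 h).1.2.2.2.1.2.1.1 (by decide +kernel)) (p98 h).1.2.2.2.1.1.2.2 (by decide +kernel)) (ndF (ndF (ndF TOK.nil TOK.nil (p98 h).1.2.2.2.1.2.2.1 (by decide +kernel)) TOK.nil (p98 h).1.2.2.2.1.2.2.2 (by decide +kernel)) (ndF TOK.nil TOK.nil (p98 h).1.2.2.2.2.1.1.2 (by decide +kernel)) (p98 h).1.2.2.2.2.1.1.1 (by decide +kernel)) (p98 h).1.2.2.2.1.2.1.2 (by decide +kernel)) (ndF (ndF (ndF (ndF TOK.nil TOK.nil (p98 h).1.2.2.2.2.1.2.2 (by decide +kernel)) TOK.nil (p98 h).1.2.2.2.2.2.1.1 (by decide +kernel)) (ndF TOK.nil TOK.nil (p98 h).1.2.2.2.2.2.2.1 (by decide +kernel)) (p98 h).1.2.2.2.2.2.1.2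 (by decide +kernel)) (ndF (ndF TOK.nil TOK.nil (p98 h).2.1.1.1.1.1.1 (by decide +kernel)) (ndF TOK.nil TOK.nil (p98 h).2.1.1.1.1.1.2.2 (by decide +kernel)) (p98 h).2.1.1.1.1.1.2.1 (by decide +kernel)) (p98 h).1.2.2.2.2.2.2.2 (by decide +kernel)) (p98 h).1.2.2.2.2.1.2.1 (by decide +kernel))

theorem R_30_60_80_100_ok (h : RcOK RE.rowE) : R_30_60_80_100.OK :=
  okF (by decide +kernel) (ndF (ndF (ndF (ndF (ndF TOK.nil TOK.nil (p98 h).2.1.1.1.1.2.1.1 (by decide +kernel)) (ndF TOK.nil TOK.nil (p98 h).2.1.1.1.1.2.2.1 (by decide +kernel)) (p98 h).2.1.1.1.1.2.1.2 (by decide +kernel)) (ndF (ndF TOK.nil TOK.nil (p98 h).2.1.1.1.2.1.1 (by decide +kernel)) (ndF TOK.nil TOK.nil (p98 h).2.1.1.1.2.1.2.2 (by decide +kernel)) (p98 h).2.1.1.1.2.1.2.1 (by decide +kernel)) (p98 h).2.1.1.1.1.2.2.2 (by decide +kernel)) (ndF (ndF (ndF TOK.nil TOK.nil (p98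 h).2.1.1.1.2.2.1.2 (by decide +kernel)) (ndF TOK.nil TOK.nil (p98 h).2.1.1.1.2.2.2.2 (by decide +kernel)) (p98 h).2.1.1.1.2.2.2.1 (by decide +kernel)) (ndF (ndF TOK.nil TOK.nil (p98 h).2.1.1.2.1.1.2.1 (by decide +kernel)) TOK.nil (p98 h).2.1.1.2.1.1.2.2 (by decide +kernel)) (p98 h).2.1.1.2.1.1.1 (by decide +kernel)) (p98 h).2.1.1.1.2.2.1.1 (by decide +kernel)) (ndF (ndF (ndF (ndF TOK.nil TOK.nil (p98 h).2.1.1.2.1.2.1.2 (by decide +kernel)) (ndF TOK.nil TOK.nil (p98 h).2.1.1.2.1.2.2.2 (by decide +kernel)) (p98 h).2.1.1.2.1.2.2.1 (by decide +kernel)) (ndF (ndF TOK.nil TOK.nil (p98 h).2.1.1.2.2.1.2.1 (by decide +kernel)) (ndF TOK.nil TOK.nil (p98 h).2.1.1.2.2.2.1.1 (by decide +kernel)) (p98 h).2.1.1.2.2.1.2.2 (by decide +kernel)) (p98 h).2.1.1.2.2.1.1 (by decide +kernel)) (ndF (ndF (ndF TOK.nil TOK.nil (p98 h).2.1.1.2.2.2.2.1 (by decide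 +kernel)) (ndF TOK.nil TOK.nil (p98 h).2.1.2.1.1.1.1 (by decide +kernel)) (p98 h).2.1.1.2.2.2.2.2 (by decide +kernel)) (ndF (ndF TOK.nil TOK.nil (p98 h).2.1.2.1.1.1.2.2 (by decide +kernel)) TOK.nil (p98 h).2.1.2.1.1.2.1.1 (by decide +kernel)) (p98 h).2.1.2.1.1.1.2.1 (by decide +kernel)) (p98 h).2.1.1.2.2.2.1.2 (by decide +kernel)) (p98 h).2.1.1.2.1.2.1.1 (by decide +kernel))

theorem R_70_90_120_ok (h : RcOK RE.rowE) : R_70_90_120.OK :=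
  okF (by decide +kernel) (ndF (ndF (ndF (ndF (ndF (ndF TOK.nil TOK.nil (p98 h).2.1.2.1.1.2.1.2 (by decide +kernel)) TOK.nil (p98 h).2.1.2.1.1.2.2.1 (by decide +kernel)) (ndF (ndF TOK.nil TOK.nil (p98 h).2.1.2.1.2.1.1 (by decide +kernel)) TOK.nil (p98 h).2.1.2.1.2.1.2.1 (by decide +kernel)) (p98 h).2.1.2.1.1.2.2.2 (by decide +kernel)) (ndF (ndF (ndF TOK.nil TOK.nil (p98 h).2.1.2.1.2.2.1.1 (by decide +kernel)) TOK.nil (p98 h).2.1.2.1.2.2.1.2 (by decide +kernel)) (ndF TOK.nil TOK.nil (p98 h).2.1.2.1.2.2.2.2 (by decide +kernel)) (p98 h).2.1.2.1.2.2.2.1 (by decide +kernel)) (p98 h).2.1.2.1.2.1.2.2 (by decide +kernel)) (ndF (ndF (ndF (ndF TOK.nil TOK.nil (p98 h).2.1.2.2.1.1.2.1 (by decide +kernel)) TOK.nil (p98 h).2.1.2.2.1.1.2.2 (by decide +kernel)) (ndF TOK.nil TOK.nil (p98 h).2.1.2.2.1.2.1.2 (by decide +kernel)) (p98 h).2.1.2.2.1.2.1.1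 (by decide +kernel)) (ndF (ndF (ndF TOK.nil TOK.nil (p98 h).2.1.2.2.1.2.2.2 (by decide +kernel)) TOK.nil (p98 h).2.1.2.2.2.1.1.1 (by decide +kernel)) (ndF TOK.nil TOK.nil (p98 h).2.1.2.2.2.1.2.1 (by decide +kernel)) (p98 h).2.1.2.2.2.1.1.2 (by decide +kernel)) (p98 h).2.1.2.2.1.2.2.1 (by decide +kernel)) (p98 h).2.1.2.2.1.1.1 (by decide +kernel)) (ndF (ndF (ndF (ndF (ndF TOK.nil TOK.nil (p98 h).2.1.2.2.2.2.1.1 (by decide +kernel)) TOK.nil (p98 h).2.1.2.2.2.2.1.2 (by decide +kernel)) (ndF TOK.nil TOK.nil (p98 h).2.1.2.2.2.2.2.2 (by decide +kernel)) (p98 h).2.1.2.2.2.2.2.1 (by decide +kernel)) (ndF (ndF (ndF TOK.nil TOK.nil (p98 h).2.2.1.1.1.1.2.1 (by decide +kernel)) TOK.nil (p98 h).2.2.1.1.1.1.2.2 (by decide +kernel)) (ndF TOK.nil TOK.nil (p98 h).2.2.1.1.1.2.1.2 (by decide +kernel)) (p98 h).2.2.1.1.1.2.1.1 (by decide +kernel)) (p98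 h).2.2.1.1.1.1.1 (by decide +kernel)) (ndF (ndF (ndF (ndF TOK.nil TOK.nil (p98 h).2.2.1.1.1.2.2.2 (by decide +kernel)) TOK.nil (p98 h).2.2.1.1.2.1.1 (by decide +kernel)) (ndF TOK.nil TOK.nil (p98 h).2.2.1.1.2.1.2.2 (by decide +kernel)) (p98 h).2.2.1.1.2.1.2.1 (by decide +kernel)) (ndF (ndF (ndF TOK.nil TOK.nil (p98 h).2.2.1.1.2.2.1.2 (by decide +kernel)) TOK.nil (p98 h).2.2.1.1.2.2.2.1 (by decide +kernel)) (ndF TOK.nil TOK.nil (p98 h).2.2.1.2.1.1.1 (by decide +kernel)) (p98 h).2.2.1.1.2.2.2.2 (by decide +kernel)) (p98 h).2.2.1.1.2.2.1.1 (by decide +kernel)) (p98 h).2.2.1.1.1.2.2.1 (by decide +kernel)) (p98 h).2.1.2.2.2.1.2.2 (by decide +kernel))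

theorem R_80_100_110_ok (h : RcOK RE.rowE) : R_80_100_110.OK :=
  okF (by decide +kernel) (ndF (ndF (ndF (ndF (ndF TOK.nil TOK.nil (p98 h).2.2.1.2.1.1.2.1 (by decide +kernel)) (ndF TOK.nil TOK.nil (p98 h).2.2.1.2.1.2.1.1 (by decide +kernel)) (p98 h).2.2.1.2.1.1.2.2 (by decide +kernel)) (ndF (ndF TOK.nil TOK.nil (p98 h).2.2.1.2.1.2.2.1 (by decide +kernel)) TOK.nil (p98 h).2.2.1.2.1.2.2.2 (by decide +kernel)) (p98 h).2.2.1.2.1.2.1.2 (by decide +kernel)) (ndF (ndF (ndF TOK.nil TOK.nil (p98 h).2.2.1.2.2.1.1.2 (by decide +kernel)) (ndF TOK.nil TOK.nil (p98 h).2.2.1.2.2.1.2.2 (by decide +kernel)) (p98 h).2.2.1.2.2.1.2.1 (by decide +kernel)) (ndF (ndF TOK.nil TOK.nil (p98 h).2.2.1.2.2.2.1.2 (by decide +kernel)) TOK.nil (p98 h).2.2.1.2.2.2.2.1 (by decide +kernel)) (p98 h).2.2.1.2.2.2.1.1 (by decide +kernel)) (p98 h).2.2.1.2.2.1.1.1 (by decide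 +kernel)) (ndF (ndF (ndF (ndF TOK.nil TOK.nil (p98 h).2.2.2.1.1.1.1 (by decide +kernel)) (ndF TOK.nil TOK.nil (p98 h).2.2.2.1.1.1.2.2 (by decide +kernel)) (p98 h).2.2.2.1.1.1.2.1 (by decide +kernel)) (ndF (ndF TOK.nil TOK.nil (p98 h).2.2.2.1.1.2.1.2 (by decide +kernel)) TOK.nil (p98 h).2.2.2.1.1.2.2.1 (by decide +kernel)) (p98 h).2.2.2.1.1.2.1.1 (by decide +kernel)) (ndF (ndF (ndF TOK.nil TOK.nil (p98 h).2.2.2.1.2.1.1 (by decide +kernel)) TOK.nil (p98 h).2.2.2.1.2.1.2.1 (by decide +kernel)) (ndF (ndF TOK.nil TOK.nil (p98 h).2.2.2.1.2.2.1.1 (by decide +kernel)) TOK.nil (p98 h).2.2.2.1.2.2.1.2 (by decide +kernel)) (p98 h).2.2.2.1.2.1.2.2 (by decide +kernel)) (p98 h).2.2.2.1.1.2.2.2 (by decide +kernel)) (p98 h).2.2.1.2.2.2.2.2 (by decide +kernel))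

theorem R_30_50_70_100_ok (h : RcOK RE.rowE) : R_30_50_70_100.OK :=
  okF (by decide +kernel) (ndF (ndF (ndF (ndF TOK.nil TOK.nil (p98 h).2.2.2.1.2.2.2.1 (by decide +kernel)) (ndF TOK.nil TOK.nil (p98 h).2.2.2.2.1.1.1 (by decide +kernel)) (p98 h).2.2.2.1.2.2.2.2 (by decide +kernel)) (ndF (ndF TOK.nil TOK.nil (p98 h).2.2.2.2.1.1.2.2 (by decide +kernel)) (ndF TOK.nil TOK.nil (p98 h).2.2.2.2.1.2.1.2 (by decide +kernel)) (p98 h).2.2.2.2.1.2.1.1 (by decide +kernel)) (p98 h).2.2.2.2.1.1.2.1 (by decide +kernel)) (ndF (ndF (ndF TOK.nil TOK.nil (p98 h).2.2.2.2.1.2.2.2 (by decide +kernel)) (ndF TOK.nil TOK.nil (p98 h).2.2.2.2.2.1.1.2 (by decide +kernel)) (p98 h).2.2.2.2.2.1.1.1 (by decide +kernel)) (ndF (ndF TOK.nil TOK.nil (p98 h).2.2.2.2.2.1.2.2 (by decide +kernel)) (ndF TOK.nil TOK.nil (p98 h).2.2.2.2.2.2.1.2 (by decide +kernel)) (p98 h).2.2.2.2.2.2.1.1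 (by decide +kernel)) (p98 h).2.2.2.2.2.1.2.1 (by decide +kernel)) (p98 h).2.2.2.2.1.2.2.1 (by decide +kernel))

theorem R_40_70_90_ok (h : RcOK RE.rowE) : R_40_70_90.OK :=
  okF (by decide +kernel) (ndF (ndF (ndF (ndF TOK.nil TOK.nil (p98 h).2.2.2.2.2.2.2.1 (by decide +kernel)) (ndF TOK.nil TOK.nil (p99 h).1.1.1.1.1.1.1 (by decide +kernel)) (p98 h).2.2.2.2.2.2.2.2 (by decide +kernel)) (ndF (ndF TOK.nil TOK.nil (p99 h).1.1.1.1.1.1.2.2 (by decide +kernel)) TOK.nil (p99 h).1.1.1.1.1.2.1 (by decide +kernel)) (p99 h).1.1.1.1.1.1.2.1 (by decide +kernel)) (ndF (ndF (ndF TOK.nil TOK.nil (p99 h).1.1.1.1.1.2.2.2 (by decide +kernel)) TOK.nil (p99 h).1.1.1.1.2.1.1 (by decide +kernel)) (ndF (ndF TOK.nil TOK.nil (p99 h).1.1.1.1.2.1.2.2 (by decide +kernel)) TOK.nil (p99 h).1.1.1.1.2.2.1.1 (by decide +kernel)) (p99 h).1.1.1.1.2.1.2.1 (by decide +kernel))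 (p99 h).1.1.1.1.1.2.2.1 (by decide +kernel))

theorem R_40_70_90_100_ok (h : RcOK RE.rowE) : R_40_70_90_100.OK :=
  okF (by decide +kernel) (ndF (ndF (ndF (ndF (ndF TOK.nil TOK.nil (p99 h).1.1.1.1.2.2.1.2 (by decide +kernel)) TOK.nil (p99 h).1.1.1.1.2.2.2.1 (by decide +kernel)) (ndF (ndF TOK.nil TOK.nil (p99 h).1.1.1.2.1.1.1 (by decide +kernel)) TOK.nil (p99 h).1.1.1.2.1.1.2.1 (by decide +kernel)) (p99 h).1.1.1.1.2.2.2.2 (by decide +kernel)) (ndF (ndF (ndF TOK.nil TOK.nil (p99 h).1.1.1.2.1.2.1.1 (by decide +kernel)) TOK.nil (p99 h).1.1.1.2.1.2.1.2 (by decide +kernel)) (ndF TOK.nil TOK.nil (p99 h).1.1.1.2.1.2.2.2 (by decide +kernel)) (p99 h).1.1.1.2.1.2.2.1 (by decide +kernel)) (p99 h).1.1.1.2.1.1.2.2 (by decide +kernel)) (ndF (ndF (ndF (ndF TOK.nil TOK.nil (p99 h).1.1.1.2.2.1.2.1 (by decide +kernel)) TOK.nil (p99 h).1.1.1.2.2.1.2.2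 (by decide +kernel)) (ndF (ndF TOK.nil TOK.nil (p99 h).1.1.1.2.2.2.1.2 (by decide +kernel)) TOK.nil (p99 h).1.1.1.2.2.2.2.1 (by decide +kernel)) (p99 h).1.1.1.2.2.2.1.1 (by decide +kernel)) (ndF (ndF (ndF TOK.nil TOK.nil (p99 h).1.1.2.1.1.1.1 (by decide +kernel)) TOK.nil (p99 h).1.1.2.1.1.1.2.1 (by decide +kernel)) (ndF TOK.nil TOK.nil (p99 h).1.1.2.1.1.2.1.1 (by decide +kernel)) (p99 h).1.1.2.1.1.1.2.2 (by decide +kernel)) (p99 h).1.1.1.2.2.2.2.2 (by decide +kernel)) (p99 h).1.1.1.2.2.1.1 (by decide +kernel))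

theorem R_50_70_ok (h : RcOK RE.rowE) : R_50_70.OK :=
  okF (by decide +kernel) (ndF (ndF (ndF (ndF TOK.nil TOK.nil (p99 h).1.1.2.1.1.2.1.2 (by decide +kernel)) TOK.nil (p99 h).1.1.2.1.1.2.2.1 (by decide +kernel)) (ndF TOK.nil TOK.nil (p99 h).1.1.2.1.2.1.1 (by decide +kernel)) (p99 h).1.1.2.1.1.2.2.2 (by decide +kernel)) (ndF (ndF (ndF TOK.nil TOK.nil (p99 h).1.1.2.1.2.1.2.2 (by decide +kernel)) TOK.nil (p99 h).1.1.2.1.2.2.1.1 (by decide +kernel)) (ndF TOK.nil TOK.nil (p99 h).1.1.2.1.2.2.2.1 (by decide +kernel)) (p99 h).1.1.2.1.2.2.1.2 (by decide +kernel)) (p99 h).1.1.2.1.2.1.2.1 (by decide +kernel))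

theorem R_90_110_120_ok (h : RcOK RE.rowE) : R_90_110_120.OK :=
  okF (by decide +kernel) (ndF (ndF (ndF (ndF (ndF TOK.nil TOK.nil (p99 h).1.1.2.1.2.2.2.2 (by decide +kernel)) (ndF TOK.nil TOK.nil (p99 h).1.1.2.2.1.1.2.1 (by decide +kernel)) (p99 h).1.1.2.2.1.1.1 (by decide +kernel)) (ndF (ndF TOK.nil TOK.nil (p99 h).1.1.2.2.1.2.1.1 (by decide +kernel)) (ndF TOK.nil TOK.nil (p99 h).1.1.2.2.1.2.2.1 (by decide +kernel)) (p99 h).1.1.2.2.1.2.1.2 (by decide +kernel)) (p99 h).1.1.2.2.1.1.2.2 (by decide +kernel)) (ndF (ndF (ndF TOK.nil TOK.nil (p99 h).1.1.2.2.2.1.1 (by decide +kernel)) (ndF TOK.nil TOK.nil (p99 h).1.1.2.2.2.1.2.2 (by decide +kernel)) (p99 h).1.1.2.2.2.1.2.1 (by decide +kernel)) (ndF (ndF TOK.nil TOK.nil (p99 h).1.1.2.2.2.2.1.2 (by decide +kernel)) TOK.nil (p99 h).1.1.2.2.2.2.2.1 (by decide +kernel)) (p99 h).1.1.2.2.2.2.1.1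 (by decide +kernel)) (p99 h).1.1.2.2.1.2.2.2 (by decide +kernel)) (ndF (ndF (ndF (ndF TOK.nil TOK.nil (p99 h).1.2.1.1.1.1.1 (by decide +kernel)) (ndF TOK.nil TOK.nil (p99 h).1.2.1.1.1.1.2.2 (by decide +kernel)) (p99 h).1.2.1.1.1.1.2.1 (by decide +kernel)) (ndF (ndF TOK.nil TOK.nil (p99 h).1.2.1.1.1.2.1.2 (by decide +kernel)) TOK.nil (p99 h).1.2.1.1.1.2.2.1 (by decide +kernel)) (p99 h).1.2.1.1.1.2.1.1 (by decide +kernel)) (ndF (ndF (ndF TOK.nil TOK.nil (p99 h).1.2.1.1.2.1.1 (by decide +kernel)) (ndF TOK.nil TOK.nil (p99 h).1.2.1.1.2.1.2.2 (by decide +kernel)) (p99 h).1.2.1.1.2.1.2.1 (by decide +kernel)) (ndF (ndF TOK.nil TOK.nil (p99 h).1.2.1.1.2.2.1.2 (by decide +kernel)) TOK.nil (p99 h).1.2.1.1.2.2.2.1 (by decide +kernel)) (p99 h).1.2.1.1.2.2.1.1 (by decide +kernel)) (p99 h).1.2.1.1.1.2.2.2 (by decide +kernel)) (p99 h).1.1.2.2.2.2.2.2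 (by decide +kernel))

theorem R_20_40_60_100_ok (h : RcOK RE.rowE) : R_20_40_60_100.OK :=
  okF (by decide +kernel) (ndF (ndF (ndF (ndF (ndF TOK.nil TOK.nil (p99 h).1.2.1.1.2.2.2.2 (by decide +kernel)) (ndF TOK.nil TOK.nil (p99 h).1.2.1.2.1.1.2.1 (by decide +kernel)) (p99 h).1.2.1.2.1.1.1 (by decide +kernel)) (ndF (ndF TOK.nil TOK.nil (p99 h).1.2.1.2.1.2.1.1 (by decide +kernel)) TOK.nil (p99 h).1.2.1.2.1.2.1.2 (by decide +kernel)) (p99 h).1.2.1.2.1.1.2.2 (by decide +kernel)) (ndF (ndF (ndF TOK.nil TOK.nil (p99 h).1.2.1.2.1.2.2.2 (by decide +kernel)) TOK.nil (p99 h).1.2.1.2.2.1.1 (by decide +kernel)) (ndF (ndF TOK.nil TOK.nil (p99 h).1.2.1.2.2.1.2.2 (by decide +kernel)) TOK.nil (p99 h).1.2.1.2.2.2.1.1 (by decide +kernel)) (p99 h).1.2.1.2.2.1.2.1 (by decide +kernel)) (p99 h).1.2.1.2.1.2.2.1 (by decide +kernel)) (ndF (ndF (ndF (ndF TOK.nil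 TOK.nil (p99 h).1.2.1.2.2.2.2.1 (by decide +kernel)) TOK.nil (p99 h).1.2.1.2.2.2.2.2 (by decide +kernel)) (ndF (ndF TOK.nil TOK.nil (p99 h).1.2.2.1.1.1.2.1 (by decide +kernel)) TOK.nil (p99 h).1.2.2.1.1.1.2.2 (by decide +kernel)) (p99 h).1.2.2.1.1.1.1 (by decide +kernel)) (ndF (ndF (ndF TOK.nil TOK.nil (p99 h).1.2.2.1.1.2.1.2 (by decide +kernel)) TOK.nil (p99 h).1.2.2.1.1.2.2.1 (by decide +kernel)) (ndF (ndF TOK.nil TOK.nil (p99 h).1.2.2.1.2.1.1 (by decide +kernel)) TOK.nil (p99 h).1.2.2.1.2.1.2.1 (by decide +kernel)) (p99 h).1.2.2.1.1.2.2.2 (by decide +kernel)) (p99 h).1.2.2.1.1.2.1.1 (by decide +kernel)) (p99 h).1.2.1.2.2.2.1.2 (by decide +kernel))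

theorem R_30_60_80_110_ok (h : RcOK RE.rowE) : R_30_60_80_110.OK :=
  okF (by decide +kernel) (ndF (ndF (ndF (ndF (ndF TOK.nil TOK.nil (p99 h).1.2.2.1.2.1.2.2 (by decide +kernel)) TOK.nil (p99 h).1.2.2.1.2.2.1.1 (by decide +kernel)) (ndF TOK.nil TOK.nil (p99 h).1.2.2.1.2.2.2.1 (by decide +kernel)) (p99 h).1.2.2.1.2.2.1.2 (by decide +kernel)) (ndF (ndF (ndF TOK.nil TOK.nil (p99 h).1.2.2.2.1.1.1 (by decide +kernel)) TOK.nil (p99 h).1.2.2.2.1.1.2.1 (by decide +kernel)) (ndF TOK.nil TOK.nil (p99 h).1.2.2.2.1.2.1.1 (by decide +kernel)) (p99 h).1.2.2.2.1.1.2.2 (by decide +kernel)) (p99 h).1.2.2.1.2.2.2.2 (by decide +kernel)) (ndF (ndF (ndF (ndF TOK.nil TOK.nil (p99 h).1.2.2.2.1.2.2.1 (by decide +kernel)) TOK.nil (p99 h).1.2.2.2.1.2.2.2 (by decide +kernel)) (ndF TOK.nil TOK.nil (p99 h).1.2.2.2.2.1.2.1 (by decide +kernel)) (p99 h).1.2.2.2.2.1.1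 (by decide +kernel)) (ndF (ndF TOK.nil TOK.nil (p99 h).1.2.2.2.2.2.1.1 (by decide +kernel)) (ndF TOK.nil TOK.nil (p99 h).1.2.2.2.2.2.2.1 (by decide +kernel)) (p99 h).1.2.2.2.2.2.1.2 (by decide +kernel)) (p99 h).1.2.2.2.2.1.2.2 (by decide +kernel)) (p99 h).1.2.2.2.1.2.1.2 (by decide +kernel))

theorem R_60_90_100_120_ok (h : RcOK RE.rowE) : R_60_90_100_120.OK :=
  okF (by decide +kernel) (ndF (ndF (ndF (ndF TOK.nil TOK.nil (p99 h).1.2.2.2.2.2.2.2 (by decide +kernel)) (ndF TOK.nil TOK.nil (p99 h).2.1.1.1.1.1.2.1 (by decide +kernel)) (p99 h).2.1.1.1.1.1.1 (by decide +kernel)) (ndF (ndF TOK.nil TOK.nil (p99 h).2.1.1.1.1.2.1.1 (by decide +kernel)) TOK.nil (p99 h).2.1.1.1.1.2.1.2 (by decide +kernel)) (p99 h).2.1.1.1.1.1.2.2 (by decide +kernel)) (ndF (ndF (ndF TOK.nil TOK.nil (p99 h).2.1.1.1.1.2.2.2 (by decide +kernel)) TOK.nil (p99 h).2.1.1.1.2.1.1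 (by decide +kernel)) (ndF (ndF TOK.nil TOK.nil (p99 h).2.1.1.1.2.1.2.2 (by decide +kernel)) TOK.nil (p99 h).2.1.1.1.2.2.1.1 (by decide +kernel)) (p99 h).2.1.1.1.2.1.2.1 (by decide +kernel)) (p99 h).2.1.1.1.1.2.2.1 (by decide +kernel))

theorem R_70_90_100_ok (h : RcOK RE.rowE) : R_70_90_100.OK :=
  okF (by decide +kernel) (ndF (ndF (ndF (ndF (ndF TOK.nil TOK.nil (p99 h).2.1.1.1.2.2.1.2 (by decide +kernel)) (ndF TOK.nil TOK.nil (p99 h).2.1.1.1.2.2.2.2 (by decide +kernel)) (p99 h).2.1.1.1.2.2.2.1 (by decide +kernel)) (ndF (ndF TOK.nil TOK.nil (p99 h).2.1.1.2.1.1.2.1 (by decide +kernel)) (ndF TOK.nil TOK.nil (p99 h).2.1.1.2.1.2.1.1 (by decide +kernel)) (p99 h).2.1.1.2.1.1.2.2 (by decide +kernel)) (p99 h).2.1.1.2.1.1.1 (by decide +kernel)) (ndF (ndF (ndF TOK.nil TOK.nil (p99 h).2.1.1.2.1.2.2.1 (by decide +kernel)) (ndF TOK.nil TOK.nil (p99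 h).2.1.1.2.2.1.1 (by decide +kernel)) (p99 h).2.1.1.2.1.2.2.2 (by decide +kernel)) (ndF (ndF TOK.nil TOK.nil (p99 h).2.1.1.2.2.1.2.2 (by decide +kernel)) (ndF TOK.nil TOK.nil (p99 h).2.1.1.2.2.2.1.2 (by decide +kernel)) (p99 h).2.1.1.2.2.2.1.1 (by decide +kernel)) (p99 h).2.1.1.2.2.1.2.1 (by decide +kernel)) (p99 h).2.1.1.2.1.2.1.2 (by decide +kernel)) (ndF (ndF (ndF (ndF TOK.nil TOK.nil (p99 h).2.1.1.2.2.2.2.2 (by decide +kernel)) (ndF TOK.nil TOK.nil (p99 h).2.1.2.1.1.1.2.1 (by decide +kernel)) (p99 h).2.1.2.1.1.1.1 (by decide +kernel)) (ndF (ndF TOK.nil TOK.nil (p99 h).2.1.2.1.1.2.1.1 (by decide +kernel)) (ndF TOK.nil TOK.nil (p99 h).2.1.2.1.1.2.2.1 (by decide +kernel)) (p99 h).2.1.2.1.1.2.1.2 (by decide +kernel)) (p99 h).2.1.2.1.1.1.2.2 (by decide +kernel)) (ndF (ndF (ndF TOK.nil TOK.nil (p99 h).2.1.2.1.2.1.1 (by decide +kernel))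 (ndF TOK.nil TOK.nil (p99 h).2.1.2.1.2.1.2.2 (by decide +kernel)) (p99 h).2.1.2.1.2.1.2.1 (by decide +kernel)) (ndF (ndF TOK.nil TOK.nil (p99 h).2.1.2.1.2.2.1.2 (by decide +kernel)) TOK.nil (p99 h).2.1.2.1.2.2.2.1 (by decide +kernel)) (p99 h).2.1.2.1.2.2.1.1 (by decide +kernel)) (p99 h).2.1.2.1.1.2.2.2 (by decide +kernel)) (p99 h).2.1.1.2.2.2.2.1 (by decide +kernel))

theorem R_30_50_70_120_ok (h : RcOK RE.rowE) : R_30_50_70_120.OK :=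
  okF (by decide +kernel) (ndF (ndF (ndF (ndF TOK.nil TOK.nil (p99 h).2.1.2.1.2.2.2.2 (by decide +kernel)) (ndF TOK.nil TOK.nil (p99 h).2.1.2.2.1.1.2.1 (by decide +kernel)) (p99 h).2.1.2.2.1.1.1 (by decide +kernel)) (ndF (ndF TOK.nil TOK.nil (p99 h).2.1.2.2.1.2.1.1 (by decide +kernel)) (ndF TOK.nil TOK.nil (p99 h).2.1.2.2.1.2.2.1 (by decide +kernel)) (p99 h).2.1.2.2.1.2.1.2 (by decide +kernel)) (p99 h).2.1.2.2.1.1.2.2 (by decide +kernel)) (ndF (ndF (ndF TOK.nil TOK.nil (p99 h).2.1.2.2.2.1.1 (by decide +kernel)) (ndF TOK.nil TOK.nil (p99 h).2.1.2.2.2.1.2.2 (by decide +kernel)) (p99 h).2.1.2.2.2.1.2.1 (by decide +kernel)) (ndF (ndF TOK.nil TOK.nil (p99 h).2.1.2.2.2.2.1.2 (by decide +kernel)) (ndF TOK.nil TOK.nil (p99 h).2.1.2.2.2.2.2.2 (by decide +kernel)) (p99 h).2.1.2.2.2.2.2.1 (by decide +kernel)) (p99 h).2.1.2.2.2.2.1.1 (by decide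 +kernel)) (p99 h).2.1.2.2.1.2.2.2 (by decide +kernel))

theorem R_70_80_100_ok (h : RcOK RE.rowE) : R_70_80_100.OK :=
  okF (by decide +kernel) (ndF (ndF (ndF (ndF (ndF (ndF TOK.nil TOK.nil (p99 h).2.2.1.1.1.1.1 (by decide +kernel)) TOK.nil (p99 h).2.2.1.1.1.1.2.1 (by decide +kernel)) (ndF TOK.nil TOK.nil (p99 h).2.2.1.1.1.2.1.1 (by decide +kernel)) (p99 h).2.2.1.1.1.1.2.2 (by decide +kernel)) (ndF (ndF TOK.nil TOK.nil (p99 h).2.2.1.1.1.2.2.1 (by decide +kernel)) (ndF TOK.nil TOK.nil (p99 h).2.2.1.1.2.1.1 (by decide +kernel)) (p99 h).2.2.1.1.1.2.2.2 (by decide +kernel)) (p99 h).2.2.1.1.1.2.1.2 (by decide +kernel)) (ndF (ndF (ndF TOK.nil TOK.nil (p99 h).2.2.1.1.2.1.2.2 (by decide +kernel)) (ndF TOK.nil TOK.nil (p99 h).2.2.1.1.2.2.1.2 (by decide +kernel)) (p99 h).2.2.1.1.2.2.1.1 (by decide +kernel)) (ndF (ndF TOK.nil TOK.nil (p99 h).2.2.1.1.2.2.2.2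 (by decide +kernel)) (ndF TOK.nil TOK.nil (p99 h).2.2.1.2.1.1.2.1 (by decide +kernel)) (p99 h).2.2.1.2.1.1.1 (by decide +kernel)) (p99 h).2.2.1.1.2.2.2.1 (by decide +kernel)) (p99 h).2.2.1.1.2.1.2.1 (by decide +kernel)) (ndF (ndF (ndF (ndF (ndF TOK.nil TOK.nil (p99 h).2.2.1.2.1.2.1.1 (by decide +kernel)) TOK.nil (p99 h).2.2.1.2.1.2.1.2 (by decide +kernel)) (ndF TOK.nil TOK.nil (p99 h).2.2.1.2.1.2.2.2 (by decide +kernel)) (p99 h).2.2.1.2.1.2.2.1 (by decide +kernel)) (ndF (ndF TOK.nil TOK.nil (p99 h).2.2.1.2.2.1.2.1 (by decide +kernel)) (ndF TOK.nil TOK.nil (p99 h).2.2.1.2.2.2.1.1 (by decide +kernel)) (p99 h).2.2.1.2.2.1.2.2 (by decide +kernel)) (p99 h).2.2.1.2.2.1.1 (by decide +kernel)) (ndF (ndF (ndF TOK.nil TOK.nil (p99 h).2.2.1.2.2.2.2.1 (by decide +kernel)) (ndF TOK.nil TOK.nil (p99 h).2.2.2.1.1.1.1 (by decide +kernel)) (p99 h).2.2.1.2.2.2.2.2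 (by decide +kernel)) (ndF (ndF TOK.nil TOK.nil (p99 h).2.2.2.1.1.1.2.2 (by decide +kernel)) (ndF TOK.nil TOK.nil (p99 h).2.2.2.1.1.2.1.2 (by decide +kernel)) (p99 h).2.2.2.1.1.2.1.1 (by decide +kernel)) (p99 h).2.2.2.1.1.1.2.1 (by decide +kernel)) (p99 h).2.2.1.2.2.2.1.2 (by decide +kernel)) (p99 h).2.2.1.2.1.1.2.2 (by decide +kernel))

theorem R_90_100_110_ok (h : RcOK RE.rowE) : R_90_100_110.OK :=
  okF (by decide +kernel) (ndF (ndF (ndF TOK.nil TOK.nil (p99 h).2.2.2.1.1.2.2.1 (by decide +kernel)) (ndF TOK.nil TOK.nil (p99 h).2.2.2.1.2.1.1 (by decide +kernel)) (p99 h).2.2.2.1.1.2.2.2 (by decide +kernel)) (ndF (ndF TOK.nil TOK.nil (p99 h).2.2.2.1.2.1.2.2 (by decide +kernel)) TOK.nil (p99 h).2.2.2.1.2.2.1.1 (by decide +kernel)) (p99 h).2.2.2.1.2.1.2.1 (by decide +kernel))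


end TB
end Pool.Agent.Lib.MP_6947cd_al
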