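import Pool.Agent.Lib.MP_6947cd_al.TB.P103
import Pool.Agent.Lib.MP_6947cd_al.TB.P104

/-!
Problem MP_6947cd_al (Chollet).  THE FAMILIES OF TABLES ARE CORRECT, part 27.
-/

set_option autoImplicit false
set_option maxHeartbeats 0
set_option maxRecDepth 100000
set_option linter.all false

namespace Pool.Agent.Lib.MP_6947cd_al
namespace TB

open Ent Ent.Pk Fr Fr.WT B1 PkA PkA.TF

theorem R_40_50_70_90_ok (h : RcOK RE.rowE) : R_40_50_70_90.OK :=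
  okF (by decide +kernel) (ndF (ndF (ndF (ndF (ndF TOK.nil TOK.nil (p103 h).1.2.1.1.2.2.1 (by decide +kernel)) TOK.nil (p103 h).1.2.1.1.2.2.2.1 (by decide +kernel)) (ndF TOK.nil TOK.nil (p103 h).1.2.1.2.1.1.1 (by decide +kernel)) (p103 h).1.2.1.1.2.2.2.2 (by decide +kernel)) (ndF (ndF (ndF TOK.nil TOK.nil (p103 h).1.2.1.2.1.1.2.2 (by decide +kernel)) TOK.nil (p103 h).1.2.1.2.1.2.1 (by decide +kernel)) (ndF TOK.nil TOK.nil (p103 h).1.2.1.2.1.2.2.2 (by decide +kernel)) (p103 h).1.2.1.2.1.2.2.1 (by decide +kernel)) (p103 h).1.2.1.2.1.1.2.1 (by decide +kernel)) (ndF (ndF (ndF (ndF TOK.nil TOK.nil (p103 h).1.2.1.2.2.1.2.1 (by decide +kernel)) TOK.nil (p103 h).1.2.1.2.2.1.2.2 (by decide +kernel)) (ndF TOK.nil TOK.nil (p103 h).1.2.1.2.2.2.1.2 (by decide +kernel)) (p103 h).1.2.1.2.2.2.1.1 (by decide +kernel)) (ndF (ndF TOK.nil TOK.nil (p103 h).1.2.1.2.2.2.2.2 (by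 decide +kernel)) (ndF TOK.nil TOK.nil (p103 h).1.2.2.1.1.1.2.1 (by decide +kernel)) (p103 h).1.2.2.1.1.1.1 (by decide +kernel)) (p103 h).1.2.1.2.2.2.2.1 (by decide +kernel)) (p103 h).1.2.1.2.2.1.1 (by decide +kernel))

theorem R_40_60_80_100_110_ok (h : RcOK RE.rowE) : R_40_60_80_100_110.OK :=
  okF (by decide +kernel) (ndF (ndF (ndF (ndF (ndF TOK.nil TOK.nil (p103 h).1.2.2.1.1.1.2.2 (by decide +kernel)) TOK.nil (p103 h).1.2.2.1.1.2.1 (by decide +kernel)) (ndF TOK.nil TOK.nil (p103 h).1.2.2.1.1.2.2.2 (by decide +kernel)) (p103 h).1.2.2.1.1.2.2.1 (by decide +kernel)) (ndF (ndF TOK.nil TOK.nil (p103 h).1.2.2.1.2.1.2.1 (by decide +kernel)) (ndF TOK.nil TOK.nil (p103 h).1.2.2.1.2.2.1.1 (by decide +kernel)) (p103 h).1.2.2.1.2.1.2.2 (by decide +kernel)) (p103 h).1.2.2.1.2.1.1 (by decide +kernel)) (ndF (ndF (ndF TOK.nil TOK.nil (p103 h).1.2.2.1.2.2.2.1 (by decide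 +kernel)) (ndF TOK.nil TOK.nil (p103 h).1.2.2.2.1.1.1 (by decide +kernel)) (p103 h).1.2.2.1.2.2.2.2 (by decide +kernel)) (ndF (ndF TOK.nil TOK.nil (p103 h).1.2.2.2.1.1.2.2 (by decide +kernel)) (ndF TOK.nil TOK.nil (p103 h).1.2.2.2.1.2.2.1 (by decide +kernel)) (p103 h).1.2.2.2.1.2.1 (by decide +kernel)) (p103 h).1.2.2.2.1.1.2.1 (by decide +kernel)) (p103 h).1.2.2.1.2.2.1.2 (by decide +kernel))

theorem R_40_80_90_100_ok (h : RcOK RE.rowE) : R_40_80_90_100.OK :=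
  okF (by decide +kernel) (ndF (ndF (ndF TOK.nil TOK.nil (p103 h).1.2.2.2.1.2.2.2 (by decide +kernel)) (ndF TOK.nil TOK.nil (p103 h).1.2.2.2.2.1.2.1 (by decide +kernel)) (p103 h).1.2.2.2.2.1.1 (by decide +kernel)) (ndF (ndF TOK.nil TOK.nil (p103 h).1.2.2.2.2.2.1.1 (by decide +kernel)) TOK.nil (p103 h).1.2.2.2.2.2.1.2 (by decide +kernel)) (p103 h).1.2.2.2.2.1.2.2 (by decide +kernel))

theorem R_40_90_100_110_ok (h : RcOK RE.rowE) : R_40_90_100_110.OK :=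
  okF (by decide +kernel) (ndF (ndF (ndF TOK.nil TOK.nil (p103 h).1.2.2.2.2.2.2.1 (by decide +kernel)) TOK.nil (p103 h).1.2.2.2.2.2.2.2 (by decide +kernel)) (ndF TOK.nil TOK.nil (p103 h).2.1.1.1.1.1.2.1 (by decide +kernel)) (p103 h).2.1.1.1.1.1.1 (by decide +kernel))

theorem R_50_70_90_100_110_ok (h : RcOK RE.rowE) : R_50_70_90_100_110.OK :=
  okF (by decide +kernel) (ndF (ndF (ndF (ndF TOK.nil TOK.nil (p103 h).2.1.1.1.1.1.2.2 (by decide +kernel)) (ndF TOK.nil TOK.nil (p103 h).2.1.1.1.1.2.2.1 (by decide +kernel)) (p103 h).2.1.1.1.1.2.1 (by decide +kernel)) (ndF (ndF TOK.nil TOK.nil (p103 h).2.1.1.1.2.1.1 (by decide +kernel)) TOK.nil (p103 h).2.1.1.1.2.1.2.1 (by decide +kernel)) (p103 h).2.1.1.1.1.2.2.2 (by decide +kernel)) (ndF (ndF (ndF TOK.nil TOK.nil (p103 h).2.1.1.1.2.2.1 (by decide +kernel)) TOK.nil (p103 h).2.1.1.1.2.2.2.1 (by decide +kernel)) (ndF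 (ndF TOK.nil TOK.nil (p103 h).2.1.1.2.1.1.1 (by decide +kernel)) TOK.nil (p103 h).2.1.1.2.1.1.2.1 (by decide +kernel)) (p103 h).2.1.1.1.2.2.2.2 (by decide +kernel)) (p103 h).2.1.1.1.2.1.2.2 (by decide +kernel))

theorem R_50_70_90_130_140_ok (h : RcOK RE.rowE) : R_50_70_90_130_140.OK :=
  okF (by decide +kernel) (ndF (ndF (ndF (ndF TOK.nil TOK.nil (p103 h).2.1.1.2.1.1.2.2 (by decide +kernel)) (ndF TOK.nil TOK.nil (p103 h).2.1.1.2.1.2.2.1 (by decide +kernel)) (p103 h).2.1.1.2.1.2.1 (by decide +kernel)) (ndF (ndF TOK.nil TOK.nil (p103 h).2.1.1.2.2.1.1 (by decide +kernel)) TOK.nil (p103 h).2.1.1.2.2.1.2.1 (by decide +kernel)) (p103 h).2.1.1.2.1.2.2.2 (by decide +kernel)) (ndF (ndF (ndF TOK.nil TOK.nil (p103 h).2.1.1.2.2.2.1.1 (by decide +kernel)) TOK.nil (p103 h).2.1.1.2.2.2.1.2 (by decide +kernel)) (ndF (ndF TOK.nil TOK.nil (p103 h).2.1.1.2.2.2.2.2 (by decide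 +kernel)) TOK.nil (p103 h).2.1.2.1.1.1.1 (by decide +kernel)) (p103 h).2.1.1.2.2.2.2.1 (by decide +kernel)) (p103 h).2.1.1.2.2.1.2.2 (by decide +kernel))

theorem R_50_70_130_ok (h : RcOK RE.rowE) : R_50_70_130.OK :=
  okF (by decide +kernel) (ndF (ndF (ndF (ndF TOK.nil TOK.nil (p103 h).2.1.2.1.1.1.2.1 (by decide +kernel)) (ndF TOK.nil TOK.nil (p103 h).2.1.2.1.1.2.1 (by decide +kernel)) (p103 h).2.1.2.1.1.1.2.2 (by decide +kernel)) (ndF (ndF TOK.nil TOK.nil (p103 h).2.1.2.1.1.2.2.2 (by decide +kernel)) (ndF TOK.nil TOK.nil (p103 h).2.1.2.1.2.1.2.1 (by decide +kernel)) (p103 h).2.1.2.1.2.1.1 (by decide +kernel)) (p103 h).2.1.2.1.1.2.2.1 (by decide +kernel)) (ndF (ndF (ndF TOK.nil TOK.nil (p103 h).2.1.2.1.2.2.1.1 (by decide +kernel)) (ndF TOK.nil TOK.nil (p103 h).2.1.2.1.2.2.2.1 (by decide +kernel)) (p103 h).2.1.2.1.2.2.1.2 (by decide +kernel)) (ndF (ndF TOK.nil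 TOK.nil (p103 h).2.1.2.2.1.1.1 (by decide +kernel)) (ndF TOK.nil TOK.nil (p103 h).2.1.2.2.1.1.2.2 (by decide +kernel)) (p103 h).2.1.2.2.1.1.2.1 (by decide +kernel)) (p103 h).2.1.2.1.2.2.2.2 (by decide +kernel)) (p103 h).2.1.2.1.2.1.2.2 (by decide +kernel))

theorem R_50_100_120_150_ok (h : RcOK RE.rowE) : R_50_100_120_150.OK :=
  okF (by decide +kernel) (ndF (ndF (ndF TOK.nil TOK.nil (p103 h).2.1.2.2.1.2.1 (by decide +kernel)) TOK.nil (p103 h).2.1.2.2.1.2.2.1 (by decide +kernel)) (ndF TOK.nil TOK.nil (p103 h).2.1.2.2.2.1.1 (by decide +kernel)) (p103 h).2.1.2.2.1.2.2.2 (by decide +kernel))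

theorem R_60_70_80_ok (h : RcOK RE.rowE) : R_60_70_80.OK :=
  okF (by decide +kernel) (ndF (ndF (ndF TOK.nil TOK.nil (p103 h).2.1.2.2.2.1.2.1 (by decide +kernel)) (ndF TOK.nil TOK.nil (p103 h).2.1.2.2.2.2.1.1 (by decide +kernel)) (p103 h).2.1.2.2.2.1.2.2 (by decide +kernel)) (ndF (ndF TOK.nil TOK.nil (p103 h).2.1.2.2.2.2.2.1 (by decide +kernel)) TOK.nil (p103 h).2.1.2.2.2.2.2.2 (by decide +kernel)) (p103 h).2.1.2.2.2.2.1.2 (by decide +kernel))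

theorem R_60_80_100_110_ok (h : RcOK RE.rowE) : R_60_80_100_110.OK :=
  okF (by decide +kernel) (ndF (ndF (ndF (ndF (ndF TOK.nil TOK.nil (p103 h).2.2.1.1.1.1.1 (by decide +kernel)) TOK.nil (p103 h).2.2.1.1.1.1.2.1 (by decide +kernel)) (ndF TOK.nil TOK.nil (p103 h).2.2.1.1.1.2.1 (by decide +kernel)) (p103 h).2.2.1.1.1.1.2.2 (by decide +kernel)) (ndF (ndF TOK.nil TOK.nil (p103 h).2.2.1.1.1.2.2.2 (by decide +kernel)) (ndF TOK.nil TOK.nil (p103 h).2.2.1.1.2.1.2.1 (by decide +kernel)) (p103 h).2.2.1.1.2.1.1 (by decide +kernel)) (p103 h).2.2.1.1.1.2.2.1 (by decide +kernel)) (ndF (ndF (ndF TOK.nil TOK.nil (p103 h).2.2.1.1.2.2.1 (by decide +kernel)) (ndF TOK.nil TOK.nil (p103 h).2.2.1.1.2.2.2.2 (by decide +kernel)) (p103 h).2.2.1.1.2.2.2.1 (by decide +kernel)) (ndF (ndF TOK.nil TOK.nil (p103 h).2.2.1.2.1.1.2.1 (by decide +kernel)) (ndF TOK.nil TOK.nil (p103 h).2.2.1.2.1.2.1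 (by decide +kernel)) (p103 h).2.2.1.2.1.1.2.2 (by decide +kernel)) (p103 h).2.2.1.2.1.1.1 (by decide +kernel)) (p103 h).2.2.1.1.2.1.2.2 (by decide +kernel))

theorem R_60_80_100_110_120_ok (h : RcOK RE.rowE) : R_60_80_100_110_120.OK :=
  okF (by decide +kernel) (ndF (ndF (ndF (ndF (ndF TOK.nil TOK.nil (p103 h).2.2.1.2.1.2.2.1 (by decide +kernel)) TOK.nil (p103 h).2.2.1.2.1.2.2.2 (by decide +kernel)) (ndF TOK.nil TOK.nil (p103 h).2.2.1.2.2.1.2.1 (by decide +kernel)) (p103 h).2.2.1.2.2.1.1 (by decide +kernel)) (ndF (ndF TOK.nil TOK.nil (p103 h).2.2.1.2.2.2.1.1 (by decide +kernel)) (ndF TOK.nil TOK.nil (p103 h).2.2.1.2.2.2.2.1 (by decide +kernel)) (p103 h).2.2.1.2.2.2.1.2 (by decide +kernel)) (p103 h).2.2.1.2.2.1.2.2 (by decide +kernel)) (ndF (ndF (ndF TOK.nil TOK.nil (p103 h).2.2.2.1.1.1.1 (by decide +kernel)) (ndF TOK.nil TOK.nil (p103 h).2.2.2.1.1.1.2.2 (by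 decide +kernel)) (p103 h).2.2.2.1.1.1.2.1 (by decide +kernel)) (ndF (ndF TOK.nil TOK.nil (p103 h).2.2.2.1.1.2.2.1 (by decide +kernel)) (ndF TOK.nil TOK.nil (p103 h).2.2.2.1.2.1.1 (by decide +kernel)) (p103 h).2.2.2.1.1.2.2.2 (by decide +kernel)) (p103 h).2.2.2.1.1.2.1 (by decide +kernel)) (p103 h).2.2.1.2.2.2.2.2 (by decide +kernel))

theorem R_60_80_100_120_130_ok (h : RcOK RE.rowE) : R_60_80_100_120_130.OK :=
  okF (by decide +kernel) (ndF (ndF (ndF TOK.nil TOK.nil (p103 h).2.2.2.1.2.1.2.1 (by decide +kernel)) TOK.nil (p103 h).2.2.2.1.2.1.2.2 (by decide +kernel)) (ndF TOK.nil TOK.nil (p103 h).2.2.2.1.2.2.1.2 (by decide +kernel)) (p103 h).2.2.2.1.2.2.1.1 (by decide +kernel))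

theorem R_60_80_110_ok (h : RcOK RE.rowE) : R_60_80_110.OK :=
  okF (by decide +kernel) (ndF (ndF (ndF (ndF TOK.nil TOK.nil (p103 h).2.2.2.1.2.2.2.1 (by decide +kernel)) TOK.nil (p103 h).2.2.2.1.2.2.2.2 (by decide +kernel)) (ndF (ndF TOK.nil TOK.nil (p103 h).2.2.2.2.1.1.2.1 (by decide +kernel)) TOK.nil (p103 h).2.2.2.2.1.1.2.2 (by decide +kernel)) (p103 h).2.2.2.2.1.1.1 (by decide +kernel)) (ndF (ndF (ndF TOK.nil TOK.nil (p103 h).2.2.2.2.1.2.2.1 (by decide +kernel)) TOK.nil (p103 h).2.2.2.2.1.2.2.2 (by decide +kernel)) (ndF TOK.nil TOK.nil (p103 h).2.2.2.2.2.1.2.1 (by decide +kernel)) (p103 h).2.2.2.2.2.1.1 (by decide +kernel)) (p103 h).2.2.2.2.1.2.1 (by decide +kernel))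

theorem R_60_80_180_ok (h : RcOK RE.rowE) : R_60_80_180.OK :=
  okF (by decide +kernel) (ndF (ndF (ndF (ndF TOK.nil TOK.nil (p103 h).2.2.2.2.2.1.2.2 (by decide +kernel)) (ndF TOK.nil TOK.nil (p103 h).2.2.2.2.2.2.1.2 (by decide +kernel)) (p103 h).2.2.2.2.2.2.1.1 (by decide +kernel)) (ndF (ndF TOK.nil TOK.nil (p103 h).2.2.2.2.2.2.2.2 (by decide +kernel)) (ndF TOK.nil TOK.nil (p104 h).1.1.1.1.1.1.2.1 (by decide +kernel)) (p104 h).1.1.1.1.1.1.1 (by decide +kernel)) (p103 h).2.2.2.2.2.2.2.1 (by decide +kernel)) (ndF (ndF (ndF TOK.nil TOK.nil (p104 h).1.1.1.1.1.2.1.1 (by decide +kernel)) (ndF TOK.nil TOK.nil (p104 h).1.1.1.1.1.2.2.1 (by decide +kernel)) (p104 h).1.1.1.1.1.2.1.2 (by decide +kernel)) (ndF (ndF TOK.nil TOK.nil (p104 h).1.1.1.1.2.1.1.1 (by decide +kernel)) (ndF TOK.nil TOK.nil (p104 h).1.1.1.1.2.1.2.1 (by decide +kernel)) (p104 h).1.1.1.1.2.1.1.2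 (by decide +kernel)) (p104 h).1.1.1.1.1.2.2.2 (by decide +kernel)) (p104 h).1.1.1.1.1.1.2.2 (by decide +kernel))

theorem R_70_90_100_110_ok (h : RcOK RE.rowE) : R_70_90_100_110.OK :=
  okF (by decide +kernel) (ndF (ndF (ndF TOK.nil TOK.nil (p104 h).1.1.1.1.2.1.2.2 (by decide +kernel)) (ndF TOK.nil TOK.nil (p104 h).1.1.1.1.2.2.1.2 (by decide +kernel)) (p104 h).1.1.1.1.2.2.1.1 (by decide +kernel)) (ndF (ndF TOK.nil TOK.nil (p104 h).1.1.1.1.2.2.2.2 (by decide +kernel)) TOK.nil (p104 h).1.1.1.2.1.1.1.1 (by decide +kernel)) (p104 h).1.1.1.1.2.2.2.1 (by decide +kernel))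

theorem R_100_120_140_160_ok (h : RcOK RE.rowE) : R_100_120_140_160.OK :=
  okF (by decide +kernel) (ndF (ndF (ndF TOK.nil TOK.nil (p104 h).1.1.1.2.1.1.1.2 (by decide +kernel)) TOK.nil (p104 h).1.1.1.2.1.1.2.1 (by decide +kernel)) (ndF TOK.nil TOK.nil (p104 h).1.1.1.2.1.2.1.1 (by decide +kernel)) (p104 h).1.1.1.2.1.1.2.2 (by decide +kernel))

theorem R_120_140_150_ok (h : RcOK RE.rowE) : R_120_140_150.OK :=
  okF (by decide +kernel) (ndF (ndF (ndF TOK.nil TOK.nil (p104 h).1.1.1.2.1.2.1.2 (by decide +kernel)) (ndF TOK.nil TOK.nil (p104 h).1.1.1.2.1.2.2.2 (by decide +kernel)) (p104 h).1.1.1.2.1.2.2.1 (by decide +kernel)) (ndF (ndF TOK.nil TOK.nil (p104 h).1.1.1.2.2.1.1.2 (by decide +kernel)) TOK.nil (p104 h).1.1.1.2.2.1.2.1 (by decide +kernel)) (p104 h).1.1.1.2.2.1.1.1 (by decide +kernel))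

theorem R_20_30_50_100_ok (h : RcOK RE.rowE) : R_20_30_50_100.OK :=
  okF (by decide +kernel) (ndF (ndF (ndF (ndF TOK.nil TOK.nil (p104 h).1.1.1.2.2.1.2.2 (by decide +kernel)) TOK.nil (p104 h).1.1.1.2.2.2.1.1 (by decide +kernel)) (ndF TOK.nil TOK.nil (p104 h).1.1.1.2.2.2.2.1 (by decide +kernel)) (p104 h).1.1.1.2.2.2.1.2 (by decide +kernel)) (ndF (ndF TOK.nil TOK.nil (p104 h).1.1.2.1.1.1.1.1 (by decide +kernel)) (ndF TOK.nil TOK.nil (p104 h).1.1.2.1.1.1.2.1 (by decide +kernel)) (p104 h).1.1.2.1.1.1.1.2 (by decide +kernel)) (p104 h).1.1.1.2.2.2.2.2 (by decide +kernel))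

theorem R_20_40_120_ok (h : RcOK RE.rowE) : R_20_40_120.OK :=
  okF (by decide +kernel) (ndF (ndF (ndF (ndF TOK.nil TOK.nil (p104 h).1.1.2.1.1.1.2.2 (by decide +kernel)) TOK.nil (p104 h).1.1.2.1.1.2.1.1 (by decide +kernel)) (ndF TOK.nil TOK.nil (p104 h).1.1.2.1.1.2.2.1 (by decide +kernel)) (p104 h).1.1.2.1.1.2.1.2 (by decide +kernel)) (ndF (ndF TOK.nil TOK.nil (p104 h).1.1.2.1.2.1.1.1 (by decide +kernel)) (ndF TOK.nil TOK.nil (p104 h).1.1.2.1.2.1.2.1 (by decide +kernel)) (p104 h).1.1.2.1.2.1.1.2 (by decide +kernel)) (p104 h).1.1.2.1.1.2.2.2 (by decide +kernel))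

theorem R_30_50_70_110_120_ok (h : RcOK RE.rowE) : R_30_50_70_110_120.OK :=
  okF (by decide +kernel) (ndF (ndF (ndF (ndF TOK.nil TOK.nil (p104 h).1.1.2.1.2.1.2.2 (by decide +kernel)) TOK.nil (p104 h).1.1.2.1.2.2.1.1 (by decide +kernel)) (ndF TOK.nil TOK.nil (p104 h).1.1.2.1.2.2.2.1 (by decide +kernel)) (p104 h).1.1.2.1.2.2.1.2 (by decide +kernel)) (ndF (ndF TOK.nil TOK.nil (p104 h).1.1.2.2.1.1.1.1 (by decide +kernel)) (ndF TOK.nil TOK.nil (p104 h).1.1.2.2.1.1.2.1 (by decide +kernel)) (p104 h).1.1.2.2.1.1.1.2 (by decide +kernel)) (p104 h).1.1.2.1.2.2.2.2 (by decide +kernel))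

theorem R_30_60_70_90_130_ok (h : RcOK RE.rowE) : R_30_60_70_90_130.OK :=
  okF (by decide +kernel) (ndF (ndF (ndF (ndF TOK.nil TOK.nil (p104 h).1.1.2.2.1.1.2.2 (by decide +kernel)) TOK.nil (p104 h).1.1.2.2.1.2.1.1 (by decide +kernel)) (ndF TOK.nil TOK.nil (p104 h).1.1.2.2.1.2.2.1 (by decide +kernel)) (p104 h).1.1.2.2.1.2.1.2 (by decide +kernel)) (ndF (ndF TOK.nil TOK.nil (p104 h).1.1.2.2.2.1.1.1 (by decide +kernel)) (ndF TOK.nil TOK.nil (p104 h).1.1.2.2.2.1.2.1 (by decide +kernel)) (p104 h).1.1.2.2.2.1.1.2 (by decide +kernel)) (p104 h).1.1.2.2.1.2.2.2 (by decide +kernel))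

theorem R_30_60_80_ok (h : RcOK RE.rowE) : R_30_60_80.OK :=
  okF (by decide +kernel) (ndF (ndF (ndF TOK.nil TOK.nil (p104 h).1.1.2.2.2.1.2.2 (by decide +kernel)) (ndF TOK.nil TOK.nil (p104 h).1.1.2.2.2.2.1.2 (by decide +kernel)) (p104 h).1.1.2.2.2.2.1.1 (by decide +kernel)) (ndF (ndF TOK.nil TOK.nil (p104 h).1.1.2.2.2.2.2.2 (by decide +kernel)) TOK.nil (p104 h).1.2.1.1.1.1.1.1 (by decide +kernel)) (p104 h).1.1.2.2.2.2.2.1 (by decide +kernel))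

theorem R_30_70_90_120_ok (h : RcOK RE.rowE) : R_30_70_90_120.OK :=
  okF (by decide +kernel) (ndF (ndF (ndF (ndF TOK.nil TOK.nil (p104 h).1.2.1.1.1.1.1.2 (by decide +kernel)) TOK.nil (p104 h).1.2.1.1.1.1.2.1 (by decide +kernel)) (ndF TOK.nil TOK.nil (p104 h).1.2.1.1.1.2.1.1 (by decide +kernel)) (p104 h).1.2.1.1.1.1.2.2 (by decide +kernel)) (ndF (ndF TOK.nil TOK.nil (p104 h).1.2.1.1.1.2.2.1 (by decide +kernel)) (ndF TOK.nil TOK.nil (p104 h).1.2.1.1.2.1.1.1 (by decide +kernel)) (p104 h).1.2.1.1.1.2.2.2 (by decide +kernel)) (p104 h).1.2.1.1.1.2.1.2 (by decide +kernel))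

theorem R_40_50_70_100_ok (h : RcOK RE.rowE) : R_40_50_70_100.OK :=
  okF (by decide +kernel) (ndF (ndF (ndF (ndF TOK.nil TOK.nil (p104 h).1.2.1.1.2.1.1.2 (by decide +kernel)) (ndF TOK.nil TOK.nil (p104 h).1.2.1.1.2.1.2.2 (by decide +kernel)) (p104 h).1.2.1.1.2.1.2.1 (by decide +kernel)) (ndF (ndF TOK.nil TOK.nil (p104 h).1.2.1.1.2.2.1.2 (by decide +kernel)) TOK.nil (p104 h).1.2.1.1.2.2.2.1 (by decide +kernel)) (p104 h).1.2.1.1.2.2.1.1 (by decide +kernel)) (ndF (ndF (ndF TOK.nil TOK.nil (p104 h).1.2.1.2.1.1.1.1 (by decide +kernel)) TOK.nil (p104 h).1.2.1.2.1.1.1.2 (by decide +kernel)) (ndF (ndF TOK.nil TOK.nil (p104 h).1.2.1.2.1.1.2.2 (by decide +kernel)) TOK.nil (p104 h).1.2.1.2.1.2.1.1 (by decide +kernel)) (p104 h).1.2.1.2.1.1.2.1 (by decide +kernel)) (p104 h).1.2.1.1.2.2.2.2 (by decide +kernel))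

theorem R_40_60_140_ok (h : RcOK RE.rowE) : R_40_60_140.OK :=
  okF (by decide +kernel) (ndF (ndF (ndF (ndF TOK.nil TOK.nil (p104 h).1.2.1.2.1.2.1.2 (by decide +kernel)) TOK.nil (p104 h).1.2.1.2.1.2.2.1 (by decide +kernel)) (ndF (ndF TOK.nil TOK.nil (p104 h).1.2.1.2.2.1.1.1 (by decide +kernel)) TOK.nil (p104 h).1.2.1.2.2.1.1.2 (by decide +kernel)) (p104 h).1.2.1.2.1.2.2.2 (by decide +kernel)) (ndF (ndF (ndF TOK.nil TOK.nil (p104 h).1.2.1.2.2.1.2.2 (by decide +kernel)) TOK.nil (p104 h).1.2.1.2.2.2.1.1 (by decide +kernel)) (ndF TOK.nil TOK.nil (p104 h).1.2.1.2.2.2.2.1 (by decide +kernel)) (p104 h).1.2.1.2.2.2.1.2 (by decide +kernel)) (p104 h).1.2.1.2.2.1.2.1 (by decide +kernel))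

theorem R_40_60_160_ok (h : RcOK RE.rowE) : R_40_60_160.OK :=
  okF (by decide +kernel) TOK.nil

theorem R_40_80_90_110_120_ok (h : RcOK RE.rowE) : R_40_80_90_110_120.OK :=
  okF (by decide +kernel) (ndF (ndF (ndF TOK.nil TOK.nil (p104 h).1.2.1.2.2.2.2.2 (by decide +kernel)) (ndF TOK.nil TOK.nil (p104 h).1.2.2.1.1.1.1.2 (by decide +kernel)) (p104 h).1.2.2.1.1.1.1.1 (by decide +kernel)) (ndF (ndF TOK.nil TOK.nil (p104 h).1.2.2.1.1.1.2.2 (by decide +kernel)) TOK.nil (p104 h).1.2.2.1.1.2.1.1 (by decide +kernel)) (p104 h).1.2.2.1.1.1.2.1 (by decide +kernel))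

theorem R_40_90_100_120_ok (h : RcOK RE.rowE) : R_40_90_100_120.OK :=
  okF (by decide +kernel) (ndF (ndF (ndF TOK.nil TOK.nil (p104 h).1.2.2.1.1.2.1.2 (by decide +kernel)) TOK.nil (p104 h).1.2.2.1.1.2.2.1 (by decide +kernel)) (ndF TOK.nil TOK.nil (p104 h).1.2.2.1.2.1.1.1 (by decide +kernel)) (p104 h).1.2.2.1.1.2.2.2 (by decide +kernel))

theorem R_50_60_70_ok (h : RcOK RE.rowE) : R_50_60_70.OK :=
  okF (by decide +kernel) (ndF (ndF (ndF TOK.nil TOK.nil (p104 h).1.2.2.1.2.1.1.2 (by decide +kernel)) (ndF TOK.nil TOK.nil (p104 h).1.2.2.1.2.1.2.2 (by decide +kernel)) (p104 h).1.2.2.1.2.1.2.1 (by decide +kernel)) (ndF (ndF TOK.nil TOK.nil (p104 h).1.2.2.1.2.2.1.2 (by decide +kernel)) TOK.nil (p104 h).1.2.2.1.2.2.2.1 (by decide +kernel)) (p104 h).1.2.2.1.2.2.1.1 (by decide +kernel))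

theorem R_50_60_80_ok (h : RcOK RE.rowE) : R_50_60_80.OK :=
  okF (by decide +kernel) (ndF (ndF (ndF TOK.nil TOK.nil (p104 h).1.2.2.1.2.2.2.2 (by decide +kernel)) (ndF TOK.nil TOK.nil (p104 h).1.2.2.2.1.1.1.2 (by decide +kernel)) (p104 h).1.2.2.2.1.1.1.1 (by decide +kernel)) (ndF (ndF TOK.nil TOK.nil (p104 h).1.2.2.2.1.1.2.2 (by decide +kernel)) TOK.nil (p104 h).1.2.2.2.1.2.1.1 (by decide +kernel)) (p104 h).1.2.2.2.1.1.2.1 (by decide +kernel))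

theorem R_50_60_80_110_ok (h : RcOK RE.rowE) : R_50_60_80_110.OK :=
  okF (by decide +kernel) (ndF (ndF (ndF TOK.nil TOK.nil (p104 h).1.2.2.2.1.2.1.2 (by decide +kernel)) TOK.nil (p104 h).1.2.2.2.1.2.2.1 (by decide +kernel)) (ndF TOK.nil TOK.nil (p104 h).1.2.2.2.2.1.1.1 (by decide +kernel)) (p104 h).1.2.2.2.1.2.2.2 (by decide +kernel))

theorem R_50_70_100_ok (h : RcOK RE.rowE) : R_50_70_100.OK :=
  okF (by decide +kernel) (ndF (ndF (ndF TOK.nil TOK.nil (p104 h).1.2.2.2.2.1.1.2 (by decide +kernel)) (ndF TOK.nil TOK.nil (p104 h).1.2.2.2.2.1.2.2 (by decide +kernel)) (p104 h).1.2.2.2.2.1.2.1 (by decide +kernel)) (ndF (ndF TOK.nil TOK.nil (p104 h).1.2.2.2.2.2.1.2 (by decide +kernel)) TOK.nil (p104 h).1.2.2.2.2.2.2.1 (by decide +kernel)) (p104 h).1.2.2.2.2.2.1.1 (by decide +kernel))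

theorem R_50_70_110_120_ok (h : RcOK RE.rowE) : R_50_70_110_120.OK :=
  okF (by decide +kernel) (ndF (ndF (ndF TOK.nil TOK.nil (p104 h).1.2.2.2.2.2.2.2 (by decide +kernel)) TOK.nil (p104 h).2.1.1.1.1.1.1 (by decide +kernel)) (ndF TOK.nil TOK.nil (p104 h).2.1.1.1.1.1.2.2 (by decide +kernel)) (p104 h).2.1.1.1.1.1.2.1 (by decide +kernel))

theorem R_70_80_100_110_ok (h : RcOK RE.rowE) : R_70_80_100_110.OK :=
  okF (by decide +kernel) (ndF (ndF (ndF (ndF TOK.nil TOK.nil (p104 h).2.1.1.1.1.2.1.1 (by decide +kernel)) (ndF TOK.nil TOK.nil (p104 h).2.1.1.1.1.2.2.1 (by decide +kernel)) (p104 h).2.1.1.1.1.2.1.2 (by decide +kernel)) (ndF (ndF TOK.nil TOK.nil (p104 h).2.1.1.1.2.1.1.1 (by decide +kernel)) TOK.nil (p104 h).2.1.1.1.2.1.1.2 (by decide +kernel)) (p104 h).2.1.1.1.1.2.2.2 (by decide +kernel)) (ndF (ndF (ndF TOK.nil TOK.nil (p104 h).2.1.1.1.2.1.2.2 (by decide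 +kernel)) TOK.nil (p104 h).2.1.1.1.2.2.1.1 (by decide +kernel)) (ndF (ndF TOK.nil TOK.nil (p104 h).2.1.1.1.2.2.2.1 (by decide +kernel)) TOK.nil (p104 h).2.1.1.1.2.2.2.2 (by decide +kernel)) (p104 h).2.1.1.1.2.2.1.2 (by decide +kernel)) (p104 h).2.1.1.1.2.1.2.1 (by decide +kernel))

theorem R_70_90_ok (h : RcOK RE.rowE) : R_70_90.OK :=
  okF (by decide +kernel) (ndF (ndF (ndF (ndF TOK.nil TOK.nil (p104 h).2.1.1.2.1.1.1.1 (by decide +kernel)) (ndF TOK.nil TOK.nil (p104 h).2.1.1.2.1.1.2.1 (by decide +kernel)) (p104 h).2.1.1.2.1.1.1.2 (by decide +kernel)) (ndF (ndF TOK.nil TOK.nil (p104 h).2.1.1.2.1.2.1.1 (by decide +kernel)) TOK.nil (p104 h).2.1.1.2.1.2.1.2 (by decide +kernel)) (p104 h).2.1.1.2.1.1.2.2 (by decide +kernel)) (ndF (ndF (ndF TOK.nil TOK.nil (p104 h).2.1.1.2.1.2.2.2 (by decide +kernel)) TOK.nil (p104 h).2.1.1.2.2.1.1.1 (by decide +kernel)) (ndF (ndF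 TOK.nil TOK.nil (p104 h).2.1.1.2.2.1.2.1 (by decide +kernel)) TOK.nil (p104 h).2.1.1.2.2.1.2.2 (by decide +kernel)) (p104 h).2.1.1.2.2.1.1.2 (by decide +kernel)) (p104 h).2.1.1.2.1.2.2.1 (by decide +kernel))

theorem R_80_90_110_140_ok (h : RcOK RE.rowE) : R_80_90_110_140.OK :=
  okF (by decide +kernel) (ndF (ndF (ndF (ndF TOK.nil TOK.nil (p104 h).2.1.1.2.2.2.1.1 (by decide +kernel)) (ndF TOK.nil TOK.nil (p104 h).2.1.1.2.2.2.2.1 (by decide +kernel)) (p104 h).2.1.1.2.2.2.1.2 (by decide +kernel)) (ndF (ndF TOK.nil TOK.nil (p104 h).2.1.2.1.1.1.1.1 (by decide +kernel)) TOK.nil (p104 h).2.1.2.1.1.1.1.2 (by decide +kernel)) (p104 h).2.1.1.2.2.2.2.2 (by decide +kernel)) (ndF (ndF (ndF TOK.nil TOK.nil (p104 h).2.1.2.1.1.1.2.2 (by decide +kernel)) TOK.nil (p104 h).2.1.2.1.1.2.1.1 (by decide +kernel)) (ndF (ndF TOK.nil TOK.nil (p104 h).2.1.2.1.1.2.2.1 (by decide +kernel))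 TOK.nil (p104 h).2.1.2.1.1.2.2.2 (by decide +kernel)) (p104 h).2.1.2.1.1.2.1.2 (by decide +kernel)) (p104 h).2.1.2.1.1.1.2.1 (by decide +kernel))

theorem R_80_100_180_ok (h : RcOK RE.rowE) : R_80_100_180.OK :=
  okF (by decide +kernel) (ndF (ndF (ndF (ndF TOK.nil TOK.nil (p104 h).2.1.2.1.2.1.1.1 (by decide +kernel)) (ndF TOK.nil TOK.nil (p104 h).2.1.2.1.2.1.2.1 (by decide +kernel)) (p104 h).2.1.2.1.2.1.1.2 (by decide +kernel)) (ndF (ndF TOK.nil TOK.nil (p104 h).2.1.2.1.2.2.1.1 (by decide +kernel)) TOK.nil (p104 h).2.1.2.1.2.2.1.2 (by decide +kernel)) (p104 h).2.1.2.1.2.1.2.2 (by decide +kernel)) (ndF (ndF (ndF TOK.nil TOK.nil (p104 h).2.1.2.1.2.2.2.2 (by decide +kernel)) TOK.nil (p104 h).2.1.2.2.1.1.1.1 (by decide +kernel)) (ndF (ndF TOK.nil TOK.nil (p104 h).2.1.2.2.1.1.2.1 (by decide +kernel)) TOK.nil (p104 h).2.1.2.2.1.1.2.2 (by decide +kernel)) (p104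 h).2.1.2.2.1.1.1.2 (by decide +kernel)) (p104 h).2.1.2.1.2.2.2.1 (by decide +kernel))

theorem R_80_200_ok (h : RcOK RE.rowE) : R_80_200.OK :=
  okF (by decide +kernel) (ndF (ndF (ndF (ndF TOK.nil TOK.nil (p104 h).2.1.2.2.1.2.1.1 (by decide +kernel)) (ndF TOK.nil TOK.nil (p104 h).2.1.2.2.1.2.2.1 (by decide +kernel)) (p104 h).2.1.2.2.1.2.1.2 (by decide +kernel)) (ndF (ndF TOK.nil TOK.nil (p104 h).2.1.2.2.2.1.1.1 (by decide +kernel)) TOK.nil (p104 h).2.1.2.2.2.1.1.2 (by decide +kernel)) (p104 h).2.1.2.2.1.2.2.2 (by decide +kernel)) (ndF (ndF (ndF TOK.nil TOK.nil (p104 h).2.1.2.2.2.1.2.2 (by decide +kernel)) TOK.nil (p104 h).2.1.2.2.2.2.1.1 (by decide +kernel)) (ndF (ndF TOK.nil TOK.nil (p104 h).2.1.2.2.2.2.2.1 (by decide +kernel)) TOK.nil (p104 h).2.1.2.2.2.2.2.2 (by decide +kernel)) (p104 h).2.1.2.2.2.2.1.2 (by decide +kernel)) (p104 h).2.1.2.2.2.1.2.1 (by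 decide +kernel))

theorem R_90_110_120_130_ok (h : RcOK RE.rowE) : R_90_110_120_130.OK :=
  okF (by decide +kernel) (ndF (ndF (ndF TOK.nil TOK.nil (p104 h).2.2.1.1.1.1.1.1 (by decide +kernel)) TOK.nil (p104 h).2.2.1.1.1.1.1.2 (by decide +kernel)) (ndF TOK.nil TOK.nil (p104 h).2.2.1.1.1.1.2.2 (by decide +kernel)) (p104 h).2.2.1.1.1.1.2.1 (by decide +kernel))

theorem R_100_200_ok (h : RcOK RE.rowE) : R_100_200.OK :=
  okF (by decide +kernel) (ndF (ndF (ndF (ndF (ndF TOK.nil TOK.nil (p104 h).2.2.1.1.1.2.1.1 (by decide +kernel)) TOK.nil (p104 h).2.2.1.1.1.2.1.2 (by decide +kernel)) (ndF TOK.nil TOK.nil (p104 h).2.2.1.1.1.2.2.2 (by decide +kernel)) (p104 h).2.2.1.1.1.2.2.1 (by decide +kernel)) (ndF (ndF (ndF TOK.nil TOK.nil (p104 h).2.2.1.1.2.1.1.2 (by decide +kernel)) TOK.nil (p104 h).2.2.1.1.2.1.2.1 (by decide +kernel)) (ndF TOK.nil TOK.nil (p104 h).2.2.1.1.2.2.1.1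 (by decide +kernel)) (p104 h).2.2.1.1.2.1.2.2 (by decide +kernel)) (p104 h).2.2.1.1.2.1.1.1 (by decide +kernel)) (ndF (ndF (ndF (ndF TOK.nil TOK.nil (p104 h).2.2.1.1.2.2.2.1 (by decide +kernel)) TOK.nil (p104 h).2.2.1.1.2.2.2.2 (by decide +kernel)) (ndF TOK.nil TOK.nil (p104 h).2.2.1.2.1.1.1.2 (by decide +kernel)) (p104 h).2.2.1.2.1.1.1.1 (by decide +kernel)) (ndF (ndF TOK.nil TOK.nil (p104 h).2.2.1.2.1.1.2.2 (by decide +kernel)) (ndF TOK.nil TOK.nil (p104 h).2.2.1.2.1.2.1.2 (by decide +kernel)) (p104 h).2.2.1.2.1.2.1.1 (by decide +kernel)) (p104 h).2.2.1.2.1.1.2.1 (by decide +kernel)) (p104 h).2.2.1.1.2.2.1.2 (by decide +kernel))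

theorem R_120_130_150_ok (h : RcOK RE.rowE) : R_120_130_150.OK :=
  okF (by decide +kernel) (ndF (ndF (ndF TOK.nil TOK.nil (p104 h).2.2.1.2.1.2.2.1 (by decide +kernel)) TOK.nil (p104 h).2.2.1.2.1.2.2.2 (by decide +kernel)) (ndF TOK.nil TOK.nil (p104 h).2.2.1.2.2.1.1.2 (by decide +kernel)) (p104 h).2.2.1.2.2.1.1.1 (by decide +kernel))

theorem T_21_42_ok (h : RcOK RE.rowE) : T_21_42.OK :=
  okF (by decide +kernel) (ndF (ndF (ndF (ndF TOK.nil TOK.nil (p104 h).2.2.1.2.2.1.2.1 (by decide +kernel)) TOK.nil (p104 h).2.2.1.2.2.1.2.2 (by decide +kernel)) (ndF TOK.nil TOK.nil (p104 h).2.2.1.2.2.2.1.2 (by decide +kernel)) (p104 h).2.2.1.2.2.2.1.1 (by decide +kernel)) (ndF (ndF TOK.nil TOK.nil (p104 h).2.2.1.2.2.2.2.2 (by decide +kernel)) (ndF TOK.nil TOK.nil (p104 h).2.2.2.1.1.1.1.2 (by decide +kernel)) (p104 h).2.2.2.1.1.1.1.1 (by decide +kernel)) (p104 h).2.2.1.2.2.2.2.1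 (by decide +kernel))

theorem T_80_200_ok (h : RcOK RE.rowE) : T_80_200.OK :=
  okF (by decide +kernel) (ndF (ndF (ndF (ndF TOK.nil TOK.nil (p104 h).2.2.2.1.1.1.2.1 (by decide +kernel)) (ndF TOK.nil TOK.nil (p104 h).2.2.2.1.1.2.1.1 (by decide +kernel)) (p104 h).2.2.2.1.1.1.2.2 (by decide +kernel)) (ndF (ndF TOK.nil TOK.nil (p104 h).2.2.2.1.1.2.2.1 (by decide +kernel)) TOK.nil (p104 h).2.2.2.1.1.2.2.2 (by decide +kernel)) (p104 h).2.2.2.1.1.2.1.2 (by decide +kernel)) (ndF (ndF (ndF TOK.nil TOK.nil (p104 h).2.2.2.1.2.1.1.2 (by decide +kernel)) TOK.nil (p104 h).2.2.2.1.2.1.2.1 (by decide +kernel)) (ndF (ndF TOK.nil TOK.nil (p104 h).2.2.2.1.2.2.1.1 (by decide +kernel)) TOK.nil (p104 h).2.2.2.1.2.2.1.2 (by decide +kernel)) (p104 h).2.2.2.1.2.1.2.2 (by decide +kernel)) (p104 h).2.2.2.1.2.1.1.1 (by decide +kernel))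

theorem T_100_200_ok (h : RcOK RE.rowE) : T_100_200.OK :=
  okF (by decide +kernel) (ndF (ndF (ndF (ndF (ndF TOK.nil TOK.nil (p104 h).2.2.2.1.2.2.2.1 (by decide +kernel)) TOK.nil (p104 h).2.2.2.1.2.2.2.2 (by decide +kernel)) (ndF TOK.nil TOK.nil (p104 h).2.2.2.2.1.1.1.2 (by decide +kernel)) (p104 h).2.2.2.2.1.1.1.1 (by decide +kernel)) (ndF (ndF (ndF TOK.nil TOK.nil (p104 h).2.2.2.2.1.1.2.2 (by decide +kernel)) TOK.nil (p104 h).2.2.2.2.1.2.1.1 (by decide +kernel)) (ndF TOK.nil TOK.nil (p104 h).2.2.2.2.1.2.2.1 (by decide +kernel)) (p104 h).2.2.2.2.1.2.1.2 (by decide +kernel)) (p104 h).2.2.2.2.1.1.2.1 (by decide +kernel)) (ndF (ndF (ndF (ndF TOK.nil TOK.nil (p104 h).2.2.2.2.2.1.1.1 (by decide +kernel)) TOK.nil (p104 h).2.2.2.2.2.1.1.2 (by decide +kernel)) (ndF TOK.nil TOK.nil (p104 h).2.2.2.2.2.1.2.2 (by decide +kernel)) (p104 h).2.2.2.2.2.1.2.1 (by decide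 +kernel)) (ndF (ndF TOK.nil TOK.nil (p104 h).2.2.2.2.2.2.1.2 (by decide +kernel)) (ndF TOK.nil TOK.nil (p104 h).2.2.2.2.2.2.2.2 (by decide +kernel)) (p104 h).2.2.2.2.2.2.2.1 (by decide +kernel)) (p104 h).2.2.2.2.2.2.1.1 (by decide +kernel)) (p104 h).2.2.2.2.1.2.2.2 (by decide +kernel))


end TB
end Pool.Agent.Lib.MP_6947cd_al
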