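import Pool.Agent.Lib.MP_6947cd_al.TB.P6
import Pool.Agent.Lib.MP_6947cd_al.TB.P7
import Pool.Agent.Lib.MP_6947cd_al.TB.P8
import Pool.Agent.Lib.MP_6947cd_al.TB.P9
import Pool.Agent.Lib.MP_6947cd_al.TB.P10
import Pool.Agent.Lib.MP_6947cd_al.TB.P11
import Pool.Agent.Lib.MP_6947cd_al.TB.P12
import Pool.Agent.Lib.MP_6947cd_al.TB.P13

/-!
Problem MP_6947cd_al (Chollet).  THE FAMILIES OF TABLES ARE CORRECT, part 5.
-/

set_option autoImplicit false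
set_option maxHeartbeats 0
set_option maxRecDepth 100000
set_option linter.all false

namespace Pool.Agent.Lib.MP_6947cd_al
namespace TB

open Ent Ent.Pk Fr Fr.WT B1 PkA PkA.TF

theorem R_40_80_100_ok (h : RcOK RE.rowE) : R_40_80_100.OK :=
  okF (by decide +kernel) (ndF (ndF (ndF (ndF (ndF (ndF (ndF TOK.nil TOK.nil (p6 h).2.2.1.1.1.2.1 (by decide +kernel)) (ndF TOK.nil TOK.nil (p6 h).2.2.1.1.2.1.1 (by decide +kernel)) (p6 h).2.2.1.1.1.2.2 (by decide +kernel)) (ndF (ndF TOK.nil TOK.nil (p6 h).2.2.1.1.2.2.1 (by decide +kernel)) (ndF TOK.nil TOK.nil (p6 h).2.2.1.2.1.1 (by decide +kernel)) (p6 h).2.2.1.1.2.2.2 (by decide +kernel)) (p6 h).2.2.1.1.2.1.2 (by decide +kernel)) (ndF (ndF (ndF TOK.nil TOK.nil (p6 h).2.2.1.2.1.2.2 (by decide +kernel)) (ndF TOK.nil TOK.nil (p6 h).2.2.1.2.2.1.2 (by decide +kernel)) (p6 h).2.2.1.2.2.1.1 (by decide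 +kernel)) (ndF (ndF TOK.nil TOK.nil (p6 h).2.2.1.2.2.2.2 (by decide +kernel)) TOK.nil (p6 h).2.2.2.1.1.1 (by decide +kernel)) (p6 h).2.2.1.2.2.2.1 (by decide +kernel)) (p6 h).2.2.1.2.1.2.1 (by decide +kernel)) (ndF (ndF (ndF (ndF TOK.nil TOK.nil (p6 h).2.2.2.1.1.2.2 (by decide +kernel)) (ndF TOK.nil TOK.nil (p6 h).2.2.2.1.2.1.2 (by decide +kernel)) (p6 h).2.2.2.1.2.1.1 (by decide +kernel)) (ndF (ndF TOK.nil TOK.nil (p6 h).2.2.2.1.2.2.2 (by decide +kernel)) TOK.nil (p6 h).2.2.2.2.1.1 (by decide +kernel)) (p6 h).2.2.2.1.2.2.1 (by decide +kernel)) (ndF (ndF (ndF TOK.nil TOK.nil (p6 h).2.2.2.2.1.2.2 (by decide +kernel)) (ndF TOK.nil TOK.nil (p6 h).2.2.2.2.2.1.2 (by decide +kernel)) (p6 h).2.2.2.2.2.1.1 (by decide +kernel)) (ndF (ndF TOK.nil TOK.nil (p6 h).2.2.2.2.2.2.2 (by decide +kernel)) TOK.nil (p7 h).1.1.1.1.1 (by decide +kernel))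 (p6 h).2.2.2.2.2.2.1 (by decide +kernel)) (p6 h).2.2.2.2.1.2.1 (by decide +kernel)) (p6 h).2.2.2.1.1.2.1 (by decide +kernel)) (ndF (ndF (ndF (ndF (ndF TOK.nil TOK.nil (p7 h).1.1.1.1.2.2 (by decide +kernel)) (ndF TOK.nil TOK.nil (p7 h).1.1.1.2.2.1 (by decide +kernel)) (p7 h).1.1.1.2.1 (by decide +kernel)) (ndF (ndF TOK.nil TOK.nil (p7 h).1.1.2.1.1 (by decide +kernel)) (ndF TOK.nil TOK.nil (p7 h).1.1.2.1.2.2 (by decide +kernel)) (p7 h).1.1.2.1.2.1 (by decide +kernel)) (p7 h).1.1.1.2.2.2 (by decide +kernel)) (ndF (ndF (ndF TOK.nil TOK.nil (p7 h).1.1.2.2.2.1 (by decide +kernel)) (ndF TOK.nil TOK.nil (p7 h).1.2.1.1.1 (by decide +kernel)) (p7 h).1.1.2.2.2.2 (by decide +kernel)) (ndF (ndF TOK.nil TOK.nil (p7 h).1.2.1.1.2.2 (by decide +kernel)) TOK.nil (p7 h).1.2.1.2.1 (by decide +kernel)) (p7 h).1.2.1.1.2.1 (by decide +kernel)) (p7 h).1.1.2.2.1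 (by decide +kernel)) (ndF (ndF (ndF (ndF TOK.nil TOK.nil (p7 h).1.2.1.2.2.2 (by decide +kernel)) (ndF TOK.nil TOK.nil (p7 h).1.2.2.1.2.1 (by decide +kernel)) (p7 h).1.2.2.1.1 (by decide +kernel)) (ndF (ndF TOK.nil TOK.nil (p7 h).1.2.2.2.1 (by decide +kernel)) TOK.nil (p7 h).1.2.2.2.2.1 (by decide +kernel)) (p7 h).1.2.2.1.2.2 (by decide +kernel)) (ndF (ndF (ndF TOK.nil TOK.nil (p7 h).2.1.1.1.1 (by decide +kernel)) (ndF TOK.nil TOK.nil (p7 h).2.1.1.1.2.2 (by decide +kernel)) (p7 h).2.1.1.1.2.1 (by decide +kernel)) (ndF (ndF TOK.nil TOK.nil (p7 h).2.1.1.2.2.1 (by decide +kernel)) TOK.nil (p7 h).2.1.1.2.2.2 (by decide +kernel)) (p7 h).2.1.1.2.1 (by decide +kernel)) (p7 h).1.2.2.2.2.2 (by decide +kernel)) (p7 h).1.2.1.2.2.1 (by decide +kernel)) (p7 h).1.1.1.1.2.1 (by decide +kernel)) (ndF (ndF (ndF (ndF (ndF (ndF TOK.nil TOK.nil (p7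 h).2.1.2.1.2.1 (by decide +kernel)) (ndF TOK.nil TOK.nil (p7 h).2.1.2.2.1 (by decide +kernel)) (p7 h).2.1.2.1.2.2 (by decide +kernel)) (ndF (ndF TOK.nil TOK.nil (p7 h).2.1.2.2.2.2 (by decide +kernel)) (ndF TOK.nil TOK.nil (p7 h).2.2.1.1.2.1 (by decide +kernel)) (p7 h).2.2.1.1.1 (by decide +kernel)) (p7 h).2.1.2.2.2.1 (by decide +kernel)) (ndF (ndF (ndF TOK.nil TOK.nil (p7 h).2.2.1.2.1 (by decide +kernel)) (ndF TOK.nil TOK.nil (p7 h).2.2.1.2.2.2 (by decide +kernel)) (p7 h).2.2.1.2.2.1 (by decide +kernel)) (ndF (ndF TOK.nil TOK.nil (p7 h).2.2.2.1.2.1 (by decide +kernel)) TOK.nil (p7 h).2.2.2.1.2.2 (by decide +kernel)) (p7 h).2.2.2.1.1 (by decide +kernel)) (p7 h).2.2.1.1.2.2 (by decide +kernel)) (ndF (ndF (ndF (ndF TOK.nil TOK.nil (p7 h).2.2.2.2.1.2 (by decide +kernel)) (ndF TOK.nil TOK.nil (p7 h).2.2.2.2.2.2 (by decide +kernel))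 (p7 h).2.2.2.2.2.1 (by decide +kernel)) (ndF (ndF TOK.nil TOK.nil (p8 h).1.1.1.2.1 (by decide +kernel)) TOK.nil (p8 h).1.1.1.2.2 (by decide +kernel)) (p8 h).1.1.1.1 (by decide +kernel)) (ndF (ndF (ndF TOK.nil TOK.nil (p8 h).1.1.2.2.1 (by decide +kernel)) (ndF TOK.nil TOK.nil (p8 h).1.2.1.1 (by decide +kernel)) (p8 h).1.1.2.2.2 (by decide +kernel)) (ndF (ndF TOK.nil TOK.nil (p8 h).1.2.1.2.2 (by decide +kernel)) TOK.nil (p8 h).1.2.2.1 (by decide +kernel)) (p8 h).1.2.1.2.1 (by decide +kernel)) (p8 h).1.1.2.1 (by decide +kernel)) (p7 h).2.2.2.2.1.1 (by decide +kernel)) (ndF (ndF (ndF (ndF (ndF TOK.nil TOK.nil (p8 h).1.2.2.2.2 (by decide +kernel)) (ndF TOK.nil TOK.nil (p8 h).2.1.1.2.1 (by decide +kernel)) (p8 h).2.1.1.1 (by decide +kernel)) (ndF (ndF TOK.nil TOK.nil (p8 h).2.1.2.1 (by decide +kernel)) (ndF TOK.nil TOK.nil (p8 h).2.1.2.2.2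 (by decide +kernel)) (p8 h).2.1.2.2.1 (by decide +kernel)) (p8 h).2.1.1.2.2 (by decide +kernel)) (ndF (ndF (ndF TOK.nil TOK.nil (p8 h).2.2.1.2.1 (by decide +kernel)) (ndF TOK.nil TOK.nil (p8 h).2.2.2.1 (by decide +kernel)) (p8 h).2.2.1.2.2 (by decide +kernel)) (ndF (ndF TOK.nil TOK.nil (p8 h).2.2.2.2.2 (by decide +kernel)) TOK.nil (p9 h).1.1.1.1.1.1.1 (by decide +kernel)) (p8 h).2.2.2.2.1 (by decide +kernel)) (p8 h).2.2.1.1 (by decide +kernel)) (ndF (ndF (ndF (ndF TOK.nil TOK.nil (p9 h).1.1.1.1.1.2.1 (by decide +kernel)) (ndF TOK.nil TOK.nil (p9 h).1.1.1.1.2.1.1 (by decide +kernel)) (p9 h).1.1.1.1.1.2.2 (by decide +kernel)) (ndF (ndF TOK.nil TOK.nil (p9 h).1.1.1.1.2.2.1 (by decide +kernel)) TOK.nil (p9 h).1.1.1.1.2.2.2 (by decide +kernel)) (p9 h).1.1.1.1.2.1.2 (by decide +kernel)) (ndF (ndF (ndF TOK.nil TOK.nil (p9 h).1.1.1.2.1.1.2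 (by decide +kernel)) (ndF TOK.nil TOK.nil (p9 h).1.1.1.2.1.2.2 (by decide +kernel)) (p9 h).1.1.1.2.1.2.1 (by decide +kernel)) (ndF (ndF TOK.nil TOK.nil (p9 h).1.1.1.2.2.1.2 (by decide +kernel)) TOK.nil (p9 h).1.1.1.2.2.2.1 (by decide +kernel)) (p9 h).1.1.1.2.2.1.1 (by decide +kernel)) (p9 h).1.1.1.2.1.1.1 (by decide +kernel)) (p9 h).1.1.1.1.1.1.2 (by decide +kernel)) (p8 h).1.2.2.2.1 (by decide +kernel)) (p7 h).2.1.2.1.1 (by decide +kernel))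

theorem T_80_120_ok (h : RcOK RE.rowE) : T_80_120.OK :=
  okF (by decide +kernel) (ndF (ndF (ndF (ndF (ndF (ndF (ndF (ndF TOK.nil TOK.nil (p9 h).1.1.1.2.2.2.2 (by decide +kernel)) TOK.nil (p9 h).1.1.2.1.1.1.1 (by decide +kernel)) (ndF (ndF TOK.nil TOK.nil (p9 h).1.1.2.1.1.2.1 (by decide +kernel)) TOK.nil (p9 h).1.1.2.1.1.2.2 (by decide +kernel)) (p9 h).1.1.2.1.1.1.2 (by decide +kernel)) (ndF (ndF (ndF TOK.nil TOK.nil (p9 h).1.1.2.1.2.1.2 (by decide +kernel)) TOK.nil (p9 h).1.1.2.1.2.2.1 (by decide +kernel)) (ndF (ndF TOK.nil TOK.nil (p9 h).1.1.2.2.1.1.1 (by decide +kernel)) TOK.nil (p9 h).1.1.2.2.1.1.2 (by decide +kernel)) (p9 h).1.1.2.1.2.2.2 (by decide +kernel)) (p9 h).1.1.2.1.2.1.1 (by decide +kernel)) (ndF (ndF (ndF (ndF TOK.nil TOK.nil (p9 h).1.1.2.2.1.2.2 (by decide +kernel)) TOK.nil (p9 h).1.1.2.2.2.1.1 (by decide +kernel))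 (ndF (ndF TOK.nil TOK.nil (p9 h).1.1.2.2.2.2.1 (by decide +kernel)) TOK.nil (p9 h).1.1.2.2.2.2.2.1 (by decide +kernel)) (p9 h).1.1.2.2.2.1.2 (by decide +kernel)) (ndF (ndF (ndF TOK.nil TOK.nil (p9 h).1.2.1.1.1.1.1 (by decide +kernel)) TOK.nil (p9 h).1.2.1.1.1.1.2 (by decide +kernel)) (ndF TOK.nil TOK.nil (p9 h).1.2.1.1.1.2.2 (by decide +kernel)) (p9 h).1.2.1.1.1.2.1 (by decide +kernel)) (p9 h).1.1.2.2.2.2.2.2 (by decide +kernel)) (p9 h).1.1.2.2.1.2.1 (by decide +kernel)) (ndF (ndF (ndF (ndF (ndF TOK.nil TOK.nil (p9 h).1.2.1.1.2.1.2 (by decide +kernel)) TOK.nil (p9 h).1.2.1.1.2.2.1 (by decide +kernel)) (ndF (ndF TOK.nil TOK.nil (p9 h).1.2.1.2.1.1.1 (by decide +kernel)) TOK.nil (p9 h).1.2.1.2.1.1.2 (by decide +kernel)) (p9 h).1.2.1.1.2.2.2 (by decide +kernel)) (ndF (ndF (ndF TOK.nil TOK.nil (p9 h).1.2.1.2.1.2.2 (by decide +kernel))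 TOK.nil (p9 h).1.2.1.2.2.1.1 (by decide +kernel)) (ndF TOK.nil TOK.nil (p9 h).1.2.1.2.2.2.1 (by decide +kernel)) (p9 h).1.2.1.2.2.1.2 (by decide +kernel)) (p9 h).1.2.1.2.1.2.1 (by decide +kernel)) (ndF (ndF (ndF (ndF TOK.nil TOK.nil (p9 h).1.2.2.1.1.1.1 (by decide +kernel)) TOK.nil (p9 h).1.2.2.1.1.1.2 (by decide +kernel)) (ndF (ndF TOK.nil TOK.nil (p9 h).1.2.2.1.1.2.2 (by decide +kernel)) TOK.nil (p9 h).1.2.2.1.2.1.1 (by decide +kernel)) (p9 h).1.2.2.1.1.2.1 (by decide +kernel)) (ndF (ndF (ndF TOK.nil TOK.nil (p9 h).1.2.2.1.2.2.1 (by decide +kernel)) TOK.nil (p9 h).1.2.2.1.2.2.2 (by decide +kernel)) (ndF TOK.nil TOK.nil (p9 h).1.2.2.2.1.1.2 (by decide +kernel)) (p9 h).1.2.2.2.1.1.1 (by decide +kernel)) (p9 h).1.2.2.1.2.1.2 (by decide +kernel)) (p9 h).1.2.1.2.2.2.2 (by decide +kernel)) (p9 h).1.2.1.1.2.1.1 (by decide +kernel))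 (ndF (ndF (ndF (ndF (ndF (ndF TOK.nil TOK.nil (p9 h).1.2.2.2.1.2.2 (by decide +kernel)) TOK.nil (p9 h).1.2.2.2.2.1.1 (by decide +kernel)) (ndF (ndF TOK.nil TOK.nil (p9 h).1.2.2.2.2.2.1 (by decide +kernel)) TOK.nil (p9 h).1.2.2.2.2.2.2.1 (by decide +kernel)) (p9 h).1.2.2.2.2.1.2 (by decide +kernel)) (ndF (ndF (ndF TOK.nil TOK.nil (p9 h).2.1.1.1.1.1.1 (by decide +kernel)) TOK.nil (p9 h).2.1.1.1.1.1.2 (by decide +kernel)) (ndF (ndF TOK.nil TOK.nil (p9 h).2.1.1.1.1.2.2 (by decide +kernel)) TOK.nil (p9 h).2.1.1.1.2.1.1 (by decide +kernel)) (p9 h).2.1.1.1.1.2.1 (by decide +kernel)) (p9 h).1.2.2.2.2.2.2.2 (by decide +kernel)) (ndF (ndF (ndF (ndF TOK.nil TOK.nil (p9 h).2.1.1.1.2.2.1 (by decide +kernel)) TOK.nil (p9 h).2.1.1.1.2.2.2 (by decide +kernel)) (ndF (ndF TOK.nil TOK.nil (p9 h).2.1.1.2.1.1.2 (by decide +kernel)) TOK.nil (p9 h).2.1.1.2.1.2.1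 (by decide +kernel)) (p9 h).2.1.1.2.1.1.1 (by decide +kernel)) (ndF (ndF (ndF TOK.nil TOK.nil (p9 h).2.1.1.2.2.1.1 (by decide +kernel)) TOK.nil (p9 h).2.1.1.2.2.1.2 (by decide +kernel)) (ndF TOK.nil TOK.nil (p9 h).2.1.1.2.2.2.2 (by decide +kernel)) (p9 h).2.1.1.2.2.2.1 (by decide +kernel)) (p9 h).2.1.1.2.1.2.2 (by decide +kernel)) (p9 h).2.1.1.1.2.1.2 (by decide +kernel)) (ndF (ndF (ndF (ndF (ndF TOK.nil TOK.nil (p9 h).2.1.2.1.1.1.2 (by decide +kernel)) TOK.nil (p9 h).2.1.2.1.1.2.1 (by decide +kernel)) (ndF (ndF TOK.nil TOK.nil (p9 h).2.1.2.1.2.1.1 (by decide +kernel)) TOK.nil (p9 h).2.1.2.1.2.1.2 (by decide +kernel)) (p9 h).2.1.2.1.1.2.2 (by decide +kernel)) (ndF (ndF (ndF TOK.nil TOK.nil (p9 h).2.1.2.1.2.2.2 (by decide +kernel)) TOK.nil (p9 h).2.1.2.2.1.1.1 (by decide +kernel)) (ndF TOK.nil TOK.nil (p9 h).2.1.2.2.1.2.1 (by decide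 +kernel)) (p9 h).2.1.2.2.1.1.2 (by decide +kernel)) (p9 h).2.1.2.1.2.2.1 (by decide +kernel)) (ndF (ndF (ndF (ndF TOK.nil TOK.nil (p9 h).2.1.2.2.2.1.1 (by decide +kernel)) TOK.nil (p9 h).2.1.2.2.2.1.2 (by decide +kernel)) (ndF (ndF TOK.nil TOK.nil (p9 h).2.1.2.2.2.2.2.1 (by decide +kernel)) TOK.nil (p9 h).2.1.2.2.2.2.2.2 (by decide +kernel)) (p9 h).2.1.2.2.2.2.1 (by decide +kernel)) (ndF (ndF (ndF TOK.nil TOK.nil (p9 h).2.2.1.1.1.1.2 (by decide +kernel)) TOK.nil (p9 h).2.2.1.1.1.2.1 (by decide +kernel)) (ndF TOK.nil TOK.nil (p9 h).2.2.1.1.2.1.1 (by decide +kernel)) (p9 h).2.2.1.1.1.2.2 (by decide +kernel)) (p9 h).2.2.1.1.1.1.1 (by decide +kernel)) (p9 h).2.1.2.2.1.2.2 (by decide +kernel)) (p9 h).2.1.2.1.1.1.1 (by decide +kernel)) (p9 h).1.2.2.2.1.2.1 (by decide +kernel)) (ndF (ndF (ndF (ndF (ndF (ndF (ndF TOK.nil TOK.nil (p9 h).2.2.1.1.2.2.1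 (by decide +kernel)) TOK.nil (p9 h).2.2.1.1.2.2.2 (by decide +kernel)) (ndF (ndF TOK.nil TOK.nil (p9 h).2.2.1.2.1.1.2 (by decide +kernel)) TOK.nil (p9 h).2.2.1.2.1.2.1 (by decide +kernel)) (p9 h).2.2.1.2.1.1.1 (by decide +kernel)) (ndF (ndF (ndF TOK.nil TOK.nil (p9 h).2.2.1.2.2.1.1 (by decide +kernel)) TOK.nil (p9 h).2.2.1.2.2.1.2 (by decide +kernel)) (ndF (ndF TOK.nil TOK.nil (p9 h).2.2.1.2.2.2.2.1 (by decide +kernel)) TOK.nil (p9 h).2.2.1.2.2.2.2.2 (by decide +kernel)) (p9 h).2.2.1.2.2.2.1 (by decide +kernel)) (p9 h).2.2.1.2.1.2.2 (by decide +kernel)) (ndF (ndF (ndF (ndF TOK.nil TOK.nil (p9 h).2.2.2.1.1.1.2 (by decide +kernel)) TOK.nil (p9 h).2.2.2.1.1.2.1 (by decide +kernel)) (ndF (ndF TOK.nil TOK.nil (p9 h).2.2.2.1.2.1.1 (by decide +kernel)) TOK.nil (p9 h).2.2.2.1.2.1.2 (by decide +kernel)) (p9 h).2.2.2.1.1.2.2 (by decide +kernel))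 (ndF (ndF (ndF TOK.nil TOK.nil (p9 h).2.2.2.1.2.2.2 (by decide +kernel)) TOK.nil (p9 h).2.2.2.2.1.1.1 (by decide +kernel)) (ndF TOK.nil TOK.nil (p9 h).2.2.2.2.1.2.1 (by decide +kernel)) (p9 h).2.2.2.2.1.1.2 (by decide +kernel)) (p9 h).2.2.2.1.2.2.1 (by decide +kernel)) (p9 h).2.2.2.1.1.1.1 (by decide +kernel)) (ndF (ndF (ndF (ndF (ndF TOK.nil TOK.nil (p9 h).2.2.2.2.2.1.1 (by decide +kernel)) TOK.nil (p9 h).2.2.2.2.2.1.2 (by decide +kernel)) (ndF (ndF TOK.nil TOK.nil (p9 h).2.2.2.2.2.2.2.1 (by decide +kernel)) TOK.nil (p9 h).2.2.2.2.2.2.2.2 (by decide +kernel)) (p9 h).2.2.2.2.2.2.1 (by decide +kernel)) (ndF (ndF (ndF TOK.nil TOK.nil (p10 h).1.1.1.1.1.2 (by decide +kernel)) TOK.nil (p10 h).1.1.1.1.2.1 (by decide +kernel)) (ndF TOK.nil TOK.nil (p10 h).1.1.1.1.2.2.2 (by decide +kernel)) (p10 h).1.1.1.1.2.2.1 (by decide +kernel)) (p10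 h).1.1.1.1.1.1 (by decide +kernel)) (ndF (ndF (ndF (ndF TOK.nil TOK.nil (p10 h).1.1.1.2.1.2 (by decide +kernel)) TOK.nil (p10 h).1.1.1.2.2.1 (by decide +kernel)) (ndF (ndF TOK.nil TOK.nil (p10 h).1.1.1.2.2.2.2 (by decide +kernel)) TOK.nil (p10 h).1.1.2.1.1.1 (by decide +kernel)) (p10 h).1.1.1.2.2.2.1 (by decide +kernel)) (ndF (ndF (ndF TOK.nil TOK.nil (p10 h).1.1.2.1.2.1 (by decide +kernel)) TOK.nil (p10 h).1.1.2.1.2.2.1 (by decide +kernel)) (ndF TOK.nil TOK.nil (p10 h).1.1.2.2.1.1 (by decide +kernel)) (p10 h).1.1.2.1.2.2.2 (by decide +kernel)) (p10 h).1.1.2.1.1.2 (by decide +kernel)) (p10 h).1.1.1.2.1.1 (by decide +kernel)) (p9 h).2.2.2.2.1.2.2 (by decide +kernel)) (ndF (ndF (ndF (ndF (ndF (ndF TOK.nil TOK.nil (p10 h).1.1.2.2.1.2.2 (by decide +kernel)) TOK.nil (p10 h).1.1.2.2.2.1 (by decide +kernel)) (ndF (ndF TOK.nil TOK.nil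 (p10 h).1.1.2.2.2.2.2 (by decide +kernel)) TOK.nil (p10 h).1.2.1.1.1.1 (by decide +kernel)) (p10 h).1.1.2.2.2.2.1 (by decide +kernel)) (ndF (ndF (ndF TOK.nil TOK.nil (p10 h).1.2.1.1.2.1 (by decide +kernel)) TOK.nil (p10 h).1.2.1.1.2.2.1 (by decide +kernel)) (ndF (ndF TOK.nil TOK.nil (p10 h).1.2.1.2.1.1 (by decide +kernel)) TOK.nil (p10 h).1.2.1.2.1.2.1 (by decide +kernel)) (p10 h).1.2.1.1.2.2.2 (by decide +kernel)) (p10 h).1.2.1.1.1.2 (by decide +kernel)) (ndF (ndF (ndF (ndF TOK.nil TOK.nil (p10 h).1.2.1.2.2.1 (by decide +kernel)) TOK.nil (p10 h).1.2.1.2.2.2.1 (by decide +kernel)) (ndF (ndF TOK.nil TOK.nil (p10 h).1.2.2.1.1.1 (by decide +kernel)) TOK.nil (p10 h).1.2.2.1.1.2 (by decide +kernel)) (p10 h).1.2.1.2.2.2.2 (by decide +kernel)) (ndF (ndF (ndF TOK.nil TOK.nil (p10 h).1.2.2.1.2.2.1 (by decide +kernel)) TOK.nil (p10 h).1.2.2.1.2.2.2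 (by decide +kernel)) (ndF TOK.nil TOK.nil (p10 h).1.2.2.2.1.2.1 (by decide +kernel)) (p10 h).1.2.2.2.1.1 (by decide +kernel)) (p10 h).1.2.2.1.2.1 (by decide +kernel)) (p10 h).1.2.1.2.1.2.2 (by decide +kernel)) (ndF (ndF (ndF (ndF (ndF TOK.nil TOK.nil (p10 h).1.2.2.2.2.1 (by decide +kernel)) TOK.nil (p10 h).1.2.2.2.2.2.1 (by decide +kernel)) (ndF (ndF TOK.nil TOK.nil (p10 h).2.1.1.1.1.1 (by decide +kernel)) TOK.nil (p10 h).2.1.1.1.1.2 (by decide +kernel)) (p10 h).1.2.2.2.2.2.2 (by decide +kernel)) (ndF (ndF (ndF TOK.nil TOK.nil (p10 h).2.1.1.1.2.2.1 (by decide +kernel)) TOK.nil (p10 h).2.1.1.1.2.2.2 (by decide +kernel)) (ndF TOK.nil TOK.nil (p10 h).2.1.1.2.1.2.1 (by decide +kernel)) (p10 h).2.1.1.2.1.1 (by decide +kernel)) (p10 h).2.1.1.1.2.1 (by decide +kernel)) (ndF (ndF (ndF (ndF TOK.nil TOK.nil (p10 h).2.1.1.2.2.1 (by decide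 +kernel)) TOK.nil (p10 h).2.1.1.2.2.2.1 (by decide +kernel)) (ndF (ndF TOK.nil TOK.nil (p10 h).2.1.2.1.1.1 (by decide +kernel)) TOK.nil (p10 h).2.1.2.1.1.2 (by decide +kernel)) (p10 h).2.1.1.2.2.2.2 (by decide +kernel)) (ndF (ndF (ndF TOK.nil TOK.nil (p10 h).2.1.2.1.2.2.1 (by decide +kernel)) TOK.nil (p10 h).2.1.2.1.2.2.2 (by decide +kernel)) (ndF TOK.nil TOK.nil (p10 h).2.1.2.2.1.2.1 (by decide +kernel)) (p10 h).2.1.2.2.1.1 (by decide +kernel)) (p10 h).2.1.2.1.2.1 (by decide +kernel)) (p10 h).2.1.1.2.1.2.2 (by decide +kernel)) (p10 h).1.2.2.2.1.2.2 (by decide +kernel)) (p10 h).1.1.2.2.1.2.1 (by decide +kernel)) (p9 h).2.2.1.1.2.1.2 (by decide +kernel))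

theorem R_60_100_140_ok (h : RcOK RE.rowE) : R_60_100_140.OK :=
  okF (by decide +kernel) (ndF (ndF (ndF (ndF (ndF (ndF (ndF TOK.nil TOK.nil (p10 h).2.1.2.2.1.2.2 (by decide +kernel)) TOK.nil (p10 h).2.1.2.2.2.1 (by decide +kernel)) (ndF (ndF TOK.nil TOK.nil (p10 h).2.1.2.2.2.2.2 (by decide +kernel)) TOK.nil (p10 h).2.2.1.1.1.1 (by decide +kernel)) (p10 h).2.1.2.2.2.2.1 (by decide +kernel)) (ndF (ndF (ndF TOK.nil TOK.nil (p10 h).2.2.1.1.2.1 (by decide +kernel)) TOK.nil (p10 h).2.2.1.1.2.2.1 (by decide +kernel)) (ndF (ndF TOK.nil TOK.nil (p10 h).2.2.1.2.1.1 (by decide +kernel)) TOK.nil (p10 h).2.2.1.2.1.2.1 (by decide +kernel)) (p10 h).2.2.1.1.2.2.2 (by decide +kernel)) (p10 h).2.2.1.1.1.2 (by decide +kernel)) (ndF (ndF (ndF (ndF TOK.nil TOK.nil (p10 h).2.2.1.2.2.1 (by decide +kernel)) TOK.nil (p10 h).2.2.1.2.2.2.1 (by decide +kernel))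 (ndF (ndF TOK.nil TOK.nil (p10 h).2.2.2.1.1.1 (by decide +kernel)) TOK.nil (p10 h).2.2.2.1.1.2 (by decide +kernel)) (p10 h).2.2.1.2.2.2.2 (by decide +kernel)) (ndF (ndF (ndF TOK.nil TOK.nil (p10 h).2.2.2.1.2.2.1 (by decide +kernel)) TOK.nil (p10 h).2.2.2.1.2.2.2 (by decide +kernel)) (ndF (ndF TOK.nil TOK.nil (p10 h).2.2.2.2.1.2.1 (by decide +kernel)) TOK.nil (p10 h).2.2.2.2.1.2.2 (by decide +kernel)) (p10 h).2.2.2.2.1.1 (by decide +kernel)) (p10 h).2.2.2.1.2.1 (by decide +kernel)) (p10 h).2.2.1.2.1.2.2 (by decide +kernel)) (ndF (ndF (ndF (ndF (ndF TOK.nil TOK.nil (p10 h).2.2.2.2.2.2.1 (by decide +kernel)) TOK.nil (p10 h).2.2.2.2.2.2.2 (by decide +kernel)) (ndF (ndF TOK.nil TOK.nil (p11 h).1.1.1.1.2 (by decide +kernel)) TOK.nil (p11 h).1.1.1.2.1 (by decide +kernel)) (p11 h).1.1.1.1.1 (by decide +kernel)) (ndF (ndF (ndF TOK.nil TOK.nil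 (p11 h).1.1.2.1.1 (by decide +kernel)) TOK.nil (p11 h).1.1.2.1.2 (by decide +kernel)) (ndF (ndF TOK.nil TOK.nil (p11 h).1.1.2.2.2.1 (by decide +kernel)) TOK.nil (p11 h).1.1.2.2.2.2 (by decide +kernel)) (p11 h).1.1.2.2.1 (by decide +kernel)) (p11 h).1.1.1.2.2 (by decide +kernel)) (ndF (ndF (ndF (ndF TOK.nil TOK.nil (p11 h).1.2.1.1.2 (by decide +kernel)) TOK.nil (p11 h).1.2.1.2.1 (by decide +kernel)) (ndF (ndF TOK.nil TOK.nil (p11 h).1.2.1.2.2.2 (by decide +kernel)) TOK.nil (p11 h).1.2.2.1.1 (by decide +kernel)) (p11 h).1.2.1.2.2.1 (by decide +kernel)) (ndF (ndF (ndF TOK.nil TOK.nil (p11 h).1.2.2.2.1 (by decide +kernel)) TOK.nil (p11 h).1.2.2.2.2.1 (by decide +kernel)) (ndF (ndF TOK.nil TOK.nil (p11 h).2.1.1.1.1 (by decide +kernel)) TOK.nil (p11 h).2.1.1.1.2 (by decide +kernel)) (p11 h).1.2.2.2.2.2 (by decide +kernel)) (p11 h).1.2.2.1.2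 (by decide +kernel)) (p11 h).1.2.1.1.1 (by decide +kernel)) (p10 h).2.2.2.2.2.1 (by decide +kernel)) (ndF (ndF (ndF (ndF (ndF (ndF TOK.nil TOK.nil (p11 h).2.1.1.2.2.1 (by decide +kernel)) TOK.nil (p11 h).2.1.1.2.2.2 (by decide +kernel)) (ndF (ndF TOK.nil TOK.nil (p11 h).2.1.2.1.2 (by decide +kernel)) TOK.nil (p11 h).2.1.2.2.1 (by decide +kernel)) (p11 h).2.1.2.1.1 (by decide +kernel)) (ndF (ndF (ndF TOK.nil TOK.nil (p11 h).2.1.2.2.2.2 (by decide +kernel)) TOK.nil (p11 h).2.2.1.1.1 (by decide +kernel)) (ndF (ndF TOK.nil TOK.nil (p11 h).2.2.1.2.1 (by decide +kernel)) TOK.nil (p11 h).2.2.1.2.2.1 (by decide +kernel)) (p11 h).2.2.1.1.2 (by decide +kernel)) (p11 h).2.1.2.2.2.1 (by decide +kernel)) (ndF (ndF (ndF (ndF TOK.nil TOK.nil (p11 h).2.2.2.1.1 (by decide +kernel)) TOK.nil (p11 h).2.2.2.1.2 (by decide +kernel)) (ndF (ndF TOK.nil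 TOK.nil (p11 h).2.2.2.2.2.1 (by decide +kernel)) TOK.nil (p11 h).2.2.2.2.2.2 (by decide +kernel)) (p11 h).2.2.2.2.1 (by decide +kernel)) (ndF (ndF (ndF TOK.nil TOK.nil (p12 h).1.1.1.1.2 (by decide +kernel)) TOK.nil (p12 h).1.1.1.2.1 (by decide +kernel)) (ndF (ndF TOK.nil TOK.nil (p12 h).1.1.2.1.1 (by decide +kernel)) TOK.nil (p12 h).1.1.2.1.2 (by decide +kernel)) (p12 h).1.1.1.2.2 (by decide +kernel)) (p12 h).1.1.1.1.1 (by decide +kernel)) (p11 h).2.2.1.2.2.2 (by decide +kernel)) (ndF (ndF (ndF (ndF (ndF TOK.nil TOK.nil (p12 h).1.1.2.2.2 (by decide +kernel)) TOK.nil (p12 h).1.2.1.1.1 (by decide +kernel)) (ndF (ndF TOK.nil TOK.nil (p12 h).1.2.1.2.1 (by decide +kernel)) TOK.nil (p12 h).1.2.1.2.2 (by decide +kernel)) (p12 h).1.2.1.1.2 (by decide +kernel)) (ndF (ndF (ndF TOK.nil TOK.nil (p12 h).1.2.2.1.2 (by decide +kernel)) TOK.nil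 (p12 h).1.2.2.2.1 (by decide +kernel)) (ndF (ndF TOK.nil TOK.nil (p12 h).1.2.2.2.2.2 (by decide +kernel)) TOK.nil (p12 h).2.1.1.1.1 (by decide +kernel)) (p12 h).1.2.2.2.2.1 (by decide +kernel)) (p12 h).1.2.2.1.1 (by decide +kernel)) (ndF (ndF (ndF (ndF TOK.nil TOK.nil (p12 h).2.1.1.2.1 (by decide +kernel)) TOK.nil (p12 h).2.1.1.2.2 (by decide +kernel)) (ndF (ndF TOK.nil TOK.nil (p12 h).2.1.2.1.2 (by decide +kernel)) TOK.nil (p12 h).2.1.2.2.1 (by decide +kernel)) (p12 h).2.1.2.1.1 (by decide +kernel)) (ndF (ndF (ndF TOK.nil TOK.nil (p12 h).2.1.2.2.2.2 (by decide +kernel)) TOK.nil (p12 h).2.2.1.1.1 (by decide +kernel)) (ndF TOK.nil TOK.nil (p12 h).2.2.1.2.1 (by decide +kernel)) (p12 h).2.2.1.1.2 (by decide +kernel)) (p12 h).2.1.2.2.2.1 (by decide +kernel)) (p12 h).2.1.1.1.2 (by decide +kernel)) (p12 h).1.1.2.2.1 (by decide +kernel))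 (p11 h).2.1.1.2.1 (by decide +kernel))

theorem R_80_100_120_ok (h : RcOK RE.rowE) : R_80_100_120.OK :=
  okF (by decide +kernel) (ndF (ndF (ndF (ndF (ndF (ndF (ndF TOK.nil TOK.nil (p12 h).2.2.1.2.2 (by decide +kernel)) (ndF TOK.nil TOK.nil (p12 h).2.2.2.1.2 (by decide +kernel)) (p12 h).2.2.2.1.1 (by decide +kernel)) (ndF (ndF TOK.nil TOK.nil (p12 h).2.2.2.2.2.1 (by decide +kernel)) (ndF TOK.nil TOK.nil (p13 h).1.1.1.1.1.1.1.1 (by decide +kernel)) (p12 h).2.2.2.2.2.2 (by decide +kernel)) (p12 h).2.2.2.2.1 (by decide +kernel)) (ndF (ndF (ndF TOK.nil TOK.nil (p13 h).1.1.1.1.1.1.1.2.2 (by decide +kernel)) (ndF TOK.nil TOK.nil (p13 h).1.1.1.1.1.1.2.1.2 (by decide +kernel)) (p13 h).1.1.1.1.1.1.2.1.1 (by decide +kernel)) (ndF (ndF TOK.nil TOK.nil (p13 h).1.1.1.1.1.1.2.2.2 (by decide +kernel)) (ndF TOK.nil TOK.nil (p13 h).1.1.1.1.1.2.1.1.2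 (by decide +kernel)) (p13 h).1.1.1.1.1.2.1.1.1 (by decide +kernel)) (p13 h).1.1.1.1.1.1.2.2.1 (by decide +kernel)) (p13 h).1.1.1.1.1.1.1.2.1 (by decide +kernel)) (ndF (ndF (ndF (ndF TOK.nil TOK.nil (p13 h).1.1.1.1.1.2.1.2.2 (by decide +kernel)) (ndF TOK.nil TOK.nil (p13 h).1.1.1.1.1.2.2.1.2 (by decide +kernel)) (p13 h).1.1.1.1.1.2.2.1.1 (by decide +kernel)) (ndF (ndF TOK.nil TOK.nil (p13 h).1.1.1.1.1.2.2.2.2 (by decide +kernel)) (ndF TOK.nil TOK.nil (p13 h).1.1.1.1.2.1.1.2.1 (by decide +kernel)) (p13 h).1.1.1.1.2.1.1.1 (by decide +kernel)) (p13 h).1.1.1.1.1.2.2.2.1 (by decide +kernel)) (ndF (ndF (ndF TOK.nil TOK.nil (p13 h).1.1.1.1.2.1.2.1.1 (by decide +kernel)) (ndF TOK.nil TOK.nil (p13 h).1.1.1.1.2.1.2.2.1 (by decide +kernel)) (p13 h).1.1.1.1.2.1.2.1.2 (by decide +kernel)) (ndF (ndF TOK.nil TOK.nil (p13 h).1.1.1.1.2.2.1.1.1 (by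 decide +kernel)) TOK.nil (p13 h).1.1.1.1.2.2.1.1.2 (by decide +kernel)) (p13 h).1.1.1.1.2.1.2.2.2 (by decide +kernel)) (p13 h).1.1.1.1.2.1.1.2.2 (by decide +kernel)) (p13 h).1.1.1.1.1.2.1.2.1 (by decide +kernel)) (ndF (ndF (ndF (ndF (ndF TOK.nil TOK.nil (p13 h).1.1.1.1.2.2.1.2.2 (by decide +kernel)) (ndF TOK.nil TOK.nil (p13 h).1.1.1.1.2.2.2.1.2 (by decide +kernel)) (p13 h).1.1.1.1.2.2.2.1.1 (by decide +kernel)) (ndF (ndF TOK.nil TOK.nil (p13 h).1.1.1.1.2.2.2.2.2 (by decide +kernel)) (ndF TOK.nil TOK.nil (p13 h).1.1.1.2.1.1.1.2.1 (by decide +kernel)) (p13 h).1.1.1.2.1.1.1.1 (by decide +kernel)) (p13 h).1.1.1.1.2.2.2.2.1 (by decide +kernel)) (ndF (ndF (ndF TOK.nil TOK.nil (p13 h).1.1.1.2.1.1.2.1.1 (by decide +kernel)) (ndF TOK.nil TOK.nil (p13 h).1.1.1.2.1.1.2.2.1 (by decide +kernel)) (p13 h).1.1.1.2.1.1.2.1.2 (by decide +kernel))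 (ndF (ndF TOK.nil TOK.nil (p13 h).1.1.1.2.1.2.1.1.1 (by decide +kernel)) TOK.nil (p13 h).1.1.1.2.1.2.1.1.2 (by decide +kernel)) (p13 h).1.1.1.2.1.1.2.2.2 (by decide +kernel)) (p13 h).1.1.1.2.1.1.1.2.2 (by decide +kernel)) (ndF (ndF (ndF (ndF TOK.nil TOK.nil (p13 h).1.1.1.2.1.2.1.2.2 (by decide +kernel)) (ndF TOK.nil TOK.nil (p13 h).1.1.1.2.1.2.2.1.2 (by decide +kernel)) (p13 h).1.1.1.2.1.2.2.1.1 (by decide +kernel)) (ndF (ndF TOK.nil TOK.nil (p13 h).1.1.1.2.1.2.2.2.2 (by decide +kernel)) (ndF TOK.nil TOK.nil (p13 h).1.1.1.2.2.1.1.1.2 (by decide +kernel)) (p13 h).1.1.1.2.2.1.1.1.1 (by decide +kernel)) (p13 h).1.1.1.2.1.2.2.2.1 (by decide +kernel)) (ndF (ndF (ndF TOK.nil TOK.nil (p13 h).1.1.1.2.2.1.1.2.2 (by decide +kernel)) (ndF TOK.nil TOK.nil (p13 h).1.1.1.2.2.1.2.1.2 (by decide +kernel)) (p13 h).1.1.1.2.2.1.2.1.1 (by decide +kernel))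 (ndF (ndF TOK.nil TOK.nil (p13 h).1.1.1.2.2.1.2.2.2 (by decide +kernel)) TOK.nil (p13 h).1.1.1.2.2.2.1.1.1 (by decide +kernel)) (p13 h).1.1.1.2.2.1.2.2.1 (by decide +kernel)) (p13 h).1.1.1.2.2.1.1.2.1 (by decide +kernel)) (p13 h).1.1.1.2.1.2.1.2.1 (by decide +kernel)) (p13 h).1.1.1.1.2.2.1.2.1 (by decide +kernel)) (ndF (ndF (ndF (ndF (ndF (ndF TOK.nil TOK.nil (p13 h).1.1.1.2.2.2.1.2.1 (by decide +kernel)) (ndF TOK.nil TOK.nil (p13 h).1.1.1.2.2.2.2.1.1 (by decide +kernel)) (p13 h).1.1.1.2.2.2.1.2.2 (by decide +kernel)) (ndF (ndF TOK.nil TOK.nil (p13 h).1.1.1.2.2.2.2.2.1 (by decide +kernel)) (ndF TOK.nil TOK.nil (p13 h).1.1.2.1.1.1.1.1 (by decide +kernel)) (p13 h).1.1.1.2.2.2.2.2.2 (by decide +kernel)) (p13 h).1.1.1.2.2.2.2.1.2 (by decide +kernel)) (ndF (ndF (ndF TOK.nil TOK.nil (p13 h).1.1.2.1.1.1.1.2.2 (by decide +kernel)) (ndF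 TOK.nil TOK.nil (p13 h).1.1.2.1.1.1.2.1.2 (by decide +kernel)) (p13 h).1.1.2.1.1.1.2.1.1 (by decide +kernel)) (ndF (ndF TOK.nil TOK.nil (p13 h).1.1.2.1.1.1.2.2.2 (by decide +kernel)) TOK.nil (p13 h).1.1.2.1.1.2.1.1.1 (by decide +kernel)) (p13 h).1.1.2.1.1.1.2.2.1 (by decide +kernel)) (p13 h).1.1.2.1.1.1.1.2.1 (by decide +kernel)) (ndF (ndF (ndF (ndF TOK.nil TOK.nil (p13 h).1.1.2.1.1.2.1.2.1 (by decide +kernel)) (ndF TOK.nil TOK.nil (p13 h).1.1.2.1.1.2.2.1.1 (by decide +kernel)) (p13 h).1.1.2.1.1.2.1.2.2 (by decide +kernel)) (ndF (ndF TOK.nil TOK.nil (p13 h).1.1.2.1.1.2.2.2.1 (by decide +kernel)) (ndF TOK.nil TOK.nil (p13 h).1.1.2.1.2.1.1.1 (by decide +kernel)) (p13 h).1.1.2.1.1.2.2.2.2 (by decide +kernel)) (p13 h).1.1.2.1.1.2.2.1.2 (by decide +kernel)) (ndF (ndF (ndF TOK.nil TOK.nil (p13 h).1.1.2.1.2.1.1.2.2 (by decide +kernel))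 (ndF TOK.nil TOK.nil (p13 h).1.1.2.1.2.1.2.1.2 (by decide +kernel)) (p13 h).1.1.2.1.2.1.2.1.1 (by decide +kernel)) (ndF (ndF TOK.nil TOK.nil (p13 h).1.1.2.1.2.1.2.2.2 (by decide +kernel)) TOK.nil (p13 h).1.1.2.1.2.2.1.1.1 (by decide +kernel)) (p13 h).1.1.2.1.2.1.2.2.1 (by decide +kernel)) (p13 h).1.1.2.1.2.1.1.2.1 (by decide +kernel)) (p13 h).1.1.2.1.1.2.1.1.2 (by decide +kernel)) (ndF (ndF (ndF (ndF (ndF TOK.nil TOK.nil (p13 h).1.1.2.1.2.2.1.2.1 (by decide +kernel)) (ndF TOK.nil TOK.nil (p13 h).1.1.2.1.2.2.2.1.1 (by decide +kernel)) (p13 h).1.1.2.1.2.2.1.2.2 (by decide +kernel)) (ndF (ndF TOK.nil TOK.nil (p13 h).1.1.2.1.2.2.2.2.1 (by decide +kernel)) (ndF TOK.nil TOK.nil (p13 h).1.1.2.2.1.1.1.1 (by decide +kernel)) (p13 h).1.1.2.1.2.2.2.2.2 (by decide +kernel)) (p13 h).1.1.2.1.2.2.2.1.2 (by decide +kernel)) (ndF (ndF (ndF TOK.nil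 TOK.nil (p13 h).1.1.2.2.1.1.1.2.2 (by decide +kernel)) (ndF TOK.nil TOK.nil (p13 h).1.1.2.2.1.1.2.1.2 (by decide +kernel)) (p13 h).1.1.2.2.1.1.2.1.1 (by decide +kernel)) (ndF (ndF TOK.nil TOK.nil (p13 h).1.1.2.2.1.1.2.2.2 (by decide +kernel)) TOK.nil (p13 h).1.1.2.2.1.2.1.1.1 (by decide +kernel)) (p13 h).1.1.2.2.1.1.2.2.1 (by decide +kernel)) (p13 h).1.1.2.2.1.1.1.2.1 (by decide +kernel)) (ndF (ndF (ndF (ndF TOK.nil TOK.nil (p13 h).1.1.2.2.1.2.1.2.1 (by decide +kernel)) (ndF TOK.nil TOK.nil (p13 h).1.1.2.2.1.2.2.1.1 (by decide +kernel)) (p13 h).1.1.2.2.1.2.1.2.2 (by decide +kernel)) (ndF (ndF TOK.nil TOK.nil (p13 h).1.1.2.2.1.2.2.2.1 (by decide +kernel)) (ndF TOK.nil TOK.nil (p13 h).1.1.2.2.2.1.1.1.1 (by decide +kernel)) (p13 h).1.1.2.2.1.2.2.2.2 (by decide +kernel)) (p13 h).1.1.2.2.1.2.2.1.2 (by decide +kernel)) (ndF (ndF (ndF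 TOK.nil TOK.nil (p13 h).1.1.2.2.2.1.1.2.1 (by decide +kernel)) (ndF TOK.nil TOK.nil (p13 h).1.1.2.2.2.1.2.1.1 (by decide +kernel)) (p13 h).1.1.2.2.2.1.1.2.2 (by decide +kernel)) (ndF (ndF TOK.nil TOK.nil (p13 h).1.1.2.2.2.1.2.2.1 (by decide +kernel)) TOK.nil (p13 h).1.1.2.2.2.1.2.2.2 (by decide +kernel)) (p13 h).1.1.2.2.2.1.2.1.2 (by decide +kernel)) (p13 h).1.1.2.2.2.1.1.1.2 (by decide +kernel)) (p13 h).1.1.2.2.1.2.1.1.2 (by decide +kernel)) (p13 h).1.1.2.1.2.2.1.1.2 (by decide +kernel)) (p13 h).1.1.1.2.2.2.1.1.2 (by decide +kernel))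


end TB
end Pool.Agent.Lib.MP_6947cd_al
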