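import Pool.Agent.Lib.MP_6947cd_al.TB.Env
import Pool.Agent.Lib.MP_6947cd_al.TB.Ok1
import Pool.Agent.Lib.MP_6947cd_al.TB.Ok2
import Pool.Agent.Lib.MP_6947cd_al.TB.Ok3
import Pool.Agent.Lib.MP_6947cd_al.TB.Ok4
import Pool.Agent.Lib.MP_6947cd_al.TB.Ok5
import Pool.Agent.Lib.MP_6947cd_al.TB.Ok6
import Pool.Agent.Lib.MP_6947cd_al.TB.Ok7
import Pool.Agent.Lib.MP_6947cd_al.TB.Ok8
import Pool.Agent.Lib.MP_6947cd_al.TB.Ok9
import Pool.Agent.Lib.MP_6947cd_al.TB.Ok10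
import Pool.Agent.Lib.MP_6947cd_al.TB.Ok11
import Pool.Agent.Lib.MP_6947cd_al.TB.Ok12
import Pool.Agent.Lib.MP_6947cd_al.TB.Ok13
import Pool.Agent.Lib.MP_6947cd_al.TB.Ok14
import Pool.Agent.Lib.MP_6947cd_al.TB.Ok15
import Pool.Agent.Lib.MP_6947cd_al.TB.Ok16
import Pool.Agent.Lib.MP_6947cd_al.TB.Ok17
import Pool.Agent.Lib.MP_6947cd_al.TB.Ok18
import Pool.Agent.Lib.MP_6947cd_al.TB.Ok19
import Pool.Agent.Lib.MP_6947cd_al.TB.Ok20
import Pool.Agent.Lib.MP_6947cd_al.TB.Ok21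
import Pool.Agent.Lib.MP_6947cd_al.TB.Ok22
import Pool.Agent.Lib.MP_6947cd_al.TB.Ok23
import Pool.Agent.Lib.MP_6947cd_al.TB.Ok24
import Pool.Agent.Lib.MP_6947cd_al.TB.Ok25
import Pool.Agent.Lib.MP_6947cd_al.TB.Ok26
import Pool.Agent.Lib.MP_6947cd_al.TB.Ok27

/-!
Problem MP_6947cd_al (Chollet).  THE ENVIRONMENT IS CORRECT.
-/

set_option autoImplicit false
set_option maxHeartbeats 0
set_option maxRecDepth 100000
set_option linter.all false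

namespace Pool.Agent.Lib.MP_6947cd_al
namespace TB

open Ent Ent.Pk Fr Fr.WT B1 PkA PkA.TF

theorem env_ok (h : RcOK RE.rowE) : EnvF env :=
  EnvF.cons (T_10_20_ok h) <| EnvF.cons (T_100_140_ok h) <| EnvF.cons (T_100_120_ok h) <| EnvF.cons (T_80_100_ok h) <| EnvF.cons (T_5_10_ok h) <| EnvF.cons (T_20_40_ok h) <| EnvF.cons (R_40_80_100_ok h) <| EnvF.cons (T_80_120_ok h) <| EnvF.cons (R_60_100_140_ok h) <| EnvF.cons (R_80_100_120_ok h) <| EnvF.cons (T_2_4_ok h) <| EnvF.cons (R_80_100_140_ok h) <| EnvF.cons (T_100_160_ok h) <| EnvF.cons (T_80_140_ok h) <| EnvF.cons (T_120_160_ok h) <| EnvF.cons (T_30_60_ok h) <| EnvF.cons (T_60_100_ok h) <| EnvF.cons (T_120_140_ok h) <| EnvF.cons (R_60_100_120_ok h) <| EnvF.cons (T_1_2_ok h) <| EnvF.cons (R_20_60_100_ok h) <| EnvF.cons (R_80_120_160_ok h) <| EnvF.cons (T_60_80_ok h) <| EnvF.cons (R_60_100_160_ok h) <| EnvF.cons (R_40_80_ok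 h) <| EnvF.cons (R_100_120_140_ok h) <| EnvF.cons (R_100_120_ok h) <| EnvF.cons (R_40_80_140_ok h) <| EnvF.cons (T_120_180_ok h) <| EnvF.cons (R_80_120_140_ok h) <| EnvF.cons (T_15_30_ok h) <| EnvF.cons (R_80_100_ok h) <| EnvF.cons (T_140_180_ok h) <| EnvF.cons (T_40_80_ok h) <| EnvF.cons (R_40_80_120_ok h) <| EnvF.cons (R_20_60_80_ok h) <| EnvF.cons (R_60_80_120_ok h) <| EnvF.cons (R_80_120_180_ok h) <| EnvF.cons (T_4_8_ok h) <| EnvF.cons (R_80_120_ok h) <| EnvF.cons (R_60_80_ok h) <| EnvF.cons (T_140_160_ok h) <| EnvF.cons (R_60_80_140_ok h) <| EnvF.cons (T_60_120_ok h) <| EnvF.cons (T_25_50_ok h) <| EnvF.cons (T_3_6_ok h) <| EnvF.cons (R_100_140_160_ok h) <| EnvF.cons (T_6_12_ok h) <| EnvF.cons (R_80_100_160_ok h) <| EnvF.cons (R_60_100_ok h) <| EnvF.cons (T_8_16_ok h) <| EnvF.cons (R_100_140_ok h) <| EnvF.cons (R_60_90_120_140_ok h) <| EnvF.cons (R_100_120_160_ok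 h) <| EnvF.cons (R_20_60_120_ok h) <| EnvF.cons (R_20_80_100_ok h) <| EnvF.cons (R_80_140_180_ok h) <| EnvF.cons (R_20_80_120_ok h) <| EnvF.cons (T_160_180_ok h) <| EnvF.cons (R_60_80_100_ok h) <| EnvF.cons (R_100_140_180_ok h) <| EnvF.cons (R_40_100_140_ok h) <| EnvF.cons (R_120_160_180_ok h) <| EnvF.cons (T_60_140_ok h) <| EnvF.cons (T_40_100_ok h) <| EnvF.cons (T_80_160_ok h) <| EnvF.cons (R_20_60_ok h) <| EnvF.cons (T_20_60_ok h) <| EnvF.cons (T_100_180_ok h) <| EnvF.cons (R_40_100_ok h) <| EnvF.cons (R_80_140_ok h) <| EnvF.cons (R_60_100_180_ok h) <| EnvF.cons (R_40_100_160_ok h) <| EnvF.cons (T_140_200_ok h) <| EnvF.cons (R_60_120_ok h) <| EnvF.cons (R_40_80_160_ok h) <| EnvF.cons (T_160_200_ok h) <| EnvF.cons (R_120_140_ok h) <| EnvF.cons (R_40_60_80_ok h) <| EnvF.cons (R_60_120_160_ok h) <| EnvF.cons (T_7_14_ok h) <| EnvF.cons (R_20_80_140_ok h) <| EnvF.cons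 (R_60_140_ok h) <| EnvF.cons (R_80_140_200_ok h) <| EnvF.cons (R_60_120_180_ok h) <| EnvF.cons (R_40_60_100_ok h) <| EnvF.cons (R_20_80_ok h) <| EnvF.cons (T_20_80_ok h) <| EnvF.cons (R_20_100_ok h) <| EnvF.cons (T_20_100_ok h) <| EnvF.cons (R_50_90_110_ok h) <| EnvF.cons (R_50_90_110_140_ok h) <| EnvF.cons (R_120_140_180_ok h) <| EnvF.cons (R_20_60_140_ok h) <| EnvF.cons (R_40_140_ok h) <| EnvF.cons (T_40_140_ok h) <| EnvF.cons (R_90_110_130_ok h) <| EnvF.cons (R_120_160_200_ok h) <| EnvF.cons (R_40_80_100_120_ok h) <| EnvF.cons (R_60_120_140_ok h) <| EnvF.cons (T_18_36_ok h) <| EnvF.cons (R_40_80_100_110_ok h) <| EnvF.cons (R_40_100_120_ok h) <| EnvF.cons (R_90_110_140_ok h) <| EnvF.cons (R_100_160_200_ok h) <| EnvF.cons (R_80_90_110_ok h) <| EnvF.cons (R_120_140_160_ok h) <| EnvF.cons (R_100_160_ok h) <| EnvF.cons (T_26_52_ok h) <| EnvF.cons (T_40_120_ok h) <| EnvF.cons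 (R_40_120_ok h) <| EnvF.cons (T_120_200_ok h) <| EnvF.cons (R_40_60_ok h) <| EnvF.cons (T_40_60_ok h) <| EnvF.cons (T_23_46_ok h) <| EnvF.cons (R_60_110_130_ok h) <| EnvF.cons (R_80_160_ok h) <| EnvF.cons (R_50_90_110_130_ok h) <| EnvF.cons (R_100_140_200_ok h) <| EnvF.cons (T_14_28_ok h) <| EnvF.cons (T_19_38_ok h) <| EnvF.cons (R_120_180_ok h) <| EnvF.cons (R_80_120_200_ok h) <| EnvF.cons (R_80_100_130_ok h) <| EnvF.cons (R_80_90_100_ok h) <| EnvF.cons (R_80_140_160_ok h) <| EnvF.cons (T_12_24_ok h) <| EnvF.cons (R_40_60_80_100_ok h) <| EnvF.cons (R_40_80_100_130_ok h) <| EnvF.cons (R_80_90_110_120_ok h) <| EnvF.cons (R_50_100_120_140_ok h) <| EnvF.cons (R_20_40_100_ok h) <| EnvF.cons (R_20_140_ok h) <| EnvF.cons (T_20_140_ok h) <| EnvF.cons (T_60_160_ok h) <| EnvF.cons (R_60_160_ok h) <| EnvF.cons (T_13_26_ok h) <| EnvF.cons (R_100_160_180_ok h) <| EnvF.cons (R_40_70_90_120_ok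 h) <| EnvF.cons (R_50_90_110_120_ok h) <| EnvF.cons (R_60_100_120_140_ok h) <| EnvF.cons (R_20_120_ok h) <| EnvF.cons (T_20_120_ok h) <| EnvF.cons (R_120_160_ok h) <| EnvF.cons (T_80_180_ok h) <| EnvF.cons (R_80_180_ok h) <| EnvF.cons (T_22_44_ok h) <| EnvF.cons (T_27_54_ok h) <| EnvF.cons (R_60_70_90_130_ok h) <| EnvF.cons (R_100_180_ok h) <| EnvF.cons (R_40_50_70_80_ok h) <| EnvF.cons (R_50_100_120_130_ok h) <| EnvF.cons (R_20_40_80_ok h) <| EnvF.cons (R_100_110_120_ok h) <| EnvF.cons (R_40_60_80_120_ok h) <| EnvF.cons (R_90_110_ok h) <| EnvF.cons (R_100_120_130_ok h) <| EnvF.cons (T_28_56_ok h) <| EnvF.cons (R_60_80_160_ok h) <| EnvF.cons (R_120_200_ok h) <| EnvF.cons (R_60_80_130_ok h) <| EnvF.cons (R_40_60_120_ok h) <| EnvF.cons (R_110_130_ok h) <| EnvF.cons (R_100_110_130_ok h) <| EnvF.cons (R_40_50_70_ok h) <| EnvF.cons (R_30_50_70_110_ok h) <| EnvF.cons (R_60_70_90_120_ok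 h) <| EnvF.cons (R_60_80_100_130_140_ok h) <| EnvF.cons (R_70_90_130_ok h) <| EnvF.cons (R_70_90_140_ok h) <| EnvF.cons (R_90_100_120_ok h) <| EnvF.cons (R_110_120_130_ok h) <| EnvF.cons (T_17_34_ok h) <| EnvF.cons (R_30_50_70_90_ok h) <| EnvF.cons (R_30_60_80_100_ok h) <| EnvF.cons (R_70_90_120_ok h) <| EnvF.cons (R_80_100_110_ok h) <| EnvF.cons (R_30_50_70_100_ok h) <| EnvF.cons (R_40_70_90_ok h) <| EnvF.cons (R_40_70_90_100_ok h) <| EnvF.cons (R_50_70_ok h) <| EnvF.cons (R_90_110_120_ok h) <| EnvF.cons (R_20_40_60_100_ok h) <| EnvF.cons (R_30_60_80_110_ok h) <| EnvF.cons (R_60_90_100_120_ok h) <| EnvF.cons (R_70_90_100_ok h) <| EnvF.cons (R_30_50_70_120_ok h) <| EnvF.cons (R_70_80_100_ok h) <| EnvF.cons (R_90_100_110_ok h) <| EnvF.cons (R_40_70_90_110_ok h) <| EnvF.cons (R_40_160_ok h) <| EnvF.cons (T_11_22_ok h) <| EnvF.cons (T_40_160_ok h) <| EnvF.cons (R_20_40_ok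 h) <| EnvF.cons (R_50_100_120_ok h) <| EnvF.cons (R_60_70_90_110_ok h) <| EnvF.cons (R_70_80_100_120_ok h) <| EnvF.cons (R_70_90_110_120_ok h) <| EnvF.cons (R_80_90_110_130_ok h) <| EnvF.cons (R_80_100_120_140_ok h) <| EnvF.cons (R_90_120_140_ok h) <| EnvF.cons (R_120_130_140_ok h) <| EnvF.cons (R_120_180_200_ok h) <| EnvF.cons (T_9_18_ok h) <| EnvF.cons (T_180_200_ok h) <| EnvF.cons (R_20_40_60_80_ok h) <| EnvF.cons (R_40_60_80_140_ok h) <| EnvF.cons (R_50_60_80_100_ok h) <| EnvF.cons (R_50_70_90_ok h) <| EnvF.cons (R_50_70_90_100_ok h) <| EnvF.cons (R_50_70_110_ok h) <| EnvF.cons (R_60_70_90_ok h) <| EnvF.cons (R_60_80_100_120_ok h) <| EnvF.cons (R_40_80_90_110_ok h) <| EnvF.cons (R_50_70_80_ok h) <| EnvF.cons (R_50_70_120_ok h) <| EnvF.cons (R_50_110_130_140_ok h) <| EnvF.cons (R_60_80_90_ok h) <| EnvF.cons (R_60_110_130_140_ok h) <| EnvF.cons (R_70_80_90_ok h) <|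 EnvF.cons (R_110_120_140_ok h) <| EnvF.cons (R_110_130_140_ok h) <| EnvF.cons (R_30_60_80_120_ok h) <| EnvF.cons (R_40_60_80_120_130_ok h) <| EnvF.cons (R_40_70_90_140_ok h) <| EnvF.cons (R_40_90_110_120_ok h) <| EnvF.cons (R_50_70_90_110_120_ok h) <| EnvF.cons (R_50_110_130_ok h) <| EnvF.cons (R_60_70_90_100_ok h) <| EnvF.cons (R_60_100_120_160_ok h) <| EnvF.cons (R_70_90_110_ok h) <| EnvF.cons (R_70_90_110_120_130_ok h) <| EnvF.cons (R_70_90_110_130_140_ok h) <| EnvF.cons (R_100_120_180_ok h) <| EnvF.cons (R_20_40_60_ok h) <| EnvF.cons (R_30_50_70_80_ok h) <| EnvF.cons (R_30_50_90_ok h) <| EnvF.cons (R_30_50_110_ok h) <| EnvF.cons (R_30_60_80_130_ok h) <| EnvF.cons (R_30_70_80_100_110_ok h) <| EnvF.cons (R_40_50_70_90_ok h) <| EnvF.cons (R_40_60_80_100_110_ok h) <| EnvF.cons (R_40_80_90_100_ok h) <| EnvF.cons (R_40_90_100_110_ok h) <| EnvF.cons (R_50_70_90_100_110_ok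 h) <| EnvF.cons (R_50_70_90_130_140_ok h) <| EnvF.cons (R_50_70_130_ok h) <| EnvF.cons (R_50_100_120_150_ok h) <| EnvF.cons (R_60_70_80_ok h) <| EnvF.cons (R_60_80_100_110_ok h) <| EnvF.cons (R_60_80_100_110_120_ok h) <| EnvF.cons (R_60_80_100_120_130_ok h) <| EnvF.cons (R_60_80_110_ok h) <| EnvF.cons (R_60_80_180_ok h) <| EnvF.cons (R_70_90_100_110_ok h) <| EnvF.cons (R_100_120_140_160_ok h) <| EnvF.cons (R_120_140_150_ok h) <| EnvF.cons (R_20_30_50_100_ok h) <| EnvF.cons (R_20_40_120_ok h) <| EnvF.cons (R_30_50_70_110_120_ok h) <| EnvF.cons (R_30_60_70_90_130_ok h) <| EnvF.cons (R_30_60_80_ok h) <| EnvF.cons (R_30_70_90_120_ok h) <| EnvF.cons (R_40_50_70_100_ok h) <| EnvF.cons (R_40_60_140_ok h) <| EnvF.cons (R_40_60_160_ok h) <| EnvF.cons (R_40_80_90_110_120_ok h) <| EnvF.cons (R_40_90_100_120_ok h) <| EnvF.cons (R_50_60_70_ok h) <| EnvF.cons (R_50_60_80_ok h) <|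 EnvF.cons (R_50_60_80_110_ok h) <| EnvF.cons (R_50_70_100_ok h) <| EnvF.cons (R_50_70_110_120_ok h) <| EnvF.cons (R_70_80_100_110_ok h) <| EnvF.cons (R_70_90_ok h) <| EnvF.cons (R_80_90_110_140_ok h) <| EnvF.cons (R_80_100_180_ok h) <| EnvF.cons (R_80_200_ok h) <| EnvF.cons (R_90_110_120_130_ok h) <| EnvF.cons (R_100_200_ok h) <| EnvF.cons (R_120_130_150_ok h) <| EnvF.cons (T_21_42_ok h) <| EnvF.cons (T_80_200_ok h) <| EnvF.cons (T_100_200_ok h) <| EnvF.nil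

end TB
end Pool.Agent.Lib.MP_6947cd_al
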