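import Pool.Agent.Lib.MP_6947cd_al.TB.D1
import Pool.Agent.Lib.MP_6947cd_al.TB.D2
import Pool.Agent.Lib.MP_6947cd_al.TB.D3
import Pool.Agent.Lib.MP_6947cd_al.TB.D4
import Pool.Agent.Lib.MP_6947cd_al.TB.D5
import Pool.Agent.Lib.MP_6947cd_al.TB.D6
import Pool.Agent.Lib.MP_6947cd_al.TB.D7
import Pool.Agent.Lib.MP_6947cd_al.TB.D8
import Pool.Agent.Lib.MP_6947cd_al.TB.D9
import Pool.Agent.Lib.MP_6947cd_al.TB.D10
import Pool.Agent.Lib.MP_6947cd_al.TB.D11
import Pool.Agent.Lib.MP_6947cd_al.TB.D12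
import Pool.Agent.Lib.MP_6947cd_al.TB.D13
import Pool.Agent.Lib.MP_6947cd_al.TB.D14
import Pool.Agent.Lib.MP_6947cd_al.TB.D15
import Pool.Agent.Lib.MP_6947cd_al.TB.D16
import Pool.Agent.Lib.MP_6947cd_al.TB.D17
import Pool.Agent.Lib.MP_6947cd_al.TB.D18
import Pool.Agent.Lib.MP_6947cd_al.TB.D19
import Pool.Agent.Lib.MP_6947cd_al.TB.D20
import Pool.Agent.Lib.MP_6947cd_al.TB.D21
import Pool.Agent.Lib.MP_6947cd_al.TB.D22

/-!
Problem MP_6947cd_al (Chollet).  THE ENVIRONMENT.
-/

set_option autoImplicit false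
set_option maxHeartbeats 0
set_option maxRecDepth 100000
set_option linter.all false

namespace Pool.Agent.Lib.MP_6947cd_al
namespace TB

open Ent Ent.Pk Fr Fr.WT B1 PkA PkA.TF

/-- the families of tables -/
noncomputable def env : List Fam := [T_10_20, T_100_140, T_100_120, T_80_100, T_5_10, T_20_40, R_40_80_100, T_80_120, R_60_100_140, R_80_100_120, T_2_4, R_80_100_140, T_100_160, T_80_140, T_120_160, T_30_60, T_60_100, T_120_140, R_60_100_120, T_1_2, R_20_60_100, R_80_120_160, T_60_80, R_60_100_160, R_40_80, R_100_120_140, R_100_120, R_40_80_140, T_120_180, R_80_120_140, T_15_30, R_80_100, T_140_180, T_40_80, R_40_80_120, R_20_60_80, R_60_80_120, R_80_120_180, T_4_8, R_80_120, R_60_80, T_140_160, R_60_80_140, T_60_120, T_25_50, T_3_6, R_100_140_160, T_6_12, R_80_100_160, R_60_100, T_8_16, R_100_140, R_60_90_120_140, R_100_120_160, R_20_60_120, R_20_80_100, R_80_140_180, R_20_80_120, T_160_180, R_60_80_100, R_100_140_180, R_40_100_140, R_120_160_180, T_60_140,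 T_40_100, T_80_160, R_20_60, T_20_60, T_100_180, R_40_100, R_80_140, R_60_100_180, R_40_100_160, T_140_200, R_60_120, R_40_80_160, T_160_200, R_120_140, R_40_60_80, R_60_120_160, T_7_14, R_20_80_140, R_60_140, R_80_140_200, R_60_120_180, R_40_60_100, R_20_80, T_20_80, R_20_100, T_20_100, R_50_90_110, R_50_90_110_140, R_120_140_180, R_20_60_140, R_40_140, T_40_140, R_90_110_130, R_120_160_200, R_40_80_100_120, R_60_120_140, T_18_36, R_40_80_100_110, R_40_100_120, R_90_110_140, R_100_160_200, R_80_90_110, R_120_140_160, R_100_160, T_26_52, T_40_120, R_40_120, T_120_200, R_40_60, T_40_60, T_23_46, R_60_110_130, R_80_160, R_50_90_110_130, R_100_140_200, T_14_28, T_19_38, R_120_180, R_80_120_200, R_80_100_130, R_80_90_100, R_80_140_160, T_12_24, R_40_60_80_100, R_40_80_100_130, R_80_90_110_120, R_50_100_120_140, R_20_40_100, R_20_140, T_20_140, T_60_160, R_60_160, T_13_26, R_100_160_180, R_40_70_90_120, R_50_90_110_120, R_60_100_120_140, R_20_120, T_20_120, R_120_160,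 T_80_180, R_80_180, T_22_44, T_27_54, R_60_70_90_130, R_100_180, R_40_50_70_80, R_50_100_120_130, R_20_40_80, R_100_110_120, R_40_60_80_120, R_90_110, R_100_120_130, T_28_56, R_60_80_160, R_120_200, R_60_80_130, R_40_60_120, R_110_130, R_100_110_130, R_40_50_70, R_30_50_70_110, R_60_70_90_120, R_60_80_100_130_140, R_70_90_130, R_70_90_140, R_90_100_120, R_110_120_130, T_17_34, R_30_50_70_90, R_30_60_80_100, R_70_90_120, R_80_100_110, R_30_50_70_100, R_40_70_90, R_40_70_90_100, R_50_70, R_90_110_120, R_20_40_60_100, R_30_60_80_110, R_60_90_100_120, R_70_90_100, R_30_50_70_120, R_70_80_100, R_90_100_110, R_40_70_90_110, R_40_160, T_11_22, T_40_160, R_20_40, R_50_100_120, R_60_70_90_110, R_70_80_100_120, R_70_90_110_120, R_80_90_110_130, R_80_100_120_140, R_90_120_140, R_120_130_140, R_120_180_200, T_9_18, T_180_200, R_20_40_60_80, R_40_60_80_140, R_50_60_80_100, R_50_70_90, R_50_70_90_100, R_50_70_110, R_60_70_90, R_60_80_100_120, R_40_80_90_110, R_50_70_80, R_50_70_120,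 R_50_110_130_140, R_60_80_90, R_60_110_130_140, R_70_80_90, R_110_120_140, R_110_130_140, R_30_60_80_120, R_40_60_80_120_130, R_40_70_90_140, R_40_90_110_120, R_50_70_90_110_120, R_50_110_130, R_60_70_90_100, R_60_100_120_160, R_70_90_110, R_70_90_110_120_130, R_70_90_110_130_140, R_100_120_180, R_20_40_60, R_30_50_70_80, R_30_50_90, R_30_50_110, R_30_60_80_130, R_30_70_80_100_110, R_40_50_70_90, R_40_60_80_100_110, R_40_80_90_100, R_40_90_100_110, R_50_70_90_100_110, R_50_70_90_130_140, R_50_70_130, R_50_100_120_150, R_60_70_80, R_60_80_100_110, R_60_80_100_110_120, R_60_80_100_120_130, R_60_80_110, R_60_80_180, R_70_90_100_110, R_100_120_140_160, R_120_140_150, R_20_30_50_100, R_20_40_120, R_30_50_70_110_120, R_30_60_70_90_130, R_30_60_80, R_30_70_90_120, R_40_50_70_100, R_40_60_140, R_40_60_160, R_40_80_90_110_120, R_40_90_100_120, R_50_60_70, R_50_60_80, R_50_60_80_110, R_50_70_100, R_50_70_110_120, R_70_80_100_110, R_70_90, R_80_90_110_140, R_80_100_180, R_80_200,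 R_90_110_120_130, R_100_200, R_120_130_150, T_21_42, T_80_200, T_100_200]

end TB
end Pool.Agent.Lib.MP_6947cd_al
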