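import Pool.Agent.Lib.MP_6947cd_al.TB.P24
import Pool.Agent.Lib.MP_6947cd_al.TB.P25
import Pool.Agent.Lib.MP_6947cd_al.TB.P26
import Pool.Agent.Lib.MP_6947cd_al.TB.P27
import Pool.Agent.Lib.MP_6947cd_al.TB.P28
import Pool.Agent.Lib.MP_6947cd_al.TB.P29
import Pool.Agent.Lib.MP_6947cd_al.TB.P30
import Pool.Agent.Lib.MP_6947cd_al.TB.P31
import Pool.Agent.Lib.MP_6947cd_al.TB.P32
import Pool.Agent.Lib.MP_6947cd_al.TB.P33

/-!
Problem MP_6947cd_al (Chollet).  THE FAMILIES OF TABLES ARE CORRECT, part 10.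
-/

set_option autoImplicit false
set_option maxHeartbeats 0
set_option maxRecDepth 100000
set_option linter.all false

namespace Pool.Agent.Lib.MP_6947cd_al
namespace TB

open Ent Ent.Pk Fr Fr.WT B1 PkA PkA.TF

theorem R_80_120_160_ok (h : RcOK RE.rowE) : R_80_120_160.OK :=
  okF (by decide +kernel) (ndF (ndF (ndF (ndF (ndF (ndF (ndF TOK.nil TOK.nil (p24 h).1.1.2.2.1 (by decide +kernel)) (ndF TOK.nil TOK.nil (p24 h).1.1.2.2.2.2 (by decide +kernel)) (p24 h).1.1.2.2.2.1 (by decide +kernel)) (ndF (ndF TOK.nil TOK.nil (p24 h).1.2.1.1.2.1 (by decide +kernel)) TOK.nil (p24 h).1.2.1.1.2.2 (by decide +kernel)) (p24 h).1.2.1.1.1 (by decide +kernel)) (ndF (ndF (ndF TOK.nil TOK.nil (p24 h).1.2.1.2.2.1 (by decide +kernel)) (ndF TOK.nil TOK.nil (p24 h).1.2.2.1.1 (by decide +kernel)) (p24 h).1.2.1.2.2.2 (by decide +kernel)) (ndF (ndF TOK.nil TOK.nil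 (p24 h).1.2.2.1.2.2 (by decide +kernel)) TOK.nil (p24 h).1.2.2.2.1 (by decide +kernel)) (p24 h).1.2.2.1.2.1 (by decide +kernel)) (p24 h).1.2.1.2.1 (by decide +kernel)) (ndF (ndF (ndF (ndF TOK.nil TOK.nil (p24 h).1.2.2.2.2.2 (by decide +kernel)) (ndF TOK.nil TOK.nil (p24 h).2.1.1.1.2.1 (by decide +kernel)) (p24 h).2.1.1.1.1 (by decide +kernel)) (ndF (ndF TOK.nil TOK.nil (p24 h).2.1.1.2.1 (by decide +kernel)) TOK.nil (p24 h).2.1.1.2.2.1 (by decide +kernel)) (p24 h).2.1.1.1.2.2 (by decide +kernel)) (ndF (ndF (ndF TOK.nil TOK.nil (p24 h).2.1.2.1.1 (by decide +kernel)) (ndF TOK.nil TOK.nil (p24 h).2.1.2.1.2.2 (by decide +kernel)) (p24 h).2.1.2.1.2.1 (by decide +kernel)) (ndF (ndF TOK.nil TOK.nil (p24 h).2.1.2.2.2.1 (by decide +kernel)) TOK.nil (p24 h).2.1.2.2.2.2 (by decide +kernel)) (p24 h).2.1.2.2.1 (by decide +kernel)) (p24 h).2.1.1.2.2.2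 (by decide +kernel)) (p24 h).1.2.2.2.2.1 (by decide +kernel)) (ndF (ndF (ndF (ndF (ndF TOK.nil TOK.nil (p24 h).2.2.1.1.2.1 (by decide +kernel)) (ndF TOK.nil TOK.nil (p24 h).2.2.1.2.1 (by decide +kernel)) (p24 h).2.2.1.1.2.2 (by decide +kernel)) (ndF (ndF TOK.nil TOK.nil (p24 h).2.2.1.2.2.2 (by decide +kernel)) TOK.nil (p24 h).2.2.2.1.1 (by decide +kernel)) (p24 h).2.2.1.2.2.1 (by decide +kernel)) (ndF (ndF (ndF TOK.nil TOK.nil (p24 h).2.2.2.1.2.2 (by decide +kernel)) (ndF TOK.nil TOK.nil (p24 h).2.2.2.2.1.2 (by decide +kernel)) (p24 h).2.2.2.2.1.1 (by decide +kernel)) (ndF (ndF TOK.nil TOK.nil (p24 h).2.2.2.2.2.2 (by decide +kernel)) TOK.nil (p25 h).1.1.1.1.1 (by decide +kernel)) (p24 h).2.2.2.2.2.1 (by decide +kernel)) (p24 h).2.2.2.1.2.1 (by decide +kernel)) (ndF (ndF (ndF (ndF TOK.nil TOK.nil (p25 h).1.1.1.1.2.2 (by decide +kernel)) (ndF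 TOK.nil TOK.nil (p25 h).1.1.1.2.1.2 (by decide +kernel)) (p25 h).1.1.1.2.1.1 (by decide +kernel)) (ndF (ndF TOK.nil TOK.nil (p25 h).1.1.1.2.2.2 (by decide +kernel)) TOK.nil (p25 h).1.1.2.1.1 (by decide +kernel)) (p25 h).1.1.1.2.2.1 (by decide +kernel)) (ndF (ndF (ndF TOK.nil TOK.nil (p25 h).1.1.2.1.2.2 (by decide +kernel)) (ndF TOK.nil TOK.nil (p25 h).1.1.2.2.1.2 (by decide +kernel)) (p25 h).1.1.2.2.1.1 (by decide +kernel)) (ndF (ndF TOK.nil TOK.nil (p25 h).1.1.2.2.2.2 (by decide +kernel)) TOK.nil (p25 h).1.2.1.1.1 (by decide +kernel)) (p25 h).1.1.2.2.2.1 (by decide +kernel)) (p25 h).1.1.2.1.2.1 (by decide +kernel)) (p25 h).1.1.1.1.2.1 (by decide +kernel)) (p24 h).2.2.1.1.1 (by decide +kernel)) (ndF (ndF (ndF (ndF (ndF (ndF TOK.nil TOK.nil (p25 h).1.2.1.1.2.2 (by decide +kernel)) (ndF TOK.nil TOK.nil (p25 h).1.2.1.2.1.2 (by decide +kernel))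 (p25 h).1.2.1.2.1.1 (by decide +kernel)) (ndF (ndF TOK.nil TOK.nil (p25 h).1.2.1.2.2.2 (by decide +kernel)) TOK.nil (p25 h).1.2.2.1.1.1 (by decide +kernel)) (p25 h).1.2.1.2.2.1 (by decide +kernel)) (ndF (ndF (ndF TOK.nil TOK.nil (p25 h).1.2.2.1.2.1 (by decide +kernel)) (ndF TOK.nil TOK.nil (p25 h).1.2.2.2.1.1 (by decide +kernel)) (p25 h).1.2.2.1.2.2 (by decide +kernel)) (ndF (ndF TOK.nil TOK.nil (p25 h).1.2.2.2.2.1 (by decide +kernel)) TOK.nil (p25 h).1.2.2.2.2.2 (by decide +kernel)) (p25 h).1.2.2.2.1.2 (by decide +kernel)) (p25 h).1.2.2.1.1.2 (by decide +kernel)) (ndF (ndF (ndF (ndF TOK.nil TOK.nil (p25 h).2.1.1.1.2.1 (by decide +kernel)) (ndF TOK.nil TOK.nil (p25 h).2.1.1.2.1.1 (by decide +kernel)) (p25 h).2.1.1.1.2.2 (by decide +kernel)) (ndF (ndF TOK.nil TOK.nil (p25 h).2.1.1.2.2.1 (by decide +kernel)) TOK.nil (p25 h).2.1.1.2.2.2 (by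 decide +kernel)) (p25 h).2.1.1.2.1.2 (by decide +kernel)) (ndF (ndF (ndF TOK.nil TOK.nil (p25 h).2.1.2.1.1.2 (by decide +kernel)) (ndF TOK.nil TOK.nil (p25 h).2.1.2.1.2.2 (by decide +kernel)) (p25 h).2.1.2.1.2.1 (by decide +kernel)) (ndF (ndF TOK.nil TOK.nil (p25 h).2.1.2.2.1.2 (by decide +kernel)) TOK.nil (p25 h).2.1.2.2.2.1 (by decide +kernel)) (p25 h).2.1.2.2.1.1 (by decide +kernel)) (p25 h).2.1.2.1.1.1 (by decide +kernel)) (p25 h).2.1.1.1.1 (by decide +kernel)) (ndF (ndF (ndF (ndF (ndF TOK.nil TOK.nil (p25 h).2.2.1.1.1 (by decide +kernel)) (ndF TOK.nil TOK.nil (p25 h).2.2.1.1.2.2 (by decide +kernel)) (p25 h).2.2.1.1.2.1 (by decide +kernel)) (ndF (ndF TOK.nil TOK.nil (p25 h).2.2.1.2.1.2 (by decide +kernel)) TOK.nil (p25 h).2.2.1.2.2.1 (by decide +kernel)) (p25 h).2.2.1.2.1.1 (by decide +kernel)) (ndF (ndF (ndF TOK.nil TOK.nil (p25 h).2.2.2.1.1.1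 (by decide +kernel)) (ndF TOK.nil TOK.nil (p25 h).2.2.2.1.2.1 (by decide +kernel)) (p25 h).2.2.2.1.1.2 (by decide +kernel)) (ndF (ndF TOK.nil TOK.nil (p25 h).2.2.2.2.1.1 (by decide +kernel)) TOK.nil (p25 h).2.2.2.2.1.2 (by decide +kernel)) (p25 h).2.2.2.1.2.2 (by decide +kernel)) (p25 h).2.2.1.2.2.2 (by decide +kernel)) (ndF (ndF (ndF (ndF TOK.nil TOK.nil (p25 h).2.2.2.2.2.2 (by decide +kernel)) (ndF TOK.nil TOK.nil (p26 h).1.1.1.1.1.1.2 (by decide +kernel)) (p26 h).1.1.1.1.1.1.1 (by decide +kernel)) (ndF (ndF TOK.nil TOK.nil (p26 h).1.1.1.1.1.2.2 (by decide +kernel)) TOK.nil (p26 h).1.1.1.1.2.1.1 (by decide +kernel)) (p26 h).1.1.1.1.1.2.1 (by decide +kernel)) (ndF (ndF (ndF TOK.nil TOK.nil (p26 h).1.1.1.1.2.2.1 (by decide +kernel)) (ndF TOK.nil TOK.nil (p26 h).1.1.1.1.2.2.2.2 (by decide +kernel)) (p26 h).1.1.1.1.2.2.2.1 (by decide +kernel))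 (ndF (ndF TOK.nil TOK.nil (p26 h).1.1.1.2.1.1.2 (by decide +kernel)) TOK.nil (p26 h).1.1.1.2.1.2.1 (by decide +kernel)) (p26 h).1.1.1.2.1.1.1 (by decide +kernel)) (p26 h).1.1.1.1.2.1.2 (by decide +kernel)) (p25 h).2.2.2.2.2.1 (by decide +kernel)) (p25 h).2.1.2.2.2.2 (by decide +kernel)) (p25 h).1.2.1.1.2.1 (by decide +kernel))

theorem T_60_80_ok (h : RcOK RE.rowE) : T_60_80.OK :=
  okF (by decide +kernel) (ndF (ndF (ndF (ndF (ndF (ndF (ndF (ndF TOK.nil TOK.nil (p26 h).1.1.1.2.1.2.2.1 (by decide +kernel)) TOK.nil (p26 h).1.1.1.2.1.2.2.2 (by decide +kernel)) (ndF TOK.nil TOK.nil (p26 h).1.1.1.2.2.1.2 (by decide +kernel)) (p26 h).1.1.1.2.2.1.1 (by decide +kernel)) (ndF (ndF TOK.nil TOK.nil (p26 h).1.1.1.2.2.2.2.1 (by decide +kernel)) (ndF TOK.nil TOK.nil (p26 h).1.1.2.1.1.1.1 (by decide +kernel)) (p26 h).1.1.1.2.2.2.2.2 (by decide +kernel))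 (p26 h).1.1.1.2.2.2.1 (by decide +kernel)) (ndF (ndF (ndF TOK.nil TOK.nil (p26 h).1.1.2.1.1.2.1 (by decide +kernel)) (ndF TOK.nil TOK.nil (p26 h).1.1.2.1.2.1.1 (by decide +kernel)) (p26 h).1.1.2.1.1.2.2 (by decide +kernel)) (ndF (ndF TOK.nil TOK.nil (p26 h).1.1.2.1.2.2.1 (by decide +kernel)) (ndF TOK.nil TOK.nil (p26 h).1.1.2.1.2.2.2.2 (by decide +kernel)) (p26 h).1.1.2.1.2.2.2.1 (by decide +kernel)) (p26 h).1.1.2.1.2.1.2 (by decide +kernel)) (p26 h).1.1.2.1.1.1.2 (by decide +kernel)) (ndF (ndF (ndF (ndF TOK.nil TOK.nil (p26 h).1.1.2.2.1.1.2 (by decide +kernel)) (ndF TOK.nil TOK.nil (p26 h).1.1.2.2.1.2.2.1 (by decide +kernel)) (p26 h).1.1.2.2.1.2.1 (by decide +kernel)) (ndF (ndF TOK.nil TOK.nil (p26 h).1.1.2.2.2.1.1 (by decide +kernel)) (ndF TOK.nil TOK.nil (p26 h).1.1.2.2.2.2.1 (by decide +kernel)) (p26 h).1.1.2.2.2.1.2 (by decide +kernel))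 (p26 h).1.1.2.2.1.2.2.2 (by decide +kernel)) (ndF (ndF (ndF TOK.nil TOK.nil (p26 h).1.1.2.2.2.2.2.2 (by decide +kernel)) (ndF TOK.nil TOK.nil (p26 h).1.2.1.1.1.1.2 (by decide +kernel)) (p26 h).1.2.1.1.1.1.1 (by decide +kernel)) (ndF (ndF TOK.nil TOK.nil (p26 h).1.2.1.1.1.2.2 (by decide +kernel)) (ndF TOK.nil TOK.nil (p26 h).1.2.1.1.2.1.2 (by decide +kernel)) (p26 h).1.2.1.1.2.1.1 (by decide +kernel)) (p26 h).1.2.1.1.1.2.1 (by decide +kernel)) (p26 h).1.1.2.2.2.2.2.1 (by decide +kernel)) (p26 h).1.1.2.2.1.1.1 (by decide +kernel)) (ndF (ndF (ndF (ndF (ndF (ndF TOK.nil TOK.nil (p26 h).1.2.1.1.2.2.2.1 (by decide +kernel)) TOK.nil (p26 h).1.2.1.1.2.2.2.2 (by decide +kernel)) (ndF TOK.nil TOK.nil (p26 h).1.2.1.2.1.1.2 (by decide +kernel)) (p26 h).1.2.1.2.1.1.1 (by decide +kernel)) (ndF (ndF TOK.nil TOK.nil (p26 h).1.2.1.2.1.2.2.1 (by decide +kernel))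 (ndF TOK.nil TOK.nil (p26 h).1.2.1.2.2.1.1 (by decide +kernel)) (p26 h).1.2.1.2.1.2.2.2 (by decide +kernel)) (p26 h).1.2.1.2.1.2.1 (by decide +kernel)) (ndF (ndF (ndF TOK.nil TOK.nil (p26 h).1.2.1.2.2.2.1 (by decide +kernel)) (ndF TOK.nil TOK.nil (p26 h).1.2.1.2.2.2.2.2 (by decide +kernel)) (p26 h).1.2.1.2.2.2.2.1 (by decide +kernel)) (ndF (ndF TOK.nil TOK.nil (p26 h).1.2.2.1.1.1.2 (by decide +kernel)) (ndF TOK.nil TOK.nil (p26 h).1.2.2.1.1.2.2.1 (by decide +kernel)) (p26 h).1.2.2.1.1.2.1 (by decide +kernel)) (p26 h).1.2.2.1.1.1.1 (by decide +kernel)) (p26 h).1.2.1.2.2.1.2 (by decide +kernel)) (ndF (ndF (ndF (ndF TOK.nil TOK.nil (p26 h).1.2.2.1.2.1.1 (by decide +kernel)) (ndF TOK.nil TOK.nil (p26 h).1.2.2.1.2.2.1 (by decide +kernel)) (p26 h).1.2.2.1.2.1.2 (by decide +kernel)) (ndF (ndF TOK.nil TOK.nil (p26 h).1.2.2.1.2.2.2.2 (by decide +kernel))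 (ndF TOK.nil TOK.nil (p26 h).1.2.2.2.1.1.2 (by decide +kernel)) (p26 h).1.2.2.2.1.1.1 (by decide +kernel)) (p26 h).1.2.2.1.2.2.2.1 (by decide +kernel)) (ndF (ndF (ndF TOK.nil TOK.nil (p26 h).1.2.2.2.1.2.2.1 (by decide +kernel)) (ndF TOK.nil TOK.nil (p26 h).1.2.2.2.2.1.1 (by decide +kernel)) (p26 h).1.2.2.2.1.2.2.2 (by decide +kernel)) (ndF (ndF TOK.nil TOK.nil (p26 h).1.2.2.2.2.2.1 (by decide +kernel)) (ndF TOK.nil TOK.nil (p26 h).1.2.2.2.2.2.2.2 (by decide +kernel)) (p26 h).1.2.2.2.2.2.2.1 (by decide +kernel)) (p26 h).1.2.2.2.2.1.2 (by decide +kernel)) (p26 h).1.2.2.2.1.2.1 (by decide +kernel)) (p26 h).1.2.2.1.1.2.2.2 (by decide +kernel)) (p26 h).1.2.1.1.2.2.1 (by decide +kernel)) (ndF (ndF (ndF (ndF (ndF (ndF (ndF TOK.nil TOK.nil (p26 h).2.1.1.1.1.1.2 (by decide +kernel)) TOK.nil (p26 h).2.1.1.1.1.2.1 (by decide +kernel)) (ndF TOK.nil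 TOK.nil (p26 h).2.1.1.1.2.1.1 (by decide +kernel)) (p26 h).2.1.1.1.1.2.2 (by decide +kernel)) (ndF (ndF TOK.nil TOK.nil (p26 h).2.1.1.1.2.2.1 (by decide +kernel)) (ndF TOK.nil TOK.nil (p26 h).2.1.1.1.2.2.2.2 (by decide +kernel)) (p26 h).2.1.1.1.2.2.2.1 (by decide +kernel)) (p26 h).2.1.1.1.2.1.2 (by decide +kernel)) (ndF (ndF (ndF TOK.nil TOK.nil (p26 h).2.1.1.2.1.1.2 (by decide +kernel)) (ndF TOK.nil TOK.nil (p26 h).2.1.1.2.1.2.2.1 (by decide +kernel)) (p26 h).2.1.1.2.1.2.1 (by decide +kernel)) (ndF (ndF TOK.nil TOK.nil (p26 h).2.1.1.2.2.1.1 (by decide +kernel)) (ndF TOK.nil TOK.nil (p26 h).2.1.1.2.2.2.1 (by decide +kernel)) (p26 h).2.1.1.2.2.1.2 (by decide +kernel)) (p26 h).2.1.1.2.1.2.2.2 (by decide +kernel)) (p26 h).2.1.1.2.1.1.1 (by decide +kernel)) (ndF (ndF (ndF (ndF TOK.nil TOK.nil (p26 h).2.1.1.2.2.2.2.2 (by decide +kernel)) (ndF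 TOK.nil TOK.nil (p26 h).2.1.2.1.1.1.2 (by decide +kernel)) (p26 h).2.1.2.1.1.1.1 (by decide +kernel)) (ndF (ndF TOK.nil TOK.nil (p26 h).2.1.2.1.1.2.2.1 (by decide +kernel)) (ndF TOK.nil TOK.nil (p26 h).2.1.2.1.2.1.1 (by decide +kernel)) (p26 h).2.1.2.1.1.2.2.2 (by decide +kernel)) (p26 h).2.1.2.1.1.2.1 (by decide +kernel)) (ndF (ndF (ndF TOK.nil TOK.nil (p26 h).2.1.2.1.2.2.1 (by decide +kernel)) (ndF TOK.nil TOK.nil (p26 h).2.1.2.1.2.2.2.2 (by decide +kernel)) (p26 h).2.1.2.1.2.2.2.1 (by decide +kernel)) (ndF (ndF TOK.nil TOK.nil (p26 h).2.1.2.2.1.1.2 (by decide +kernel)) (ndF TOK.nil TOK.nil (p26 h).2.1.2.2.1.2.2.1 (by decide +kernel)) (p26 h).2.1.2.2.1.2.1 (by decide +kernel)) (p26 h).2.1.2.2.1.1.1 (by decide +kernel)) (p26 h).2.1.2.1.2.1.2 (by decide +kernel)) (p26 h).2.1.1.2.2.2.2.1 (by decide +kernel)) (ndF (ndF (ndF (ndF (ndF (ndF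 TOK.nil TOK.nil (p26 h).2.1.2.2.2.1.1 (by decide +kernel)) TOK.nil (p26 h).2.1.2.2.2.1.2 (by decide +kernel)) (ndF TOK.nil TOK.nil (p26 h).2.1.2.2.2.2.2.1 (by decide +kernel)) (p26 h).2.1.2.2.2.2.1 (by decide +kernel)) (ndF (ndF TOK.nil TOK.nil (p26 h).2.2.1.1.1.1.1 (by decide +kernel)) (ndF TOK.nil TOK.nil (p26 h).2.2.1.1.1.2.1 (by decide +kernel)) (p26 h).2.2.1.1.1.1.2 (by decide +kernel)) (p26 h).2.1.2.2.2.2.2.2 (by decide +kernel)) (ndF (ndF (ndF TOK.nil TOK.nil (p26 h).2.2.1.1.2.1.1 (by decide +kernel)) (ndF TOK.nil TOK.nil (p26 h).2.2.1.1.2.2.1 (by decide +kernel)) (p26 h).2.2.1.1.2.1.2 (by decide +kernel)) (ndF (ndF TOK.nil TOK.nil (p26 h).2.2.1.1.2.2.2.2 (by decide +kernel)) (ndF TOK.nil TOK.nil (p26 h).2.2.1.2.1.1.2 (by decide +kernel)) (p26 h).2.2.1.2.1.1.1 (by decide +kernel)) (p26 h).2.2.1.1.2.2.2.1 (by decide +kernel)) (p26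 h).2.2.1.1.1.2.2 (by decide +kernel)) (ndF (ndF (ndF (ndF TOK.nil TOK.nil (p26 h).2.2.1.2.1.2.2.1 (by decide +kernel)) (ndF TOK.nil TOK.nil (p26 h).2.2.1.2.2.1.1 (by decide +kernel)) (p26 h).2.2.1.2.1.2.2.2 (by decide +kernel)) (ndF (ndF TOK.nil TOK.nil (p26 h).2.2.1.2.2.2.1 (by decide +kernel)) (ndF TOK.nil TOK.nil (p26 h).2.2.1.2.2.2.2.2 (by decide +kernel)) (p26 h).2.2.1.2.2.2.2.1 (by decide +kernel)) (p26 h).2.2.1.2.2.1.2 (by decide +kernel)) (ndF (ndF (ndF TOK.nil TOK.nil (p26 h).2.2.2.1.1.1.2 (by decide +kernel)) (ndF TOK.nil TOK.nil (p26 h).2.2.2.1.1.2.2.1 (by decide +kernel)) (p26 h).2.2.2.1.1.2.1 (by decide +kernel)) (ndF (ndF TOK.nil TOK.nil (p26 h).2.2.2.1.2.1.1 (by decide +kernel)) (ndF TOK.nil TOK.nil (p26 h).2.2.2.1.2.2.1 (by decide +kernel)) (p26 h).2.2.2.1.2.1.2 (by decide +kernel)) (p26 h).2.2.2.1.1.2.2.2 (by decide +kernel))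 (p26 h).2.2.2.1.1.1.1 (by decide +kernel)) (p26 h).2.2.1.2.1.2.1 (by decide +kernel)) (p26 h).2.1.2.2.1.2.2.2 (by decide +kernel)) (p26 h).2.1.1.1.1.1.1 (by decide +kernel))

theorem R_60_100_160_ok (h : RcOK RE.rowE) : R_60_100_160.OK :=
  okF (by decide +kernel) (ndF (ndF (ndF (ndF (ndF (ndF (ndF TOK.nil TOK.nil (p26 h).2.2.2.1.2.2.2.1 (by decide +kernel)) TOK.nil (p26 h).2.2.2.1.2.2.2.2 (by decide +kernel)) (ndF (ndF TOK.nil TOK.nil (p26 h).2.2.2.2.1.1.2 (by decide +kernel)) TOK.nil (p26 h).2.2.2.2.1.2.1 (by decide +kernel)) (p26 h).2.2.2.2.1.1.1 (by decide +kernel)) (ndF (ndF (ndF TOK.nil TOK.nil (p26 h).2.2.2.2.1.2.2.2 (by decide +kernel)) TOK.nil (p26 h).2.2.2.2.2.1.1 (by decide +kernel)) (ndF (ndF TOK.nil TOK.nil (p26 h).2.2.2.2.2.2.1 (by decide +kernel)) TOK.nil (p26 h).2.2.2.2.2.2.2.1 (by decide +kernel)) (p26 h).2.2.2.2.2.1.2 (by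 decide +kernel)) (p26 h).2.2.2.2.1.2.2.1 (by decide +kernel)) (ndF (ndF (ndF (ndF TOK.nil TOK.nil (p27 h).1.1.1.1.1 (by decide +kernel)) TOK.nil (p27 h).1.1.1.1.2 (by decide +kernel)) (ndF (ndF TOK.nil TOK.nil (p27 h).1.1.1.2.2.1 (by decide +kernel)) TOK.nil (p27 h).1.1.1.2.2.2 (by decide +kernel)) (p27 h).1.1.1.2.1 (by decide +kernel)) (ndF (ndF (ndF TOK.nil TOK.nil (p27 h).1.1.2.1.2.1 (by decide +kernel)) TOK.nil (p27 h).1.1.2.1.2.2 (by decide +kernel)) (ndF (ndF TOK.nil TOK.nil (p27 h).1.1.2.2.2.1 (by decide +kernel)) TOK.nil (p27 h).1.1.2.2.2.2 (by decide +kernel)) (p27 h).1.1.2.2.1 (by decide +kernel)) (p27 h).1.1.2.1.1 (by decide +kernel)) (p26 h).2.2.2.2.2.2.2.2 (by decide +kernel)) (ndF (ndF (ndF (ndF (ndF TOK.nil TOK.nil (p27 h).1.2.1.1.2.1 (by decide +kernel)) TOK.nil (p27 h).1.2.1.1.2.2 (by decide +kernel)) (ndF (ndF TOK.nil TOK.nil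 (p27 h).1.2.1.2.2.1 (by decide +kernel)) TOK.nil (p27 h).1.2.1.2.2.2 (by decide +kernel)) (p27 h).1.2.1.2.1 (by decide +kernel)) (ndF (ndF (ndF TOK.nil TOK.nil (p27 h).1.2.2.1.2.1 (by decide +kernel)) TOK.nil (p27 h).1.2.2.1.2.2 (by decide +kernel)) (ndF (ndF TOK.nil TOK.nil (p27 h).1.2.2.2.2.1 (by decide +kernel)) TOK.nil (p27 h).1.2.2.2.2.2 (by decide +kernel)) (p27 h).1.2.2.2.1 (by decide +kernel)) (p27 h).1.2.2.1.1 (by decide +kernel)) (ndF (ndF (ndF (ndF TOK.nil TOK.nil (p27 h).2.1.1.1.2 (by decide +kernel)) TOK.nil (p27 h).2.1.1.2.1 (by decide +kernel)) (ndF (ndF TOK.nil TOK.nil (p27 h).2.1.1.2.2.2 (by decide +kernel)) TOK.nil (p27 h).2.1.2.1.1 (by decide +kernel)) (p27 h).2.1.1.2.2.1 (by decide +kernel)) (ndF (ndF (ndF TOK.nil TOK.nil (p27 h).2.1.2.1.2.2 (by decide +kernel)) TOK.nil (p27 h).2.1.2.2.1 (by decide +kernel)) (ndF (ndF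 TOK.nil TOK.nil (p27 h).2.1.2.2.2.2 (by decide +kernel)) TOK.nil (p27 h).2.2.1.1.1 (by decide +kernel)) (p27 h).2.1.2.2.2.1 (by decide +kernel)) (p27 h).2.1.2.1.2.1 (by decide +kernel)) (p27 h).2.1.1.1.1 (by decide +kernel)) (p27 h).1.2.1.1.1 (by decide +kernel)) (ndF (ndF (ndF (ndF (ndF (ndF TOK.nil TOK.nil (p27 h).2.2.1.1.2.2 (by decide +kernel)) TOK.nil (p27 h).2.2.1.2.1 (by decide +kernel)) (ndF (ndF TOK.nil TOK.nil (p27 h).2.2.1.2.2.2 (by decide +kernel)) TOK.nil (p27 h).2.2.2.1.1 (by decide +kernel)) (p27 h).2.2.1.2.2.1 (by decide +kernel)) (ndF (ndF (ndF TOK.nil TOK.nil (p27 h).2.2.2.1.2.2 (by decide +kernel)) TOK.nil (p27 h).2.2.2.2.1 (by decide +kernel)) (ndF (ndF TOK.nil TOK.nil (p27 h).2.2.2.2.2.2 (by decide +kernel)) TOK.nil (p28 h).1.1.1.1.1 (by decide +kernel)) (p27 h).2.2.2.2.2.1 (by decide +kernel)) (p27 h).2.2.2.1.2.1 (by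 decide +kernel)) (ndF (ndF (ndF (ndF TOK.nil TOK.nil (p28 h).1.1.1.2.1 (by decide +kernel)) TOK.nil (p28 h).1.1.1.2.2 (by decide +kernel)) (ndF (ndF TOK.nil TOK.nil (p28 h).1.1.2.1.2 (by decide +kernel)) TOK.nil (p28 h).1.1.2.2.1 (by decide +kernel)) (p28 h).1.1.2.1.1 (by decide +kernel)) (ndF (ndF (ndF TOK.nil TOK.nil (p28 h).1.2.1.1.1 (by decide +kernel)) TOK.nil (p28 h).1.2.1.1.2 (by decide +kernel)) (ndF (ndF TOK.nil TOK.nil (p28 h).1.2.1.2.2 (by decide +kernel)) TOK.nil (p28 h).1.2.2.1.1 (by decide +kernel)) (p28 h).1.2.1.2.1 (by decide +kernel)) (p28 h).1.1.2.2.2 (by decide +kernel)) (p28 h).1.1.1.1.2 (by decide +kernel)) (ndF (ndF (ndF (ndF (ndF TOK.nil TOK.nil (p28 h).1.2.2.2.1 (by decide +kernel)) TOK.nil (p28 h).1.2.2.2.2 (by decide +kernel)) (ndF (ndF TOK.nil TOK.nil (p28 h).2.1.1.1.2 (by decide +kernel)) TOK.nil (p28 h).2.1.1.2.1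 (by decide +kernel)) (p28 h).2.1.1.1.1 (by decide +kernel)) (ndF (ndF (ndF TOK.nil TOK.nil (p28 h).2.1.2.1.1 (by decide +kernel)) TOK.nil (p28 h).2.1.2.1.2 (by decide +kernel)) (ndF (ndF TOK.nil TOK.nil (p28 h).2.1.2.2.2 (by decide +kernel)) TOK.nil (p28 h).2.2.1.1.1 (by decide +kernel)) (p28 h).2.1.2.2.1 (by decide +kernel)) (p28 h).2.1.1.2.2 (by decide +kernel)) (ndF (ndF (ndF (ndF TOK.nil TOK.nil (p28 h).2.2.1.2.1 (by decide +kernel)) TOK.nil (p28 h).2.2.1.2.2 (by decide +kernel)) (ndF (ndF TOK.nil TOK.nil (p28 h).2.2.2.1.2 (by decide +kernel)) TOK.nil (p28 h).2.2.2.2.1 (by decide +kernel)) (p28 h).2.2.2.1.1 (by decide +kernel)) (ndF (ndF (ndF TOK.nil TOK.nil (p28 h).2.2.2.2.2.2 (by decide +kernel)) TOK.nil (p29 h).1.1.1.1.1.1 (by decide +kernel)) (ndF TOK.nil TOK.nil (p29 h).1.1.1.1.1.2.2 (by decide +kernel)) (p29 h).1.1.1.1.1.2.1 (by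 decide +kernel)) (p28 h).2.2.2.2.2.1 (by decide +kernel)) (p28 h).2.2.1.1.2 (by decide +kernel)) (p28 h).1.2.2.1.2 (by decide +kernel)) (p27 h).2.2.1.1.2.1 (by decide +kernel))

theorem R_40_80_ok (h : RcOK RE.rowE) : R_40_80.OK :=
  okF (by decide +kernel) (ndF (ndF (ndF (ndF (ndF (ndF (ndF TOK.nil TOK.nil (p29 h).1.1.1.1.2.1.1 (by decide +kernel)) TOK.nil (p29 h).1.1.1.1.2.1.2 (by decide +kernel)) (ndF TOK.nil TOK.nil (p29 h).1.1.1.1.2.2.2 (by decide +kernel)) (p29 h).1.1.1.1.2.2.1 (by decide +kernel)) (ndF (ndF (ndF TOK.nil TOK.nil (p29 h).1.1.1.2.1.1.2 (by decide +kernel)) TOK.nil (p29 h).1.1.1.2.1.2.1 (by decide +kernel)) (ndF TOK.nil TOK.nil (p29 h).1.1.1.2.2.1.1 (by decide +kernel)) (p29 h).1.1.1.2.1.2.2 (by decide +kernel)) (p29 h).1.1.1.2.1.1.1 (by decide +kernel)) (ndF (ndF (ndF (ndF TOK.nil TOK.nil (p29 h).1.1.1.2.2.2.1 (by decide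 +kernel)) TOK.nil (p29 h).1.1.1.2.2.2.2 (by decide +kernel)) (ndF TOK.nil TOK.nil (p29 h).1.1.2.1.1.1.2 (by decide +kernel)) (p29 h).1.1.2.1.1.1.1 (by decide +kernel)) (ndF (ndF (ndF TOK.nil TOK.nil (p29 h).1.1.2.1.1.2.2 (by decide +kernel)) TOK.nil (p29 h).1.1.2.1.2.1.1 (by decide +kernel)) (ndF TOK.nil TOK.nil (p29 h).1.1.2.1.2.2.1 (by decide +kernel)) (p29 h).1.1.2.1.2.1.2 (by decide +kernel)) (p29 h).1.1.2.1.1.2.1 (by decide +kernel)) (p29 h).1.1.1.2.2.1.2 (by decide +kernel)) (ndF (ndF (ndF (ndF (ndF TOK.nil TOK.nil (p29 h).1.1.2.2.1.1.1 (by decide +kernel)) TOK.nil (p29 h).1.1.2.2.1.1.2 (by decide +kernel)) (ndF TOK.nil TOK.nil (p29 h).1.1.2.2.1.2.2 (by decide +kernel)) (p29 h).1.1.2.2.1.2.1 (by decide +kernel)) (ndF (ndF (ndF TOK.nil TOK.nil (p29 h).1.1.2.2.2.1.2 (by decide +kernel)) TOK.nil (p29 h).1.1.2.2.2.2.1 (by decide +kernel))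 (ndF TOK.nil TOK.nil (p29 h).1.2.1.1.1.1 (by decide +kernel)) (p29 h).1.1.2.2.2.2.2 (by decide +kernel)) (p29 h).1.1.2.2.2.1.1 (by decide +kernel)) (ndF (ndF (ndF (ndF TOK.nil TOK.nil (p29 h).1.2.1.1.1.2.2 (by decide +kernel)) TOK.nil (p29 h).1.2.1.1.2.1.1 (by decide +kernel)) (ndF TOK.nil TOK.nil (p29 h).1.2.1.1.2.2.1 (by decide +kernel)) (p29 h).1.2.1.1.2.1.2 (by decide +kernel)) (ndF (ndF (ndF TOK.nil TOK.nil (p29 h).1.2.1.2.1.1.1 (by decide +kernel)) TOK.nil (p29 h).1.2.1.2.1.1.2 (by decide +kernel)) (ndF TOK.nil TOK.nil (p29 h).1.2.1.2.1.2.2 (by decide +kernel)) (p29 h).1.2.1.2.1.2.1 (by decide +kernel)) (p29 h).1.2.1.1.2.2.2 (by decide +kernel)) (p29 h).1.2.1.1.1.2.1 (by decide +kernel)) (p29 h).1.1.2.1.2.2.2 (by decide +kernel)) (ndF (ndF (ndF (ndF (ndF (ndF TOK.nil TOK.nil (p29 h).1.2.1.2.2.1.2 (by decide +kernel)) TOK.nil (p29 h).1.2.1.2.2.2.1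 (by decide +kernel)) (ndF TOK.nil TOK.nil (p29 h).1.2.2.1.1.1.1 (by decide +kernel)) (p29 h).1.2.1.2.2.2.2 (by decide +kernel)) (ndF (ndF (ndF TOK.nil TOK.nil (p29 h).1.2.2.1.1.2.1 (by decide +kernel)) TOK.nil (p29 h).1.2.2.1.1.2.2 (by decide +kernel)) (ndF TOK.nil TOK.nil (p29 h).1.2.2.1.2.1.2 (by decide +kernel)) (p29 h).1.2.2.1.2.1.1 (by decide +kernel)) (p29 h).1.2.2.1.1.1.2 (by decide +kernel)) (ndF (ndF (ndF (ndF TOK.nil TOK.nil (p29 h).1.2.2.1.2.2.2 (by decide +kernel)) TOK.nil (p29 h).1.2.2.2.1.1.1 (by decide +kernel)) (ndF TOK.nil TOK.nil (p29 h).1.2.2.2.1.2.1 (by decide +kernel)) (p29 h).1.2.2.2.1.1.2 (by decide +kernel)) (ndF (ndF (ndF TOK.nil TOK.nil (p29 h).1.2.2.2.2.1.1 (by decide +kernel)) TOK.nil (p29 h).1.2.2.2.2.1.2 (by decide +kernel)) (ndF TOK.nil TOK.nil (p29 h).1.2.2.2.2.2.2 (by decide +kernel)) (p29 h).1.2.2.2.2.2.1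 (by decide +kernel)) (p29 h).1.2.2.2.1.2.2 (by decide +kernel)) (p29 h).1.2.2.1.2.2.1 (by decide +kernel)) (ndF (ndF (ndF (ndF (ndF TOK.nil TOK.nil (p29 h).2.1.1.1.1.2.1 (by decide +kernel)) TOK.nil (p29 h).2.1.1.1.1.2.2 (by decide +kernel)) (ndF TOK.nil TOK.nil (p29 h).2.1.1.1.2.1.2 (by decide +kernel)) (p29 h).2.1.1.1.2.1.1 (by decide +kernel)) (ndF (ndF (ndF TOK.nil TOK.nil (p29 h).2.1.1.1.2.2.2 (by decide +kernel)) TOK.nil (p29 h).2.1.1.2.1.1.1 (by decide +kernel)) (ndF TOK.nil TOK.nil (p29 h).2.1.1.2.1.2.1 (by decide +kernel)) (p29 h).2.1.1.2.1.1.2 (by decide +kernel)) (p29 h).2.1.1.1.2.2.1 (by decide +kernel)) (ndF (ndF (ndF (ndF TOK.nil TOK.nil (p29 h).2.1.1.2.2.1.1 (by decide +kernel)) TOK.nil (p29 h).2.1.1.2.2.1.2 (by decide +kernel)) (ndF TOK.nil TOK.nil (p29 h).2.1.1.2.2.2.2 (by decide +kernel)) (p29 h).2.1.1.2.2.2.1 (by decide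 +kernel)) (ndF (ndF (ndF TOK.nil TOK.nil (p29 h).2.1.2.1.1.1.2 (by decide +kernel)) TOK.nil (p29 h).2.1.2.1.1.2.1 (by decide +kernel)) (ndF TOK.nil TOK.nil (p29 h).2.1.2.1.2.1.1 (by decide +kernel)) (p29 h).2.1.2.1.1.2.2 (by decide +kernel)) (p29 h).2.1.2.1.1.1.1 (by decide +kernel)) (p29 h).2.1.1.2.1.2.2 (by decide +kernel)) (p29 h).2.1.1.1.1.1 (by decide +kernel)) (p29 h).1.2.1.2.2.1.1 (by decide +kernel))

theorem R_100_120_140_ok (h : RcOK RE.rowE) : R_100_120_140.OK :=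
  okF (by decide +kernel) (ndF (ndF (ndF (ndF (ndF (ndF (ndF TOK.nil TOK.nil (p29 h).2.1.2.1.2.1.2 (by decide +kernel)) (ndF TOK.nil TOK.nil (p29 h).2.1.2.1.2.2.2 (by decide +kernel)) (p29 h).2.1.2.1.2.2.1 (by decide +kernel)) (ndF (ndF TOK.nil TOK.nil (p29 h).2.1.2.2.1.1.2 (by decide +kernel)) TOK.nil (p29 h).2.1.2.2.1.2.1 (by decide +kernel)) (p29 h).2.1.2.2.1.1.1 (by decide +kernel)) (ndF (ndF (ndF TOK.nil TOK.nil (p29 h).2.1.2.2.2.1.1 (by decide +kernel)) TOK.nil (p29 h).2.1.2.2.2.1.2 (by decide +kernel)) (ndF (ndF TOK.nil TOK.nil (p29 h).2.1.2.2.2.2.2 (by decide +kernel)) TOK.nil (p29 h).2.2.1.1.1.1.1 (by decide +kernel)) (p29 h).2.1.2.2.2.2.1 (by decide +kernel)) (p29 h).2.1.2.2.1.2.2 (by decide +kernel)) (ndF (ndF (ndF (ndF TOK.nil TOK.nil (p29 h).2.2.1.1.1.2.1 (by decide +kernel)) (ndF TOK.nil TOK.nil (p29 h).2.2.1.1.2.1.1 (by decide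 +kernel)) (p29 h).2.2.1.1.1.2.2 (by decide +kernel)) (ndF (ndF TOK.nil TOK.nil (p29 h).2.2.1.1.2.2.1 (by decide +kernel)) TOK.nil (p29 h).2.2.1.1.2.2.2 (by decide +kernel)) (p29 h).2.2.1.1.2.1.2 (by decide +kernel)) (ndF (ndF (ndF TOK.nil TOK.nil (p29 h).2.2.1.2.1.1.2 (by decide +kernel)) TOK.nil (p29 h).2.2.1.2.1.2.1 (by decide +kernel)) (ndF (ndF TOK.nil TOK.nil (p29 h).2.2.1.2.2.1.1 (by decide +kernel)) TOK.nil (p29 h).2.2.1.2.2.1.2 (by decide +kernel)) (p29 h).2.2.1.2.1.2.2 (by decide +kernel)) (p29 h).2.2.1.2.1.1.1 (by decide +kernel)) (p29 h).2.2.1.1.1.1.2 (by decide +kernel)) (ndF (ndF (ndF (ndF (ndF TOK.nil TOK.nil (p29 h).2.2.1.2.2.2.2 (by decide +kernel)) (ndF TOK.nil TOK.nil (p29 h).2.2.2.1.1.1.2 (by decide +kernel)) (p29 h).2.2.2.1.1.1.1 (by decide +kernel)) (ndF (ndF TOK.nil TOK.nil (p29 h).2.2.2.1.1.2.2 (by decide +kernel))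 TOK.nil (p29 h).2.2.2.1.2.1.1 (by decide +kernel)) (p29 h).2.2.2.1.1.2.1 (by decide +kernel)) (ndF (ndF (ndF TOK.nil TOK.nil (p29 h).2.2.2.1.2.2.1 (by decide +kernel)) TOK.nil (p29 h).2.2.2.1.2.2.2 (by decide +kernel)) (ndF (ndF TOK.nil TOK.nil (p29 h).2.2.2.2.1.1.2 (by decide +kernel)) TOK.nil (p29 h).2.2.2.2.1.2.1 (by decide +kernel)) (p29 h).2.2.2.2.1.1.1 (by decide +kernel)) (p29 h).2.2.2.1.2.1.2 (by decide +kernel)) (ndF (ndF (ndF (ndF TOK.nil TOK.nil (p29 h).2.2.2.2.2.1.1 (by decide +kernel)) TOK.nil (p29 h).2.2.2.2.2.1.2 (by decide +kernel)) (ndF (ndF TOK.nil TOK.nil (p29 h).2.2.2.2.2.2.2 (by decide +kernel)) TOK.nil (p30 h).1.1.1.1.1.1.1 (by decide +kernel)) (p29 h).2.2.2.2.2.2.1 (by decide +kernel)) (ndF (ndF (ndF TOK.nil TOK.nil (p30 h).1.1.1.1.1.2.1 (by decide +kernel)) TOK.nil (p30 h).1.1.1.1.1.2.2.1 (by decide +kernel)) (ndF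 (ndF TOK.nil TOK.nil (p30 h).1.1.1.1.2.1.1 (by decide +kernel)) TOK.nil (p30 h).1.1.1.1.2.1.2 (by decide +kernel)) (p30 h).1.1.1.1.1.2.2.2 (by decide +kernel)) (p30 h).1.1.1.1.1.1.2 (by decide +kernel)) (p29 h).2.2.2.2.1.2.2 (by decide +kernel)) (p29 h).2.2.1.2.2.2.1 (by decide +kernel)) (ndF (ndF (ndF (ndF (ndF (ndF TOK.nil TOK.nil (p30 h).1.1.1.1.2.2.2.1 (by decide +kernel)) (ndF TOK.nil TOK.nil (p30 h).1.1.1.2.1.1.1 (by decide +kernel)) (p30 h).1.1.1.1.2.2.2.2 (by decide +kernel)) (ndF (ndF TOK.nil TOK.nil (p30 h).1.1.1.2.1.2.1 (by decide +kernel)) TOK.nil (p30 h).1.1.1.2.1.2.2.1 (by decide +kernel)) (p30 h).1.1.1.2.1.1.2 (by decide +kernel)) (ndF (ndF (ndF TOK.nil TOK.nil (p30 h).1.1.1.2.2.1.1 (by decide +kernel)) TOK.nil (p30 h).1.1.1.2.2.1.2 (by decide +kernel)) (ndF (ndF TOK.nil TOK.nil (p30 h).1.1.1.2.2.2.2.1 (by decide +kernel))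 TOK.nil (p30 h).1.1.1.2.2.2.2.2 (by decide +kernel)) (p30 h).1.1.1.2.2.2.1 (by decide +kernel)) (p30 h).1.1.1.2.1.2.2.2 (by decide +kernel)) (ndF (ndF (ndF (ndF TOK.nil TOK.nil (p30 h).1.1.2.1.1.1.2 (by decide +kernel)) (ndF TOK.nil TOK.nil (p30 h).1.1.2.1.1.2.2.1 (by decide +kernel)) (p30 h).1.1.2.1.1.2.1 (by decide +kernel)) (ndF (ndF TOK.nil TOK.nil (p30 h).1.1.2.1.2.1.1 (by decide +kernel)) TOK.nil (p30 h).1.1.2.1.2.1.2 (by decide +kernel)) (p30 h).1.1.2.1.1.2.2.2 (by decide +kernel)) (ndF (ndF (ndF TOK.nil TOK.nil (p30 h).1.1.2.1.2.2.2.1 (by decide +kernel)) TOK.nil (p30 h).1.1.2.1.2.2.2.2 (by decide +kernel)) (ndF (ndF TOK.nil TOK.nil (p30 h).1.1.2.2.1.1.2 (by decide +kernel)) TOK.nil (p30 h).1.1.2.2.1.2.1 (by decide +kernel)) (p30 h).1.1.2.2.1.1.1 (by decide +kernel)) (p30 h).1.1.2.1.2.2.1 (by decide +kernel)) (p30 h).1.1.2.1.1.1.1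 (by decide +kernel)) (ndF (ndF (ndF (ndF (ndF TOK.nil TOK.nil (p30 h).1.1.2.2.1.2.2.2 (by decide +kernel)) (ndF TOK.nil TOK.nil (p30 h).1.1.2.2.2.1.2 (by decide +kernel)) (p30 h).1.1.2.2.2.1.1 (by decide +kernel)) (ndF (ndF TOK.nil TOK.nil (p30 h).1.1.2.2.2.2.2.1 (by decide +kernel)) TOK.nil (p30 h).1.1.2.2.2.2.2.2 (by decide +kernel)) (p30 h).1.1.2.2.2.2.1 (by decide +kernel)) (ndF (ndF (ndF TOK.nil TOK.nil (p30 h).1.2.1.1.1.1.2 (by decide +kernel)) TOK.nil (p30 h).1.2.1.1.1.2.1 (by decide +kernel)) (ndF (ndF TOK.nil TOK.nil (p30 h).1.2.1.1.1.2.2.2 (by decide +kernel)) TOK.nil (p30 h).1.2.1.1.2.1.1 (by decide +kernel)) (p30 h).1.2.1.1.1.2.2.1 (by decide +kernel)) (p30 h).1.2.1.1.1.1.1 (by decide +kernel)) (ndF (ndF (ndF (ndF TOK.nil TOK.nil (p30 h).1.2.1.1.2.2.1 (by decide +kernel)) TOK.nil (p30 h).1.2.1.1.2.2.2.1 (by decide +kernel)) (ndF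 (ndF TOK.nil TOK.nil (p30 h).1.2.1.2.1.1.1 (by decide +kernel)) TOK.nil (p30 h).1.2.1.2.1.1.2 (by decide +kernel)) (p30 h).1.2.1.1.2.2.2.2 (by decide +kernel)) (ndF (ndF (ndF TOK.nil TOK.nil (p30 h).1.2.1.2.1.2.2.1 (by decide +kernel)) TOK.nil (p30 h).1.2.1.2.1.2.2.2 (by decide +kernel)) (ndF (ndF TOK.nil TOK.nil (p30 h).1.2.1.2.2.1.2 (by decide +kernel)) TOK.nil (p30 h).1.2.1.2.2.2.1 (by decide +kernel)) (p30 h).1.2.1.2.2.1.1 (by decide +kernel)) (p30 h).1.2.1.2.1.2.1 (by decide +kernel)) (p30 h).1.2.1.1.2.1.2 (by decide +kernel)) (p30 h).1.1.2.2.1.2.2.1 (by decide +kernel)) (p30 h).1.1.1.1.2.2.1 (by decide +kernel))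

theorem R_100_120_ok (h : RcOK RE.rowE) : R_100_120.OK :=
  okF (by decide +kernel) (ndF (ndF (ndF (ndF (ndF (ndF (ndF TOK.nil TOK.nil (p30 h).1.2.1.2.2.2.2.1 (by decide +kernel)) TOK.nil (p30 h).1.2.1.2.2.2.2.2 (by decide +kernel)) (ndF (ndF TOK.nil TOK.nil (p30 h).1.2.2.1.1.1.2 (by decide +kernel)) TOK.nil (p30 h).1.2.2.1.1.2.1 (by decide +kernel)) (p30 h).1.2.2.1.1.1.1 (by decide +kernel)) (ndF (ndF (ndF TOK.nil TOK.nil (p30 h).1.2.2.1.1.2.2.2 (by decide +kernel)) TOK.nil (p30 h).1.2.2.1.2.1.1 (by decide +kernel)) (ndF (ndF TOK.nil TOK.nil (p30 h).1.2.2.1.2.2.1 (by decide +kernel)) TOK.nil (p30 h).1.2.2.1.2.2.2.1 (by decide +kernel)) (p30 h).1.2.2.1.2.1.2 (by decide +kernel)) (p30 h).1.2.2.1.1.2.2.1 (by decide +kernel)) (ndF (ndF (ndF (ndF TOK.nil TOK.nil (p30 h).1.2.2.2.1.1.1 (by decide +kernel)) TOK.nil (p30 h).1.2.2.2.1.1.2 (by decide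 +kernel)) (ndF (ndF TOK.nil TOK.nil (p30 h).1.2.2.2.1.2.2.1 (by decide +kernel)) TOK.nil (p30 h).1.2.2.2.1.2.2.2 (by decide +kernel)) (p30 h).1.2.2.2.1.2.1 (by decide +kernel)) (ndF (ndF (ndF TOK.nil TOK.nil (p30 h).1.2.2.2.2.1.2 (by decide +kernel)) TOK.nil (p30 h).1.2.2.2.2.2.1 (by decide +kernel)) (ndF TOK.nil TOK.nil (p30 h).1.2.2.2.2.2.2.2 (by decide +kernel)) (p30 h).1.2.2.2.2.2.2.1 (by decide +kernel)) (p30 h).1.2.2.2.2.1.1 (by decide +kernel)) (p30 h).1.2.2.1.2.2.2.2 (by decide +kernel)) (ndF (ndF (ndF (ndF (ndF TOK.nil TOK.nil (p30 h).2.1.1.1.1.1.2 (by decide +kernel)) TOK.nil (p30 h).2.1.1.1.1.2.1 (by decide +kernel)) (ndF (ndF TOK.nil TOK.nil (p30 h).2.1.1.1.1.2.2.2 (by decide +kernel)) TOK.nil (p30 h).2.1.1.1.2.1.1 (by decide +kernel)) (p30 h).2.1.1.1.1.2.2.1 (by decide +kernel)) (ndF (ndF (ndF TOK.nil TOK.nil (p30 h).2.1.1.1.2.2.1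 (by decide +kernel)) TOK.nil (p30 h).2.1.1.1.2.2.2.1 (by decide +kernel)) (ndF TOK.nil TOK.nil (p30 h).2.1.1.2.1.1.1 (by decide +kernel)) (p30 h).2.1.1.1.2.2.2.2 (by decide +kernel)) (p30 h).2.1.1.1.2.1.2 (by decide +kernel)) (ndF (ndF (ndF (ndF TOK.nil TOK.nil (p30 h).2.1.1.2.1.2.1 (by decide +kernel)) TOK.nil (p30 h).2.1.1.2.1.2.2.1 (by decide +kernel)) (ndF (ndF TOK.nil TOK.nil (p30 h).2.1.1.2.2.1.1 (by decide +kernel)) TOK.nil (p30 h).2.1.1.2.2.1.2 (by decide +kernel)) (p30 h).2.1.1.2.1.2.2.2 (by decide +kernel)) (ndF (ndF (ndF TOK.nil TOK.nil (p30 h).2.1.1.2.2.2.2.1 (by decide +kernel)) TOK.nil (p30 h).2.1.1.2.2.2.2.2 (by decide +kernel)) (ndF TOK.nil TOK.nil (p30 h).2.1.2.1.1.1.2 (by decide +kernel)) (p30 h).2.1.2.1.1.1.1 (by decide +kernel)) (p30 h).2.1.1.2.2.2.1 (by decide +kernel)) (p30 h).2.1.1.2.1.1.2 (by decide +kernel)) (p30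 h).2.1.1.1.1.1.1 (by decide +kernel)) (ndF (ndF (ndF (ndF (ndF (ndF TOK.nil TOK.nil (p30 h).2.1.2.1.1.2.2.1 (by decide +kernel)) TOK.nil (p30 h).2.1.2.1.1.2.2.2 (by decide +kernel)) (ndF (ndF TOK.nil TOK.nil (p30 h).2.1.2.1.2.1.2 (by decide +kernel)) TOK.nil (p30 h).2.1.2.1.2.2.1 (by decide +kernel)) (p30 h).2.1.2.1.2.1.1 (by decide +kernel)) (ndF (ndF (ndF TOK.nil TOK.nil (p30 h).2.1.2.1.2.2.2.2 (by decide +kernel)) TOK.nil (p30 h).2.1.2.2.1.1.1 (by decide +kernel)) (ndF TOK.nil TOK.nil (p30 h).2.1.2.2.1.2.1 (by decide +kernel)) (p30 h).2.1.2.2.1.1.2 (by decide +kernel)) (p30 h).2.1.2.1.2.2.2.1 (by decide +kernel)) (ndF (ndF (ndF (ndF TOK.nil TOK.nil (p30 h).2.1.2.2.1.2.2.2 (by decide +kernel)) TOK.nil (p30 h).2.1.2.2.2.1.1 (by decide +kernel)) (ndF (ndF TOK.nil TOK.nil (p30 h).2.1.2.2.2.2.1 (by decide +kernel)) TOK.nil (p30 h).2.1.2.2.2.2.2.1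 (by decide +kernel)) (p30 h).2.1.2.2.2.1.2 (by decide +kernel)) (ndF (ndF (ndF TOK.nil TOK.nil (p30 h).2.2.1.1.1.1.1 (by decide +kernel)) TOK.nil (p30 h).2.2.1.1.1.1.2 (by decide +kernel)) (ndF TOK.nil TOK.nil (p30 h).2.2.1.1.1.2.2.1 (by decide +kernel)) (p30 h).2.2.1.1.1.2.1 (by decide +kernel)) (p30 h).2.1.2.2.2.2.2.2 (by decide +kernel)) (p30 h).2.1.2.2.1.2.2.1 (by decide +kernel)) (ndF (ndF (ndF (ndF (ndF TOK.nil TOK.nil (p30 h).2.2.1.1.2.1.1 (by decide +kernel)) TOK.nil (p30 h).2.2.1.1.2.1.2 (by decide +kernel)) (ndF (ndF TOK.nil TOK.nil (p30 h).2.2.1.1.2.2.2.1 (by decide +kernel)) TOK.nil (p30 h).2.2.1.1.2.2.2.2 (by decide +kernel)) (p30 h).2.2.1.1.2.2.1 (by decide +kernel)) (ndF (ndF (ndF TOK.nil TOK.nil (p30 h).2.2.1.2.1.1.2 (by decide +kernel)) TOK.nil (p30 h).2.2.1.2.1.2.1 (by decide +kernel)) (ndF TOK.nil TOK.nil (p30 h).2.2.1.2.1.2.2.2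 (by decide +kernel)) (p30 h).2.2.1.2.1.2.2.1 (by decide +kernel)) (p30 h).2.2.1.2.1.1.1 (by decide +kernel)) (ndF (ndF (ndF (ndF TOK.nil TOK.nil (p30 h).2.2.1.2.2.1.2 (by decide +kernel)) TOK.nil (p30 h).2.2.1.2.2.2.1 (by decide +kernel)) (ndF (ndF TOK.nil TOK.nil (p30 h).2.2.1.2.2.2.2.2 (by decide +kernel)) TOK.nil (p30 h).2.2.2.1.1.1.1 (by decide +kernel)) (p30 h).2.2.1.2.2.2.2.1 (by decide +kernel)) (ndF (ndF (ndF TOK.nil TOK.nil (p30 h).2.2.2.1.1.2.1 (by decide +kernel)) TOK.nil (p30 h).2.2.2.1.1.2.2.1 (by decide +kernel)) (ndF TOK.nil TOK.nil (p30 h).2.2.2.1.2.1.1 (by decide +kernel)) (p30 h).2.2.2.1.1.2.2.2 (by decide +kernel)) (p30 h).2.2.2.1.1.1.2 (by decide +kernel)) (p30 h).2.2.1.2.2.1.1 (by decide +kernel)) (p30 h).2.2.1.1.1.2.2.2 (by decide +kernel)) (p30 h).2.1.2.1.1.2.1 (by decide +kernel))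

theorem R_40_80_140_ok (h : RcOK RE.rowE) : R_40_80_140.OK :=
  okF (by decide +kernel) (ndF (ndF (ndF (ndF (ndF (ndF (ndF TOK.nil TOK.nil (p30 h).2.2.2.1.2.1.2 (by decide +kernel)) TOK.nil (p30 h).2.2.2.1.2.2.1 (by decide +kernel)) (ndF TOK.nil TOK.nil (p30 h).2.2.2.1.2.2.2.2 (by decide +kernel)) (p30 h).2.2.2.1.2.2.2.1 (by decide +kernel)) (ndF (ndF (ndF TOK.nil TOK.nil (p30 h).2.2.2.2.1.1.2 (by decide +kernel)) TOK.nil (p30 h).2.2.2.2.1.2.1 (by decide +kernel)) (ndF TOK.nil TOK.nil (p30 h).2.2.2.2.1.2.2.2 (by decide +kernel)) (p30 h).2.2.2.2.1.2.2.1 (by decide +kernel)) (p30 h).2.2.2.2.1.1.1 (by decide +kernel)) (ndF (ndF (ndF (ndF TOK.nil TOK.nil (p30 h).2.2.2.2.2.1.2.1 (by decide +kernel)) TOK.nil (p30 h).2.2.2.2.2.1.2.2 (by decide +kernel)) (ndF TOK.nil TOK.nil (p30 h).2.2.2.2.2.2.2.1 (by decide +kernel)) (p30 h).2.2.2.2.2.2.1 (by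 decide +kernel)) (ndF (ndF (ndF TOK.nil TOK.nil (p31 h).1.1.1.1.1 (by decide +kernel)) TOK.nil (p31 h).1.1.1.1.2 (by decide +kernel)) (ndF TOK.nil TOK.nil (p31 h).1.1.1.2.2 (by decide +kernel)) (p31 h).1.1.1.2.1 (by decide +kernel)) (p30 h).2.2.2.2.2.2.2.2 (by decide +kernel)) (p30 h).2.2.2.2.2.1.1 (by decide +kernel)) (ndF (ndF (ndF (ndF (ndF TOK.nil TOK.nil (p31 h).1.1.2.1.2 (by decide +kernel)) TOK.nil (p31 h).1.1.2.2.1 (by decide +kernel)) (ndF TOK.nil TOK.nil (p31 h).1.1.2.2.2.2 (by decide +kernel)) (p31 h).1.1.2.2.2.1 (by decide +kernel)) (ndF (ndF (ndF TOK.nil TOK.nil (p31 h).1.2.1.1.2 (by decide +kernel)) TOK.nil (p31 h).1.2.1.2.1 (by decide +kernel)) (ndF TOK.nil TOK.nil (p31 h).1.2.2.1.1 (by decide +kernel)) (p31 h).1.2.1.2.2 (by decide +kernel)) (p31 h).1.2.1.1.1 (by decide +kernel)) (ndF (ndF (ndF (ndF TOK.nil TOK.nil (p31 h).1.2.2.2.1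 (by decide +kernel)) TOK.nil (p31 h).1.2.2.2.2.1 (by decide +kernel)) (ndF TOK.nil TOK.nil (p31 h).2.1.1.1.1 (by decide +kernel)) (p31 h).1.2.2.2.2.2 (by decide +kernel)) (ndF (ndF (ndF TOK.nil TOK.nil (p31 h).2.1.1.2.1 (by decide +kernel)) TOK.nil (p31 h).2.1.1.2.2 (by decide +kernel)) (ndF TOK.nil TOK.nil (p31 h).2.1.2.1.2 (by decide +kernel)) (p31 h).2.1.2.1.1 (by decide +kernel)) (p31 h).2.1.1.1.2 (by decide +kernel)) (p31 h).1.2.2.1.2 (by decide +kernel)) (p31 h).1.1.2.1.1 (by decide +kernel)) (ndF (ndF (ndF (ndF (ndF (ndF TOK.nil TOK.nil (p31 h).2.1.2.2.2.1 (by decide +kernel)) TOK.nil (p31 h).2.1.2.2.2.2 (by decide +kernel)) (ndF TOK.nil TOK.nil (p31 h).2.2.1.1.2 (by decide +kernel)) (p31 h).2.2.1.1.1 (by decide +kernel)) (ndF (ndF (ndF TOK.nil TOK.nil (p31 h).2.2.1.2.2 (by decide +kernel)) TOK.nil (p31 h).2.2.2.1.1 (by decide +kernel))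 (ndF TOK.nil TOK.nil (p31 h).2.2.2.2.1 (by decide +kernel)) (p31 h).2.2.2.1.2 (by decide +kernel)) (p31 h).2.2.1.2.1 (by decide +kernel)) (ndF (ndF (ndF (ndF TOK.nil TOK.nil (p31 h).2.2.2.2.2.2 (by decide +kernel)) TOK.nil (p32 h).1.1.1.1 (by decide +kernel)) (ndF TOK.nil TOK.nil (p32 h).1.1.2.1 (by decide +kernel)) (p32 h).1.1.1.2 (by decide +kernel)) (ndF (ndF (ndF TOK.nil TOK.nil (p32 h).1.1.2.2.2 (by decide +kernel)) TOK.nil (p32 h).1.2.1.1 (by decide +kernel)) (ndF TOK.nil TOK.nil (p32 h).1.2.1.2.2 (by decide +kernel)) (p32 h).1.2.1.2.1 (by decide +kernel)) (p32 h).1.1.2.2.1 (by decide +kernel)) (p31 h).2.2.2.2.2.1 (by decide +kernel)) (ndF (ndF (ndF (ndF (ndF TOK.nil TOK.nil (p32 h).1.2.2.2.1 (by decide +kernel)) TOK.nil (p32 h).1.2.2.2.2 (by decide +kernel)) (ndF TOK.nil TOK.nil (p32 h).2.1.1.2 (by decide +kernel)) (p32 h).2.1.1.1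 (by decide +kernel)) (ndF (ndF (ndF TOK.nil TOK.nil (p32 h).2.1.2.2.1 (by decide +kernel)) TOK.nil (p32 h).2.1.2.2.2 (by decide +kernel)) (ndF TOK.nil TOK.nil (p32 h).2.2.1.2.1 (by decide +kernel)) (p32 h).2.2.1.1 (by decide +kernel)) (p32 h).2.1.2.1 (by decide +kernel)) (ndF (ndF (ndF (ndF TOK.nil TOK.nil (p32 h).2.2.2.1 (by decide +kernel)) TOK.nil (p32 h).2.2.2.2.1 (by decide +kernel)) (ndF TOK.nil TOK.nil (p33 h).1.1.1.1.1.1.1 (by decide +kernel)) (p32 h).2.2.2.2.2 (by decide +kernel)) (ndF (ndF (ndF TOK.nil TOK.nil (p33 h).1.1.1.1.1.2.1 (by decide +kernel)) TOK.nil (p33 h).1.1.1.1.1.2.2.1 (by decide +kernel)) (ndF TOK.nil TOK.nil (p33 h).1.1.1.1.2.1.1 (by decide +kernel)) (p33 h).1.1.1.1.1.2.2.2 (by decide +kernel)) (p33 h).1.1.1.1.1.1.2 (by decide +kernel)) (p32 h).2.2.1.2.2 (by decide +kernel)) (p32 h).1.2.2.1 (by decide +kernel))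 (p31 h).2.1.2.2.1 (by decide +kernel))


end TB
end Pool.Agent.Lib.MP_6947cd_al
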