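import Pool.Agent.Lib.MP_6947cd_al.TB.P79
import Pool.Agent.Lib.MP_6947cd_al.TB.P80
import Pool.Agent.Lib.MP_6947cd_al.TB.P81
import Pool.Agent.Lib.MP_6947cd_al.TB.P82
import Pool.Agent.Lib.MP_6947cd_al.TB.P83
import Pool.Agent.Lib.MP_6947cd_al.TB.P84
import Pool.Agent.Lib.MP_6947cd_al.TB.P85

/-!
Problem MP_6947cd_al (Chollet).  THE FAMILIES OF TABLES ARE CORRECT, part 21.
-/

set_option autoImplicit false
set_option maxHeartbeats 0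
set_option maxRecDepth 100000
set_option linter.all false

namespace Pool.Agent.Lib.MP_6947cd_al
namespace TB

open Ent Ent.Pk Fr Fr.WT B1 PkA PkA.TF

theorem R_20_60_140_ok (h : RcOK RE.rowE) : R_20_60_140.OK :=
  okF (by decide +kernel) (ndF (ndF (ndF (ndF (ndF (ndF (ndF TOK.nil TOK.nil (p79 h).2.1.1.2.1.2 (by decide +kernel)) TOK.nil (p79 h).2.1.1.2.2.1 (by decide +kernel)) (ndF TOK.nil TOK.nil (p79 h).2.1.2.1.1.1 (by decide +kernel)) (p79 h).2.1.1.2.2.2 (by decide +kernel)) (ndF (ndF TOK.nil TOK.nil (p79 h).2.1.2.1.2.1 (by decide +kernel)) (ndF TOK.nil TOK.nil (p79 h).2.1.2.2.1.1 (by decide +kernel)) (p79 h).2.1.2.1.2.2 (by decide +kernel)) (p79 h).2.1.2.1.1.2 (by decide +kernel)) (ndF (ndF (ndF TOK.nil TOK.nil (p79 h).2.1.2.2.2.1 (by decide +kernel)) (ndF TOK.nil TOK.nil (p79 h).2.1.2.2.2.2.2 (by decide +kernel)) (p79 h).2.1.2.2.2.2.1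 (by decide +kernel)) (ndF (ndF TOK.nil TOK.nil (p79 h).2.2.1.1.1.2 (by decide +kernel)) (ndF TOK.nil TOK.nil (p79 h).2.2.1.1.2.2 (by decide +kernel)) (p79 h).2.2.1.1.2.1 (by decide +kernel)) (p79 h).2.2.1.1.1.1 (by decide +kernel)) (p79 h).2.1.2.2.1.2 (by decide +kernel)) (ndF (ndF (ndF (ndF TOK.nil TOK.nil (p79 h).2.2.1.2.1.2 (by decide +kernel)) (ndF TOK.nil TOK.nil (p79 h).2.2.1.2.2.2.1 (by decide +kernel)) (p79 h).2.2.1.2.2.1 (by decide +kernel)) (ndF (ndF TOK.nil TOK.nil (p79 h).2.2.2.1.1.1 (by decide +kernel)) (ndF TOK.nil TOK.nil (p79 h).2.2.2.1.2.1 (by decide +kernel)) (p79 h).2.2.2.1.1.2 (by decide +kernel)) (p79 h).2.2.1.2.2.2.2 (by decide +kernel)) (ndF (ndF (ndF TOK.nil TOK.nil (p79 h).2.2.2.2.1.1 (by decide +kernel)) (ndF TOK.nil TOK.nil (p79 h).2.2.2.2.2.1 (by decide +kernel)) (p79 h).2.2.2.2.1.2 (by decide +kernel))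 (ndF (ndF TOK.nil TOK.nil (p79 h).2.2.2.2.2.2.2 (by decide +kernel)) (ndF TOK.nil TOK.nil (p80 h).1.1.1.1.1.2 (by decide +kernel)) (p80 h).1.1.1.1.1.1 (by decide +kernel)) (p79 h).2.2.2.2.2.2.1 (by decide +kernel)) (p79 h).2.2.2.1.2.2 (by decide +kernel)) (p79 h).2.2.1.2.1.1 (by decide +kernel)) (ndF (ndF (ndF (ndF (ndF (ndF TOK.nil TOK.nil (p80 h).1.1.1.1.2.2.1 (by decide +kernel)) TOK.nil (p80 h).1.1.1.1.2.2.2 (by decide +kernel)) (ndF TOK.nil TOK.nil (p80 h).1.1.1.2.1.2 (by decide +kernel)) (p80 h).1.1.1.2.1.1 (by decide +kernel)) (ndF (ndF TOK.nil TOK.nil (p80 h).1.1.1.2.2.2.1 (by decide +kernel)) (ndF TOK.nil TOK.nil (p80 h).1.1.2.1.1.1 (by decide +kernel)) (p80 h).1.1.1.2.2.2.2 (by decide +kernel)) (p80 h).1.1.1.2.2.1 (by decide +kernel)) (ndF (ndF (ndF TOK.nil TOK.nil (p80 h).1.1.2.1.2.1 (by decide +kernel)) (ndF TOK.nil TOK.nil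 (p80 h).1.1.2.1.2.2.2 (by decide +kernel)) (p80 h).1.1.2.1.2.2.1 (by decide +kernel)) (ndF (ndF TOK.nil TOK.nil (p80 h).1.1.2.2.1.2 (by decide +kernel)) (ndF TOK.nil TOK.nil (p80 h).1.1.2.2.2.2.1 (by decide +kernel)) (p80 h).1.1.2.2.2.1 (by decide +kernel)) (p80 h).1.1.2.2.1.1 (by decide +kernel)) (p80 h).1.1.2.1.1.2 (by decide +kernel)) (ndF (ndF (ndF (ndF TOK.nil TOK.nil (p80 h).1.2.1.1.1.1 (by decide +kernel)) (ndF TOK.nil TOK.nil (p80 h).1.2.1.1.2.1 (by decide +kernel)) (p80 h).1.2.1.1.1.2 (by decide +kernel)) (ndF (ndF TOK.nil TOK.nil (p80 h).1.2.1.1.2.2.2 (by decide +kernel)) (ndF TOK.nil TOK.nil (p80 h).1.2.1.2.1.2 (by decide +kernel)) (p80 h).1.2.1.2.1.1 (by decide +kernel)) (p80 h).1.2.1.1.2.2.1 (by decide +kernel)) (ndF (ndF (ndF TOK.nil TOK.nil (p80 h).1.2.1.2.2.2.1 (by decide +kernel)) (ndF TOK.nil TOK.nil (p80 h).1.2.2.1.1.1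 (by decide +kernel)) (p80 h).1.2.1.2.2.2.2 (by decide +kernel)) (ndF (ndF TOK.nil TOK.nil (p80 h).1.2.2.1.2.1 (by decide +kernel)) (ndF TOK.nil TOK.nil (p80 h).1.2.2.1.2.2.2 (by decide +kernel)) (p80 h).1.2.2.1.2.2.1 (by decide +kernel)) (p80 h).1.2.2.1.1.2 (by decide +kernel)) (p80 h).1.2.1.2.2.1 (by decide +kernel)) (p80 h).1.1.2.2.2.2.2 (by decide +kernel)) (p80 h).1.1.1.1.2.1 (by decide +kernel))

theorem R_40_140_ok (h : RcOK RE.rowE) : R_40_140.OK :=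
  okF (by decide +kernel) (ndF (ndF (ndF (ndF (ndF (ndF (ndF TOK.nil TOK.nil (p80 h).1.2.2.2.1.1 (by decide +kernel)) TOK.nil (p80 h).1.2.2.2.1.2 (by decide +kernel)) (ndF TOK.nil TOK.nil (p80 h).1.2.2.2.2.2.1 (by decide +kernel)) (p80 h).1.2.2.2.2.1 (by decide +kernel)) (ndF (ndF TOK.nil TOK.nil (p80 h).2.1.1.1.1.1 (by decide +kernel)) (ndF TOK.nil TOK.nil (p80 h).2.1.1.1.2.1 (by decide +kernel)) (p80 h).2.1.1.1.1.2 (by decide +kernel)) (p80 h).1.2.2.2.2.2.2 (by decide +kernel)) (ndF (ndF (ndF (ndF TOK.nil TOK.nil (p80 h).2.1.1.1.2.2.2 (by decide +kernel)) TOK.nil (p80 h).2.1.1.2.1.1 (by decide +kernel)) (ndF TOK.nil TOK.nil (p80 h).2.1.1.2.2.1 (by decide +kernel)) (p80 h).2.1.1.2.1.2 (by decide +kernel)) (ndF (ndF TOK.nil TOK.nil (p80 h).2.1.1.2.2.2.2 (by decide +kernel)) (ndF TOK.nil TOK.nil (p80 h).2.1.2.1.1.2 (by decide +kernel))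 (p80 h).2.1.2.1.1.1 (by decide +kernel)) (p80 h).2.1.1.2.2.2.1 (by decide +kernel)) (p80 h).2.1.1.1.2.2.1 (by decide +kernel)) (ndF (ndF (ndF (ndF (ndF TOK.nil TOK.nil (p80 h).2.1.2.1.2.2.1 (by decide +kernel)) TOK.nil (p80 h).2.1.2.1.2.2.2 (by decide +kernel)) (ndF TOK.nil TOK.nil (p80 h).2.1.2.2.1.2 (by decide +kernel)) (p80 h).2.1.2.2.1.1 (by decide +kernel)) (ndF (ndF TOK.nil TOK.nil (p80 h).2.1.2.2.2.2.1 (by decide +kernel)) (ndF TOK.nil TOK.nil (p80 h).2.2.1.1.1.1 (by decide +kernel)) (p80 h).2.1.2.2.2.2.2 (by decide +kernel)) (p80 h).2.1.2.2.2.1 (by decide +kernel)) (ndF (ndF (ndF (ndF TOK.nil TOK.nil (p80 h).2.2.1.1.2.1 (by decide +kernel)) TOK.nil (p80 h).2.2.1.1.2.2.1 (by decide +kernel)) (ndF TOK.nil TOK.nil (p80 h).2.2.1.2.1.1 (by decide +kernel)) (p80 h).2.2.1.1.2.2.2 (by decide +kernel)) (ndF (ndF TOK.nil TOK.nil (p80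 h).2.2.1.2.2.1 (by decide +kernel)) (ndF TOK.nil TOK.nil (p80 h).2.2.1.2.2.2.2 (by decide +kernel)) (p80 h).2.2.1.2.2.2.1 (by decide +kernel)) (p80 h).2.2.1.2.1.2 (by decide +kernel)) (p80 h).2.2.1.1.1.2 (by decide +kernel)) (p80 h).2.1.2.1.2.1 (by decide +kernel)) (ndF (ndF (ndF (ndF (ndF (ndF TOK.nil TOK.nil (p80 h).2.2.2.1.1.2 (by decide +kernel)) TOK.nil (p80 h).2.2.2.1.2.1 (by decide +kernel)) (ndF TOK.nil TOK.nil (p80 h).2.2.2.1.2.2.2 (by decide +kernel)) (p80 h).2.2.2.1.2.2.1 (by decide +kernel)) (ndF (ndF TOK.nil TOK.nil (p80 h).2.2.2.2.1.2.1 (by decide +kernel)) (ndF TOK.nil TOK.nil (p80 h).2.2.2.2.2.1 (by decide +kernel)) (p80 h).2.2.2.2.1.2.2 (by decide +kernel)) (p80 h).2.2.2.2.1.1 (by decide +kernel)) (ndF (ndF (ndF (ndF TOK.nil TOK.nil (p80 h).2.2.2.2.2.2.2 (by decide +kernel)) TOK.nil (p81 h).1.1.1.1.1.1.1 (by decide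 +kernel)) (ndF TOK.nil TOK.nil (p81 h).1.1.1.1.1.2.1 (by decide +kernel)) (p81 h).1.1.1.1.1.1.2 (by decide +kernel)) (ndF (ndF TOK.nil TOK.nil (p81 h).1.1.1.1.1.2.2.2 (by decide +kernel)) (ndF TOK.nil TOK.nil (p81 h).1.1.1.1.2.1.2 (by decide +kernel)) (p81 h).1.1.1.1.2.1.1 (by decide +kernel)) (p81 h).1.1.1.1.1.2.2.1 (by decide +kernel)) (p80 h).2.2.2.2.2.2.1 (by decide +kernel)) (ndF (ndF (ndF (ndF (ndF TOK.nil TOK.nil (p81 h).1.1.1.1.2.2.2.1 (by decide +kernel)) TOK.nil (p81 h).1.1.1.1.2.2.2.2 (by decide +kernel)) (ndF TOK.nil TOK.nil (p81 h).1.1.1.2.1.1.2 (by decide +kernel)) (p81 h).1.1.1.2.1.1.1 (by decide +kernel)) (ndF (ndF TOK.nil TOK.nil (p81 h).1.1.1.2.1.2.2.1 (by decide +kernel)) (ndF TOK.nil TOK.nil (p81 h).1.1.1.2.2.1.1 (by decide +kernel)) (p81 h).1.1.1.2.1.2.2.2 (by decide +kernel)) (p81 h).1.1.1.2.1.2.1 (by decide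 +kernel)) (ndF (ndF (ndF (ndF TOK.nil TOK.nil (p81 h).1.1.1.2.2.1.2.2 (by decide +kernel)) TOK.nil (p81 h).1.1.1.2.2.2.1 (by decide +kernel)) (ndF TOK.nil TOK.nil (p81 h).1.1.1.2.2.2.2.2 (by decide +kernel)) (p81 h).1.1.1.2.2.2.2.1 (by decide +kernel)) (ndF (ndF TOK.nil TOK.nil (p81 h).1.1.2.1.1.1.2 (by decide +kernel)) (ndF TOK.nil TOK.nil (p81 h).1.1.2.1.1.2.2.1 (by decide +kernel)) (p81 h).1.1.2.1.1.2.1 (by decide +kernel)) (p81 h).1.1.2.1.1.1.1 (by decide +kernel)) (p81 h).1.1.1.2.2.1.2.1 (by decide +kernel)) (p81 h).1.1.1.1.2.2.1 (by decide +kernel)) (p80 h).2.2.2.1.1.1 (by decide +kernel))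

theorem T_40_140_ok (h : RcOK RE.rowE) : T_40_140.OK :=
  okF (by decide +kernel) (ndF (ndF (ndF (ndF (ndF (ndF (ndF TOK.nil TOK.nil (p81 h).1.1.2.1.1.2.2.2 (by decide +kernel)) TOK.nil (p81 h).1.1.2.1.2.1.1 (by decide +kernel)) (ndF TOK.nil TOK.nil (p81 h).1.1.2.1.2.1.2.2 (by decide +kernel)) (p81 h).1.1.2.1.2.1.2.1 (by decide +kernel)) (ndF (ndF TOK.nil TOK.nil (p81 h).1.1.2.1.2.2.2.1 (by decide +kernel)) (ndF TOK.nil TOK.nil (p81 h).1.1.2.2.1.1.1 (by decide +kernel)) (p81 h).1.1.2.1.2.2.2.2 (by decide +kernel)) (p81 h).1.1.2.1.2.2.1 (by decide +kernel)) (ndF (ndF (ndF (ndF TOK.nil TOK.nil (p81 h).1.1.2.2.1.2.1 (by decide +kernel)) TOK.nil (p81 h).1.1.2.2.1.2.2.1 (by decide +kernel)) (ndF TOK.nil TOK.nil (p81 h).1.1.2.2.2.1.1 (by decide +kernel)) (p81 h).1.1.2.2.1.2.2.2 (by decide +kernel)) (ndF (ndF TOK.nil TOK.nil (p81 h).1.1.2.2.2.1.2.2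 (by decide +kernel)) (ndF TOK.nil TOK.nil (p81 h).1.1.2.2.2.2.2.1 (by decide +kernel)) (p81 h).1.1.2.2.2.2.1 (by decide +kernel)) (p81 h).1.1.2.2.2.1.2.1 (by decide +kernel)) (p81 h).1.1.2.2.1.1.2 (by decide +kernel)) (ndF (ndF (ndF (ndF (ndF TOK.nil TOK.nil (p81 h).1.2.1.1.1.1.1 (by decide +kernel)) TOK.nil (p81 h).1.2.1.1.1.1.2 (by decide +kernel)) (ndF TOK.nil TOK.nil (p81 h).1.2.1.1.1.2.2.1 (by decide +kernel)) (p81 h).1.2.1.1.1.2.1 (by decide +kernel)) (ndF (ndF TOK.nil TOK.nil (p81 h).1.2.1.1.2.1.1 (by decide +kernel)) (ndF TOK.nil TOK.nil (p81 h).1.2.1.1.2.2.1 (by decide +kernel)) (p81 h).1.2.1.1.2.1.2 (by decide +kernel)) (p81 h).1.2.1.1.1.2.2.2 (by decide +kernel)) (ndF (ndF (ndF (ndF TOK.nil TOK.nil (p81 h).1.2.1.1.2.2.2.2 (by decide +kernel)) TOK.nil (p81 h).1.2.1.2.1.1.1 (by decide +kernel)) (ndF TOK.nil TOK.nil (p81 h).1.2.1.2.1.2.1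 (by decide +kernel)) (p81 h).1.2.1.2.1.1.2 (by decide +kernel)) (ndF (ndF TOK.nil TOK.nil (p81 h).1.2.1.2.1.2.2.2 (by decide +kernel)) (ndF TOK.nil TOK.nil (p81 h).1.2.1.2.2.1.2.1 (by decide +kernel)) (p81 h).1.2.1.2.2.1.1 (by decide +kernel)) (p81 h).1.2.1.2.1.2.2.1 (by decide +kernel)) (p81 h).1.2.1.1.2.2.2.1 (by decide +kernel)) (p81 h).1.1.2.2.2.2.2.2 (by decide +kernel)) (ndF (ndF (ndF (ndF (ndF (ndF TOK.nil TOK.nil (p81 h).1.2.1.2.2.2.1 (by decide +kernel)) TOK.nil (p81 h).1.2.1.2.2.2.2.1 (by decide +kernel)) (ndF TOK.nil TOK.nil (p81 h).1.2.2.1.1.1.1 (by decide +kernel)) (p81 h).1.2.1.2.2.2.2.2 (by decide +kernel)) (ndF (ndF TOK.nil TOK.nil (p81 h).1.2.2.1.1.2.1 (by decide +kernel)) (ndF TOK.nil TOK.nil (p81 h).1.2.2.1.1.2.2.2 (by decide +kernel)) (p81 h).1.2.2.1.1.2.2.1 (by decide +kernel)) (p81 h).1.2.2.1.1.1.2 (by decide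 +kernel)) (ndF (ndF (ndF (ndF TOK.nil TOK.nil (p81 h).1.2.2.1.2.1.2.1 (by decide +kernel)) TOK.nil (p81 h).1.2.2.1.2.1.2.2 (by decide +kernel)) (ndF TOK.nil TOK.nil (p81 h).1.2.2.1.2.2.2.1 (by decide +kernel)) (p81 h).1.2.2.1.2.2.1 (by decide +kernel)) (ndF (ndF TOK.nil TOK.nil (p81 h).1.2.2.2.1.1.1 (by decide +kernel)) (ndF TOK.nil TOK.nil (p81 h).1.2.2.2.1.2.1 (by decide +kernel)) (p81 h).1.2.2.2.1.1.2 (by decide +kernel)) (p81 h).1.2.2.1.2.2.2.2 (by decide +kernel)) (p81 h).1.2.2.1.2.1.1 (by decide +kernel)) (ndF (ndF (ndF (ndF (ndF TOK.nil TOK.nil (p81 h).1.2.2.2.1.2.2.2 (by decide +kernel)) TOK.nil (p81 h).1.2.2.2.2.1.1 (by decide +kernel)) (ndF TOK.nil TOK.nil (p81 h).1.2.2.2.2.1.2.2 (by decide +kernel)) (p81 h).1.2.2.2.2.1.2.1 (by decide +kernel)) (ndF (ndF TOK.nil TOK.nil (p81 h).1.2.2.2.2.2.2.1 (by decide +kernel)) (ndF TOK.nil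 TOK.nil (p81 h).2.1.1.1.1.1.1 (by decide +kernel)) (p81 h).1.2.2.2.2.2.2.2 (by decide +kernel)) (p81 h).1.2.2.2.2.2.1 (by decide +kernel)) (ndF (ndF (ndF (ndF TOK.nil TOK.nil (p81 h).2.1.1.1.1.2.1 (by decide +kernel)) TOK.nil (p81 h).2.1.1.1.1.2.2.1 (by decide +kernel)) (ndF TOK.nil TOK.nil (p81 h).2.1.1.1.2.1.1 (by decide +kernel)) (p81 h).2.1.1.1.1.2.2.2 (by decide +kernel)) (ndF (ndF TOK.nil TOK.nil (p81 h).2.1.1.1.2.2.1 (by decide +kernel)) (ndF TOK.nil TOK.nil (p81 h).2.1.1.1.2.2.2.2 (by decide +kernel)) (p81 h).2.1.1.1.2.2.2.1 (by decide +kernel)) (p81 h).2.1.1.1.2.1.2 (by decide +kernel)) (p81 h).2.1.1.1.1.1.2 (by decide +kernel)) (p81 h).1.2.2.2.1.2.2.1 (by decide +kernel)) (p81 h).1.2.1.2.2.1.2.2 (by decide +kernel))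

theorem R_90_110_130_ok (h : RcOK RE.rowE) : R_90_110_130.OK :=
  okF (by decide +kernel) (ndF (ndF (ndF (ndF (ndF TOK.nil TOK.nil (p81 h).2.1.1.2.1.1.1 (by decide +kernel)) TOK.nil (p81 h).2.1.1.2.1.1.2 (by decide +kernel)) (ndF TOK.nil TOK.nil (p81 h).2.1.1.2.1.2.2.1 (by decide +kernel)) (p81 h).2.1.1.2.1.2.1 (by decide +kernel)) (ndF (ndF (ndF TOK.nil TOK.nil (p81 h).2.1.1.2.2.1.1 (by decide +kernel)) TOK.nil (p81 h).2.1.1.2.2.1.2.1 (by decide +kernel)) (ndF TOK.nil TOK.nil (p81 h).2.1.1.2.2.2.1 (by decide +kernel)) (p81 h).2.1.1.2.2.1.2.2 (by decide +kernel)) (p81 h).2.1.1.2.1.2.2.2 (by decide +kernel)) (ndF (ndF (ndF (ndF TOK.nil TOK.nil (p81 h).2.1.1.2.2.2.2.2 (by decide +kernel)) TOK.nil (p81 h).2.1.2.1.1.1.1 (by decide +kernel)) (ndF TOK.nil TOK.nil (p81 h).2.1.2.1.1.2.1 (by decide +kernel)) (p81 h).2.1.2.1.1.1.2 (by decide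 +kernel)) (ndF (ndF TOK.nil TOK.nil (p81 h).2.1.2.1.1.2.2.2 (by decide +kernel)) (ndF TOK.nil TOK.nil (p81 h).2.1.2.1.2.1.2.1 (by decide +kernel)) (p81 h).2.1.2.1.2.1.1 (by decide +kernel)) (p81 h).2.1.2.1.1.2.2.1 (by decide +kernel)) (p81 h).2.1.1.2.2.2.2.1 (by decide +kernel))

theorem R_120_160_200_ok (h : RcOK RE.rowE) : R_120_160_200.OK :=
  okF (by decide +kernel) (ndF (ndF (ndF (ndF (ndF (ndF TOK.nil TOK.nil (p81 h).2.1.2.1.2.1.2.2 (by decide +kernel)) (ndF TOK.nil TOK.nil (p81 h).2.1.2.1.2.2.2.1 (by decide +kernel)) (p81 h).2.1.2.1.2.2.1 (by decide +kernel)) (ndF (ndF TOK.nil TOK.nil (p81 h).2.1.2.2.1.1.1 (by decide +kernel)) (ndF TOK.nil TOK.nil (p81 h).2.1.2.2.1.2.1 (by decide +kernel)) (p81 h).2.1.2.2.1.1.2 (by decide +kernel)) (p81 h).2.1.2.1.2.2.2.2 (by decide +kernel)) (ndF (ndF (ndF TOK.nil TOK.nil (p81 h).2.1.2.2.1.2.2.2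 (by decide +kernel)) (ndF TOK.nil TOK.nil (p81 h).2.1.2.2.2.1.2.1 (by decide +kernel)) (p81 h).2.1.2.2.2.1.1 (by decide +kernel)) (ndF (ndF TOK.nil TOK.nil (p81 h).2.1.2.2.2.2.1 (by decide +kernel)) (ndF TOK.nil TOK.nil (p81 h).2.1.2.2.2.2.2.2 (by decide +kernel)) (p81 h).2.1.2.2.2.2.2.1 (by decide +kernel)) (p81 h).2.1.2.2.2.1.2.2 (by decide +kernel)) (p81 h).2.1.2.2.1.2.2.1 (by decide +kernel)) (ndF (ndF (ndF (ndF TOK.nil TOK.nil (p81 h).2.2.1.1.1.1.2 (by decide +kernel)) (ndF TOK.nil TOK.nil (p81 h).2.2.1.1.1.2.2.1 (by decide +kernel)) (p81 h).2.2.1.1.1.2.1 (by decide +kernel)) (ndF (ndF TOK.nil TOK.nil (p81 h).2.2.1.1.2.1.1 (by decide +kernel)) (ndF TOK.nil TOK.nil (p81 h).2.2.1.1.2.2.1 (by decide +kernel)) (p81 h).2.2.1.1.2.1.2 (by decide +kernel)) (p81 h).2.2.1.1.1.2.2.2 (by decide +kernel)) (ndF (ndF (ndF TOK.nil TOK.nil (p81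 h).2.2.1.1.2.2.2.2 (by decide +kernel)) (ndF TOK.nil TOK.nil (p81 h).2.2.1.2.1.1.2 (by decide +kernel)) (p81 h).2.2.1.2.1.1.1 (by decide +kernel)) (ndF (ndF TOK.nil TOK.nil (p81 h).2.2.1.2.1.2.2.1 (by decide +kernel)) (ndF TOK.nil TOK.nil (p81 h).2.2.1.2.2.1.1 (by decide +kernel)) (p81 h).2.2.1.2.1.2.2.2 (by decide +kernel)) (p81 h).2.2.1.2.1.2.1 (by decide +kernel)) (p81 h).2.2.1.1.2.2.2.1 (by decide +kernel)) (p81 h).2.2.1.1.1.1.1 (by decide +kernel)) (ndF (ndF (ndF (ndF (ndF TOK.nil TOK.nil (p81 h).2.2.1.2.2.1.2.2 (by decide +kernel)) (ndF TOK.nil TOK.nil (p81 h).2.2.1.2.2.2.2.1 (by decide +kernel)) (p81 h).2.2.1.2.2.2.1 (by decide +kernel)) (ndF (ndF TOK.nil TOK.nil (p81 h).2.2.2.1.1.1.1 (by decide +kernel)) (ndF TOK.nil TOK.nil (p81 h).2.2.2.1.1.2.1 (by decide +kernel)) (p81 h).2.2.2.1.1.1.2 (by decide +kernel)) (p81 h).2.2.1.2.2.2.2.2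 (by decide +kernel)) (ndF (ndF (ndF TOK.nil TOK.nil (p81 h).2.2.2.1.1.2.2.2 (by decide +kernel)) (ndF TOK.nil TOK.nil (p81 h).2.2.2.1.2.1.2.1 (by decide +kernel)) (p81 h).2.2.2.1.2.1.1 (by decide +kernel)) (ndF (ndF TOK.nil TOK.nil (p81 h).2.2.2.1.2.2.1 (by decide +kernel)) (ndF TOK.nil TOK.nil (p81 h).2.2.2.1.2.2.2.2 (by decide +kernel)) (p81 h).2.2.2.1.2.2.2.1 (by decide +kernel)) (p81 h).2.2.2.1.2.1.2.2 (by decide +kernel)) (p81 h).2.2.2.1.1.2.2.1 (by decide +kernel)) (ndF (ndF (ndF (ndF TOK.nil TOK.nil (p81 h).2.2.2.2.1.1.2 (by decide +kernel)) (ndF TOK.nil TOK.nil (p81 h).2.2.2.2.1.2.2.1 (by decide +kernel)) (p81 h).2.2.2.2.1.2.1 (by decide +kernel)) (ndF (ndF TOK.nil TOK.nil (p81 h).2.2.2.2.2.1.1 (by decide +kernel)) (ndF TOK.nil TOK.nil (p81 h).2.2.2.2.2.1.2.2 (by decide +kernel)) (p81 h).2.2.2.2.2.1.2.1 (by decide +kernel))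 (p81 h).2.2.2.2.1.2.2.2 (by decide +kernel)) (ndF (ndF (ndF TOK.nil TOK.nil (p81 h).2.2.2.2.2.2.2.1 (by decide +kernel)) (ndF TOK.nil TOK.nil (p82 h).1.1.1.1.1.1 (by decide +kernel)) (p81 h).2.2.2.2.2.2.2.2 (by decide +kernel)) (ndF (ndF TOK.nil TOK.nil (p82 h).1.1.1.1.2.1 (by decide +kernel)) TOK.nil (p82 h).1.1.1.1.2.2 (by decide +kernel)) (p82 h).1.1.1.1.1.2 (by decide +kernel)) (p81 h).2.2.2.2.2.2.1 (by decide +kernel)) (p81 h).2.2.2.2.1.1.1 (by decide +kernel)) (p81 h).2.2.1.2.2.1.2.1 (by decide +kernel))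

theorem R_40_80_100_120_ok (h : RcOK RE.rowE) : R_40_80_100_120.OK :=
  okF (by decide +kernel) (ndF (ndF (ndF (ndF (ndF (ndF TOK.nil TOK.nil (p82 h).1.1.1.2.1.1 (by decide +kernel)) (ndF TOK.nil TOK.nil (p82 h).1.1.1.2.2.1 (by decide +kernel)) (p82 h).1.1.1.2.1.2 (by decide +kernel)) (ndF (ndF TOK.nil TOK.nil (p82 h).1.1.1.2.2.2.2 (by decide +kernel)) TOK.nil (p82 h).1.1.2.1.1.1 (by decide +kernel)) (p82 h).1.1.1.2.2.2.1 (by decide +kernel)) (ndF (ndF (ndF TOK.nil TOK.nil (p82 h).1.1.2.1.2.1 (by decide +kernel)) TOK.nil (p82 h).1.1.2.1.2.2 (by decide +kernel)) (ndF (ndF TOK.nil TOK.nil (p82 h).1.1.2.2.1.2 (by decide +kernel)) TOK.nil (p82 h).1.1.2.2.2.1 (by decide +kernel)) (p82 h).1.1.2.2.1.1 (by decide +kernel)) (p82 h).1.1.2.1.1.2 (by decide +kernel)) (ndF (ndF (ndF (ndF TOK.nil TOK.nil (p82 h).1.1.2.2.2.2.2 (by decide +kernel))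 TOK.nil (p82 h).1.2.1.1.1.1 (by decide +kernel)) (ndF (ndF TOK.nil TOK.nil (p82 h).1.2.1.1.2.1 (by decide +kernel)) TOK.nil (p82 h).1.2.1.1.2.2 (by decide +kernel)) (p82 h).1.2.1.1.1.2 (by decide +kernel)) (ndF (ndF (ndF TOK.nil TOK.nil (p82 h).1.2.1.2.1.2 (by decide +kernel)) TOK.nil (p82 h).1.2.1.2.2.1 (by decide +kernel)) (ndF (ndF TOK.nil TOK.nil (p82 h).1.2.1.2.2.2.2 (by decide +kernel)) TOK.nil (p82 h).1.2.2.1.1.1 (by decide +kernel)) (p82 h).1.2.1.2.2.2.1 (by decide +kernel)) (p82 h).1.2.1.2.1.1 (by decide +kernel)) (p82 h).1.1.2.2.2.2.1 (by decide +kernel)) (ndF (ndF (ndF (ndF (ndF TOK.nil TOK.nil (p82 h).1.2.2.1.2.1 (by decide +kernel)) TOK.nil (p82 h).1.2.2.1.2.2 (by decide +kernel)) (ndF (ndF TOK.nil TOK.nil (p82 h).1.2.2.2.1.2 (by decide +kernel)) TOK.nil (p82 h).1.2.2.2.2.1 (by decide +kernel)) (p82 h).1.2.2.2.1.1 (by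 decide +kernel)) (ndF (ndF (ndF TOK.nil TOK.nil (p82 h).1.2.2.2.2.2.2 (by decide +kernel)) TOK.nil (p82 h).2.1.1.1.1.1 (by decide +kernel)) (ndF (ndF TOK.nil TOK.nil (p82 h).2.1.1.1.2.1 (by decide +kernel)) TOK.nil (p82 h).2.1.1.1.2.2 (by decide +kernel)) (p82 h).2.1.1.1.1.2 (by decide +kernel)) (p82 h).1.2.2.2.2.2.1 (by decide +kernel)) (ndF (ndF (ndF (ndF TOK.nil TOK.nil (p82 h).2.1.1.2.1.2 (by decide +kernel)) TOK.nil (p82 h).2.1.1.2.2.1 (by decide +kernel)) (ndF (ndF TOK.nil TOK.nil (p82 h).2.1.1.2.2.2.2 (by decide +kernel)) TOK.nil (p82 h).2.1.2.1.1.1 (by decide +kernel)) (p82 h).2.1.1.2.2.2.1 (by decide +kernel)) (ndF (ndF (ndF TOK.nil TOK.nil (p82 h).2.1.2.1.2.1 (by decide +kernel)) TOK.nil (p82 h).2.1.2.1.2.2 (by decide +kernel)) (ndF (ndF TOK.nil TOK.nil (p82 h).2.1.2.2.1.2 (by decide +kernel)) TOK.nil (p82 h).2.1.2.2.2.1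 (by decide +kernel)) (p82 h).2.1.2.2.1.1 (by decide +kernel)) (p82 h).2.1.2.1.1.2 (by decide +kernel)) (p82 h).2.1.1.2.1.1 (by decide +kernel)) (p82 h).1.2.2.1.1.2 (by decide +kernel))

theorem R_60_120_140_ok (h : RcOK RE.rowE) : R_60_120_140.OK :=
  okF (by decide +kernel) (ndF (ndF (ndF (ndF (ndF (ndF (ndF TOK.nil TOK.nil (p82 h).2.1.2.2.2.2.1 (by decide +kernel)) TOK.nil (p82 h).2.1.2.2.2.2.2 (by decide +kernel)) (ndF TOK.nil TOK.nil (p82 h).2.2.1.1.1.2 (by decide +kernel)) (p82 h).2.2.1.1.1.1 (by decide +kernel)) (ndF (ndF TOK.nil TOK.nil (p82 h).2.2.1.1.2.2 (by decide +kernel)) (ndF TOK.nil TOK.nil (p82 h).2.2.1.2.1.2 (by decide +kernel)) (p82 h).2.2.1.2.1.1 (by decide +kernel)) (p82 h).2.2.1.1.2.1 (by decide +kernel)) (ndF (ndF (ndF (ndF TOK.nil TOK.nil (p82 h).2.2.1.2.2.2.1 (by decide +kernel)) TOK.nil (p82 h).2.2.1.2.2.2.2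 (by decide +kernel)) (ndF TOK.nil TOK.nil (p82 h).2.2.2.1.1.2 (by decide +kernel)) (p82 h).2.2.2.1.1.1 (by decide +kernel)) (ndF (ndF TOK.nil TOK.nil (p82 h).2.2.2.1.2.2.1 (by decide +kernel)) (ndF TOK.nil TOK.nil (p82 h).2.2.2.2.1.1 (by decide +kernel)) (p82 h).2.2.2.1.2.2.2 (by decide +kernel)) (p82 h).2.2.2.1.2.1 (by decide +kernel)) (p82 h).2.2.1.2.2.1 (by decide +kernel)) (ndF (ndF (ndF (ndF (ndF TOK.nil TOK.nil (p82 h).2.2.2.2.2.1 (by decide +kernel)) TOK.nil (p82 h).2.2.2.2.2.2.1 (by decide +kernel)) (ndF TOK.nil TOK.nil (p83 h).1.1.1.1.1.1.1 (by decide +kernel)) (p82 h).2.2.2.2.2.2.2 (by decide +kernel)) (ndF (ndF TOK.nil TOK.nil (p83 h).1.1.1.1.1.1.2.2 (by decide +kernel)) (ndF TOK.nil TOK.nil (p83 h).1.1.1.1.1.2.2.1 (by decide +kernel)) (p83 h).1.1.1.1.1.2.1 (by decide +kernel)) (p83 h).1.1.1.1.1.1.2.1 (by decide +kernel))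 (ndF (ndF (ndF TOK.nil TOK.nil (p83 h).1.1.1.1.2.1.1 (by decide +kernel)) (ndF TOK.nil TOK.nil (p83 h).1.1.1.1.2.1.2.2 (by decide +kernel)) (p83 h).1.1.1.1.2.1.2.1 (by decide +kernel)) (ndF (ndF TOK.nil TOK.nil (p83 h).1.1.1.1.2.2.2.1 (by decide +kernel)) (ndF TOK.nil TOK.nil (p83 h).1.1.1.2.1.1.1 (by decide +kernel)) (p83 h).1.1.1.1.2.2.2.2 (by decide +kernel)) (p83 h).1.1.1.1.2.2.1 (by decide +kernel)) (p83 h).1.1.1.1.1.2.2.2 (by decide +kernel)) (p82 h).2.2.2.2.1.2 (by decide +kernel)) (ndF (ndF (ndF (ndF (ndF (ndF TOK.nil TOK.nil (p83 h).1.1.1.2.1.1.2.2 (by decide +kernel)) TOK.nil (p83 h).1.1.1.2.1.2.1 (by decide +kernel)) (ndF TOK.nil TOK.nil (p83 h).1.1.1.2.1.2.2.2 (by decide +kernel)) (p83 h).1.1.1.2.1.2.2.1 (by decide +kernel)) (ndF (ndF TOK.nil TOK.nil (p83 h).1.1.1.2.2.1.2.1 (by decide +kernel)) (ndF TOK.nil TOK.nil (p83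 h).1.1.1.2.2.2.1 (by decide +kernel)) (p83 h).1.1.1.2.2.1.2.2 (by decide +kernel)) (p83 h).1.1.1.2.2.1.1 (by decide +kernel)) (ndF (ndF (ndF TOK.nil TOK.nil (p83 h).1.1.1.2.2.2.2.2 (by decide +kernel)) (ndF TOK.nil TOK.nil (p83 h).1.1.2.1.1.1.2.1 (by decide +kernel)) (p83 h).1.1.2.1.1.1.1 (by decide +kernel)) (ndF (ndF TOK.nil TOK.nil (p83 h).1.1.2.1.1.2.1 (by decide +kernel)) (ndF TOK.nil TOK.nil (p83 h).1.1.2.1.1.2.2.2 (by decide +kernel)) (p83 h).1.1.2.1.1.2.2.1 (by decide +kernel)) (p83 h).1.1.2.1.1.1.2.2 (by decide +kernel)) (p83 h).1.1.1.2.2.2.2.1 (by decide +kernel)) (ndF (ndF (ndF (ndF (ndF TOK.nil TOK.nil (p83 h).1.1.2.1.2.1.2.1 (by decide +kernel)) TOK.nil (p83 h).1.1.2.1.2.1.2.2 (by decide +kernel)) (ndF TOK.nil TOK.nil (p83 h).1.1.2.1.2.2.2.1 (by decide +kernel)) (p83 h).1.1.2.1.2.2.1 (by decide +kernel)) (ndF (ndF TOK.nil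 TOK.nil (p83 h).1.1.2.2.1.1.1 (by decide +kernel)) (ndF TOK.nil TOK.nil (p83 h).1.1.2.2.1.1.2.2 (by decide +kernel)) (p83 h).1.1.2.2.1.1.2.1 (by decide +kernel)) (p83 h).1.1.2.1.2.2.2.2 (by decide +kernel)) (ndF (ndF (ndF TOK.nil TOK.nil (p83 h).1.1.2.2.1.2.2.1 (by decide +kernel)) (ndF TOK.nil TOK.nil (p83 h).1.1.2.2.2.1.1 (by decide +kernel)) (p83 h).1.1.2.2.1.2.2.2 (by decide +kernel)) (ndF (ndF TOK.nil TOK.nil (p83 h).1.1.2.2.2.1.2.2 (by decide +kernel)) (ndF TOK.nil TOK.nil (p83 h).1.1.2.2.2.2.1.2 (by decide +kernel)) (p83 h).1.1.2.2.2.2.1.1 (by decide +kernel)) (p83 h).1.1.2.2.2.1.2.1 (by decide +kernel)) (p83 h).1.1.2.2.1.2.1 (by decide +kernel)) (p83 h).1.1.2.1.2.1.1 (by decide +kernel)) (p83 h).1.1.1.2.1.1.2.1 (by decide +kernel))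

theorem T_18_36_ok (h : RcOK RE.rowE) : T_18_36.OK :=
  okF (by decide +kernel) (ndF (ndF (ndF (ndF (ndF (ndF (ndF TOK.nil TOK.nil (p83 h).1.1.2.2.2.2.2.1 (by decide +kernel)) (ndF TOK.nil TOK.nil (p83 h).1.2.1.1.1.1.1 (by decide +kernel)) (p83 h).1.1.2.2.2.2.2.2 (by decide +kernel)) (ndF (ndF TOK.nil TOK.nil (p83 h).1.2.1.1.1.1.2.2 (by decide +kernel)) TOK.nil (p83 h).1.2.1.1.1.2.1 (by decide +kernel)) (p83 h).1.2.1.1.1.1.2.1 (by decide +kernel)) (ndF (ndF (ndF TOK.nil TOK.nil (p83 h).1.2.1.1.1.2.2.2 (by decide +kernel)) TOK.nil (p83 h).1.2.1.1.2.1.1 (by decide +kernel)) (ndF (ndF TOK.nil TOK.nil (p83 h).1.2.1.1.2.1.2.2 (by decide +kernel)) TOK.nil (p83 h).1.2.1.1.2.2.1 (by decide +kernel)) (p83 h).1.2.1.1.2.1.2.1 (by decide +kernel)) (p83 h).1.2.1.1.1.2.2.1 (by decide +kernel)) (ndF (ndF (ndF (ndF TOK.nil TOK.nil (p83 h).1.2.1.1.2.2.2.2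 (by decide +kernel)) TOK.nil (p83 h).1.2.1.2.1.1.1 (by decide +kernel)) (ndF (ndF TOK.nil TOK.nil (p83 h).1.2.1.2.1.1.2.2 (by decide +kernel)) TOK.nil (p83 h).1.2.1.2.1.2.1 (by decide +kernel)) (p83 h).1.2.1.2.1.1.2.1 (by decide +kernel)) (ndF (ndF (ndF TOK.nil TOK.nil (p83 h).1.2.1.2.1.2.2.2 (by decide +kernel)) TOK.nil (p83 h).1.2.1.2.2.1.1 (by decide +kernel)) (ndF (ndF TOK.nil TOK.nil (p83 h).1.2.1.2.2.1.2.2 (by decide +kernel)) TOK.nil (p83 h).1.2.1.2.2.2.1.1 (by decide +kernel)) (p83 h).1.2.1.2.2.1.2.1 (by decide +kernel)) (p83 h).1.2.1.2.1.2.2.1 (by decide +kernel)) (p83 h).1.2.1.1.2.2.2.1 (by decide +kernel)) (ndF (ndF (ndF (ndF (ndF TOK.nil TOK.nil (p83 h).1.2.1.2.2.2.2.1 (by decide +kernel)) (ndF TOK.nil TOK.nil (p83 h).1.2.2.1.1.1.1 (by decide +kernel)) (p83 h).1.2.1.2.2.2.2.2 (by decide +kernel)) (ndF (ndF TOK.nil TOK.nil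 (p83 h).1.2.2.1.1.1.2.2 (by decide +kernel)) TOK.nil (p83 h).1.2.2.1.1.2.1 (by decide +kernel)) (p83 h).1.2.2.1.1.1.2.1 (by decide +kernel)) (ndF (ndF (ndF TOK.nil TOK.nil (p83 h).1.2.2.1.1.2.2.2 (by decide +kernel)) TOK.nil (p83 h).1.2.2.1.2.1.1 (by decide +kernel)) (ndF (ndF TOK.nil TOK.nil (p83 h).1.2.2.1.2.1.2.2 (by decide +kernel)) TOK.nil (p83 h).1.2.2.1.2.2.1 (by decide +kernel)) (p83 h).1.2.2.1.2.1.2.1 (by decide +kernel)) (p83 h).1.2.2.1.1.2.2.1 (by decide +kernel)) (ndF (ndF (ndF (ndF TOK.nil TOK.nil (p83 h).1.2.2.1.2.2.2.2 (by decide +kernel)) TOK.nil (p83 h).1.2.2.2.1.1.1 (by decide +kernel)) (ndF (ndF TOK.nil TOK.nil (p83 h).1.2.2.2.1.1.2.2 (by decide +kernel)) TOK.nil (p83 h).1.2.2.2.1.2.1 (by decide +kernel)) (p83 h).1.2.2.2.1.1.2.1 (by decide +kernel)) (ndF (ndF (ndF TOK.nil TOK.nil (p83 h).1.2.2.2.1.2.2.2 (by decide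 +kernel)) TOK.nil (p83 h).1.2.2.2.2.1.1 (by decide +kernel)) (ndF (ndF TOK.nil TOK.nil (p83 h).1.2.2.2.2.1.2.2 (by decide +kernel)) TOK.nil (p83 h).1.2.2.2.2.2.1.1 (by decide +kernel)) (p83 h).1.2.2.2.2.1.2.1 (by decide +kernel)) (p83 h).1.2.2.2.1.2.2.1 (by decide +kernel)) (p83 h).1.2.2.1.2.2.2.1 (by decide +kernel)) (p83 h).1.2.1.2.2.2.1.2 (by decide +kernel)) (ndF (ndF (ndF (ndF (ndF (ndF TOK.nil TOK.nil (p83 h).1.2.2.2.2.2.2.1 (by decide +kernel)) (ndF TOK.nil TOK.nil (p83 h).2.1.1.1.1.1.1 (by decide +kernel)) (p83 h).1.2.2.2.2.2.2.2 (by decide +kernel)) (ndF (ndF TOK.nil TOK.nil (p83 h).2.1.1.1.1.1.2.2 (by decide +kernel)) TOK.nil (p83 h).2.1.1.1.1.2.1 (by decide +kernel)) (p83 h).2.1.1.1.1.1.2.1 (by decide +kernel)) (ndF (ndF (ndF TOK.nil TOK.nil (p83 h).2.1.1.1.1.2.2.2 (by decide +kernel)) TOK.nil (p83 h).2.1.1.1.2.1.1 (by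 decide +kernel)) (ndF (ndF TOK.nil TOK.nil (p83 h).2.1.1.1.2.1.2.2 (by decide +kernel)) TOK.nil (p83 h).2.1.1.1.2.2.1 (by decide +kernel)) (p83 h).2.1.1.1.2.1.2.1 (by decide +kernel)) (p83 h).2.1.1.1.1.2.2.1 (by decide +kernel)) (ndF (ndF (ndF (ndF TOK.nil TOK.nil (p83 h).2.1.1.1.2.2.2.2 (by decide +kernel)) TOK.nil (p83 h).2.1.1.2.1.1.1 (by decide +kernel)) (ndF (ndF TOK.nil TOK.nil (p83 h).2.1.1.2.1.1.2.2 (by decide +kernel)) TOK.nil (p83 h).2.1.1.2.1.2.1 (by decide +kernel)) (p83 h).2.1.1.2.1.1.2.1 (by decide +kernel)) (ndF (ndF (ndF TOK.nil TOK.nil (p83 h).2.1.1.2.1.2.2.2 (by decide +kernel)) TOK.nil (p83 h).2.1.1.2.2.1.1 (by decide +kernel)) (ndF (ndF TOK.nil TOK.nil (p83 h).2.1.1.2.2.1.2.2 (by decide +kernel)) TOK.nil (p83 h).2.1.1.2.2.2.1.1 (by decide +kernel)) (p83 h).2.1.1.2.2.1.2.1 (by decide +kernel)) (p83 h).2.1.1.2.1.2.2.1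 (by decide +kernel)) (p83 h).2.1.1.1.2.2.2.1 (by decide +kernel)) (ndF (ndF (ndF (ndF (ndF TOK.nil TOK.nil (p83 h).2.1.1.2.2.2.2.1 (by decide +kernel)) (ndF TOK.nil TOK.nil (p83 h).2.1.2.1.1.1.1 (by decide +kernel)) (p83 h).2.1.1.2.2.2.2.2 (by decide +kernel)) (ndF (ndF TOK.nil TOK.nil (p83 h).2.1.2.1.1.1.2.2 (by decide +kernel)) TOK.nil (p83 h).2.1.2.1.1.2.1 (by decide +kernel)) (p83 h).2.1.2.1.1.1.2.1 (by decide +kernel)) (ndF (ndF (ndF TOK.nil TOK.nil (p83 h).2.1.2.1.1.2.2.2 (by decide +kernel)) TOK.nil (p83 h).2.1.2.1.2.1.1 (by decide +kernel)) (ndF (ndF TOK.nil TOK.nil (p83 h).2.1.2.1.2.1.2.2 (by decide +kernel)) TOK.nil (p83 h).2.1.2.1.2.2.1 (by decide +kernel)) (p83 h).2.1.2.1.2.1.2.1 (by decide +kernel)) (p83 h).2.1.2.1.1.2.2.1 (by decide +kernel)) (ndF (ndF (ndF (ndF TOK.nil TOK.nil (p83 h).2.1.2.1.2.2.2.2 (by decide +kernel))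 TOK.nil (p83 h).2.1.2.2.1.1.1 (by decide +kernel)) (ndF (ndF TOK.nil TOK.nil (p83 h).2.1.2.2.1.1.2.2 (by decide +kernel)) TOK.nil (p83 h).2.1.2.2.1.2.1 (by decide +kernel)) (p83 h).2.1.2.2.1.1.2.1 (by decide +kernel)) (ndF (ndF (ndF TOK.nil TOK.nil (p83 h).2.1.2.2.1.2.2.2 (by decide +kernel)) TOK.nil (p83 h).2.1.2.2.2.1.1 (by decide +kernel)) (ndF (ndF TOK.nil TOK.nil (p83 h).2.1.2.2.2.1.2.2 (by decide +kernel)) TOK.nil (p83 h).2.1.2.2.2.2.1.1 (by decide +kernel)) (p83 h).2.1.2.2.2.1.2.1 (by decide +kernel)) (p83 h).2.1.2.2.1.2.2.1 (by decide +kernel)) (p83 h).2.1.2.1.2.2.2.1 (by decide +kernel)) (p83 h).2.1.1.2.2.2.1.2 (by decide +kernel)) (p83 h).1.2.2.2.2.2.1.2 (by decide +kernel))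

theorem R_40_80_100_110_ok (h : RcOK RE.rowE) : R_40_80_100_110.OK :=
  okF (by decide +kernel) (ndF (ndF (ndF (ndF (ndF (ndF TOK.nil TOK.nil (p83 h).2.1.2.2.2.2.1.2 (by decide +kernel)) TOK.nil (p83 h).2.1.2.2.2.2.2.1 (by decide +kernel)) (ndF TOK.nil TOK.nil (p83 h).2.2.1.1.1.1.1 (by decide +kernel)) (p83 h).2.1.2.2.2.2.2.2 (by decide +kernel)) (ndF (ndF TOK.nil TOK.nil (p83 h).2.2.1.1.1.1.2.2 (by decide +kernel)) (ndF TOK.nil TOK.nil (p83 h).2.2.1.1.1.2.2.1 (by decide +kernel)) (p83 h).2.2.1.1.1.2.1 (by decide +kernel)) (p83 h).2.2.1.1.1.1.2.1 (by decide +kernel)) (ndF (ndF (ndF TOK.nil TOK.nil (p83 h).2.2.1.1.2.1.1 (by decide +kernel)) (ndF TOK.nil TOK.nil (p83 h).2.2.1.1.2.1.2.2 (by decide +kernel)) (p83 h).2.2.1.1.2.1.2.1 (by decide +kernel)) (ndF (ndF TOK.nil TOK.nil (p83 h).2.2.1.1.2.2.2.1 (by decide +kernel)) (ndF TOK.nil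 TOK.nil (p83 h).2.2.1.2.1.1.1 (by decide +kernel)) (p83 h).2.2.1.1.2.2.2.2 (by decide +kernel)) (p83 h).2.2.1.1.2.2.1 (by decide +kernel)) (p83 h).2.2.1.1.1.2.2.2 (by decide +kernel)) (ndF (ndF (ndF (ndF (ndF TOK.nil TOK.nil (p83 h).2.2.1.2.1.1.2.2 (by decide +kernel)) TOK.nil (p83 h).2.2.1.2.1.2.1 (by decide +kernel)) (ndF TOK.nil TOK.nil (p83 h).2.2.1.2.1.2.2.2 (by decide +kernel)) (p83 h).2.2.1.2.1.2.2.1 (by decide +kernel)) (ndF (ndF TOK.nil TOK.nil (p83 h).2.2.1.2.2.1.2.1 (by decide +kernel)) (ndF TOK.nil TOK.nil (p83 h).2.2.1.2.2.2.1.1 (by decide +kernel)) (p83 h).2.2.1.2.2.1.2.2 (by decide +kernel)) (p83 h).2.2.1.2.2.1.1 (by decide +kernel)) (ndF (ndF (ndF TOK.nil TOK.nil (p83 h).2.2.1.2.2.2.2.1 (by decide +kernel)) (ndF TOK.nil TOK.nil (p83 h).2.2.2.1.1.1.1 (by decide +kernel)) (p83 h).2.2.1.2.2.2.2.2 (by decide +kernel))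 (ndF (ndF TOK.nil TOK.nil (p83 h).2.2.2.1.1.1.2.2 (by decide +kernel)) (ndF TOK.nil TOK.nil (p83 h).2.2.2.1.1.2.2.1 (by decide +kernel)) (p83 h).2.2.2.1.1.2.1 (by decide +kernel)) (p83 h).2.2.2.1.1.1.2.1 (by decide +kernel)) (p83 h).2.2.1.2.2.2.1.2 (by decide +kernel)) (p83 h).2.2.1.2.1.1.2.1 (by decide +kernel))

theorem R_40_100_120_ok (h : RcOK RE.rowE) : R_40_100_120.OK :=
  okF (by decide +kernel) (ndF (ndF (ndF (ndF (ndF (ndF (ndF TOK.nil TOK.nil (p83 h).2.2.2.1.1.2.2.2 (by decide +kernel)) TOK.nil (p83 h).2.2.2.1.2.1.1 (by decide +kernel)) (ndF TOK.nil TOK.nil (p83 h).2.2.2.1.2.1.2.2 (by decide +kernel)) (p83 h).2.2.2.1.2.1.2.1 (by decide +kernel)) (ndF (ndF TOK.nil TOK.nil (p83 h).2.2.2.1.2.2.2.1 (by decide +kernel)) (ndF TOK.nil TOK.nil (p83 h).2.2.2.2.1.1.1 (by decide +kernel)) (p83 h).2.2.2.1.2.2.2.2 (by decide +kernel))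 (p83 h).2.2.2.1.2.2.1 (by decide +kernel)) (ndF (ndF (ndF TOK.nil TOK.nil (p83 h).2.2.2.2.1.1.2.2 (by decide +kernel)) (ndF TOK.nil TOK.nil (p83 h).2.2.2.2.1.2.2.1 (by decide +kernel)) (p83 h).2.2.2.2.1.2.1 (by decide +kernel)) (ndF (ndF TOK.nil TOK.nil (p83 h).2.2.2.2.2.1.1 (by decide +kernel)) (ndF TOK.nil TOK.nil (p83 h).2.2.2.2.2.1.2.2 (by decide +kernel)) (p83 h).2.2.2.2.2.1.2.1 (by decide +kernel)) (p83 h).2.2.2.2.1.2.2.2 (by decide +kernel)) (p83 h).2.2.2.2.1.1.2.1 (by decide +kernel)) (ndF (ndF (ndF (ndF (ndF TOK.nil TOK.nil (p83 h).2.2.2.2.2.2.1.2 (by decide +kernel)) TOK.nil (p83 h).2.2.2.2.2.2.2.1 (by decide +kernel)) (ndF TOK.nil TOK.nil (p84 h).1.1.1.1.1.1.1 (by decide +kernel)) (p83 h).2.2.2.2.2.2.2.2 (by decide +kernel)) (ndF (ndF TOK.nil TOK.nil (p84 h).1.1.1.1.1.2.1 (by decide +kernel)) (ndF TOK.nil TOK.nil (p84 h).1.1.1.1.1.2.2.2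 (by decide +kernel)) (p84 h).1.1.1.1.1.2.2.1 (by decide +kernel)) (p84 h).1.1.1.1.1.1.2 (by decide +kernel)) (ndF (ndF (ndF TOK.nil TOK.nil (p84 h).1.1.1.1.2.1.2 (by decide +kernel)) (ndF TOK.nil TOK.nil (p84 h).1.1.1.1.2.2.2.1 (by decide +kernel)) (p84 h).1.1.1.1.2.2.1 (by decide +kernel)) (ndF (ndF TOK.nil TOK.nil (p84 h).1.1.1.2.1.1.1 (by decide +kernel)) (ndF TOK.nil TOK.nil (p84 h).1.1.1.2.1.2.1 (by decide +kernel)) (p84 h).1.1.1.2.1.1.2 (by decide +kernel)) (p84 h).1.1.1.1.2.2.2.2 (by decide +kernel)) (p84 h).1.1.1.1.2.1.1 (by decide +kernel)) (p83 h).2.2.2.2.2.2.1.1 (by decide +kernel)) (ndF (ndF (ndF (ndF (ndF (ndF TOK.nil TOK.nil (p84 h).1.1.1.2.1.2.2.2 (by decide +kernel)) TOK.nil (p84 h).1.1.1.2.2.1.1 (by decide +kernel)) (ndF TOK.nil TOK.nil (p84 h).1.1.1.2.2.1.2.2 (by decide +kernel)) (p84 h).1.1.1.2.2.1.2.1 (by decide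 +kernel)) (ndF (ndF TOK.nil TOK.nil (p84 h).1.1.1.2.2.2.2.1 (by decide +kernel)) (ndF TOK.nil TOK.nil (p84 h).1.1.2.1.1.1.1 (by decide +kernel)) (p84 h).1.1.1.2.2.2.2.2 (by decide +kernel)) (p84 h).1.1.1.2.2.2.1 (by decide +kernel)) (ndF (ndF (ndF TOK.nil TOK.nil (p84 h).1.1.2.1.1.2.1 (by decide +kernel)) (ndF TOK.nil TOK.nil (p84 h).1.1.2.1.1.2.2.2 (by decide +kernel)) (p84 h).1.1.2.1.1.2.2.1 (by decide +kernel)) (ndF (ndF TOK.nil TOK.nil (p84 h).1.1.2.1.2.1.2.1 (by decide +kernel)) (ndF TOK.nil TOK.nil (p84 h).1.1.2.1.2.2.1 (by decide +kernel)) (p84 h).1.1.2.1.2.1.2.2 (by decide +kernel)) (p84 h).1.1.2.1.2.1.1 (by decide +kernel)) (p84 h).1.1.2.1.1.1.2 (by decide +kernel)) (ndF (ndF (ndF (ndF (ndF TOK.nil TOK.nil (p84 h).1.1.2.1.2.2.2.2 (by decide +kernel)) TOK.nil (p84 h).1.1.2.2.1.1.1 (by decide +kernel)) (ndF TOK.nil TOK.nil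 (p84 h).1.1.2.2.1.2.1 (by decide +kernel)) (p84 h).1.1.2.2.1.1.2 (by decide +kernel)) (ndF (ndF TOK.nil TOK.nil (p84 h).1.1.2.2.1.2.2.2 (by decide +kernel)) (ndF TOK.nil TOK.nil (p84 h).1.1.2.2.2.1.2.1 (by decide +kernel)) (p84 h).1.1.2.2.2.1.1 (by decide +kernel)) (p84 h).1.1.2.2.1.2.2.1 (by decide +kernel)) (ndF (ndF (ndF TOK.nil TOK.nil (p84 h).1.1.2.2.2.2.1 (by decide +kernel)) (ndF TOK.nil TOK.nil (p84 h).1.1.2.2.2.2.2.2 (by decide +kernel)) (p84 h).1.1.2.2.2.2.2.1 (by decide +kernel)) (ndF (ndF TOK.nil TOK.nil (p84 h).1.2.1.1.1.1.2 (by decide +kernel)) (ndF TOK.nil TOK.nil (p84 h).1.2.1.1.1.2.2.1 (by decide +kernel)) (p84 h).1.2.1.1.1.2.1 (by decide +kernel)) (p84 h).1.2.1.1.1.1.1 (by decide +kernel)) (p84 h).1.1.2.2.2.1.2.2 (by decide +kernel)) (p84 h).1.1.2.1.2.2.2.1 (by decide +kernel)) (p84 h).1.1.1.2.1.2.2.1 (by decide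 +kernel))

theorem R_90_110_140_ok (h : RcOK RE.rowE) : R_90_110_140.OK :=
  okF (by decide +kernel) (ndF (ndF (ndF (ndF TOK.nil TOK.nil (p84 h).1.2.1.1.1.2.2.2 (by decide +kernel)) TOK.nil (p84 h).1.2.1.1.2.1.1 (by decide +kernel)) (ndF TOK.nil TOK.nil (p84 h).1.2.1.1.2.1.2.2 (by decide +kernel)) (p84 h).1.2.1.1.2.1.2.1 (by decide +kernel)) (ndF (ndF TOK.nil TOK.nil (p84 h).1.2.1.1.2.2.2.1 (by decide +kernel)) (ndF TOK.nil TOK.nil (p84 h).1.2.1.2.1.1.1 (by decide +kernel)) (p84 h).1.2.1.1.2.2.2.2 (by decide +kernel)) (p84 h).1.2.1.1.2.2.1 (by decide +kernel))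

theorem R_100_160_200_ok (h : RcOK RE.rowE) : R_100_160_200.OK :=
  okF (by decide +kernel) (ndF (ndF (ndF (ndF (ndF (ndF TOK.nil TOK.nil (p84 h).1.2.1.2.1.1.2 (by decide +kernel)) (ndF TOK.nil TOK.nil (p84 h).1.2.1.2.1.2.2.1 (by decide +kernel)) (p84 h).1.2.1.2.1.2.1 (by decide +kernel)) (ndF (ndF TOK.nil TOK.nil (p84 h).1.2.1.2.2.1.1 (by decide +kernel)) (ndF TOK.nil TOK.nil (p84 h).1.2.1.2.2.1.2.2 (by decide +kernel)) (p84 h).1.2.1.2.2.1.2.1 (by decide +kernel)) (p84 h).1.2.1.2.1.2.2.2 (by decide +kernel)) (ndF (ndF (ndF TOK.nil TOK.nil (p84 h).1.2.1.2.2.2.2.1 (by decide +kernel)) (ndF TOK.nil TOK.nil (p84 h).1.2.2.1.1.1.1 (by decide +kernel)) (p84 h).1.2.1.2.2.2.2.2 (by decide +kernel)) (ndF (ndF TOK.nil TOK.nil (p84 h).1.2.2.1.1.2.1 (by decide +kernel)) (ndF TOK.nil TOK.nil (p84 h).1.2.2.1.1.2.2.2 (by decide +kernel)) (p84 h).1.2.2.1.1.2.2.1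 (by decide +kernel)) (p84 h).1.2.2.1.1.1.2 (by decide +kernel)) (p84 h).1.2.1.2.2.2.1 (by decide +kernel)) (ndF (ndF (ndF (ndF TOK.nil TOK.nil (p84 h).1.2.2.1.2.1.2.1 (by decide +kernel)) (ndF TOK.nil TOK.nil (p84 h).1.2.2.1.2.2.1 (by decide +kernel)) (p84 h).1.2.2.1.2.1.2.2 (by decide +kernel)) (ndF (ndF TOK.nil TOK.nil (p84 h).1.2.2.1.2.2.2.2 (by decide +kernel)) (ndF TOK.nil TOK.nil (p84 h).1.2.2.2.1.1.2 (by decide +kernel)) (p84 h).1.2.2.2.1.1.1 (by decide +kernel)) (p84 h).1.2.2.1.2.2.2.1 (by decide +kernel)) (ndF (ndF (ndF TOK.nil TOK.nil (p84 h).1.2.2.2.1.2.2.1 (by decide +kernel)) (ndF TOK.nil TOK.nil (p84 h).1.2.2.2.2.1.1 (by decide +kernel)) (p84 h).1.2.2.2.1.2.2.2 (by decide +kernel)) (ndF (ndF TOK.nil TOK.nil (p84 h).1.2.2.2.2.1.2.2 (by decide +kernel)) (ndF TOK.nil TOK.nil (p84 h).1.2.2.2.2.2.2.1 (by decide +kernel))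 (p84 h).1.2.2.2.2.2.1 (by decide +kernel)) (p84 h).1.2.2.2.2.1.2.1 (by decide +kernel)) (p84 h).1.2.2.2.1.2.1 (by decide +kernel)) (p84 h).1.2.2.1.2.1.1 (by decide +kernel)) (ndF (ndF (ndF (ndF (ndF TOK.nil TOK.nil (p84 h).2.1.1.1.1.1.1 (by decide +kernel)) (ndF TOK.nil TOK.nil (p84 h).2.1.1.1.1.2.1 (by decide +kernel)) (p84 h).2.1.1.1.1.1.2 (by decide +kernel)) (ndF (ndF TOK.nil TOK.nil (p84 h).2.1.1.1.1.2.2.2 (by decide +kernel)) (ndF TOK.nil TOK.nil (p84 h).2.1.1.1.2.1.2 (by decide +kernel)) (p84 h).2.1.1.1.2.1.1 (by decide +kernel)) (p84 h).2.1.1.1.1.2.2.1 (by decide +kernel)) (ndF (ndF (ndF TOK.nil TOK.nil (p84 h).2.1.1.1.2.2.2.1 (by decide +kernel)) (ndF TOK.nil TOK.nil (p84 h).2.1.1.2.1.1.1 (by decide +kernel)) (p84 h).2.1.1.1.2.2.2.2 (by decide +kernel)) (ndF (ndF TOK.nil TOK.nil (p84 h).2.1.1.2.1.2.1 (by decide +kernel))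 (ndF TOK.nil TOK.nil (p84 h).2.1.1.2.1.2.2.2 (by decide +kernel)) (p84 h).2.1.1.2.1.2.2.1 (by decide +kernel)) (p84 h).2.1.1.2.1.1.2 (by decide +kernel)) (p84 h).2.1.1.1.2.2.1 (by decide +kernel)) (ndF (ndF (ndF (ndF TOK.nil TOK.nil (p84 h).2.1.1.2.2.1.2.1 (by decide +kernel)) (ndF TOK.nil TOK.nil (p84 h).2.1.1.2.2.2.1 (by decide +kernel)) (p84 h).2.1.1.2.2.1.2.2 (by decide +kernel)) (ndF (ndF TOK.nil TOK.nil (p84 h).2.1.1.2.2.2.2.2 (by decide +kernel)) (ndF TOK.nil TOK.nil (p84 h).2.1.2.1.1.1.2 (by decide +kernel)) (p84 h).2.1.2.1.1.1.1 (by decide +kernel)) (p84 h).2.1.1.2.2.2.2.1 (by decide +kernel)) (ndF (ndF (ndF TOK.nil TOK.nil (p84 h).2.1.2.1.1.2.2.1 (by decide +kernel)) (ndF TOK.nil TOK.nil (p84 h).2.1.2.1.2.1.1 (by decide +kernel)) (p84 h).2.1.2.1.1.2.2.2 (by decide +kernel)) (ndF (ndF TOK.nil TOK.nil (p84 h).2.1.2.1.2.1.2.2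 (by decide +kernel)) TOK.nil (p84 h).2.1.2.1.2.2.1 (by decide +kernel)) (p84 h).2.1.2.1.2.1.2.1 (by decide +kernel)) (p84 h).2.1.2.1.1.2.1 (by decide +kernel)) (p84 h).2.1.1.2.2.1.1 (by decide +kernel)) (p84 h).1.2.2.2.2.2.2.2 (by decide +kernel))

theorem R_80_90_110_ok (h : RcOK RE.rowE) : R_80_90_110.OK :=
  okF (by decide +kernel) (ndF (ndF (ndF (ndF (ndF (ndF TOK.nil TOK.nil (p84 h).2.1.2.1.2.2.2.1 (by decide +kernel)) TOK.nil (p84 h).2.1.2.1.2.2.2.2 (by decide +kernel)) (ndF (ndF TOK.nil TOK.nil (p84 h).2.1.2.2.1.1.2 (by decide +kernel)) TOK.nil (p84 h).2.1.2.2.1.2.1 (by decide +kernel)) (p84 h).2.1.2.2.1.1.1 (by decide +kernel)) (ndF (ndF (ndF TOK.nil TOK.nil (p84 h).2.1.2.2.1.2.2.2 (by decide +kernel)) TOK.nil (p84 h).2.1.2.2.2.1.1 (by decide +kernel)) (ndF (ndF TOK.nil TOK.nil (p84 h).2.1.2.2.2.1.2.2 (by decide +kernel))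 TOK.nil (p84 h).2.1.2.2.2.2.1 (by decide +kernel)) (p84 h).2.1.2.2.2.1.2.1 (by decide +kernel)) (p84 h).2.1.2.2.1.2.2.1 (by decide +kernel)) (ndF (ndF (ndF (ndF TOK.nil TOK.nil (p84 h).2.1.2.2.2.2.2.2 (by decide +kernel)) TOK.nil (p84 h).2.2.1.1.1.1.1 (by decide +kernel)) (ndF (ndF TOK.nil TOK.nil (p84 h).2.2.1.1.1.2.1 (by decide +kernel)) TOK.nil (p84 h).2.2.1.1.1.2.2.1 (by decide +kernel)) (p84 h).2.2.1.1.1.1.2 (by decide +kernel)) (ndF (ndF (ndF TOK.nil TOK.nil (p84 h).2.2.1.1.2.1.1 (by decide +kernel)) TOK.nil (p84 h).2.2.1.1.2.1.2.1 (by decide +kernel)) (ndF TOK.nil TOK.nil (p84 h).2.2.1.1.2.2.1 (by decide +kernel)) (p84 h).2.2.1.1.2.1.2.2 (by decide +kernel)) (p84 h).2.2.1.1.1.2.2.2 (by decide +kernel)) (p84 h).2.1.2.2.2.2.2.1 (by decide +kernel)) (ndF (ndF (ndF (ndF (ndF TOK.nil TOK.nil (p84 h).2.2.1.1.2.2.2.2 (by decide +kernel))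 TOK.nil (p84 h).2.2.1.2.1.1.1 (by decide +kernel)) (ndF (ndF TOK.nil TOK.nil (p84 h).2.2.1.2.1.2.1 (by decide +kernel)) TOK.nil (p84 h).2.2.1.2.1.2.2.1 (by decide +kernel)) (p84 h).2.2.1.2.1.1.2 (by decide +kernel)) (ndF (ndF (ndF TOK.nil TOK.nil (p84 h).2.2.1.2.2.1.1 (by decide +kernel)) TOK.nil (p84 h).2.2.1.2.2.1.2.1 (by decide +kernel)) (ndF TOK.nil TOK.nil (p84 h).2.2.1.2.2.2.1 (by decide +kernel)) (p84 h).2.2.1.2.2.1.2.2 (by decide +kernel)) (p84 h).2.2.1.2.1.2.2.2 (by decide +kernel)) (ndF (ndF (ndF (ndF TOK.nil TOK.nil (p84 h).2.2.1.2.2.2.2.2 (by decide +kernel)) TOK.nil (p84 h).2.2.2.1.1.1.1 (by decide +kernel)) (ndF (ndF TOK.nil TOK.nil (p84 h).2.2.2.1.1.2.1 (by decide +kernel)) TOK.nil (p84 h).2.2.2.1.1.2.2.1 (by decide +kernel)) (p84 h).2.2.2.1.1.1.2 (by decide +kernel)) (ndF (ndF (ndF TOK.nil TOK.nil (p84 h).2.2.2.1.2.1.1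 (by decide +kernel)) TOK.nil (p84 h).2.2.2.1.2.1.2.1 (by decide +kernel)) (ndF TOK.nil TOK.nil (p84 h).2.2.2.1.2.2.1 (by decide +kernel)) (p84 h).2.2.2.1.2.1.2.2 (by decide +kernel)) (p84 h).2.2.2.1.1.2.2.2 (by decide +kernel)) (p84 h).2.2.1.2.2.2.2.1 (by decide +kernel)) (p84 h).2.2.1.1.2.2.2.1 (by decide +kernel))

theorem R_120_140_160_ok (h : RcOK RE.rowE) : R_120_140_160.OK :=
  okF (by decide +kernel) (ndF (ndF (ndF (ndF (ndF (ndF TOK.nil TOK.nil (p84 h).2.2.2.1.2.2.2.1 (by decide +kernel)) (ndF TOK.nil TOK.nil (p84 h).2.2.2.2.1.1.1 (by decide +kernel)) (p84 h).2.2.2.1.2.2.2.2 (by decide +kernel)) (ndF (ndF TOK.nil TOK.nil (p84 h).2.2.2.2.1.2.1 (by decide +kernel)) TOK.nil (p84 h).2.2.2.2.1.2.2.1 (by decide +kernel)) (p84 h).2.2.2.2.1.1.2 (by decide +kernel)) (ndF (ndF (ndF TOK.nil TOK.nil (p84 h).2.2.2.2.2.1.1 (by decide +kernel))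 TOK.nil (p84 h).2.2.2.2.2.1.2.1 (by decide +kernel)) (ndF (ndF TOK.nil TOK.nil (p84 h).2.2.2.2.2.2.1 (by decide +kernel)) TOK.nil (p84 h).2.2.2.2.2.2.2.1 (by decide +kernel)) (p84 h).2.2.2.2.2.1.2.2 (by decide +kernel)) (p84 h).2.2.2.2.1.2.2.2 (by decide +kernel)) (ndF (ndF (ndF (ndF TOK.nil TOK.nil (p85 h).1.1.1.1.1.1.1.1 (by decide +kernel)) (ndF TOK.nil TOK.nil (p85 h).1.1.1.1.1.1.2.1 (by decide +kernel)) (p85 h).1.1.1.1.1.1.1.2 (by decide +kernel)) (ndF (ndF TOK.nil TOK.nil (p85 h).1.1.1.1.1.1.2.2.2 (by decide +kernel)) TOK.nil (p85 h).1.1.1.1.1.2.1.1 (by decide +kernel)) (p85 h).1.1.1.1.1.1.2.2.1 (by decide +kernel)) (ndF (ndF (ndF TOK.nil TOK.nil (p85 h).1.1.1.1.1.2.2.1 (by decide +kernel)) TOK.nil (p85 h).1.1.1.1.1.2.2.2.1 (by decide +kernel)) (ndF (ndF TOK.nil TOK.nil (p85 h).1.1.1.1.2.1.1.1 (by decide +kernel)) TOK.nil (p85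 h).1.1.1.1.2.1.1.2 (by decide +kernel)) (p85 h).1.1.1.1.1.2.2.2.2 (by decide +kernel)) (p85 h).1.1.1.1.1.2.1.2 (by decide +kernel)) (p84 h).2.2.2.2.2.2.2.2 (by decide +kernel)) (ndF (ndF (ndF (ndF (ndF TOK.nil TOK.nil (p85 h).1.1.1.1.2.1.2.2.1 (by decide +kernel)) (ndF TOK.nil TOK.nil (p85 h).1.1.1.1.2.2.1.1 (by decide +kernel)) (p85 h).1.1.1.1.2.1.2.2.2 (by decide +kernel)) (ndF (ndF TOK.nil TOK.nil (p85 h).1.1.1.1.2.2.2.1 (by decide +kernel)) TOK.nil (p85 h).1.1.1.1.2.2.2.2.1 (by decide +kernel)) (p85 h).1.1.1.1.2.2.1.2 (by decide +kernel)) (ndF (ndF (ndF TOK.nil TOK.nil (p85 h).1.1.1.2.1.1.1.1 (by decide +kernel)) TOK.nil (p85 h).1.1.1.2.1.1.1.2 (by decide +kernel)) (ndF (ndF TOK.nil TOK.nil (p85 h).1.1.1.2.1.1.2.2.1 (by decide +kernel)) TOK.nil (p85 h).1.1.1.2.1.1.2.2.2 (by decide +kernel)) (p85 h).1.1.1.2.1.1.2.1 (by decide +kernel))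 (p85 h).1.1.1.1.2.2.2.2.2 (by decide +kernel)) (ndF (ndF (ndF (ndF TOK.nil TOK.nil (p85 h).1.1.1.2.1.2.1.2 (by decide +kernel)) (ndF TOK.nil TOK.nil (p85 h).1.1.1.2.1.2.2.2.1 (by decide +kernel)) (p85 h).1.1.1.2.1.2.2.1 (by decide +kernel)) (ndF (ndF TOK.nil TOK.nil (p85 h).1.1.1.2.2.1.1.1 (by decide +kernel)) TOK.nil (p85 h).1.1.1.2.2.1.1.2 (by decide +kernel)) (p85 h).1.1.1.2.1.2.2.2.2 (by decide +kernel)) (ndF (ndF (ndF TOK.nil TOK.nil (p85 h).1.1.1.2.2.1.2.2.1 (by decide +kernel)) TOK.nil (p85 h).1.1.1.2.2.1.2.2.2 (by decide +kernel)) (ndF (ndF TOK.nil TOK.nil (p85 h).1.1.1.2.2.2.1.2.1 (by decide +kernel)) TOK.nil (p85 h).1.1.1.2.2.2.1.2.2 (by decide +kernel)) (p85 h).1.1.1.2.2.2.1.1 (by decide +kernel)) (p85 h).1.1.1.2.2.1.2.1 (by decide +kernel)) (p85 h).1.1.1.2.1.2.1.1 (by decide +kernel)) (p85 h).1.1.1.1.2.1.2.1 (by decide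 +kernel))


end TB
end Pool.Agent.Lib.MP_6947cd_al
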